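import Pool.Agent.MK.LL

/-! # The degree on the coordinate ring of the conic

PROOFS.  `v = (vInf L).v` and `ac = (vInf L).ac`; `v₀ = (vPt 0).v`.

* `swap_zero_inf`: for a polynomial `P ≠ 0` let `i` be minimal with `P.coeff i ≠ 0`.  `sM P = Σ s(P_n) b^n / z^n`
  has `vInf`-valuation `i` and angular component `s(P_i) b^i` (`Val.add_lt`, or: `sM P * X^N` is the
  polynomial `Σ s(P_n) b^n X^(N-n)`, `N = natDegree P`, of degree `N - i`), and `v₀ P = i`
  (`minpoly L 0 = X`; `P = X^i P'`, `P'(0) ≠ 0`).  Hence `v (sM f) = v₀ f` for all `f ≠ 0`; if it is `0` then for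
  `f = P/Q` with (after dividing by powers of `X`) `P(0), Q(0) ≠ 0`: `ac (sM f) = s(P(0)/Q(0))` and
  `(vPt 0).ac f = P(0)/Q(0)`.
* `tame_zero_iff`: `Val.tame_congr_zero` with `w = (vInf L).comap C.sM`, `w' = vPt 0`, `φ = id`,
  `j = (algebraMap L Ω).comp C.s`; note `(w.comap φ).tame m = w.tame (K2.map φ m)` (`tame_comap`: check on
  symbols with `K2_hom_ext`).  `tame_zero_val`: `Val.tame_congr`.
* `A_const`: let `f * X^n = P`.  `v₀ f = v (sM f) = v f ≥ 0`, so `v₀ P ≥ n` and `X^n ∣ P`, `P = X^n P'`,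
  `f = P'`; `v f = -natDegree P' ≥ 0` so `f = C c`; `sM f = f` gives `s c = c`, `c ∈ F` (`C.fix`).
* `A_v_nonpos`: if `v f > 0` then by `A_const` `f = C c`, `v f = 0` (`vInf_C`), contradiction.
* `degA`: from `Val.v_mul`, `Val.v_add`, `A_const`.
* `exists_top`: `f = C c X^n + C (s c b^n) X⁻¹^n`: `sM f = f` and `Val.add_lt`.
* `deg_le_one`: if `f = 0` take `w = 0`.  If `v f = 0` then `f = c ∈ F`, `w = c i`.  If `v f = -1`, `ac f = t`, take
  `q` with `s(q)/(2α) = t`, i.e. `q = s(2 α t) = -2 α s(t)`, `w₀ = 0 + q j`;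
  `f - l w₀` has `v ≥ 0` (`Val.ac_cancel`/`v_add`: if `f ≠ l w₀` and `v (f - l w₀) = -1` then
  `ac_add` gives angular component `0`, impossible) so it is a constant `c ∈ F`, `w = w₀ + c i`.
* `v_l`: from the definition, `Val.add_lt`.
-/

set_option autoImplicit false
set_option linter.unusedSectionVars false

namespace Pool.Agent.MK

universe u v w

open scoped Polynomial

theorem tame_comap {K : Type u} {k : Type v} {E : Type w} [Field K] [Field k] [Field E]
    (w : Val E k) (φ : K →+* E) (x : K2 K) : (w.comap φ).tame x = w.tame (K2.map φ x) := by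
  have hA : ∀ a : K, a ≠ 0 → (w.comap φ).A a = w.A (φ a) := by
    intro a ha
    apply Additive.toMul.injective
    rw [Units.ext_iff, (w.comap φ).A_val ha, w.A_val ((map_ne_zero φ).mpr ha)]
    rfl
  induction x using K2_induction with
  | hS a b ha hb =>
    rw [K2.map_S, (w.comap φ).tame_S ha hb,
      w.tame_S ((map_ne_zero φ).mpr ha) ((map_ne_zero φ).mpr hb), hA a ha, hA b hb]
    rfl
  | hz => rw [map_zero, map_zero, map_zero]
  | hadd x y hx hy => rw [map_add, map_add, map_add, hx, hy]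

namespace CQ

variable {F L : Type u} [Field F] [Field L] [Algebra F L] (C : CQ F L)

private theorem adX_ne : (RatFunc.X : RatFunc L) ≠ 0 := RatFunc.X_ne_zero

private theorem ad_v_bX : (vInf L).v (RatFunc.C C.bL / RatFunc.X) = 1 := by
  rw [(vInf L).v_div C.CbL_ne adX_ne, (vInf_C C.bL).1, vInf_X.1]
  norm_num

private theorem ad_sM_mon (n : ℕ) (c : L) :
    C.sM (algebraMap L[X] (RatFunc L) (Polynomial.C c * Polynomial.X ^ n)) =
      RatFunc.C (C.s c) * (RatFunc.C C.bL / RatFunc.X) ^ n := by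
  rw [map_mul, map_pow, RatFunc.algebraMap_C, RatFunc.algebraMap_X, map_mul, map_pow, C.sM_C,
    C.sM_X]

private theorem ad_nonneg (P : L[X]) :
    0 ≤ (vInf L).v (C.sM (algebraMap L[X] (RatFunc L) P)) := by
  induction P using Polynomial.induction_on' with
  | add p q hp hq =>
    rw [map_add, map_add]
    exact (vInf L).v_add_nonneg hp hq
  | monomial n c =>
    rw [← Polynomial.C_mul_X_pow_eq_monomial, C.ad_sM_mon]
    apply (vInf L).v_mul_nonneg
    · rw [(vInf_C _).1]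
    · rw [(vInf L).v_pow, C.ad_v_bX]
      positivity

/-- the case of a polynomial with nonzero constant term -/
private theorem ad_unit {P : L[X]} (hP : P.coeff 0 ≠ 0) :
    (vInf L).v (C.sM (algebraMap L[X] (RatFunc L) P)) = 0 ∧
    (vInf L).ac (C.sM (algebraMap L[X] (RatFunc L) P)) = C.s (P.coeff 0) := by
  have h1 : algebraMap L[X] (RatFunc L) P = RatFunc.C (P.coeff 0) +
      algebraMap L[X] (RatFunc L) P.divX * RatFunc.X := by
    conv_lhs => rw [← Polynomial.divX_mul_X_add P]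
    rw [map_add, map_mul, RatFunc.algebraMap_X, RatFunc.algebraMap_C, add_comm]
  have h2 : C.sM (algebraMap L[X] (RatFunc L) P) = RatFunc.C (C.s (P.coeff 0)) +
      C.sM (algebraMap L[X] (RatFunc L) P.divX) * (RatFunc.C C.bL / RatFunc.X) := by
    rw [h1, map_add, map_mul, C.sM_C, C.sM_X]
  have h3 : (RatFunc.C (C.s (P.coeff 0)) : RatFunc L) ≠ 0 :=
    (map_ne_zero _).mpr ((map_ne_zero _).mpr hP)
  have h4 : C.sM (algebraMap L[X] (RatFunc L) P.divX) * (RatFunc.C C.bL / RatFunc.X) = 0 ∨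
      (vInf L).v (RatFunc.C (C.s (P.coeff 0))) <
        (vInf L).v (C.sM (algebraMap L[X] (RatFunc L) P.divX) *
          (RatFunc.C C.bL / RatFunc.X)) := by
    by_cases h5 : C.sM (algebraMap L[X] (RatFunc L) P.divX) = 0
    · left
      rw [h5, zero_mul]
    · right
      rw [(vInf_C _).1, (vInf L).v_mul _ _ h5 (div_ne_zero C.CbL_ne adX_ne), C.ad_v_bX]
      have := C.ad_nonneg P.divX
      omega
  obtain ⟨-, h6, h7⟩ := (vInf L).add_lt h3 h4
  rw [← h2] at h6 h7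
  rw [h6, h7, (vInf_C _).1, (vInf_C _).2]
  exact ⟨rfl, rfl⟩

private theorem ad_factor {P : L[X]} (hP : P ≠ 0) :
    ∃ (i : ℕ) (P' : L[X]), P'.coeff 0 ≠ 0 ∧ P = Polynomial.X ^ i * P' := by
  obtain ⟨n, a, h1, h2⟩ := WfDvdMonoid.max_power_factor hP Polynomial.prime_X.irreducible
  exact ⟨n, a, fun h => h1 (Polynomial.X_dvd_iff.2 h), h2⟩

private theorem ad_unit0 {P : L[X]} (hP : P.coeff 0 ≠ 0) :
    (vPt (0 : AlgebraicClosure L)).v (algebraMap L[X] (RatFunc L) P) = 0 ∧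
    (vPt (0 : AlgebraicClosure L)).ac (algebraMap L[X] (RatFunc L) P) =
      algebraMap L (AlgebraicClosure L) (P.coeff 0) := by
  have h1 : Polynomial.aeval (0 : AlgebraicClosure L) P =
      algebraMap L (AlgebraicClosure L) (P.coeff 0) :=
    (Polynomial.coeff_zero_eq_aeval_zero' P).symm
  have h2 : Polynomial.aeval (0 : AlgebraicClosure L) P ≠ 0 := by
    rw [h1]
    exact (map_ne_zero _).mpr hP
  obtain ⟨h3, h4⟩ := vPt_v_eq_zero (0 : AlgebraicClosure L) h2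
  exact ⟨h3, h4.trans h1⟩

theorem swap_zero_inf {f : RatFunc L} (hf : f ≠ 0) :
    (vInf L).v (C.sM f) = (vPt (0 : AlgebraicClosure L)).v f ∧
    ((vPt (0 : AlgebraicClosure L)).v f = 0 →
      (vPt (0 : AlgebraicClosure L)).ac f =
        algebraMap L (AlgebraicClosure L) (C.s ((vInf L).ac (C.sM f)))) := by
  obtain ⟨P, Q, hQ, rfl⟩ := ratFunc_frac L f
  have hP : P ≠ 0 := by
    rintro rfl
    exact hf (by rw [map_zero, zero_div])
  obtain ⟨i, P', hP', rfl⟩ := ad_factor hP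
  obtain ⟨j, Q', hQ', rfl⟩ := ad_factor hQ
  have nX : (RatFunc.X : RatFunc L) ≠ 0 := adX_ne
  have nP : algebraMap L[X] (RatFunc L) P' ≠ 0 := by
    rw [map_ne_zero_iff _ (ratFunc_inj L)]
    rintro rfl
    exact hP' (Polynomial.coeff_zero 0)
  have nQ : algebraMap L[X] (RatFunc L) Q' ≠ 0 := by
    rw [map_ne_zero_iff _ (ratFunc_inj L)]
    rintro rfl
    exact hQ' (Polynomial.coeff_zero 0)
  have nP2 : C.sM (algebraMap L[X] (RatFunc L) P') ≠ 0 := (map_ne_zero _).mpr nP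
  have nQ2 : C.sM (algebraMap L[X] (RatFunc L) Q') ≠ 0 := (map_ne_zero _).mpr nQ
  have nb : (RatFunc.C C.bL / RatFunc.X : RatFunc L) ≠ 0 := div_ne_zero C.CbL_ne adX_ne
  have hv0 : (vPt (0 : AlgebraicClosure L)).v
      (algebraMap L[X] (RatFunc L) (Polynomial.X ^ i * P') /
        algebraMap L[X] (RatFunc L) (Polynomial.X ^ j * Q')) = i - j := by
    rw [map_mul, map_mul, map_pow, map_pow, RatFunc.algebraMap_X,
      Val.v_div _ (mul_ne_zero (pow_ne_zero _ nX) nP) (mul_ne_zero (pow_ne_zero _ nX) nQ),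
      Val.v_mul _ _ _ (pow_ne_zero _ nX) nP, Val.v_mul _ _ _ (pow_ne_zero _ nX) nQ,
      Val.v_pow, Val.v_pow, vPt_X_zero.1, (ad_unit0 hP').1, (ad_unit0 hQ').1]
    ring
  have hsX : ∀ (m : ℕ) (R : L[X]), C.sM (algebraMap L[X] (RatFunc L) (Polynomial.X ^ m * R)) =
      (RatFunc.C C.bL / RatFunc.X) ^ m * C.sM (algebraMap L[X] (RatFunc L) R) := by
    intro m R
    rw [map_mul, map_pow, RatFunc.algebraMap_X, map_mul, map_pow, C.sM_X]
  refine ⟨?_, ?_⟩
  · rw [hv0, map_div₀, hsX, hsX,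
      Val.v_div _ (mul_ne_zero (pow_ne_zero _ nb) nP2) (mul_ne_zero (pow_ne_zero _ nb) nQ2),
      Val.v_mul _ _ _ (pow_ne_zero _ nb) nP2, Val.v_mul _ _ _ (pow_ne_zero _ nb) nQ2,
      Val.v_pow, Val.v_pow, C.ad_v_bX, (C.ad_unit hP').1, (C.ad_unit hQ').1]
    ring
  · intro h0
    rw [hv0] at h0
    have hij : i = j := by omega
    subst hij
    have e1 : algebraMap L[X] (RatFunc L) (Polynomial.X ^ i * P') /
        algebraMap L[X] (RatFunc L) (Polynomial.X ^ i * Q') =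
        algebraMap L[X] (RatFunc L) P' / algebraMap L[X] (RatFunc L) Q' := by
      rw [map_mul, map_mul, map_pow, RatFunc.algebraMap_X]
      exact mul_div_mul_left _ _ (pow_ne_zero _ nX)
    rw [e1, Val.ac_div, (ad_unit0 hP').2, (ad_unit0 hQ').2, map_div₀, Val.ac_div,
      (C.ad_unit hP').2, (C.ad_unit hQ').2, map_div₀ C.s, C.s_s, C.s_s, map_div₀]

theorem tame_zero_iff (m : K2 (RatFunc L)) :
    (vPt (0 : AlgebraicClosure L)).tame m = 0 ↔ (vInf L).tame (K2.map C.sM m) = 0 := by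
  have h := Val.tame_congr_zero ((vInf L).comap C.sM) (vPt (0 : AlgebraicClosure L))
    (RingHom.id (RatFunc L)) ((algebraMap L (AlgebraicClosure L)).comp C.s)
    (fun x hx => (C.swap_zero_inf hx).1.symm)
    (fun x hx h0 => (C.swap_zero_inf hx).2 ((C.swap_zero_inf hx).1.symm.trans h0)) m
  rw [tame_comap, K2.map_id] at h
  exact h

/-- If `m` is `s`-invariant at `∞` with residue `d`, its residue at `0` is `s d`. -/
theorem tame_zero_val (m : K2 (RatFunc L)) (d : L) (hd : d ≠ 0)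
    (h : (vInf L).tame (K2.map C.sM m) = (vInf L).A (RatFunc.C d)) :
    (vPt (0 : AlgebraicClosure L)).tame m =
      (vPt (0 : AlgebraicClosure L)).A (RatFunc.C (C.s d)) := by
  have h1 := Val.tame_congr ((vInf L).comap C.sM) (vPt (0 : AlgebraicClosure L))
    (RingHom.id (RatFunc L)) ((algebraMap L (AlgebraicClosure L)).comp C.s)
    (fun x hx => (C.swap_zero_inf hx).1.symm)
    (fun x hx h0 => (C.swap_zero_inf hx).2 ((C.swap_zero_inf hx).1.symm.trans h0)) m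
  rw [tame_comap, K2.map_id, h] at h1
  have h2 : (RatFunc.C d : RatFunc L) ≠ 0 := (map_ne_zero _).mpr hd
  have h3 : (RatFunc.C (C.s d) : RatFunc L) ≠ 0 := (map_ne_zero _).mpr ((map_ne_zero _).mpr hd)
  apply Additive.toMul.injective
  refine Eq.trans h1 ?_
  rw [Units.ext_iff, Val.A_val _ h3, (vPt_C _ _).2]
  show algebraMap L (AlgebraicClosure L) (C.s (((vInf L).A (RatFunc.C d)).toMul : L)) = _
  rw [Val.A_val _ h2, (vInf_C d).2]

theorem A_const (f : C.A) (hf : f ≠ 0) (h : 0 ≤ (vInf L).v (f : RatFunc L)) :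
    ∃ c : F, c ≠ 0 ∧ f = algebraMap F C.A c := by
  have hf' : (f : RatFunc L) ≠ 0 := fun h0 => hf (Subtype.ext h0)
  obtain ⟨hs, n, P, hP⟩ := f.2
  have nX : (RatFunc.X : RatFunc L) ≠ 0 := adX_ne
  have hP0 : P ≠ 0 := by
    rintro rfl
    rw [map_zero] at hP
    exact mul_ne_zero hf' (pow_ne_zero _ nX) hP
  have hv0 : (vPt (0 : AlgebraicClosure L)).v (f : RatFunc L) = (vInf L).v (f : RatFunc L) := by
    have h1 := (C.swap_zero_inf hf').1
    rw [hs] at h1
    exact h1.symm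
  obtain ⟨i, P', hP', rfl⟩ := ad_factor hP0
  have nP : algebraMap L[X] (RatFunc L) P' ≠ 0 := by
    rw [map_ne_zero_iff _ (ratFunc_inj L)]
    rintro rfl
    exact hP' (Polynomial.coeff_zero 0)
  have h2 : (vPt (0 : AlgebraicClosure L)).v ((f : RatFunc L) * RatFunc.X ^ n) = i := by
    rw [hP, map_mul, map_pow, RatFunc.algebraMap_X, Val.v_mul _ _ _ (pow_ne_zero _ nX) nP,
      Val.v_pow, vPt_X_zero.1, (ad_unit0 hP').1]
    ring
  rw [Val.v_mul _ _ _ hf' (pow_ne_zero _ nX), Val.v_pow, vPt_X_zero.1, hv0] at h2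
  have hin : n ≤ i := by omega
  obtain ⟨t, rfl⟩ := Nat.exists_eq_add_of_le hin
  have h3 : (f : RatFunc L) = algebraMap L[X] (RatFunc L) (Polynomial.X ^ t * P') := by
    apply mul_right_cancel₀ (pow_ne_zero n nX)
    rw [hP, map_mul, map_mul, map_pow, map_pow, RatFunc.algebraMap_X]
    ring
  have h4 : (Polynomial.X ^ t * P' : L[X]) ≠ 0 := by
    intro h0
    rw [h0, map_zero] at h3
    exact hf' h3
  have h5 := (vInf_poly L h4).1
  rw [← h3] at h5
  have h6 : (Polynomial.X ^ t * P' : L[X]).natDegree = 0 := by omega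
  rw [Polynomial.eq_C_of_natDegree_eq_zero h6, RatFunc.algebraMap_C] at h3
  rw [h3, C.sM_C] at hs
  obtain ⟨c, hc⟩ := C.fix _ (RatFunc.C_injective hs)
  refine ⟨c, ?_, ?_⟩
  · rintro rfl
    rw [map_zero] at hc
    rw [← hc, map_zero] at h3
    exact hf' h3
  · apply Subtype.ext
    rw [h3, ← hc]
    rfl

private theorem ad_alg (c : F) :
    ((algebraMap F C.A c : C.A) : RatFunc L) = RatFunc.C (algebraMap F L c) := rfl

theorem A_v_nonpos (f : C.A) : (vInf L).v (f : RatFunc L) ≤ 0 := by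
  by_contra hcon
  push Not at hcon
  have hf : f ≠ 0 := by
    rintro rfl
    have h1 : ((0 : C.A) : RatFunc L) = 0 := rfl
    rw [h1, (vInf L).v_zero] at hcon
    exact lt_irrefl _ hcon
  obtain ⟨c, -, rfl⟩ := C.A_const f hf hcon.le
  rw [C.ad_alg, (vInf_C _).1] at hcon
  exact lt_irrefl _ hcon

theorem dg_eq (f : C.A) : (C.dg f : ℤ) = -(vInf L).v (f : RatFunc L) := by
  unfold dg
  rw [Int.toNat_of_nonneg]
  have := C.A_v_nonpos f
  omega

theorem dg_mul (f g : C.A) (hf : f ≠ 0) (hg : g ≠ 0) : C.dg (f * g) = C.dg f + C.dg g := by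
  have hf' : (f : RatFunc L) ≠ 0 := fun h0 => hf (Subtype.ext h0)
  have hg' : (g : RatFunc L) ≠ 0 := fun h0 => hg (Subtype.ext h0)
  have h1 := C.dg_eq (f * g)
  have h2 := C.dg_eq f
  have h3 := C.dg_eq g
  have h4 : ((f * g : C.A) : RatFunc L) = (f : RatFunc L) * (g : RatFunc L) := rfl
  rw [h4, (vInf L).v_mul _ _ hf' hg'] at h1
  omega

theorem dg_sub (f g : C.A) (hf : f ≠ 0) (hg : g ≠ 0) (h : f ≠ g) :
    C.dg (f - g) ≤ max (C.dg f) (C.dg g) := by
  have hf' : (f : RatFunc L) ≠ 0 := fun h0 => hf (Subtype.ext h0)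
  have hg' : (g : RatFunc L) ≠ 0 := fun h0 => hg (Subtype.ext h0)
  have h1 := C.dg_eq (f - g)
  have h2 := C.dg_eq f
  have h3 := C.dg_eq g
  have h4 : ((f - g : C.A) : RatFunc L) = (f : RatFunc L) + -(g : RatFunc L) := by
    rw [← sub_eq_add_neg]
    rfl
  have h5 : (f : RatFunc L) + -(g : RatFunc L) ≠ 0 := by
    intro h0
    apply h
    apply Subtype.ext
    rw [← sub_eq_add_neg] at h0
    exact sub_eq_zero.1 h0
  have h6 := (vInf L).v_add hf' (neg_ne_zero.mpr hg') h5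
  rw [← h4, (vInf L).v_neg] at h6
  rcases min_le_iff.1 h6 with h7 | h7
  · exact le_max_of_le_left (by omega)
  · exact le_max_of_le_right (by omega)

theorem dg_unit (f : C.A) (hf : f ≠ 0) (h : C.dg f = 0) : IsUnit f := by
  have h1 := C.dg_eq f
  obtain ⟨c, hc, rfl⟩ := C.A_const f hf (by omega)
  exact (isUnit_iff_ne_zero.2 hc).map (algebraMap F C.A)

/-- The degree on the coordinate ring. -/
noncomputable def degA : Deg C.A where
  deg := C.dg
  mul := C.dg_mul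
  sub := C.dg_sub
  unit := C.dg_unit

theorem dg_eq_zero {f : C.A} (hf : f ≠ 0) : C.dg f = 0 ↔ ∃ c : F, c ≠ 0 ∧ f = algebraMap F C.A c := by
  constructor
  · intro h
    have h1 := C.dg_eq f
    exact C.A_const f hf (by omega)
  · rintro ⟨c, -, rfl⟩
    have h1 := C.dg_eq (algebraMap F C.A c)
    rw [C.ad_alg, (vInf_C _).1] at h1
    omega

theorem exists_top {n : ℕ} (hn : 1 ≤ n) {c : L} (hc : c ≠ 0) :
    ∃ f : C.A, f ≠ 0 ∧ C.dg f = n ∧ (vInf L).ac (f : RatFunc L) = c ∧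
      (f : RatFunc L) = RatFunc.C c * RatFunc.X ^ n +
        RatFunc.C (C.s c * C.bL ^ n) * (RatFunc.X : RatFunc L)⁻¹ ^ n := by
  have nX : (RatFunc.X : RatFunc L) ≠ 0 := adX_ne
  have nb := C.CbL_ne
  have hmem : RatFunc.C c * RatFunc.X ^ n +
      RatFunc.C (C.s c * C.bL ^ n) * (RatFunc.X : RatFunc L)⁻¹ ^ n ∈ C.A := by
    rw [C.mem_A]
    refine ⟨?_, n, Polynomial.C c * Polynomial.X ^ (2 * n) + Polynomial.C (C.s c * C.bL ^ n), ?_⟩
    · rw [map_add, map_mul, map_mul, map_pow, map_pow, map_inv₀, C.sM_X, C.sM_C, C.sM_C,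
        map_mul C.s, C.s_s, map_pow C.s, C.s_bL]
      simp only [map_mul, map_pow]
      rw [inv_div, div_pow, div_pow, inv_pow]
      field_simp
      ring
    · have e : algebraMap L[X] (RatFunc L)
          (Polynomial.C c * Polynomial.X ^ (2 * n) + Polynomial.C (C.s c * C.bL ^ n)) =
          RatFunc.C c * RatFunc.X ^ (2 * n) + RatFunc.C (C.s c * C.bL ^ n) := by
        rw [map_add, map_mul (algebraMap L[X] (RatFunc L)) (Polynomial.C c),
          map_pow (algebraMap L[X] (RatFunc L)) Polynomial.X, RatFunc.algebraMap_C,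
          RatFunc.algebraMap_C, RatFunc.algebraMap_X]
      rw [e, add_mul, mul_assoc, mul_assoc, ← mul_pow, ← mul_pow,
        inv_mul_cancel₀ nX, one_pow, mul_one, pow_mul, pow_two]
  have nc : (RatFunc.C c : RatFunc L) ≠ 0 := (map_ne_zero _).mpr hc
  have hx : RatFunc.C c * RatFunc.X ^ n ≠ (0 : RatFunc L) := mul_ne_zero nc (pow_ne_zero _ nX)
  have hvx : (vInf L).v (RatFunc.C c * RatFunc.X ^ n) = -n := by
    rw [(vInf L).v_mul _ _ nc (pow_ne_zero _ nX), (vInf_C c).1, (vInf L).v_pow, vInf_X.1]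
    ring
  have hax : (vInf L).ac (RatFunc.C c * RatFunc.X ^ n) = c := by
    have h1 := (vInf L).ac_zpow RatFunc.X n nX
    rw [zpow_natCast, zpow_natCast, vInf_X.2, one_pow] at h1
    rw [(vInf L).ac_mul', (vInf_C c).2, h1, mul_one]
  have hns : C.s c * C.bL ^ n ≠ 0 :=
    mul_ne_zero ((map_ne_zero _).mpr hc) (pow_ne_zero _ C.bL_ne)
  have hvy : (vInf L).v (RatFunc.C (C.s c * C.bL ^ n) * (RatFunc.X : RatFunc L)⁻¹ ^ n) = n := by
    rw [(vInf L).v_mul _ _ ((map_ne_zero _).mpr hns) (pow_ne_zero _ (inv_ne_zero nX)),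
      (vInf_C _).1, (vInf L).v_pow, (vInf L).v_inv, vInf_X.1]
    ring
  obtain ⟨h1, h2, h3⟩ := (vInf L).add_lt
    (y := RatFunc.C (C.s c * C.bL ^ n) * (RatFunc.X : RatFunc L)⁻¹ ^ n) hx
    (Or.inr (by rw [hvx, hvy]; omega))
  refine ⟨⟨_, hmem⟩, ?_, ?_, ?_, rfl⟩
  · intro h0
    exact h1 (congrArg Subtype.val h0)
  · have h4 := C.dg_eq ⟨_, hmem⟩
    have h5 : (vInf L).v ((⟨_, hmem⟩ : C.A) : RatFunc L) = -n := h2.trans hvx
    rw [h5] at h4
    omega
  · exact h3.trans hax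

theorem v_l {w : Qt C} (hw : w.q ≠ 0) :
    (vInf L).v (C.l w) = -1 ∧ (vInf L).ac (C.l w) = C.s w.q / (2 * C.α) := by
  have nX : (RatFunc.X : RatFunc L) ≠ 0 := adX_ne
  have n2 := C.C2α_ne
  have nq : (RatFunc.C (C.s w.q) : RatFunc L) ≠ 0 :=
    (map_ne_zero _).mpr ((map_ne_zero _).mpr hw)
  have hx : RatFunc.C (C.s w.q) * RatFunc.X ≠ (0 : RatFunc L) := mul_ne_zero nq nX
  have hvx : (vInf L).v (RatFunc.C (C.s w.q) * RatFunc.X) = -1 := by
    rw [(vInf L).v_mul _ _ nq nX, (vInf_C _).1, vInf_X.1]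
    ring
  have hax : (vInf L).ac (RatFunc.C (C.s w.q) * RatFunc.X) = C.s w.q := by
    rw [(vInf L).ac_mul', (vInf_C _).2, vInf_X.2, mul_one]
  have hvy : 0 ≤ (vInf L).v (RatFunc.C (w.p - C.s w.p) + -(RatFunc.C (C.bL * w.q) / RatFunc.X)) := by
    apply (vInf L).v_add_nonneg
    · rw [(vInf_C _).1]
    · rw [(vInf L).v_neg, (vInf L).v_div ((map_ne_zero _).mpr (mul_ne_zero C.bL_ne hw)) nX,
        (vInf_C _).1, vInf_X.1]
      norm_num
  obtain ⟨h1, h2, h3⟩ := (vInf L).add_lt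
    (y := RatFunc.C (w.p - C.s w.p) + -(RatFunc.C (C.bL * w.q) / RatFunc.X)) hx
    (Or.inr (by rw [hvx]; omega))
  have h4 : C.l w = (RatFunc.C (C.s w.q) * RatFunc.X +
      (RatFunc.C (w.p - C.s w.p) + -(RatFunc.C (C.bL * w.q) / RatFunc.X))) /
      RatFunc.C (2 * C.α) := by
    unfold l
    congr 1
    ring
  refine ⟨?_, ?_⟩
  · rw [h4, (vInf L).v_div h1 n2, h2, hvx, (vInf_C _).1]
    ring
  · rw [h4, (vInf L).ac_div, h3, hax, (vInf_C _).2]

private theorem ad_const (c : F) : algebraMap F C.A c = C.lA (Qt.sc c * Qt.qi C) := by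
  apply Subtype.ext
  show _ = C.l (Qt.sc c * Qt.qi C)
  rw [C.l_sc_mul, C.l_qi, mul_one, C.ad_alg]

theorem deg_le_one {f : C.A} (h : C.dg f ≤ 1) : ∃ w : Qt C, f = C.lA w := by
  by_cases hf : f = 0
  · refine ⟨Qt.sc 0 * Qt.qi C, ?_⟩
    rw [← C.ad_const, map_zero, hf]
  rcases Nat.eq_zero_or_pos (C.dg f) with h0 | h0
  · obtain ⟨c, -, rfl⟩ := (C.dg_eq_zero hf).1 h0
    exact ⟨_, C.ad_const c⟩
  have hf' : (f : RatFunc L) ≠ 0 := fun h0 => hf (Subtype.ext h0)
  have hv : (vInf L).v (f : RatFunc L) = -1 := by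
    have := C.dg_eq f
    omega
  have h2α : (2 * C.α : L) ≠ 0 := mul_ne_zero C.twoL C.α_ne
  have ht : (vInf L).ac (f : RatFunc L) ≠ 0 := (vInf L).ac_ne _ hf'
  have hq : C.s (2 * C.α * (vInf L).ac (f : RatFunc L)) ≠ 0 :=
    (map_ne_zero _).mpr (mul_ne_zero h2α ht)
  obtain ⟨h1, h2⟩ := C.v_l (w := ⟨0, C.s (2 * C.α * (vInf L).ac (f : RatFunc L))⟩) hq
  rw [C.s_s, mul_div_cancel_left₀ _ h2α] at h2
  set w₀ : Qt C := ⟨0, C.s (2 * C.α * (vInf L).ac (f : RatFunc L))⟩ with hw₀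
  by_cases h3 : f = C.lA w₀
  · exact ⟨_, h3⟩
  have h4 : f - C.lA w₀ ≠ 0 := sub_ne_zero.2 h3
  have h5 : ((f - C.lA w₀ : C.A) : RatFunc L) = (f : RatFunc L) + -C.l w₀ := by
    rw [← sub_eq_add_neg]
    rfl
  have h6 : (f : RatFunc L) + -C.l w₀ ≠ 0 := by
    rw [← h5]
    exact fun h0 => h4 (Subtype.ext h0)
  have hl0 : C.l w₀ ≠ 0 := by
    intro h0
    rw [h0, (vInf L).v_zero] at h1
    omega
  have h7 : 0 ≤ (vInf L).v ((f - C.lA w₀ : C.A) : RatFunc L) := by
    rw [h5]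
    have h8 := (vInf L).v_add hf' (neg_ne_zero.mpr hl0) h6
    rw [(vInf L).v_neg, h1, hv, min_self] at h8
    by_contra hcon
    have h9 : (vInf L).v ((f : RatFunc L) + -C.l w₀) = (vInf L).v (f : RatFunc L) := by omega
    have h10 := (vInf L).ac_add hf' (neg_ne_zero.mpr hl0) h6
      (by rw [(vInf L).v_neg, h1, hv]) h9
    rw [(vInf L).ac_neg, h2, add_neg_cancel] at h10
    exact (vInf L).ac_ne _ h6 h10
  obtain ⟨c, -, h8⟩ := C.A_const _ h4 h7
  refine ⟨w₀ + Qt.sc c * Qt.qi C, ?_⟩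
  have h9 : f = C.lA w₀ + algebraMap F C.A c := by
    rw [← h8, add_sub_cancel]
  rw [h9, C.ad_const]
  apply Subtype.ext
  show C.l w₀ + C.l (Qt.sc c * Qt.qi C) = C.l (w₀ + Qt.sc c * Qt.qi C)
  rw [C.l_add]

theorem dg_lA {w : Qt C} (hw : w.q ≠ 0) : C.dg (C.lA w) = 1 := by
  have h1 := C.dg_eq (C.lA w)
  have h2 : ((C.lA w : C.A) : RatFunc L) = C.l w := rfl
  rw [h2, (C.v_l hw).1] at h1
  omega

end CQ

end Pool.Agent.MK
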