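import Pool.Agent.MK.ADeg

/-! # Dimensions: the property `Hex` for the coordinate ring in degrees `≥ 2`

PROOFS.
* `finrankL`: `1, α` is a basis of `L` over `F` (`Quad.decomp`, `Quad.coord_inj`).
* `Vd n` is a subspace by `dg_sub`-like estimates (`Val.v_add`; or: `f ∈ Vd n` iff `f = 0` or `-n ≤ v f`).
* `finrank_Vd`: `Vd 0 = F · 1` (`dg_eq_zero`).  For `n + 1`: the map `L → C.A`,
  `c ↦ g_c = C c X^(n+1) + C(s c b^(n+1)) X⁻¹^(n+1)` (in `C.A` also for `c = 0`) is `F`-linear and injective; its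
  range `W` has dimension 2, `Vd n ⊓ W = ⊥` (a nonzero `g_c` has degree `n + 1`) and
  `Vd n ⊔ W = Vd (n+1)` (if `dg f = n + 1`, subtract `g_c`, `c = ac f`: the valuation goes up: `Val.ac_add`);
  `Submodule.finrank_sup_add_finrank_inf_eq`.
* `surj_mod`: `p ≠ 0`, `dg p = n ≥ 1`: every `f ∈ C.A` is congruent modulo `p` to an element of `Vd n`: induction
  on `dg f`; if `dg f = m > n` choose by `exists_top` an `h` with `dg h = m - n`, `ac h = ac f / ac p`; then
  `f - h p` has degree `< m` or is `0`.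
* `finrank_quot`: the `F`-linear map `Vd n → C.A ⧸ (p)` is surjective and `p` is in its kernel, so
  `finrank (C.A ⧸ (p)) ≤ (2n+1) - 1 = 2n`.
* `hexA`: let `n = dg p ≥ 2`, `x, y` prime to `p`.  The linear map
  `(f, g, h) ↦ (f - x g, g - y h)`, `(Vd (n-1))³ → (C.A ⧸ (p))²`, has a source of dimension `3 (2n-1) = 6n-3`
  and a target of dimension `≤ 4n < 6n-3`, so there is `(f,g,h) ≠ 0` in the kernel.  A nonzero element of
  `Vd (n-1)` is not divisible by `p`.  If `h = 0` then `p ∣ g`, `g = 0`, `p ∣ f`, `f = 0`: contradiction.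
  If `g = 0` then `p ∣ y h`, contradiction (`p` prime).  If `f = 0` then `p ∣ x g`, contradiction.
-/

set_option autoImplicit false
set_option linter.unusedSectionVars false

namespace Pool.Agent.MK

universe u v w

open scoped Polynomial

theorem Quad.finrankL {F : Type u} {L : Type v} [Field F] [Field L] [Algebra F L] (q : Quad F L) :
    Module.finrank F L = 2 ∧ FiniteDimensional F L := by
  let e : F × F →ₗ[F] L := (LinearMap.toSpanSingleton F L 1).coprod
    (LinearMap.toSpanSingleton F L q.α)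
  have he : ∀ c d : F, e (c, d) = algebraMap F L c + algebraMap F L d * q.α := by
    intro c d
    simp only [e, LinearMap.coprod_apply, LinearMap.toSpanSingleton_apply, Algebra.smul_def,
      mul_one]
  have hinj : Function.Injective e := by
    rintro ⟨c, d⟩ ⟨c', d'⟩ h
    rw [he, he] at h
    obtain ⟨h1, h2⟩ := q.coord_inj h
    rw [h1, h2]
  have hsurj : Function.Surjective e := by
    intro x
    exact ⟨(q.re x, q.im x), by rw [he, ← q.decomp x]⟩
  let E := LinearEquiv.ofBijective e ⟨hinj, hsurj⟩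
  refine ⟨?_, Module.Finite.equiv E⟩
  rw [← E.finrank_eq, Module.finrank_prod, Module.finrank_self]

namespace CQ

variable {F L : Type u} [Field F] [Field L] [Algebra F L] (C : CQ F L)

theorem dg_zero' : C.dg (0 : C.A) = 0 := by
  unfold dg
  rw [ZeroMemClass.coe_zero, (vInf L).v_zero]
  rfl

theorem dg_le_iff {n : ℕ} {f : C.A} : (f = 0 ∨ C.dg f ≤ n) ↔ -(n : ℤ) ≤ (vInf L).v (f : RatFunc L) := by
  have h1 := C.dg_eq f
  constructor
  · rintro (rfl | h)
    · rw [ZeroMemClass.coe_zero, (vInf L).v_zero]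
      omega
    · omega
  · intro h
    right
    omega

theorem coe_ne {f : C.A} (hf : f ≠ 0) : (f : RatFunc L) ≠ 0 := fun h => hf (Subtype.ext h)

theorem coe_smul' (c : F) (f : C.A) :
    ((c • f : C.A) : RatFunc L) = RatFunc.C (algebraMap F L c) * (f : RatFunc L) := by
  rw [Subalgebra.coe_smul, Algebra.smul_def]
  rfl

/-- The elements of degree at most `n`. -/
noncomputable def Vd (n : ℕ) : Submodule F C.A where
  carrier := {f | f = 0 ∨ C.dg f ≤ n}
  add_mem' := by
    intro f g hf hg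
    rw [Set.mem_ofPred_eq, dg_le_iff] at hf hg ⊢
    by_cases h1 : f = 0
    · rwa [h1, zero_add]
    by_cases h2 : g = 0
    · rwa [h2, add_zero]
    by_cases h3 : f + g = 0
    · rw [h3, ZeroMemClass.coe_zero, (vInf L).v_zero]
      omega
    have h4 : (f : RatFunc L) + (g : RatFunc L) ≠ 0 := C.coe_ne h3
    exact (le_min hf hg).trans ((vInf L).v_add (C.coe_ne h1) (C.coe_ne h2) h4)
  zero_mem' := Or.inl rfl
  smul_mem' := by
    intro c f hf
    rw [Set.mem_ofPred_eq, dg_le_iff] at hf ⊢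
    by_cases h0 : c = 0
    · rw [h0, zero_smul, ZeroMemClass.coe_zero, (vInf L).v_zero]
      omega
    by_cases h1 : f = 0
    · rw [h1, smul_zero, ZeroMemClass.coe_zero, (vInf L).v_zero]
      omega
    rw [coe_smul', (vInf L).v_mul _ _ ((map_ne_zero _).2 ((map_ne_zero _).2 h0)) (C.coe_ne h1),
      (vInf_C _).1, zero_add]
    exact hf

theorem mem_Vd {n : ℕ} {f : C.A} : f ∈ C.Vd n ↔ f = 0 ∨ C.dg f ≤ n := Iff.rfl

theorem mem_Vd' {n : ℕ} {f : C.A} : f ∈ C.Vd n ↔ -(n : ℤ) ≤ (vInf L).v (f : RatFunc L) :=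
  C.dg_le_iff

theorem Vd_mono {n m : ℕ} (h : n ≤ m) : C.Vd n ≤ C.Vd m := by
  intro f hf
  rw [mem_Vd'] at hf ⊢
  omega

theorem Xinv_pow (n : ℕ) : (vInf L).v ((RatFunc.X : RatFunc L)⁻¹ ^ n) = n ∧
    (vInf L).ac ((RatFunc.X : RatFunc L)⁻¹ ^ n) = 1 := by
  have hX : (RatFunc.X : RatFunc L)⁻¹ ≠ 0 := inv_ne_zero RatFunc.X_ne_zero
  have h1 : (vInf L).v (RatFunc.X : RatFunc L)⁻¹ = 1 := by
    rw [(vInf L).v_inv, vInf_X.1, neg_neg]
  have h2 : (vInf L).ac (RatFunc.X : RatFunc L)⁻¹ = 1 := by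
    rw [(vInf L).ac_inv, vInf_X.2, inv_one]
  induction n with
  | zero => rw [pow_zero, (vInf L).v_one, (vInf L).ac_one]; simp
  | succ n ih =>
    rw [pow_succ, (vInf L).v_mul _ _ (pow_ne_zero _ hX) hX,
      (vInf L).ac_mul _ _ (pow_ne_zero _ hX) hX, ih.1, ih.2, h1, h2, one_mul]
    push_cast
    exact ⟨rfl, rfl⟩

theorem v_top_nonneg {n : ℕ} {f : C.A} (hf : f ∈ C.Vd n) :
    0 ≤ (vInf L).v ((f : RatFunc L) * (RatFunc.X : RatFunc L)⁻¹ ^ n) := by
  by_cases h : f = 0
  · rw [h, ZeroMemClass.coe_zero, zero_mul, (vInf L).v_zero]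
  · rw [(vInf L).v_mul _ _ (C.coe_ne h) (pow_ne_zero _ (inv_ne_zero RatFunc.X_ne_zero)),
      (Xinv_pow n).1]
    rw [mem_Vd'] at hf
    omega

/-- the top coefficient -/
noncomputable def topL (n : ℕ) : C.Vd n →ₗ[F] L where
  toFun f := (vInf L).res (((f : C.A) : RatFunc L) * (RatFunc.X : RatFunc L)⁻¹ ^ n)
  map_add' f g := by
    rw [← (vInf L).res_add (C.v_top_nonneg f.2) (C.v_top_nonneg g.2), ← add_mul]
    rfl
  map_smul' c f := by
    have h1 : (vInf L).v (RatFunc.C (algebraMap F L c)) = 0 := (vInf_C _).1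
    rw [Submodule.coe_smul, coe_smul', mul_assoc, (vInf L).res_mul h1.ge (C.v_top_nonneg f.2),
      (vInf L).res_of_v_eq h1, (vInf_C _).2, RingHom.id_apply, Algebra.smul_def]

theorem topL_apply (n : ℕ) (f : C.Vd n) :
    C.topL n f = (vInf L).res (((f : C.A) : RatFunc L) * (RatFunc.X : RatFunc L)⁻¹ ^ n) := rfl

theorem ker_topL (n : ℕ) : LinearMap.ker (C.topL (n + 1)) =
    (C.Vd n).comap (C.Vd (n + 1)).subtype := by
  ext f
  rw [LinearMap.mem_ker, topL_apply, Submodule.mem_comap, Submodule.subtype_apply, mem_Vd']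
  by_cases h : (f : C.A) = 0
  · rw [h, ZeroMemClass.coe_zero, zero_mul, (vInf L).res_zero, (vInf L).v_zero]
    exact ⟨fun _ => by omega, fun _ => rfl⟩
  · rw [(vInf L).res_eq_zero (mul_ne_zero (C.coe_ne h)
      (pow_ne_zero _ (inv_ne_zero RatFunc.X_ne_zero))) (C.v_top_nonneg f.2),
      (vInf L).v_mul _ _ (C.coe_ne h) (pow_ne_zero _ (inv_ne_zero RatFunc.X_ne_zero)),
      (Xinv_pow (n + 1)).1]
    push_cast
    omega

theorem surj_topL (n : ℕ) : Function.Surjective (C.topL (n + 1)) := by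
  intro c
  by_cases hc : c = 0
  · exact ⟨0, by rw [map_zero, hc]⟩
  obtain ⟨f, hf0, hf1, hf2, -⟩ := C.exists_top (n := n + 1) (by omega) hc
  refine ⟨⟨f, Or.inr hf1.le⟩, ?_⟩
  have h1 := C.dg_eq f
  rw [hf1] at h1
  rw [topL_apply, (vInf L).res_of_v_eq, (vInf L).ac_mul _ _ (C.coe_ne hf0)
    (pow_ne_zero _ (inv_ne_zero RatFunc.X_ne_zero)), (Xinv_pow (n + 1)).2, mul_one]
  · exact hf2
  · rw [(vInf L).v_mul _ _ (C.coe_ne hf0) (pow_ne_zero _ (inv_ne_zero RatFunc.X_ne_zero)),
      (Xinv_pow (n + 1)).1]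
    push_cast at h1 ⊢
    omega

theorem finrank_Vd (n : ℕ) : Module.finrank F (C.Vd n) = 2 * n + 1 ∧
    FiniteDimensional F (C.Vd n) := by
  induction n with
  | zero =>
    have h : C.Vd 0 = Submodule.span F {(1 : C.A)} := by
      ext f
      rw [mem_Vd, Submodule.mem_span_singleton]
      constructor
      · rintro (rfl | h)
        · exact ⟨0, zero_smul _ _⟩
        · by_cases hf : f = 0
          · exact ⟨0, by rw [hf, zero_smul]⟩
          · obtain ⟨c, -, hc⟩ := (C.dg_eq_zero hf).1 (by omega)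
            exact ⟨c, by rw [hc, Algebra.algebraMap_eq_smul_one]⟩
      · rintro ⟨c, rfl⟩
        by_cases hc : c = 0
        · left
          rw [hc, zero_smul]
        · right
          have h0 : c • (1 : C.A) ≠ 0 := smul_ne_zero hc one_ne_zero
          exact ((C.dg_eq_zero h0).2 ⟨c, hc, by rw [Algebra.algebraMap_eq_smul_one]⟩).le
    rw [h]
    refine ⟨?_, inferInstance⟩
    rw [finrank_span_singleton one_ne_zero]
  | succ n ih =>
    obtain ⟨ih1, ih2⟩ := ih
    obtain ⟨hL1, hL2⟩ := C.toQuad.finrankL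
    have e1 : ↥(LinearMap.ker (C.topL (n + 1))) ≃ₗ[F] C.Vd n :=
      (LinearEquiv.ofEq _ _ (C.ker_topL n)).trans
        (Submodule.comapSubtypeEquivOfLe (C.Vd_mono (Nat.le_succ n)))
    have e2 : (C.Vd (n + 1) ⧸ LinearMap.ker (C.topL (n + 1))) ≃ₗ[F] L :=
      (C.topL (n + 1)).quotKerEquivOfSurjective (C.surj_topL n)
    have i1 : Module.Finite F ↥(LinearMap.ker (C.topL (n + 1))) := Module.Finite.equiv e1.symm
    have i2 : Module.Finite F (C.Vd (n + 1) ⧸ LinearMap.ker (C.topL (n + 1))) :=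
      Module.Finite.equiv e2.symm
    have i3 : Module.Finite F (C.Vd (n + 1)) :=
      Module.Finite.of_submodule_quotient (LinearMap.ker (C.topL (n + 1)))
    refine ⟨?_, i3⟩
    have h := Submodule.finrank_quotient_add_finrank (LinearMap.ker (C.topL (n + 1)))
    rw [e1.finrank_eq, e2.finrank_eq, ih1, hL1] at h
    omega

theorem surj_mod {p : C.A} (hp : p ≠ 0) (hn : 1 ≤ C.dg p) (f : C.A) :
    ∃ g ∈ C.Vd (C.dg p), p ∣ f - g := by
  have key : ∀ m : ℕ, ∀ f : C.A, C.dg f ≤ m → ∃ g ∈ C.Vd (C.dg p), p ∣ f - g := by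
    intro m
    induction m with
    | zero =>
      intro f hf
      exact ⟨f, Or.inr (by omega), by rw [sub_self]; exact dvd_zero p⟩
    | succ m ih =>
      intro f hf
      by_cases h1 : C.dg f ≤ m
      · exact ih f h1
      by_cases h2 : C.dg f ≤ C.dg p
      · exact ⟨f, Or.inr h2, by rw [sub_self]; exact dvd_zero p⟩
      have hf0 : f ≠ 0 := by
        rintro rfl
        rw [C.dg_zero'] at h2
        omega
      have hc : (vInf L).ac (f : RatFunc L) / (vInf L).ac (p : RatFunc L) ≠ 0 :=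
        div_ne_zero ((vInf L).ac_ne _ (C.coe_ne hf0)) ((vInf L).ac_ne _ (C.coe_ne hp))
      obtain ⟨h, hh0, hh1, hh2, -⟩ := C.exists_top (n := C.dg f - C.dg p) (by omega) hc
      have hhp : h * p ≠ 0 := mul_ne_zero hh0 hp
      have hvf := C.dg_eq f
      have hvp := C.dg_eq p
      have hvh := C.dg_eq h
      have hv : (vInf L).v ((h * p : C.A) : RatFunc L) = (vInf L).v (f : RatFunc L) := by
        rw [MulMemClass.coe_mul, (vInf L).v_mul _ _ (C.coe_ne hh0) (C.coe_ne hp)]
        omega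
      have hac : (vInf L).ac ((h * p : C.A) : RatFunc L) = (vInf L).ac (f : RatFunc L) := by
        rw [MulMemClass.coe_mul, (vInf L).ac_mul _ _ (C.coe_ne hh0) (C.coe_ne hp), hh2,
          div_mul_cancel₀ _ ((vInf L).ac_ne _ (C.coe_ne hp))]
      have hlt : C.dg (f - h * p) ≤ m := by
        by_cases h3 : f - h * p = 0
        · rw [h3, C.dg_zero']
          omega
        have h4 : (f : RatFunc L) + -((h * p : C.A) : RatFunc L) ≠ 0 := by
          rw [← sub_eq_add_neg]
          exact C.coe_ne h3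
        have h5 : -((h * p : C.A) : RatFunc L) ≠ 0 := neg_ne_zero.2 (C.coe_ne hhp)
        have h6 := (vInf L).v_add (C.coe_ne hf0) h5 h4
        rw [(vInf L).v_neg, hv, min_self] at h6
        have h7 : (vInf L).v ((f : RatFunc L) + -((h * p : C.A) : RatFunc L)) ≠
            (vInf L).v (f : RatFunc L) := by
          intro h8
          have h9 := (vInf L).ac_add (C.coe_ne hf0) h5 h4 (by rw [(vInf L).v_neg, hv]) h8
          rw [(vInf L).ac_neg, hac, add_neg_cancel] at h9
          exact (vInf L).ac_ne _ h4 h9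
        have h8 := C.dg_eq (f - h * p)
        have h9 : ((f - h * p : C.A) : RatFunc L) =
            (f : RatFunc L) + -((h * p : C.A) : RatFunc L) := sub_eq_add_neg _ _
        rw [h9] at h8
        omega
      obtain ⟨g, hg, hd⟩ := ih _ hlt
      refine ⟨g, hg, ?_⟩
      have : f - g = (f - h * p - g) + h * p := by ring
      rw [this]
      exact dvd_add hd (Dvd.intro_left h rfl)
  exact key _ f le_rfl

/-- reduction modulo `p` -/
noncomputable def mkL (p : C.A) : C.A →ₗ[F] C.A ⧸ Ideal.span {p} :=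
  (Ideal.Quotient.mkₐ F (Ideal.span {p})).toLinearMap

theorem mkL_eq_zero {p f : C.A} : C.mkL p f = 0 ↔ p ∣ f := by
  change Ideal.Quotient.mk (Ideal.span {p}) f = 0 ↔ p ∣ f
  rw [Ideal.Quotient.eq_zero_iff_mem, Ideal.mem_span_singleton]

theorem finrank_quot {p : C.A} (hp : p ≠ 0) (hn : 1 ≤ C.dg p) :
    Module.finrank F (C.A ⧸ Ideal.span {p}) ≤ 2 * C.dg p ∧
      FiniteDimensional F (C.A ⧸ Ideal.span {p}) := by
  obtain ⟨h1, h2⟩ := C.finrank_Vd (C.dg p)
  let φ : C.Vd (C.dg p) →ₗ[F] C.A ⧸ Ideal.span {p} := (C.mkL p).comp (C.Vd (C.dg p)).subtype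
  have hs : Function.Surjective φ := by
    intro y
    obtain ⟨f, rfl⟩ := Ideal.Quotient.mk_surjective y
    obtain ⟨g, hg, hd⟩ := C.surj_mod hp hn f
    refine ⟨⟨g, hg⟩, ?_⟩
    have h3 : C.mkL p (f - g) = 0 := C.mkL_eq_zero.2 hd
    rw [map_sub, sub_eq_zero] at h3
    exact h3.symm
  have hfin : FiniteDimensional F (C.A ⧸ Ideal.span {p}) := Module.Finite.of_surjective φ hs
  refine ⟨?_, hfin⟩
  have h3 := LinearMap.finrank_range_add_finrank_ker φ
  rw [LinearMap.range_eq_top.2 hs, finrank_top, h1] at h3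
  have h4 : LinearMap.ker φ ≠ ⊥ := by
    intro h5
    have h6 : (⟨p, Or.inr le_rfl⟩ : C.Vd (C.dg p)) ∈ LinearMap.ker φ := by
      rw [LinearMap.mem_ker]
      exact C.mkL_eq_zero.2 dvd_rfl
    rw [h5, Submodule.mem_bot] at h6
    exact hp (congrArg Subtype.val h6)
  have h5 : 0 < Module.finrank F (LinearMap.ker φ) := by
    apply Nat.pos_of_ne_zero
    intro h6
    exact h4 (Submodule.finrank_eq_zero.1 h6)
  omega

theorem hexA {n : ℕ} (hn : 2 ≤ n) (p : C.A) (hp : Prime p) (hpn : C.degA.deg p = n) :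
    Hex C.degA n p := by
  intro x y hx hy
  have hdp : C.dg p = n := hpn
  obtain ⟨h1, h2⟩ := C.finrank_Vd (n - 1)
  obtain ⟨h3, h4⟩ := C.finrank_quot hp.ne_zero (by omega)
  rw [hdp] at h3
  let V := C.Vd (n - 1)
  let ι : V →ₗ[F] C.A := V.subtype
  let φ : V × V × V →ₗ[F] (C.A ⧸ Ideal.span {p}) × (C.A ⧸ Ideal.span {p}) :=
    LinearMap.prod
      ((C.mkL p).comp (ι.comp (LinearMap.fst F V (V × V)) -
        (LinearMap.mulLeft F x).comp (ι.comp ((LinearMap.fst F V V).comp
          (LinearMap.snd F V (V × V))))))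
      ((C.mkL p).comp (ι.comp ((LinearMap.fst F V V).comp (LinearMap.snd F V (V × V))) -
        (LinearMap.mulLeft F y).comp (ι.comp ((LinearMap.snd F V V).comp
          (LinearMap.snd F V (V × V))))))
  have hφ : ∀ f g h : V, φ (f, g, h) =
      (C.mkL p ((f : C.A) - x * g), C.mkL p ((g : C.A) - y * h)) := fun f g h => rfl
  have hker : LinearMap.ker φ ≠ ⊥ := by
    apply LinearMap.ker_ne_bot_of_finrank_lt
    rw [Module.finrank_prod, Module.finrank_prod, Module.finrank_prod, h1]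
    omega
  obtain ⟨⟨f, g, h⟩, hk, hne⟩ := (Submodule.ne_bot_iff _).1 hker
  rw [LinearMap.mem_ker, hφ, Prod.mk_eq_zero, C.mkL_eq_zero, C.mkL_eq_zero] at hk
  obtain ⟨k1, k2⟩ := hk
  have hlt : ∀ u : V, C.degA.deg (u : C.A) < n := by
    intro u
    have h5 : C.dg (u : C.A) ≤ n - 1 := by
      rcases u.2 with h5 | h5
      · rw [h5, C.dg_zero']
        omega
      · exact h5
    change C.dg (u : C.A) < n
    omega
  have hz : ∀ u : V, p ∣ (u : C.A) → u = 0 := by
    intro u hu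
    by_contra h5
    exact not_dvd_of_deg_lt (D := C.degA) hpn (fun h6 => h5 (Subtype.ext h6)) (hlt u) hu
  have hg : g ≠ 0 := by
    intro hg0
    have hh : h = 0 := by
      apply hz
      rw [hg0, ZeroMemClass.coe_zero, zero_sub, dvd_neg] at k2
      exact (hp.dvd_or_dvd k2).resolve_left hy
    have hf : f = 0 := by
      apply hz
      rwa [hg0, ZeroMemClass.coe_zero, mul_zero, sub_zero] at k1
    exact hne (by rw [hf, hg0, hh]; rfl)
  have hh : h ≠ 0 := by
    intro hh0
    apply hg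
    apply hz
    rwa [hh0, ZeroMemClass.coe_zero, mul_zero, sub_zero] at k2
  have hf : f ≠ 0 := by
    intro hf0
    apply hg
    apply hz
    rw [hf0, ZeroMemClass.coe_zero, zero_sub, dvd_neg] at k1
    exact (hp.dvd_or_dvd k1).resolve_left hx
  exact ⟨f, g, h, fun h5 => hf (Subtype.ext h5), fun h5 => hg (Subtype.ext h5),
    fun h5 => hh (Subtype.ext h5), hlt f, hlt g, hlt h, k1, k2⟩

end CQ

end Pool.Agent.MK
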