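import Pool.Agent.MK.ADeg

/-! # The coordinate ring of the conic is a principal ideal domain with fraction field `C.K`

PROOFS.  `X = RatFunc.X`, `s = C.sM`; Laurent means `IsLaur`.

* `isLaur_sM`: for a polynomial `P` of degree `N`, `sM P * X^N` is a polynomial; for `f X^n = P`:
  `sM f = sM P * X^n / b^n`.
* `desc`: `s (s g) = g` gives `s(u) u = 1` for `u = C c X^k`, i.e. `c s(c) b^k = 1`, `N(c) b^k = 1`.
  If `k = 2j+1` then `b = N (1/(c b^j))`, excluded by `C.hN`.  So `k = 2j`; put `g' = X^j g`: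
  `s g' = C b^j X^(-j) C c X^(2j) g = C (c b^j) g'`, and `c' = c b^j` has norm 1, `c' = y / s y`
  (`hilbert90`), so `s (C y · g') = C (s y) C c' g' = C y g'`.  Take `u' = C y X^j`.
* `no_roots`: a polynomial `H ≠ 0` with `aeval c H ≠ 0` for all `c ≠ 0` in the algebraic closure is `C e X^k`
  (divide by the maximal power of `X`; the quotient has no root at all so it is constant).
* `pidA`: let `I ≠ 0` be an ideal of `C.A` and `J` the ideal of `L[X]` generated by all `P` with `P = f X^n` for some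
  `f ∈ I`, `n`; `J = (G)`, `G ≠ 0`.  For `0 ≠ f ∈ I`, `P = f X^(dg f)` is a polynomial (`(vPt 0).v f =
  vInf (s f) = -dg f` by `swap_zero_inf`, so `(vPt 0).v P = 0`) with `P(0) ≠ 0` and `G ∣ P`, so
  `G(0) ≠ 0`.  Every element of `J` is of the form `Σ h_i f_i X^(n_i)`, so `G = Σ b_i f_i` with Laurent `b_i`,
  `f_i ∈ I`; then `s G = Σ s(b_i) f_i` and `X^N s(G) ∈ J` for large `N` (clear denominators), so
  `X^N s(G) = G H`, `H ∈ L[X]`.  Apply `s`: `b^N X^(-N) G = s(G) s(H)`; multiply: `H s(H) = b^N`.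
  If `H(c) = 0` for some `c ≠ 0`, then `(vPt c).v (H s(H)) > 0` (`s(H)` is Laurent and Laurent polynomials have
  valuation `≥ 0` at `c ≠ 0`), a contradiction.  So `H = C e X^k` (`no_roots`) and `s G = C e X^(k-N) G`.  By
  `desc` there is `u'` with `g = u' G ∈ C.A`.  `I = (g)`: if `f ∈ I`, `f X^n ∈ J = (G)`, so `f/g` is Laurent and
  `s`-invariant, i.e. in `C.A`.  Conversely `g = Σ b'_i f_i` with `b'_i = u' b_i` Laurent and
  `g = (g + s g)/2 = Σ ((b'_i + s b'_i)/2) f_i ∈ I`.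
* `fracA`: `x = P / Q`, `g = Q s(Q) ∈ C.A`, `f = x g = P s(Q)`, which is Laurent, and `s f = f`.
-/

set_option autoImplicit false
set_option linter.unusedSectionVars false

namespace Pool.Agent.MK

universe u v w

open scoped Polynomial

namespace CQ

variable {F L : Type u} [Field F] [Field L] [Algebra F L] (C : CQ F L)

private theorem laur_pow {f : RatFunc L} (hf : IsLaur f) (n : ℕ) : IsLaur (f ^ n) := by
  induction n with
  | zero =>
    rw [pow_zero, ← map_one (RatFunc.C : L →+* RatFunc L)]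
    exact isLaur_C 1
  | succ n ih =>
    rw [pow_succ]
    exact ih.mul hf

private theorem laur_zpow (j : ℤ) : IsLaur ((RatFunc.X : RatFunc L) ^ j) := by
  obtain ⟨n, rfl | rfl⟩ := j.eq_nat_or_neg
  · rw [zpow_natCast]
    exact laur_pow isLaur_X n
  · rw [zpow_neg, zpow_natCast, ← inv_pow]
    exact laur_pow isLaur_X_inv n

private theorem laur_sPoly (P : L[X]) : IsLaur (C.sPoly P) := by
  induction P using Polynomial.induction_on' with
  | add p q hp hq =>
    rw [map_add]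
    exact hp.add hq
  | monomial n a =>
    have h1 : C.sPoly (Polynomial.C a) = RatFunc.C (C.s a) := by
      rw [← C.sM_poly, RatFunc.algebraMap_C, C.sM_C]
    have h2 : C.sPoly Polynomial.X = RatFunc.C C.bL / RatFunc.X := by
      rw [← C.sM_poly, RatFunc.algebraMap_X, C.sM_X]
    rw [← Polynomial.C_mul_X_pow_eq_monomial, map_mul, map_pow, h1, h2, div_eq_mul_inv]
    exact (isLaur_C _).mul (laur_pow ((isLaur_C _).mul isLaur_X_inv) n)

theorem isLaur_sM {f : RatFunc L} (hf : IsLaur f) : IsLaur (C.sM f) := by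
  obtain ⟨n, P, h⟩ := hf
  have hX : (RatFunc.X : RatFunc L) ≠ 0 := RatFunc.X_ne_zero
  have hb : (RatFunc.C C.bL : RatFunc L) ≠ 0 := C.CbL_ne
  have h1 := congrArg C.sM h
  rw [map_mul, map_pow, C.sM_X, C.sM_poly] at h1
  have h2 : C.sM f = C.sPoly P * (RatFunc.C (C.bL)⁻¹ * RatFunc.X) ^ n := by
    rw [← h1, map_inv₀, mul_assoc, ← mul_pow]
    have h3 : RatFunc.C C.bL / RatFunc.X * ((RatFunc.C C.bL)⁻¹ * RatFunc.X) =
        (1 : RatFunc L) := by
      field_simp
    rw [h3, one_pow, mul_one]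
  rw [h2]
  exact (C.laur_sPoly P).mul (laur_pow ((isLaur_C _).mul isLaur_X) n)

theorem desc {g : RatFunc L} (hg : g ≠ 0) (hL : IsLaur g) {c : L} (hc : c ≠ 0) {k : ℤ}
    (h : C.sM g = RatFunc.C c * RatFunc.X ^ k * g) :
    ∃ (c' : L) (j : ℤ), c' ≠ 0 ∧ RatFunc.C c' * RatFunc.X ^ j * g ∈ C.A := by
  have hX : (RatFunc.X : RatFunc L) ≠ 0 := RatFunc.X_ne_zero
  have hbL := C.bL_ne
  have h1 := congrArg C.sM h
  rw [C.sM_sM, map_mul, map_mul, C.sM_C, map_zpow₀, C.sM_X, h] at h1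
  have h2 : (1 : RatFunc L) = RatFunc.C (C.s c * c * C.bL ^ k) := by
    have h3 : g = RatFunc.C (C.s c * c * C.bL ^ k) * g := by
      conv_lhs => rw [h1]
      rw [map_mul, map_mul, map_zpow₀, div_zpow]
      have hXk : (RatFunc.X : RatFunc L) ^ k ≠ 0 := zpow_ne_zero k hX
      field_simp
    have h4 : 1 * g = RatFunc.C (C.s c * c * C.bL ^ k) * g := by
      rw [one_mul]
      exact h3
    exact mul_right_cancel₀ hg h4
  have h3 : C.s c * c * C.bL ^ k = 1 := by
    rw [← map_one (RatFunc.C : L →+* RatFunc L)] at h2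
    exact (RatFunc.C.injective h2).symm
  obtain ⟨j, hj | hj⟩ := k.even_or_odd'
  · -- `k = 2 j`
    obtain ⟨y, hy, hy2⟩ := C.hilbert90 (x := c * C.bL ^ j) (by
      rw [map_mul, map_zpow₀, C.s_bL]
      rw [hj, two_mul, zpow_add₀ hbL] at h3
      linear_combination h3)
    refine ⟨y, j, hy, ?_, ?_⟩
    · rw [map_mul, map_mul, C.sM_C, map_zpow₀, C.sM_X, h, hj, two_mul, zpow_add₀ hX, div_zpow]
      have hXj : (RatFunc.X : RatFunc L) ^ j ≠ 0 := zpow_ne_zero j hX
      have hsy : C.s y ≠ 0 := (map_ne_zero C.s).mpr hy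
      have h4 : C.s y * (c * C.bL ^ j) = y := by
        rw [hy2]
        field_simp
      have h5 := congrArg (RatFunc.C : L →+* RatFunc L) h4
      rw [map_mul, map_mul, map_zpow₀] at h5
      field_simp
      linear_combination h5
    · exact ((isLaur_C y).mul (laur_zpow j)).mul hL
  · exfalso
    apply C.hN (c * C.bL ^ j)⁻¹
    rw [map_inv₀, map_mul, map_zpow₀, C.s_bL]
    rw [hj, two_mul, zpow_add₀ hbL, zpow_add₀ hbL, zpow_one] at h3
    have hcs : C.s c ≠ 0 := (map_ne_zero C.s).mpr hc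
    have hbj : C.bL ^ j ≠ 0 := zpow_ne_zero j hbL
    rw [← mul_inv]
    apply inv_eq_of_mul_eq_one_right
    linear_combination h3

theorem no_roots {H : L[X]} (hH : H ≠ 0)
    (h : ∀ c : AlgebraicClosure L, c ≠ 0 → Polynomial.aeval c H ≠ 0) :
    ∃ (e : L) (k : ℕ), e ≠ 0 ∧ H = Polynomial.C e * Polynomial.X ^ k := by
  obtain ⟨k, q, hq, hH2⟩ : ∃ (k : ℕ) (q : L[X]), ¬ Polynomial.X ∣ q ∧
      H = Polynomial.X ^ k * q := by
    obtain ⟨q, h1, h2⟩ := Polynomial.exists_eq_pow_rootMultiplicity_mul_and_not_dvd H hH 0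
    rw [map_zero, sub_zero] at h1 h2
    exact ⟨_, q, h2, h1⟩
  have hq0 : q ≠ 0 := by
    rintro rfl
    exact hq (dvd_zero _)
  have hdeg : q.degree = 0 := by
    by_contra hd
    obtain ⟨c, hc⟩ := IsAlgClosed.exists_aeval_eq_zero (AlgebraicClosure L) q hd
    by_cases hc0 : c = 0
    · subst hc0
      rw [← Polynomial.coeff_zero_eq_aeval_zero', map_eq_zero] at hc
      exact hq (Polynomial.X_dvd_iff.mpr hc)
    · apply h c hc0
      rw [hH2, map_mul, hc, mul_zero]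
  have hq1 : q = Polynomial.C (q.coeff 0) := Polynomial.eq_C_of_degree_eq_zero hdeg
  refine ⟨q.coeff 0, k, ?_, ?_⟩
  · intro h0
    rw [h0, map_zero] at hq1
    exact hq0 hq1
  · rw [hH2, mul_comm]
    rw [← hq1]

/-- the Laurent combinations of elements of an ideal -/
private noncomputable def LM (I : Ideal C.A) : AddSubgroup (RatFunc L) :=
  AddSubgroup.closure {z | ∃ (b : RatFunc L) (x : C.A), IsLaur b ∧ x ∈ I ∧ z = b * (x : RatFunc L)}

/-- the polynomials attached to an ideal -/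
private noncomputable def LJ (I : Ideal C.A) : Ideal L[X] :=
  Ideal.span {P | ∃ (x : C.A) (n : ℕ), x ∈ I ∧
    algebraMap L[X] (RatFunc L) P = (x : RatFunc L) * RatFunc.X ^ n}

private theorem LM_mul {I : Ideal C.A} {b z : RatFunc L} (hb : IsLaur b) (hz : z ∈ C.LM I) :
    b * z ∈ C.LM I := by
  unfold LM at hz
  induction hz using AddSubgroup.closure_induction with
  | mem z hz =>
    obtain ⟨b', x, h1, h2, rfl⟩ := hz
    exact AddSubgroup.subset_closure ⟨b * b', x, hb.mul h1, h2, by ring⟩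
  | zero =>
    rw [mul_zero]
    exact AddSubgroup.zero_mem _
  | add z z' _ _ h1 h2 =>
    rw [mul_add]
    exact AddSubgroup.add_mem _ h1 h2
  | neg z _ h1 =>
    rw [mul_neg]
    exact AddSubgroup.neg_mem _ h1

private theorem LM_sM {I : Ideal C.A} {z : RatFunc L} (hz : z ∈ C.LM I) : C.sM z ∈ C.LM I := by
  unfold LM at hz
  induction hz using AddSubgroup.closure_induction with
  | mem z hz =>
    obtain ⟨b', x, h1, h2, rfl⟩ := hz
    refine AddSubgroup.subset_closure ⟨C.sM b', x, C.isLaur_sM h1, h2, ?_⟩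
    rw [map_mul, x.2.1]
  | zero =>
    rw [map_zero]
    exact AddSubgroup.zero_mem _
  | add z z' _ _ h1 h2 =>
    rw [map_add]
    exact AddSubgroup.add_mem _ h1 h2
  | neg z _ h1 =>
    rw [map_neg]
    exact AddSubgroup.neg_mem _ h1

private theorem LM_LJ {I : Ideal C.A} {z : RatFunc L} (hz : z ∈ C.LM I) :
    ∃ (n : ℕ) (P : L[X]), P ∈ C.LJ I ∧ z * RatFunc.X ^ n = algebraMap L[X] (RatFunc L) P := by
  unfold LM at hz
  induction hz using AddSubgroup.closure_induction with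
  | mem z hz =>
    obtain ⟨b', x, ⟨n, P, h1⟩, h2, rfl⟩ := hz
    obtain ⟨m, Q, h3⟩ := x.2.2
    refine ⟨n + m, P * Q, ?_, ?_⟩
    · exact Ideal.mul_mem_left _ _ (Ideal.subset_span ⟨x, m, h2, h3.symm⟩)
    · rw [map_mul, ← h1, ← h3]
      ring
  | zero => exact ⟨0, 0, Ideal.zero_mem _, by rw [zero_mul, map_zero]⟩
  | add z z' _ _ h1 h2 =>
    obtain ⟨n, P, h3, h4⟩ := h1
    obtain ⟨m, Q, h5, h6⟩ := h2
    refine ⟨n + m, Polynomial.X ^ m * P + Polynomial.X ^ n * Q, ?_, ?_⟩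
    · exact Ideal.add_mem _ (Ideal.mul_mem_left _ _ h3) (Ideal.mul_mem_left _ _ h5)
    · rw [map_add, map_mul, map_mul, map_pow, map_pow, ← h4, ← h6, RatFunc.algebraMap_X]
      ring
  | neg z _ h1 =>
    obtain ⟨n, P, h3, h4⟩ := h1
    refine ⟨n, -P, (Ideal.neg_mem_iff _).mpr h3, ?_⟩
    rw [map_neg, ← h4]
    ring

private theorem LJ_LM {I : Ideal C.A} {P : L[X]} (hP : P ∈ C.LJ I) :
    algebraMap L[X] (RatFunc L) P ∈ C.LM I := by
  unfold LJ at hP
  induction hP using Submodule.span_induction with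
  | mem P hP =>
    obtain ⟨x, n, h1, h2⟩ := hP
    rw [h2, mul_comm]
    exact AddSubgroup.subset_closure ⟨RatFunc.X ^ n, x, laur_pow isLaur_X n, h1, rfl⟩
  | zero =>
    rw [map_zero]
    exact AddSubgroup.zero_mem _
  | add P Q _ _ h1 h2 =>
    rw [map_add]
    exact AddSubgroup.add_mem _ h1 h2
  | smul Q P _ h1 =>
    rw [smul_eq_mul, map_mul]
    exact C.LM_mul (isLaur_poly Q) h1

private theorem LM_tr {I : Ideal C.A} {z : RatFunc L} (hz : z ∈ C.LM I) :
    ∃ x : C.A, x ∈ I ∧ (x : RatFunc L) = z + C.sM z := by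
  unfold LM at hz
  induction hz using AddSubgroup.closure_induction with
  | mem z hz =>
    obtain ⟨b', x, h1, h2, rfl⟩ := hz
    have hm : b' + C.sM b' ∈ C.A := by
      refine ⟨?_, h1.add (C.isLaur_sM h1)⟩
      rw [map_add, C.sM_sM, add_comm]
    refine ⟨⟨b' + C.sM b', hm⟩ * x, Ideal.mul_mem_left _ _ h2, ?_⟩
    rw [map_mul, x.2.1]
    change (b' + C.sM b') * (x : RatFunc L) = _
    ring
  | zero => exact ⟨0, Ideal.zero_mem _, by rw [map_zero, add_zero]; rfl⟩
  | add z z' _ _ h1 h2 =>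
    obtain ⟨x, h3, h4⟩ := h1
    obtain ⟨y, h5, h6⟩ := h2
    refine ⟨x + y, Ideal.add_mem _ h3 h5, ?_⟩
    rw [map_add]
    change (x : RatFunc L) + (y : RatFunc L) = _
    rw [h4, h6]
    ring
  | neg z _ h1 =>
    obtain ⟨x, h3, h4⟩ := h1
    refine ⟨-x, (Ideal.neg_mem_iff _).mpr h3, ?_⟩
    rw [map_neg]
    change -(x : RatFunc L) = _
    rw [h4]
    ring

private theorem LM_fix {I : Ideal C.A} (x : C.A) (hz : (x : RatFunc L) ∈ C.LM I) : x ∈ I := by
  obtain ⟨y, h1, h2⟩ := C.LM_tr hz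
  rw [x.2.1] at h2
  have h3 : x = algebraMap F C.A (2 : F)⁻¹ * y := by
    apply Subtype.ext
    have h4 : ((algebraMap F C.A (2 : F)⁻¹ * y : C.A) : RatFunc L) =
        algebraMap F (RatFunc L) (2 : F)⁻¹ * (y : RatFunc L) := rfl
    rw [h4, h2, map_inv₀, map_ofNat]
    have h5 := C.twoM
    field_simp
    ring
  rw [h3]
  exact Ideal.mul_mem_left _ _ h1

instance pidA : IsPrincipalIdealRing C.A := by
  refine ⟨fun I => ?_⟩
  have hX : (RatFunc.X : RatFunc L) ≠ 0 := RatFunc.X_ne_zero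
  have hinj := ratFunc_inj L
  by_cases hI : I = ⊥
  · rw [hI]
    exact bot_isPrincipal
  obtain ⟨f₀, hf₀, hf₀0⟩ := Submodule.exists_mem_ne_zero_of_ne_bot hI
  obtain ⟨G, hG⟩ : ∃ G, C.LJ I = Ideal.span {G} := ⟨_, (IsPrincipalIdealRing.principal
    (C.LJ I)).principal.choose_spec⟩
  have hGJ : G ∈ C.LJ I := by
    rw [hG]
    exact Ideal.mem_span_singleton_self G
  have hG0 : G ≠ 0 := by
    rintro rfl
    obtain ⟨n, P, h1⟩ := f₀.2.2
    have h2 : P ∈ C.LJ I := Ideal.subset_span ⟨f₀, n, hf₀, h1.symm⟩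
    rw [hG, Ideal.mem_span_singleton, zero_dvd_iff] at h2
    rw [h2, map_zero, mul_eq_zero] at h1
    rcases h1 with h1 | h1
    · exact hf₀0 (Subtype.ext h1)
    · exact pow_ne_zero n hX h1
  have hG0' : algebraMap L[X] (RatFunc L) G ≠ 0 := (map_ne_zero_iff _ hinj).mpr hG0
  obtain ⟨N, P, hP, hP2⟩ := C.LM_LJ (C.LM_sM (C.LJ_LM hGJ))
  rw [hG, Ideal.mem_span_singleton] at hP
  obtain ⟨H, rfl⟩ := hP
  rw [map_mul] at hP2
  -- `H s(H) = b ^ N`
  have h1 := congrArg C.sM hP2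
  rw [map_mul, map_mul, C.sM_sM, map_pow, C.sM_X] at h1
  have hsG0 : C.sM (algebraMap L[X] (RatFunc L) G) ≠ 0 := (map_ne_zero C.sM).mpr hG0'
  have h2 : algebraMap L[X] (RatFunc L) H * C.sM (algebraMap L[X] (RatFunc L) H) =
      RatFunc.C (C.bL ^ N) := by
    have h3 : algebraMap L[X] (RatFunc L) G * (algebraMap L[X] (RatFunc L) H *
        C.sM (algebraMap L[X] (RatFunc L) H)) =
        algebraMap L[X] (RatFunc L) G * RatFunc.C (C.bL ^ N) := by
      have hXN : (RatFunc.X : RatFunc L) ^ N ≠ 0 := pow_ne_zero N hX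
      rw [← mul_assoc, ← hP2, map_pow]
      have h5 : C.sM (algebraMap L[X] (RatFunc L) G) *
          C.sM (algebraMap L[X] (RatFunc L) H) * RatFunc.X ^ N =
          algebraMap L[X] (RatFunc L) G * RatFunc.C C.bL ^ N := by
        rw [← h1, div_pow]
        field_simp
      linear_combination h5
    exact mul_left_cancel₀ hG0' h3
  obtain ⟨M, R, hR⟩ := C.isLaur_sM (isLaur_poly H)
  have h3 : H * R = Polynomial.C (C.bL ^ N) * Polynomial.X ^ M := by
    apply hinj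
    rw [map_mul, map_mul, RatFunc.algebraMap_C, map_pow (algebraMap L[X] (RatFunc L)) Polynomial.X,
      RatFunc.algebraMap_X, ← h2, ← hR]
    ring
  have hbN : C.bL ^ N ≠ 0 := pow_ne_zero N C.bL_ne
  have h4 : H ∣ Polynomial.X ^ M := by
    refine ⟨R * Polynomial.C (C.bL ^ N)⁻¹, ?_⟩
    rw [← mul_assoc, h3, mul_comm, ← mul_assoc, ← Polynomial.C_mul, inv_mul_cancel₀ hbN,
      Polynomial.C_1, one_mul]
  obtain ⟨i, -, hi⟩ := (dvd_prime_pow Polynomial.prime_X M).mp h4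
  obtain ⟨u, hu⟩ := hi.symm
  obtain ⟨e, he, he2⟩ := Polynomial.isUnit_iff.mp u.isUnit
  have he0 : e ≠ 0 := he.ne_zero
  have h5 : C.sM (algebraMap L[X] (RatFunc L) G) =
      RatFunc.C e * RatFunc.X ^ ((i : ℤ) - (N : ℤ)) * algebraMap L[X] (RatFunc L) G := by
    have hXN : (RatFunc.X : RatFunc L) ^ N ≠ 0 := pow_ne_zero N hX
    rw [zpow_sub₀ hX, zpow_natCast, zpow_natCast]
    have h6 : algebraMap L[X] (RatFunc L) H = RatFunc.X ^ i * RatFunc.C e := by
      rw [← hu, map_mul, map_pow, RatFunc.algebraMap_X, ← he2, RatFunc.algebraMap_C]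
    rw [h6] at hP2
    field_simp
    linear_combination hP2
  obtain ⟨c', j, hc', hgA⟩ := C.desc hG0' (isLaur_poly G) he0 h5
  refine ⟨⟨⟨RatFunc.C c' * RatFunc.X ^ j * algebraMap L[X] (RatFunc L) G, hgA⟩, ?_⟩⟩
  have hCc : (RatFunc.C c' : RatFunc L) ≠ 0 := (map_ne_zero _).mpr hc'
  have hXj : (RatFunc.X : RatFunc L) ^ j ≠ 0 := zpow_ne_zero j hX
  have hg0 : RatFunc.C c' * RatFunc.X ^ j * algebraMap L[X] (RatFunc L) G ≠ 0 :=
    mul_ne_zero (mul_ne_zero hCc hXj) hG0'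
  apply le_antisymm
  · intro f hf
    obtain ⟨n, P, h6⟩ := f.2.2
    have h7 : P ∈ C.LJ I := Ideal.subset_span ⟨f, n, hf, h6.symm⟩
    rw [hG, Ideal.mem_span_singleton] at h7
    obtain ⟨Q, rfl⟩ := h7
    rw [map_mul] at h6
    have hXn : (RatFunc.X : RatFunc L) ^ n ≠ 0 := pow_ne_zero n hX
    have h8 : (f : RatFunc L) / (RatFunc.C c' * RatFunc.X ^ j * algebraMap L[X] (RatFunc L) G) =
        algebraMap L[X] (RatFunc L) Q * (RatFunc.X)⁻¹ ^ n * RatFunc.X ^ (-j) *
          RatFunc.C (c')⁻¹ := by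
      rw [zpow_neg, map_inv₀, inv_pow, div_eq_iff hg0]
      field_simp
      linear_combination h6
    have h9 : (f : RatFunc L) / (RatFunc.C c' * RatFunc.X ^ j * algebraMap L[X] (RatFunc L) G) ∈
        C.A := by
      refine ⟨?_, ?_⟩
      · rw [map_div₀, f.2.1, hgA.1]
      · rw [h8]
        exact (((isLaur_poly Q).mul (laur_pow isLaur_X_inv n)).mul (laur_zpow (-j))).mul
          (isLaur_C _)
    rw [← Ideal.span, Ideal.mem_span_singleton']
    refine ⟨⟨_, h9⟩, ?_⟩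
    apply Subtype.ext
    change (f : RatFunc L) / (RatFunc.C c' * RatFunc.X ^ j * algebraMap L[X] (RatFunc L) G) *
      (RatFunc.C c' * RatFunc.X ^ j * algebraMap L[X] (RatFunc L) G) = (f : RatFunc L)
    exact div_mul_cancel₀ _ hg0
  · rw [← Ideal.span, Ideal.span_singleton_le_iff_mem]
    apply C.LM_fix
    exact C.LM_mul ((isLaur_C c').mul (laur_zpow j)) (C.LJ_LM hGJ)

theorem fracA (x : C.K) : ∃ f g : C.A, g ≠ 0 ∧ x = C.iA f / C.iA g := by
  obtain ⟨P, Q, hQ, hx⟩ := ratFunc_frac L (x : RatFunc L)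
  have hQ0 : algebraMap L[X] (RatFunc L) Q ≠ 0 := (map_ne_zero_iff _ (ratFunc_inj L)).mpr hQ
  have hsQ0 : C.sM (algebraMap L[X] (RatFunc L) Q) ≠ 0 := (map_ne_zero C.sM).mpr hQ0
  have hxs : C.sM (x : RatFunc L) = x := x.2
  have hg : algebraMap L[X] (RatFunc L) Q * C.sM (algebraMap L[X] (RatFunc L) Q) ∈ C.A := by
    refine ⟨?_, (isLaur_poly Q).mul (C.isLaur_sM (isLaur_poly Q))⟩
    rw [map_mul, C.sM_sM, mul_comm]
  have hf : algebraMap L[X] (RatFunc L) P * C.sM (algebraMap L[X] (RatFunc L) Q) ∈ C.A := by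
    refine ⟨?_, (isLaur_poly P).mul (C.isLaur_sM (isLaur_poly Q))⟩
    have h1 : algebraMap L[X] (RatFunc L) P = (x : RatFunc L) * algebraMap L[X] (RatFunc L) Q := by
      rw [hx, div_mul_cancel₀ _ hQ0]
    rw [map_mul, C.sM_sM, h1, map_mul, hxs]
    ring
  refine ⟨⟨_, hf⟩, ⟨_, hg⟩, ?_, ?_⟩
  · intro h0
    exact mul_ne_zero hQ0 hsQ0 (congrArg Subtype.val h0)
  · apply Subtype.ext
    change (x : RatFunc L) = algebraMap L[X] (RatFunc L) P *
      C.sM (algebraMap L[X] (RatFunc L) Q) / (algebraMap L[X] (RatFunc L) Q *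
        C.sM (algebraMap L[X] (RatFunc L) Q))
    rw [hx, mul_div_mul_right _ _ hsQ0]

end CQ

end Pool.Agent.MK
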