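import Pool.Agent.MK.ADim
import Pool.Agent.MK.APid

/-! # Places of the conic over the primes of the coordinate ring

PROOFS.  `c ≠ 0` in the algebraic closure; `w = vPt c`.

* `laur_nonneg`: `f X^n = P`, `w.v X = 0`, `w.v P ≥ 0`.
* `placeA`: `p` prime of `C.A` with `w.v p > 0`.  Let `𝔮 = {r ∈ C.A | w.res r = 0}`, an ideal (`Val.res_add`,
  `Val.res_mul`) with `p ∈ 𝔮`, `1 ∉ 𝔮`.  `(p)` is a maximal ideal (`IsPrincipalIdealRing`, `p` irreducible:
  `PrincipalIdealRing.isMaximal_of_irreducible`), so `𝔮 = (p)`.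
  `v0`: `p ∤ r` implies `w.res r ≠ 0`, so `w.v r = 0`.
  `inj`: `w.ac f = w.ac g` with both units: `w.res (f - g) = 0`, `f - g ∈ 𝔮`.
  `vp`: let `e = w.v p ≥ 1`.  Every `x ≠ 0` in `C.K` has `w.v x ∈ e ℤ`: `x = f / g` (`fracA`) and `f = p^k f'`,
  `p ∤ f'`.  Let `P = minpoly L c`, `f = P` as an element of `L(z)`, `w.v f = 1`.  Put `g = (f + s f)/2`,
  `h = (f - s f)/(2α)`, both fixed by `s` (`C.QK.re_spec`, `im_spec` or directly), `f = g + h α`, `s f = g - h α`.
  `w.v α = 0` and `w.v 2 = 0` (`vPt_C`).  If `h = 0`: `1 = w.v g ∈ e ℤ`.  If `g = 0`: `1 = w.v h ∈ e ℤ`.  If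
  `w.v g ≠ w.v h`: `w.v f = min ∈ e ℤ`.  If `w.v g = w.v h = m`: `m ≤ w.v f = 1`; suppose `e ≥ 2`; then
  `m ≠ 1`, `m ≤ 0 < w.v f`, and `s f = 2 g - f` has valuation `m`, so `w.v (f s f) = 1 + m`; but
  `f s f ∈ C.K`, so `e ∣ 1 + m`, `e ∣ m`, `e = 1`.  In all cases `e ∣ 1`.
* `exists_pt`: `n = dg p ≥ 1` (a prime is not a unit; nonzero of degree 0 are units).  `P = p X^n` is a
  polynomial: with `p X^N = Q`, `(vPt 0).v p = -n` (`swap_zero_inf`), so `(vPt 0).v Q = N - n ≥ 0`... hence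
  `X^(N-n) ∣ Q` and `P = Q / X^(N-n)`.  `natDegree P = 2 n > 0` (`vInf`), `P(0) ≠ 0`.  A root `c` of `P` in the
  algebraic closure is `≠ 0` and `(vPt c).v p = (vPt c).v P > 0`.
* `dvd_iff_pt`: from `placeA`: for `c` over `p`: `p ∣ r` iff `r = 0` or `(vPt c).v r > 0`.
* `unramK`: if `m ∈ K₂(C.K)` and all `(vPt c).tame (m_M) = 0` (`c ≠ 0`), then `m ∈ Ml C.iA C.degA 2`: `filt_main` with
  `n₀ = 2`, `k = AlgebraicClosure L`, `hexA`, `fracA`; for a prime `p` take `c` by `exists_pt` and the place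
  `(vPt c).comap C.iK` (`placeA`, `tame_comap`).
-/

set_option autoImplicit false
set_option linter.unusedSectionVars false

namespace Pool.Agent.MK

universe u v w

open scoped Polynomial

namespace CQ

variable {F L : Type u} [Field F] [Field L] [Algebra F L] (C : CQ F L)

theorem laur_nonneg {f : RatFunc L} (hf : IsLaur f) {c : AlgebraicClosure L} (hc : c ≠ 0) :
    0 ≤ (vPt c).v f := by
  obtain ⟨n, P, h⟩ := hf
  by_cases h0 : f = 0
  · rw [h0, (vPt c).v_zero]
  have h1 : (vPt c).v (f * RatFunc.X ^ n) = (vPt c).v f := by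
    rw [(vPt c).v_mul _ _ h0 (pow_ne_zero n RatFunc.X_ne_zero), (vPt c).v_pow, (vPt_X hc).1,
      mul_zero, add_zero]
  rw [← h1, h]
  exact vPt_nonneg c P

private lemma apl_key {p : C.A} (hp : Prime p) {c : AlgebraicClosure L} (hc : c ≠ 0)
    (h : 0 < (vPt c).v (p : RatFunc L)) (r : C.A) :
    (vPt c).res (r : RatFunc L) = 0 ↔ p ∣ r := by
  have hnn : ∀ r : C.A, 0 ≤ (vPt c).v (r : RatFunc L) := fun r => laur_nonneg r.2.2 hc
  let q : Ideal C.A :=
    { carrier := {r | (vPt c).res (r : RatFunc L) = 0}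
      zero_mem' := by
        show (vPt c).res ((0 : C.A) : RatFunc L) = 0
        rw [ZeroMemClass.coe_zero, Val.res_zero]
      add_mem' := by
        intro a b ha hb
        show (vPt c).res ((a + b : C.A) : RatFunc L) = 0
        have ha' : (vPt c).res (a : RatFunc L) = 0 := ha
        have hb' : (vPt c).res (b : RatFunc L) = 0 := hb
        rw [AddMemClass.coe_add, Val.res_add _ (hnn a) (hnn b), ha', hb', add_zero]
      smul_mem' := by
        intro a b hb
        show (vPt c).res ((a * b : C.A) : RatFunc L) = 0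
        have hb' : (vPt c).res (b : RatFunc L) = 0 := hb
        rw [MulMemClass.coe_mul, Val.res_mul _ (hnn a) (hnn b), hb', mul_zero] }
  have hmem : ∀ r : C.A, r ∈ q ↔ (vPt c).res (r : RatFunc L) = 0 := fun r => Iff.rfl
  have hmax : (Ideal.span {p} : Ideal C.A).IsMaximal :=
    PrincipalIdealRing.isMaximal_of_irreducible hp.irreducible
  have hle : Ideal.span {p} ≤ q := by
    rw [Ideal.span_singleton_le_iff_mem, hmem]
    exact Val.res_of_pos _ h
  have hne : q ≠ ⊤ := by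
    rw [Ideal.ne_top_iff_one, hmem, OneMemClass.coe_one, Val.res_one]
    exact one_ne_zero
  have heq : Ideal.span {p} = q := hmax.eq_of_le hne hle
  rw [← hmem, ← heq, Ideal.mem_span_singleton]

private lemma apl_dvd {p : C.A} (hp : Prime p) {c : AlgebraicClosure L} (hc : c ≠ 0)
    (h : 0 < (vPt c).v (p : RatFunc L)) (x : C.K) (hx : x ≠ 0) :
    (vPt c).v (p : RatFunc L) ∣ (vPt c).v (x : RatFunc L) := by
  have hA : ∀ f : C.A, f ≠ 0 → (vPt c).v (p : RatFunc L) ∣ (vPt c).v (f : RatFunc L) := by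
    intro f hf
    obtain ⟨k, f', h1, h2⟩ := WfDvdMonoid.max_power_factor hf hp.irreducible
    have h3 : (vPt c).res (f' : RatFunc L) ≠ 0 := fun h4 => h1 ((C.apl_key hp hc h f').1 h4)
    have h4 : (vPt c).v (f' : RatFunc L) = 0 := by
      by_contra h5
      exact h3 (by rw [Val.res, if_neg h5])
    have hp0 : (p : RatFunc L) ≠ 0 := fun h5 => hp.ne_zero (Subtype.ext h5)
    have hf0 : (f' : RatFunc L) ≠ 0 := by
      intro h5
      exact h3 (by rw [h5, Val.res_zero])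
    have h5 : (f : RatFunc L) = (p : RatFunc L) ^ k * (f' : RatFunc L) := by
      rw [h2]
      rfl
    rw [h5, (vPt c).v_mul _ _ (pow_ne_zero k hp0) hf0, (vPt c).v_pow, h4, add_zero]
    exact Dvd.intro_left _ rfl
  obtain ⟨f, g, hg, rfl⟩ := C.fracA x
  have hf : f ≠ 0 := by
    rintro rfl
    exact hx (by rw [map_zero, zero_div])
  have hf0 : (f : RatFunc L) ≠ 0 := fun h5 => hf (Subtype.ext h5)
  have hg0 : (g : RatFunc L) ≠ 0 := fun h5 => hg (Subtype.ext h5)
  have h1 : ((C.iA f / C.iA g : C.K) : RatFunc L) = (f : RatFunc L) / (g : RatFunc L) := rfl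
  rw [h1, (vPt c).v_div hf0 hg0]
  exact dvd_sub (hA f hf) (hA g hg)

private lemma apl_one {p : C.A} (hp : Prime p) {c : AlgebraicClosure L} (hc : c ≠ 0)
    (h : 0 < (vPt c).v (p : RatFunc L)) : (vPt c).v (p : RatFunc L) = 1 := by
  set e := (vPt c).v (p : RatFunc L) with he
  have hd := fun (x : C.K) (hx : x ≠ 0) => C.apl_dvd hp hc h x hx
  have hα : (vPt c).v (RatFunc.C C.α) = 0 := (vPt_C c C.α).1
  have hα0 : (RatFunc.C C.α : RatFunc L) ≠ 0 := (map_ne_zero _).mpr C.α_ne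
  set f : RatFunc L := algebraMap L[X] (RatFunc L) (minpoly L c) with hf
  have hf0 : f ≠ 0 := (map_ne_zero_iff _ (ratFunc_inj L)).2 (minpoly_prime c).ne_zero
  have hfv : (vPt c).v f = 1 := (vPt_spec c).1
  set g : C.K := C.QK.re f with hg
  set k : C.K := C.QK.im f with hk
  have hdec : f = (g : RatFunc L) + (k : RatFunc L) * RatFunc.C C.α := C.QK.decomp f
  have hs : C.sM f = 2 * (g : RatFunc L) - f := by
    have e1 : C.sM (g : RatFunc L) = g := g.2
    have e2 : C.sM (k : RatFunc L) = k := k.2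
    have e3 : C.sM f = (g : RatFunc L) - (k : RatFunc L) * RatFunc.C C.α := by
      rw [hdec, map_add, map_mul, e1, e2, C.sM_C, C.s_α, map_neg]
      ring
    rw [e3, hdec]
    ring
  have h1 : e ∣ 1 := by
    by_cases hk0 : k = 0
    · have e1 : f = (g : RatFunc L) := by
        rw [hdec, hk0, ZeroMemClass.coe_zero, zero_mul, add_zero]
      have hg0 : g ≠ 0 := by
        intro h2
        exact hf0 (by rw [e1, h2, ZeroMemClass.coe_zero])
      have := hd g hg0
      rwa [← e1, hfv] at this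
    by_cases hg0 : g = 0
    · have e1 : f = (k : RatFunc L) * RatFunc.C C.α := by
        rw [hdec, hg0, ZeroMemClass.coe_zero, zero_add]
      have hk1 : (k : RatFunc L) ≠ 0 := fun h2 => hk0 (Subtype.ext h2)
      have h3 := hd k hk0
      have h4 : (vPt c).v f = (vPt c).v (k : RatFunc L) := by
        rw [e1, (vPt c).v_mul _ _ hk1 hα0, hα, add_zero]
      rwa [← h4, hfv] at h3
    have hk1 : (k : RatFunc L) ≠ 0 := fun h2 => hk0 (Subtype.ext h2)
    have hg1 : (g : RatFunc L) ≠ 0 := fun h2 => hg0 (Subtype.ext h2)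
    have hkα : (k : RatFunc L) * RatFunc.C C.α ≠ 0 := mul_ne_zero hk1 hα0
    have hkv : (vPt c).v ((k : RatFunc L) * RatFunc.C C.α) = (vPt c).v (k : RatFunc L) := by
      rw [(vPt c).v_mul _ _ hk1 hα0, hα, add_zero]
    have dg := hd g hg0
    have dk := hd k hk0
    rcases lt_trichotomy ((vPt c).v (g : RatFunc L)) ((vPt c).v (k : RatFunc L)) with h2 | h2 | h2
    · obtain ⟨-, h3, -⟩ := (vPt c).add_lt (x := (g : RatFunc L))
        (y := (k : RatFunc L) * RatFunc.C C.α) hg1 (Or.inr (by rw [hkv]; exact h2))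
      rw [← hdec, hfv] at h3
      rwa [← h3] at dg
    · have h3 := (vPt c).v_add hg1 hkα (by rw [← hdec]; exact hf0)
      rw [← hdec, hfv, hkv, ← h2, min_self] at h3
      rcases h3.eq_or_lt with h4 | h4
      · rwa [h4] at dg
      · have h20 : (2 : RatFunc L) ≠ 0 := C.twoM
        have h2v : (vPt c).v (2 : RatFunc L) = 0 := by
          have := (vPt_C c (2 : L)).1
          rwa [map_ofNat] at this
        have h5 : (vPt c).v (2 * (g : RatFunc L)) = (vPt c).v (g : RatFunc L) := by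
          rw [(vPt c).v_mul _ _ h20 hg1, h2v, zero_add]
        obtain ⟨h60, h6, -⟩ := (vPt c).add_lt (x := 2 * (g : RatFunc L)) (y := -f)
          (mul_ne_zero h20 hg1) (Or.inr (by rw [h5, Val.v_neg, hfv]; exact h4))
        rw [← sub_eq_add_neg, ← hs] at h60 h6
        rw [h5] at h6
        have h7 : ((C.QK.N f : C.K) : RatFunc L) = f * C.sM f := C.QK.N_spec f
        have h8 : C.QK.N f ≠ 0 := C.QK.N_ne hf0
        have h9 := hd _ h8
        rw [h7, (vPt c).v_mul _ _ hf0 h60, hfv, h6] at h9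
        have h10 := dvd_sub h9 dg
        rwa [add_sub_cancel_right] at h10
    · obtain ⟨-, h3, -⟩ := (vPt c).add_lt (x := (k : RatFunc L) * RatFunc.C C.α)
        (y := (g : RatFunc L)) hkα (Or.inr (by rw [hkv]; exact h2))
      rw [add_comm, ← hdec, hfv, hkv] at h3
      rwa [← h3] at dk
  exact Int.eq_one_of_dvd_one h.le h1

theorem placeA {p : C.A} (hp : Prime p) {c : AlgebraicClosure L} (hc : c ≠ 0)
    (h : 0 < (vPt c).v (p : RatFunc L)) : PlaceAt C.iA p ((vPt c).comap C.iK) := by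
  have hnn : ∀ r : C.A, 0 ≤ (vPt c).v (r : RatFunc L) := fun r => laur_nonneg r.2.2 hc
  have hv0 : ∀ r : C.A, ¬ p ∣ r → (vPt c).v (r : RatFunc L) = 0 := by
    intro r hr
    have h3 : (vPt c).res (r : RatFunc L) ≠ 0 := fun h4 => hr ((C.apl_key hp hc h r).1 h4)
    by_contra h5
    exact h3 (by rw [Val.res, if_neg h5])
  refine ⟨C.apl_one hp hc h, hv0, ?_⟩
  intro f g hf hg hac
  have hac' : (vPt c).ac (f : RatFunc L) = (vPt c).ac (g : RatFunc L) := hac
  rw [← C.apl_key hp hc h]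
  have e1 : ((f - g : C.A) : RatFunc L) = (f : RatFunc L) + -(g : RatFunc L) := by
    rw [AddSubgroupClass.coe_sub, sub_eq_add_neg]
  have hg' : 0 ≤ (vPt c).v (-(g : RatFunc L)) := by
    rw [Val.v_neg]
    exact hnn g
  rw [e1, Val.res_add _ (hnn f) hg', Val.res_neg _ (hnn g), Val.res_of_v_eq _ (hv0 f hf),
    Val.res_of_v_eq _ (hv0 g hg), hac', add_neg_cancel]

theorem exists_pt {p : C.A} (hp : Prime p) :
    ∃ c : AlgebraicClosure L, c ≠ 0 ∧ 0 < (vPt c).v (p : RatFunc L) := by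
  have hp0 : (p : RatFunc L) ≠ 0 := fun h5 => hp.ne_zero (Subtype.ext h5)
  have hn : C.dg p ≠ 0 := fun h1 => hp.not_isUnit (C.dg_unit p hp.ne_zero h1)
  have hinf : (vInf L).v (p : RatFunc L) = -(C.dg p : ℤ) := by
    rw [C.dg_eq, neg_neg]
  have hzero : (vPt (0 : AlgebraicClosure L)).v (p : RatFunc L) = -(C.dg p : ℤ) := by
    rw [← (C.swap_zero_inf hp0).1, p.2.1]
    exact hinf
  obtain ⟨N, Q, hQ⟩ := p.2.2
  have hX : (RatFunc.X : RatFunc L) ^ N ≠ 0 := pow_ne_zero N RatFunc.X_ne_zero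
  have hQ1 : algebraMap L[X] (RatFunc L) Q ≠ 0 := by
    rw [← hQ]
    exact mul_ne_zero hp0 hX
  have hQ0 : Q ≠ 0 := (map_ne_zero_iff _ (ratFunc_inj L)).1 hQ1
  have h1 : (vPt (0 : AlgebraicClosure L)).v (algebraMap L[X] (RatFunc L) Q) =
      -(C.dg p : ℤ) + N := by
    rw [← hQ, Val.v_mul _ _ _ hp0 hX, Val.v_pow, vPt_X_zero.1, hzero, mul_one]
  have h2 : (vInf L).v (algebraMap L[X] (RatFunc L) Q) = -(C.dg p : ℤ) - N := by
    rw [← hQ, Val.v_mul _ _ _ hp0 hX, Val.v_pow, vInf_X.1, hinf]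
    ring
  by_contra hcon
  push Not at hcon
  have hroot : ∀ c : AlgebraicClosure L, c ≠ 0 → Polynomial.aeval c Q ≠ 0 := by
    intro c hc h3
    have h4 : (vPt c).v (algebraMap L[X] (RatFunc L) Q) = (vPt c).v (p : RatFunc L) := by
      rw [← hQ, Val.v_mul _ _ _ hp0 hX, Val.v_pow, (vPt_X hc).1, mul_zero, add_zero]
    have h5 : 0 < (vPt c).v (algebraMap L[X] (RatFunc L) Q) :=
      (Val.res_eq_zero _ hQ1 (vPt_nonneg c Q)).1 (by rw [vPt_res, h3])
    have h6 := hcon c hc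
    omega
  obtain ⟨e, k, he, hk⟩ := no_roots hQ0 hroot
  have heC : (RatFunc.C e : RatFunc L) ≠ 0 := (map_ne_zero _).mpr he
  have hXk : (RatFunc.X : RatFunc L) ^ k ≠ 0 := pow_ne_zero k RatFunc.X_ne_zero
  have hQk : algebraMap L[X] (RatFunc L) Q = RatFunc.C e * RatFunc.X ^ k := by
    rw [hk, map_mul, map_pow, RatFunc.algebraMap_X, RatFunc.algebraMap_C]
  have h7 : (vPt (0 : AlgebraicClosure L)).v (algebraMap L[X] (RatFunc L) Q) = k := by
    rw [hQk, Val.v_mul _ _ _ heC hXk, Val.v_pow, vPt_X_zero.1, (vPt_C 0 e).1, mul_one, zero_add]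
  have h8 : (vInf L).v (algebraMap L[X] (RatFunc L) Q) = -k := by
    rw [hQk, Val.v_mul _ _ _ heC hXk, Val.v_pow, vInf_X.1, (vInf_C e).1]
    ring
  omega

theorem dvd_iff_pt {p : C.A} (hp : Prime p) {c : AlgebraicClosure L} (hc : c ≠ 0)
    (h : 0 < (vPt c).v (p : RatFunc L)) {r : C.A} (hr : r ≠ 0) :
    p ∣ r ↔ 0 < (vPt c).v (r : RatFunc L) := by
  have hr0 : (r : RatFunc L) ≠ 0 := fun h5 => hr (Subtype.ext h5)
  rw [← C.apl_key hp hc h, Val.res_eq_zero _ hr0 (laur_nonneg r.2.2 hc)]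

theorem unramK (m : K2 C.K)
    (h : ∀ c : AlgebraicClosure L, c ≠ 0 → (vPt c).tame (K2.map C.iK m) = 0) :
    m ∈ Ml C.iA C.degA 2 := by
  refine filt_main C.iA_inj C.fracA (by norm_num) (fun n hn p hp hpn => C.hexA hn p hp hpn) m
    (AlgebraicClosure L) (fun p hp _ => ?_)
  obtain ⟨c, hc, hv⟩ := C.exists_pt hp
  exact ⟨(vPt c).comap C.iK, C.placeA hp hc hv, by rw [tame_comap]; exact h c hc⟩

end CQ

end Pool.Agent.MK
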