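import Pool.Agent.MK.LL

/-! # The cocycle on the quaternion algebra with values in `K₂` of the conic

`Sg` is the subgroup generated by the `{c, l w}`, `c ∈ F`; `Qb = K₂(C.K)/Sg`; `br u v` is the class of
`{l u, l v}` (with `S 0 _ = S _ 0 = 0`); `tau u v = br u v + br v (u v) + br (u v) u`.

PROOFS.  `≡` is congruence modulo `Sg`.
* `br_smul`: `l (k u + k') = k l u`, `{k l u, l v} = {k, l v} + {l u, l v}`.  (If `l u = 0` both sides are `0`.)
* `br_comm`, `br_self` (`{x, x} = {x, -1} = {-1, x}`, and `-1 = C.iF (-1)`), `br_L`: if `u.q = 0` then `l u = k ∈ F`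
  and `{k, l v} ∈ Sg` (or `k = 0`).  `br_conj`: `l (conj u) = - l u`.  `br_inv`: `l u⁻¹ = -(nrd u)⁻¹ l u`.
  `br_scalar`: `l u = 0`.
* `tau_comm`: if `u, v` commute: if `u` is a scalar `k`: `br u v = 0`, `br v (k v) = br v v = 0`, `br (k v) u = 0`.
  Similarly if `v` is a scalar.  Otherwise `v = k u + k'` (`comm_iff` below) and `u v = k u² + k' u =
  k'' u + k'''` (`u² = trd u * u - nrd u`), so all three terms are `0` (`br_smul`, `br_self`, or `br_scalar`).
* `comm_iff`: if `u` is not a scalar and `u v = v u` then `v = k u + k'` with `k, k' ∈ F`.  (If `u.q ≠ 0`: from the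
  components of `u v = v u`, put `v = x + y u` with `y = v.q/u.q`, `x = v.p - y u.p ∈ L`; `x + y u` commutes with `u`:
  `x u + y u u = u x + u y u`, i.e. `(x u - u x) + (y u - u y) u = 0`; the element
  `x u - u x` has components `(0, u.q (x - s x))`..., compare components to get `s x = x`, `s y = y`.
  If `u.q = 0`, `u.p ≠ s(u.p)`: `u v = v u` gives `v.q u.p = v.q s(u.p)`, so `v.q = 0`, and `L = F + F u.p`.)
* `tau_cocycle` (`u, v, w ≠ 0`).  Generic case: none of `u, v, w, uv, vw, uvw` is a scalar.  By `l_cocycle`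
  `1 = l v l(uvw)/(l(uv) l(vw)) + nrd v l u l w/(l(uv) l(vw))`; expand the Steinberg symbol of the two terms
  modulo `Sg` (drop `nrd v`):
  `0 = (v + uvw - uv - vw) ⊗ (u + w - uv - vw)` where `a ⊗ b` stands for `br a b`, i.e.
  `-[br u v + br v (uv) + br (uv) u] + [br v w + br w (vw) + br (vw) v] + [br u (vw) + br (vw) (uvw) +
  br (uvw) u] - [br (uv) w + br w (uvw) + br (uvw) (uv)]`, using `br_comm`, `br_self`; this is
  `-tau u v + tau v w + tau u (vw) - tau (uv) w = 0`.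
  Degenerate cases: `u` scalar: `tau u v = 0`, `tau u (vw) = 0` (`tau_comm`), `tau (uv) w = tau v w` (`br_smul`).
  `w` scalar: similar.  `v` scalar: `tau u v = 0 = tau v w`, `tau (uv) w = tau u w = tau u (vw)`.
  `uv` scalar, `u, v` not: `v = k u⁻¹`; `tau u v = 0`, `tau (uv) w = 0` (`tau_comm`);
  `tau u (vw) = tau u (u⁻¹ w) = br u (u⁻¹w) + br (u⁻¹w) w + br w u` and
  `tau v w = br u⁻¹ w + br w (u⁻¹w) + br (u⁻¹w) u⁻¹ = br u w + br w (u⁻¹w) + br (u⁻¹w) u`, sum `0`.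
  `vw` scalar: symmetric.  `uvw` scalar, `uv, vw` not: `w = k (uv)⁻¹`, `vw = k u⁻¹`... : `tau (uv) w = 0`,
  `tau u (vw) = 0`, and `tau v w = br v (uv) + br (uv) u + br u v = tau u v` (`br_inv`, `br_smul`).
  (`vw = v k (uv)⁻¹ = k v v⁻¹ u⁻¹ = k u⁻¹`.)
-/

set_option autoImplicit false
set_option linter.unusedSectionVars false

namespace Pool.Agent.MK

universe u v w

namespace CQ

variable {F L : Type u} [Field F] [Field L] [Algebra F L] (C : CQ F L)

/-- The subgroup of `K₂` of the function field generated by the `{c, l w}` with `c ∈ F`. -/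
noncomputable def Sg : AddSubgroup (K2 C.K) :=
  AddSubgroup.closure {x | ∃ (c : F) (w : Qt C), x = S (C.iF c) (C.lK w)}

/-- The quotient of `K₂` of the function field by `Sg`. -/
abbrev Qb : Type u := K2 C.K ⧸ C.Sg

/-- The class of `{l u, l v}`. -/
noncomputable def br (u v : Qt C) : C.Qb :=
  (QuotientAddGroup.mk (S (C.lK u) (C.lK v)) : K2 C.K ⧸ C.Sg)

/-- The cocycle. -/
noncomputable def tau (u v : Qt C) : C.Qb := C.br u v + C.br v (u * v) + C.br (u * v) u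

theorem lK_coe (w : Qt C) : ((C.lK w : C.K) : RatFunc L) = C.l w := rfl

theorem lK_add (u w : Qt C) : C.lK (u + w) = C.lK u + C.lK w :=
  Subtype.ext (C.l_add u w)

theorem lK_sc_mul (c : F) (w : Qt C) : C.lK (Qt.sc c * w) = C.iF c * C.lK w :=
  Subtype.ext (C.l_sc_mul c w)

theorem lK_sc (c : F) : C.lK (Qt.sc c) = 0 :=
  Subtype.ext (C.l_sc c)

theorem lK_ofL (x : L) : C.lK (Qt.ofL x) = C.iF (C.im x) :=
  Subtype.ext (C.l_ofL x)

theorem lK_inv (w : Qt C) : C.lK w⁻¹ = C.iF (-(w.nrd)⁻¹) * C.lK w := by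
  apply Subtype.ext
  rw [map_neg, map_inv₀]
  exact C.l_inv w

theorem lK_ne {w : Qt C} (h : ∀ c : F, w ≠ Qt.sc c) : C.lK w ≠ 0 := by
  intro h0
  obtain ⟨c, hc⟩ := C.l_eq_zero.mp (congrArg Subtype.val h0)
  exact h c hc

theorem lK_cocycle (u v w : Qt C) : C.lK (u * v) * C.lK (v * w) =
    C.lK v * C.lK (u * v * w) + C.iF v.nrd * C.lK u * C.lK w :=
  Subtype.ext (C.l_cocycle u v w)

/-- The class of `{x, y}` modulo `Sg`. -/
noncomputable def Bq (x y : C.K) : C.Qb := (QuotientAddGroup.mk (S x y) : K2 C.K ⧸ C.Sg)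

theorem Bq_mul_left {x y : C.K} (hx : x ≠ 0) (hy : y ≠ 0) (z : C.K) :
    C.Bq (x * y) z = C.Bq x z + C.Bq y z := by
  unfold Bq
  rw [S_mul_left hx hy, QuotientAddGroup.mk_add]

theorem Bq_mul_right {y z : C.K} (hy : y ≠ 0) (hz : z ≠ 0) (x : C.K) :
    C.Bq x (y * z) = C.Bq x y + C.Bq x z := by
  unfold Bq
  rw [S_mul_right hy hz, QuotientAddGroup.mk_add]

theorem Bq_div_left {x y : C.K} (hx : x ≠ 0) (hy : y ≠ 0) (z : C.K) :
    C.Bq (x / y) z = C.Bq x z - C.Bq y z := by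
  unfold Bq
  rw [S_div_left hx hy, QuotientAddGroup.mk_sub]

theorem Bq_div_right {y z : C.K} (hy : y ≠ 0) (hz : z ≠ 0) (x : C.K) :
    C.Bq x (y / z) = C.Bq x y - C.Bq x z := by
  unfold Bq
  rw [S_div_right hy hz, QuotientAddGroup.mk_sub]

theorem Bq_comm (x y : C.K) : C.Bq x y = - C.Bq y x := by
  unfold Bq
  rw [S_comm, QuotientAddGroup.mk_neg]

theorem Bq_iF (c : F) (w : Qt C) : C.Bq (C.iF c) (C.lK w) = 0 := by
  unfold Bq
  rw [QuotientAddGroup.eq_zero_iff]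
  exact AddSubgroup.subset_closure ⟨c, w, rfl⟩

theorem Bq_iF' (c : F) (w : Qt C) : C.Bq (C.lK w) (C.iF c) = 0 := by
  rw [Bq_comm, Bq_iF, neg_zero]

theorem br_eq (u v : Qt C) : C.br u v = C.Bq (C.lK u) (C.lK v) := rfl

theorem br_smul {k : F} (hk : k ≠ 0) (k' : F) (u v : Qt C) :
    C.br (Qt.sc k * u + Qt.sc k') v = C.br u v := by
  rw [br_eq, br_eq, lK_add, lK_sc_mul, lK_sc, add_zero]
  by_cases h : C.lK u = 0
  · rw [h, mul_zero]
  · rw [C.Bq_mul_left ((map_ne_zero C.iF).mpr hk) h, Bq_iF, zero_add]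

theorem br_comm (u v : Qt C) : C.br u v = - C.br v u := by
  rw [br_eq, br_eq, Bq_comm]

theorem br_self (u : Qt C) : C.br u u = 0 := by
  have h : C.Bq (C.iF (-1)) (C.lK u) = 0 := C.Bq_iF (-1) u
  rw [map_neg, map_one] at h
  rw [br_eq]
  unfold Bq at h ⊢
  rw [S_self']
  exact h

theorem br_L {u : Qt C} (hu : u.q = 0) (v : Qt C) : C.br u v = 0 := by
  have h : u = Qt.ofL u.p := by
    ext
    · rfl
    · exact hu
  rw [br_eq, h, lK_ofL, Bq_iF]

theorem br_inv (u v : Qt C) : C.br u⁻¹ v = C.br u v := by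
  by_cases hu : u = 0
  · rw [hu, inv_zero]
  by_cases h : C.lK u = 0
  · rw [br_eq, br_eq, lK_inv, h, mul_zero]
  · rw [br_eq, br_eq, lK_inv, C.Bq_mul_left ((map_ne_zero C.iF).mpr
      (neg_ne_zero.mpr (inv_ne_zero (Qt.nrd_ne hu)))) h, Bq_iF, zero_add]

theorem br_scalar (k : F) (v : Qt C) : C.br (Qt.sc k) v = 0 :=
  C.br_L rfl v

theorem br_inv' (u v : Qt C) : C.br u v⁻¹ = C.br u v := by
  rw [br_comm, br_inv, ← br_comm]

theorem br_scalar' (k : F) (v : Qt C) : C.br v (Qt.sc k) = 0 := by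
  rw [br_comm, br_scalar, neg_zero]

theorem sc_zero : (Qt.sc 0 : Qt C) = 0 := by
  ext <;> simp

theorem sc_one : (Qt.sc 1 : Qt C) = 1 := by
  ext <;> simp

theorem sc_add (a b : F) : (Qt.sc (a + b) : Qt C) = Qt.sc a + Qt.sc b := by
  ext <;> simp

theorem sc_neg (a : F) : (Qt.sc (-a) : Qt C) = -Qt.sc a := by
  ext <;> simp

theorem sc_mul (a b : F) : (Qt.sc (a * b) : Qt C) = Qt.sc a * Qt.sc b := by
  ext <;> simp

theorem sc_comm (c : F) (u : Qt C) : Qt.sc c * u = u * Qt.sc c := by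
  ext
  · simp [mul_comm]
  · simp [C.s_alg, mul_comm]

theorem sc_ne {k : F} (h : (Qt.sc k : Qt C) ≠ 0) : k ≠ 0 := by
  rintro rfl
  exact h C.sc_zero

theorem br_sc_left {k : F} (hk : k ≠ 0) (u v : Qt C) : C.br (Qt.sc k * u) v = C.br u v := by
  have h := C.br_smul hk 0 u v
  rwa [sc_zero, add_zero] at h

theorem br_sc_right {k : F} (hk : k ≠ 0) (u v : Qt C) : C.br u (Qt.sc k * v) = C.br u v := by
  rw [br_comm, C.br_sc_left hk, ← br_comm]

theorem sq_eq (u : Qt C) : u * u = Qt.sc u.trd * u + Qt.sc (-u.nrd) := by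
  have h1 : u + Qt.conj u = Qt.sc u.trd := by
    ext
    · simp [Qt.trd_alg]
    · simp
  have h2 := u.mul_conj
  rw [sc_comm, ← h1, sc_neg, ← h2, mul_add]
  abel

theorem br_lin (k k' : F) (u : Qt C) : C.br (Qt.sc k * u + Qt.sc k') u = 0 := by
  by_cases hk : k = 0
  · rw [hk, sc_zero, zero_mul, zero_add, br_scalar]
  · rw [C.br_smul hk, br_self]

theorem comm_iff {u v : Qt C} (hu : ∀ k : F, u ≠ Qt.sc k) (h : u * v = v * u) :
    ∃ k k' : F, v = Qt.sc k * u + Qt.sc k' := by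
  have hp := congrArg Qt.p h
  have hq := congrArg Qt.q h
  simp only [Qt.mul_p, Qt.mul_q] at hp hq
  by_cases h0 : u.q = 0
  · have hne : C.s u.p ≠ u.p := by
      intro hs
      obtain ⟨c, hc⟩ := C.fix u.p hs
      apply hu c
      ext
      · rw [Qt.sc_p, hc]
      · rw [Qt.sc_q, h0]
    rw [h0, zero_mul, add_zero, mul_zero, zero_add] at hq
    have hvq : v.q = 0 := by
      have h1 : v.q * (u.p - C.s u.p) = 0 := by linear_combination hq
      rcases mul_eq_zero.mp h1 with h2 | h2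
      · exact h2
      · exact absurd (sub_eq_zero.mp h2).symm hne
    have him : C.im u.p ≠ 0 := by
      intro h1
      have h2 := C.decomp u.p
      rw [h1, map_zero, zero_mul, add_zero] at h2
      apply hne
      rw [h2, C.s_alg]
    refine ⟨C.im v.p / C.im u.p, C.re v.p - C.im v.p / C.im u.p * C.re u.p, ?_⟩
    have him' : algebraMap F L (C.im u.p) ≠ 0 := (map_ne_zero _).mpr him
    ext
    · rw [Qt.add_p, Qt.mul_p, Qt.sc_p, Qt.sc_q, Qt.sc_p, mul_zero, zero_mul, add_zero, map_sub,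
        map_mul, map_div₀]
      have hq1 := div_mul_cancel₀ (algebraMap F L (C.im v.p)) him'
      linear_combination C.decomp v.p -
        algebraMap F L (C.im v.p) / algebraMap F L (C.im u.p) * C.decomp u.p - C.α * hq1
    · rw [Qt.add_q, Qt.mul_q, Qt.sc_p, Qt.sc_q, Qt.sc_q, h0, hvq]
      ring
  · have hsq : C.s u.q ≠ 0 := (map_ne_zero C.s).mpr h0
    have hb := C.bL_ne
    have e1 : u.q * C.s v.q = v.q * C.s u.q := by
      have : C.bL * (u.q * C.s v.q) = C.bL * (v.q * C.s u.q) := by linear_combination hp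
      exact mul_left_cancel₀ hb this
    have e2 : C.s (v.q / u.q) = v.q / u.q := by
      rw [map_div₀, div_eq_div_iff hsq h0]
      linear_combination e1
    obtain ⟨k, hk⟩ := C.fix _ e2
    have e3 : v.q = algebraMap F L k * u.q := by
      rw [hk]
      field_simp
    have e4 : C.s (v.p - algebraMap F L k * u.p) = v.p - algebraMap F L k * u.p := by
      rw [map_sub, map_mul, C.s_alg]
      have : u.q * (C.s v.p - algebraMap F L k * C.s u.p) =
          u.q * (v.p - algebraMap F L k * u.p) := by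
        rw [e3] at hq
        linear_combination hq
      exact mul_left_cancel₀ h0 this
    obtain ⟨k', hk'⟩ := C.fix _ e4
    refine ⟨k, k', ?_⟩
    ext
    · rw [Qt.add_p, Qt.mul_p, Qt.sc_p, Qt.sc_q, Qt.sc_p, hk']
      ring
    · rw [Qt.add_q, Qt.mul_q, Qt.sc_p, Qt.sc_q, Qt.sc_q, e3]
      ring

theorem tau_comm {u v : Qt C} (hu : u ≠ 0) (hv : v ≠ 0) (h : u * v = v * u) : C.tau u v = 0 := by
  unfold tau
  by_cases h1 : ∃ k : F, u = Qt.sc k
  · obtain ⟨k, rfl⟩ := h1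
    rw [C.br_sc_right (C.sc_ne hu), C.br_sc_left (C.sc_ne hu), br_scalar, br_self, br_scalar']
    simp
  by_cases h2 : ∃ k : F, v = Qt.sc k
  · obtain ⟨k, rfl⟩ := h2
    rw [br_scalar', br_scalar, ← sc_comm, C.br_sc_left (C.sc_ne hv), br_self]
    simp
  push Not at h1 h2
  obtain ⟨k, k', rfl⟩ := C.comm_iff h1 h
  have hk : k ≠ 0 := by
    rintro rfl
    apply h2 k'
    rw [sc_zero, zero_mul, zero_add]
  have h3 : u * (Qt.sc k * u + Qt.sc k') =
      Qt.sc (k * u.trd + k') * u + Qt.sc (k * (-u.nrd)) := by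
    rw [mul_add, ← C.sc_comm k' u, ← mul_assoc, ← C.sc_comm k u, mul_assoc, sq_eq, mul_add,
      ← mul_assoc, ← sc_mul, ← sc_mul, sc_add, add_mul]
    abel
  rw [C.br_smul hk, h3, br_lin, C.br_comm u, br_lin, C.br_comm u, br_lin]
  simp

theorem tau_sc_left {k : F} (hk : k ≠ 0) (u v : Qt C) : C.tau (Qt.sc k * u) v = C.tau u v := by
  unfold tau
  rw [mul_assoc, C.br_sc_left hk, C.br_sc_right hk, C.br_sc_left hk, C.br_sc_right hk]

theorem tau_sc_right {k : F} (hk : k ≠ 0) (u v : Qt C) : C.tau u (Qt.sc k * v) = C.tau u v := by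
  unfold tau
  rw [← mul_assoc, ← C.sc_comm k u, mul_assoc, C.br_sc_left hk, C.br_sc_right hk,
    C.br_sc_left hk, C.br_sc_right hk]

theorem tau_scalar_left {k : F} (hk : (Qt.sc k : Qt C) ≠ 0) {v : Qt C} (hv : v ≠ 0) :
    C.tau (Qt.sc k) v = 0 :=
  C.tau_comm hk hv (C.sc_comm k v)

theorem tau_scalar_right {k : F} (hk : (Qt.sc k : Qt C) ≠ 0) {v : Qt C} (hv : v ≠ 0) :
    C.tau v (Qt.sc k) = 0 :=
  C.tau_comm hv hk (C.sc_comm k v).symm

/-- The generic case of the cocycle identity. -/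
theorem tau_gen {u v w : Qt C} (hu : ∀ k : F, u ≠ Qt.sc k) (hv : ∀ k : F, v ≠ Qt.sc k)
    (hw : ∀ k : F, w ≠ Qt.sc k) (huv : ∀ k : F, u * v ≠ Qt.sc k)
    (hvw : ∀ k : F, v * w ≠ Qt.sc k) (huvw : ∀ k : F, u * v * w ≠ Qt.sc k) :
    C.tau u v + C.tau (u * v) w = C.tau u (v * w) + C.tau v w := by
  have v0 : v ≠ 0 := by
    rintro rfl
    exact hv 0 C.sc_zero.symm
  have n1 := C.lK_ne hu
  have n2 := C.lK_ne hv
  have n3 := C.lK_ne hw
  have n4 := C.lK_ne huv
  have n5 := C.lK_ne hvw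
  have n6 := C.lK_ne huvw
  have n7 : C.iF v.nrd ≠ 0 := (map_ne_zero C.iF).mpr (Qt.nrd_ne v0)
  have h45 := mul_ne_zero n4 n5
  have hsum : C.lK v * C.lK (u * v * w) / (C.lK (u * v) * C.lK (v * w)) +
      C.iF v.nrd * C.lK u * C.lK w / (C.lK (u * v) * C.lK (v * w)) = 1 := by
    rw [← add_div, ← lK_cocycle, div_self h45]
  have hS : C.Bq (C.lK v * C.lK (u * v * w) / (C.lK (u * v) * C.lK (v * w)))
      (C.iF v.nrd * C.lK u * C.lK w / (C.lK (u * v) * C.lK (v * w))) = 0 := by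
    unfold Bq
    rw [S_of_add_eq_one hsum]
    rfl
  rw [C.Bq_div_left (mul_ne_zero n2 n6) h45, C.Bq_mul_left n2 n6, C.Bq_mul_left n4 n5] at hS
  simp only [C.Bq_div_right (mul_ne_zero (mul_ne_zero n7 n1) n3) h45,
    C.Bq_mul_right (mul_ne_zero n7 n1) n3, C.Bq_mul_right n7 n1, C.Bq_mul_right n4 n5,
    C.Bq_iF', zero_add, ← br_eq] at hS
  unfold tau
  rw [← mul_assoc u v w]
  rw [C.br_self, C.br_self, C.br_comm v u, C.br_comm (u * v * w) w,
    C.br_comm (v * w) u, C.br_comm (u * v * w) (v * w), C.br_comm (v * w) w,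
    C.br_comm v (v * w), C.br_comm (v * w) (u * v)] at hS
  rw [← sub_eq_zero]
  refine Eq.trans ?_ (neg_eq_zero.mpr hS)
  abel

theorem tau_cocycle {u v w : Qt C} (hu : u ≠ 0) (hv : v ≠ 0) (hw : w ≠ 0) :
    C.tau u v + C.tau (u * v) w = C.tau u (v * w) + C.tau v w := by
  have huv := mul_ne_zero hu hv
  have hvw := mul_ne_zero hv hw
  have huvw := mul_ne_zero huv hw
  by_cases c1 : ∃ k : F, u = Qt.sc k
  · obtain ⟨k, rfl⟩ := c1
    rw [C.tau_scalar_left hu hv, C.tau_scalar_left hu hvw, C.tau_sc_left (C.sc_ne hu)]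
  by_cases c2 : ∃ k : F, v = Qt.sc k
  · obtain ⟨k, rfl⟩ := c2
    rw [C.tau_scalar_right hv hu, C.tau_scalar_left hv hw, C.tau_sc_right (C.sc_ne hv),
      ← sc_comm, C.tau_sc_left (C.sc_ne hv), zero_add, add_zero]
  by_cases c3 : ∃ k : F, w = Qt.sc k
  · obtain ⟨k, rfl⟩ := c3
    rw [C.tau_scalar_right hw huv, C.tau_scalar_right hw hv, ← C.sc_comm k v,
      C.tau_sc_right (C.sc_ne hw)]
  by_cases c4 : ∃ k : F, u * v = Qt.sc k
  · obtain ⟨k, hk⟩ := c4
    have k0 : (Qt.sc k : Qt C) ≠ 0 := hk ▸ huv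
    have e1 : v = Qt.sc k * u⁻¹ := by
      rw [sc_comm, ← hk, ← mul_assoc, inv_mul_cancel₀ hu, one_mul]
    have e2 : u * v = v * u := by
      rw [hk, e1, mul_assoc, inv_mul_cancel₀ hu, mul_one]
    rw [C.tau_comm hu hv e2, hk, C.tau_scalar_left k0 hw, e1, mul_assoc,
      C.tau_sc_right (C.sc_ne k0), C.tau_sc_left (C.sc_ne k0)]
    unfold tau
    rw [← mul_assoc, mul_inv_cancel₀ hu, one_mul, br_inv, br_inv', C.br_comm w u,
      C.br_comm (u⁻¹ * w) w, C.br_comm (u⁻¹ * w) u]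
    abel
  by_cases c5 : ∃ k : F, v * w = Qt.sc k
  · obtain ⟨k, hk⟩ := c5
    have k0 : (Qt.sc k : Qt C) ≠ 0 := hk ▸ hvw
    have e1 : w = Qt.sc k * v⁻¹ := by
      rw [sc_comm, ← hk, ← mul_assoc, inv_mul_cancel₀ hv, one_mul]
    have e2 : v * w = w * v := by
      rw [hk, e1, mul_assoc, inv_mul_cancel₀ hv, mul_one]
    rw [C.tau_comm hv hw e2, hk, C.tau_scalar_right k0 hu, e1,
      C.tau_sc_right (C.sc_ne k0)]
    unfold tau
    rw [mul_assoc u v, mul_inv_cancel₀ hv, mul_one, br_inv, br_inv', C.br_comm v u,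
      C.br_comm (u * v) v, C.br_comm (u * v) u]
    abel
  by_cases c6 : ∃ k : F, u * v * w = Qt.sc k
  · obtain ⟨k, hk⟩ := c6
    have k0 : (Qt.sc k : Qt C) ≠ 0 := hk ▸ huvw
    have e1 : w = Qt.sc k * (u * v)⁻¹ := by
      rw [sc_comm, ← hk, ← mul_assoc, inv_mul_cancel₀ huv, one_mul]
    have e2 : u * v * w = w * (u * v) := by
      rw [hk, e1, mul_assoc, inv_mul_cancel₀ huv, mul_one]
    have e4 : v * (u * v)⁻¹ = u⁻¹ := by
      rw [mul_inv_rev, ← mul_assoc, mul_inv_cancel₀ hv, one_mul]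
    have e5 : v * w = Qt.sc k * u⁻¹ := by
      rw [e1, ← mul_assoc, ← sc_comm, mul_assoc, e4]
    have e6 : u * (v * w) = v * w * u := by
      rw [e5, ← mul_assoc, ← sc_comm, mul_assoc, mul_assoc, mul_inv_cancel₀ hu,
        inv_mul_cancel₀ hu]
    rw [C.tau_comm huv hw e2, C.tau_comm hu hvw e6, add_zero, zero_add, e1,
      C.tau_sc_right (C.sc_ne k0)]
    unfold tau
    rw [e4, br_inv', br_inv, br_inv, br_inv']
    abel
  push Not at c1 c2 c3 c4 c5 c6
  exact C.tau_gen c1 c2 c3 c4 c5 c6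

end CQ

end Pool.Agent.MK
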