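import Pool.Agent.MK.K2Lem
import Pool.Agent.Helper14.Massey.Symbol

/-! # Kummer characters modulo 2

`Ω/F` is Galois with `Ω` separably closed, characteristic not 2; `G = Gal(Ω/F)`.

PROOFS.
* `exists_rt`: `IsSepClosed.exists_pow_nat_eq` (or `IsSepClosed.exists_root` for `X² - a`, separable as `2 ≠ 0`, `a ≠ 0`).
* `kum_iff`: `r² = a ≠ 0`, then `r = ± rt a` and `g r = ± r` (`(g r)² = r²`); `r ≠ -r`.
* `kum_hom`, `kum_mul`, `kum_mul_sq`: compute with `rt a`, and `rt a * rt b` as a root of `a b`.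
* `kum_cont`: the stabilizer of `rt a` is open (`krullTopology`: it contains `fixingSubgroup` of the finite extension
  `F⟮rt a⟯`; see `IntermediateField.fixingSubgroup_isOpen` and `isOpen_stabilizer`...), and `kum a` is constant on its
  cosets.  More generally `cont_of_elt`: a function `c : G → ZMod 2` such that `c g` depends only on `g x`, for one
  fixed `x : Ω`, is continuous (locally constant).
* `mem_F_of_fixed`: an element fixed by all of `G` is in `F` (`IsGalois`: `IntermediateField.mem_bot`,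
  `InfiniteGalois.fixedField_bot`/`IsGalois.mem_bot_iff_fixed`... ).
* `kum_eq_zero`: if `kum a = 0` then `rt a` is fixed by `G`, so in `F`.  Conversely clear.
* `kum_gen`: let `N = {g ∈ H | c g = 0}`, an open (hence closed) subgroup of `G`.  If `N = H` take `δ = 1`.
  Otherwise let `g₁ ∈ H`, `c g₁ = 1`.  As `g₁ ∉ N = fixingSubgroup (fixedField N)`
  (`InfiniteGalois.fixingSubgroup_fixedField`) there is `x` fixed by `N` with `g₁ x ≠ x`.  `δ = x - g₁ x`: for `g ∈ N`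
  `g δ = δ` (`g g₁ = g₁ (g₁⁻¹ g g₁)`, `g₁⁻¹ g g₁ ∈ N`); for `g ∈ H`, `c g = 1`: `g = g₁ n`, `n ∈ N`, `g δ = g₁ δ = g₁ x - g₁² x
  = g₁ x - x = -δ` (`g₁² ∈ N`).
* `kum_surj`: `kum_gen` for `H = ⊤`; `δ²` is fixed by `G`, so `δ² = a ∈ F`, and `c = kum a` by `kum_iff`.
-/

set_option autoImplicit false
set_option linter.unusedSectionVars false

namespace Pool.Agent.MK

universe u v w

open Pool.Agent.Helper14.Massey

variable {F : Type u} {Ω : Type u} [Field F] [Field Ω] [Algebra F Ω]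

open Classical in
/-- A square root. -/
noncomputable def rt (Ω : Type u) [Field Ω] [Algebra F Ω] (a : F) : Ω :=
  if h : ∃ r : Ω, r ^ 2 = algebraMap F Ω a then h.choose else 0

open Classical in
/-- The Kummer character of `a`. -/
noncomputable def kum (Ω : Type u) [Field Ω] [Algebra F Ω] (a : F) : Gal(Ω/F) → ZMod 2 :=
  fun g => if g (rt Ω a) = rt Ω a then 0 else 1

private theorem zm2 (x : ZMod 2) : x = 0 ∨ x = 1 := by
  revert x
  decide

theorem cont_of_elt [IsGalois F Ω] (x : Ω) (c : Gal(Ω/F) → ZMod 2)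
    (hc : ∀ g h : Gal(Ω/F), g x = h x → c g = c h) : Continuous c := by
  apply IsLocallyConstant.continuous
  rw [IsLocallyConstant.iff_exists_open]
  intro g
  refine ⟨(fun g' => g⁻¹ * g') ⁻¹' (MulAction.stabilizer Gal(Ω/F) x : Set Gal(Ω/F)),
    (stabilizer_isOpen_of_isIntegral x).preimage (continuous_const_mul g⁻¹), ?_, ?_⟩
  · simp
  · intro g' hg'
    apply hc
    have h1 : (g⁻¹ * g') • x = x := hg'
    rw [mul_smul, inv_smul_eq_iff] at h1
    exact h1

theorem mem_F_of_fixed [IsGalois F Ω] {x : Ω} (h : ∀ g : Gal(Ω/F), g x = x) :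
    ∃ a : F, algebraMap F Ω a = x := by
  exact (InfiniteGalois.mem_range_algebraMap_iff_fixed x).2 h

theorem kum_gen [IsGalois F Ω] (H : Subgroup Gal(Ω/F)) (hH : IsOpen (H : Set Gal(Ω/F)))
    (c : Gal(Ω/F) → ZMod 2) (hc : Continuous c)
    (hadd : ∀ g ∈ H, ∀ h ∈ H, c (g * h) = c g + c h) :
    ∃ δ : Ω, δ ≠ 0 ∧ ∀ g ∈ H, (c g = 0 → g δ = δ) ∧ (c g = 1 → g δ = -δ) := by
  have hc1 : c 1 = 0 := by
    have h1 := hadd 1 H.one_mem 1 H.one_mem
    rw [mul_one] at h1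
    exact left_eq_add.1 h1
  have hcinv : ∀ g ∈ H, c g⁻¹ = -c g := by
    intro g hg
    have h1 := hadd g hg g⁻¹ (H.inv_mem hg)
    rw [mul_inv_cancel, hc1] at h1
    exact (neg_eq_of_add_eq_zero_right h1.symm).symm
  by_cases hall : ∀ g ∈ H, c g = 0
  · refine ⟨1, one_ne_zero, fun g hg => ⟨fun _ => map_one g, fun h1 => ?_⟩⟩
    rw [hall g hg] at h1
    exact absurd h1 (by decide)
  push Not at hall
  obtain ⟨g₁, hg₁, hcg₁⟩ := hall
  have hcg₁' : c g₁ = 1 := (zm2 _).resolve_left hcg₁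
  let N : Subgroup Gal(Ω/F) :=
    { carrier := {g | g ∈ H ∧ c g = 0}
      mul_mem' := by
        rintro a b ⟨ha, ha'⟩ ⟨hb, hb'⟩
        exact ⟨H.mul_mem ha hb, by rw [hadd a ha b hb, ha', hb', add_zero]⟩
      one_mem' := ⟨H.one_mem, hc1⟩
      inv_mem' := by
        rintro a ⟨ha, ha'⟩
        exact ⟨H.inv_mem ha, by rw [hcinv a ha, ha', neg_zero]⟩ }
  have hNopen : IsOpen (N : Set Gal(Ω/F)) := by
    have h1 : (N : Set Gal(Ω/F)) = (H : Set Gal(Ω/F)) ∩ c ⁻¹' {0} := by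
      ext g
      rfl
    rw [h1]
    exact hH.inter ((isOpen_discrete _).preimage hc)
  have hNclosed : IsClosed (N : Set Gal(Ω/F)) := N.isClosed_of_isOpen hNopen
  have hNfix := InfiniteGalois.fixingSubgroup_fixedField (k := F) (K := Ω) ⟨N, hNclosed⟩
  have hg₁N : g₁ ∉ (IntermediateField.fixedField N).fixingSubgroup := by
    intro h1
    have h2 : g₁ ∈ N := by
      have h3 : (IntermediateField.fixedField N).fixingSubgroup = N := hNfix
      rwa [h3] at h1
    exact hcg₁ h2.2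
  rw [IntermediateField.mem_fixingSubgroup_iff] at hg₁N
  push Not at hg₁N
  obtain ⟨x, hx, hgx⟩ := hg₁N
  rw [IntermediateField.mem_fixedField_iff] at hx
  refine ⟨x - g₁ x, sub_ne_zero.2 (Ne.symm hgx), fun g hg => ⟨fun h0 => ?_, fun h1 => ?_⟩⟩
  · have h3 : g₁⁻¹ * g * g₁ ∈ N := by
      refine ⟨H.mul_mem (H.mul_mem (H.inv_mem hg₁) hg) hg₁, ?_⟩
      rw [hadd _ (H.mul_mem (H.inv_mem hg₁) hg) _ hg₁, hadd _ (H.inv_mem hg₁) _ hg, hcinv _ hg₁, h0]
      ring
    have h4 := hx _ h3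
    have h5 : g (g₁ x) = g₁ x := by
      have h6 : g₁ ((g₁⁻¹ * g * g₁) x) = g (g₁ x) := by
        rw [← AlgEquiv.mul_apply, ← AlgEquiv.mul_apply]
        congr 1
        group
      rw [← h6, h4]
    rw [map_sub, hx g ⟨hg, h0⟩, h5]
  · have h3 : g₁⁻¹ * g ∈ N := by
      refine ⟨H.mul_mem (H.inv_mem hg₁) hg, ?_⟩
      rw [hadd _ (H.inv_mem hg₁) _ hg, hcinv _ hg₁, h1, hcg₁']
      decide
    have h4 : g * g₁ ∈ N := by
      refine ⟨H.mul_mem hg hg₁, ?_⟩
      rw [hadd _ hg _ hg₁, h1, hcg₁']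
      decide
    have h5 : g x = g₁ x := by
      have h6 : g₁ ((g₁⁻¹ * g) x) = g x := by
        rw [← AlgEquiv.mul_apply]
        congr 1
        group
      rw [← h6, hx _ h3]
    have h6 : g (g₁ x) = x := by
      rw [← AlgEquiv.mul_apply]
      exact hx _ h4
    rw [map_sub, h5, h6]
    ring

section

variable [IsGalois F Ω] [IsSepClosed Ω] (h2 : (2 : F) ≠ 0)

include h2

theorem rt_sq (a : F) : rt Ω a ^ 2 = algebraMap F Ω a := by
  have h2' : (2 : Ω) ≠ 0 := by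
    intro h
    apply h2
    apply (algebraMap F Ω).injective
    rw [map_ofNat, h, map_zero]
  have : NeZero ((2 : ℕ) : Ω) := ⟨by exact_mod_cast h2'⟩
  have h : ∃ r : Ω, r ^ 2 = algebraMap F Ω a := IsSepClosed.exists_pow_nat_eq _ 2
  unfold rt
  rw [dif_pos h]
  exact h.choose_spec

theorem kum_iff {a : F} (ha : a ≠ 0) {r : Ω} (hr : r ^ 2 = algebraMap F Ω a) (g : Gal(Ω/F)) :
    (kum Ω a g = 0 ↔ g r = r) ∧ (kum Ω a g = 1 ↔ g r = -r) := by
  have h2' : (2 : Ω) ≠ 0 := by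
    intro h
    apply h2
    apply (algebraMap F Ω).injective
    rw [map_ofNat, h, map_zero]
  have haΩ : algebraMap F Ω a ≠ 0 := by
    rw [Ne, map_eq_zero]
    exact ha
  have hr0 : r ≠ 0 := by
    rintro rfl
    apply haΩ
    rw [← hr]
    ring
  have hrr : r ≠ -r := by
    intro h
    have h3 : 2 * r = 0 := by
      linear_combination h
    rcases mul_eq_zero.1 h3 with h4 | h4
    · exact h2' h4
    · exact hr0 h4
  have hs := rt_sq (Ω := Ω) h2 a
  have hrs : r = rt Ω a ∨ r = -rt Ω a := sq_eq_sq_iff_eq_or_eq_neg.1 (hr.trans hs.symm)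
  have hk : kum Ω a g = 0 ↔ g r = r := by
    have h1 : kum Ω a g = 0 ↔ g (rt Ω a) = rt Ω a := by
      unfold kum
      split_ifs with h
      · simp [h]
      · simp [h]
    rw [h1]
    rcases hrs with h | h
    · rw [h]
    · rw [h, map_neg, neg_inj]
  have hg2 : g r = r ∨ g r = -r := by
    apply sq_eq_sq_iff_eq_or_eq_neg.1
    rw [← map_pow, hr, AlgEquiv.commutes]
  refine ⟨hk, ?_⟩
  constructor
  · intro h1
    rcases hg2 with h | h
    · rw [hk.2 h] at h1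
      exact absurd h1 (by decide)
    · exact h
  · intro h1
    rcases zm2 (kum Ω a g) with h | h
    · exact absurd ((hk.1 h).symm.trans h1) hrr
    · exact h

theorem kum_hom {a : F} (ha : a ≠ 0) (g h : Gal(Ω/F)) : kum Ω a (g * h) = kum Ω a g + kum Ω a h := by
  have hr := rt_sq (Ω := Ω) h2 a
  have k := fun g => kum_iff h2 ha hr g
  rcases zm2 (kum Ω a g) with hg | hg <;> rcases zm2 (kum Ω a h) with hh | hh
  · rw [hg, hh, add_zero, (k _).1, AlgEquiv.mul_apply, (k h).1.1 hh, (k g).1.1 hg]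
  · rw [hg, hh, zero_add, (k _).2, AlgEquiv.mul_apply, (k h).2.1 hh, map_neg, (k g).1.1 hg]
  · rw [hg, hh, add_zero, (k _).2, AlgEquiv.mul_apply, (k h).1.1 hh, (k g).2.1 hg]
  · rw [hg, hh, show (1 : ZMod 2) + 1 = 0 by decide, (k _).1, AlgEquiv.mul_apply, (k h).2.1 hh,
      map_neg, (k g).2.1 hg, neg_neg]

theorem kum_cont (a : F) : Continuous (kum Ω a) := by
  refine cont_of_elt (rt Ω a) _ fun g h hgh => ?_
  unfold kum
  rw [hgh]

theorem kum_mem {a : F} (ha : a ≠ 0) : kum Ω a ∈ H1 2 Gal(Ω/F) := by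
  exact ⟨kum_cont h2 a, fun g h => kum_hom h2 ha g h⟩

theorem kum_mul {a b : F} (ha : a ≠ 0) (hb : b ≠ 0) (g : Gal(Ω/F)) :
    kum Ω (a * b) g = kum Ω a g + kum Ω b g := by
  have ra := rt_sq (Ω := Ω) h2 a
  have rb := rt_sq (Ω := Ω) h2 b
  have rab : (rt Ω a * rt Ω b) ^ 2 = algebraMap F Ω (a * b) := by
    rw [mul_pow, ra, rb, map_mul]
  have k := kum_iff h2 (mul_ne_zero ha hb) rab g
  have ka := kum_iff h2 ha ra g
  have kb := kum_iff h2 hb rb g
  rcases zm2 (kum Ω a g) with hg | hg <;> rcases zm2 (kum Ω b g) with hh | hh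
  · rw [hg, hh, add_zero, k.1, map_mul, ka.1.1 hg, kb.1.1 hh]
  · rw [hg, hh, zero_add, k.2, map_mul, ka.1.1 hg, kb.2.1 hh]
    ring
  · rw [hg, hh, add_zero, k.2, map_mul, ka.2.1 hg, kb.1.1 hh]
    ring
  · rw [hg, hh, show (1 : ZMod 2) + 1 = 0 by decide, k.1, map_mul, ka.2.1 hg, kb.2.1 hh]
    ring

theorem kum_eq_zero {a : F} (ha : a ≠ 0) : (∀ g, kum Ω a g = 0) ↔ ∃ x : F, a = x ^ 2 := by
  have ra := rt_sq (Ω := Ω) h2 a
  constructor
  · intro h
    obtain ⟨x, hx⟩ := mem_F_of_fixed (F := F) (x := rt Ω a) fun g => (kum_iff h2 ha ra g).1.1 (h g)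
    refine ⟨x, (algebraMap F Ω).injective ?_⟩
    rw [← ra, ← hx, map_pow]
  · rintro ⟨x, hx⟩ g
    have hr : (algebraMap F Ω x) ^ 2 = algebraMap F Ω a := by
      rw [hx, map_pow]
    rw [(kum_iff h2 ha hr g).1, AlgEquiv.commutes]

theorem kum_surj (c : Gal(Ω/F) → ZMod 2) (hc : c ∈ H1 2 Gal(Ω/F)) : ∃ a : F, a ≠ 0 ∧ c = kum Ω a := by
  obtain ⟨δ, hδ, hall⟩ := kum_gen (⊤ : Subgroup Gal(Ω/F)) isOpen_univ c hc.1
    fun g _ h _ => hc.2 g h
  obtain ⟨a, ha⟩ := mem_F_of_fixed (F := F) (x := δ ^ 2) fun g => by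
    rcases zm2 (c g) with h | h
    · rw [map_pow, (hall g (Subgroup.mem_top g)).1 h]
    · rw [map_pow, (hall g (Subgroup.mem_top g)).2 h, neg_sq]
  have ha0 : a ≠ 0 := by
    rintro rfl
    rw [map_zero] at ha
    exact hδ (pow_eq_zero_iff two_ne_zero |>.1 ha.symm)
  refine ⟨a, ha0, ?_⟩
  funext g
  have k := kum_iff h2 ha0 ha.symm g
  rcases zm2 (c g) with h | h
  · rw [h, eq_comm, k.1]
    exact (hall g (Subgroup.mem_top g)).1 h
  · rw [h, eq_comm, k.2]
    exact (hall g (Subgroup.mem_top g)).2 h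

end

end Pool.Agent.MK
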