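import Pool.Agent.MK.CohA

/-! # Cup products of Kummer characters and norms

`a, b ≠ 0`; `κ_a = kum Ω a`.

PROOFS.
* `fixH`: `a` not a square, `ω` fixed by all `g` with `g (rt a) = rt a`.  Choose `g₀` with `g₀ (rt a) = - rt a` (`kum_eq_zero`,
  `kum_iff`).  Every `g` is in `H` or in `g₀ H`, `H = {g | g (rt a) = rt a}` (normal of index 2).  `x = (ω + g₀ ω)/2`,
  `y = (ω - g₀ ω)/(2 rt a)` are fixed by `H` (`h g₀ ω = g₀ (g₀⁻¹ h g₀) ω = g₀ ω`) and by `g₀` (`g₀² ∈ H`), so they are in `F`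
  (`mem_F_of_fixed`), and `ω = x + y rt a`.
* `cup_norm`: `b = x² - a y²`.  Let `r = rt a`, `β = rt b`, `ω = x + y r ≠ 0`, `ω' = x - y r`, `ω ω' = b`.  Let `δ² = ω` (`Ω` is
  quadratically closed), `δ' = β/δ`, so `δ'² = ω'`, `δ δ' = β`.  For `g` with `κ_a g = 0`: `g δ = ±δ`; for `κ_a g = 1`: `(g δ)² = ω'`,
  `g δ = ±δ'`.  Let `χ g ∈ ZMod 2` be the exponent of the sign (`0` if `g δ = δ` resp. `δ'`, `1` otherwise).  Claim
  `χ (g h) = χ g + χ h + κ_b g * κ_a h`: if `κ_a h = 0`: `g h δ = (-1)^(χ h) g δ`.  If `κ_a h = 1`: `h δ = (-1)^(χ h) β/δ`,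
  `g h δ = (-1)^(χ h + κ_b g) β / g δ`, and `β/δ = δ'`, `β/δ' = δ`.  Continuity: `χ g` is determined by `g δ` (and by
  `κ_a g`, which is determined by `g δ` since `(gδ)² = g ω`...; to be safe use that `g ↦ (g δ, g r)` is locally
  constant, or `cont_of_elt` for a primitive element; simplest: `χ` is continuous because it is locally constant:
  on the open set where `g δ` and `g r` are constant).
* `norm_of_cup`: `κ_a g * κ_b h = χ g + χ h - χ (g h)` for all `g, h`, `χ` continuous.  If `a = d²` is a square: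
  `b = ((b+1)/2)² - a ((b-1)/(2d))²`.  Otherwise let `H` be the kernel of `κ_a` and `g₀ ∉ H`.  `χ` is additive on `H`; `kum_gen` gives
  `δ ≠ 0` with `g δ = (-1)^(χ g) δ` for `g ∈ H`.  For `h ∈ H`, `h' = g₀⁻¹ h g₀`: `χ (g₀ h') = χ g₀ + χ h' - κ_b h'` and
  `χ (h g₀) = χ h + χ g₀`, so `χ h' = χ h + κ_b h` (mod 2; `κ_b h' = κ_b h`).  `ω = g₀ δ * δ * rt b` is fixed by `h ∈ H`:
  `h g₀ δ = g₀ h' δ = (-1)^(χ h + κ_b h) g₀ δ`.  `χ (g₀²) = 2 χ g₀ - κ_b g₀ = κ_b g₀` (mod 2), so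
  `g₀ ω = g₀² δ * g₀ δ * g₀ (rt b) = ω`.  So `ω ∈ F`.  `δ²` is fixed by `H`: `δ² = y₁ + y₂ r` (`fixH`),
  `(g₀ δ)² = y₁ - y₂ r`, `n = y₁² - a y₂² = (δ g₀δ)² ≠ 0`, `ω² = n b`.  So `b = (ω y₁/n)² - a (ω y₂/n)²`.
-/

set_option autoImplicit false
set_option linter.unusedSectionVars false

namespace Pool.Agent.MK

universe u v w

open Pool.Agent.Helper14.Massey

variable {F : Type u} {Ω : Type u} [Field F] [Field Ω] [Algebra F Ω]
  [IsGalois F Ω] [IsSepClosed Ω] (h2 : (2 : F) ≠ 0)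

private theorem zm2b (x : ZMod 2) : x = 0 ∨ x = 1 := by
  revert x
  decide

/-- the sign -/
private noncomputable def sg (Ω : Type u) [Field Ω] (c : ZMod 2) : Ω := if c = 0 then 1 else -1

private theorem sg_zero : sg Ω 0 = 1 := by simp [sg]

private theorem sg_one : sg Ω 1 = -1 := by
  have h : (1 : ZMod 2) ≠ 0 := by decide
  simp [sg, h]

private theorem sg_add (c d : ZMod 2) : sg Ω (c + d) = sg Ω c * sg Ω d := by
  have h : (1 : ZMod 2) + 1 = 0 := by decide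
  rcases zm2b c with rfl | rfl <;> rcases zm2b d with rfl | rfl <;>
    simp [sg_zero, sg_one, h]

private theorem sg_sq (c : ZMod 2) : sg Ω c * sg Ω c = 1 := by
  rcases zm2b c with rfl | rfl <;> simp [sg_zero, sg_one]

private theorem sg_ne (c : ZMod 2) : sg Ω c ≠ 0 := by
  intro h
  have h1 := sg_sq (Ω := Ω) c
  rw [h, mul_zero] at h1
  exact zero_ne_one h1

private theorem sg_inv (c : ZMod 2) : (sg Ω c)⁻¹ = sg Ω c :=
  inv_eq_of_mul_eq_one_right (sg_sq c)

private theorem map_sg (c : ZMod 2) (g : Gal(Ω/F)) : g (sg Ω c) = sg Ω c := by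
  rcases zm2b c with rfl | rfl <;> simp [sg_zero, sg_one]

private theorem two_ne (h2 : (2 : F) ≠ 0) : (2 : Ω) ≠ 0 := by
  intro h
  apply h2
  apply (algebraMap F Ω).injective
  rw [map_ofNat, h, map_zero]

include h2

private theorem sg_inj {c d : ZMod 2} {z : Ω} (hz : z ≠ 0) (h : sg Ω c * z = sg Ω d * z) :
    c = d := by
  have h2' : (2 : Ω) ≠ 0 := two_ne h2
  have h1 := mul_right_cancel₀ hz h
  have h3 : (1 : Ω) ≠ -1 := by
    intro h
    apply h2'
    linear_combination h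
  rcases zm2b c with rfl | rfl <;> rcases zm2b d with rfl | rfl
  · rfl
  · rw [sg_zero, sg_one] at h1
    exact absurd h1 h3
  · rw [sg_zero, sg_one] at h1
    exact absurd h1.symm h3
  · rfl

private theorem act {a : F} (ha : a ≠ 0) {r : Ω} (hr : r ^ 2 = algebraMap F Ω a) (g : Gal(Ω/F)) :
    g r = sg Ω (kum Ω a g) * r := by
  have k := kum_iff h2 ha hr g
  rcases zm2b (kum Ω a g) with h | h
  · rw [h, sg_zero, one_mul, k.1.1 h]
  · rw [h, sg_one, k.2.1 h]
    ring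

private theorem kum_inv {a : F} (ha : a ≠ 0) (g : Gal(Ω/F)) : kum Ω a g⁻¹ = kum Ω a g := by
  have h1 := kum_hom h2 ha g g⁻¹
  have h0 : kum Ω a (1 : Gal(Ω/F)) = 0 := by
    have h3 := kum_hom h2 ha (1 : Gal(Ω/F)) 1
    rw [mul_one] at h3
    exact left_eq_add.1 h3
  rw [mul_inv_cancel, h0] at h1
  rcases zm2b (kum Ω a g) with h | h <;> rcases zm2b (kum Ω a g⁻¹) with h' | h' <;>
    rw [h, h'] at h1 ⊢
  · exact absurd h1 (by decide)
  · exact absurd h1 (by decide)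

theorem exists_g₀ {a : F} (ha : a ≠ 0) (hsq : ¬ ∃ x : F, a = x ^ 2) :
    ∃ g₀ : Gal(Ω/F), kum Ω a g₀ = 1 := by
  by_contra hcon
  push Not at hcon
  exact hsq ((kum_eq_zero (Ω := Ω) h2 ha).1 fun g => (zm2b _).resolve_right (hcon g))

theorem fixH {a : F} (ha : a ≠ 0) (hsq : ¬ ∃ x : F, a = x ^ 2) {ω : Ω}
    (h : ∀ g : Gal(Ω/F), kum Ω a g = 0 → g ω = ω) :
    ∃ x y : F, ω = algebraMap F Ω x + algebraMap F Ω y * rt Ω a := by
  have h2' : (2 : Ω) ≠ 0 := two_ne h2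
  obtain ⟨g₀, hg₀⟩ := exists_g₀ (Ω := Ω) h2 ha hsq
  have hr := rt_sq (Ω := Ω) h2 a
  set r := rt Ω a with hrdef
  have hr0 : r ≠ 0 := by
    intro h0
    rw [h0, zero_pow two_ne_zero] at hr
    exact ha ((map_eq_zero (algebraMap F Ω)).1 hr.symm)
  have k := fun g => kum_iff h2 ha hr g
  have e1 : ∀ g, kum Ω a g = 0 → g (g₀ ω) = g₀ ω := by
    intro g hg
    have h3 : kum Ω a (g₀⁻¹ * g * g₀) = 0 := by
      rw [kum_hom h2 ha, kum_hom h2 ha, kum_inv h2 ha, hg, hg₀]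
      decide
    have h4 : g₀ ((g₀⁻¹ * g * g₀) ω) = g (g₀ ω) := by
      rw [← AlgEquiv.mul_apply, ← AlgEquiv.mul_apply]
      congr 1
      group
    rw [← h4, h _ h3]
  have e2 : ∀ g, kum Ω a g = 1 → g ω = g₀ ω := by
    intro g hg
    have h3 : kum Ω a (g₀⁻¹ * g) = 0 := by
      rw [kum_hom h2 ha, kum_inv h2 ha, hg, hg₀]
      decide
    have h4 : g₀ ((g₀⁻¹ * g) ω) = g ω := by
      rw [← AlgEquiv.mul_apply]
      congr 1
      group
    rw [← h4, h _ h3]
  have e3 : ∀ g, kum Ω a g = 1 → g (g₀ ω) = ω := by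
    intro g hg
    have h3 : kum Ω a (g * g₀) = 0 := by
      rw [kum_hom h2 ha, hg, hg₀]
      decide
    rw [← AlgEquiv.mul_apply, h _ h3]
  obtain ⟨x, hx⟩ := mem_F_of_fixed (F := F) (x := (ω + g₀ ω) / 2) fun g => by
    rcases zm2b (kum Ω a g) with hg | hg
    · rw [map_div₀, map_add, map_ofNat, h g hg, e1 g hg]
    · rw [map_div₀, map_add, map_ofNat, e2 g hg, e3 g hg, add_comm]
  obtain ⟨y, hy⟩ := mem_F_of_fixed (F := F) (x := (ω - g₀ ω) / (2 * r)) fun g => by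
    rcases zm2b (kum Ω a g) with hg | hg
    · rw [map_div₀, map_sub, map_mul, map_ofNat, h g hg, e1 g hg, (k g).1.1 hg]
    · rw [map_div₀, map_sub, map_mul, map_ofNat, e2 g hg, e3 g hg, (k g).2.1 hg]
      field_simp
      ring
  refine ⟨x, y, ?_⟩
  rw [hx, hy]
  field_simp
  ring

theorem cup_norm {a b x y : F} (ha : a ≠ 0) (hb : b ≠ 0) (h : b = x ^ 2 - a * y ^ 2) :
    ∃ χ : Gal(Ω/F) → ZMod 2, Continuous χ ∧
      ∀ g h, kum Ω b g * kum Ω a h = χ g + χ h - χ (g * h) := by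
  by_cases hy : y = 0
  · have hbs : ∀ g, kum Ω b g = 0 := (kum_eq_zero (Ω := Ω) h2 hb).2 ⟨x, by rw [h, hy]; ring⟩
    refine ⟨fun _ => 0, continuous_const, fun g g' => ?_⟩
    rw [hbs g]
    ring
  classical
  have h2' : (2 : Ω) ≠ 0 := two_ne h2
  have hr := rt_sq (Ω := Ω) h2 a
  have hβ := rt_sq (Ω := Ω) h2 b
  set r := rt Ω a with hrdef
  set β := rt Ω b with hβdef
  have hbΩ : algebraMap F Ω b ≠ 0 := by
    rw [Ne, map_eq_zero]
    exact hb
  have hyΩ : algebraMap F Ω y ≠ 0 := by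
    rw [Ne, map_eq_zero]
    exact hy
  set ω : Ω := algebraMap F Ω x + algebraMap F Ω y * r with hω
  set ω' : Ω := algebraMap F Ω x - algebraMap F Ω y * r with hω'
  have hωω : ω * ω' = algebraMap F Ω b := by
    rw [h, map_sub, map_pow, map_mul, map_pow, ← hr, hω, hω']
    ring
  have hω0 : ω ≠ 0 := by
    intro h0
    rw [h0, zero_mul] at hωω
    exact hbΩ hωω.symm
  have hβ0 : β ≠ 0 := by
    intro h0
    rw [h0, zero_pow two_ne_zero] at hβ
    exact hbΩ hβ.symm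
  have : NeZero ((2 : ℕ) : Ω) := ⟨by exact_mod_cast h2'⟩
  obtain ⟨δ, hδ⟩ : ∃ δ : Ω, δ ^ 2 = ω := IsSepClosed.exists_pow_nat_eq _ 2
  have hδ0 : δ ≠ 0 := by
    intro h0
    rw [h0, zero_pow two_ne_zero] at hδ
    exact hω0 hδ.symm
  set δ' : Ω := β / δ with hδ'
  have hδ'0 : δ' ≠ 0 := div_ne_zero hβ0 hδ0
  have hδ'sq : δ' ^ 2 = ω' := by
    rw [hδ', div_pow, hβ, hδ, ← hωω]
    field_simp
  set s : Gal(Ω/F) → Ω := fun g => if kum Ω a g = 0 then δ else δ' with hs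
  have hs0 : ∀ g, s g ≠ 0 := by
    intro g
    simp only [hs]
    split_ifs
    · exact hδ0
    · exact hδ'0
  have hsq : ∀ g : Gal(Ω/F), g δ = s g ∨ g δ = -s g := by
    intro g
    apply sq_eq_sq_iff_eq_or_eq_neg.1
    rw [← map_pow, hδ, hω, map_add, map_mul, AlgEquiv.commutes, AlgEquiv.commutes, act h2 ha hr g]
    simp only [hs]
    rcases zm2b (kum Ω a g) with hg | hg
    · rw [if_pos hg, hδ, hg, sg_zero, one_mul]
    · have hg' : kum Ω a g ≠ 0 := by
        rw [hg]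
        decide
      rw [if_neg hg', hδ'sq, hg, sg_one, hω']
      ring
  set χ : Gal(Ω/F) → ZMod 2 := fun g => if g δ = s g then 0 else 1 with hχ
  have hact : ∀ g : Gal(Ω/F), g δ = sg Ω (χ g) * s g := by
    intro g
    by_cases hg : g δ = s g
    · have h1 : χ g = 0 := if_pos hg
      rw [h1, sg_zero, one_mul, hg]
    · have h1 : χ g = 1 := if_neg hg
      rw [h1, sg_one, (hsq g).resolve_left hg]
      ring
  refine ⟨χ, ?_, ?_⟩
  · refine cont_of_elt δ χ fun g g' hgg => ?_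
    have e1 : g r = g' r := by
      have h3 : g (algebraMap F Ω y * r) = g' (algebraMap F Ω y * r) := by
        have h4 : algebraMap F Ω y * r = δ ^ 2 - algebraMap F Ω x := by
          rw [hδ, hω]
          ring
        rw [h4, map_sub, map_sub, map_pow, map_pow, AlgEquiv.commutes, AlgEquiv.commutes, hgg]
      rw [map_mul, map_mul, AlgEquiv.commutes, AlgEquiv.commutes] at h3
      exact mul_left_cancel₀ hyΩ h3
    have e2 : kum Ω a g = kum Ω a g' := by
      unfold kum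
      rw [← hrdef, e1]
    have e3 : s g = s g' := by
      simp only [hs]
      rw [e2]
    simp only [hχ]
    rw [hgg, e3]
  · intro g g'
    have key : χ (g * g') = χ g + χ g' + kum Ω b g * kum Ω a g' := by
      rcases zm2b (kum Ω a g') with hg' | hg'
      · have e1 : s g' = δ := if_pos hg'
        have e2 : s (g * g') = s g := by
          simp only [hs]
          rw [kum_hom h2 ha, hg', add_zero]
        rw [hg', mul_zero, add_zero]
        apply sg_inj h2 (hs0 (g * g'))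
        rw [← hact, AlgEquiv.mul_apply, hact g', e1, map_mul, map_sg, hact g, e2, sg_add]
        ring
      · have hg'' : kum Ω a g' ≠ 0 := by
          rw [hg']
          decide
        have e1 : s g' = δ' := if_neg hg''
        have e2 : s (g * g') = β / s g := by
          simp only [hs]
          rcases zm2b (kum Ω a g) with hg | hg
          · have h5 : kum Ω a (g * g') ≠ 0 := by
              rw [kum_hom h2 ha, hg', hg]
              decide
            rw [if_neg h5, if_pos hg]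
          · have h5 : kum Ω a (g * g') = 0 := by
              rw [kum_hom h2 ha, hg', hg]
              decide
            have h6 : kum Ω a g ≠ 0 := by
              rw [hg]
              decide
            rw [if_pos h5, if_neg h6, hδ']
            field_simp
        rw [hg', mul_one]
        apply sg_inj h2 (hs0 (g * g'))
        rw [← hact, AlgEquiv.mul_apply, hact g', e1, hδ', map_mul, map_sg, map_div₀, hact g,
          act h2 hb hβ g, e2, sg_add, sg_add]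
        have h7 := sg_inv (Ω := Ω) (χ g)
        have h8 := hs0 g
        have h9 := sg_ne (Ω := Ω) (χ g)
        rw [div_eq_mul_inv, mul_inv, h7]
        field_simp
    rw [key]
    have h10 : ∀ p q z : ZMod 2, z = p + q - (p + q + z) := by decide
    exact h10 _ _ _

theorem norm_of_cup {a b : F} (ha : a ≠ 0) (hb : b ≠ 0) {χ : Gal(Ω/F) → ZMod 2}
    (hχ : Continuous χ) (h : ∀ g h, kum Ω a g * kum Ω b h = χ g + χ h - χ (g * h)) :
    ∃ x y : F, b = x ^ 2 - a * y ^ 2 := by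
  by_cases hsq : ∃ x : F, a = x ^ 2
  · obtain ⟨d, rfl⟩ := hsq
    have hd : d ≠ 0 := by
      rintro rfl
      exact ha (by ring)
    refine ⟨(b + 1) / 2, (b - 1) / (2 * d), ?_⟩
    field_simp
    ring
  have h2' : (2 : Ω) ≠ 0 := two_ne h2
  have hr := rt_sq (Ω := Ω) h2 a
  have hβ := rt_sq (Ω := Ω) h2 b
  set r := rt Ω a with hrdef
  set β := rt Ω b with hβdef
  have hbΩ : algebraMap F Ω b ≠ 0 := by
    rw [Ne, map_eq_zero]
    exact hb
  have hβ0 : β ≠ 0 := by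
    intro h0
    rw [h0, zero_pow two_ne_zero] at hβ
    exact hbΩ hβ.symm
  have kone : ∀ {c : F}, c ≠ 0 → kum Ω c (1 : Gal(Ω/F)) = 0 := by
    intro c hc
    have h3 := kum_hom h2 hc (1 : Gal(Ω/F)) 1
    rw [mul_one] at h3
    exact left_eq_add.1 h3
  let H : Subgroup Gal(Ω/F) :=
    { carrier := {g | kum Ω a g = 0}
      mul_mem' := by
        intro p q hp hq
        simp only [Set.mem_ofPred_eq] at hp hq ⊢
        rw [kum_hom h2 ha, hp, hq, add_zero]
      one_mem' := kone ha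
      inv_mem' := by
        intro p hp
        simp only [Set.mem_ofPred_eq] at hp ⊢
        rw [kum_inv h2 ha, hp] }
  have hH : ∀ g, g ∈ H ↔ kum Ω a g = 0 := fun g => Iff.rfl
  have hHo : IsOpen (H : Set Gal(Ω/F)) :=
    (isOpen_discrete ({0} : Set (ZMod 2))).preimage (kum_cont (Ω := Ω) h2 a)
  have z3 : ∀ p q z : ZMod 2, 0 = p + q - z → z = p + q := by decide
  obtain ⟨δ, hδ0, hδ⟩ := kum_gen H hHo χ hχ (by
    intro g hg g' hg'
    have h3 := h g g'
    rw [(hH g).1 hg, zero_mul] at h3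
    exact z3 _ _ _ h3)
  have hδa : ∀ g, kum Ω a g = 0 → g δ = sg Ω (χ g) * δ := by
    intro g hg
    rcases zm2b (χ g) with h3 | h3
    · rw [h3, sg_zero, one_mul, (hδ g hg).1 h3]
    · rw [h3, sg_one, (hδ g hg).2 h3]
      ring
  obtain ⟨g₀, hg₀⟩ := exists_g₀ (Ω := Ω) h2 ha hsq
  set ω : Ω := g₀ δ * δ * β with hω
  have f1 : ∀ g, kum Ω a g = 0 → g ω = ω := by
    intro g hg
    have a1 : kum Ω a (g₀⁻¹ * g * g₀) = 0 := by
      rw [kum_hom h2 ha, kum_hom h2 ha, kum_inv h2 ha, hg, hg₀]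
      decide
    have a2 : kum Ω b (g₀⁻¹ * g * g₀) = kum Ω b g := by
      rw [kum_hom h2 hb, kum_hom h2 hb, kum_inv h2 hb]
      have h3 : ∀ p q : ZMod 2, p + q + p = q := by decide
      exact h3 _ _
    have a3 := h g₀ (g₀⁻¹ * g * g₀)
    have a4 := h g g₀
    have a5 : g₀ * (g₀⁻¹ * g * g₀) = g * g₀ := by group
    rw [a5, a2, hg₀, one_mul] at a3
    rw [hg, zero_mul] at a4
    have a6 : χ (g₀⁻¹ * g * g₀) = χ g + kum Ω b g := by
      have h3 : ∀ p q z t y : ZMod 2, y = p + q - t → 0 = z + p - t → q = z + y := by decide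
      exact h3 _ _ _ _ _ a3 a4
    have a7 : g₀ ((g₀⁻¹ * g * g₀) δ) = g (g₀ δ) := by
      rw [← AlgEquiv.mul_apply, a5, AlgEquiv.mul_apply]
    rw [hω, map_mul, map_mul, ← a7, hδa _ a1, hδa _ hg, map_mul, map_sg, a6, sg_add,
      act h2 hb hβ g]
    have b1 := sg_sq (Ω := Ω) (χ g)
    have b2 := sg_sq (Ω := Ω) (kum Ω b g)
    linear_combination (g₀ δ * δ * β * (sg Ω (kum Ω b g) * sg Ω (kum Ω b g))) * b1 +
      (g₀ δ * δ * β) * b2
  have f2 : g₀ ω = ω := by
    have a1 : kum Ω a (g₀ * g₀) = 0 := by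
      rw [kum_hom h2 ha, hg₀]
      decide
    have a2 : χ (g₀ * g₀) = kum Ω b g₀ := by
      have h3 := h g₀ g₀
      rw [hg₀, one_mul] at h3
      have h4 : ∀ p q z : ZMod 2, z = p + p - q → q = z := by decide
      exact h4 _ _ _ h3
    rw [hω, map_mul, map_mul, ← AlgEquiv.mul_apply, hδa _ a1, a2, act h2 hb hβ g₀]
    have b2 := sg_sq (Ω := Ω) (kum Ω b g₀)
    linear_combination (g₀ δ * δ * β) * b2
  obtain ⟨w, hw⟩ := mem_F_of_fixed (F := F) (x := ω) fun g => by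
    rcases zm2b (kum Ω a g) with hg | hg
    · exact f1 g hg
    · have a1 : kum Ω a (g₀⁻¹ * g) = 0 := by
        rw [kum_hom h2 ha, kum_inv h2 ha, hg, hg₀]
        decide
      have a2 : g₀ ((g₀⁻¹ * g) ω) = g ω := by
        rw [← AlgEquiv.mul_apply]
        congr 1
        group
      rw [← a2, f1 _ a1, f2]
  obtain ⟨y₁, y₂, hy⟩ := fixH (Ω := Ω) h2 ha hsq (ω := δ ^ 2) (by
    intro g hg
    rw [map_pow, hδa g hg, mul_pow, pow_two (sg Ω (χ g)), sg_sq, one_mul])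
  have hy' : (g₀ δ) ^ 2 = algebraMap F Ω y₁ - algebraMap F Ω y₂ * r := by
    rw [← map_pow, hy, map_add, map_mul, AlgEquiv.commutes, AlgEquiv.commutes, ← hrdef,
      act h2 ha hr g₀, hg₀, sg_one]
    ring
  have hn : algebraMap F Ω (y₁ ^ 2 - a * y₂ ^ 2) = δ ^ 2 * (g₀ δ) ^ 2 := by
    rw [hy, hy', map_sub, map_mul, map_pow, map_pow, ← hr]
    ring
  have hg₀δ : g₀ δ ≠ 0 := by
    rw [Ne, map_eq_zero]
    exact hδ0
  have hn0 : y₁ ^ 2 - a * y₂ ^ 2 ≠ 0 := by
    intro h0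
    rw [h0, map_zero] at hn
    exact mul_ne_zero (pow_ne_zero 2 hδ0) (pow_ne_zero 2 hg₀δ) hn.symm
  have hwb : w ^ 2 = (y₁ ^ 2 - a * y₂ ^ 2) * b := by
    apply (algebraMap F Ω).injective
    rw [map_pow, map_mul, hn, hw, ← hβ, hω]
    ring
  set n := y₁ ^ 2 - a * y₂ ^ 2 with hndef
  refine ⟨w * y₁ / n, w * y₂ / n, ?_⟩
  have h3 : (w * y₁ / n) ^ 2 - a * (w * y₂ / n) ^ 2 = w ^ 2 * (y₁ ^ 2 - a * y₂ ^ 2) / n ^ 2 := by
    field_simp
  rw [h3, hwb, ← hndef]
  field_simp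

end Pool.Agent.MK
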