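import Pool.Agent.MK.CohB

/-! # The norm residue homomorphism `K₂(F) → H²(G, ℤ/2)`

PROOFS.
* `cupK a b` is the class of `kum a ∪ kum b` (`0` if `a = 0` or `b = 0`).  Bilinearity: `kum_mul`; the cocycles are
  literally additive (`Symbol.cls_eq_iff` or additivity of `QuotientAddGroup.mk`).  Steinberg: `a + b = 1`: `a = 1² - b 1²`,
  so `cup_norm` (with `a, b` exchanged) gives `χ` with `kum a g * kum b h = χ g + χ h - χ (g h)`, a coboundary.
* `hh_sum`: additivity, `sum_cupH` (in `Massey/Symbol.lean`).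
* `hh_sum_zero`: `cls_eq_iff` with `g = 0`.
* `K2_rep`: `K2_induction` (sums: `Fin.append`); `0 = Σ` over `Fin 0`.
* `hh_two`: `2 • x = 0` in `H2 2 G` (all values are in `ZMod 2`).
* `square_symbol`: if `b = x² - a y²` (`b ≠ 0`): `x, y ≠ 0`: `{b/x², a y²/x²} = 0`, i.e.
  `{a, b} = -{b, a} = 2 (...)`; `x = 0`: `b = -a y²`, `{a, b} = {a, y²} = 2 {a, y}`; `y = 0`: `b = x²`.
* `D1`: `hh_sum_zero` for `n = 1`, `norm_of_cup`, `square_symbol`.
-/

set_option autoImplicit false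
set_option linter.unusedSectionVars false

namespace Pool.Agent.MK

universe u v w

open Pool.Agent.Helper14.Massey

variable {F : Type u} [Field F]

theorem K2_rep (x : K2 F) : ∃ (n : ℕ) (a b : Fin n → F), (∀ i, a i ≠ 0) ∧ (∀ i, b i ≠ 0) ∧
    x = ∑ i, S (a i) (b i) := by
  induction x using K2_induction with
  | hS a b ha hb => exact ⟨1, fun _ => a, fun _ => b, fun _ => ha, fun _ => hb, by simp⟩
  | hz => exact ⟨0, Fin.elim0, Fin.elim0, fun i => i.elim0, fun i => i.elim0, by simp⟩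
  | hadd x y hx hy =>
    obtain ⟨n, a, b, ha, hb, rfl⟩ := hx
    obtain ⟨m, c, d, hc, hd, rfl⟩ := hy
    refine ⟨n + m, Fin.append a c, Fin.append b d, ?_, ?_, ?_⟩
    · intro i
      refine Fin.addCases (fun j => ?_) (fun j => ?_) i
      · rw [Fin.append_left]
        exact ha j
      · rw [Fin.append_right]
        exact hc j
    · intro i
      refine Fin.addCases (fun j => ?_) (fun j => ?_) i
      · rw [Fin.append_left]
        exact hb j
      · rw [Fin.append_right]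
        exact hd j
    · rw [Fin.sum_univ_add]
      simp only [Fin.append_left, Fin.append_right]

theorem square_symbol {a b x y : F} (ha : a ≠ 0) (hb : b ≠ 0) (h : b = x ^ 2 - a * y ^ 2) :
    ∃ v : K2 F, S a b = (2 : ℤ) • v := by
  by_cases hx : x = 0
  · have hy : y ≠ 0 := by
      rintro rfl
      apply hb
      rw [h, hx]
      ring
    refine ⟨S a y, ?_⟩
    have e : b = (-a) * y ^ 2 := by
      rw [h, hx]
      ring
    rw [e, S_mul_right (neg_ne_zero.2 ha) (pow_ne_zero 2 hy), S_neg_self, zero_add, S_pow_right]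
    simp only [two_smul]
  by_cases hy : y = 0
  · refine ⟨S a x, ?_⟩
    have e : b = x ^ 2 := by
      rw [h, hy]
      ring
    rw [e, S_pow_right]
    simp only [two_smul]
  have hq : y / x ≠ 0 := div_ne_zero hy hx
  have hxi : x⁻¹ ≠ 0 := inv_ne_zero hx
  have e : a * (y / x) ^ 2 + b * (x⁻¹) ^ 2 = 1 := by
    rw [h]
    field_simp
    ring
  have h1 := S_of_add_eq_one e
  rw [S_mul_left ha (pow_ne_zero 2 hq), S_mul_right hb (pow_ne_zero 2 hxi), S_pow_right,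
    S_pow_left] at h1
  refine ⟨-(S a x⁻¹ + S (y / x) (b * x⁻¹ ^ 2)), ?_⟩
  have h2 : S a b = -((2 : ℕ) • S a x⁻¹ + (2 : ℕ) • S (y / x) (b * x⁻¹ ^ 2)) := by
    rw [eq_neg_iff_add_eq_zero, ← add_assoc]
    exact h1
  rw [h2]
  simp only [two_smul]
  abel

private theorem cupH_add_left {p : ℕ} {H : Type u} [Group H] [TopologicalSpace H]
    (a b c : H1 p H) : cupH (a + b) c = cupH a c + cupH b c := by
  unfold cupH cls
  rw [← QuotientAddGroup.mk_add]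
  congr 1
  apply Subtype.ext
  funext σ τ
  show (a + b : H1 p H).1 σ * c.1 τ = a.1 σ * c.1 τ + b.1 σ * c.1 τ
  rw [← add_mul]
  rfl

private theorem cupH_add_right {p : ℕ} {H : Type u} [Group H] [TopologicalSpace H]
    (a b c : H1 p H) : cupH a (b + c) = cupH a b + cupH a c := by
  unfold cupH cls
  rw [← QuotientAddGroup.mk_add]
  congr 1
  apply Subtype.ext
  funext σ τ
  show a.1 σ * (b + c : H1 p H).1 τ = a.1 σ * b.1 τ + a.1 σ * c.1 τ
  rw [← mul_add]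
  rfl

private theorem cls_zero_iff {H : Type u} [Group H] [TopologicalSpace H] {p : ℕ}
    {f : H → H → ZMod p} (hf : f ∈ Z2 p H) :
    cls f hf = 0 ↔ ∃ χ : H → ZMod p, Continuous χ ∧ ∀ g h, f g h = χ g + χ h - χ (g * h) := by
  have h0 : (0 : H2 p H) = cls 0 (zero_mem _) := rfl
  rw [h0, cls_eq_iff]
  refine exists_congr fun χ => and_congr Iff.rfl ?_
  constructor
  · intro h g k
    have := congrFun (congrFun h g) k
    rw [sub_zero] at this
    exact this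
  · intro h
    funext g k
    rw [sub_zero]
    exact h g k

variable {Ω : Type u} [Field Ω] [Algebra F Ω] [IsGalois F Ω] [IsSepClosed Ω]

open Classical in
/-- The class of the cup product of two Kummer characters. -/
noncomputable def cupK (Ω : Type u) [Field Ω] [Algebra F Ω] [IsGalois F Ω] [IsSepClosed Ω]
    (h2 : (2 : F) ≠ 0) (a b : F) : H2 2 Gal(Ω/F) :=
  if h : a ≠ 0 ∧ b ≠ 0 then cupH (⟨kum Ω a, kum_mem h2 h.1⟩ : H1 2 Gal(Ω/F))
    (⟨kum Ω b, kum_mem h2 h.2⟩ : H1 2 Gal(Ω/F)) else 0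

theorem cupK_mul_left (h2 : (2 : F) ≠ 0) (a b c : F) (ha : a ≠ 0) (hb : b ≠ 0) (hc : c ≠ 0) :
    cupK Ω h2 (a * b) c = cupK Ω h2 a c + cupK Ω h2 b c := by
  rw [cupK, cupK, cupK, dif_pos ⟨mul_ne_zero ha hb, hc⟩, dif_pos ⟨ha, hc⟩, dif_pos ⟨hb, hc⟩,
    ← cupH_add_left]
  congr 1
  apply Subtype.ext
  funext g
  exact kum_mul h2 ha hb g

theorem cupK_mul_right (h2 : (2 : F) ≠ 0) (a b c : F) (ha : a ≠ 0) (hb : b ≠ 0) (hc : c ≠ 0) :
    cupK Ω h2 a (b * c) = cupK Ω h2 a b + cupK Ω h2 a c := by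
  rw [cupK, cupK, cupK, dif_pos ⟨ha, mul_ne_zero hb hc⟩, dif_pos ⟨ha, hb⟩, dif_pos ⟨ha, hc⟩,
    ← cupH_add_right]
  congr 1
  apply Subtype.ext
  funext g
  exact kum_mul h2 hb hc g

theorem cupK_steinberg (h2 : (2 : F) ≠ 0) (a b : F) (ha : a ≠ 0) (hb : b ≠ 0) (h : a + b = 1) :
    cupK Ω h2 a b = 0 := by
  rw [cupK, dif_pos ⟨ha, hb⟩, cupH, cls_zero_iff]
  obtain ⟨χ, hχ, hχ'⟩ := cup_norm (Ω := Ω) h2 (a := b) (b := a) (x := 1) (y := 1) hb ha
    (by linear_combination h)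
  exact ⟨χ, hχ, hχ'⟩

/-- The norm residue homomorphism. -/
noncomputable def hh (Ω : Type u) [Field Ω] [Algebra F Ω] [IsGalois F Ω] [IsSepClosed Ω]
    (h2 : (2 : F) ≠ 0) : K2 F →+ H2 2 Gal(Ω/F) :=
  K2.lift (cupK Ω h2) (cupK_mul_left h2) (cupK_mul_right h2) (cupK_steinberg h2)

theorem hh_S (h2 : (2 : F) ≠ 0) {a b : F} (ha : a ≠ 0) (hb : b ≠ 0) :
    hh Ω h2 (S a b) = cupH (⟨kum Ω a, kum_mem h2 ha⟩ : H1 2 Gal(Ω/F))
      (⟨kum Ω b, kum_mem h2 hb⟩ : H1 2 Gal(Ω/F)) := by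
  rw [hh, K2.lift_S _ _ _ _ ha hb, cupK, dif_pos ⟨ha, hb⟩]

private theorem hh_sum (h2 : (2 : F) ≠ 0) {n : ℕ} (a b : Fin n → F) (ha : ∀ i, a i ≠ 0)
    (hb : ∀ i, b i ≠ 0) : hh Ω h2 (∑ i, S (a i) (b i)) =
      cls (∑ i, cup (kum Ω (a i)) (kum Ω (b i)))
        (AddSubgroup.sum_mem _ fun i _ => cup_mem_Z2
          (⟨kum Ω (a i), kum_mem h2 (ha i)⟩ : H1 2 Gal(Ω/F))
          (⟨kum Ω (b i), kum_mem h2 (hb i)⟩ : H1 2 Gal(Ω/F))) := by
  rw [map_sum, Finset.sum_congr rfl fun i _ => hh_S h2 (ha i) (hb i)]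
  exact sum_cupH _ (fun i => (⟨kum Ω (a i), kum_mem h2 (ha i)⟩ : H1 2 Gal(Ω/F)))
    (fun i => (⟨kum Ω (b i), kum_mem h2 (hb i)⟩ : H1 2 Gal(Ω/F)))

/-- Vanishing of a sum of symbols in terms of cochains. -/
theorem hh_sum_zero (h2 : (2 : F) ≠ 0) {n : ℕ} (a b : Fin n → F) (ha : ∀ i, a i ≠ 0)
    (hb : ∀ i, b i ≠ 0) : hh Ω h2 (∑ i, S (a i) (b i)) = 0 ↔
      ∃ χ : Gal(Ω/F) → ZMod 2, Continuous χ ∧
        ∀ g h, ∑ i, kum Ω (a i) g * kum Ω (b i) h = χ g + χ h - χ (g * h) := by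
  rw [hh_sum h2 a b ha hb, cls_zero_iff]
  refine exists_congr fun χ => and_congr Iff.rfl (forall_congr' fun g => forall_congr' fun k => ?_)
  simp only [Finset.sum_apply, cup]

/-- Equality of a class with the image of a sum of symbols in terms of cochains. -/
theorem hh_sum_eq (h2 : (2 : F) ≠ 0) {n : ℕ} (a b : Fin n → F) (ha : ∀ i, a i ≠ 0)
    (hb : ∀ i, b i ≠ 0) {f : Gal(Ω/F) → Gal(Ω/F) → ZMod 2} (hf : f ∈ Z2 2 Gal(Ω/F)) :
    hh Ω h2 (∑ i, S (a i) (b i)) = cls f hf ↔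
      ∃ χ : Gal(Ω/F) → ZMod 2, Continuous χ ∧
        ∀ g h, f g h = ∑ i, kum Ω (a i) g * kum Ω (b i) h + (χ g + χ h - χ (g * h)) := by
  rw [hh_sum h2 a b ha hb, eq_comm, cls_eq_iff]
  refine exists_congr fun χ => and_congr Iff.rfl ?_
  constructor
  · intro h g k
    have h1 := congrFun (congrFun h g) k
    simp only [Pi.sub_apply, Finset.sum_apply, cup, d1] at h1
    rw [← h1]
    ring
  · intro h
    funext g k
    simp only [Pi.sub_apply, Finset.sum_apply, cup, d1]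
    rw [h g k]
    ring

theorem hh_two (h2 : (2 : F) ≠ 0) (x : K2 F) : hh Ω h2 ((2 : ℤ) • x) = 0 := by
  rw [map_zsmul, two_zsmul]
  obtain ⟨f, hf, e⟩ := exists_cls (hh Ω h2 x)
  have e2 : cls f hf + cls f hf = cls (f + f) (add_mem hf hf) := rfl
  rw [e, e2, cls_zero_iff]
  refine ⟨0, continuous_const, fun g k => ?_⟩
  have h3 : ∀ z : ZMod 2, z + z = 0 := by decide
  simp only [Pi.add_apply, Pi.zero_apply, h3]
  ring

private theorem D1aux (h2 : (2 : F) ≠ 0) {a b : F} (ha : a ≠ 0) (hb : b ≠ 0)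
    (h : hh Ω h2 (S a b) = 0) : ∃ x y : F, b = x ^ 2 - a * y ^ 2 := by
  rw [hh_S h2 ha hb, cupH, cls_zero_iff] at h
  obtain ⟨χ, hχ, hχ'⟩ := h
  exact norm_of_cup h2 ha hb hχ hχ'

theorem D1 (h2 : (2 : F) ≠ 0) {a b : F} (ha : a ≠ 0) (hb : b ≠ 0) (h : hh Ω h2 (S a b) = 0) :
    ∃ v : K2 F, S a b = (2 : ℤ) • v := by
  obtain ⟨x, y, hxy⟩ := D1aux h2 ha hb h
  exact square_symbol ha hb hxy

/-- `D1` in the form of a norm equation. -/
theorem D1' (h2 : (2 : F) ≠ 0) {a b : F} (ha : a ≠ 0) (hb : b ≠ 0) (h : hh Ω h2 (S a b) = 0) :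
    ∃ x y : F, b = x ^ 2 - a * y ^ 2 := D1aux h2 ha hb h

end Pool.Agent.MK
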