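import Pool.Agent.MK.CohC

/-! # Functoriality of the norm residue homomorphism

PROOF of `exists_restr`.  Give `Ω'` the `F`-algebra structure through `φ`.  As `Ω/F` is algebraic and separable and `Ω'` is
separably closed there is an `F`-embedding `ψ : Ω → Ω'` (`IsSepClosed.lift`).  As `Ω/F` is normal, every
`τ ∈ Gal(Ω'/K)` (an `F`-automorphism of `Ω'`) maps `ψ Ω` onto itself; let `r τ` be the induced automorphism:
`ψ (r τ x) = τ (ψ x)` (`AlgEquiv.restrictNormalHom` with `Algebra Ω Ω'` given by `ψ`).  `r` is a homomorphism.  Continuity: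
it is enough (topological groups) that for a finite-dimensional `E ≤ Ω` the preimage of `E.fixingSubgroup` is open:
it contains the intersection of the open stabilizers of `ψ e`, `e` in a finite generating set of `E` (`ψ e` is
algebraic over `K`).
PROOF of `kum_restr`: `ψ (rt a)` is a square root of `φ a`; use `kum_iff` twice and injectivity of `ψ`.
PROOF of `hh_map`: write `u = Σ {a_i, b_i}` (`K2_rep`); by `hh_sum_zero` there is `χ` with `Σ κ ∪ κ = dχ`; then
`χ ∘ r` works for the images (`kum_restr`), `hh_sum_zero` again.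
-/

set_option autoImplicit false
set_option linter.unusedSectionVars false

namespace Pool.Agent.MK

universe u v w

open Pool.Agent.Helper14.Massey

variable {F K Ω Ω' : Type u} [Field F] [Field K] [Field Ω] [Field Ω'] [Algebra F Ω] [Algebra K Ω']
  [IsGalois F Ω] [IsSepClosed Ω] [IsGalois K Ω'] [IsSepClosed Ω']

private theorem zm2' (x : ZMod 2) : x = 0 ∨ x = 1 := by
  revert x
  decide

theorem exists_restr (φ : F →+* K) : ∃ (ψ : Ω →+* Ω') (r : Gal(Ω'/K) →* Gal(Ω/F)), Continuous r ∧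
    (∀ a : F, ψ (algebraMap F Ω a) = algebraMap K Ω' (φ a)) ∧
    ∀ (τ : Gal(Ω'/K)) (x : Ω), ψ (r τ x) = τ (ψ x) := by
  let _ : Algebra F K := φ.toAlgebra
  let _ : Algebra F Ω' := ((algebraMap K Ω').comp φ).toAlgebra
  have : IsScalarTower F K Ω' := IsScalarTower.of_algebraMap_eq fun _ => rfl
  let ψ : Ω →ₐ[F] Ω' := IsSepClosed.lift
  let _ : Algebra Ω Ω' := ψ.toRingHom.toAlgebra
  have : IsScalarTower F Ω Ω' := IsScalarTower.of_algebraMap_eq fun a => (ψ.commutes a).symm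
  let r : Gal(Ω'/K) →* Gal(Ω/F) :=
    { toFun := fun τ => AlgEquiv.restrictNormalHom Ω (AlgEquiv.restrictScalars F τ)
      map_one' := by
        have h1 : AlgEquiv.restrictScalars F (1 : Gal(Ω'/K)) = 1 := rfl
        rw [h1, map_one]
      map_mul' := fun σ τ => by
        have h1 : AlgEquiv.restrictScalars F (σ * τ) =
          AlgEquiv.restrictScalars F σ * AlgEquiv.restrictScalars F τ := rfl
        rw [h1, map_mul] }
  have hr : ∀ (τ : Gal(Ω'/K)) (x : Ω), ψ (r τ x) = τ (ψ x) := fun τ x =>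
    AlgEquiv.restrictNormal_commutes (AlgEquiv.restrictScalars F τ) Ω x
  refine ⟨ψ.toRingHom, r, ?_, fun a => ψ.commutes a, hr⟩
  refine continuous_of_continuousAt_one r ?_
  rw [ContinuousAt, map_one]
  intro s hs
  rw [krullTopology_mem_nhds_one_iff] at hs
  obtain ⟨E, hE, hEs⟩ := hs
  obtain ⟨α, hα⟩ := Field.exists_primitive_element F E
  have hopen : IsOpen (MulAction.stabilizer Gal(Ω'/K) (ψ (α : Ω)) : Set Gal(Ω'/K)) :=
    stabilizer_isOpen_of_isIntegral (ψ (α : Ω))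
  rw [Filter.mem_map]
  refine Filter.mem_of_superset (hopen.mem_nhds (one_mem _)) ?_
  intro τ hτ
  apply hEs
  have h1 : τ (ψ (α : Ω)) = ψ (α : Ω) := hτ
  have h2 : r τ (α : Ω) = (α : Ω) := ψ.injective ((hr τ _).trans h1)
  have h3 : ((r τ : Ω →ₐ[F] Ω).comp E.val) = E.val := by
    have h4 : Algebra.adjoin F {α} = (⊤ : Subalgebra F E) := by
      rw [← IntermediateField.adjoin_simple_toSubalgebra_of_isAlgebraic
        (Algebra.IsAlgebraic.isAlgebraic α), hα, IntermediateField.top_toSubalgebra]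
    refine AlgHom.ext_of_adjoin_eq_top h4 ?_
    intro x hx
    rw [Set.mem_singleton_iff] at hx
    subst hx
    exact h2
  change r τ ∈ E.fixingSubgroup
  rw [IntermediateField.mem_fixingSubgroup_iff]
  intro x hx
  exact DFunLike.congr_fun h3 (⟨x, hx⟩ : E)

theorem kum_restr (h2 : (2 : F) ≠ 0) (h2' : (2 : K) ≠ 0) (φ : F →+* K) (ψ : Ω →+* Ω')
    (r : Gal(Ω'/K) →* Gal(Ω/F)) (hψ : ∀ a : F, ψ (algebraMap F Ω a) = algebraMap K Ω' (φ a))
    (hr : ∀ (τ : Gal(Ω'/K)) (x : Ω), ψ (r τ x) = τ (ψ x)) {a : F} (ha : a ≠ 0)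
    (τ : Gal(Ω'/K)) : kum Ω' (φ a) τ = kum Ω a (r τ) := by
  have hs := rt_sq (Ω := Ω) h2 a
  have hs' : (ψ (rt Ω a)) ^ 2 = algebraMap K Ω' (φ a) := by
    rw [← map_pow, hs, hψ]
  have k := kum_iff h2 ha hs (r τ)
  have k' := kum_iff h2' ((map_ne_zero φ).2 ha) hs' τ
  have h0 : kum Ω' (φ a) τ = 0 ↔ kum Ω a (r τ) = 0 := by
    rw [k.1, k'.1, ← hr]
    exact ψ.injective.eq_iff
  rcases zm2' (kum Ω' (φ a) τ) with h | h <;> rcases zm2' (kum Ω a (r τ)) with h' | h'
  · rw [h, h']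
  · rw [h0.1 h] at h'
    exact absurd h' (by decide)
  · rw [h0.2 h'] at h
    exact absurd h (by decide)
  · rw [h, h']

theorem hh_map (h2 : (2 : F) ≠ 0) (h2' : (2 : K) ≠ 0) (φ : F →+* K) {u : K2 F}
    (h : hh Ω h2 u = 0) : hh Ω' h2' (K2.map φ u) = 0 := by
  obtain ⟨n, a, b, ha, hb, rfl⟩ := K2_rep u
  obtain ⟨ψ, r, hrc, hψ, hr⟩ := exists_restr (Ω := Ω) (Ω' := Ω') φ
  obtain ⟨χ, hχ, hall⟩ := (hh_sum_zero h2 a b ha hb).1 h
  have h1 : K2.map φ (∑ i, S (a i) (b i)) = ∑ i, S (φ (a i)) (φ (b i)) := by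
    rw [map_sum]
    exact Finset.sum_congr rfl fun i _ => K2.map_S φ _ _
  rw [h1, hh_sum_zero h2' (fun i => φ (a i)) (fun i => φ (b i))
    (fun i => (map_ne_zero φ).2 (ha i)) (fun i => (map_ne_zero φ).2 (hb i))]
  refine ⟨χ ∘ r, hχ.comp hrc, fun g h => ?_⟩
  rw [Function.comp_apply, Function.comp_apply, Function.comp_apply, map_mul, ← hall]
  refine Finset.sum_congr rfl fun i _ => ?_
  rw [kum_restr h2 h2' φ ψ r hψ hr (ha i), kum_restr h2 h2' φ ψ r hψ hr (hb i)]

end Pool.Agent.MK
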