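import Pool.Agent.MK.APl

/-! # Conjugation of points

`Ω = AlgebraicClosure L`.

PROOFS.
* `val_unique`: every `f ≠ 0` in `L(z)` is `P^k * (A/B)`, `P = minpoly L c`, `P ∤ A, B`; so
  `w.v f = k * w.v P`, `(vPt c).v f = k`.
* `conj_v`, `conj_ac` (`ρ : Ω ≃ₐ[L] Ω`): `minpoly L (ρ c) = minpoly L c` (`minpoly.algEquiv_eq`), so the valuations
  agree (`vPt_spec`: both are the multiplicity of the minimal polynomial: use `val_unique`), and for a unit
  `f = A/B`, `A(ρ c) = ρ (A(c))` (`Polynomial.aeval_algEquiv`/`map_aeval`).  `conj_tame`: `Val.tame_congr` with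
  `φ = id`.
* `exists_ext`: `IsAlgClosure`: extend `C.s : L ≃ L` to `Ω` (`IsAlgClosure.equivOfEquiv` with the ring
  equivalence defined by `C.s`).
* `sval`: for a polynomial `P`: `sM P = Σ s(P_i) b^i z^(-i)` is Laurent, and its residue at `c` is
  `Σ s(P_i) (b/c)^i = τ (P(c'))`, `c' = τ⁻¹(b/c)` (`τ (b/c') = ...`).  So for `w = (vPt c).comap C.sM`: `w.v P ≥ 0` for all
  polynomials, and `w.v P = 0`, `w.ac P = τ (P(c'))` if `P(c') ≠ 0`; so by `val_unique` `w.v = e * (vPt c').v` with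
  `e = w.v (minpoly c') > 0` (`> 0` because the residue `τ(0) = 0`).  Applying this also to `c'` and `τ⁻¹` (note
  `τ (b / c') = c`): `(vPt c').v (sM f) = e' (vPt c).v f`; with `C.sM_sM`: `(vPt c).v f = e e' (vPt c).v f`, so `e = 1`.
* `stame`: `Val.tame_congr` with `w := vPt c'`, `w' := vPt c`, `φ := C.sM`, `j := τ`.
* `tame_poly`: the tame symbol at `c` is given by a polynomial: induction (`K2_induction`); for a symbol use
  `Val.tame_S_unit` and write the unit as `A/B` with `A(c), B(c) ≠ 0`; `B(c)⁻¹ = B'(c)` for some polynomial `B'`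
  (`L[X]/(minpoly)` is a field: `IsCoprime`); sums: multiply polynomials; (negatives are not needed in the
  induction: `K2_induction` only uses symbols and sums.)
-/

set_option autoImplicit false
set_option linter.unusedSectionVars false

namespace Pool.Agent.MK

universe u v w

open scoped Polynomial

section

variable {L : Type u} [Field L]

theorem alg_ne {P : L[X]} (hP : P ≠ 0) : algebraMap L[X] (RatFunc L) P ≠ 0 :=
  (map_ne_zero_iff _ (ratFunc_inj L)).2 hP

theorem ne_of_aeval {c : AlgebraicClosure L} {P : L[X]} (hP : Polynomial.aeval c P ≠ 0) :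
    P ≠ 0 := by
  rintro rfl
  exact hP (map_zero _)

theorem poly_rep (c : AlgebraicClosure L) {P : L[X]} (hP : P ≠ 0) :
    ∃ (n : ℕ) (Q : L[X]), Polynomial.aeval c Q ≠ 0 ∧ P = minpoly L c ^ n * Q := by
  obtain ⟨n, Q, hQ, h⟩ := WfDvdMonoid.max_power_factor hP (minpoly_prime c).irreducible
  exact ⟨n, Q, fun h0 => hQ ((minpoly.dvd_iff).2 h0), h⟩

theorem val_poly {k : Type w} [Field k] (w : Val (RatFunc L) k) (c : AlgebraicClosure L)
    (h0 : ∀ P : L[X], Polynomial.aeval c P ≠ 0 → w.v (algebraMap L[X] (RatFunc L) P) = 0)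
    (n : ℕ) {Q : L[X]} (hQ : Polynomial.aeval c Q ≠ 0) :
    w.v (algebraMap L[X] (RatFunc L) (minpoly L c ^ n * Q)) =
      n * w.v (algebraMap L[X] (RatFunc L) (minpoly L c)) := by
  rw [map_mul, map_pow, w.v_mul _ _ (pow_ne_zero _ (alg_ne (minpoly_prime c).ne_zero))
    (alg_ne (ne_of_aeval hQ)), h0 Q hQ, add_zero, w.v_pow]

theorem val_unique {k : Type w} [Field k] (w : Val (RatFunc L) k) (c : AlgebraicClosure L)
    (h0 : ∀ P : L[X], Polynomial.aeval c P ≠ 0 → w.v (algebraMap L[X] (RatFunc L) P) = 0)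
    {f : RatFunc L} (hf : f ≠ 0) :
    w.v f = w.v (algebraMap L[X] (RatFunc L) (minpoly L c)) * (vPt c).v f := by
  obtain ⟨P, Q, hQ, rfl⟩ := ratFunc_frac L f
  have hP : P ≠ 0 := by
    rintro rfl
    exact hf (by rw [map_zero, zero_div])
  have hc : ∀ P : L[X], Polynomial.aeval c P ≠ 0 →
      (vPt c).v (algebraMap L[X] (RatFunc L) P) = 0 := fun P hP => (vPt_v_eq_zero c hP).1
  obtain ⟨n, P', hP', rfl⟩ := poly_rep c hP
  obtain ⟨m, Q', hQ', rfl⟩ := poly_rep c hQ
  rw [w.v_div (alg_ne hP) (alg_ne hQ), (vPt c).v_div (alg_ne hP) (alg_ne hQ),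
    val_poly w c h0 n hP', val_poly w c h0 m hQ', val_poly (vPt c) c hc n hP',
    val_poly (vPt c) c hc m hQ', (vPt_spec c).1]
  ring

/-- Units at `c` are quotients of polynomials not vanishing at `c`. -/
theorem unit_rep (c : AlgebraicClosure L) {f : RatFunc L} (hf : f ≠ 0) (h : (vPt c).v f = 0) :
    ∃ A B : L[X], Polynomial.aeval c A ≠ 0 ∧ Polynomial.aeval c B ≠ 0 ∧
      f = algebraMap L[X] (RatFunc L) A / algebraMap L[X] (RatFunc L) B := by
  obtain ⟨P, Q, hQ, rfl⟩ := ratFunc_frac L f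
  have hP : P ≠ 0 := by
    rintro rfl
    exact hf (by rw [map_zero, zero_div])
  have hc : ∀ P : L[X], Polynomial.aeval c P ≠ 0 →
      (vPt c).v (algebraMap L[X] (RatFunc L) P) = 0 := fun P hP => (vPt_v_eq_zero c hP).1
  obtain ⟨n, P', hP', rfl⟩ := poly_rep c hP
  obtain ⟨m, Q', hQ', rfl⟩ := poly_rep c hQ
  rw [(vPt c).v_div (alg_ne hP) (alg_ne hQ), val_poly (vPt c) c hc n hP',
    val_poly (vPt c) c hc m hQ', (vPt_spec c).1] at h
  have hnm : n = m := by omega
  subst hnm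
  refine ⟨P', Q', hP', hQ', ?_⟩
  have h1 : algebraMap L[X] (RatFunc L) (minpoly L c) ^ n ≠ 0 :=
    pow_ne_zero _ (alg_ne (minpoly_prime c).ne_zero)
  rw [map_mul, map_mul, map_pow, mul_div_mul_left _ _ h1]

theorem ac_quot (c : AlgebraicClosure L) {A B : L[X]} (hA : Polynomial.aeval c A ≠ 0)
    (hB : Polynomial.aeval c B ≠ 0) :
    (vPt c).ac (algebraMap L[X] (RatFunc L) A / algebraMap L[X] (RatFunc L) B) =
      Polynomial.aeval c A / Polynomial.aeval c B := by
  rw [Val.ac_div, (vPt_v_eq_zero c hA).2, (vPt_v_eq_zero c hB).2]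

theorem aeval_conj (ρ : AlgebraicClosure L ≃ₐ[L] AlgebraicClosure L) (c : AlgebraicClosure L)
    (P : L[X]) : Polynomial.aeval (ρ c) P = ρ (Polynomial.aeval c P) := by
  have h := Polynomial.aeval_algHom_apply (ρ : AlgebraicClosure L →ₐ[L] AlgebraicClosure L) c P
  exact h

theorem aeval_conj_ne (ρ : AlgebraicClosure L ≃ₐ[L] AlgebraicClosure L) (c : AlgebraicClosure L)
    {P : L[X]} (hP : Polynomial.aeval c P ≠ 0) : Polynomial.aeval (ρ c) P ≠ 0 := by
  rw [aeval_conj]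
  exact (map_ne_zero_iff _ ρ.injective).2 hP

theorem conj_v (ρ : AlgebraicClosure L ≃ₐ[L] AlgebraicClosure L) (c : AlgebraicClosure L)
    {f : RatFunc L} (hf : f ≠ 0) : (vPt (ρ c)).v f = (vPt c).v f := by
  have h := val_unique (vPt (ρ c)) c
    (fun P hP => (vPt_v_eq_zero (ρ c) (aeval_conj_ne ρ c hP)).1) hf
  have h1 := (vPt_spec (ρ c)).1
  rw [minpoly.algEquiv_eq ρ c] at h1
  rw [h, h1, one_mul]

theorem conj_ac (ρ : AlgebraicClosure L ≃ₐ[L] AlgebraicClosure L) (c : AlgebraicClosure L)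
    {f : RatFunc L} (hf : f ≠ 0) (h : (vPt c).v f = 0) :
    (vPt (ρ c)).ac f = ρ ((vPt c).ac f) := by
  obtain ⟨A, B, hA, hB, rfl⟩ := unit_rep c hf h
  rw [ac_quot c hA hB, ac_quot (ρ c) (aeval_conj_ne ρ c hA) (aeval_conj_ne ρ c hB), aeval_conj,
    aeval_conj, map_div₀]

theorem conj_tame (ρ : AlgebraicClosure L ≃ₐ[L] AlgebraicClosure L) (c : AlgebraicClosure L)
    (m : K2 (RatFunc L)) : (((vPt (ρ c)).tame m).toMul : AlgebraicClosure L) =
      ρ (((vPt c).tame m).toMul : AlgebraicClosure L) := by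
  have h := (vPt c).tame_congr (vPt (ρ c)) (RingHom.id (RatFunc L))
    (ρ : AlgebraicClosure L ≃+* AlgebraicClosure L).toRingHom (fun x hx => conj_v ρ c hx)
    (fun x hx hx0 => conj_ac ρ c hx hx0) m
  rw [K2.map_id] at h
  exact congrArg (fun u : (AlgebraicClosure L)ˣ => (u : AlgebraicClosure L)) h

/-- The tame symbol at `c` is the value at `c` of a polynomial. -/
theorem tame_poly (c : AlgebraicClosure L) (m : K2 (RatFunc L)) :
    ∃ P : L[X], Polynomial.aeval c P ≠ 0 ∧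
      (vPt c).tame m = (vPt c).A (algebraMap L[X] (RatFunc L) P) := by
  induction m using K2_induction with
  | hS a b ha hb =>
    obtain ⟨h1, h2⟩ := (vPt c).tame_S_unit ha hb
    have h3 : (-1) ^ ((vPt c).v a * (vPt c).v b) * b ^ ((vPt c).v a) / a ^ ((vPt c).v b) ≠ 0 :=
      div_ne_zero (mul_ne_zero (zpow_ne_zero _ (neg_ne_zero.mpr one_ne_zero))
        (zpow_ne_zero _ hb)) (zpow_ne_zero _ ha)
    obtain ⟨A, B, hA, hB, h4⟩ := unit_rep c h3 h2
    rw [h1, h4]
    rw [h4] at h3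
    have hcop : IsCoprime (minpoly L c) B :=
      ((minpoly_prime c).irreducible.coprime_iff_not_dvd).2
        fun hd => hB ((minpoly.dvd_iff).1 hd)
    obtain ⟨u, v, huv⟩ := hcop
    have h5 : Polynomial.aeval c v * Polynomial.aeval c B = 1 := by
      have h6 := congrArg (Polynomial.aeval c) huv
      rwa [map_add, map_mul, map_mul, minpoly.aeval, mul_zero, zero_add, map_one] at h6
    have h6 : Polynomial.aeval c v ≠ 0 := left_ne_zero_of_mul (h5.symm ▸ one_ne_zero)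
    have h7 : Polynomial.aeval c (A * v) ≠ 0 := by
      rw [map_mul]
      exact mul_ne_zero hA h6
    refine ⟨A * v, h7, ?_⟩
    rw [(vPt c).A_eq_iff h3 (alg_ne (ne_of_aeval h7)), ac_quot c hA hB, (vPt_v_eq_zero c h7).2,
      map_mul, div_eq_iff hB, mul_assoc, h5, mul_one]
  | hz =>
    refine ⟨1, by rw [map_one]; exact one_ne_zero, ?_⟩
    rw [map_zero, map_one, Val.A_one]
  | hadd x y hx hy =>
    obtain ⟨P, hP, h1⟩ := hx
    obtain ⟨Q, hQ, h2⟩ := hy
    refine ⟨P * Q, by rw [map_mul]; exact mul_ne_zero hP hQ, ?_⟩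
    rw [map_add, h1, h2, map_mul, Val.A_mul _ (alg_ne (ne_of_aeval hP)) (alg_ne (ne_of_aeval hQ))]

end

namespace CQ

variable {F L : Type u} [Field F] [Field L] [Algebra F L] (C : CQ F L)

/-- Extension of the involution to the algebraic closure. -/
theorem exists_ext : ∃ τ : AlgebraicClosure L ≃+* AlgebraicClosure L,
    ∀ x : L, τ (algebraMap L _ x) = algebraMap L _ (C.s x) := by
  let e : L ≃+* L := RingEquiv.ofRingHom C.s C.s (RingHom.ext fun x => C.s_s x)
    (RingHom.ext fun x => C.s_s x)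
  exact ⟨IsAlgClosure.equivOfEquiv (AlgebraicClosure L) (AlgebraicClosure L) e,
    fun x => IsAlgClosure.equivOfEquiv_algebraMap (AlgebraicClosure L) (AlgebraicClosure L) e x⟩

/-- the point conjugate to `c` -/
noncomputable def cpt (τ : AlgebraicClosure L ≃+* AlgebraicClosure L) (c : AlgebraicClosure L) :
    AlgebraicClosure L := τ.symm (algebraMap L _ C.bL / c)

theorem algbL_ne : algebraMap L (AlgebraicClosure L) C.bL ≠ 0 :=
  (_root_.map_ne_zero _).mpr C.bL_ne

theorem cpt_ne (τ : AlgebraicClosure L ≃+* AlgebraicClosure L) {c : AlgebraicClosure L}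
    (hc : c ≠ 0) : C.cpt τ c ≠ 0 :=
  (map_ne_zero_iff _ τ.symm.injective).2 (div_ne_zero C.algbL_ne hc)

theorem τ_cpt (τ : AlgebraicClosure L ≃+* AlgebraicClosure L) (c : AlgebraicClosure L) :
    τ (C.cpt τ c) = algebraMap L _ C.bL / c := by
  rw [cpt, RingEquiv.apply_symm_apply]

/-- the residue of the conjugate of a polynomial -/
theorem res_sM {τ : AlgebraicClosure L ≃+* AlgebraicClosure L}
    (hτ : ∀ x : L, τ (algebraMap L _ x) = algebraMap L _ (C.s x)) {c : AlgebraicClosure L}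
    (hc : c ≠ 0) (P : L[X]) : 0 ≤ (vPt c).v (C.sM (algebraMap L[X] (RatFunc L) P)) ∧
      (vPt c).res (C.sM (algebraMap L[X] (RatFunc L) P)) =
        τ (Polynomial.aeval (C.cpt τ c) P) := by
  induction P using Polynomial.induction_on' with
  | add P Q hP hQ =>
    rw [map_add, map_add, map_add, map_add]
    exact ⟨(vPt c).v_add_nonneg hP.1 hQ.1, by rw [(vPt c).res_add hP.1 hQ.1, hP.2, hQ.2]⟩
  | monomial n a =>
    by_cases ha : a = 0
    · rw [ha, Polynomial.monomial_zero_right, map_zero, map_zero, map_zero, map_zero,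
        (vPt c).v_zero, Val.res_zero]
      exact ⟨le_rfl, rfl⟩
    · have h1 : C.sM (algebraMap L[X] (RatFunc L) (Polynomial.monomial n a)) =
          RatFunc.C (C.s a) * (RatFunc.C C.bL / RatFunc.X) ^ n := by
        rw [← Polynomial.C_mul_X_pow_eq_monomial, map_mul, map_pow, RatFunc.algebraMap_C,
          RatFunc.algebraMap_X, map_mul, map_pow, C.sM_C, C.sM_X]
      have hX : (RatFunc.X : RatFunc L) ≠ 0 := RatFunc.X_ne_zero
      have h2 : (RatFunc.C (C.s a) : RatFunc L) ≠ 0 :=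
        (_root_.map_ne_zero _).mpr ((_root_.map_ne_zero _).mpr ha)
      have h3 : (RatFunc.C C.bL / RatFunc.X : RatFunc L) ^ n ≠ 0 :=
        pow_ne_zero _ (div_ne_zero C.CbL_ne hX)
      have h4 : (vPt c).v (C.sM (algebraMap L[X] (RatFunc L) (Polynomial.monomial n a))) = 0 := by
        rw [h1, (vPt c).v_mul _ _ h2 h3, (vPt c).v_pow, (vPt c).v_div C.CbL_ne hX, (vPt_C c _).1,
          (vPt_C c _).1, (vPt_X hc).1]
        simp
      refine ⟨h4.ge, ?_⟩
      rw [Val.res_of_v_eq _ h4, h1, Val.ac_mul', ← zpow_natCast,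
        (vPt c).ac_zpow _ _ (div_ne_zero C.CbL_ne hX), Val.ac_div, (vPt_C c _).2, (vPt_C c _).2,
        (vPt_X hc).2, zpow_natCast, Polynomial.aeval_monomial, map_mul, map_pow, hτ, C.τ_cpt]

theorem sM_unit {τ : AlgebraicClosure L ≃+* AlgebraicClosure L}
    (hτ : ∀ x : L, τ (algebraMap L _ x) = algebraMap L _ (C.s x)) {c : AlgebraicClosure L}
    (hc : c ≠ 0) {P : L[X]} (hP : Polynomial.aeval (C.cpt τ c) P ≠ 0) :
    (vPt c).v (C.sM (algebraMap L[X] (RatFunc L) P)) = 0 ∧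
      (vPt c).ac (C.sM (algebraMap L[X] (RatFunc L) P)) = τ (Polynomial.aeval (C.cpt τ c) P) := by
  obtain ⟨h1, h2⟩ := C.res_sM hτ hc P
  have h3 : (vPt c).v (C.sM (algebraMap L[X] (RatFunc L) P)) = 0 := by
    by_contra h4
    rw [Val.res_of_pos _ (lt_of_le_of_ne h1 (Ne.symm h4))] at h2
    exact hP ((map_eq_zero_iff _ τ.injective).1 h2.symm)
  exact ⟨h3, by rw [← Val.res_of_v_eq _ h3, h2]⟩

theorem sM_ne {f : RatFunc L} (hf : f ≠ 0) : C.sM f ≠ 0 := (_root_.map_ne_zero _).mpr hf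

theorem sval_aux {τ : AlgebraicClosure L ≃+* AlgebraicClosure L}
    (hτ : ∀ x : L, τ (algebraMap L _ x) = algebraMap L _ (C.s x)) {c : AlgebraicClosure L}
    (hc : c ≠ 0) : ∃ e : ℤ, 0 < e ∧ ∀ f : RatFunc L, f ≠ 0 →
      (vPt c).v (C.sM f) = e * (vPt (C.cpt τ c)).v f := by
  refine ⟨(vPt c).v (C.sM (algebraMap L[X] (RatFunc L) (minpoly L (C.cpt τ c)))), ?_, ?_⟩
  · obtain ⟨h1, h2⟩ := C.res_sM hτ hc (minpoly L (C.cpt τ c))
    rw [minpoly.aeval, map_zero] at h2
    exact (Val.res_eq_zero _ (C.sM_ne (alg_ne (minpoly_prime _).ne_zero)) h1).1 h2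
  · intro f hf
    exact val_unique ((vPt c).comap C.sM) (C.cpt τ c) (fun P hP => (C.sM_unit hτ hc hP).1) hf

theorem symm_hτ {τ : AlgebraicClosure L ≃+* AlgebraicClosure L}
    (hτ : ∀ x : L, τ (algebraMap L _ x) = algebraMap L _ (C.s x)) (x : L) :
    τ.symm (algebraMap L _ x) = algebraMap L _ (C.s x) := by
  rw [RingEquiv.symm_apply_eq, hτ, C.s_s]

theorem cpt_cpt {τ : AlgebraicClosure L ≃+* AlgebraicClosure L}
    (hτ : ∀ x : L, τ (algebraMap L _ x) = algebraMap L _ (C.s x)) {c : AlgebraicClosure L}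
    (hc : c ≠ 0) : C.cpt τ.symm (C.cpt τ c) = c := by
  have hb := C.algbL_ne
  rw [cpt, RingEquiv.symm_symm, map_div₀, C.τ_cpt, hτ, C.s_bL]
  field_simp

theorem sval {τ : AlgebraicClosure L ≃+* AlgebraicClosure L}
    (hτ : ∀ x : L, τ (algebraMap L _ x) = algebraMap L _ (C.s x)) {c : AlgebraicClosure L}
    (hc : c ≠ 0) {f : RatFunc L} (hf : f ≠ 0) :
    (vPt c).v (C.sM f) = (vPt (C.cpt τ c)).v f ∧
    ((vPt (C.cpt τ c)).v f = 0 → (vPt c).ac (C.sM f) = τ ((vPt (C.cpt τ c)).ac f)) := by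
  obtain ⟨e, he, h1⟩ := C.sval_aux hτ hc
  obtain ⟨e', he', h2⟩ := C.sval_aux (C.symm_hτ hτ) (C.cpt_ne τ hc)
  rw [C.cpt_cpt hτ hc] at h2
  have hm : algebraMap L[X] (RatFunc L) (minpoly L c) ≠ 0 := alg_ne (minpoly_prime c).ne_zero
  have h3 := h1 _ (C.sM_ne hm)
  rw [C.sM_sM, h2 _ hm, (vPt_spec c).1, mul_one] at h3
  have h4 : e = 1 := Int.eq_one_of_mul_eq_one_right he.le h3.symm
  refine ⟨by rw [h1 f hf, h4, one_mul], fun h => ?_⟩
  obtain ⟨A, B, hA, hB, rfl⟩ := unit_rep _ hf h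
  rw [ac_quot _ hA hB, map_div₀, map_div₀, Val.ac_div, (C.sM_unit hτ hc hA).2,
    (C.sM_unit hτ hc hB).2]

theorem stame {τ : AlgebraicClosure L ≃+* AlgebraicClosure L}
    (hτ : ∀ x : L, τ (algebraMap L _ x) = algebraMap L _ (C.s x)) {c : AlgebraicClosure L}
    (hc : c ≠ 0) (m : K2 (RatFunc L)) :
    (((vPt c).tame (K2.map C.sM m)).toMul : AlgebraicClosure L) =
      τ (((vPt (C.cpt τ c)).tame m).toMul : AlgebraicClosure L) := by
  have h := (vPt (C.cpt τ c)).tame_congr (vPt c) C.sM τ.toRingHom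
    (fun x hx => (C.sval hτ hc hx).1) (fun x hx hx0 => (C.sval hτ hc hx).2 hx0) m
  exact congrArg (fun u : (AlgebraicClosure L)ˣ => (u : AlgebraicClosure L)) h

end CQ

end Pool.Agent.MK
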