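import Pool.Agent.MK.APl

/-! # The conic: the element e'

PROOFS.  `tame_∞ = (vInf L).tame`, `tame_c = (vPt c).tame`.
* `kill_neg_one`: `e' = {-a, x} - {-y/x, b/x²}` where `x, y ∈ C.K`, `x = (z + b/z)/2`, `y = (z - b/z)/(2α)`
  (both fixed by `s`; `x² - a y² = b`).  In `K₂(L(z))` it equals `{-α, b} - {-1, z}`:
  put `w = α y / x = (z²-b)/(z²+b)`, `1 - w² = b/x²`.  Then
  `{-y/x, b/x²} = {-w/α, 1-w²} = {-w, 1-w²} - {α, 1-w²}`, and `{-w, 1-w²} = {-w, 1-w} + {-w, 1+w} =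
  {-1, 1-w} + {w, 1-w} + 0 = {-1, 1-w}`, `1 - w = b/(x z)`.  So `{-y/x, b/x²} = {-1, b/(x z)} - {α, b} + 2 {α, x}`,
  and `{-a, x} = {-1, x} + 2 {α, x}`; subtract, using `2 {-1, _} = 0`.
  Moreover `2 e' = {a, b}` in `K₂(C.K)`: `2 e' = {-a, x²} - {y²/x², b/x²}` and, from `b/x² + a y²/x² = 1`,
  `{y²/x², b/x²} = -{a, b/x²}`; so `2 e' = {-1, x²} + {a, x²} + {a, b} - {a, x²} = {a, b}`.
  Its residues: none at `c ≠ 0` (`-α, b, -1, z` are units there), and at `∞`: `-{-1, z}` gives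
  `-(-(v z) A(-1)) = -A(-1)`... in any case `A (-1)` (as `v z = -1` and `2 A(-1) = 0`).
-/

set_option autoImplicit false
set_option linter.unusedSectionVars false

namespace Pool.Agent.MK

universe u v w

open scoped Polynomial

private theorem neg_one_ne' {K : Type u} [Field K] : (-1 : K) ≠ 0 := neg_ne_zero.mpr one_ne_zero

private theorem e_two {K : Type u} [Field K] {A B x y : K} (hA : A ≠ 0) (hB : B ≠ 0) (hx : x ≠ 0)
    (hy : y ≠ 0) (h : x ^ 2 - A * y ^ 2 = B) :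
    (2 : ℤ) • (S (-A) x - S (-y / x) (B / x ^ 2)) = S A B := by
  have hx2 : x ^ 2 ≠ 0 := pow_ne_zero 2 hx
  have hBx : B / x ^ 2 ≠ 0 := div_ne_zero hB hx2
  have hyx : y ^ 2 / x ^ 2 ≠ 0 := div_ne_zero (pow_ne_zero 2 hy) hx2
  have h1 : (2 : ℤ) • S (-A) x = (2 : ℤ) • S A x := by
    rw [S_neg_left A x hA, smul_add, two_S_neg_one_left, zero_add]
  have h2 : (2 : ℤ) • S (-y / x) (B / x ^ 2) = S (y ^ 2 / x ^ 2) (B / x ^ 2) := by
    have h3 := S_pow_left (-y / x) (B / x ^ 2) 2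
    rw [show (-y / x) ^ 2 = y ^ 2 / x ^ 2 by rw [div_pow, neg_sq]] at h3
    rw [h3, two_zsmul, two_nsmul]
  have h3 : S (A * (y ^ 2 / x ^ 2)) (B / x ^ 2) = 0 := by
    apply S_of_add_eq_one
    rw [← h]
    field_simp
    ring
  rw [S_mul_left hA hyx, S_div_right hB hx2, S_pow_right, two_nsmul] at h3
  rw [smul_sub, h1, h2, two_zsmul]
  have h4 : S (y ^ 2 / x ^ 2) (B / x ^ 2) = -(S A B - (S A x + S A x)) :=
    eq_neg_of_add_eq_zero_right h3
  rw [h4]
  abel

private theorem e_expl {K : Type u} [Field K] {α B z x y : K} (h2 : (2 : K) ≠ 0) (hα : α ≠ 0)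
    (hB : B ≠ 0) (hz : z ≠ 0) (hx : x ≠ 0) (hy : y ≠ 0) (hxe : x = (z + B / z) / 2)
    (hye : y = (z - B / z) / (2 * α)) :
    S (-(α ^ 2)) x - S (-y / x) (B / x ^ 2) = S (-α) B - S (-1) z := by
  have hx2 : x ^ 2 ≠ 0 := pow_ne_zero 2 hx
  have hxz : x * z ≠ 0 := mul_ne_zero hx hz
  have e1 : 2 * (x * z) = z ^ 2 + B := by
    rw [hxe]
    field_simp
  have e2 : 2 * α * (y * z) = z ^ 2 - B := by
    rw [hye]
    field_simp
  obtain ⟨w, hw⟩ : ∃ w, w = α * y / x := ⟨_, rfl⟩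
  have hw0 : w ≠ 0 := by
    rw [hw]
    exact div_ne_zero (mul_ne_zero hα hy) hx
  have w1 : 1 - w = B / (x * z) := by
    rw [hw, eq_div_iff hxz]
    have h3 : (1 - α * y / x) * (x * z) = x * z - α * (y * z) := by
      field_simp
    rw [h3]
    apply mul_left_cancel₀ h2
    linear_combination e1 - e2
  have w2 : 1 + w = z / x := by
    rw [hw, eq_div_iff hx]
    apply mul_right_cancel₀ hz
    have h3 : (1 + α * y / x) * x * z = x * z + α * (y * z) := by
      field_simp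
    rw [h3]
    apply mul_left_cancel₀ h2
    linear_combination e1 + e2
  have w3 : B / x ^ 2 = (1 - w) * (1 + w) := by
    rw [w1, w2]
    field_simp
  have w4 : -y / x = -w / α := by
    rw [hw]
    field_simp
  have n1 : 1 - w ≠ 0 := by
    rw [w1]
    exact div_ne_zero hB hxz
  have n2 : 1 + w ≠ 0 := by
    rw [w2]
    exact div_ne_zero hz hx
  have s1 : S (-w) (B / x ^ 2) = S (-1) (1 - w) := by
    rw [w3, S_mul_right n1 n2, S_of_add_eq_one (show -w + (1 + w) = 1 by ring), add_zero,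
      S_neg_left w _ hw0, S_of_add_eq_one (show w + (1 - w) = 1 by ring), add_zero]
  have s2 : S (-1) (1 - w) = S (-1) B - (S (-1) x + S (-1) z) := by
    rw [w1, S_div_right hB hxz, S_mul_right hx hz]
  have s3 : S (-y / x) (B / x ^ 2) =
      S (-1) B - (S (-1) x + S (-1) z) - (S α B - (S α x + S α x)) := by
    rw [w4, S_div_left (neg_ne_zero.mpr hw0) hα, s1, s2, S_div_right hB hx2, S_pow_right,
      two_nsmul]
  have s4 : S (-(α ^ 2)) x = S (-1) x + (S α x + S α x) := by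
    rw [S_neg_left _ _ (pow_ne_zero 2 hα), S_pow_left, two_nsmul]
  have t1 : S (-1) x = -S (-1) x := by
    have h := two_S_neg_one_left x
    rw [two_zsmul] at h
    exact eq_neg_of_add_eq_zero_left h
  have t2 : S (-1) B = -S (-1) B := by
    have h := two_S_neg_one_left B
    rw [two_zsmul] at h
    exact eq_neg_of_add_eq_zero_left h
  have t3 : S (-1) z = -S (-1) z := by
    have h := two_S_neg_one_left z
    rw [two_zsmul] at h
    exact eq_neg_of_add_eq_zero_left h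
  rw [s3, s4, S_neg_left α B hα]
  have t4 : S (-1) x + (S α x + S α x) -
      (S (-1) B - (S (-1) x + S (-1) z) - (S α B - (S α x + S α x))) =
      (S (-1) x + S (-1) x) + (S (-1) z + S (-1) z) - (S (-1) B + S (-1) B) +
        (S (-1) B + S α B - S (-1) z) := by
    abel
  rw [t4]
  have u1 := two_S_neg_one_left x
  have u2 := two_S_neg_one_left B
  have u3 := two_S_neg_one_left z
  rw [two_zsmul] at u1 u2 u3
  rw [u1, u2, u3, add_zero, sub_zero, zero_add]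

namespace CQ

variable {F L : Type u} [Field F] [Field L] [Algebra F L] (C : CQ F L)

private theorem X_sq_ne (d : L) : (RatFunc.X : RatFunc L) ^ 2 ≠ RatFunc.C d := by
  intro h
  have h1 := congrArg (vInf L).v h
  rw [Val.v_pow, vInf_X.1, (vInf_C d).1] at h1
  omega

/-- The element `e' = {-a, x} - {-y/x, b/x²}` of `K₂` of the function field. -/
theorem exists_e' : ∃ m : K2 C.K, (2 : ℤ) • m = K2.map C.iF (S C.a C.b) ∧
    K2.map C.iK m = S (RatFunc.C (-C.α)) (RatFunc.C C.bL) - S (-1) RatFunc.X := by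
  obtain ⟨z, hz⟩ : ∃ z : RatFunc L, z = RatFunc.X := ⟨_, rfl⟩
  obtain ⟨B, hB⟩ : ∃ B : RatFunc L, B = RatFunc.C C.bL := ⟨_, rfl⟩
  obtain ⟨α, hα⟩ : ∃ α : RatFunc L, α = RatFunc.C C.α := ⟨_, rfl⟩
  have z0 : z ≠ 0 := by rw [hz]; exact RatFunc.X_ne_zero
  have B0 : B ≠ 0 := by rw [hB]; exact C.CbL_ne
  have α0 : α ≠ 0 := by rw [hα]; exact (map_ne_zero _).mpr C.α_ne
  have two0 : (2 : RatFunc L) ≠ 0 := C.twoM
  have sz : C.sM z = B / z := by rw [hz, hB]; exact C.sM_X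
  have sB : C.sM B = B := by rw [hB, C.sM_C, C.s_bL]
  have sα : C.sM α = -α := by rw [hα, C.sM_C, C.s_α, map_neg]
  have s2 : C.sM 2 = 2 := map_ofNat _ 2
  obtain ⟨x, hx⟩ : ∃ x : RatFunc L, x = (z + B / z) / 2 := ⟨_, rfl⟩
  obtain ⟨y, hy⟩ : ∃ y : RatFunc L, y = (z - B / z) / (2 * α) := ⟨_, rfl⟩
  have sx : C.sM x = x := by
    rw [hx, map_div₀, map_add, map_div₀, sz, sB, s2]
    field_simp
    ring
  have sy : C.sM y = y := by
    rw [hy, map_div₀, map_sub, map_div₀, map_mul, sz, sB, s2, sα]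
    field_simp
    ring
  have x0 : x ≠ 0 := by
    intro h
    have h1 : z ^ 2 = -B := by
      have h2 : 2 * z * x = z ^ 2 + B := by
        rw [hx]
        field_simp
      rw [h, mul_zero] at h2
      linear_combination -h2
    rw [hz, hB, ← map_neg] at h1
    exact X_sq_ne _ h1
  have y0 : y ≠ 0 := by
    intro h
    have h1 : z ^ 2 = B := by
      have h2 : 2 * α * z * y = z ^ 2 - B := by
        rw [hy]
        field_simp
      rw [h, mul_zero] at h2
      linear_combination -h2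
    rw [hz, hB] at h1
    exact X_sq_ne _ h1
  have hconic : x ^ 2 - α ^ 2 * y ^ 2 = B := by
    rw [hx, hy]
    field_simp
    ring
  have hαa : α ^ 2 = ((C.iF C.a : C.K) : RatFunc L) := by
    rw [hα, ← map_pow, C.sq, C.iF_coe]
  have hBb : B = ((C.iF C.b : C.K) : RatFunc L) := by
    rw [hB, C.iF_coe]
  let xK : C.K := ⟨x, sx⟩
  let yK : C.K := ⟨y, sy⟩
  have a0 : C.iF C.a ≠ 0 := by
    intro h
    rw [h] at hαa
    exact pow_ne_zero 2 α0 hαa
  have b0 : C.iF C.b ≠ 0 := (map_ne_zero _).mpr C.b_ne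
  have xK0 : xK ≠ 0 := by
    intro h
    exact x0 (congrArg Subtype.val h)
  have yK0 : yK ≠ 0 := by
    intro h
    exact y0 (congrArg Subtype.val h)
  have hK : xK ^ 2 - C.iF C.a * yK ^ 2 = C.iF C.b := by
    apply Subtype.ext
    change x ^ 2 - ((C.iF C.a : C.K) : RatFunc L) * y ^ 2 = ((C.iF C.b : C.K) : RatFunc L)
    rw [← hαa, ← hBb]
    exact hconic
  refine ⟨S (-(C.iF C.a)) xK - S (-yK / xK) (C.iF C.b / xK ^ 2), ?_, ?_⟩
  · rw [e_two a0 b0 xK0 yK0 hK, K2.map_S]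
  · rw [map_sub, K2.map_S, K2.map_S]
    have e1 : C.iK (-(C.iF C.a)) = -(α ^ 2) := by
      rw [map_neg, hαa]
      rfl
    have e2 : C.iK (-yK / xK) = -y / x := by
      rw [map_div₀, map_neg]
      rfl
    have e3 : C.iK (C.iF C.b / xK ^ 2) = B / x ^ 2 := by
      rw [map_div₀, map_pow, hBb]
      rfl
    have e4 : C.iK xK = x := rfl
    rw [e1, e2, e3, e4, e_expl two0 α0 B0 z0 x0 y0 hx hy, hz, hB, hα, map_neg]

theorem kill_neg_one : ∃ m : K2 C.K, (∀ c : AlgebraicClosure L, c ≠ 0 →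
        (vPt c).tame (K2.map C.iK m) = 0) ∧
      (vInf L).tame (K2.map C.iK m) = (vInf L).A (-1) ∧
      (2 : ℤ) • m = K2.map C.iF (S C.a C.b) := by
  obtain ⟨m, h1, h2⟩ := C.exists_e'
  have α0 : (RatFunc.C (-C.α) : RatFunc L) ≠ 0 :=
    (map_ne_zero _).mpr (neg_ne_zero.mpr C.α_ne)
  refine ⟨m, ?_, ?_, h1⟩
  · intro c hc
    rw [h2, map_sub, (vPt c).tame_S α0 C.CbL_ne, (vPt c).tame_S neg_one_ne' RatFunc.X_ne_zero,
      (vPt_C c _).1, (vPt_C c _).1, (vPt_X hc).1, (vPt c).v_neg_one]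
    simp
  · rw [h2, map_sub, (vInf L).tame_S α0 C.CbL_ne, (vInf L).tame_S neg_one_ne' RatFunc.X_ne_zero,
      (vInf_C _).1, (vInf_C _).1, vInf_X.1, (vInf L).v_neg_one, (vInf L).A_neg_one]
    have h3 := Val.two_m1 (k := L)
    rw [two_zsmul] at h3
    have h4 : -Val.m1 L = Val.m1 L := (eq_neg_of_add_eq_zero_left h3).symm
    simp [h4]

end CQ

end Pool.Agent.MK
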