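import Pool.Agent.MK.Psi

/-! # Second-term exactness for the conic: unramified elements of `K₂` of the function field are constant

PROOFS.  A finite list `T` of quaternions with `q ≠ 0` is good if different entries do not commute
(`T.Pairwise (fun u v => u * v ≠ v * u)`).
* `exists_M1`: `m ∈ Ml C.iA C.degA 2`: closure induction.  Generators `{f, g}` with `deg ≤ 1`: `f = l w` (`deg_le_one`);
  if `w.q = 0` then `f` is a constant (`l_ofL`).  `M1 T` grows with `T`; for sums take `T ++ T'`.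
* `good`: every list `T₀` has a good list `T` such that every `t₀ ∈ T₀` is `k t + k'` with `t ∈ T`, `k ≠ 0`
  (induction on `T₀`: drop an element that commutes with an element of the good list of the rest; by `comm_iff` it is
  `k t + k'`, and `k ≠ 0` as it is not a scalar).  Then `l t₀ = k l t` and `M1 T₀ ≤ M1 T`, `SgT T₀ ≤ SgT T`.
* `iQ_sum`: `T` good, `m ∈ M1 T`: `iQ (class m) = Σ_{t ∈ T} Psi t m + PsiInf m`.  Closure induction (both sides are
  additive).  Generators `{x, y}`, `x, y` constants `C.iF c` (`c ≠ 0`) or `lK t`, `t ∈ T`: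
  both constants: all terms `0` (`gen_zero`, `PsiInf_eq_zero`; the class is `0`: `iF c' = c' l i`).
  `{c, l t}`: the class is in `Sg`; `gen_cu`, and `Psi t' = 0` for the other `t'` (`gen_zero`; `l t` does not vanish at `pu t'` by
  `commute_of_pos`).  `{l t, c} = -{c, l t}`.  `{l t, l t} = {-1, l t}`: as before.  `{l t, l t'}`, `t ≠ t'`: `gen_uv` and
  `gen_zero`.
* `M1_unram`: so if `m ∈ M1 T` has no residues, `Psi t m = 0`, `PsiInf m = 0` (`Psi_eq_zero`, `PsiInf_eq_zero`), `iQ (class m) = 0`,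
  and `Ext.iQ_inj` gives `m ∈ Sg`.
* `Sg_unram`: `m ∈ Sg` implies `m ∈ SgT T` for some good list, where
  `SgT T = range (K2.map C.iF) ⊔ closure {S (iF c) (lK t) | t ∈ T}` (`w.q = 0`: `{c, k}` with constants is in the range).
  Induction on `T`: if `m ∈ SgT (t :: T)` then `m = m' + {c, l t}`, `m' ∈ SgT T`, `c ≠ 0` (the symbols `{c, l t}` with `c ≠ 0`
  form a subgroup).  At `pu t` the elements of `SgT T` have no residue (units) and `tame {c, l t} = -A c`.  So
  `A (C c) = 0`, `c = 1` and `m ∈ SgT T`.  For `T = []` `m` is in the range.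
* `h0`: `unramK`, `exists_M1`, `good`, `M1_unram`, `Sg_unram`.
-/

set_option autoImplicit false
set_option linter.unusedSectionVars false

namespace Pool.Agent.MK

universe u v w

open scoped Polynomial

namespace CQ

variable {F L : Type u} [Field F] [Field L] [Algebra F L] (C : CQ F L)

/-- constants and the `l t`, `t ∈ T` -/
def gens (T : List (Qt C)) : Set C.K := {x | (∃ c : F, c ≠ 0 ∧ x = C.iF c) ∨ ∃ t ∈ T, x = C.lK t}

/-- The subgroup generated by the symbols of constants and the `l t`, `t ∈ T`. -/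
noncomputable def M1 (T : List (Qt C)) : AddSubgroup (K2 C.K) :=
  AddSubgroup.closure {m | ∃ x ∈ C.gens T, ∃ y ∈ C.gens T, m = S x y}

/-- The subgroup generated by the constants and the `{c, l t}`, `t ∈ T`. -/
noncomputable def SgT (T : List (Qt C)) : AddSubgroup (K2 C.K) :=
  (K2.map C.iF).range ⊔ AddSubgroup.closure {m | ∃ c : F, ∃ t ∈ T, c ≠ 0 ∧ m = S (C.iF c) (C.lK t)}

private theorem h0_lne {t : Qt C} (ht : t.q ≠ 0) : C.l t ≠ 0 := by
  intro h
  obtain ⟨k, hk⟩ := C.l_eq_zero.1 h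
  exact ht (by rw [hk, Qt.sc_q])

private theorem h0_lKne {t : Qt C} (ht : t.q ≠ 0) : C.lK t ≠ 0 := by
  intro h
  exact C.h0_lne ht (congrArg Subtype.val h)

private theorem h0_iFne {c : F} (hc : c ≠ 0) : C.iF c ≠ 0 := (map_ne_zero _).2 hc

/-- `l w` for `w ∈ L`. -/
private theorem lK_L {w : Qt C} (hw : w.q = 0) : C.lK w = C.iF (C.im w.p) := by
  apply Subtype.ext
  have h1 : w = Qt.ofL w.p := by
    ext
    · rfl
    · exact hw
  show C.l w = RatFunc.C (algebraMap F L (C.im w.p))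
  conv_lhs => rw [h1]
  exact C.l_ofL w.p

private theorem lK_lin (k k' : F) (t : Qt C) :
    C.lK (Qt.sc k * t + Qt.sc k') = C.iF k * C.lK t := by
  apply Subtype.ext
  show C.l _ = RatFunc.C (algebraMap F L k) * C.l t
  rw [C.l_add, C.l_sc, C.l_sc_mul, add_zero]

private theorem gens_mono {T T' : List (Qt C)} (h : ∀ t ∈ T, t ∈ T') : C.gens T ⊆ C.gens T' := by
  rintro x (hx | ⟨t, ht, hx⟩)
  · exact Or.inl hx
  · exact Or.inr ⟨t, h t ht, hx⟩

private theorem M1_mono {T T' : List (Qt C)} (h : ∀ t ∈ T, t ∈ T') : C.M1 T ≤ C.M1 T' := by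
  rw [M1, AddSubgroup.closure_le]
  rintro m ⟨x, hx, y, hy, rfl⟩
  exact AddSubgroup.subset_closure ⟨x, C.gens_mono h hx, y, C.gens_mono h hy, rfl⟩

private theorem SgT_mono {T T' : List (Qt C)} (h : ∀ t ∈ T, t ∈ T') : C.SgT T ≤ C.SgT T' := by
  apply sup_le_sup le_rfl
  rw [AddSubgroup.closure_le]
  rintro m ⟨c, t, ht, hc, rfl⟩
  exact AddSubgroup.subset_closure ⟨c, t, h t ht, hc, rfl⟩

private theorem exists_gens {f : C.A} (hf : f ≠ 0) (hd : C.dg f < 2) :
    ∃ T : List (Qt C), (∀ t ∈ T, t.q ≠ 0) ∧ C.iA f ∈ C.gens T := by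
  obtain ⟨w, rfl⟩ := C.deg_le_one (f := f) (by omega)
  by_cases hw : w.q = 0
  · refine ⟨[], by simp, Or.inl ⟨C.im w.p, ?_, ?_⟩⟩
    · intro h
      apply hf
      apply C.iA_inj
      rw [map_zero]
      show C.lK w = 0
      rw [C.lK_L hw, h, map_zero]
    · exact C.lK_L hw
  · exact ⟨[w], by simpa using hw, Or.inr ⟨w, by simp, rfl⟩⟩

theorem exists_M1 {m : K2 C.K} (hm : m ∈ Ml C.iA C.degA 2) :
    ∃ T : List (Qt C), (∀ t ∈ T, t.q ≠ 0) ∧ m ∈ C.M1 T := by
  rw [Ml] at hm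
  induction hm using AddSubgroup.closure_induction with
  | mem x hx =>
    obtain ⟨f, g, hf, hg, hfd, hgd, rfl⟩ := hx
    obtain ⟨T, hT, h1⟩ := C.exists_gens hf hfd
    obtain ⟨T', hT', h2⟩ := C.exists_gens hg hgd
    refine ⟨T ++ T', ?_, ?_⟩
    · intro t ht
      rcases List.mem_append.1 ht with h | h
      · exact hT t h
      · exact hT' t h
    · exact AddSubgroup.subset_closure
        ⟨_, C.gens_mono (fun t ht => List.mem_append_left _ ht) h1,
          _, C.gens_mono (fun t ht => List.mem_append_right _ ht) h2, rfl⟩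
  | zero => exact ⟨[], by simp, zero_mem _⟩
  | add x y hx hy h1 h2 =>
    obtain ⟨T, hT, h1⟩ := h1
    obtain ⟨T', hT', h2⟩ := h2
    refine ⟨T ++ T', ?_, ?_⟩
    · intro t ht
      rcases List.mem_append.1 ht with h | h
      · exact hT t h
      · exact hT' t h
    · exact add_mem (C.M1_mono (fun t ht => List.mem_append_left _ ht) h1)
        (C.M1_mono (fun t ht => List.mem_append_right _ ht) h2)
  | neg x hx h1 =>
    obtain ⟨T, hT, h1⟩ := h1
    exact ⟨T, hT, neg_mem h1⟩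

private theorem gens_lin {T₀ T : List (Qt C)}
    (h : ∀ t ∈ T₀, ∃ s ∈ T, ∃ k k' : F, k ≠ 0 ∧ t = Qt.sc k * s + Qt.sc k') {x : C.K}
    (hx : x ∈ C.gens T₀) : ∃ y ∈ C.gens T, ∃ k : F, k ≠ 0 ∧ x = C.iF k * y := by
  rcases hx with ⟨c, hc, rfl⟩ | ⟨t, ht, rfl⟩
  · exact ⟨C.iF c, Or.inl ⟨c, hc, rfl⟩, 1, one_ne_zero, by rw [map_one, one_mul]⟩
  · obtain ⟨s, hs, k, k', hk, rfl⟩ := h t ht
    exact ⟨C.lK s, Or.inr ⟨s, hs, rfl⟩, k, hk, C.lK_lin k k' s⟩

private theorem M1_lin {T₀ T : List (Qt C)} (hT : ∀ t ∈ T, t.q ≠ 0)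
    (h : ∀ t ∈ T₀, ∃ s ∈ T, ∃ k k' : F, k ≠ 0 ∧ t = Qt.sc k * s + Qt.sc k') :
    C.M1 T₀ ≤ C.M1 T := by
  have hne : ∀ x ∈ C.gens T, x ≠ 0 := by
    rintro x (⟨c, hc, rfl⟩ | ⟨t, ht, rfl⟩)
    · exact C.h0_iFne hc
    · exact C.h0_lKne (hT t ht)
  rw [M1, AddSubgroup.closure_le]
  rintro m ⟨x, hx, y, hy, rfl⟩
  obtain ⟨x', hx', k, hk, rfl⟩ := C.gens_lin h hx
  obtain ⟨y', hy', k', hk', rfl⟩ := C.gens_lin h hy
  have g1 : C.iF k ∈ C.gens T := Or.inl ⟨k, hk, rfl⟩
  have g2 : C.iF k' ∈ C.gens T := Or.inl ⟨k', hk', rfl⟩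
  have key : ∀ x ∈ C.gens T, ∀ y ∈ C.gens T, S x y ∈ C.M1 T := fun x hx y hy =>
    AddSubgroup.subset_closure ⟨x, hx, y, hy, rfl⟩
  rw [SetLike.mem_coe, S_mul_left (hne _ g1) (hne _ hx'), S_mul_right (hne _ g2) (hne _ hy'),
    S_mul_right (hne _ g2) (hne _ hy')]
  exact add_mem (add_mem (key _ g1 _ g2) (key _ g1 _ hy')) (add_mem (key _ hx' _ g2)
    (key _ hx' _ hy'))

private theorem SgT_lin {T₀ T : List (Qt C)} (hT : ∀ t ∈ T, t.q ≠ 0)
    (h : ∀ t ∈ T₀, ∃ s ∈ T, ∃ k k' : F, k ≠ 0 ∧ t = Qt.sc k * s + Qt.sc k') :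
    C.SgT T₀ ≤ C.SgT T := by
  apply sup_le le_sup_left
  rw [AddSubgroup.closure_le]
  rintro m ⟨c, t, ht, hc, rfl⟩
  obtain ⟨s, hs, k, k', hk, rfl⟩ := h t ht
  rw [SetLike.mem_coe, C.lK_lin, S_mul_right (C.h0_iFne hk) (C.h0_lKne (hT s hs))]
  apply add_mem
  · apply AddSubgroup.mem_sup_left
    exact ⟨S c k, K2.map_S _ _ _⟩
  · apply AddSubgroup.mem_sup_right
    exact AddSubgroup.subset_closure ⟨c, s, hs, hc, rfl⟩

theorem good (T₀ : List (Qt C)) (h₀ : ∀ t ∈ T₀, t.q ≠ 0) : ∃ T : List (Qt C),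
    (∀ t ∈ T, t.q ≠ 0) ∧ T.Pairwise (fun u v => u * v ≠ v * u) ∧ C.M1 T₀ ≤ C.M1 T ∧
      C.SgT T₀ ≤ C.SgT T := by
  have key : ∃ T : List (Qt C), (∀ t ∈ T, t.q ≠ 0) ∧ T.Pairwise (fun u v => u * v ≠ v * u) ∧
      ∀ t ∈ T₀, ∃ s ∈ T, ∃ k k' : F, k ≠ 0 ∧ t = Qt.sc k * s + Qt.sc k' := by
    induction T₀ with
    | nil => exact ⟨[], by simp, List.Pairwise.nil, by simp⟩
    | cons t T₀ ih =>
      obtain ⟨T, h1, h2, h3⟩ := ih (fun s hs => h₀ s (List.mem_cons_of_mem _ hs))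
      have ht : t.q ≠ 0 := h₀ t List.mem_cons_self
      by_cases hc : ∃ s ∈ T, t * s = s * t
      · obtain ⟨s, hs, hst⟩ := hc
        refine ⟨T, h1, h2, ?_⟩
        intro r hr
        rcases List.mem_cons.1 hr with rfl | hr
        · have hs' : ∀ k : F, s ≠ Qt.sc k := by
            rintro k rfl
            exact h1 _ hs rfl
          obtain ⟨k, k', hk⟩ := C.comm_iff hs' hst.symm
          refine ⟨s, hs, k, k', ?_, hk⟩
          rintro rfl
          apply ht
          rw [hk]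
          simp
        · exact h3 r hr
      · refine ⟨t :: T, ?_, ?_, ?_⟩
        · intro s hs
          rcases List.mem_cons.1 hs with rfl | hs
          · exact ht
          · exact h1 s hs
        · rw [List.pairwise_cons]
          exact ⟨fun s hs hst => hc ⟨s, hs, hst⟩, h2⟩
        · intro r hr
          rcases List.mem_cons.1 hr with rfl | hr
          · refine ⟨r, List.mem_cons_self, 1, 0, one_ne_zero, ?_⟩
            ext <;> simp
          · obtain ⟨s, hs, k, k', hk, h4⟩ := h3 r hr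
            exact ⟨s, List.mem_cons_of_mem _ hs, k, k', hk, h4⟩
  obtain ⟨T, h1, h2, h3⟩ := key
  exact ⟨T, h1, h2, C.M1_lin h1 h3, C.SgT_lin h1 h3⟩

/-- `l t` is a unit at the chosen point over `l s` if `s, t` do not commute. -/
private theorem v_zero {s t : Qt C} (hs : s.q ≠ 0) (h : s * t ≠ t * s) :
    (vPt (C.pu s)).v (C.l t) = 0 := by
  have hc := C.pu_ne hs
  have hp := C.pu_pos hs
  rcases (tl_nn C hc t).eq_or_lt with h1 | h1
  · exact h1.symm
  · exfalso
    obtain ⟨k, k', -, hk⟩ := C.commute_of_pos hc hp h1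
    apply h
    have h2 : s * Qt.sc k = Qt.sc k * s := tl_sc_comm C k s
    have h3 : s * Qt.sc k' = Qt.sc k' * s := tl_sc_comm C k' s
    rw [hk, mul_add, add_mul, h3, ← mul_assoc, h2, mul_assoc]

private theorem v_iF (c : AlgebraicClosure L) (x : F) : (vPt c).v ((C.iF x : C.K) : RatFunc L) = 0 :=
  (vPt_C c _).1

private theorem mk_zero {c : F} (w : Qt C) :
    (QuotientAddGroup.mk (S (C.iF c) (C.lK w)) : K2 C.K ⧸ C.Sg) = 0 :=
  (QuotientAddGroup.eq_zero_iff _).2 (AddSubgroup.subset_closure ⟨c, w, rfl⟩)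

private theorem sum_one {M : Type v} [AddCommGroup M] {T : List (Qt C)} (hT : T.Nodup)
    (f : Qt C → M) {t : Qt C} (ht : t ∈ T) (h : ∀ s ∈ T, s ≠ t → f s = 0) :
    (T.map f).sum = f t := by
  classical
  rw [← List.sum_toFinset _ hT, Finset.sum_eq_single_of_mem t (List.mem_toFinset.2 ht)]
  intro s hs
  exact h s (List.mem_toFinset.1 hs)

private theorem sum_two {M : Type v} [AddCommGroup M] {T : List (Qt C)} (hT : T.Nodup)
    (f : Qt C → M) {t t' : Qt C} (ht : t ∈ T) (ht' : t' ∈ T) (hn : t ≠ t')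
    (h : ∀ s ∈ T, s ≠ t → s ≠ t' → f s = 0) :
    (T.map f).sum = f t + f t' := by
  classical
  rw [← List.sum_toFinset _ hT, Finset.sum_eq_add_of_mem t t' (List.mem_toFinset.2 ht)
    (List.mem_toFinset.2 ht') hn]
  intro s hs h1
  exact h s (List.mem_toFinset.1 hs) h1.1 h1.2

private theorem sum_map_zero {M : Type v} [AddCommGroup M] {T : List (Qt C)}
    (f : Qt C → M) (h : ∀ s ∈ T, f s = 0) : (T.map f).sum = 0 := by
  apply List.sum_eq_zero
  intro x hx
  obtain ⟨s, hs, rfl⟩ := List.mem_map.1 hx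
  exact h s hs

private theorem pw_ne {T : List (Qt C)} (hT : T.Pairwise (fun u v => u * v ≠ v * u)) {s t : Qt C}
    (hs : s ∈ T) (ht : t ∈ T) (h : s ≠ t) : s * t ≠ t * s := by
  haveI : Std.Symm (fun u v : Qt C => u * v ≠ v * u) := ⟨fun u v huv => huv.symm⟩
  exact hT.forall hs ht h

private theorem pw_nodup {T : List (Qt C)} (hT : T.Pairwise (fun u v => u * v ≠ v * u)) :
    T.Nodup := hT.imp (fun {u v} h => by rintro rfl; exact h rfl)

private theorem iQ_gen {T : List (Qt C)} (h : ∀ t ∈ T, t.q ≠ 0)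
    (hT : T.Pairwise (fun u v => u * v ≠ v * u)) {x y : C.K} (hx : x ∈ C.gens T)
    (hy : y ∈ C.gens T) :
    Ext.iQ (QuotientAddGroup.mk (S x y) : K2 C.K ⧸ C.Sg) =
      (T.map fun t => C.Psi t (S x y)).sum + C.PsiInf (S x y) := by
  have hnd := C.pw_nodup hT
  -- constants and `l t`
  have hct : ∀ c : F, c ≠ 0 → ∀ t ∈ T, Ext.iQ (QuotientAddGroup.mk (S (C.iF c) (C.lK t)) :
      K2 C.K ⧸ C.Sg) = (T.map fun s => C.Psi s (S (C.iF c) (C.lK t))).sum +
        C.PsiInf (S (C.iF c) (C.lK t)) := by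
    intro c hc t ht
    rw [C.mk_zero, map_zero, C.sum_one hnd _ ht, C.gen_cu (h t ht) hc]
    intro s hs hst
    exact C.gen_zero (h s hs) (C.v_iF _ c) (C.v_zero (h s hs) (C.pw_ne hT hs ht hst))
  have hneg : ∀ m : K2 C.K, Ext.iQ (QuotientAddGroup.mk m : K2 C.K ⧸ C.Sg) =
      (T.map fun s => C.Psi s m).sum + C.PsiInf m →
      Ext.iQ (QuotientAddGroup.mk (-m) : K2 C.K ⧸ C.Sg) =
      (T.map fun s => C.Psi s (-m)).sum + C.PsiInf (-m) := by
    intro m hm
    have e1 : (QuotientAddGroup.mk (-m) : K2 C.K ⧸ C.Sg) = - QuotientAddGroup.mk m := rfl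
    have e2 : (T.map fun s => C.Psi s (-m)).sum = - (T.map fun s => C.Psi s m).sum := by
      rw [List.sum_neg, List.map_map]
      congr 1
      apply List.map_congr_left
      intro s _
      exact map_neg _ _
    rw [e1, map_neg, hm, e2, map_neg]
    abel
  rcases hx with ⟨c, hc, rfl⟩ | ⟨t, ht, rfl⟩
  · rcases hy with ⟨c', hc', rfl⟩ | ⟨t', ht', rfl⟩
    · have e1 : C.iF c' = C.lK (Qt.sc c' * Qt.qi C) := by
        apply Subtype.ext
        show RatFunc.C (algebraMap F L c') = C.l _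
        rw [C.l_sc_mul, C.l_qi, mul_one]
      have e2 : C.PsiInf (S (C.iF c) (C.iF c')) = 0 := by
        apply C.PsiInf_eq_zero
        rw [K2.map_S]
        exact (vInf L).tame_S_units (vInf_C _).1 (vInf_C _).1
      rw [e2, C.sum_map_zero _ (fun s hs => C.gen_zero (h s hs) (C.v_iF _ c) (C.v_iF _ c')), e1,
        C.mk_zero, map_zero, add_zero]
    · exact hct c hc t' ht'
  · rcases hy with ⟨c', hc', rfl⟩ | ⟨t', ht', rfl⟩
    · rw [S_comm]
      exact hneg _ (hct c' hc' t ht)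
    · by_cases htt : t = t'
      · subst htt
        have e1 : S (C.lK t) (C.lK t) = S (C.iF (-1)) (C.lK t) := by
          rw [S_self', map_neg, map_one]
        rw [e1]
        exact hct (-1) (neg_ne_zero.2 one_ne_zero) t ht
      · rw [C.sum_two hnd _ ht ht' htt]
        · exact (C.gen_uv (h t ht) (h t' ht') (C.pw_ne hT ht ht' htt)).symm
        · intro s hs h1 h2
          exact C.gen_zero (h s hs) (C.v_zero (h s hs) (C.pw_ne hT hs ht h1))
            (C.v_zero (h s hs) (C.pw_ne hT hs ht' h2))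

theorem iQ_sum {T : List (Qt C)} (h : ∀ t ∈ T, t.q ≠ 0)
    (hT : T.Pairwise (fun u v => u * v ≠ v * u)) {m : K2 C.K} (hm : m ∈ C.M1 T) :
    Ext.iQ (QuotientAddGroup.mk m : K2 C.K ⧸ C.Sg) = (T.map fun t => C.Psi t m).sum + C.PsiInf m := by
  have hlist : ∀ (T : List (Qt C)) (m : K2 C.K),
      (T.map fun t => C.Psi t).sum m = (T.map fun t => C.Psi t m).sum := by
    intro T m
    induction T with
    | nil => rfl
    | cons t T ih =>
      rw [List.map_cons, List.sum_cons, AddMonoidHom.add_apply, ih, List.map_cons, List.sum_cons]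
  let f : K2 C.K →+ Additive (Abelianization (Ext C)) := Ext.iQ.comp (QuotientAddGroup.mk' C.Sg)
  let g : K2 C.K →+ Additive (Abelianization (Ext C)) := (T.map fun t => C.Psi t).sum + C.PsiInf
  have hfg : Set.EqOn f g (C.M1 T) := by
    apply AddMonoidHom.eqOn_closure
    rintro m ⟨x, hx, y, hy, rfl⟩
    show Ext.iQ (QuotientAddGroup.mk (S x y) : K2 C.K ⧸ C.Sg) =
      ((T.map fun t => C.Psi t).sum + C.PsiInf) (S x y)
    rw [AddMonoidHom.add_apply, hlist]
    exact C.iQ_gen h hT hx hy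
  have h1 := hfg hm
  have h2 : g m = (T.map fun t => C.Psi t m).sum + C.PsiInf m := by
    show ((T.map fun t => C.Psi t).sum + C.PsiInf) m = _
    rw [AddMonoidHom.add_apply, hlist]
  rw [← h2, ← h1]
  rfl

theorem M1_unram {T : List (Qt C)} (h : ∀ t ∈ T, t.q ≠ 0)
    (hT : T.Pairwise (fun u v => u * v ≠ v * u)) {m : K2 C.K} (hm : m ∈ C.M1 T)
    (h1 : ∀ c : AlgebraicClosure L, c ≠ 0 → (vPt c).tame (K2.map C.iK m) = 0)
    (h2 : (vInf L).tame (K2.map C.iK m) = 0) : m ∈ C.Sg := by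
  have h3 := C.iQ_sum h hT hm
  rw [C.PsiInf_eq_zero h2, C.sum_map_zero _ (fun s hs => C.Psi_eq_zero (h s hs)
    (h1 _ (C.pu_ne (h s hs)))), add_zero] at h3
  exact (QuotientAddGroup.eq_zero_iff m).1 (Ext.iQ_inj h3)

private theorem exists_SgT {m : K2 C.K} (hm : m ∈ C.Sg) :
    ∃ T : List (Qt C), (∀ t ∈ T, t.q ≠ 0) ∧ m ∈ C.SgT T := by
  rw [Sg] at hm
  induction hm using AddSubgroup.closure_induction with
  | mem x hx =>
    obtain ⟨c, w, rfl⟩ := hx
    by_cases hc : c = 0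
    · exact ⟨[], by simp, by rw [hc, map_zero, S_zero_left]; exact zero_mem _⟩
    by_cases hw : w.q = 0
    · refine ⟨[], by simp, AddSubgroup.mem_sup_left ⟨S c (C.im w.p), ?_⟩⟩
      rw [K2.map_S, C.lK_L hw]
    · exact ⟨[w], by simpa using hw, AddSubgroup.mem_sup_right
        (AddSubgroup.subset_closure ⟨c, w, by simp, hc, rfl⟩)⟩
  | zero => exact ⟨[], by simp, zero_mem _⟩
  | add x y hx hy h1 h2 =>
    obtain ⟨T, hT, h1⟩ := h1
    obtain ⟨T', hT', h2⟩ := h2
    refine ⟨T ++ T', ?_, ?_⟩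
    · intro t ht
      rcases List.mem_append.1 ht with h | h
      · exact hT t h
      · exact hT' t h
    · exact add_mem (C.SgT_mono (fun t ht => List.mem_append_left _ ht) h1)
        (C.SgT_mono (fun t ht => List.mem_append_right _ ht) h2)
  | neg x hx h1 =>
    obtain ⟨T, hT, h1⟩ := h1
    exact ⟨T, hT, neg_mem h1⟩

private theorem SgT_tame {T : List (Qt C)} {s : Qt C} (hs : s.q ≠ 0)
    (hT : ∀ t ∈ T, s * t ≠ t * s) {m : K2 C.K} (hm : m ∈ C.SgT T) :
    (vPt (C.pu s)).tame (K2.map C.iK m) = 0 := by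
  have h1 : C.SgT T ≤ ((vPt (C.pu s)).tame.comp (K2.map C.iK)).ker := by
    apply sup_le
    · rintro _ ⟨κ, rfl⟩
      rw [AddMonoidHom.mem_ker]
      induction κ using K2_induction with
      | hS a b ha hb =>
        rw [K2.map_S, AddMonoidHom.comp_apply, K2.map_S]
        exact (vPt _).tame_S_units (C.v_iF _ a) (C.v_iF _ b)
      | hz => rw [map_zero, map_zero]
      | hadd x y hx hy => rw [map_add, map_add, hx, hy, add_zero]
    · rw [AddSubgroup.closure_le]
      rintro _ ⟨c, t, ht, hc, rfl⟩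
      rw [SetLike.mem_coe, AddMonoidHom.mem_ker, AddMonoidHom.comp_apply, K2.map_S]
      exact (vPt _).tame_S_units (C.v_iF _ c) (C.v_zero hs (hT t ht))
  exact (AddMonoidHom.mem_ker).1 (h1 hm)

private theorem SgT_cons {t : Qt C} {T : List (Qt C)} {m : K2 C.K} (hm : m ∈ C.SgT (t :: T)) :
    ∃ m' ∈ C.SgT T, ∃ c : F, c ≠ 0 ∧ m = m' + S (C.iF c) (C.lK t) := by
  have h1 : C.SgT (t :: T) ≤ AddSubgroup.closure
      ({m | ∃ c : F, c ≠ 0 ∧ m = S (C.iF c) (C.lK t)}) ⊔ C.SgT T := by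
    apply sup_le
    · exact le_trans le_sup_left le_sup_right
    · rw [AddSubgroup.closure_le]
      rintro _ ⟨c, s, hs, hc, rfl⟩
      rcases List.mem_cons.1 hs with rfl | hs
      · exact AddSubgroup.mem_sup_left (AddSubgroup.subset_closure ⟨c, hc, rfl⟩)
      · exact AddSubgroup.mem_sup_right (AddSubgroup.mem_sup_right
          (AddSubgroup.subset_closure ⟨c, s, hs, hc, rfl⟩))
  obtain ⟨a, ha, m', hm', rfl⟩ := AddSubgroup.mem_sup.1 (h1 hm)
  refine ⟨m', hm', ?_⟩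
  have h2 : ∃ c : F, c ≠ 0 ∧ a = S (C.iF c) (C.lK t) := by
    clear hm h1 hm' m'
    induction ha using AddSubgroup.closure_induction with
    | mem x hx => exact hx
    | zero => exact ⟨1, one_ne_zero, by rw [map_one, S_one_left]⟩
    | add x y hx hy h1 h2 =>
      obtain ⟨c, hc, rfl⟩ := h1
      obtain ⟨d, hd, rfl⟩ := h2
      exact ⟨c * d, mul_ne_zero hc hd, by
        rw [map_mul, S_mul_left (C.h0_iFne hc) (C.h0_iFne hd)]⟩
    | neg x hx h1 =>
      obtain ⟨c, hc, rfl⟩ := h1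
      exact ⟨c⁻¹, inv_ne_zero hc, by rw [map_inv₀, S_inv_left]⟩
  obtain ⟨c, hc, rfl⟩ := h2
  exact ⟨c, hc, add_comm _ _⟩

private theorem SgT_unram (T : List (Qt C)) : (∀ t ∈ T, t.q ≠ 0) →
    T.Pairwise (fun u v => u * v ≠ v * u) → ∀ m ∈ C.SgT T,
    (∀ c : AlgebraicClosure L, c ≠ 0 → (vPt c).tame (K2.map C.iK m) = 0) →
    ∃ κ : K2 F, K2.map C.iF κ = m := by
  induction T with
  | nil =>
    intro _ _ m hm _
    have h1 : C.SgT [] ≤ (K2.map C.iF).range := by
      apply sup_le le_rfl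
      rw [AddSubgroup.closure_le]
      rintro _ ⟨c, t, ht, -, -⟩
      simp at ht
    exact h1 hm
  | cons t T ih =>
    intro hq hT m hm h1
    obtain ⟨m', hm', c, hc, rfl⟩ := C.SgT_cons hm
    have ht : t.q ≠ 0 := hq t List.mem_cons_self
    rw [List.pairwise_cons] at hT
    have h2 := h1 _ (C.pu_ne ht)
    have hcL : algebraMap F L c ≠ 0 := (map_ne_zero _).2 hc
    have hcF : C.cF c ≠ 0 := (map_ne_zero _).2 hcL
    have h3 : (vPt (C.pu t)).tame (K2.map C.iK (S (C.iF c) (C.lK t))) =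
        - (vPt (C.pu t)).A (C.cF c) := by
      rw [K2.map_S]
      show (vPt (C.pu t)).tame (S (C.cF c) (C.l t)) = _
      rw [(vPt _).tame_S_right hcF (C.h0_lne ht) (tl_cF C _ c).1,
        (C.v_l_pos (C.pu_ne ht) (C.pu_pos ht)).2, one_zsmul]
    rw [map_add, map_add, C.SgT_tame ht hT.1 hm', zero_add, h3, neg_eq_zero,
      ← (vPt (C.pu t)).A_one, (vPt _).A_eq_iff hcF one_ne_zero, (tl_cF C _ c).2,
      (vPt _).ac_one] at h2
    have h4 : c = 1 := by
      apply C.algInj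
      apply (algebraMap L (AlgebraicClosure L)).injective
      rw [h2, map_one, map_one]
    subst h4
    rw [map_one, S_one_left, add_zero] at h1 ⊢
    exact ih (fun s hs => hq s (List.mem_cons_of_mem _ hs)) hT.2 m' hm' h1

theorem Sg_unram {m : K2 C.K} (hm : m ∈ C.Sg)
    (h1 : ∀ c : AlgebraicClosure L, c ≠ 0 → (vPt c).tame (K2.map C.iK m) = 0) :
    ∃ κ : K2 F, K2.map C.iF κ = m := by
  obtain ⟨T₀, hT₀, hm₀⟩ := C.exists_SgT hm
  obtain ⟨T, hT, hP, -, hS⟩ := C.good T₀ hT₀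
  exact C.SgT_unram T hT hP m (hS hm₀) h1

/-- Elements of `K₂` of the function field of the conic without residues are constant. -/
theorem h0 (m : K2 C.K)
    (h1 : ∀ c : AlgebraicClosure L, c ≠ 0 → (vPt c).tame (K2.map C.iK m) = 0)
    (h2 : (vInf L).tame (K2.map C.iK m) = 0) : ∃ κ : K2 F, K2.map C.iF κ = m := by
  obtain ⟨T₀, hT₀, hm₀⟩ := C.exists_M1 (C.unramK m h1)
  obtain ⟨T, hT, hP, hM, -⟩ := C.good T₀ hT₀
  exact C.Sg_unram (C.M1_unram hT hP (hM hm₀) h1 h2) h1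

end CQ

end Pool.Agent.MK
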