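import Pool.Agent.MK.K2Lem

/-! # Quadratic extensions, conics

`Quad F L`: `L/F` is a quadratic extension (characteristic not 2) with involution `s` and
a generator `α`, `s α = -α`, `α ^ 2 = a`.  `CQ F L` contains in addition an element `b` of `F` that
is not a norm from `L`. -/

set_option autoImplicit false
set_option linter.unusedSectionVars false

namespace Pool.Agent.MK

universe u v w

/-- A quadratic extension `L/F` with generator `α`, `α ^ 2 = a`, and involution `s`. -/
structure Quad (F : Type u) (L : Type v) [Field F] [Field L] [Algebra F L] where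
  /-- the involution -/
  s : L →+* L
  /-- the generator -/
  α : L
  /-- its square -/
  a : F
  two : (2 : F) ≠ 0
  α_ne : α ≠ 0
  s_α : s α = -α
  s_s : ∀ x, s (s x) = x
  s_alg : ∀ c : F, s (algebraMap F L c) = algebraMap F L c
  fix : ∀ x, s x = x → ∃ c : F, algebraMap F L c = x
  sq : α ^ 2 = algebraMap F L a

/-- A quadratic extension `L/F` and an element `b` of `F` that is not a norm from `L`. -/
structure CQ (F : Type u) (L : Type v) [Field F] [Field L] [Algebra F L] extends Quad F L where
  /-- the non-norm -/
  b : F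
  hN : ∀ y : L, y * s y ≠ algebraMap F L b

namespace Quad

variable {F : Type u} {L : Type v} [Field F] [Field L] [Algebra F L] (q : Quad F L)

include q

theorem twoL : (2 : L) ≠ 0 := by
  have := (map_ne_zero (algebraMap F L)).mpr q.two
  rwa [map_ofNat] at this

/-- the norm `L → F` -/
noncomputable def N (x : L) : F := (q.fix (x * q.s x) (by rw [map_mul, q.s_s, mul_comm])).choose

theorem N_spec (x : L) : algebraMap F L (q.N x) = x * q.s x :=
  (q.fix (x * q.s x) (by rw [map_mul, q.s_s, mul_comm])).choose_spec

theorem algInj : Function.Injective (algebraMap F L) := (algebraMap F L).injective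

theorem N_mul (x y : L) : q.N (x * y) = q.N x * q.N y := by
  apply q.algInj
  rw [map_mul, N_spec, N_spec, N_spec, map_mul]
  ring

theorem N_one : q.N 1 = 1 := by
  apply q.algInj
  rw [N_spec, map_one, map_one, one_mul]

theorem N_zero : q.N 0 = 0 := by
  apply q.algInj
  rw [N_spec, map_zero, map_zero, zero_mul]

theorem N_ne {x : L} (hx : x ≠ 0) : q.N x ≠ 0 := by
  intro h
  have h1 := q.N_spec x
  rw [h, map_zero] at h1
  rcases mul_eq_zero.mp h1.symm with h2 | h2
  · exact hx h2
  · exact hx ((map_eq_zero q.s).mp h2)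

theorem N_alg (c : F) : q.N (algebraMap F L c) = c ^ 2 := by
  apply q.algInj
  rw [N_spec, q.s_alg, map_pow, pow_two]

theorem N_inv (x : L) : q.N x⁻¹ = (q.N x)⁻¹ := by
  apply q.algInj
  rw [N_spec, map_inv₀, map_inv₀, N_spec, mul_inv]

theorem N_div (x y : L) : q.N (x / y) = q.N x / q.N y := by
  rw [div_eq_mul_inv, N_mul, N_inv, div_eq_mul_inv]

theorem N_s (x : L) : q.N (q.s x) = q.N x := by
  apply q.algInj
  rw [N_spec, N_spec, q.s_s, mul_comm]

/-- the rational part of an element of `L` -/
noncomputable def re (x : L) : F := (q.fix ((x + q.s x) / 2) (by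
  rw [map_div₀, map_add, q.s_s, map_ofNat, add_comm])).choose

/-- the coefficient of `α` of an element of `L` -/
noncomputable def im (x : L) : F := (q.fix ((x - q.s x) / (2 * q.α)) (by
  rw [map_div₀, map_sub, q.s_s, map_mul, map_ofNat, q.s_α, mul_neg, div_neg, ← neg_div,
    neg_sub])).choose

theorem re_spec (x : L) : algebraMap F L (q.re x) = (x + q.s x) / 2 :=
  (q.fix ((x + q.s x) / 2) (by
    rw [map_div₀, map_add, q.s_s, map_ofNat, add_comm])).choose_spec

theorem im_spec (x : L) : algebraMap F L (q.im x) = (x - q.s x) / (2 * q.α) :=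
  (q.fix ((x - q.s x) / (2 * q.α)) (by
    rw [map_div₀, map_sub, q.s_s, map_mul, map_ofNat, q.s_α, mul_neg, div_neg, ← neg_div,
      neg_sub])).choose_spec

theorem decomp (x : L) : x = algebraMap F L (q.re x) + algebraMap F L (q.im x) * q.α := by
  have h2 := q.twoL
  have hα := q.α_ne
  rw [re_spec, im_spec]
  field_simp
  ring

/-- `α` is not in `F`. -/
theorem α_not (c : F) : algebraMap F L c ≠ q.α := by
  intro h
  have h1 := q.s_alg c
  rw [h, q.s_α] at h1
  have h2 : (2 : L) * q.α = 0 := by linear_combination -h1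
  exact (mul_ne_zero q.twoL q.α_ne) h2

theorem coord_inj {c d c' d' : F} (h : algebraMap F L c + algebraMap F L d * q.α =
    algebraMap F L c' + algebraMap F L d' * q.α) : c = c' ∧ d = d' := by
  have h1 := congrArg q.s h
  simp only [map_add, map_mul, q.s_alg, q.s_α] at h1
  have h2 : (2 : L) * algebraMap F L c = 2 * algebraMap F L c' := by linear_combination h + h1
  have h3 : (2 : L) * q.α * algebraMap F L d = 2 * q.α * algebraMap F L d' := by
    linear_combination h - h1
  exact ⟨q.algInj (mul_left_cancel₀ q.twoL h2),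
    q.algInj (mul_left_cancel₀ (mul_ne_zero q.twoL q.α_ne) h3)⟩

/-- Hilbert 90. -/
theorem hilbert90 {x : L} (h : x * q.s x = 1) : ∃ y : L, y ≠ 0 ∧ x = y / q.s y := by
  by_cases h1 : x = -1
  · refine ⟨q.α, q.α_ne, ?_⟩
    rw [q.s_α, h1, div_neg, div_self q.α_ne]
  · have h2 : 1 + x ≠ 0 := fun h3 => h1 (by linear_combination h3)
    refine ⟨1 + x, h2, ?_⟩
    have h3 : q.s (1 + x) ≠ 0 := (map_ne_zero q.s).mpr h2
    rw [eq_div_iff h3, map_add, map_one]
    linear_combination h

end Quad

namespace CQ

variable {F : Type u} {L : Type v} [Field F] [Field L] [Algebra F L] (C : CQ F L)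

include C

theorem b_ne : C.b ≠ 0 := by
  intro h
  apply C.hN 0
  rw [h, map_zero, map_zero, zero_mul]

theorem not_norm (y : L) : C.N y ≠ C.b := by
  intro h
  apply C.hN y
  rw [← h, C.N_spec]

/-- `b` as an element of `L` -/
abbrev bL : L := algebraMap F L C.b

theorem bL_ne : C.bL ≠ 0 := (map_ne_zero _).mpr C.b_ne

theorem s_bL : C.s C.bL = C.bL := C.s_alg _

end CQ

/-- The subfield fixed by an involution. -/
def fixedField {M : Type u} [Field M] (s : M →+* M) : Subfield M where
  carrier := {x | s x = x}
  mul_mem' := by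
    intro x y hx hy
    change s x = x at hx; change s y = y at hy; change s _ = _
    rw [map_mul, hx, hy]
  one_mem' := map_one s
  add_mem' := by
    intro x y hx hy
    change s x = x at hx; change s y = y at hy; change s _ = _
    rw [map_add, hx, hy]
  zero_mem' := map_zero s
  neg_mem' := by
    intro x hx
    change s x = x at hx; change s _ = _
    rw [map_neg, hx]
  inv_mem' := by
    intro x hx
    change s x = x at hx; change s _ = _
    rw [map_inv₀, hx]

/-- The quadratic extension defined by an involution of a field. -/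
noncomputable def Quad.ofInvol {M : Type u} [Field M] (s : M →+* M) (α : M) (h2 : (2 : M) ≠ 0)
    (hα : α ≠ 0) (hsα : s α = -α) (hs : ∀ x, s (s x) = x) : Quad (fixedField s) M where
  s := s
  α := α
  a := ⟨α ^ 2, by
    show s (α ^ 2) = α ^ 2
    rw [map_pow, hsα, neg_sq]⟩
  two := by
    intro h
    apply h2
    have := congrArg (fixedField s).subtype h
    rwa [map_ofNat, map_zero] at this
  α_ne := hα
  s_α := hsα
  s_s := hs
  s_alg c := c.2
  fix x hx := ⟨⟨x, hx⟩, rfl⟩
  sq := rfl

end Pool.Agent.MK
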