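import Pool.Agent.MK.NormA
import Pool.Agent.MK.Quad

/-! # The norm `K₂(L) → K₂(F)` for a quadratic extension

PROOF of `exists_nm`.  Write `{x, y} = S x y`, and identify `F` with its image in `L`.
For `x ∉ F` put `n = N x`, `t ∈ F` with `t = x + s x` (`t = 2 re x`); so `x² - t x + n = 0` and
`f(r) = r² - t r + n = N (x - r) ≠ 0` for `r ∈ F`.  Every `y ∈ Lˣ` is either `c ∈ Fˣ` or of the form
`c (x - r)` with unique `c ∈ Fˣ`, `r ∈ F` (use `decomp`, `coord_inj`: `1, x` is a basis).
Define `g(x, y)` (for `x, y ≠ 0`):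
 - `x = c ∈ F`: `g(x,y) = {c, N y}`;
 - `x ∉ F`, `y = c ∈ F`: `g(x,y) = {n, c}`;
 - `x ∉ F`, `y = c (x - r)`: `g(x,y) = {n, c} + GN t n r`.
(a) `g(x, y y') = g(x,y) + g(x,y')`: clear for `x ∈ F`.  For `x ∉ F`: if `y ∈ F` or `y' ∈ F` clear;
  otherwise `y y' = c c' (x - r)(x - r') = c c' ((t - r - r') x - (n - r r'))`, and this is `GN_add`
  (`t - r - r' ≠ 0`) or `GN_add'` (`t = r + r'`).
(b) (formula) if `α x + β y = 1` with `α, β ∈ F` then `g(x,y) = -2 {α,β} - {α, N y} - {N x, β}`.
  `x = c ∈ F`, `β ≠ 0`: then `y ∈ F` and `g = {c, y²} = 2 {c, y}`; if `α ≠ 0`: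
  `0 = {α c, β y} = {α,β} + {α,y} + {c,β} + {c,y}`; twice this gives the formula (`N c = c²`,
  `N y = y²`).  If `α = 0`: `y = β⁻¹` and the formula reads `-{c², β} = 2 {c, y}`.
  `β = 0`: `x = α⁻¹ ∈ F`, formula `-{α, N y} = {x, N y}`.
  `x ∉ F`, `β ≠ 0`: if `α = 0`, `y = β⁻¹`: `{n, β⁻¹}`.  If `α ≠ 0`: `y = -(α/β) (x - 1/α)`,
  `g = {n, -α/β} + {1/α, f(1/α)} + {n, -1/α} = {n, 1/β} - {α, f(1/α)}` and `N y = (α/β)² f(1/α)`, so
  `{α, f(1/α)} = {α, N y} - 2 {α, α} + 2 {α, β} = {α, N y} + 2 {α, β}`.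
(c) `g(x,y) = -g(y,x)`.  If `x ∈ F` or `y ∈ F`: clear (both in `F`: `{c, d²} + {d, c²} = 0`).  If
  `x, y ∉ F` and `y = c x`: `g(x,y) = {n, -c}`, `g(y,x) = {c² n, -1/c} = -{n,-c} - 2 {c,-c}`.
  If `y = c (x - r)`, `r ≠ 0`: then `(1/r) x + (-1/(r c)) y = 1` and (b) for both orders.
(d) Steinberg: `x + y = 1`: (b) with `α = β = 1`.
So `K2.lift g` exists.  The first property is (b), the second is `g(x, c) = {N x, c}` (for `x = d ∈ F`:
`{d, c²} = {d², c}`).

* `nm_map`: for `c, d ∈ Fˣ`: `nm {c, d} = {N c, d} = {c², d} = 2 {c, d}`.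
* `map_nm`: for a symbol `{x, y}`: there are `α, β ∈ F` with `α x + β y = 1` or `y = c x` with `c ∈ F`
  (if `x, y` are linearly independent over `F` they span `L`).  In the first case
  `{x,y} = -{α,β} - {α,y} - {x,β}` in `K₂(L)` (also if `α = 0` or `β = 0` with the convention
  `S 0 _ = 0`) and the same for `s x, s y`; add.  In the second case `{x, c x} = {x, -c}`.
* `gen_FL`: same formulas.
-/

set_option autoImplicit false

namespace Pool.Agent.MK

universe u v

namespace Quad

variable {F : Type u} {L : Type u} [Field F] [Field L] [Algebra F L] (q : Quad F L)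

/-- In any field: `{x, y} = -{a, b} - {a, y} - {x, b}` if `a x + b y = 1`. -/
theorem S_lin {E : Type v} [Field E] {x y a b : E} (hx : x ≠ 0) (hy : y ≠ 0)
    (h : a * x + b * y = 1) : S x y = -S a b - S a y - S x b := by
  by_cases ha : a = 0
  · rw [ha, zero_mul, zero_add] at h
    have hb : b = y⁻¹ := eq_inv_of_mul_eq_one_left h
    rw [ha, S_zero_left, S_zero_left, hb, S_inv_right]
    abel
  by_cases hb : b = 0
  · rw [hb, zero_mul, add_zero] at h
    have ha : a = x⁻¹ := eq_inv_of_mul_eq_one_left h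
    rw [hb, S_zero_right, S_zero_right, ha, S_inv_left]
    abel
  have e := S_of_add_eq_one h
  rw [S_mul_left ha hx, S_mul_right hb hy, S_mul_right hb hy] at e
  linear_combination (norm := module) e

/-- The trace. -/
noncomputable def tr (x : L) : F := 2 * q.re x

theorem tr_spec (x : L) : algebraMap F L (q.tr x) = x + q.s x := by
  have h2 := q.twoL
  rw [tr, map_mul, map_ofNat, q.re_spec]
  field_simp

theorem re_alg (c : F) : q.re (algebraMap F L c) = c := by
  apply q.algInj
  have h2 := q.twoL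
  rw [q.re_spec, q.s_alg]
  field_simp
  ring

theorem im_alg (c : F) : q.im (algebraMap F L c) = 0 := by
  apply q.algInj
  rw [q.im_spec, q.s_alg, sub_self, zero_div, map_zero]

theorem im_lin (x : L) (c r : F) : q.im (algebraMap F L c * (x - algebraMap F L r)) =
    c * q.im x := by
  apply q.algInj
  rw [map_mul, q.im_spec, q.im_spec]
  simp only [map_mul, map_sub, q.s_alg]
  ring

theorem re_lin (x : L) (c r : F) : q.re (algebraMap F L c * (x - algebraMap F L r)) =
    c * (q.re x - r) := by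
  apply q.algInj
  have h2 := q.twoL
  rw [q.re_spec, map_mul (algebraMap F L), map_sub (algebraMap F L), q.re_spec]
  simp only [map_mul, map_sub, q.s_alg]
  field_simp
  ring

theorem eq_alg_of_im {x : L} (h : q.im x = 0) : x = algebraMap F L (q.re x) := by
  conv_lhs => rw [q.decomp x]
  rw [h, map_zero, zero_mul, add_zero]

/-- Every `y` is in `F` or of the form `c (x - r)`. -/
theorem lin_cases {x : L} (hx : q.im x ≠ 0) {y : L} (hy : y ≠ 0) :
    (∃ c : F, c ≠ 0 ∧ y = algebraMap F L c) ∨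
    (∃ c r : F, c ≠ 0 ∧ y = algebraMap F L c * (x - algebraMap F L r)) := by
  by_cases hy0 : q.im y = 0
  · left
    refine ⟨q.re y, ?_, q.eq_alg_of_im hy0⟩
    intro h
    apply hy
    rw [q.eq_alg_of_im hy0, h, map_zero]
  · right
    refine ⟨q.im y / q.im x, q.re x - q.re y * q.im x / q.im y, div_ne_zero hy0 hx, ?_⟩
    have hx' : algebraMap F L (q.im x) ≠ 0 := (map_ne_zero _).mpr hx
    have hy' : algebraMap F L (q.im y) ≠ 0 := (map_ne_zero _).mpr hy0
    conv_lhs => rw [q.decomp y]
    conv_rhs => rw [q.decomp x]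
    have e1 : q.re (algebraMap F L (q.re x) + algebraMap F L (q.im x) * q.α) = q.re x := by
      rw [← q.decomp x]
    have e2 : q.im (algebraMap F L (q.re x) + algebraMap F L (q.im x) * q.α) = q.im x := by
      rw [← q.decomp x]
    rw [e1, e2, map_sub, map_div₀, map_div₀, map_mul]
    field_simp
    ring

theorem N_lin (x : L) (r : F) : q.N (x - algebraMap F L r) = r ^ 2 - q.tr x * r + q.N x := by
  apply q.algInj
  simp only [q.N_spec, map_add, map_sub, map_mul, map_pow, q.tr_spec, q.s_alg]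
  ring

theorem f_ne {x : L} (hx : q.im x ≠ 0) (r : F) : r ^ 2 - q.tr x * r + q.N x ≠ 0 := by
  rw [← q.N_lin]
  apply q.N_ne
  intro h
  apply hx
  rw [sub_eq_zero.mp h, q.im_alg]

theorem quad_eq (x : L) : x ^ 2 = algebraMap F L (q.tr x) * x - algebraMap F L (q.N x) := by
  rw [q.tr_spec, q.N_spec]
  ring

open Classical in
/-- The norm of the symbol `{x, y}`. -/
noncomputable def gN (x y : L) : K2 F :=
  if q.im x = 0 then S (q.re x) (q.N y) else
    if q.im y = 0 then S (q.N x) (q.re y) else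
      S (q.N x) (q.im y / q.im x) + GN (q.tr x) (q.N x) (q.re x - q.re y * q.im x / q.im y)

theorem gN_F (c : F) (y : L) : q.gN (algebraMap F L c) y = S c (q.N y) := by
  rw [gN, if_pos (q.im_alg c), q.re_alg]

theorem gN_c {x : L} (hx : q.im x ≠ 0) (c : F) :
    q.gN x (algebraMap F L c) = S (q.N x) c := by
  rw [gN, if_neg hx, if_pos (q.im_alg c), q.re_alg]

theorem gN_lin {x : L} (hx : q.im x ≠ 0) {c : F} (hc : c ≠ 0) (r : F) :
    q.gN x (algebraMap F L c * (x - algebraMap F L r)) =
      S (q.N x) c + GN (q.tr x) (q.N x) r := by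
  have h1 : c * q.im x ≠ 0 := mul_ne_zero hc hx
  rw [gN, if_neg hx, q.im_lin, q.re_lin, if_neg h1]
  congr 2
  · field_simp
  · field_simp
    ring

theorem x_ne {x : L} (hx : q.im x ≠ 0) : x ≠ 0 := by
  intro h
  apply hx
  have := q.im_alg 0
  rwa [map_zero, ← h] at this

theorem gN_mul_right {x y y' : L} (hy : y ≠ 0) (hy' : y' ≠ 0) :
    q.gN x (y * y') = q.gN x y + q.gN x y' := by
  by_cases hx : q.im x = 0
  · rw [q.eq_alg_of_im hx, gN_F, gN_F, gN_F, q.N_mul, S_mul_right (q.N_ne hy) (q.N_ne hy')]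
  rcases q.lin_cases hx hy with ⟨c, hc, rfl⟩ | ⟨c, r, hc, rfl⟩
  · rcases q.lin_cases hx hy' with ⟨c', hc', rfl⟩ | ⟨c', r', hc', rfl⟩
    · rw [← map_mul, q.gN_c hx, q.gN_c hx, q.gN_c hx, S_mul_right hc hc']
    · rw [← mul_assoc, ← map_mul, q.gN_lin hx (mul_ne_zero hc hc'), q.gN_c hx,
        q.gN_lin hx hc', S_mul_right hc hc']
      abel
  · rcases q.lin_cases hx hy' with ⟨c', hc', rfl⟩ | ⟨c', r', hc', rfl⟩
    · rw [mul_right_comm, ← map_mul, q.gN_lin hx (mul_ne_zero hc hc'), q.gN_c hx,
        q.gN_lin hx hc, S_mul_right hc hc']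
      abel
    · rw [q.gN_lin hx hc, q.gN_lin hx hc']
      by_cases hq : q.tr x - r - r' = 0
      · have ht : q.tr x = r + r' := by linear_combination hq
        have hne : r * r' - q.N x ≠ 0 := by
          have := q.f_ne hx r
          rw [ht] at this
          intro h0
          apply this
          linear_combination -h0
        have e : algebraMap F L c * (x - algebraMap F L r) *
            (algebraMap F L c' * (x - algebraMap F L r')) =
            algebraMap F L (c * c' * (r * r' - q.N x)) := by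
          have h1 := q.quad_eq x
          rw [ht] at h1
          simp only [map_mul, map_sub, map_add] at h1 ⊢
          linear_combination (algebraMap F L c * algebraMap F L c') * h1
        rw [e, q.gN_c hx, S_mul_right (mul_ne_zero hc hc') hne, S_mul_right hc hc',
          ← GN_add' (q.tr x) (q.N x) (q.f_ne hx) r r' ht]
        abel
      · have e : algebraMap F L c * (x - algebraMap F L r) *
            (algebraMap F L c' * (x - algebraMap F L r')) =
            algebraMap F L (c * c' * (q.tr x - r - r')) *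
              (x - algebraMap F L ((q.N x - r * r') / (q.tr x - r - r'))) := by
          have h1 := q.quad_eq x
          have hq' : algebraMap F L (q.tr x) - algebraMap F L r - algebraMap F L r' ≠ 0 := by
            rw [← map_sub, ← map_sub]
            exact (map_ne_zero _).mpr hq
          simp only [map_mul, map_sub, map_div₀]
          field_simp
          linear_combination (algebraMap F L c * algebraMap F L c') * h1
        rw [e, q.gN_lin hx (mul_ne_zero (mul_ne_zero hc hc') hq),
          S_mul_right (mul_ne_zero hc hc') hq, S_mul_right hc hc']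
        have h2 := GN_add (q.tr x) (q.N x) (q.f_ne hx) r r' hq
        linear_combination (norm := module) -h2

theorem gN_formula {x y : L} (hx : x ≠ 0) (hy : y ≠ 0) {a b : F}
    (h : algebraMap F L a * x + algebraMap F L b * y = 1) :
    q.gN x y = -((2 : ℤ) • S a b) - S a (q.N y) - S (q.N x) b := by
  by_cases hxF : q.im x = 0
  · obtain ⟨c, rfl⟩ : ∃ c, x = algebraMap F L c := ⟨_, q.eq_alg_of_im hxF⟩
    have hc : c ≠ 0 := fun h0 => hx (by rw [h0, map_zero])
    rw [gN_F]
    by_cases hb : b = 0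
    · rw [hb, map_zero, zero_mul, add_zero, ← map_mul] at h
      have h1 : a * c = 1 := q.algInj (by rw [h, map_one])
      have ha : a = c⁻¹ := eq_inv_of_mul_eq_one_left h1
      rw [hb, S_zero_right, S_zero_right, ha, S_inv_left]
      module
    · have hb' : algebraMap F L b ≠ 0 := (map_ne_zero _).mpr hb
      obtain ⟨d, rfl⟩ : ∃ d, y = algebraMap F L d := by
        refine ⟨(1 - a * c) / b, ?_⟩
        rw [map_div₀, map_sub, map_one, map_mul, eq_div_iff hb']
        linear_combination h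
      have hd : d ≠ 0 := fun h0 => hy (by rw [h0, map_zero])
      have h1 : a * c + b * d = 1 := q.algInj (by rw [map_add, map_mul, map_mul, h, map_one])
      rw [q.N_alg, q.N_alg, S_pow_right, S_pow_right, S_pow_left, S_lin hc hd h1]
      module
  · by_cases hb : b = 0
    · exfalso
      apply hxF
      rw [hb, map_zero, zero_mul, add_zero] at h
      have h1 : x = algebraMap F L a⁻¹ := by
        rw [map_inv₀]
        exact eq_inv_of_mul_eq_one_right h
      rw [h1, q.im_alg]
    have hb' : algebraMap F L b ≠ 0 := (map_ne_zero _).mpr hb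
    by_cases ha : a = 0
    · rw [ha, map_zero, zero_mul, zero_add] at h
      have h1 : y = algebraMap F L b⁻¹ := by
        rw [map_inv₀]
        exact eq_inv_of_mul_eq_one_right h
      rw [h1, q.gN_c hxF, ha, S_zero_left, S_zero_left, S_inv_right]
      module
    · have ha' : algebraMap F L a ≠ 0 := (map_ne_zero _).mpr ha
      have h1 : y = algebraMap F L (-a / b) * (x - algebraMap F L a⁻¹) := by
        rw [map_div₀, map_neg, map_inv₀]
        field_simp
        linear_combination h
      have hc : -a / b ≠ 0 := div_ne_zero (neg_ne_zero.mpr ha) hb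
      have hNx := q.N_ne hx
      have hf := q.f_ne hxF a⁻¹
      have e1 : q.N y = (-a / b) ^ 2 * (a⁻¹ ^ 2 - q.tr x * a⁻¹ + q.N x) := by
        rw [h1, q.N_mul, q.N_alg, q.N_lin]
      have e2 : q.gN x y = S (q.N x) (-a / b) + GN (q.tr x) (q.N x) a⁻¹ := by
        rw [h1, q.gN_lin hxF hc]
      rw [e2, e1, GN, if_neg (inv_ne_zero ha), S_inv_left, S_mul_right (pow_ne_zero 2 hc) hf,
        S_pow_right, S_div_right (neg_ne_zero.mpr ha) hb, S_div_right (neg_ne_zero.mpr ha) hb,
        S_neg_self, show -a⁻¹ = (-a)⁻¹ by rw [inv_neg], S_inv_right]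
      module

theorem gN_comm {x y : L} (hx : x ≠ 0) (hy : y ≠ 0) : q.gN x y = - q.gN y x := by
  by_cases hxF : q.im x = 0
  · obtain ⟨c, rfl⟩ : ∃ c, x = algebraMap F L c := ⟨_, q.eq_alg_of_im hxF⟩
    by_cases hyF : q.im y = 0
    · obtain ⟨d, rfl⟩ : ∃ d, y = algebraMap F L d := ⟨_, q.eq_alg_of_im hyF⟩
      rw [gN_F, gN_F, q.N_alg, q.N_alg, S_pow_right, S_pow_right, S_comm c d, smul_neg]
    · rw [gN_F, q.gN_c hyF, ← S_comm]
  · rcases q.lin_cases hxF hy with ⟨c, hc, rfl⟩ | ⟨c, r, hc, hyc⟩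
    · rw [q.gN_c hxF, gN_F, ← S_comm]
    · have hyF : q.im y ≠ 0 := by
        rw [hyc, q.im_lin]
        exact mul_ne_zero hc hxF
      by_cases hr : r = 0
      · rw [hr] at hyc
        have hc' : algebraMap F L c ≠ 0 := (map_ne_zero _).mpr hc
        have hxy : x = algebraMap F L c⁻¹ * (y - algebraMap F L 0) := by
          rw [hyc, map_zero, map_inv₀]
          field_simp
          ring
        have e1 : q.gN x y = S (q.N x) c + S (q.N x) (-1) := by
          rw [hyc, q.gN_lin hxF hc, GN, if_pos rfl]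
        have e2 : q.gN y x = S (q.N y) c⁻¹ + S (q.N y) (-1) := by
          conv_lhs => rw [hxy]
          rw [q.gN_lin hyF (inv_ne_zero hc), GN, if_pos rfl]
        have e3 : q.N y = c ^ 2 * q.N x := by
          rw [hyc, map_zero, sub_zero, q.N_mul, q.N_alg]
        have hNx := q.N_ne hx
        have e4 := two_S_neg_one_right (q.N x)
        have e5 := two_S_neg_one_right c
        rw [e1, e2, e3, S_inv_right, S_mul_left (pow_ne_zero 2 hc) hNx,
          S_mul_left (pow_ne_zero 2 hc) hNx, S_pow_left, S_pow_left, S_self c]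
        linear_combination (norm := module) e4
      · have hc' : algebraMap F L c ≠ 0 := (map_ne_zero _).mpr hc
        have hr' : algebraMap F L r ≠ 0 := (map_ne_zero _).mpr hr
        have h1 : algebraMap F L r⁻¹ * x + algebraMap F L (-(r * c)⁻¹) * y = 1 := by
          rw [hyc, map_neg, map_inv₀, map_inv₀, map_mul]
          field_simp
          ring
        have h2 : algebraMap F L (-(r * c)⁻¹) * y + algebraMap F L r⁻¹ * x = 1 := by
          rw [add_comm, h1]
        rw [q.gN_formula hx hy h1, q.gN_formula hy hx h2, S_comm (-(r * c)⁻¹) r⁻¹,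
          S_comm (-(r * c)⁻¹) (q.N x), S_comm (q.N y) r⁻¹]
        module

theorem gN_mul_left {x x' y : L} (hx : x ≠ 0) (hx' : x' ≠ 0) (hy : y ≠ 0) :
    q.gN (x * x') y = q.gN x y + q.gN x' y := by
  rw [q.gN_comm (mul_ne_zero hx hx') hy, q.gN_mul_right hx hx', q.gN_comm hx hy,
    q.gN_comm hx' hy]
  abel

theorem exists_nm : ∃ φ : K2 L →+ K2 F,
    (∀ (x y : L) (α β : F), x ≠ 0 → y ≠ 0 →
      algebraMap F L α * x + algebraMap F L β * y = 1 →
      φ (S x y) = -((2 : ℤ) • S α β) - S α (q.N y) - S (q.N x) β) ∧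
    (∀ (x : L) (c : F), x ≠ 0 → c ≠ 0 → φ (S x (algebraMap F L c)) = S (q.N x) c) := by
  refine ⟨K2.lift q.gN (fun a b c ha hb hc => q.gN_mul_left ha hb hc)
    (fun a b c _ hb hc => q.gN_mul_right hb hc) ?_, ?_, ?_⟩
  · intro a b ha hb h
    have h1 : algebraMap F L 1 * a + algebraMap F L 1 * b = 1 := by
      rw [map_one, one_mul, one_mul, h]
    rw [q.gN_formula ha hb h1, S_one_left, S_one_left, S_one_right]
    module
  · intro x y a b hx hy h
    rw [K2.lift_S _ _ _ _ hx hy, q.gN_formula hx hy h]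
  · intro x c hx hc
    rw [K2.lift_S _ _ _ _ hx ((map_ne_zero _).mpr hc)]
    by_cases hxF : q.im x = 0
    · obtain ⟨d, rfl⟩ : ∃ d, x = algebraMap F L d := ⟨_, q.eq_alg_of_im hxF⟩
      rw [gN_F, q.N_alg, q.N_alg, S_pow_right, S_pow_left]
    · rw [q.gN_c hxF]

/-- The norm `K₂(L) → K₂(F)`. -/
noncomputable def nm : K2 L →+ K2 F := q.exists_nm.choose

theorem nm_S (x y : L) (α β : F) (hx : x ≠ 0) (hy : y ≠ 0)
    (h : algebraMap F L α * x + algebraMap F L β * y = 1) :
    q.nm (S x y) = -((2 : ℤ) • S α β) - S α (q.N y) - S (q.N x) β :=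
  q.exists_nm.choose_spec.1 x y α β hx hy h

theorem nm_proj (x : L) (c : F) (hx : x ≠ 0) (hc : c ≠ 0) :
    q.nm (S x (algebraMap F L c)) = S (q.N x) c :=
  q.exists_nm.choose_spec.2 x c hx hc

theorem nm_map (x : K2 F) : q.nm (K2.map (algebraMap F L) x) = (2 : ℤ) • x := by
  induction x using K2_induction with
  | hS a b ha hb =>
    rw [K2.map_S, q.nm_proj _ _ ((map_ne_zero _).mpr ha) hb, q.N_alg, S_pow_left]
    module
  | hz => simp
  | hadd x y hx hy => rw [map_add, map_add, hx, hy, smul_add]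

include q in
/-- Either `a x + b y = 1` or `y = c x`. -/
theorem sym_cases {x y : L} (hx : x ≠ 0) (hy : y ≠ 0) :
    (∃ a b : F, algebraMap F L a * x + algebraMap F L b * y = 1) ∨
    (∃ c : F, c ≠ 0 ∧ y = algebraMap F L c * x) := by
  by_cases hxF : q.im x = 0
  · obtain ⟨d, rfl⟩ : ∃ d, x = algebraMap F L d := ⟨_, q.eq_alg_of_im hxF⟩
    left
    refine ⟨d⁻¹, 0, ?_⟩
    rw [map_zero, zero_mul, add_zero, map_inv₀, inv_mul_cancel₀ hx]
  · rcases q.lin_cases hxF hy with ⟨c, hc, rfl⟩ | ⟨c, r, hc, hyc⟩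
    · left
      refine ⟨0, c⁻¹, ?_⟩
      rw [map_zero, zero_mul, zero_add, map_inv₀, inv_mul_cancel₀ hy]
    · have hc' : algebraMap F L c ≠ 0 := (map_ne_zero _).mpr hc
      by_cases hr : r = 0
      · right
        refine ⟨c, hc, ?_⟩
        rw [hyc, hr, map_zero, sub_zero]
      · left
        have hr' : algebraMap F L r ≠ 0 := (map_ne_zero _).mpr hr
        refine ⟨r⁻¹, -(r * c)⁻¹, ?_⟩
        rw [hyc, map_neg, map_inv₀, map_inv₀, map_mul]
        field_simp
        ring

/-- `{x, c x} = {x, -c}`. -/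
theorem S_prop {E : Type v} [Field E] {x c : E} (hx : x ≠ 0) (hc : c ≠ 0) :
    S x (c * x) = S x (-c) := by
  rw [S_mul_right hc hx, S_neg_right _ _ hc, S_self]
  abel

theorem map_nm (x : K2 L) : K2.map (algebraMap F L) (q.nm x) = x + K2.map q.s x := by
  induction x using K2_induction with
  | hS x y hx hy =>
    have hsx : q.s x ≠ 0 := (map_ne_zero q.s).mpr hx
    have hsy : q.s y ≠ 0 := (map_ne_zero q.s).mpr hy
    rcases q.sym_cases hx hy with ⟨a, b, h⟩ | ⟨c, hc, hyc⟩
    · have h' : algebraMap F L a * q.s x + algebraMap F L b * q.s y = 1 := by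
        have := congrArg q.s h
        rwa [map_add, map_mul, map_mul, q.s_alg, q.s_alg, map_one] at this
      rw [q.nm_S x y a b hx hy h, map_sub, map_sub, map_neg, map_zsmul, K2.map_S, K2.map_S,
        K2.map_S, K2.map_S, q.N_spec, q.N_spec, S_mul_right hy hsy, S_mul_left hx hsx,
        S_lin hx hy h, S_lin hsx hsy h']
      module
    · have hc' : algebraMap F L c ≠ 0 := (map_ne_zero _).mpr hc
      rw [K2.map_S, hyc, map_mul, q.s_alg, S_prop hx hc', S_prop hsx hc', ← map_neg,
        q.nm_proj x _ hx (neg_ne_zero.mpr hc), K2.map_S, q.N_spec, S_mul_left hx hsx]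
  | hz => simp
  | hadd x y hx hy =>
    rw [map_add, map_add, map_add, hx, hy]
    abel

include q in
/-- `K₂(L)` is generated by the symbols `{y, c}`, `y ∈ Lˣ`, `c ∈ Fˣ`. -/
theorem gen_FL (x : K2 L) : x ∈ AddSubgroup.closure
    {t : K2 L | ∃ (y : L) (c : F), y ≠ 0 ∧ c ≠ 0 ∧ t = S y (algebraMap F L c)} := by
  have key : ∀ (y : L) (c : F), y ≠ 0 → S y (algebraMap F L c) ∈ AddSubgroup.closure
      {t : K2 L | ∃ (y : L) (c : F), y ≠ 0 ∧ c ≠ 0 ∧ t = S y (algebraMap F L c)} := by
    intro y c hy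
    by_cases hc : c = 0
    · rw [hc, map_zero, S_zero_right]
      exact AddSubgroup.zero_mem _
    · exact AddSubgroup.subset_closure ⟨y, c, hy, hc, rfl⟩
  induction x using K2_induction with
  | hS x y hx hy =>
    rcases q.sym_cases hx hy with ⟨a, b, h⟩ | ⟨c, hc, hyc⟩
    · rw [S_lin hx hy h]
      refine AddSubgroup.sub_mem _ (AddSubgroup.sub_mem _ (AddSubgroup.neg_mem _ ?_) ?_)
        (key x b hx)
      · by_cases ha : a = 0
        · rw [ha, map_zero, S_zero_left]
          exact AddSubgroup.zero_mem _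
        · exact key _ b ((map_ne_zero _).mpr ha)
      · rw [S_comm]
        exact AddSubgroup.neg_mem _ (key y a hy)
    · rw [hyc, S_prop hx ((map_ne_zero _).mpr hc), ← map_neg]
      exact key x (-c) hx
  | hz => exact AddSubgroup.zero_mem _
  | hadd x y hx hy => exact AddSubgroup.add_mem _ hx hy

end Quad

end Pool.Agent.MK
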