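import Pool.Agent.MK.H90
import Pool.Agent.MK.NormB

/-! # The 2-torsion of `K₂(F)` consists of the symbols `{-1, c}`

PROOFS.
* `sig`: the automorphism `z ↦ -z` of `F(z)`; `sig_sig`, `sig_C`, `sig_X` by the universal property
  (`IsFractionRing.lift` of `Polynomial.eval₂RingHom C (-X)`; injective because it is an involution on polynomials:
  `p.comp (-X)`).
* `vInf_sig`: for a polynomial `P ≠ 0` of degree `n`, `P(-X)` has degree `n` and leading coefficient
  `(-1)^n lc(P)`; for quotients: multiplicativity.  `(vInf F).ac (sig f) = (-1) ^ ((vInf F).v f) * (vInf F).ac f`.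
* `spec_sig`: by `K2_induction`; for a symbol `{f, g}` with `m = v f`, `n = v g`, `a = ac f`, `b = ac g`:
  `{(-1)^m a, (-1)^n b} = {a, b} + m {-1, b} + n {a, -1} + m n {-1, -1} = {a,b} + {-1, (-1)^(m n) b^m / a^n}`
  (`2 {-1, _} = 0`, so signs do not matter), and the value of `tame {f, g}` is `(-1)^(m n) b^m / a^n`.
* `tors`: let `κ = Σ {a_i, b_i}` (`K2_induction` in the form: every element is a finite sum of symbols; signs
  are absorbed by `-{a,b} = {a⁻¹, b}`), `2 κ = 0`.  Let `q = Quad.ofInvol sig X ..`, `K = fixedField sig`,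
  `φ : F → K` the embedding by constants.  `N (C a_i) = (φ a_i)²`.  `Σ {N (C a_i), φ b_i} = 2 (K2.map φ κ) = 0`.
  By `h90_sum`: `K2.map C κ = Σ {C a_i, C b_i} = v - sig v`.  Apply `(vInf F).spec`:
  `κ = spec v - spec (sig v) = -{-1, t} = {-1, t}`, `t` the value of `tame v`.
* `ker_iF`: `κ_K = 0` implies `κ_M = 0`, and `κ_M` is the image of `κ_L` (`C.iK_iF`, `K2.map_map`), so `κ_L = 0` by
  `mapC_inj`, `2 κ = C.nm (κ_L) = 0` (`nm_map`), and `tors`.
-/

set_option autoImplicit false
set_option linter.unusedSectionVars false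

namespace Pool.Agent.MK

universe u v w

open scoped Polynomial

theorem exists_sig (F : Type u) [Field F] : ∃ σ : RatFunc F →+* RatFunc F,
    (∀ c : F, σ (RatFunc.C c) = RatFunc.C c) ∧ σ RatFunc.X = -RatFunc.X ∧
    (∀ f, σ (σ f) = f) ∧ (∀ f, (vInf F).v (σ f) = (vInf F).v f) ∧
    (∀ f, (vInf F).ac (σ f) = (-1) ^ ((vInf F).v f) * (vInf F).ac f) := by
  have hcc : ∀ P : F[X], (P.comp (-Polynomial.X)).comp (-Polynomial.X) = P := by
    intro P
    rw [Polynomial.comp_assoc, Polynomial.neg_comp, Polynomial.X_comp, neg_neg,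
      Polynomial.comp_X]
  have hinj : Function.Injective ((algebraMap F[X] (RatFunc F)).comp
      (Polynomial.compRingHom (-Polynomial.X))) := by
    intro P Q h
    have h1 : P.comp (-Polynomial.X) = Q.comp (-Polynomial.X) := ratFunc_inj F h
    rw [← hcc P, ← hcc Q, h1]
  set σ : RatFunc F →+* RatFunc F := IsFractionRing.lift hinj with hσ
  have hP : ∀ P : F[X], σ (algebraMap F[X] (RatFunc F) P) =
      algebraMap F[X] (RatFunc F) (P.comp (-Polynomial.X)) := fun P =>
    IsFractionRing.lift_algebraMap hinj P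
  have h0 : ∀ P : F[X], P ≠ 0 → algebraMap F[X] (RatFunc F) P ≠ 0 := fun P hP0 =>
    (map_ne_zero_iff _ (ratFunc_inj F)).2 hP0
  have hc0 : ∀ P : F[X], P ≠ 0 → P.comp (-Polynomial.X) ≠ 0 := by
    intro P hP0 h
    apply hP0
    rw [← hcc P, h, Polynomial.zero_comp]
  have hdeg : (-Polynomial.X : F[X]).natDegree = 1 := by
    rw [Polynomial.natDegree_neg, Polynomial.natDegree_X]
  have hlc : (-Polynomial.X : F[X]).leadingCoeff = -1 := by
    rw [Polynomial.leadingCoeff_neg, Polynomial.leadingCoeff_X]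
  have hv : ∀ P : F[X], P ≠ 0 →
      (vInf F).v (algebraMap F[X] (RatFunc F) (P.comp (-Polynomial.X))) =
        (vInf F).v (algebraMap F[X] (RatFunc F) P) ∧
      (vInf F).ac (algebraMap F[X] (RatFunc F) (P.comp (-Polynomial.X))) =
        (-1) ^ ((vInf F).v (algebraMap F[X] (RatFunc F) P)) *
          (vInf F).ac (algebraMap F[X] (RatFunc F) P) := by
    intro P hP0
    obtain ⟨h1, h2⟩ := vInf_poly F hP0
    obtain ⟨h3, h4⟩ := vInf_poly F (hc0 P hP0)
    rw [h1, h2, h3, h4, Polynomial.natDegree_comp, hdeg, mul_one,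
      Polynomial.leadingCoeff_comp (by rw [hdeg]; exact one_ne_zero), hlc]
    refine ⟨rfl, ?_⟩
    rw [zpow_neg, zpow_natCast, ← inv_pow, inv_neg, inv_one, mul_comm]
  refine ⟨σ, ?_, ?_, ?_, ?_, ?_⟩
  · intro c
    rw [← RatFunc.algebraMap_C, hP, Polynomial.C_comp]
  · rw [← RatFunc.algebraMap_X, hP, Polynomial.X_comp, map_neg]
  · intro f
    obtain ⟨P, Q, -, rfl⟩ := ratFunc_frac F f
    rw [map_div₀, map_div₀, hP, hP, hP, hP, hcc, hcc]
  · intro f
    by_cases hf : f = 0
    · rw [hf, map_zero]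
    obtain ⟨P, Q, hQ, rfl⟩ := ratFunc_frac F f
    have hP0 : P ≠ 0 := by
      rintro rfl
      exact hf (by rw [map_zero, zero_div])
    rw [map_div₀, hP, hP, (vInf F).v_div (h0 _ (hc0 P hP0)) (h0 _ (hc0 Q hQ)),
      (vInf F).v_div (h0 _ hP0) (h0 _ hQ), (hv P hP0).1, (hv Q hQ).1]
  · intro f
    by_cases hf : f = 0
    · rw [hf, map_zero, (vInf F).ac_zero, mul_zero]
    obtain ⟨P, Q, hQ, rfl⟩ := ratFunc_frac F f
    have hP0 : P ≠ 0 := by
      rintro rfl
      exact hf (by rw [map_zero, zero_div])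
    rw [map_div₀, hP, hP, (vInf F).ac_div, (vInf F).v_div (h0 _ hP0) (h0 _ hQ),
      (vInf F).ac_div, (hv P hP0).2, (hv Q hQ).2,
      zpow_sub₀ (neg_ne_zero.mpr (one_ne_zero (α := F))), mul_div_mul_comm]

theorem spec_sig {F : Type u} [Field F] {σ : RatFunc F →+* RatFunc F}
    (h1 : ∀ f, (vInf F).v (σ f) = (vInf F).v f)
    (h2 : ∀ f, (vInf F).ac (σ f) = (-1) ^ ((vInf F).v f) * (vInf F).ac f) (v : K2 (RatFunc F)) :
    (vInf F).spec (K2.map σ v) = (vInf F).spec v + S (-1) (((vInf F).tame v).toMul : F) := by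
  induction v using K2_induction with
  | hS x y hx hy =>
    have hm : (-1 : F) ≠ 0 := neg_ne_zero.mpr one_ne_zero
    have ha := (vInf F).ac_ne x hx
    have hb := (vInf F).ac_ne y hy
    have ht : (((vInf F).tame (S x y)).toMul : F) =
        (-1) ^ ((vInf F).v x * (vInf F).v y) * (vInf F).ac y ^ ((vInf F).v x) /
          (vInf F).ac x ^ ((vInf F).v y) := by
      rw [(vInf F).tame_S hx hy, toMul_sub, toMul_add, toMul_zsmul, toMul_zsmul, toMul_zsmul,
        Units.val_div_eq_div_val, Units.val_mul, Units.val_zpow_eq_zpow_val,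
        Units.val_zpow_eq_zpow_val, Units.val_zpow_eq_zpow_val, (vInf F).A_val hx,
        (vInf F).A_val hy]
      rfl
    rw [K2.map_S, Val.spec_S, Val.spec_S, h2, h2, ht,
      S_mul_left (zpow_ne_zero _ hm) ha, S_mul_right (zpow_ne_zero _ hm) hb,
      S_mul_right (zpow_ne_zero _ hm) hb, S_zpow_left, S_zpow_left, S_zpow_right,
      S_zpow_right, S_div_right (mul_ne_zero (zpow_ne_zero _ hm) (zpow_ne_zero _ hb))
        (zpow_ne_zero _ ha), S_mul_right (zpow_ne_zero _ hm) (zpow_ne_zero _ hb),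
      S_zpow_right, S_zpow_right, S_zpow_right, S_comm ((vInf F).ac x) (-1)]
    module
  | hz => simp [S_one_right]
  | hadd x y hx hy =>
    rw [map_add (K2.map σ), map_add (vInf F).spec, map_add (vInf F).spec,
      map_add (vInf F).tame, hx, hy, toMul_add, Units.val_mul,
      S_mul_right (Units.ne_zero _) (Units.ne_zero _)]
    abel

private theorem tors_sum {F : Type u} [Field F] (κ : K2 F) : ∃ (n : ℕ) (a b : ℕ → F),
    κ = ∑ i ∈ Finset.range n, S (a i) (b i) := by
  induction κ using K2_induction with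
  | hS x y _ _ => exact ⟨1, fun _ => x, fun _ => y, by simp⟩
  | hz => exact ⟨0, fun _ => 0, fun _ => 0, by simp⟩
  | hadd x y hx hy =>
    obtain ⟨n, a, b, rfl⟩ := hx
    obtain ⟨m, a', b', rfl⟩ := hy
    refine ⟨n + m, fun i => if i < n then a i else a' (i - n),
      fun i => if i < n then b i else b' (i - n), ?_⟩
    rw [Finset.sum_range_add]
    congr 1
    · refine Finset.sum_congr rfl fun i hi => ?_
      have h := Finset.mem_range.1 hi
      simp only [if_pos h]
    · refine Finset.sum_congr rfl fun i _ => ?_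
      have h : ¬ n + i < n := by omega
      simp only [if_neg h, Nat.add_sub_cancel_left]

private theorem tors_spec {F : Type u} [Field F] (x : K2 F) :
    (vInf F).spec (K2.map RatFunc.C x) = x := by
  induction x using K2_induction with
  | hS a b _ _ => rw [K2.map_S, Val.spec_S, (vInf_C a).2, (vInf_C b).2]
  | hz => simp
  | hadd x y hx hy => rw [map_add, map_add, hx, hy]

/-- The 2-torsion of `K₂` (characteristic not 2). -/
theorem tors {F : Type u} [Field F] (h2 : (2 : F) ≠ 0) {κ : K2 F} (h : (2 : ℤ) • κ = 0) :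
    ∃ c : F, c ≠ 0 ∧ κ = S (-1) c := by
  obtain ⟨σ, hσC, hσX, hσσ, hσv, hσac⟩ := exists_sig F
  have h2' : (2 : RatFunc F) ≠ 0 := by
    have := (map_ne_zero (RatFunc.C : F →+* RatFunc F)).mpr h2
    rwa [map_ofNat] at this
  set q := Quad.ofInvol σ RatFunc.X h2' RatFunc.X_ne_zero hσX hσσ with hq
  set φ : F →+* fixedField σ := (RatFunc.C : F →+* RatFunc F).codRestrict (fixedField σ)
    (fun c => hσC c) with hφ
  have hφC : ∀ c : F, algebraMap (fixedField σ) (RatFunc F) (φ c) = RatFunc.C c := fun c => rfl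
  have hN : ∀ c : F, q.N (RatFunc.C c) = φ c ^ 2 := by
    intro c
    apply q.algInj
    rw [q.N_spec, map_pow, hφC, pow_two]
    congr 1
    exact hσC c
  obtain ⟨n, a, b, hκ⟩ := tors_sum κ
  have hsum : ∑ i ∈ Finset.range n, S (q.N (RatFunc.C (a i))) (φ (b i)) = 0 := by
    have h1 : ∑ i ∈ Finset.range n, S (q.N (RatFunc.C (a i))) (φ (b i)) =
        K2.map φ ((2 : ℤ) • κ) := by
      rw [hκ, Finset.smul_sum, map_sum]
      refine Finset.sum_congr rfl fun i _ => ?_
      rw [hN, S_pow_left, map_zsmul, K2.map_S]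
      module
    rw [h1, h, map_zero]
  obtain ⟨v, hv⟩ := h90_sum q (Finset.range n) (fun i => RatFunc.C (a i))
    (fun i => φ (b i)) hsum
  have h3 : K2.map RatFunc.C κ = v - K2.map σ v := by
    rw [hκ, map_sum]
    simp only [K2.map_S]
    exact hv
  have h4 := congrArg (vInf F).spec h3
  rw [tors_spec, map_sub, spec_sig hσv hσac] at h4
  refine ⟨(((vInf F).tame v).toMul : F)⁻¹, inv_ne_zero (Units.ne_zero _), ?_⟩
  rw [h4, S_inv_right]
  abel

namespace CQ

variable {F L : Type u} [Field F] [Field L] [Algebra F L] (C : CQ F L)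

theorem ker_iF {κ : K2 F} (h : K2.map C.iF κ = 0) : ∃ c : F, c ≠ 0 ∧ κ = S (-1) c := by
  have h1 : K2.map C.iK (K2.map C.iF κ) = 0 := by rw [h, map_zero]
  rw [K2.map_map, C.iK_iF, ← K2.map_map] at h1
  have h2 : K2.map (algebraMap F L) κ = 0 := mapC_inj (by rw [h1, map_zero])
  have h3 := C.toQuad.nm_map κ
  rw [h2, map_zero] at h3
  exact tors C.two h3.symm

end CQ

end Pool.Agent.MK
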