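import Pool.Agent.MK.X3H
import Pool.Agent.MK.H0
import Pool.Agent.MK.EPr
import Pool.Agent.MK.Tors

/-! # Halves of constants in `K₂` of the function field of the conic

PROOFS.
* `sign`: let `v ∈ K₂(C.K)` with `2 v = κ'_K` (`κ' ∈ K₂(F)`), `p` a prime of `C.A`.  For `c ≠ 0` over `p`:
  `2 tame_c (v_M) = tame_c` of a constant `= 0`.  `v_M` is invariant (`sM_map`), so by `hasRes` there is `g ∈ C.A`, `p ∤ g`, with
  `tame_c (v_M) = A g` at all `c` over `p`.  So `g(c)² = 1`, hence `p ∣ g² - 1 = (g-1)(g+1)` (`dvd_iff_pt`; or `g² = 1`), and `p ∣ g - 1` or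
  `p ∣ g + 1`: in the first case `tame_c (v_M) = 0` at all `c` over `p`, in the second it is `A (-1)` at all `c` over `p`.
* `remove_signs`: let `G` be as in `exists_G` for `v_M`, and `T` a list of primes such that every prime dividing `G` is
  associated to one in `T`.  Induction on the length of a list `T` of primes with the property: `tame_c (v_M) = 0` if `c ≠ 0` is not
  over an element of `T`.  Let `p` be the first entry.  If it is associated to another entry, or if `tame_c (v_M) = 0` over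
  `p`, drop it.  Otherwise `tame_c (v_M) = A (-1)` at all `c` over `p`; put `m = {p, -1}` (`C.iA p`), `2 m = 0`; its residue at `c` over `p`
  is `A (-1)` (`(vPt c).v p = 1`) and `0` at the other `c ≠ 0` (`p` is a unit there); continue with `v - m`, for which again
  `2 (v - m) = κ'_K`.
* `half`: `v₁ = v - m`, no residues at `c ≠ 0`, `2 v₁ = κ'_K`, so `2 tame_∞ (v₁) = 0`: `tame_∞ = 0` or `A (-1)` (its value `d` in `L`
  has `d² = 1`).  First case: `h0` gives `v₁ = κ_K`, `(κ' - 2 κ)_K = 0`, and `ker_iF`.  Second case: `v₂ = v₁ - e'` with `e'` from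
  `kill_neg_one` has no residues, `v₂ = κ_K`, `2 v₂ = κ'_K - {a,b}_K`, and `ker_iF` for `κ' - {a,b} - 2 κ`.
-/

set_option autoImplicit false
set_option linter.unusedSectionVars false

namespace Pool.Agent.MK

universe u v w

private theorem dk_tame_C {L : Type u} [Field L] {k : Type w} [Field k] (w : Val (RatFunc L) k)
    (hC : ∀ d : L, w.v (RatFunc.C d) = 0) (x : K2 L) :
    w.tame (K2.map (RatFunc.C : L →+* RatFunc L) x) = 0 := by
  induction x using K2_induction with
  | hS a b _ _ => rw [K2.map_S, w.tame_S_units (hC a) (hC b)]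
  | hz => rw [map_zero, map_zero]
  | hadd x y hx hy => rw [map_add, map_add, hx, hy, add_zero]

private theorem dk_two {k : Type w} [Field k] {t : Additive kˣ} (h : (2 : ℤ) • t = 0) :
    t = 0 ∨ t = Val.m1 k := by
  have h1 : ((t.toMul : kˣ) : k) * ((t.toMul : kˣ) : k) = 1 := by
    rw [two_zsmul] at h
    have h2 := congrArg (fun s : Additive kˣ => ((s.toMul : kˣ) : k)) h
    simpa using h2
  rcases mul_self_eq_one_iff.1 h1 with h2 | h2
  · left
    apply Additive.toMul.injective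
    rw [Units.ext_iff, h2]
    rfl
  · right
    apply Additive.toMul.injective
    rw [Units.ext_iff, h2]
    rfl

private theorem dk_mem {k : Type w} [Field k] {t : Additive kˣ} (h : (2 : ℤ) • t = 0) :
    ((t.toMul : kˣ) : k) = 1 ∨ ((t.toMul : kˣ) : k) = -1 := by
  rcases dk_two h with rfl | rfl
  · left
    rfl
  · right
    rfl

namespace CQ

variable {F L : Type u} [Field F] [Field L] [Algebra F L] (C : CQ F L)

private theorem dk_const (κ' : K2 F) {k : Type w} [Field k] (w : Val (RatFunc L) k)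
    (hC : ∀ d : L, w.v (RatFunc.C d) = 0) : w.tame (K2.map C.iK (K2.map C.iF κ')) = 0 := by
  rw [K2.map_map, C.iK_iF, ← K2.map_map]
  exact dk_tame_C w hC _

private theorem dk_double {v : K2 C.K} {κ' : K2 F} (h : (2 : ℤ) • v = K2.map C.iF κ')
    {k : Type w} [Field k] (w : Val (RatFunc L) k) (hC : ∀ d : L, w.v (RatFunc.C d) = 0) :
    (2 : ℤ) • w.tame (K2.map C.iK v) = 0 := by
  rw [← map_zsmul, ← map_zsmul, h]
  exact C.dk_const κ' w hC

/-- Elements of the coordinate ring which are congruent modulo a prime have the same residues. -/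
private theorem dk_congr {p g e : C.A} (hp : Prime p) (hg : ¬ p ∣ g) (he : ¬ p ∣ e)
    (h : p ∣ g - e) {c : AlgebraicClosure L} (hc : c ≠ 0)
    (hpos : 0 < (vPt c).v (p : RatFunc L)) :
    (vPt c).A (g : RatFunc L) = (vPt c).A (e : RatFunc L) := by
  have hP := C.placeA hp hc hpos
  have vg : (vPt c).v (g : RatFunc L) = 0 := hP.v0 g hg
  have ve : (vPt c).v (e : RatFunc L) = 0 := hP.v0 e he
  have g0 : g ≠ 0 := by
    rintro rfl
    exact hg (dvd_zero p)
  have e0 : e ≠ 0 := by
    rintro rfl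
    exact he (dvd_zero p)
  obtain ⟨t, ht⟩ := h
  have hgt : (g : RatFunc L) = (e : RatFunc L) + (p : RatFunc L) * (t : RatFunc L) := by
    have h1 : g = e + p * t := by
      rw [← ht]
      ring
    exact congrArg (fun x : C.A => (x : RatFunc L)) h1
  have hnn : ∀ r : C.A, 0 ≤ (vPt c).v (r : RatFunc L) := fun r => laur_nonneg r.2.2 hc
  have hres : (vPt c).res (g : RatFunc L) = (vPt c).res (e : RatFunc L) := by
    rw [hgt, Val.res_add _ (hnn e) (Val.v_mul_nonneg _ (hnn p) (hnn t)),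
      Val.res_mul _ (hnn p) (hnn t), Val.res_of_pos _ hpos, zero_mul, add_zero]
  rw [Val.res_of_v_eq _ vg, Val.res_of_v_eq _ ve] at hres
  exact ((vPt c).A_eq_iff (C.coeA_ne g0) (C.coeA_ne e0)).2 hres

private theorem dk_prod {c : AlgebraicClosure L} (s : Multiset C.A) (hs0 : ∀ q ∈ s, q ≠ 0)
    (hs : ∀ q ∈ s, (vPt c).v (q : RatFunc L) = 0) :
    s.prod ≠ 0 ∧ (vPt c).v ((s.prod : C.A) : RatFunc L) = 0 := by
  induction s using Multiset.induction_on with
  | empty =>
    rw [Multiset.prod_zero]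
    exact ⟨one_ne_zero, (vPt c).v_one⟩
  | cons q s ih =>
    obtain ⟨h1, h2⟩ := ih (fun r hr => hs0 r (Multiset.mem_cons_of_mem hr))
      (fun r hr => hs r (Multiset.mem_cons_of_mem hr))
    have h3 := hs0 q (Multiset.mem_cons_self q s)
    have h4 := hs q (Multiset.mem_cons_self q s)
    rw [Multiset.prod_cons]
    refine ⟨mul_ne_zero h3 h1, ?_⟩
    have h5 : ((q * s.prod : C.A) : RatFunc L) = (q : RatFunc L) * (s.prod : C.A) := rfl
    rw [h5, (vPt c).v_mul _ _ (C.coeA_ne h3) (C.coeA_ne h1), h4, h2, add_zero]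

private theorem dk_factor {G : C.A} (hG : G ≠ 0) {c : AlgebraicClosure L} (hc : c ≠ 0)
    (h : (vPt c).v (G : RatFunc L) ≠ 0) :
    ∃ q ∈ UniqueFactorizationMonoid.factors G, 0 < (vPt c).v (q : RatFunc L) := by
  by_contra hcon
  push Not at hcon
  have hpr : ∀ q ∈ UniqueFactorizationMonoid.factors G, Prime q := fun q hq =>
    UniqueFactorizationMonoid.prime_of_factor q hq
  obtain ⟨h1, h2⟩ := C.dk_prod (c := c) (UniqueFactorizationMonoid.factors G)
    (fun q hq => (hpr q hq).ne_zero)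
    (fun q hq => le_antisymm (hcon q hq) (laur_nonneg q.2.2 hc))
  obtain ⟨a, ha⟩ := UniqueFactorizationMonoid.factors_prod hG
  apply h
  have ha0 : ((a : C.A) : RatFunc L) ≠ 0 := C.coeA_ne a.ne_zero
  have hb0' : (((a⁻¹ : C.Aˣ) : C.A) : RatFunc L) ≠ 0 := C.coeA_ne (a⁻¹).ne_zero
  have hab : ((a : C.A) : RatFunc L) * (((a⁻¹ : C.Aˣ) : C.A) : RatFunc L) = 1 := by
    have h3 := congrArg (fun t : C.A => (t : RatFunc L)) (a.mul_inv)
    exact h3
  have hv1 := (vPt c).v_mul _ _ ha0 hb0'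
  rw [hab, (vPt c).v_one] at hv1
  have h4 : 0 ≤ (vPt c).v ((a : C.A) : RatFunc L) := laur_nonneg (a : C.A).2.2 hc
  have h5 : 0 ≤ (vPt c).v (((a⁻¹ : C.Aˣ) : C.A) : RatFunc L) :=
    laur_nonneg ((a⁻¹ : C.Aˣ) : C.A).2.2 hc
  have h6 : (G : RatFunc L) =
      ((UniqueFactorizationMonoid.factors G).prod : C.A) * ((a : C.A) : RatFunc L) := by
    have h7 := congrArg (fun t : C.A => (t : RatFunc L)) ha
    exact h7.symm
  rw [h6, (vPt c).v_mul _ _ (C.coeA_ne h1) ha0, h2]
  omega

theorem sign {v : K2 C.K} {κ' : K2 F} (h : (2 : ℤ) • v = K2.map C.iF κ') {p : C.A}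
    (hp : Prime p) :
    (∀ c : AlgebraicClosure L, c ≠ 0 → 0 < (vPt c).v (p : RatFunc L) →
      (vPt c).tame (K2.map C.iK v) = 0) ∨
    (∀ c : AlgebraicClosure L, c ≠ 0 → 0 < (vPt c).v (p : RatFunc L) →
      (vPt c).tame (K2.map C.iK v) = (vPt c).A (-1)) := by
  have hInv : C.Inv (K2.map C.iK v) := by
    refine ⟨0, ?_⟩
    rw [map_zero, C.sM_map, sub_self]
  obtain ⟨g, hpg, hg⟩ := C.hasRes hInv hp
  obtain ⟨c₀, hc₀, hpos₀⟩ := C.exists_pt hp
  have hp1 : ¬ p ∣ 1 := fun h1 => hp.not_isUnit (isUnit_of_dvd_one h1)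
  have hpm : ¬ p ∣ (-1 : C.A) := fun h1 => hp1 ((dvd_neg).1 h1)
  have g0 : g ≠ 0 := by
    rintro rfl
    exact hpg (dvd_zero p)
  have h2 := C.dk_double h (vPt c₀) (fun d => (vPt_C c₀ d).1)
  rw [hg c₀ hc₀ hpos₀] at h2
  have hP := C.placeA hp hc₀ hpos₀
  have hval := (vPt c₀).A_val (C.coeA_ne g0)
  rcases dk_mem h2 with h3 | h3
  · left
    intro c hc hpos
    have hdvd : p ∣ g - 1 := by
      refine hP.inj g 1 hpg hp1 ?_
      change (vPt c₀).ac (g : RatFunc L) = (vPt c₀).ac ((1 : C.A) : RatFunc L)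
      rw [← hval, h3]
      exact ((vPt c₀).ac_one).symm
    rw [hg c hc hpos, C.dk_congr hp hpg hp1 hdvd hc hpos]
    exact (vPt c).A_one
  · right
    intro c hc hpos
    have hdvd : p ∣ g - (-1) := by
      refine hP.inj g (-1) hpg hpm ?_
      change (vPt c₀).ac (g : RatFunc L) = (vPt c₀).ac ((-1 : C.A) : RatFunc L)
      rw [← hval, h3]
      exact ((vPt c₀).ac_neg_one).symm
    rw [hg c hc hpos, C.dk_congr hp hpg hpm hdvd hc hpos]
    rfl

theorem remove_signs {v : K2 C.K} {κ' : K2 F} (h : (2 : ℤ) • v = K2.map C.iF κ') :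
    ∃ m : K2 C.K, (2 : ℤ) • m = 0 ∧ ∀ c : AlgebraicClosure L, c ≠ 0 →
      (vPt c).tame (K2.map C.iK (v - m)) = 0 := by
  have key : ∀ T : List C.A, (∀ t ∈ T, Prime t) → ∀ v : K2 C.K,
      (2 : ℤ) • v = K2.map C.iF κ' →
      (∀ c : AlgebraicClosure L, c ≠ 0 → (∀ t ∈ T, ¬ 0 < (vPt c).v (t : RatFunc L)) →
        (vPt c).tame (K2.map C.iK v) = 0) →
      ∃ m : K2 C.K, (2 : ℤ) • m = 0 ∧ ∀ c : AlgebraicClosure L, c ≠ 0 →
        (vPt c).tame (K2.map C.iK (v - m)) = 0 := by
    intro T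
    induction T with
    | nil =>
      intro _ v _ hT
      refine ⟨0, smul_zero _, fun c hc => ?_⟩
      rw [sub_zero]
      exact hT c hc (fun t ht => absurd ht List.not_mem_nil)
    | cons p T ih =>
      intro hpr v hv hT
      have hp : Prime p := hpr p List.mem_cons_self
      have hpr' : ∀ t ∈ T, Prime t := fun t ht => hpr t (List.mem_cons_of_mem _ ht)
      rcases C.sign hv hp with h1 | h1
      · refine ih hpr' v hv fun c hc hcT => ?_
        by_cases hcp : 0 < (vPt c).v (p : RatFunc L)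
        · exact h1 c hc hcp
        · refine hT c hc fun t ht => ?_
          rcases List.mem_cons.1 ht with rfl | ht
          · exact hcp
          · exact hcT t ht
      · have hp0 : (p : RatFunc L) ≠ 0 := C.coeA_ne hp.ne_zero
        have hm1 : (-1 : RatFunc L) ≠ 0 := neg_ne_zero.mpr one_ne_zero
        have hm2 : (2 : ℤ) • S (C.iA p) (-1 : C.K) = 0 := two_S_neg_one_right _
        have hmap : K2.map C.iK (S (C.iA p) (-1 : C.K)) = S (p : RatFunc L) (-1) := by
          rw [K2.map_S, map_neg, map_one]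
          rfl
        have htm : ∀ c : AlgebraicClosure L, (vPt c).tame (K2.map C.iK (S (C.iA p) (-1 : C.K))) =
            (vPt c).v (p : RatFunc L) • (vPt c).A (-1) := by
          intro c
          rw [hmap, (vPt c).tame_S_left hp0 hm1 (vPt c).v_neg_one]
        obtain ⟨m, hm, hmT⟩ := ih hpr' (v - S (C.iA p) (-1 : C.K))
          (by rw [smul_sub, hm2, sub_zero, hv]) (by
          intro c hc hcT
          rw [map_sub, map_sub, htm c]
          by_cases hcp : 0 < (vPt c).v (p : RatFunc L)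
          · have hv1 : (vPt c).v (p : RatFunc L) = 1 := (C.placeA hp hc hcp).vp
            rw [hv1, one_zsmul, h1 c hc hcp, sub_self]
          · have hv0 : (vPt c).v (p : RatFunc L) = 0 := by
              have : 0 ≤ (vPt c).v (p : RatFunc L) := laur_nonneg p.2.2 hc
              omega
            rw [hv0, zero_zsmul, sub_zero]
            refine hT c hc fun t ht => ?_
            rcases List.mem_cons.1 ht with rfl | ht
            · exact hcp
            · exact hcT t ht)
        refine ⟨S (C.iA p) (-1 : C.K) + m, by rw [smul_add, hm2, hm, add_zero], ?_⟩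
        intro c hc
        have h2 := hmT c hc
        rwa [sub_sub] at h2
  obtain ⟨G, hG, hGc⟩ := C.exists_G (K2.map C.iK v)
  refine key (UniqueFactorizationMonoid.factors G).toList ?_ v h ?_
  · intro t ht
    exact UniqueFactorizationMonoid.prime_of_factor t (Multiset.mem_toList.1 ht)
  · intro c hc hcT
    apply hGc c hc
    by_contra hne
    obtain ⟨q, hq, hpos⟩ := C.dk_factor hG hc hne
    exact hcT q (Multiset.mem_toList.2 hq) hpos

/-- If the image of `κ'` in `K₂` of the function field is divisible by 2, then, modulo `2 K₂(F)`,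
`κ'` is `{-1, c}` or `{a, b} + {-1, c}`. -/
theorem half {v : K2 C.K} {κ' : K2 F} (h : (2 : ℤ) • v = K2.map C.iF κ') :
    ∃ (κ : K2 F) (c : F), c ≠ 0 ∧ (κ' = (2 : ℤ) • κ + S (-1) c ∨
      κ' = S C.a C.b + (2 : ℤ) • κ + S (-1) c) := by
  obtain ⟨m, hm2, hm⟩ := C.remove_signs h
  have hv1 : (2 : ℤ) • (v - m) = K2.map C.iF κ' := by
    rw [smul_sub, hm2, sub_zero, h]
  rcases dk_two (C.dk_double hv1 (vInf L) (fun d => (vInf_C d).1)) with h1 | h1
  · obtain ⟨κ, hκ⟩ := C.h0 (v - m) hm h1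
    have hk : K2.map C.iF (κ' - (2 : ℤ) • κ) = 0 := by
      rw [map_sub, map_zsmul, hκ, hv1, sub_self]
    obtain ⟨c, hc, hcκ⟩ := C.ker_iF hk
    refine ⟨κ, c, hc, Or.inl ?_⟩
    rw [← hcκ]
    abel
  · obtain ⟨e, he1, he2, he3⟩ := C.kill_neg_one
    obtain ⟨κ, hκ⟩ := C.h0 (v - m - e) (fun c hc => by
      rw [map_sub, map_sub, hm c hc, he1 c hc, sub_zero]) (by
      rw [map_sub, map_sub, h1, he2, (vInf L).A_neg_one, sub_self])
    have hk : K2.map C.iF (κ' - S C.a C.b - (2 : ℤ) • κ) = 0 := by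
      rw [map_sub, map_sub, map_zsmul, hκ, smul_sub, hv1, he3, sub_self]
    obtain ⟨c, hc, hcκ⟩ := C.ker_iF hk
    refine ⟨κ, c, hc, Or.inr ?_⟩
    rw [← hcκ]
    abel

end CQ

end Pool.Agent.MK
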