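import Pool.Agent.MK.DTwo
import Pool.Agent.MK.DK

/-! # Injectivity of the norm residue homomorphism

PROOF of `DN_sum` by induction on `n`, for all fields at once (`Ω = SeparableClosure F`; for another `Ω` use `hh_map`
with `φ = id`).
`n = 0`: take `v = 0`.  `n = 1`: `D1`; `n = 2`: `D2` (or as special cases of the following: not needed, the step below works for
all `n ≥ 1`).
Step `n → n + 1`: `u = u' + {a, b}`, `u'` a sum of `n` symbols.
(i) If `a = x²` is a square, `{a, b} = 2 {x, b}`; if `b = x² - a y²`, `{a, b} = 2 v` by `square_symbol`.  In these cases `hh u' = 0`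
(`hh_two`) and the induction hypothesis applies to `u'`.
(ii) Otherwise let `q : Quad F L` with `q.a = a` (`exists_quad`); `b` is not a norm: `N (x + y α) = x² - a y²` (`q.N` of
`algebraMap x + algebraMap y * α`; use `decomp`).  Let `C : CQ F L` be `q` with `b`.  `{a, b}_K = 2 e'` in `K₂(C.K)` (`kill_neg_one`), so
`hh (u'_K) = hh (u_K) - hh (2 e') = 0` (`hh_map` for `C.iF`, `hh_two`), and `u'_K` is a sum of `n` symbols; by the induction
hypothesis for the field `C.K` (characteristic not 2: `C.QK.two`) `u'_K = 2 v`.  By `C.half`: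
`u' = 2 κ + {-1, c}` or `u' = {a, b} + 2 κ + {-1, c}`.  In the first case `hh ({-1, c} + {a, b}) = 0` and `D2` finishes; in the second
`u = 2 {a, b} + 2 κ + {-1, c}`, `hh {-1, c} = 0` and `D1` finishes.

`DN`: `K2_rep`, `hh_map` with `φ = RingHom.id F` from `Ω` to `SeparableClosure F` (`K2.map_id`).
-/

set_option autoImplicit false
set_option linter.unusedSectionVars false

namespace Pool.Agent.MK

universe u v w

open Pool.Agent.Helper14.Massey

private theorem norm_form {F L : Type u} [Field F] [Field L] [Algebra F L] (q : Quad F L) {b : F}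
    {y : L} (h : y * q.s y = algebraMap F L b) : b = q.re y ^ 2 - q.a * q.im y ^ 2 := by
  apply q.algInj
  have h1 : q.s (algebraMap F L (q.re y) + algebraMap F L (q.im y) * q.α) =
      algebraMap F L (q.re y) - algebraMap F L (q.im y) * q.α := by
    rw [map_add, map_mul, q.s_alg, q.s_alg, q.s_α]
    ring
  rw [← h]
  conv_lhs => rw [q.decomp y, h1]
  simp only [map_sub, map_mul, map_pow]
  linear_combination (-(algebraMap F L (q.im y)) ^ 2) * q.sq

/-- A quadratic symbol that is neither trivially divisible defines a conic. -/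
private theorem exists_CQ {F : Type u} [Field F] (h2 : (2 : F) ≠ 0) {a b : F}
    (ha : ¬ ∃ x : F, a = x ^ 2) (hb : ¬ ∃ x y : F, b = x ^ 2 - a * y ^ 2) :
    ∃ (L : Type u) (_ : Field L) (_ : Algebra F L) (C : CQ F L), C.a = a ∧ C.b = b := by
  obtain ⟨L, _, _, q, hq⟩ := exists_quad h2 ha
  refine ⟨L, inferInstance, inferInstance, { q with b := b, hN := ?_ }, hq, rfl⟩
  intro y hy
  apply hb
  exact ⟨q.re y, q.im y, by rw [← hq]; exact norm_form q hy⟩

private theorem two_dvd {F : Type u} [Field F] {a b : F} (ha : a ≠ 0) (hb : b ≠ 0)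
    (h : (∃ x : F, a = x ^ 2) ∨ ∃ x y : F, b = x ^ 2 - a * y ^ 2) :
    ∃ v : K2 F, S a b = (2 : ℤ) • v := by
  rcases h with ⟨x, hx⟩ | ⟨x, y, hxy⟩
  · exact ⟨S x b, by rw [hx, S_pow_left, two_nsmul, two_zsmul]⟩
  · exact square_symbol ha hb hxy

theorem DN_sum (n : ℕ) : ∀ (F : Type u) [Field F] (h2 : (2 : F) ≠ 0) (a b : Fin n → F),
    (∀ i, a i ≠ 0) → (∀ i, b i ≠ 0) →
    hh (SeparableClosure F) h2 (∑ i, S (a i) (b i)) = 0 →
    ∃ v : K2 F, ∑ i, S (a i) (b i) = (2 : ℤ) • v := by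
  induction n with
  | zero =>
    intro F _ h2 a b _ _ _
    exact ⟨0, by rw [Finset.univ_eq_empty, Finset.sum_empty, smul_zero]⟩
  | succ n ih =>
    intro F _ h2 a b ha hb h
    rw [Fin.sum_univ_succ] at h ⊢
    have h' := h
    rw [map_add] at h'
    by_cases hc : (∃ x : F, a 0 = x ^ 2) ∨ ∃ x y : F, b 0 = x ^ 2 - a 0 * y ^ 2
    · obtain ⟨v, hv⟩ := two_dvd (ha 0) (hb 0) hc
      rw [hv, hh_two, zero_add] at h'
      obtain ⟨w, hw⟩ := ih F h2 (fun i => a i.succ) (fun i => b i.succ) (fun i => ha _)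
        (fun i => hb _) h'
      exact ⟨v + w, by rw [hv, hw, smul_add]⟩
    · rw [not_or] at hc
      obtain ⟨L, _, _, C, hCa, hCb⟩ := exists_CQ h2 hc.1 hc.2
      obtain ⟨m, -, -, hm⟩ := C.kill_neg_one
      rw [hCa, hCb] at hm
      have h2K : (2 : C.K) ≠ 0 := C.QK.two
      have h3 := hh_map (Ω' := SeparableClosure C.K) h2 h2K C.iF h
      rw [map_add, ← hm, map_add, hh_two, zero_add, map_sum] at h3
      have h4 : ∑ i : Fin n, K2.map C.iF (S (a i.succ) (b i.succ)) =
          ∑ i : Fin n, S (C.iF (a i.succ)) (C.iF (b i.succ)) :=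
        Finset.sum_congr rfl fun i _ => K2.map_S _ _ _
      rw [h4] at h3
      obtain ⟨v, hv⟩ := ih C.K h2K (fun i => C.iF (a i.succ)) (fun i => C.iF (b i.succ))
        (fun i => (map_ne_zero _).2 (ha _)) (fun i => (map_ne_zero _).2 (hb _)) h3
      rw [← h4, ← map_sum] at hv
      obtain ⟨κ, c, hc0, h5⟩ := C.half hv.symm
      rw [hCa, hCb] at h5
      have hm1 : (-1 : F) ≠ 0 := neg_ne_zero.2 one_ne_zero
      rcases h5 with h5 | h5
      · rw [h5] at h ⊢
        have e1 : S (a 0) (b 0) + ((2 : ℤ) • κ + S (-1) c) =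
            (S (a 0) (b 0) + S (-1) c) + (2 : ℤ) • κ := by abel
        rw [e1] at h ⊢
        rw [map_add, hh_two, add_zero] at h
        obtain ⟨w, hw⟩ := D2 h2 (ha 0) (hb 0) hm1 hc0 h
        exact ⟨w + κ, by rw [hw, smul_add]⟩
      · rw [h5] at h ⊢
        have e1 : S (a 0) (b 0) + (S (a 0) (b 0) + (2 : ℤ) • κ + S (-1) c) =
            S (-1) c + (2 : ℤ) • (S (a 0) (b 0) + κ) := by
          rw [smul_add, two_zsmul, two_zsmul]
          abel
        rw [e1] at h ⊢
        rw [map_add, hh_two, add_zero] at h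
        obtain ⟨w, hw⟩ := D1 h2 hm1 hc0 h
        exact ⟨w + (S (a 0) (b 0) + κ), by rw [hw, ← smul_add]⟩

/-- Injectivity of the norm residue homomorphism `K₂(F)/2 → H²(Gal(Ω/F), ℤ/2)`. -/
theorem DN {F Ω : Type u} [Field F] [Field Ω] [Algebra F Ω] [IsGalois F Ω] [IsSepClosed Ω]
    (h2 : (2 : F) ≠ 0) {u : K2 F} (h : hh Ω h2 u = 0) : ∃ v : K2 F, u = (2 : ℤ) • v := by
  obtain ⟨n, a, b, ha, hb, rfl⟩ := K2_rep u
  have h1 := hh_map (Ω' := SeparableClosure F) h2 h2 (RingHom.id F) h
  rw [K2.map_id, AddMonoidHom.id_apply] at h1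
  exact DN_sum n F h2 a b ha hb h1

end Pool.Agent.MK
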