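import Pool.Agent.MK.CohE
import Pool.Agent.MK.Quad

/-! # Injectivity of the norm residue homomorphism for sums of two symbols

PROOFS.
* `exists_quad`: `L = AdjoinRoot (X² - C a)` (irreducible because `a` is not a square; `Fact (Irreducible _)`), `α = root`,
  `s = AdjoinRoot.lift (of) (-root)` (`(-root)² = a`), every element of `L` is `c + d root` (division with remainder:
  `AdjoinRoot.mk_surjective`, `modByMonic`), `s (c + d root) = c - d root`, so it is fixed iff `2 d root = 0` iff `d = 0`.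
* `lemL`: `r = x₁² - c y₁²`, `s = x₂² - c y₂²`, so `d = r + a s`, and `r s = -c t²` with `t = x₁ y₂ - x₂ y₁` (because
  `x₁ x₂ = c y₁ y₂`).  All congruences are modulo `2 K₂(F)`; `{c, r} ≡ 0` if `r ≠ 0`, `{c, s} ≡ 0` if `s ≠ 0`
  (`square_symbol`).
  `r = 0`: `d = a s`, `{c, d} ≡ {c, a} + {c, s} ≡ {a, c}` (`{c,a} = -{a,c} ≡ {a,c}`): `e = c`.
  `s = 0`: `d = r`, `{c, d} ≡ 0 = {a, 1}`.
  `r, s ≠ 0`: then `t ≠ 0`, `s = -c t²/r`.  `r/d + a s/d = 1`, so `0 = {r/d, a s/d} ≡ {r, a s} + {r, d} + {d, a s} + {d, d}`, and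
  `{d,d} = {d,-1}`; `{_, a s} ≡ {_, -a c r}`; `{r, -a c r} ≡ {r, a c}`, so
  `0 ≡ {r, a c} + {r, d} + {d, -a c r} + {d, -1} ≡ {r, a c} + {d, a c} = {r d, a c}` (`{r,d} + {d,r} = 0`).  Hence
  `{a, r d} ≡ {c, r d} ≡ {c, d}`: `e = r d`.
* `D2`: if `a = x²`: `{a, b} = 2 {x, b}`, so `hh {c, d} = 0` and `D1`.  Otherwise take `q : Quad F L` with `q.a = a` and
  `Ω' = SeparableClosure L`.  `hh_map`: `hh` of the image of `{a,b} + {c,d}` in `K₂(L)` is `0`; the image of
  `{a, b}` is `2 {α, b}`, so `hh {c, d}_L = 0`, and by `D1'` `d = X² - c Y²` in `L`.  Write `X = x₁ + x₂ α`, `Y = y₁ + y₂ α`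
  (`decomp`); comparing coefficients (`coord_inj`, `α² = a`) `d = x₁² + a x₂² - c (y₁² + a y₂²)`, `x₁ x₂ = c y₁ y₂` (divide by 2).
  `lemL`: `{c, d} = {a, e} + 2 v`, so `{a,b} + {c,d} = {a, b e} + 2 v` and `hh {a, b e} = 0`; `D1`.
-/

set_option autoImplicit false
set_option linter.unusedSectionVars false

namespace Pool.Agent.MK

universe u v w

open Pool.Agent.Helper14.Massey

theorem exists_quad {F : Type u} [Field F] (h2 : (2 : F) ≠ 0) {a : F} (ha : ¬ ∃ x : F, a = x ^ 2) :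
    ∃ (L : Type u) (_ : Field L) (_ : Algebra F L) (q : Quad F L), q.a = a := by
  have hirr : Irreducible (Polynomial.X ^ 2 - Polynomial.C a : Polynomial F) :=
    X_pow_sub_C_irreducible_of_prime Nat.prime_two fun b hb => ha ⟨b, hb.symm⟩
  haveI : Fact (Irreducible (Polynomial.X ^ 2 - Polynomial.C a : Polynomial F)) := ⟨hirr⟩
  obtain ⟨f, hf⟩ : ∃ f : Polynomial F, f = Polynomial.X ^ 2 - Polynomial.C a := ⟨_, rfl⟩
  rw [← hf] at hirr
  haveI : Fact (Irreducible f) := ⟨hirr⟩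
  have hroot : (AdjoinRoot.root f) ^ 2 = AdjoinRoot.of f a := by
    have h := AdjoinRoot.eval₂_root f
    have h' : Polynomial.eval₂ (AdjoinRoot.of f) (AdjoinRoot.root f)
        (Polynomial.X ^ 2 - Polynomial.C a) = 0 := by
      rw [← hf]
      exact h
    rw [Polynomial.eval₂_sub, Polynomial.eval₂_pow, Polynomial.eval₂_X, Polynomial.eval₂_C] at h'
    exact sub_eq_zero.1 h'
  have hlift : Polynomial.eval₂ (AdjoinRoot.of f) (-AdjoinRoot.root f) f = 0 := by
    have h' : Polynomial.eval₂ (AdjoinRoot.of f) (-AdjoinRoot.root f)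
        (Polynomial.X ^ 2 - Polynomial.C a) = 0 := by
      rw [Polynomial.eval₂_sub, Polynomial.eval₂_pow, Polynomial.eval₂_X, Polynomial.eval₂_C,
        neg_sq, hroot, sub_self]
    rw [← hf] at h'
    exact h'
  obtain ⟨s, hs⟩ : ∃ s : AdjoinRoot f →+* AdjoinRoot f, s = AdjoinRoot.lift (AdjoinRoot.of f)
    (-AdjoinRoot.root f) hlift := ⟨_, rfl⟩
  have hs_root : s (AdjoinRoot.root f) = -AdjoinRoot.root f := by
    rw [hs, AdjoinRoot.lift_root]
  have hs_of : ∀ c, s (AdjoinRoot.of f c) = AdjoinRoot.of f c := fun c => by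
    rw [hs, AdjoinRoot.lift_of]
  have hrep : ∀ x : AdjoinRoot f, ∃ c d : F,
      x = AdjoinRoot.of f c + AdjoinRoot.of f d * AdjoinRoot.root f := by
    intro x
    obtain ⟨p, rfl⟩ := AdjoinRoot.mk_surjective x
    have hm : f.Monic := by
      rw [hf]
      exact Polynomial.monic_X_pow_sub_C a two_ne_zero
    have hdeg : (p %ₘ f).natDegree ≤ 1 := by
      have h1 : (p %ₘ f).natDegree < f.natDegree := by
        refine Polynomial.natDegree_modByMonic_lt p hm ?_
        intro h1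
        have h3 : f.natDegree = 2 := by
          rw [hf]
          exact Polynomial.natDegree_X_pow_sub_C
        rw [h1, Polynomial.natDegree_one] at h3
        omega
      have h3 : f.natDegree = 2 := by
        rw [hf]
        exact Polynomial.natDegree_X_pow_sub_C
      omega
    obtain ⟨u, v, huv⟩ := Polynomial.exists_eq_X_add_C_of_natDegree_le_one hdeg
    refine ⟨v, u, ?_⟩
    have h4 : AdjoinRoot.mk f p = AdjoinRoot.mk f (p %ₘ f) := by
      have h5 := Polynomial.modByMonic_add_div p f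
      nth_rw 1 [← h5]
      rw [map_add, map_mul, AdjoinRoot.mk_self, zero_mul, add_zero]
    rw [h4, huv, map_add, map_mul, AdjoinRoot.mk_X, AdjoinRoot.mk_C, AdjoinRoot.mk_C, add_comm]
  have hαne : AdjoinRoot.root f ≠ 0 := by
    intro h0
    rw [h0, zero_pow two_ne_zero] at hroot
    have h1 : a = 0 := by
      apply (AdjoinRoot.of f).injective
      rw [← hroot, map_zero]
    exact ha ⟨0, by rw [h1]; ring⟩
  have h2L : (2 : AdjoinRoot f) ≠ 0 := by
    have := (map_ne_zero (AdjoinRoot.of f)).mpr h2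
    rwa [map_ofNat] at this
  refine ⟨AdjoinRoot f, inferInstance, inferInstance, ⟨s, AdjoinRoot.root f, a, h2, hαne, hs_root,
    ?_, hs_of, ?_, hroot⟩, rfl⟩
  · intro x
    obtain ⟨c, d, rfl⟩ := hrep x
    simp only [map_add, map_mul, hs_of, hs_root, map_neg, neg_neg]
  · intro x hx
    obtain ⟨c, d, rfl⟩ := hrep x
    simp only [map_add, map_mul, hs_of, hs_root] at hx
    have h5 : (2 : AdjoinRoot f) * (AdjoinRoot.of f d * AdjoinRoot.root f) = 0 := by
      linear_combination -hx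
    rcases mul_eq_zero.1 h5 with h6 | h6
    · exact absurd h6 h2L
    · refine ⟨c, ?_⟩
      rw [h6, add_zero]
      rfl

section mod2

variable {F : Type u} [Field F]

/-- `2 K₂(F)`. -/
private noncomputable def R2 (F : Type u) [Field F] : AddSubgroup (K2 F) :=
  (DistribMulAction.toAddMonoidHom (K2 F) (2 : ℤ)).range

private theorem mem_R2 {x : K2 F} : x ∈ R2 F ↔ ∃ v, x = (2 : ℤ) • v := by
  constructor
  · rintro ⟨v, hv⟩
    exact ⟨v, hv.symm⟩
  · rintro ⟨v, hv⟩
    exact ⟨v, hv.symm⟩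

/-- The symbol modulo `2`. -/
private noncomputable def sg (a b : F) : K2 F ⧸ R2 F := QuotientAddGroup.mk' (R2 F) (S a b)

private theorem sg_two (x : K2 F ⧸ R2 F) : x + x = 0 := by
  obtain ⟨y, rfl⟩ := QuotientAddGroup.mk'_surjective (R2 F) x
  rw [← map_add, ← two_zsmul]
  exact (QuotientAddGroup.eq_zero_iff _).2 (mem_R2.2 ⟨y, rfl⟩)

private theorem sg_eq_iff {a b c d : F} (h : sg a b = sg c d) : ∃ v : K2 F,
    S a b = S c d + (2 : ℤ) • v := by
  have h1 : QuotientAddGroup.mk' (R2 F) (S a b - S c d) = 0 := by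
    rw [map_sub]
    exact sub_eq_zero.2 h
  obtain ⟨v, hv⟩ := mem_R2.1 ((QuotientAddGroup.eq_zero_iff _).1 h1)
  exact ⟨v, by rw [← hv]; abel⟩

private theorem sg_zero_of {a b : F} (h : ∃ v : K2 F, S a b = (2 : ℤ) • v) : sg a b = 0 :=
  (QuotientAddGroup.eq_zero_iff _).2 (mem_R2.2 h)

private theorem sg_mul_left {a b : F} (ha : a ≠ 0) (hb : b ≠ 0) (c : F) :
    sg (a * b) c = sg a c + sg b c := by
  unfold sg
  rw [S_mul_left ha hb, map_add]

private theorem sg_mul_right {b c : F} (hb : b ≠ 0) (hc : c ≠ 0) (a : F) :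
    sg a (b * c) = sg a b + sg a c := by
  unfold sg
  rw [S_mul_right hb hc, map_add]

private theorem sg_comm (a b : F) : sg a b = sg b a := by
  have h1 : sg a b = - sg b a := by
    unfold sg
    rw [S_comm, map_neg]
  rw [h1]
  exact neg_eq_of_add_eq_zero_left (sg_two _)

private theorem sg_sq_right (a b : F) : sg a (b ^ 2) = 0 := by
  apply sg_zero_of
  refine ⟨S a b, ?_⟩
  rw [S_pow_right, two_nsmul, two_zsmul]

private theorem sg_sq_left (a b : F) : sg (a ^ 2) b = 0 := by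
  rw [sg_comm, sg_sq_right]

end mod2

theorem lemL {F : Type u} [Field F] {a c d x₁ x₂ y₁ y₂ : F} (ha : a ≠ 0) (hc : c ≠ 0) (hd : d ≠ 0)
    (h1 : d = x₁ ^ 2 + a * x₂ ^ 2 - c * (y₁ ^ 2 + a * y₂ ^ 2)) (h3 : x₁ * x₂ = c * (y₁ * y₂)) :
    ∃ (e : F) (v : K2 F), e ≠ 0 ∧ S c d = S a e + (2 : ℤ) • v := by
  obtain ⟨r, hr⟩ : ∃ r : F, r = x₁ ^ 2 - c * y₁ ^ 2 := ⟨_, rfl⟩
  obtain ⟨s, hs⟩ : ∃ s : F, s = x₂ ^ 2 - c * y₂ ^ 2 := ⟨_, rfl⟩
  have hdrs : d = r + a * s := by
    rw [h1, hr, hs]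
    ring
  have hcr : r ≠ 0 → sg c r = 0 := fun h => sg_zero_of (square_symbol hc h hr)
  have hcs : s ≠ 0 → sg c s = 0 := fun h => sg_zero_of (square_symbol hc h hs)
  by_cases hr0 : r = 0
  · have hd' : d = a * s := by rw [hdrs, hr0, zero_add]
    have hs0 : s ≠ 0 := by
      rintro rfl
      exact hd (by rw [hd', mul_zero])
    obtain ⟨v, hv⟩ := sg_eq_iff (a := c) (b := d) (c := a) (d := c) (by
      rw [hd', sg_mul_right ha hs0, hcs hs0, add_zero, sg_comm])
    exact ⟨c, v, hc, hv⟩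
  by_cases hs0 : s = 0
  · have hd' : d = r := by rw [hdrs, hs0, mul_zero, add_zero]
    obtain ⟨v, hv⟩ := sg_eq_iff (a := c) (b := d) (c := a) (d := 1) (by
      rw [hd', hcr hr0]
      have := sg_sq_right a (1 : F)
      rw [one_pow] at this
      exact this.symm)
    exact ⟨1, v, one_ne_zero, hv⟩
  have hrd : r * d ≠ 0 := mul_ne_zero hr0 hd
  have has : a * s ≠ 0 := mul_ne_zero ha hs0
  obtain ⟨t, ht⟩ : ∃ t : F, t = x₁ * y₂ - x₂ * y₁ := ⟨_, rfl⟩
  have hrst : r * s = -(c * t ^ 2) := by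
    rw [hr, hs, ht]
    linear_combination (x₁ * x₂ - c * (y₁ * y₂)) * h3
  have hacr : -(a * c * r) ≠ 0 := neg_ne_zero.2 (mul_ne_zero (mul_ne_zero ha hc) hr0)
  have ht0 : t ≠ 0 := by
    rintro h0
    rw [h0] at hrst
    have : r * s = 0 := by rw [hrst]; ring
    exact mul_ne_zero hr0 hs0 this
  have has' : a * s = -(a * c * r) * (t / r) ^ 2 := by
    rw [div_pow, ← mul_div_assoc, eq_div_iff (pow_ne_zero 2 hr0)]
    linear_combination a * r * hrst
  have hx : ∀ x : F, sg x (a * s) = sg x (-(a * c * r)) := by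
    intro x
    rw [has', sg_mul_right hacr (pow_ne_zero 2 (div_ne_zero ht0 hr0)), sg_sq_right, add_zero]
  have h4 : sg (r * d) (a * s * d) = 0 := by
    have h5 : sg (r / d) (a * s / d) = 0 := by
      apply sg_zero_of
      refine ⟨0, ?_⟩
      rw [smul_zero]
      apply S_of_add_eq_one
      rw [← add_div, ← hdrs, div_self hd]
    have h6 : r * d = r / d * d ^ 2 := by
      field_simp
    have h7 : a * s * d = a * s / d * d ^ 2 := by
      field_simp
    rw [h6, h7, sg_mul_left (div_ne_zero hr0 hd) (pow_ne_zero 2 hd), sg_sq_left, add_zero,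
      sg_mul_right (div_ne_zero has hd) (pow_ne_zero 2 hd), sg_sq_right, add_zero, h5]
  have hm1 : (-1 : F) ≠ 0 := neg_ne_zero.2 one_ne_zero
  have hac : a * c ≠ 0 := mul_ne_zero ha hc
  have hnr : sg r (-r) = 0 := sg_zero_of ⟨0, by rw [S_neg_self, smul_zero]⟩
  have hdd : sg d d = sg d (-1) := by
    unfold sg
    rw [S_self]
  have e1 : sg r (-(a * c * r)) = sg r (a * c) := by
    rw [show -(a * c * r) = a * c * (-r) by ring, sg_mul_right hac (neg_ne_zero.2 hr0), hnr,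
      add_zero]
  have e2 : sg d (-(a * c * r)) = sg d (-1) + sg d (a * c) + sg d r := by
    rw [show -(a * c * r) = (-1) * (a * c) * r by ring,
      sg_mul_right (mul_ne_zero hm1 hac) hr0, sg_mul_right hm1 hac]
  rw [sg_mul_left hr0 hd, sg_mul_right has hd, sg_mul_right has hd, hx r, hx d, e1, e2, hdd,
    sg_comm r d] at h4
  have h5 : sg r (a * c) + sg d (a * c) = 0 := by
    have t1 := sg_two (sg d r)
    have t2 := sg_two (sg d (-1))
    have : sg r (a * c) + sg d (a * c) + (sg d r + sg d r) + (sg d (-1) + sg d (-1)) = 0 := by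
      rw [← h4]
      abel
    rwa [t1, t2, add_zero, add_zero] at this
  have h6 : sg (r * d) a + sg (r * d) c = 0 := by
    rw [← sg_mul_right ha hc, sg_mul_left hr0 hd]
    exact h5
  have h7 : sg (r * d) a = sg (r * d) c := by
    have t1 := sg_two (sg (r * d) c)
    exact add_right_cancel (h6.trans t1.symm)
  obtain ⟨v, hv⟩ := sg_eq_iff (a := c) (b := d) (c := a) (d := r * d) (by
    rw [sg_comm a, h7, sg_comm (r * d) c, sg_mul_right hr0 hd, hcr hr0, zero_add])
  exact ⟨r * d, v, hrd, hv⟩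

theorem D2 {F Ω : Type u} [Field F] [Field Ω] [Algebra F Ω] [IsGalois F Ω] [IsSepClosed Ω]
    (h2 : (2 : F) ≠ 0) {a b c d : F} (ha : a ≠ 0) (hb : b ≠ 0) (hc : c ≠ 0) (hd : d ≠ 0)
    (h : hh Ω h2 (S a b + S c d) = 0) : ∃ v : K2 F, S a b + S c d = (2 : ℤ) • v := by
  by_cases hsq : ∃ x : F, a = x ^ 2
  · obtain ⟨x, hx⟩ := hsq
    have h1 : S a b = (2 : ℤ) • S x b := by
      rw [hx, S_pow_left, two_nsmul, two_zsmul]
    have h3 : hh Ω h2 (S c d) = 0 := by
      rw [map_add, h1, hh_two, zero_add] at h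
      exact h
    obtain ⟨v, hv⟩ := D1 h2 hc hd h3
    exact ⟨S x b + v, by rw [h1, hv, smul_add]⟩
  · obtain ⟨L, _, _, q, hq⟩ := exists_quad h2 hsq
    have h2' : (2 : L) ≠ 0 := q.twoL
    have h3 := hh_map (Ω' := SeparableClosure L) h2 h2' (algebraMap F L) h
    rw [map_add, K2.map_S, K2.map_S, map_add] at h3
    have h4 : S (algebraMap F L a) (algebraMap F L b) = (2 : ℤ) • S q.α (algebraMap F L b) := by
      rw [← hq, ← q.sq, S_pow_left, two_nsmul, two_zsmul]
    rw [h4, hh_two, zero_add] at h3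
    obtain ⟨X, Y, hXY⟩ := D1' h2' ((map_ne_zero (algebraMap F L)).2 hc)
      ((map_ne_zero (algebraMap F L)).2 hd) h3
    have hX := q.decomp X
    have hY := q.decomp Y
    have hsq' := q.sq
    rw [hq] at hsq'
    obtain ⟨x₁, hx₁⟩ : ∃ x, x = q.re X := ⟨_, rfl⟩
    obtain ⟨x₂, hx₂⟩ : ∃ x, x = q.im X := ⟨_, rfl⟩
    obtain ⟨y₁, hy₁⟩ : ∃ x, x = q.re Y := ⟨_, rfl⟩
    obtain ⟨y₂, hy₂⟩ : ∃ x, x = q.im Y := ⟨_, rfl⟩
    rw [← hx₁, ← hx₂] at hX
    rw [← hy₁, ← hy₂] at hY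
    have h5 : algebraMap F L d + algebraMap F L 0 * q.α =
        algebraMap F L (x₁ ^ 2 + a * x₂ ^ 2 - c * (y₁ ^ 2 + a * y₂ ^ 2)) +
        algebraMap F L (2 * (x₁ * x₂ - c * (y₁ * y₂))) * q.α := by
      rw [map_zero, zero_mul, add_zero, hXY, hX, hY]
      simp only [map_add, map_sub, map_mul, map_pow, map_ofNat]
      linear_combination ((algebraMap F L x₂) ^ 2 - algebraMap F L c * (algebraMap F L y₂) ^ 2) *
        hsq'
    obtain ⟨h6, h7⟩ := q.coord_inj h5
    have h8 : x₁ * x₂ = c * (y₁ * y₂) := by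
      rcases mul_eq_zero.1 h7.symm with h9 | h9
      · exact absurd h9 h2
      · exact sub_eq_zero.1 h9
    obtain ⟨e, v, he, hv⟩ := lemL ha hc hd h6 h8
    have h9 : S a b + S c d = S a (b * e) + (2 : ℤ) • v := by
      rw [hv, S_mul_right hb he, add_assoc]
    have h10 : hh Ω h2 (S a (b * e)) = 0 := by
      rw [h9, map_add, hh_two, add_zero] at h
      exact h
    obtain ⟨w, hw⟩ := D1 h2 ha (mul_ne_zero hb he) h10
    exact ⟨w + v, by rw [h9, hw, smul_add]⟩

end Pool.Agent.MK
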