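import Pool.Agent.MK.EInd
import Pool.Agent.Helper14.Massey.ProP

/-! # Merkurjev's theorem for the maximal pro-2 quotient

PROOF of `surj2`.  `G = Gal(SeparableClosure F/F)`, `mk : G → GalP 2 F = MaxProP 2 G` the quotient map.  Let `α = cls f hf` (`exists_cls`),
`f' g h = f (mk g) (mk h)`, a continuous cocycle on `G`.  By `exists_factor₂` there is `N ∈ POpen 2 G` such that `f' g h` depends only on the
cosets of `g, h` modulo `N` (continuous functions to the discrete `ZMod 2` are locally constant).  Put `c₀ = f 1 1`; on `N` `f' = c₀ = d1 c₀`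
(constant cochain).  `N` is normal, open, of index `2^k`.  By `E_ind` `f' = Σ κ_{a_i} ∪ κ_{b_i} + d1 χ`, `χ` continuous.
Each `κ_{a_i}` is a continuous homomorphism `G → ZMod 2`, its kernel is in `POpen 2 G` (`ker_mem_POpen`, with `Multiplicative (ZMod 2)`), so it
descends (`exists_descend`) to `A_i ∈ H1 2 (GalP 2 F)`, `A_i (mk g) = κ_{a_i} g`; similarly `B_i`.
Let `N₁` be the intersection of `N` and all the kernels, `N₁ ∈ POpen 2 G` (`inf_mem_POpen`).  For `u ∈ N₁`, `g ∈ G`: `f' u g = f' 1 g = f 1 (mk g) = f 1 1 = c₀`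
(cocycle identity for `(1, 1, g)`), and the cup products vanish at `(u, g)`, so `c₀ = χ u + χ g - χ (u g)`; similarly `c₀ = χ g + χ u - χ (g u)`
(cocycle identity for `(g, 1, 1)`).  With `χ₀ = χ - c₀`: `χ₀ (u g) = χ₀ u + χ₀ g` and `χ₀ (g u) = χ₀ g + χ₀ u`.  So `χ₀` is a
homomorphism on `N₁`, invariant under conjugation by `G`; `V = {u ∈ N₁ | χ₀ u = 0}` is an open normal subgroup of `G` with
`[N₁ : V] ≤ 2`, so `[G : V]` is a power of 2 and `V ∈ POpen 2 G`, `proPKer 2 G ≤ V`.  So `χ₀ (g k) = χ₀ g` for `k ∈ proPKer 2 G`, and `χ` descends to a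
continuous function `X` on `GalP 2 F` (quotient topology).  Since `mk` is surjective, `f = Σ A_i ∪ B_i + d1 X`, and
`isSumCup_cls_iff` gives the claim.
-/

set_option autoImplicit false
set_option linter.unusedSectionVars false

namespace Pool.Agent.MK

universe u v w

open Pool.Agent.Helper14.Massey

section

variable {G : Type u} [Group G] [TopologicalSpace G]

/-- the homomorphism of a class in `H¹` -/
private def desc_hom (c : H1 2 G) : G →* Multiplicative (ZMod 2) where
  toFun g := Multiplicative.ofAdd (c.1 g)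
  map_one' := by
    have h := c.2.2 1 1
    rw [mul_one] at h
    have h0 : c.1 1 = 0 := by
      have h1 : c.1 1 + 0 = c.1 1 + c.1 1 := by rw [add_zero]; exact h
      exact (add_left_cancel h1).symm
    rw [h0, ofAdd_zero]
  map_mul' g h := by rw [c.2.2 g h, ofAdd_add]

private theorem desc_two (x : Multiplicative (ZMod 2)) : x ^ 2 ^ 1 = 1 := by
  revert x
  decide

private theorem desc_ker (c : H1 2 G) : (desc_hom c).ker ∈ POpen 2 G := by
  refine ker_mem_POpen Nat.prime_two (desc_hom c) ?_ 1 fun g => desc_two _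
  exact (IsLocallyConstant.iff_continuous _).2 c.2.1 |>.comp Multiplicative.ofAdd

private theorem desc_one [IsTopologicalGroup G] (c : H1 2 G) : ∃ A : H1 2 (MaxProP 2 G),
    ∀ g : G, A.1 (g : MaxProP 2 G) = c.1 g := by
  obtain ⟨f', hf', e⟩ := exists_descend (desc_hom c) (desc_ker c)
  refine ⟨⟨fun x => Multiplicative.toAdd (f' x), ?_, fun σ τ => ?_⟩, fun g => ?_⟩
  · exact (hf'.comp Multiplicative.toAdd).continuous
  · change Multiplicative.toAdd (f' (σ * τ)) =
      Multiplicative.toAdd (f' σ) + Multiplicative.toAdd (f' τ)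
    rw [map_mul, toAdd_mul]
  · change Multiplicative.toAdd (f' (g : MaxProP 2 G)) = c.1 g
    rw [e]
    rfl

variable [IsTopologicalGroup G] [CompactSpace G]

private theorem desc_main {f : MaxProP 2 G → MaxProP 2 G → ZMod 2} (hf : f ∈ Z2 2 (MaxProP 2 G))
    {N : Subgroup G} (hN : N ∈ POpen 2 G)
    (hfN : ∀ g h g' h' : G, g⁻¹ * g' ∈ N → h⁻¹ * h' ∈ N →
      f (g : MaxProP 2 G) (h : MaxProP 2 G) = f (g' : MaxProP 2 G) (h' : MaxProP 2 G))
    {n : ℕ} (a b : Fin n → H1 2 G) {χ : G → ZMod 2} (hχ : Continuous χ)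
    (e : ∀ g h : G, f (g : MaxProP 2 G) (h : MaxProP 2 G) =
      ∑ i, (a i).1 g * (b i).1 h + (χ g + χ h - χ (g * h))) :
    ∃ (A B : Fin n → H1 2 (MaxProP 2 G)) (c : MaxProP 2 G → ZMod 2), Continuous c ∧
      ∀ σ τ, f σ τ = ∑ i, (A i : MaxProP 2 G → ZMod 2) σ * (B i : MaxProP 2 G → ZMod 2) τ +
        (c σ + c τ - c (σ * τ)) := by
  classical
  choose A hA using fun i => desc_one (a i)
  choose B hB using fun i => desc_one (b i)
  set c₀ : ZMod 2 := f 1 1 with hc₀
  have f1 : ∀ x, f 1 x = c₀ := by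
    intro x
    have h := hf.2 1 1 x
    rw [one_mul, one_mul] at h
    linear_combination h
  have f2 : ∀ x, f x 1 = c₀ := by
    intro x
    have h := hf.2 x 1 1
    rw [one_mul, mul_one] at h
    linear_combination -h
  -- the open subgroup
  set N₁ : Subgroup G := N ⊓ ((Finset.univ.inf fun i => (desc_hom (a i)).ker) ⊓
    (Finset.univ.inf fun i => (desc_hom (b i)).ker)) with hN₁
  have hN₁p : N₁ ∈ POpen 2 G := by
    refine inf_mem_POpen Nat.prime_two hN (inf_mem_POpen Nat.prime_two ?_ ?_)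
    · exact Finset.inf_induction (p := fun K : Subgroup G => K ∈ POpen 2 G) top_mem_POpen
        (fun K hK L hL => inf_mem_POpen Nat.prime_two hK hL) fun i _ => desc_ker (a i)
    · exact Finset.inf_induction (p := fun K : Subgroup G => K ∈ POpen 2 G) top_mem_POpen
        (fun K hK L hL => inf_mem_POpen Nat.prime_two hK hL) fun i _ => desc_ker (b i)
  have hNN : ∀ u ∈ N₁, u ∈ N := fun u hu => hu.1
  have hNa : ∀ u ∈ N₁, ∀ i, (a i).1 u = 0 := by
    intro u hu i
    have h1 : u ∈ (desc_hom (a i)).ker := (Finset.inf_le (Finset.mem_univ i) :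
      (Finset.univ.inf fun i => (desc_hom (a i)).ker) ≤ _) hu.2.1
    exact Multiplicative.ofAdd.injective (MonoidHom.mem_ker.1 h1)
  have hNb : ∀ u ∈ N₁, ∀ i, (b i).1 u = 0 := by
    intro u hu i
    have h1 : u ∈ (desc_hom (b i)).ker := (Finset.inf_le (Finset.mem_univ i) :
      (Finset.univ.inf fun i => (desc_hom (b i)).ker) ≤ _) hu.2.2
    exact Multiplicative.ofAdd.injective (MonoidHom.mem_ker.1 h1)
  have k1 : ∀ u ∈ N₁, ∀ g, χ (u * g) = χ u + χ g - c₀ := by
    intro u hu g
    have h1 := e u g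
    have h2 := hfN u g 1 g (by rw [mul_one]; exact N.inv_mem (hNN u hu))
      (by rw [inv_mul_cancel]; exact N.one_mem)
    have h3 : f ((1 : G) : MaxProP 2 G) (g : MaxProP 2 G) = c₀ := f1 _
    rw [h2, h3, Finset.sum_eq_zero fun i _ => by rw [hNa u hu i, zero_mul], zero_add] at h1
    linear_combination h1
  have k2 : ∀ u ∈ N₁, ∀ g, χ (g * u) = χ g + χ u - c₀ := by
    intro u hu g
    have h1 := e g u
    have h2 := hfN g u g 1 (by rw [inv_mul_cancel]; exact N.one_mem)
      (by rw [mul_one]; exact N.inv_mem (hNN u hu))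
    have h3 : f (g : MaxProP 2 G) ((1 : G) : MaxProP 2 G) = c₀ := f2 _
    rw [h2, h3, Finset.sum_eq_zero fun i _ => by rw [hNb u hu i, mul_zero], zero_add] at h1
    linear_combination h1
  have k0 : χ 1 = c₀ := by
    have h1 := k1 1 N₁.one_mem 1
    rw [mul_one] at h1
    linear_combination -h1
  -- the subgroup `V`
  let ψ : N₁ →* Multiplicative (ZMod 2) :=
    { toFun := fun u => Multiplicative.ofAdd (χ u.1 - c₀)
      map_one' := by
        change Multiplicative.ofAdd (χ 1 - c₀) = 1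
        rw [k0, sub_self, ofAdd_zero]
      map_mul' := fun u v => by
        change Multiplicative.ofAdd (χ (u.1 * v.1) - c₀) = _
        rw [k1 u.1 u.2, ← ofAdd_add]
        congr 1
        ring }
  let V : Subgroup G :=
    { carrier := {u | u ∈ N₁ ∧ χ u = c₀}
      mul_mem' := by
        rintro u v ⟨hu, hu'⟩ ⟨hv, hv'⟩
        refine ⟨N₁.mul_mem hu hv, ?_⟩
        rw [k1 u hu, hu', hv']
        ring
      one_mem' := ⟨N₁.one_mem, k0⟩
      inv_mem' := by
        rintro u ⟨hu, hu'⟩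
        refine ⟨N₁.inv_mem hu, ?_⟩
        have h1 := k1 u hu u⁻¹
        rw [mul_inv_cancel, k0, hu'] at h1
        linear_combination -h1 }
  have hVN : V ≤ N₁ := fun u hu => hu.1
  have hV : V ∈ POpen 2 G := by
    refine ⟨⟨?_⟩, ?_, ?_⟩
    · rintro u ⟨hu, hu'⟩ g
      have h1 : g * u * g⁻¹ ∈ N₁ := hN₁p.1.conj_mem u hu g
      refine ⟨h1, ?_⟩
      have h2 := k1 _ h1 g
      rw [inv_mul_cancel_right, k2 u hu] at h2
      linear_combination -h2 + hu'
    · have h1 : (V : Set G) = (N₁ : Set G) ∩ χ ⁻¹' {c₀} := rfl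
      rw [h1]
      exact hN₁p.2.1.inter ((isOpen_discrete _).preimage hχ)
    · obtain ⟨k, hk⟩ := hN₁p.2.2
      have h1 : V.subgroupOf N₁ = ψ.ker := by
        ext u
        rw [Subgroup.mem_subgroupOf, MonoidHom.mem_ker]
        constructor
        · rintro ⟨-, h⟩
          change Multiplicative.ofAdd (χ u.1 - c₀) = 1
          rw [h, sub_self, ofAdd_zero]
        · intro h
          have h' : χ u.1 - c₀ = 0 := Multiplicative.ofAdd.injective h
          exact ⟨u.2, sub_eq_zero.1 h'⟩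
      have h2 : V.relIndex N₁ ∣ 2 ^ 1 := by
        rw [Subgroup.relIndex, h1, Subgroup.index_ker]
        have h3 := Subgroup.card_subgroup_dvd_card ψ.range
        rwa [Nat.card_eq_fintype_card (α := Multiplicative (ZMod 2)), Fintype.card_multiplicative,
          ZMod.card] at h3
      obtain ⟨m, -, hm⟩ := (Nat.dvd_prime_pow Nat.prime_two).1 h2
      refine ⟨m + k, ?_⟩
      rw [← Subgroup.relIndex_mul_index hVN, hm, hk, pow_add]
  have k3 : ∀ u ∈ proPKer 2 G, ∀ g, χ (g * u) = χ g := by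
    intro u hu g
    have h1 : u ∈ V := proPKer_le hV hu
    rw [k2 u h1.1 g, h1.2]
    ring
  have hwd : ∀ g h : G, (QuotientGroup.leftRel (proPKer 2 G)) g h → χ g = χ h := by
    intro g h hgh
    rw [QuotientGroup.leftRel_apply] at hgh
    have h1 := k3 _ hgh g
    rw [mul_inv_cancel_left] at h1
    exact h1.symm
  refine ⟨A, B, Quotient.lift χ hwd, hχ.quotient_lift hwd, fun σ τ => ?_⟩
  obtain ⟨g, rfl⟩ := QuotientGroup.mk_surjective σ
  obtain ⟨h, rfl⟩ := QuotientGroup.mk_surjective τ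
  have e1 : ∑ i, (A i).1 (g : MaxProP 2 G) * (B i).1 (h : MaxProP 2 G) =
      ∑ i, (a i).1 g * (b i).1 h :=
    Finset.sum_congr rfl fun i _ => by rw [hA, hB]
  rw [e1]
  exact e g h

end

/-- Merkurjev's theorem: for a field of characteristic not 2 every class in `H²(G_F(2), ℤ/2)` is a
sum of cup products of classes in `H¹`. -/
theorem surj2 {F : Type u} [Field F] (h2 : (2 : F) ≠ 0) (α : H2 2 (GalP 2 F)) :
    ∃ m : ℕ, IsSumCup m α := by
  obtain ⟨f, hf, rfl⟩ := exists_cls α
  have hf' : (f : MaxProP 2 Gal(SeparableClosure F/F) → MaxProP 2 Gal(SeparableClosure F/F) →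
    ZMod 2) ∈ Z2 2 (MaxProP 2 Gal(SeparableClosure F/F)) := hf
  obtain ⟨N, hN, hfN⟩ := exists_factor₂ (G := Gal(SeparableClosure F/F)) Nat.prime_two (f := f)
    ((IsLocallyConstant.iff_continuous _).2 hf'.1)
  let mk : Gal(SeparableClosure F/F) →* MaxProP 2 Gal(SeparableClosure F/F) := QuotientGroup.mk' _
  have hmk : Continuous mk := QuotientGroup.continuous_mk
  obtain ⟨k, hk⟩ := hN.2.2
  obtain ⟨n, a, b, χ, ha, hb, hχ, e⟩ := E_ind (SeparableClosure F) k F h2
    (fun g h => f (mk g) (mk h))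
    ⟨hf'.1.comp ((hmk.comp continuous_fst).prodMk (hmk.comp continuous_snd)), fun σ τ υ =>
      hf'.2 (mk σ) (mk τ) (mk υ)⟩ N hN.1 hN.2.1 hk
    ⟨fun _ => f (mk 1) (mk 1), continuous_const, fun g hg h hh => by
      rw [add_sub_cancel_right]
      exact hfN g h 1 1 (by rw [mul_one]; exact N.inv_mem hg) (by rw [mul_one]; exact N.inv_mem hh)⟩
  refine ⟨n, (isSumCup_cls_iff hf).2 ?_⟩
  exact desc_main hf' hN hfN (fun i => ⟨kum (SeparableClosure F) (a i), kum_mem h2 (ha i)⟩)
    (fun i => ⟨kum (SeparableClosure F) (b i), kum_mem h2 (hb i)⟩) hχ e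

end Pool.Agent.MK
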