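import Pool.Agent.MK.EStep

/-! # Surjectivity of the norm residue homomorphism: induction

PROOF of `E_ind` by induction on `m`, for all `F` (with the same `Ω` one may use `F ⊂ L ⊂ Ω`).
`m = 0`: `U = ⊤` and `f` is a coboundary: `n = 0`.
Step: `U` is normal and open of index `2^(m+1)` in `G = Gal(Ω/F)`.  `G ⧸ U` is a 2-group of order `2^(m+1) > 1`, so it has a subgroup of index
2 (`Sylow.exists_subgroup_card_pow_prime` for order `2^m`), whose preimage `H ⊇ U` has index 2 in `G`; it is open (contains `U`) and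
normal.  Let `c : G → ZMod 2` be `0` on `H` and `1` outside, a continuous homomorphism (index 2), nonzero; by `kum_surj` `c = kum a`, and
`a` is not a square (`kum_eq_zero`).  Take `L, q` by `exists_quadΩ`; the range of `resL L` is `H`.  The preimage `U'` of `U` under `resL L` is
open and normal of index `2^m` (`resL` is injective with range `H` of index 2, and `[G : U] = [G : H] [H : U]`:
`Subgroup.relIndex_mul_index`), the pullback of `f` is a continuous cocycle, and it is a coboundary on `U'`.  The induction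
hypothesis for `L` (`IsGalois L Ω`, `IsSepClosed Ω`, characteristic not 2) and `E_step` finish the proof.
-/

set_option autoImplicit false
set_option linter.unusedSectionVars false

namespace Pool.Agent.MK

universe u v w

open Pool.Agent.Helper14.Massey

private theorem exists_index_two {G : Type u} [Group G] (U : Subgroup G) [U.Normal] {m : ℕ}
    (h : U.index = 2 ^ (m + 1)) : ∃ H : Subgroup G, U ≤ H ∧ H.index = 2 := by
  have hcard : Nat.card (G ⧸ U) = 2 ^ (m + 1) := h
  have : Finite (G ⧸ U) := Nat.finite_of_card_ne_zero (by rw [hcard]; positivity)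
  have : Fact (Nat.Prime 2) := ⟨Nat.prime_two⟩
  obtain ⟨K, hK⟩ := Sylow.exists_subgroup_card_pow_prime (G := G ⧸ U) 2 (n := m)
    (by rw [hcard]; exact pow_dvd_pow 2 (Nat.le_succ m))
  refine ⟨K.comap (QuotientGroup.mk' U), ?_, ?_⟩
  · intro x hx
    rw [Subgroup.mem_comap]
    have h1 : QuotientGroup.mk' U x = 1 := (QuotientGroup.eq_one_iff x).mpr hx
    rw [h1]
    exact K.one_mem
  · rw [Subgroup.index_comap_of_surjective _ (QuotientGroup.mk'_surjective U)]
    have h3 := K.card_mul_index
    rw [hK, hcard, pow_succ] at h3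
    exact Nat.eq_of_mul_eq_mul_left (by positivity) h3

open Classical in
private theorem ind_mem_H1 {G : Type u} [Group G] [TopologicalSpace G] [IsTopologicalGroup G]
    (H : Subgroup G) (hH : IsOpen (H : Set G)) (h2 : H.index = 2) :
    (fun g : G => if g ∈ H then (0 : ZMod 2) else 1) ∈ H1 2 G := by
  refine ⟨?_, ?_⟩
  · apply IsLocallyConstant.continuous
    rw [IsLocallyConstant.iff_exists_open]
    intro x
    by_cases hx : x ∈ H
    · refine ⟨H, hH, hx, fun y hy => ?_⟩
      have hy' : y ∈ H := hy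
      show (if y ∈ H then (0 : ZMod 2) else 1) = if x ∈ H then (0 : ZMod 2) else 1
      rw [if_pos hx, if_pos hy']
    · refine ⟨(H : Set G)ᶜ, (H.isClosed_of_isOpen hH).isOpen_compl, hx, fun y hy => ?_⟩
      have hy' : y ∉ H := hy
      show (if y ∈ H then (0 : ZMod 2) else 1) = if x ∈ H then (0 : ZMod 2) else 1
      rw [if_neg hx, if_neg hy']
  · intro x y
    have h := Subgroup.mul_mem_iff_of_index_two h2 (a := x) (b := y)
    show (if x * y ∈ H then (0 : ZMod 2) else 1) =
      (if x ∈ H then (0 : ZMod 2) else 1) + if y ∈ H then (0 : ZMod 2) else 1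
    by_cases hx : x ∈ H <;> by_cases hy : y ∈ H
    · rw [if_pos (h.mpr (by simp [hx, hy])), if_pos hx, if_pos hy, add_zero]
    · rw [if_neg (fun h' => hy ((h.mp h').mp hx)), if_pos hx, if_neg hy, zero_add]
    · rw [if_neg (fun h' => hx ((h.mp h').mpr hy)), if_neg hx, if_pos hy, add_zero]
    · rw [if_pos (h.mpr (by simp [hx, hy])), if_neg hx, if_neg hy]
      decide

theorem E_ind (Ω : Type u) [Field Ω] [IsSepClosed Ω] (m : ℕ) : ∀ (F : Type u) [Field F] [Algebra F Ω]
    [IsGalois F Ω], (2 : F) ≠ 0 → ∀ (f : Gal(Ω/F) → Gal(Ω/F) → ZMod 2), f ∈ Z2 2 Gal(Ω/F) →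
    ∀ U : Subgroup Gal(Ω/F), U.Normal → IsOpen (U : Set Gal(Ω/F)) → U.index = 2 ^ m →
    (∃ χ : Gal(Ω/F) → ZMod 2, Continuous χ ∧
      ∀ g ∈ U, ∀ h ∈ U, f g h = χ g + χ h - χ (g * h)) → IsSym Ω f := by
  induction m with
  | zero =>
    intro F _ _ _ h2 f hf U hUn hUo hUi hχ
    obtain ⟨χ, hχc, hχ⟩ := hχ
    rw [pow_zero, Subgroup.index_eq_one] at hUi
    subst hUi
    refine ⟨0, Fin.elim0, Fin.elim0, χ, fun i => i.elim0, fun i => i.elim0, hχc, fun g h => ?_⟩
    rw [hχ g (Subgroup.mem_top g) h (Subgroup.mem_top h), Fin.sum_univ_zero, zero_add]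
  | succ m ih =>
    intro F _ _ _ h2 f hf U hUn hUo hUi hχ
    obtain ⟨χ, hχc, hχ⟩ := hχ
    obtain ⟨H, hUH, hH2⟩ := exists_index_two U hUi
    have hHo : IsOpen (H : Set Gal(Ω/F)) := Subgroup.isOpen_mono hUH hUo
    have hc := ind_mem_H1 H hHo hH2
    obtain ⟨a, ha, hca⟩ := kum_surj (Ω := Ω) h2 _ hc
    have hker : ∀ g : Gal(Ω/F), kum Ω a g = 0 ↔ g ∈ H := by
      intro g
      have h1 := congrFun hca g
      rw [← h1]
      by_cases hg : g ∈ H
      · simp [hg]
      · simp [hg]
    have hsq : ¬ ∃ x : F, a = x ^ 2 := by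
      intro h
      have h1 := (kum_eq_zero (Ω := Ω) h2 ha).mpr h
      have h3 : H = ⊤ := by
        rw [Subgroup.eq_top_iff']
        intro g
        exact (hker g).mp (h1 g)
      rw [h3, Subgroup.index_top] at hH2
      omega
    obtain ⟨L, q, hq⟩ := exists_quadΩ (Ω := Ω) h2 ha hsq
    have := hq.fin
    have hrange : (resL L).range = H := by
      ext g
      rw [MonoidHom.mem_range, ← hker g]
      exact (hq.ker g).symm
    have h2L : (2 : L) ≠ 0 := by
      intro h
      apply h2
      apply (algebraMap F L).injective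
      rw [map_ofNat, h, map_zero]
    have hind : (U.comap (resL L)).index = 2 ^ m := by
      rw [Subgroup.index_comap, hrange]
      have h3 := Subgroup.relIndex_mul_index hUH
      rw [hH2, hUi, pow_succ] at h3
      exact Nat.eq_of_mul_eq_mul_right (by norm_num) h3
    have hf' : (fun τ τ' => f (resL L τ) (resL L τ')) ∈ Z2 2 Gal(Ω/L) := by
      refine ⟨?_, ?_⟩
      · exact hf.1.comp (((resL_cont L).comp continuous_fst).prodMk
          ((resL_cont L).comp continuous_snd))
      · intro x y z
        have h3 := hf.2 (resL L x) (resL L y) (resL L z)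
        rw [← map_mul, ← map_mul] at h3
        exact h3
    refine E_step h2 ha hsq hq hf (ih L h2L _ hf' (U.comap (resL L)) (hUn.comap (resL L))
      (hUo.preimage (resL_cont L)) hind ⟨fun τ => χ (resL L τ), hχc.comp (resL_cont L), ?_⟩)
    intro g hg h hh
    rw [Subgroup.mem_comap] at hg hh
    show f (resL L g) (resL L h) = χ (resL L g) + χ (resL L h) - χ (resL L (g * h))
    rw [map_mul]
    exact hχ _ hg _ hh

end Pool.Agent.MK
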