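import Pool.Agent.Helper14.Massey.Defs

/-! # Cohomology of a subgroup of index 2: kernel of the restriction

`G` is a topological group, `a : G → ZMod 2` a continuous surjective homomorphism, `H = ker a`.

PROOF of `ker_res`.  `α` is a continuous 2-cocycle on `G`, `χ : G → ZMod 2` continuous with
`α g h = χ g + χ h - χ (g h)` for `g, h ∈ H`.  Replace `α` by `α - d1 χ` (a continuous cocycle on `G`): we may assume `α = 0` on
`H × H`.  Fix `s` with `a s = 1`.  Let `λ g = 0` for `g ∈ H` and `λ g = α (g s⁻¹) s` for `g ∉ H`, continuous (`H` is open and closed).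
For `h ∈ H`: `(d1 λ) h s = λ h + λ s - λ (h s) = 0 + α 1 s - α h s`; note `α 1 s = α 1 1 = 0` (cocycle identity, `1 ∈ H`).  So
replacing `α` by `α + d1 λ` we may also assume `α h s = 0` for all `h ∈ H` (and still `α = 0` on `H × H`).
The cocycle identity `α y z - α (x y) z + α x (y z) - α x y = 0` with `x = h`, `y = h' ∈ H`, `z = s` gives
`α h (h' s) = 0`; so `α h g = 0` for all `h ∈ H`, `g ∈ G`.  With `x = h ∈ H`: `α (h y) z = α y z`.  So `α g z = 0` for
`g ∈ H` and `α g z = α s z =: c z` for `g ∉ H` (`g = (g s⁻¹) s`).  Cocycle identity with `x = s`, `y = h ∈ H`: `0 - c z + c (h z) - c h = 0`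
(`α (s h) z = c z` as `s h ∉ H`); with `x = s`, `y = s`: `c z - 0 + c (s z) - c s = 0`, so `c (s z) = c s + c z` mod 2.  So `c`
is a homomorphism, continuous, and `α g z = a g * c z`.
-/

set_option autoImplicit false

namespace Pool.Agent.MK

universe u

open Pool.Agent.Helper14.Massey

variable {G : Type u} [Group G] [TopologicalSpace G] [IsTopologicalGroup G]

private theorem z2_cases (x : ZMod 2) : x = 0 ∨ x = 1 := by
  revert x
  decide

private theorem z2_add (x : ZMod 2) : x + x = 0 := by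
  revert x
  decide

/-- The normalized case: `γ` vanishes on `H × H` and `H × {s}`. -/
private theorem ker_aux {a : G → ZMod 2} (ha : ∀ g g', a (g * g') = a g + a g') {s : G}
    (hs : a s = 1) {γ : G → G → ZMod 2}
    (hγ : ∀ σ τ υ, γ τ υ - γ (σ * τ) υ + γ σ (τ * υ) - γ σ τ = 0)
    (h0 : ∀ g g', a g = 0 → a g' = 0 → γ g g' = 0) (h1 : ∀ g, a g = 0 → γ g s = 0) :
    (∀ g g', γ s (g * g') = γ s g + γ s g') ∧ ∀ g g', γ g g' = a g * γ s g' := by
  have hdiv : ∀ g, a g = 1 → a (g * s⁻¹) = 0 := by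
    intro g hg
    have h2 := ha (g * s⁻¹) s
    rw [inv_mul_cancel_right, hg, hs] at h2
    have h3 : a (g * s⁻¹) + 1 = 0 + 1 := by rw [← h2, zero_add]
    exact add_right_cancel h3
  have h2 : ∀ h g, a h = 0 → γ h g = 0 := by
    intro h g hh
    rcases z2_cases (a g) with hg | hg
    · exact h0 h g hh hg
    · have h3 := hγ h (g * s⁻¹) s
      have h4 : a (h * (g * s⁻¹)) = 0 := by rw [ha, hh, hdiv g hg, add_zero]
      rw [inv_mul_cancel_right, h1 _ (hdiv g hg), h1 _ h4, h0 _ _ hh (hdiv g hg)] at h3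
      simpa using h3
  have h3 : ∀ h g z, a h = 0 → γ (h * g) z = γ g z := by
    intro h g z hh
    have h4 := hγ h g z
    rw [h2 h _ hh, h2 h _ hh] at h4
    linear_combination -h4
  have h4 : ∀ g z, a g = 1 → γ g z = γ s z := by
    intro g z hg
    have h5 := h3 (g * s⁻¹) s z (hdiv g hg)
    rwa [inv_mul_cancel_right] at h5
  have h5 : ∀ h z, a h = 0 → γ s (h * z) = γ s h + γ s z := by
    intro h z hh
    have h6 := hγ s h z
    rw [h2 h _ hh, h4 (s * h) z (by rw [ha, hs, hh, add_zero])] at h6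
    linear_combination h6
  have h6 : ∀ z, γ s (s * z) = γ s s + γ s z := by
    intro z
    have h7 := hγ s s z
    rw [h2 (s * s) _ (by rw [ha, hs, z2_add])] at h7
    linear_combination h7 - z2_add (γ s z)
  refine ⟨?_, ?_⟩
  · intro g z
    rcases z2_cases (a g) with hg | hg
    · exact h5 g z hg
    · have h7 := h5 (g * s⁻¹) (s * z) (hdiv g hg)
      have h8 := h5 (g * s⁻¹) s (hdiv g hg)
      rw [← mul_assoc, inv_mul_cancel_right, h6] at h7
      rw [inv_mul_cancel_right] at h8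
      rw [h7, h8, add_assoc]
  · intro g z
    rcases z2_cases (a g) with hg | hg
    · rw [h2 g z hg, hg, zero_mul]
    · rw [h4 g z hg, hg, one_mul]

theorem ker_res {a : G → ZMod 2} (ha : a ∈ H1 2 G) (hs : ∃ s, a s = 1) {α : G → G → ZMod 2}
    (hα : α ∈ Z2 2 G) {χ : G → ZMod 2} (hχ : Continuous χ)
    (h : ∀ g g' : G, a g = 0 → a g' = 0 → α g g' = χ g + χ g' - χ (g * g')) :
    ∃ (c : G → ZMod 2) (χ' : G → ZMod 2), c ∈ H1 2 G ∧ Continuous χ' ∧
      ∀ g g' : G, α g g' = a g * c g' + (χ' g + χ' g' - χ' (g * g')) := by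
  obtain ⟨hac, ham⟩ := ha
  obtain ⟨hαc, hαz⟩ := hα
  obtain ⟨s, hs⟩ := hs
  have ha1 : a 1 = 0 := by
    have h1 := ham 1 1
    rw [mul_one] at h1
    exact left_eq_add.1 h1
  obtain ⟨β, hβ⟩ : ∃ β : G → G → ZMod 2, β = fun g g' => α g g' - (χ g + χ g' - χ (g * g')) :=
    ⟨_, rfl⟩
  have hβz : ∀ σ τ υ, β τ υ - β (σ * τ) υ + β σ (τ * υ) - β σ τ = 0 := by
    intro σ τ υ
    rw [hβ]
    simp only [mul_assoc]
    linear_combination hαz σ τ υ
  have hβc : Continuous (fun x : G × G => β x.1 x.2) := by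
    rw [hβ]
    exact hαc.sub (((hχ.comp continuous_fst).add (hχ.comp continuous_snd)).sub
      (hχ.comp continuous_mul))
  have hβ0 : ∀ g g', a g = 0 → a g' = 0 → β g g' = 0 := by
    intro g g' hg hg'
    rw [hβ]
    show α g g' - _ = 0
    rw [h g g' hg hg', sub_self]
  have hβ1 : β 1 s = 0 := by
    have h1 := hβz 1 1 s
    rw [one_mul, one_mul, hβ0 1 1 ha1 ha1] at h1
    linear_combination h1
  obtain ⟨l, hl⟩ : ∃ l : G → ZMod 2, l = fun g => a g * β (g * s⁻¹) s := ⟨_, rfl⟩
  have hlc : Continuous l := by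
    rw [hl]
    exact hac.mul (hβc.comp ((continuous_mul_right s⁻¹).prodMk continuous_const))
  have hl0 : ∀ g, a g = 0 → l g = 0 := by
    intro g hg
    rw [hl]
    show a g * _ = 0
    rw [hg, zero_mul]
  have hls : ∀ g, a g = 0 → l (g * s) = β g s := by
    intro g hg
    rw [hl]
    show a (g * s) * β (g * s * s⁻¹) s = _
    rw [ham, hg, hs, zero_add, one_mul, mul_inv_cancel_right]
  obtain ⟨γ, hγ⟩ : ∃ γ : G → G → ZMod 2, γ = fun g g' => β g g' + (l g + l g' - l (g * g')) :=
    ⟨_, rfl⟩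
  have hγz : ∀ σ τ υ, γ τ υ - γ (σ * τ) υ + γ σ (τ * υ) - γ σ τ = 0 := by
    intro σ τ υ
    rw [hγ]
    simp only [mul_assoc]
    linear_combination hβz σ τ υ
  have hγc : Continuous (fun x : G × G => γ x.1 x.2) := by
    rw [hγ]
    exact hβc.add (((hlc.comp continuous_fst).add (hlc.comp continuous_snd)).sub
      (hlc.comp continuous_mul))
  obtain ⟨h1, h2⟩ := ker_aux ham hs hγz (γ := γ) (fun g g' hg hg' => by
      rw [hγ]
      show β g g' + (l g + l g' - l (g * g')) = 0
      rw [hβ0 g g' hg hg', hl0 g hg, hl0 g' hg', hl0 (g * g') (by rw [ham, hg, hg', add_zero])]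
      ring) (fun g hg => by
      rw [hγ]
      show β g s + (l g + l s - l (g * s)) = 0
      have h3 := hls 1 ha1
      rw [one_mul, hβ1] at h3
      rw [hl0 g hg, hls g hg, h3]
      ring)
  refine ⟨fun z => γ s z, fun g => χ g - l g, ⟨?_, h1⟩, hχ.sub hlc, ?_⟩
  · exact hγc.comp (continuous_const.prodMk continuous_id)
  · intro g g'
    have h3 := h2 g g'
    have h4 : γ g g' = α g g' - (χ g + χ g' - χ (g * g')) + (l g + l g' - l (g * g')) := by
      rw [hγ, hβ]
    show α g g' = a g * γ s g' + _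
    rw [← h3, h4]
    ring

end Pool.Agent.MK
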