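import Pool.Agent.Helper14.Massey.Defs

/-! # Cohomology of a subgroup of index 2: corestriction of cup products

`G` is a topological group, `a : G → ZMod 2` a continuous homomorphism with `a s = 1`, `H = ker a`.
`piH a s : G → H`, `g ↦ g` for `g ∈ H`, `g ↦ g s⁻¹` otherwise; `piH (h g) = h piH g` for `h ∈ H`; continuous (`H` is open and
closed); `piH 1 = 1 = piH s`.

PROOF of `cor_cup`.  Write `π = piH a s`.  Everything is modulo 2.  For a function `φ` of several variables in `G` write `φ` is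
H-invariant if `φ (h g₀, h g₁, ..) = φ (g₀, g₁, ..)` for `h ∈ H`; then `tr φ (g₀, ..) = φ (g₀, ..) + φ (s g₀, ..)` is invariant under all of
`G` (`s² ∈ H`, `s h s⁻¹ ∈ H`).  `δ R (g₀, g₁, g₂) = R (g₀, g₁) + R (g₁, g₂) - R (g₀, g₂)`.
Put `A (g₀, g₁, g₂) = α (g₀⁻¹ g₁) (g₁⁻¹ g₂)`: `G`-invariant and
`A(g₁,g₂,g₃) - A(g₀,g₂,g₃) + A(g₀,g₁,g₃) - A(g₀,g₁,g₂) = 0` (cocycle identity).
Put `P (g₀, g₁) = A (g₀, π g₀, π g₁) - A (g₀, g₁, π g₁)` (H-invariant).  The cocycle identities of `A` at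
`(g₀, π g₀, π g₁, π g₂)`, `(g₀, g₁, π g₁, π g₂)`, `(g₀, g₁, g₂, π g₂)` (first minus second plus third) give
`A (π g₀, π g₁, π g₂) - A (g₀, g₁, g₂) = δ P (g₀, g₁, g₂)`.
Put `Ỹ_i (g₀, g₁) = y_i ((π g₀)⁻¹ π g₁)` (H-invariant, `Ỹ(g₀,g₁) + Ỹ(g₁,g₂) = Ỹ(g₀,g₂)`), `X (g₀, g₁) = χ ((π g₀)⁻¹ π g₁)`,
`C_i (g₀, g₁) = c_i g₁ - c_i g₀` (G-invariant).  `c_i (π g) = c_i g - a g * c_i s`.  The hypothesis at
`(π g₀)⁻¹ π g₁, (π g₁)⁻¹ π g₂ ∈ H` gives
`A (π g₀, π g₁, π g₂) = Σ Ỹ_i (g₀, g₁) (C_i (g₁, g₂) - (a g₂ - a g₁) c_i s) + δ X`.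
With `Q_i (g₀, g₁) = Ỹ_i (g₀, g₁) a g₁` (H-invariant): `δ Q_i = - Ỹ_i (g₀, g₁) (a g₂ - a g₁)`.  So
`A + δ P = Σ Ỹ_i C_i + Σ c_i s δ Q_i + δ X`.  Apply `tr`: `tr A = 2 A = 0`, `tr (Ỹ_i C_i) = (tr Ỹ_i) C_i`:
`Σ (tr Ỹ_i) C_i = δ R`, `R = tr P - Σ c_i s tr Q_i - tr X`, `G`-invariant.  Evaluate at `(1, g, g g')`:
`(tr Ỹ_i)(1, g) = y_i (π g) + y_i (π (s g))`, `C_i (g, g g') = c_i g'`, `δ R (1, g, g g') = χ' g + χ' g' - χ' (g g')` with
`χ' g = R (1, g)`, continuous.
-/

set_option autoImplicit false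

namespace Pool.Agent.MK

universe u

open Pool.Agent.Helper14.Massey

variable {G : Type u} [Group G] [TopologicalSpace G] [IsTopologicalGroup G]

open Classical in
/-- The projection to the kernel of `a`. -/
noncomputable def piH (a : G → ZMod 2) (s g : G) : G := if a g = 0 then g else g * s⁻¹

theorem piH_cont {a : G → ZMod 2} (ha : a ∈ H1 2 G) (s : G) : Continuous (piH a s) := by
  unfold piH
  have hcl : IsClopen {g : G | a g = 0} := by
    have : {g : G | a g = 0} = a ⁻¹' {0} := rfl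
    rw [this]
    exact (isClopen_discrete {(0 : ZMod 2)}).preimage ha.1
  refine Continuous.if ?_ continuous_id (continuous_id.mul continuous_const)
  intro g hg
  rw [hcl.frontier_eq] at hg
  exact absurd hg (Set.notMem_empty g)

omit [IsTopologicalGroup G] in
theorem idxB_one {a : G → ZMod 2} (ha : a ∈ H1 2 G) : a 1 = 0 := by
  have := ha.2 1 1
  rw [mul_one] at this
  linear_combination -this

omit [IsTopologicalGroup G] in
theorem idxB_inv {a : G → ZMod 2} (ha : a ∈ H1 2 G) (g : G) : a g⁻¹ = -a g := by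
  have := ha.2 g g⁻¹
  rw [mul_inv_cancel, idxB_one ha] at this
  linear_combination -this

theorem idxB_zero_or_one : ∀ x : ZMod 2, x = 0 ∨ x = 1 := by decide

omit [IsTopologicalGroup G] [TopologicalSpace G] in
theorem idxB_piH_zero {a : G → ZMod 2} {s g : G} (h : a g = 0) : piH a s g = g := by
  simp [piH, h]

omit [IsTopologicalGroup G] [TopologicalSpace G] in
theorem idxB_piH_one {a : G → ZMod 2} {s g : G} (h : a g = 1) : piH a s g = g * s⁻¹ := by
  simp [piH, h]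

omit [IsTopologicalGroup G] in
theorem idxB_ker {a : G → ZMod 2} (ha : a ∈ H1 2 G) {s : G} (hs : a s = 1) (g : G) :
    a (piH a s g) = 0 := by
  rcases idxB_zero_or_one (a g) with h | h
  · rw [idxB_piH_zero h, h]
  · rw [idxB_piH_one h, ha.2, idxB_inv ha, h, hs]
    ring

theorem piH_ker {a : G → ZMod 2} (ha : a ∈ H1 2 G) {s : G} (hs : a s = 1) (g : G) :
    a (piH a s g) = 0 := idxB_ker ha hs g

omit [IsTopologicalGroup G] in
theorem idxB_mul {a : G → ZMod 2} (ha : a ∈ H1 2 G) (s : G) {h : G} (hh : a h = 0) (g : G) :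
    piH a s (h * g) = h * piH a s g := by
  have e : a (h * g) = a g := by rw [ha.2, hh, zero_add]
  rcases idxB_zero_or_one (a g) with h1 | h1
  · rw [idxB_piH_zero h1, idxB_piH_zero (e.trans h1)]
  · rw [idxB_piH_one h1, idxB_piH_one (e.trans h1), mul_assoc]

omit [IsTopologicalGroup G] in
theorem idxB_c {a : G → ZMod 2} {s : G} {c : G → ZMod 2} (hc : c ∈ H1 2 G) (g : G) :
    c (piH a s g) = c g - a g * c s := by
  rcases idxB_zero_or_one (a g) with h1 | h1
  · rw [idxB_piH_zero h1, h1]; ring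
  · rw [idxB_piH_one h1, h1, hc.2, idxB_inv hc]; ring

omit [IsTopologicalGroup G] in
/-- An `H`-invariant function gives a `G`-invariant one by the transfer. -/
theorem idxB_inv_tr {a : G → ZMod 2} (ha : a ∈ H1 2 G) {s : G} (hs : a s = 1)
    (F : G → G → ZMod 2) (hF : ∀ h g g', a h = 0 → F (h * g) (h * g') = F g g') (k g g' : G) :
    F (k * g) (k * g') + F (s * (k * g)) (s * (k * g')) = F g g' + F (s * g) (s * g') := by
  rcases idxB_zero_or_one (a k) with h1 | h1
  · have e1 := hF k g g' h1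
    have e2 := hF (s * k * s⁻¹) (s * g) (s * g')
      (by rw [ha.2, ha.2, idxB_inv ha, h1, hs]; ring)
    have e3 : ∀ x : G, s * k * s⁻¹ * (s * x) = s * (k * x) := fun x => by group
    rw [e3, e3] at e2
    rw [e1, e2]
  · have e1 := hF (k * s⁻¹) (s * g) (s * g') (by rw [ha.2, idxB_inv ha, h1, hs]; ring)
    have e3 : ∀ x : G, k * s⁻¹ * (s * x) = k * x := fun x => by group
    rw [e3, e3] at e1
    have e2 := hF (s * k) g g' (by rw [ha.2, h1, hs]; decide)
    rw [mul_assoc, mul_assoc] at e2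
    rw [e1, e2]; ring

omit [Group G] [IsTopologicalGroup G] in
theorem idxB_cont (φ : ZMod 2 → ZMod 2 → ZMod 2) {f g : G → ZMod 2} (hf : Continuous f)
    (hg : Continuous g) : Continuous fun x => φ (f x) (g x) :=
  (continuous_of_discreteTopology (f := fun q : ZMod 2 × ZMod 2 => φ q.1 q.2)).comp
    (hf.prodMk hg)

omit [Group G] [IsTopologicalGroup G] in
theorem idxB_sum {n : ℕ} {f : Fin n → G → ZMod 2} (hf : ∀ i, Continuous (f i)) :
    Continuous fun x => ∑ i, f i x := by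
  have h := (continuous_of_discreteTopology (f := fun q : Fin n → ZMod 2 => ∑ i, q i)).comp
    (continuous_pi hf)
  exact h

theorem cor_cup {a : G → ZMod 2} (ha : a ∈ H1 2 G) {s : G} (hs : a s = 1) {α : G → G → ZMod 2}
    (hα : α ∈ Z2 2 G) {n : ℕ} (y c : Fin n → G → ZMod 2) (hy : ∀ i, Continuous (y i))
    (hadd : ∀ i g g', a g = 0 → a g' = 0 → y i (g * g') = y i g + y i g')
    (hc : ∀ i, c i ∈ H1 2 G) {χ : G → ZMod 2} (hχ : Continuous χ)
    (h : ∀ g g' : G, a g = 0 → a g' = 0 →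
      α g g' = ∑ i, y i g * c i g' + (χ g + χ g' - χ (g * g'))) :
    ∃ χ' : G → ZMod 2, Continuous χ' ∧ ∀ g g' : G,
      ∑ i, (y i (piH a s g) + y i (piH a s (s * g))) * c i g' = χ' g + χ' g' - χ' (g * g') := by
  set π := piH a s with hπ
  have hker : ∀ g, a (π g) = 0 := idxB_ker ha hs
  have hπm : ∀ k, a k = 0 → ∀ g, π (k * g) = k * π g := fun k hk g => idxB_mul ha s hk g
  have hker2 : ∀ g g', a ((π g)⁻¹ * π g') = 0 := fun g g' => by
    rw [ha.2, idxB_inv ha, hker, hker]; ring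
  have h2 : ∀ x : ZMod 2, x + x = 0 := fun x => by
    have : (2 : ZMod 2) = 0 := by decide
    linear_combination x * this
  -- the homogeneous cochain of α
  let A : G → G → G → ZMod 2 := fun g0 g1 g2 => α (g0⁻¹ * g1) (g1⁻¹ * g2)
  have hAinv : ∀ k g0 g1 g2, A (k * g0) (k * g1) (k * g2) = A g0 g1 g2 := by
    intro k g0 g1 g2
    have e : ∀ x z : G, (k * x)⁻¹ * (k * z) = x⁻¹ * z := fun x z => by group
    simp only [A, e]
  have hAco : ∀ g0 g1 g2 g3, A g1 g2 g3 - A g0 g2 g3 + A g0 g1 g3 - A g0 g1 g2 = 0 := by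
    intro g0 g1 g2 g3
    have := hα.2 (g0⁻¹ * g1) (g1⁻¹ * g2) (g2⁻¹ * g3)
    have e : ∀ x y z : G, x⁻¹ * y * (y⁻¹ * z) = x⁻¹ * z := fun x y z => by group
    rw [e, e] at this
    exact this
  let Y : Fin n → G → G → ZMod 2 := fun i g0 g1 => y i ((π g0)⁻¹ * π g1)
  have hYadd : ∀ i g0 g1 g2, Y i g0 g2 = Y i g0 g1 + Y i g1 g2 := by
    intro i g0 g1 g2
    have := hadd i ((π g0)⁻¹ * π g1) ((π g1)⁻¹ * π g2) (hker2 _ _) (hker2 _ _)
    have e : ∀ x y z : G, x⁻¹ * y * (y⁻¹ * z) = x⁻¹ * z := fun x y z => by group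
    rw [e] at this
    exact this
  have hpinv : ∀ k, a k = 0 → ∀ g g', (π (k * g))⁻¹ * π (k * g') = (π g)⁻¹ * π g' := by
    intro k hk g g'
    rw [hπm k hk, hπm k hk]
    group
  have hYinv : ∀ i k g g', a k = 0 → Y i (k * g) (k * g') = Y i g g' := by
    intro i k g g' hk
    simp only [Y, hpinv k hk]
  let P : G → G → ZMod 2 := fun g0 g1 => A g0 (π g0) (π g1) - A g0 g1 (π g1)
  let X : G → G → ZMod 2 := fun g0 g1 => χ ((π g0)⁻¹ * π g1)
  let F : G → G → ZMod 2 := fun g0 g1 =>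
    P g0 g1 - ∑ i, c i s * (Y i g0 g1 * a g1) - X g0 g1
  have hFinv : ∀ k g g', a k = 0 → F (k * g) (k * g') = F g g' := by
    intro k g g' hk
    have e1 : P (k * g) (k * g') = P g g' := by
      simp only [P, hπm k hk, hAinv]
    have e2 : X (k * g) (k * g') = X g g' := by
      simp only [X, hpinv k hk]
    have e3 : a (k * g') = a g' := by rw [ha.2, hk, zero_add]
    simp only [F, e1, e2, e3, hYinv _ k g g' hk]
  have hmain : ∀ g0 g1 g2, A g0 g1 g2 + (F g0 g1 + F g1 g2 - F g0 g2) =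
      ∑ i, Y i g0 g1 * (c i g2 - c i g1) := by
    intro g0 g1 g2
    have e1 := h ((π g0)⁻¹ * π g1) ((π g1)⁻¹ * π g2) (hker2 _ _) (hker2 _ _)
    have e : ∀ x y z : G, x⁻¹ * y * (y⁻¹ * z) = x⁻¹ * z := fun x y z => by group
    rw [e] at e1
    have e2 : ∑ i, y i ((π g0)⁻¹ * π g1) * c i ((π g1)⁻¹ * π g2) =
        ∑ i, Y i g0 g1 * (c i g2 - c i g1) -
        ∑ i, c i s * (Y i g0 g1 * (a g2 - a g1)) := by
      rw [← Finset.sum_sub_distrib]
      refine Finset.sum_congr rfl fun i _ => ?_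
      have : c i ((π g1)⁻¹ * π g2) = c i g2 - a g2 * c i s - (c i g1 - a g1 * c i s) := by
        rw [(hc i).2, idxB_inv (hc i), idxB_c (hc i), idxB_c (hc i)]; ring
      rw [this]
      simp only [Y]
      ring
    have e3 : A (π g0) (π g1) (π g2) = α ((π g0)⁻¹ * π g1) ((π g1)⁻¹ * π g2) := rfl
    have c1 := hAco g0 (π g0) (π g1) (π g2)
    have c2 := hAco g0 g1 (π g1) (π g2)
    have c3 := hAco g0 g1 g2 (π g2)
    have e4 : ∑ i, c i s * (Y i g0 g1 * a g1) + ∑ i, c i s * (Y i g1 g2 * a g2) -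
        ∑ i, c i s * (Y i g0 g2 * a g2) = -∑ i, c i s * (Y i g0 g1 * (a g2 - a g1)) := by
      rw [← Finset.sum_add_distrib, ← Finset.sum_sub_distrib, ← Finset.sum_neg_distrib]
      refine Finset.sum_congr rfl fun i _ => ?_
      rw [hYadd i g0 g1 g2]; ring
    rw [e2] at e1
    simp only [F, P, X]
    linear_combination -(c1 - c2 + c3) - e4 + e3 + e1
  let R : G → G → ZMod 2 := fun g g' => F g g' + F (s * g) (s * g')
  have hR : ∀ k g g', R (k * g) (k * g') = R g g' := fun k g g' =>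
    idxB_inv_tr ha hs F (fun k g g' hk => hFinv k g g' hk) k g g'
  have hF1 : ∀ g0, Continuous (F g0) := by
    intro g0
    have hpc : Continuous π := piH_cont ha s
    have hp2 : Continuous fun g1 => (π g0)⁻¹ * π g1 := continuous_const.mul hpc
    have e : F g0 = fun g1 => α (g0⁻¹ * π g0) ((π g0)⁻¹ * π g1) +
        -α (g0⁻¹ * g1) (g1⁻¹ * π g1) + -(∑ i, c i s * (y i ((π g0)⁻¹ * π g1) * a g1)) +
        -χ ((π g0)⁻¹ * π g1) := by
      funext g1
      simp only [F, P, A, Y, X]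
      ring
    rw [e]
    refine idxB_cont (fun u v => u + -v) (idxB_cont (fun u v => u + -v)
      (idxB_cont (fun u v => u + -v) ?_ ?_) ?_) (hχ.comp hp2)
    · exact hα.1.comp (continuous_const.prodMk hp2)
    · exact hα.1.comp ((continuous_const.mul continuous_id).prodMk (continuous_id.inv.mul hpc))
    · refine idxB_sum fun i => ?_
      exact idxB_cont (fun u v => c i s * (u * v)) ((hy i).comp hp2) ha.1
  have hp1 : π 1 = 1 := idxB_piH_zero (idxB_one ha)
  have hps : π s = 1 := by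
    have := idxB_piH_one (s := s) hs
    rw [mul_inv_cancel] at this
    exact this
  refine ⟨R 1, ?_, fun g g' => ?_⟩
  · exact idxB_cont (fun u v => u + v) (hF1 1)
      ((hF1 (s * 1)).comp (continuous_const.mul continuous_id))
  · have m1 := hmain 1 g (g * g')
    have m2 := hmain (s * 1) (s * g) (s * (g * g'))
    have r1 : R g (g * g') = R 1 g' := by
      have := hR g 1 g'
      rwa [mul_one] at this
    have a1 := hAinv s 1 g (g * g')
    have z := h2 (A 1 g (g * g'))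
    have k1 : ∑ i, Y i 1 g * (c i (g * g') - c i g) = ∑ i, y i (π g) * c i g' := by
      refine Finset.sum_congr rfl fun i _ => ?_
      simp only [Y, hp1, (hc i).2]
      rw [inv_one, one_mul]; ring
    have k2 : ∑ i, Y i (s * 1) (s * g) * (c i (s * (g * g')) - c i (s * g)) =
        ∑ i, y i (π (s * g)) * c i g' := by
      refine Finset.sum_congr rfl fun i _ => ?_
      simp only [Y, mul_one, hps, (hc i).2]
      rw [inv_one, one_mul]; ring
    have k3 : ∑ i, (y i (π g) + y i (π (s * g))) * c i g' =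
        ∑ i, y i (π g) * c i g' + ∑ i, y i (π (s * g)) * c i g' := by
      rw [← Finset.sum_add_distrib]
      exact Finset.sum_congr rfl fun i _ => add_mul _ _ _
    rw [k3, ← k1, ← k2, ← m1, ← m2, a1, ← r1]
    simp only [R]
    linear_combination z

end Pool.Agent.MK
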