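import Pool.Agent.MK.CohC
import Pool.Agent.MK.IdxB
import Pool.Agent.MK.Quad

/-! # The quadratic extension `F(√a)` inside `Ω`

PROOFS.  `r = rt Ω a`, `H = {g | κ_a g = 0}`.
* `exists_quadΩ`: `L = F⟮r⟯` (`IntermediateField.adjoin`), every element is `x + y r`, `x, y ∈ F` (the elements fixed by `H` are of
  this form by `fixH`, and elements of `L` are fixed by `H`; so `L` consists exactly of the elements fixed by `H`).  Choose `g₀` with
  `κ_a g₀ = 1`; it maps `x + y r` to `x - y r`; `s` = the restriction of `g₀` to `L`.  All `g` with `κ_a g = 1` have the same restriction.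
* `resL`: restriction of scalars `Gal(Ω/L) →* Gal(Ω/F)`.  `resL_cont`: for a finite-dimensional `E` over `F` the preimage of
  `E.fixingSubgroup` contains the open fixing subgroup of `L(E)/L` (or: stabilizers of finitely many elements are open).
  `resL_range`: `g` is in the range iff it fixes `L` pointwise iff `κ_a g = 0`.  `resL_open`: the image of an open set is open: it is
  enough that for a finite-dimensional `E/L` the image of `E.fixingSubgroup` is open: it is the fixing subgroup of `E` as an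
  extension of `F`, which is finite-dimensional over `F`.
* `kum_resL`: `c ∈ F`: `kum` over `L` of the image of `c` at `τ` is `kum` over `F` of `c` at `resL τ`: `kum_iff` twice, with the same root.
* `kum_normL`: `w ∈ Lˣ`, `δ = rt Ω w` (a square root of `w`), `y g = 0` if `g δ = δ` and `1` otherwise.  For `g ∈ H`: `g w = w`, so `g δ = ±δ`,
  `g δ = (-1)^(y g) δ`.  Let `κ_a σ = 1`.  `ε = δ * σ⁻¹ δ`, `ε² = w * σ⁻¹ w = w * s w = N w`.  For `g ∈ H`:
  `g ε = g δ * σ⁻¹ (σ g σ⁻¹ δ) = (-1)^(y g + y (σ g σ⁻¹)) ε`.  For `g ∉ H`: `g δ = σ⁻¹ (σ g) δ = (-1)^(y (σ g)) σ⁻¹ δ` and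
  `g σ⁻¹ δ = (-1)^(y (g σ⁻¹)) δ`.  In both cases `g ε = (-1)^(y (piH g) + y (piH (σ g))) ε`; `kum_iff`.
-/

set_option autoImplicit false
set_option linter.unusedSectionVars false

namespace Pool.Agent.MK

universe u v w

open Pool.Agent.Helper14.Massey

variable {F : Type u} {Ω : Type u} [Field F] [Field Ω] [Algebra F Ω]
  [IsGalois F Ω] [IsSepClosed Ω] (h2 : (2 : F) ≠ 0)

/-- Restriction of scalars `Gal(Ω/L) → Gal(Ω/F)`. -/
noncomputable def resL (L : IntermediateField F Ω) : Gal(Ω/L) →* Gal(Ω/F) where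
  toFun τ := τ.restrictScalars F
  map_one' := rfl
  map_mul' _ _ := rfl

theorem resL_apply (L : IntermediateField F Ω) (τ : Gal(Ω/L)) (x : Ω) : resL L τ x = τ x := rfl

theorem resL_inj (L : IntermediateField F Ω) : Function.Injective (resL L) := by
  intro τ τ' h
  apply AlgEquiv.ext
  intro x
  have h1 : resL L τ x = resL L τ' x := by rw [h]
  exact h1

theorem resL_cont (L : IntermediateField F Ω) : Continuous (resL L) := by
  apply continuous_of_continuousAt_one
  unfold ContinuousAt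
  rw [map_one]
  intro s hs
  rw [krullTopology_mem_nhds_one_iff] at hs
  obtain ⟨E, hE, hEs⟩ := hs
  rw [Filter.mem_map]
  let b := Module.finBasis F E
  have h1 : (⋂ i, (MulAction.stabilizer Gal(Ω/L) ((b i : E) : Ω) : Set Gal(Ω/L))) ∈
      nhds (1 : Gal(Ω/L)) := by
    rw [Filter.iInter_mem]
    intro i
    exact (stabilizer_isOpen_of_isIntegral ((b i : E) : Ω)).mem_nhds (one_mem _)
  refine Filter.mem_of_superset h1 ?_
  intro τ hτ
  rw [Set.mem_iInter] at hτ
  apply hEs
  rw [SetLike.mem_coe, IntermediateField.mem_fixingSubgroup_iff]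
  intro x hx
  have h2 := b.sum_repr ⟨x, hx⟩
  have h3 : x = ∑ i, (b.repr ⟨x, hx⟩ i) • ((b i : E) : Ω) := by
    have h4 := congrArg E.val h2
    rw [map_sum] at h4
    exact h4.symm
  rw [h3, map_sum]
  refine Finset.sum_congr rfl fun i _ => ?_
  rw [map_smul]
  congr 1
  exact hτ i

private theorem lift_of_fix (L : IntermediateField F Ω) (g : Gal(Ω/F)) (h : ∀ x ∈ L, g x = x) :
    ∃ τ : Gal(Ω/L), resL L τ = g := by
  refine ⟨AlgEquiv.ofRingEquiv (f := g.toRingEquiv) ?_, ?_⟩
  · intro x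
    exact h x.1 x.2
  · apply AlgEquiv.ext
    intro x
    rfl

theorem resL_open (L : IntermediateField F Ω) [FiniteDimensional F L] : IsOpenMap (resL L) := by
  intro U hU
  rw [isOpen_iff_mem_nhds]
  rintro _ ⟨τ, hτ, rfl⟩
  have h1 : (fun x => τ * x) ⁻¹' U ∈ nhds (1 : Gal(Ω/L)) := by
    apply (hU.preimage (continuous_const_mul τ)).mem_nhds
    show τ * 1 ∈ U
    rw [mul_one]
    exact hτ
  rw [krullTopology_mem_nhds_one_iff] at h1
  obtain ⟨E, hE, hEs⟩ := h1
  have hfin : FiniteDimensional F (E.restrictScalars F) := by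
    have : FiniteDimensional F E := FiniteDimensional.trans F L E
    exact this
  have hopen := (IntermediateField.fixingSubgroup_isOpen (E.restrictScalars F))
  have h2 : (fun x => (resL L τ)⁻¹ * x) ⁻¹' ((E.restrictScalars F).fixingSubgroup : Set Gal(Ω/F)) ∈
      nhds (resL L τ) := by
    apply (hopen.preimage (continuous_const_mul _)).mem_nhds
    show (resL L τ)⁻¹ * resL L τ ∈ (E.restrictScalars F).fixingSubgroup
    rw [inv_mul_cancel]
    exact one_mem _
  refine Filter.mem_of_superset h2 ?_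
  intro g hg
  have hg' : (resL L τ)⁻¹ * g ∈ (E.restrictScalars F).fixingSubgroup := hg
  rw [IntermediateField.mem_fixingSubgroup_iff] at hg'
  obtain ⟨τ', hτ'⟩ := lift_of_fix L ((resL L τ)⁻¹ * g) (by
    intro x hx
    apply hg'
    rw [IntermediateField.mem_restrictScalars]
    exact E.algebraMap_mem ⟨x, hx⟩)
  refine ⟨τ * τ', ?_, ?_⟩
  · apply hEs
    rw [SetLike.mem_coe, IntermediateField.mem_fixingSubgroup_iff]
    intro x hx
    have h3 := hg' x (by
      rw [IntermediateField.mem_restrictScalars]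
      exact hx)
    rw [← hτ'] at h3
    exact h3
  · rw [map_mul, hτ', mul_inv_cancel_left]

open Classical in
/-- The function describing the action on a square root of `w`. -/
noncomputable def yfun (L : IntermediateField F Ω) (w : L) : Gal(Ω/F) → ZMod 2 :=
  fun g => if g (rt Ω w) = rt Ω w then 0 else 1

include h2

/-- The properties of the quadratic extension `L = F(√a)` of `F` inside `Ω`. -/
structure QO (a : F) (L : IntermediateField F Ω) (q : Quad F L) : Prop where
  a_eq : q.a = a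
  α_eq : (q.α : Ω) = rt Ω a
  fin : FiniteDimensional F L
  ker : ∀ g : Gal(Ω/F), kum Ω a g = 0 ↔ ∃ τ : Gal(Ω/L), resL L τ = g
  fixed : ∀ x : Ω, (∀ g : Gal(Ω/F), kum Ω a g = 0 → g x = x) → x ∈ L
  act : ∀ g : Gal(Ω/F), kum Ω a g = 1 → ∀ x : L, g (x : Ω) = (q.s x : Ω)

theorem exists_quadΩ {a : F} (ha : a ≠ 0) (hsq : ¬ ∃ x : F, a = x ^ 2) :
    ∃ (L : IntermediateField F Ω) (q : Quad F L), QO a L q := by
  have hr := rt_sq (Ω := Ω) h2 a
  have haΩ : algebraMap F Ω a ≠ 0 := by
    rw [Ne, map_eq_zero]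
    exact ha
  have hr0 : rt Ω a ≠ 0 := by
    intro h0
    apply haΩ
    rw [← hr, h0]
    ring
  obtain ⟨g₀, hg₀⟩ := exists_g₀ (Ω := Ω) h2 ha hsq
  have hk := fun g => kum_iff h2 ha hr g
  set r : Ω := rt Ω a with hrd
  let L : IntermediateField F Ω := IntermediateField.adjoin F {r}
  have hrL : r ∈ L := IntermediateField.mem_adjoin_simple_self F r
  have hfixL : ∀ g : Gal(Ω/F), kum Ω a g = 0 → ∀ x ∈ L, g x = x := by
    intro g hg x hx
    have h1 : g r = r := (hk g).1.1 hg
    have h2 : g ∈ L.fixingSubgroup := by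
      have h3 := (IntermediateField.forall_mem_adjoin_smul_eq_self_iff F (S := {r}) g).2 (by
        intro y hy
        rw [Set.mem_singleton_iff] at hy
        rw [hy]
        exact h1)
      rw [IntermediateField.mem_fixingSubgroup_iff]
      exact h3
    rw [IntermediateField.mem_fixingSubgroup_iff] at h2
    exact h2 x hx
  have hmemL : ∀ x : Ω, (∀ g : Gal(Ω/F), kum Ω a g = 0 → g x = x) → x ∈ L := by
    intro x hx
    obtain ⟨u, v, rfl⟩ := fixH h2 ha hsq hx
    exact L.add_mem (L.algebraMap_mem u) (L.mul_mem (L.algebraMap_mem v) hrL)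
  have hg₀L : ∀ x ∈ L, g₀ x ∈ L := by
    intro x hx
    apply hmemL
    intro g hg
    have h1 : kum Ω a (g₀⁻¹ * g * g₀) = 0 := by
      have h3 : kum Ω a g₀⁻¹ + kum Ω a g₀ = 0 := by
        rw [← kum_hom h2 ha, inv_mul_cancel]
        exact (hk 1).1.2 rfl
      rw [kum_hom h2 ha, kum_hom h2 ha, hg, add_zero]
      exact h3
    have h4 := hfixL _ h1 x hx
    have h5 : g (g₀ x) = g₀ ((g₀⁻¹ * g * g₀) x) := by
      rw [← AlgEquiv.mul_apply, ← AlgEquiv.mul_apply]
      congr 1
      group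
    rw [h5, h4]
  let s : L →+* L :=
    { toFun := fun x => ⟨g₀ x.1, hg₀L x.1 x.2⟩
      map_one' := Subtype.ext (map_one g₀)
      map_mul' := fun x y => Subtype.ext (map_mul g₀ x.1 y.1)
      map_zero' := Subtype.ext (map_zero g₀)
      map_add' := fun x y => Subtype.ext (map_add g₀ x.1 y.1) }
  have hs : ∀ x : L, ((s x : L) : Ω) = g₀ x.1 := fun _ => rfl
  have hact : ∀ g : Gal(Ω/F), kum Ω a g = 1 → ∀ x : L, g (x : Ω) = (s x : Ω) := by
    intro g hg x
    have h1 : kum Ω a (g₀⁻¹ * g) = 0 := by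
      have h3 : kum Ω a g₀⁻¹ + kum Ω a g₀ = 0 := by
        rw [← kum_hom h2 ha, inv_mul_cancel]
        exact (hk 1).1.2 rfl
      rw [kum_hom h2 ha, hg, ← hg₀]
      exact h3
    have h4 := hfixL _ h1 x.1 x.2
    rw [hs]
    have h5 : g (x : Ω) = g₀ ((g₀⁻¹ * g) x.1) := by
      rw [← AlgEquiv.mul_apply]
      congr 1
      group
    rw [h5, h4]
  have hg₀g₀ : kum Ω a (g₀ * g₀) = 0 := by
    rw [kum_hom h2 ha, hg₀]
    decide
  let q : Quad F L :=
    { s := s
      α := ⟨r, hrL⟩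
      a := a
      two := h2
      α_ne := fun h => hr0 (congrArg Subtype.val h)
      s_α := Subtype.ext ((hk g₀).2.1 hg₀)
      s_s := fun x => Subtype.ext (hfixL _ hg₀g₀ x.1 x.2)
      s_alg := fun c => Subtype.ext (g₀.commutes c)
      fix := by
        intro x hx
        have hx' : g₀ x.1 = x.1 := congrArg Subtype.val hx
        obtain ⟨c, hc⟩ := mem_F_of_fixed (F := F) (x := x.1) (by
          intro g
          by_cases h0 : kum Ω a g = 0
          · exact hfixL g h0 x.1 x.2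
          · have h1 : kum Ω a g = 1 := by
              have : ∀ z : ZMod 2, z ≠ 0 → z = 1 := by decide
              exact this _ h0
            rw [hact g h1 x, hs, hx'])
        exact ⟨c, Subtype.ext hc⟩
      sq := Subtype.ext hr }
  refine ⟨L, q, ⟨rfl, rfl, ?_, ?_, hmemL, hact⟩⟩
  · exact IntermediateField.adjoin.finiteDimensional (Algebra.IsIntegral.isIntegral r)
  · intro g
    constructor
    · intro hg
      exact lift_of_fix L g (hfixL g hg)
    · rintro ⟨τ, rfl⟩
      rw [(hk _).1]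
      exact τ.commutes ⟨r, hrL⟩

private theorem two_L (L : IntermediateField F Ω) : (2 : L) ≠ 0 := by
  intro h
  apply h2
  apply (algebraMap F L).injective
  rw [map_ofNat, h, map_zero]

theorem kum_resL (L : IntermediateField F Ω) {c : F} (hc : c ≠ 0) (τ : Gal(Ω/L)) :
    kum Ω (algebraMap F L c) τ = kum Ω c (resL L τ) := by
  have hr := rt_sq (Ω := Ω) h2 c
  have hcL : algebraMap F L c ≠ 0 := by
    rw [Ne, map_eq_zero]
    exact hc
  have hr' : rt Ω c ^ 2 = algebraMap L Ω (algebraMap F L c) := hr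
  have k1 := kum_iff (two_L h2 L) hcL hr' τ
  have k2 := kum_iff h2 hc hr (resL L τ)
  have hz : ∀ x y : ZMod 2, (x = 0 ↔ y = 0) → x = y := by decide
  apply hz
  rw [k1.1, k2.1]
  exact Iff.rfl

theorem kum_yfun (L : IntermediateField F Ω) (w : L) (τ : Gal(Ω/L)) :
    kum Ω w τ = yfun L w (resL L τ) := by
  rfl

theorem yfun_cont (L : IntermediateField F Ω) (w : L) : Continuous (yfun L w) := by
  refine cont_of_elt (rt Ω w) _ fun g h hgh => ?_
  unfold yfun
  rw [hgh]

theorem kum_normL {a : F} (ha : a ≠ 0) {L : IntermediateField F Ω} {q : Quad F L} (hq : QO a L q)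
    {w : L} (hw : w ≠ 0) {σ : Gal(Ω/F)} (hσ : kum Ω a σ = 1) (g : Gal(Ω/F)) :
    kum Ω (q.N w) g = yfun L w (piH (kum Ω a) σ g) + yfun L w (piH (kum Ω a) σ (σ * g)) := by
  have hz : ∀ z : ZMod 2, z = 0 ∨ z = 1 := by decide
  have hδ := rt_sq (F := L) (Ω := Ω) (two_L h2 L) w
  have hδ' : rt Ω w ^ 2 = (w : Ω) := hδ
  set δ : Ω := rt Ω w with hδd
  have h2Ω : (2 : Ω) ≠ 0 := by
    intro h
    apply h2
    apply (algebraMap F Ω).injective
    rw [map_ofNat, h, map_zero]
  have hw0 : (w : Ω) ≠ 0 := fun h => hw (Subtype.ext h)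
  have hδ0 : δ ≠ 0 := by
    intro h
    apply hw0
    rw [← hδ', h]
    ring
  have hδδ : δ ≠ -δ := by
    intro h
    have h3 : 2 * δ = 0 := by
      linear_combination h
    rcases mul_eq_zero.1 h3 with h4 | h4
    · exact h2Ω h4
    · exact hδ0 h4
  have hk1 : kum Ω a 1 = 0 := by
    have h1 := kum_hom h2 ha (1 : Gal(Ω/F)) 1
    rw [mul_one] at h1
    exact left_eq_add.1 h1
  have hkinv : ∀ h : Gal(Ω/F), kum Ω a h⁻¹ = kum Ω a h := by
    intro h
    have h1 := kum_hom h2 ha h h⁻¹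
    rw [mul_inv_cancel, hk1] at h1
    have h3 : ∀ x y : ZMod 2, 0 = x + y → y = x := by decide
    exact h3 _ _ h1
  have hfixw : ∀ h : Gal(Ω/F), kum Ω a h = 0 → h (w : Ω) = w := by
    intro h hh
    obtain ⟨τ, rfl⟩ := (hq.ker h).1 hh
    exact τ.commutes w
  have hy : ∀ h : Gal(Ω/F), kum Ω a h = 0 →
      (yfun L w h = 0 ∧ h δ = δ) ∨ (yfun L w h = 1 ∧ h δ = -δ) := by
    intro h hh
    have h1 : h δ = δ ∨ h δ = -δ := by
      apply sq_eq_sq_iff_eq_or_eq_neg.1
      rw [← map_pow, hδ', hfixw h hh]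
    rcases h1 with h3 | h3
    · left
      refine ⟨?_, h3⟩
      unfold yfun
      rw [if_pos h3]
    · right
      refine ⟨?_, h3⟩
      unfold yfun
      rw [if_neg]
      rw [← hδd, h3]
      exact fun h4 => hδδ h4.symm
  have hNw : q.N w ≠ 0 := q.N_ne hw
  have hσw : σ⁻¹ (w : Ω) = (q.s w : Ω) := hq.act σ⁻¹ (by rw [hkinv, hσ]) w
  have hε : (δ * σ⁻¹ δ) ^ 2 = algebraMap F Ω (q.N w) := by
    rw [mul_pow, ← map_pow, hδ', hσw]
    exact (congrArg (fun z : L => (z : Ω)) (q.N_spec w)).symm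
  have k := kum_iff h2 hNw hε g
  rcases hz (kum Ω a g) with hg | hg
  · have hsg : kum Ω a (σ * g) ≠ 0 := by
      rw [kum_hom h2 ha, hσ, hg]
      decide
    have e1 : piH (kum Ω a) σ g = g := by
      unfold piH
      rw [if_pos hg]
    have e2 : piH (kum Ω a) σ (σ * g) = σ * g * σ⁻¹ := by
      unfold piH
      rw [if_neg hsg]
    have hk3 : kum Ω a (σ * g * σ⁻¹) = 0 := by
      rw [kum_hom h2 ha, kum_hom h2 ha, hkinv, hσ, hg]
      decide
    have e3 : g (σ⁻¹ δ) = σ⁻¹ ((σ * g * σ⁻¹) δ) := by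
      rw [← AlgEquiv.mul_apply, ← AlgEquiv.mul_apply]
      congr 1
      group
    have e4 : g (δ * σ⁻¹ δ) = g δ * σ⁻¹ ((σ * g * σ⁻¹) δ) := by
      rw [map_mul, e3]
    rw [e1, e2]
    rcases hy g hg with ⟨a1, a2⟩ | ⟨a1, a2⟩ <;> rcases hy _ hk3 with ⟨b1, b2⟩ | ⟨b1, b2⟩
    · rw [a1, b1, add_zero, k.1, e4, a2, b2]
    · rw [a1, b1, zero_add, k.2, e4, a2, b2, map_neg, mul_neg]
    · rw [a1, b1, add_zero, k.2, e4, a2, b2, neg_mul]
    · rw [a1, b1, show (1 : ZMod 2) + 1 = 0 by decide, k.1, e4, a2, b2, map_neg, neg_mul_neg]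
  · have hsg : kum Ω a (σ * g) = 0 := by
      rw [kum_hom h2 ha, hσ, hg]
      decide
    have hg0 : kum Ω a g ≠ 0 := by
      rw [hg]
      decide
    have e1 : piH (kum Ω a) σ g = g * σ⁻¹ := by
      unfold piH
      rw [if_neg hg0]
    have e2 : piH (kum Ω a) σ (σ * g) = σ * g := by
      unfold piH
      rw [if_pos hsg]
    have hk3 : kum Ω a (g * σ⁻¹) = 0 := by
      rw [kum_hom h2 ha, hkinv, hσ, hg]
      decide
    have e3 : g δ = σ⁻¹ ((σ * g) δ) := by
      rw [← AlgEquiv.mul_apply]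
      congr 1
      group
    have e4 : g (δ * σ⁻¹ δ) = σ⁻¹ ((σ * g) δ) * (g * σ⁻¹) δ := by
      rw [map_mul, e3]
      rfl
    rw [e1, e2]
    rcases hy _ hk3 with ⟨a1, a2⟩ | ⟨a1, a2⟩ <;> rcases hy _ hsg with ⟨b1, b2⟩ | ⟨b1, b2⟩
    · rw [a1, b1, add_zero, k.1, e4, a2, b2, mul_comm]
    · rw [a1, b1, zero_add, k.2, e4, a2, b2, map_neg, neg_mul, mul_comm]
    · rw [a1, b1, add_zero, k.2, e4, a2, b2, mul_neg, mul_comm]
    · rw [a1, b1, show (1 : ZMod 2) + 1 = 0 by decide, k.1, e4, a2, b2, map_neg, neg_mul_neg,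
        mul_comm]

end Pool.Agent.MK
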