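import Pool.Agent.MK.DN
import Pool.Agent.MK.IdxA
import Pool.Agent.MK.IdxC

/-! # Surjectivity of the norm residue homomorphism: the step

`IsSym Ω f`: the cochain `f` is a sum of cup products of Kummer characters and a continuous coboundary.

PROOF of `E_step`.  `a` is not a square, `L = F(√a)` as in `QO`, `H = {κ_a = 0}` = range of `resL L`.  The hypothesis says that the pullback of
the cocycle `f` to `Gal(Ω/L)` is `Σ κ_{w_i} ∪ κ_{z_i} + dχ` with `w_i, z_i ∈ Lˣ`.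
(1) By `q.gen_FL` the element `Σ {w_i, z_i} ∈ K₂(L)` is a sum `Σ_j {y_j, c_j}` with `y_j ∈ Lˣ`, `c_j ∈ Fˣ` (closure induction; signs are
absorbed by `y_j⁻¹`).  By `hh_sum_eq` over `L` (for the pulled back cocycle, in `Z2 2 Gal(Ω/L)`) the pullback of `f` is also
`Σ_j κ_{y_j} ∪ κ_{c_j} + dχ₁`.
(2) With `kum_resL`, `kum_yfun`: for `g, g' ∈ H`: `f g g' = Σ_j yfun y_j g * κ_{c_j} g' + (χ₂ g + χ₂ g' - χ₂ (g g'))`, where `χ₂` is the
extension of `χ₁` by `0` to `G`, continuous since `resL` is an open embedding onto the open and closed `H` (`resL_open`, `resL_inj`).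
(3) `cor_cup` and `kum_normL` (choose `σ` with `κ_a σ = 1`, `exists_g₀`): `Σ_j κ_{N y_j} g * κ_{c_j} g'` is a coboundary; so `hh (Σ_j {N y_j, c_j}) = 0`
(`hh_sum_zero`), and by `DN` `Σ_j {N y_j, c_j} = 2 θ`.  Write `θ = Σ_k {e_k, f_k}` (`K2_rep`).
(4) `Σ_j {N y_j, c_j} + Σ_k {N (e_k⁻¹), f_k} = 2 θ - 2 θ = 0` (`N e⁻¹ = e⁻²`), so by `h90_sum`
`Σ_j {y_j, c_j} - θ_L = v - s v` with `v ∈ K₂(L)`.  So `Σ_j {y_j, c_j} = θ_L + (v + s v) - 2 s v = (θ + nm v)_L - 2 s v` (`q.map_nm`).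
(5) Let `t = θ + nm v = Σ_m {t_m, t'_m}` (`K2_rep`).  `hh` over `L` (with `hh_two`) gives that the pullback of `f` is
`Σ_m κ_{t_m} ∪ κ_{t'_m} + dχ₃` over `L`, i.e. (`kum_resL`) for `g, g' ∈ H`:
`f g g' - Σ_m κ_{t_m} g * κ_{t'_m} g' = χ₄ g + χ₄ g' - χ₄ (g g')`, `χ₄` continuous on `G` as before.
(6) `ker_res` for the cocycle `f - Σ_m κ_{t_m} ∪ κ_{t'_m}`, then `kum_surj` for `c`.
-/

set_option autoImplicit false
set_option linter.unusedSectionVars false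

namespace Pool.Agent.MK

universe u v w

open Pool.Agent.Helper14.Massey Topology

variable {F : Type u} (Ω : Type u) [Field F] [Field Ω] [Algebra F Ω]

/-- `f` is a sum of cup products of Kummer characters and a coboundary. -/
def IsSym (f : Gal(Ω/F) → Gal(Ω/F) → ZMod 2) : Prop :=
  ∃ (n : ℕ) (a b : Fin n → F) (χ : Gal(Ω/F) → ZMod 2), (∀ i, a i ≠ 0) ∧ (∀ i, b i ≠ 0) ∧
    Continuous χ ∧ ∀ g h, f g h = ∑ i, kum Ω (a i) g * kum Ω (b i) h + (χ g + χ h - χ (g * h))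

variable {Ω}
variable [IsGalois F Ω] [IsSepClosed Ω] (h2 : (2 : F) ≠ 0)

include h2

theorem extend_cont {a : F} {L : IntermediateField F Ω} {q : Quad F L} (hq : QO a L q)
    (ha : a ≠ 0) {χ : Gal(Ω/L) → ZMod 2} (hχ : Continuous χ) :
    ∃ χ' : Gal(Ω/F) → ZMod 2, Continuous χ' ∧ ∀ τ, χ' (resL L τ) = χ τ := by
  classical
  haveI := hq.fin
  have hemb : IsOpenEmbedding (resL L) :=
    IsOpenEmbedding.of_continuous_injective_isOpenMap (resL_cont L) (resL_inj L) (resL_open L)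
  obtain ⟨χ', hχ'⟩ : ∃ χ' : Gal(Ω/F) → ZMod 2, χ' = fun g =>
    if h : ∃ τ : Gal(Ω/L), resL L τ = g then χ h.choose else 0 := ⟨_, rfl⟩
  have h1 : ∀ τ, χ' (resL L τ) = χ τ := by
    intro τ
    have h : ∃ τ' : Gal(Ω/L), resL L τ' = resL L τ := ⟨τ, rfl⟩
    rw [hχ']
    simp only
    rw [dif_pos h]
    congr 1
    exact resL_inj L h.choose_spec
  refine ⟨χ', ?_, h1⟩
  rw [continuous_iff_continuousAt]
  intro g
  by_cases hg : kum Ω a g = 0
  · obtain ⟨τ, rfl⟩ := (hq.ker g).1 hg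
    have h3 : ContinuousAt (χ' ∘ resL L) τ := by
      have h4 : χ' ∘ resL L = χ := funext h1
      rw [h4]
      exact hχ.continuousAt
    exact hemb.continuousAt_iff.1 h3
  · have h3 : {g : Gal(Ω/F) | kum Ω a g ≠ 0} ∈ 𝓝 g :=
      ((isOpen_discrete ({0}ᶜ : Set (ZMod 2))).preimage (kum_cont h2 a)).mem_nhds hg
    have h4 : χ' =ᶠ[𝓝 g] fun _ => 0 := by
      filter_upwards [h3] with g' hg'
      rw [hχ']
      simp only
      rw [dif_neg]
      intro h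
      exact hg' ((hq.ker g').2 h)
    exact continuousAt_const.congr h4.symm

theorem sum_FL {a : F} {L : IntermediateField F Ω} {q : Quad F L} (hq : QO a L q) (x : K2 L) :
    ∃ (n : ℕ) (y : Fin n → L) (c : Fin n → F), (∀ i, y i ≠ 0) ∧ (∀ i, c i ≠ 0) ∧
      x = ∑ i, S (y i) (algebraMap F L (c i)) := by
  have hx := q.gen_FL x
  induction hx using AddSubgroup.closure_induction with
  | mem t ht =>
    obtain ⟨y, c, hy, hc, rfl⟩ := ht
    exact ⟨1, fun _ => y, fun _ => c, fun _ => hy, fun _ => hc, by simp⟩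
  | zero => exact ⟨0, Fin.elim0, Fin.elim0, fun i => i.elim0, fun i => i.elim0, by simp⟩
  | add t t' _ _ ih ih' =>
    obtain ⟨n, y, c, hy, hc, rfl⟩ := ih
    obtain ⟨n', y', c', hy', hc', rfl⟩ := ih'
    refine ⟨n + n', Fin.append y y', Fin.append c c', ?_, ?_, ?_⟩
    · intro i
      refine Fin.addCases (fun j => ?_) (fun j => ?_) i
      · rw [Fin.append_left]
        exact hy j
      · rw [Fin.append_right]
        exact hy' j
    · intro i
      refine Fin.addCases (fun j => ?_) (fun j => ?_) i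
      · rw [Fin.append_left]
        exact hc j
      · rw [Fin.append_right]
        exact hc' j
    · rw [Fin.sum_univ_add]
      simp only [Fin.append_left, Fin.append_right]
  | neg t _ ih =>
    obtain ⟨n, y, c, hy, hc, rfl⟩ := ih
    refine ⟨n, fun i => (y i)⁻¹, c, fun i => inv_ne_zero (hy i), hc, ?_⟩
    simp only [S_inv_left, Finset.sum_neg_distrib]

/-- the pulled back cocycle -/
private theorem res_mem (L : IntermediateField F Ω) {f : Gal(Ω/F) → Gal(Ω/F) → ZMod 2}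
    (hf : f ∈ Z2 2 Gal(Ω/F)) : (fun τ τ' => f (resL L τ) (resL L τ')) ∈ Z2 2 Gal(Ω/L) := by
  refine ⟨?_, ?_⟩
  · have h1 : Continuous fun x : Gal(Ω/L) × Gal(Ω/L) => (resL L x.1, resL L x.2) :=
      ((resL_cont L).comp continuous_fst).prodMk ((resL_cont L).comp continuous_snd)
    exact hf.1.comp h1
  · intro σ τ υ
    have h1 := hf.2 (resL L σ) (resL L τ) (resL L υ)
    simp only [map_mul]
    exact h1

theorem E_step {a : F} (ha : a ≠ 0) (hsq : ¬ ∃ x : F, a = x ^ 2) {L : IntermediateField F Ω}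
    {q : Quad F L} (hq : QO a L q) {f : Gal(Ω/F) → Gal(Ω/F) → ZMod 2} (hf : f ∈ Z2 2 Gal(Ω/F))
    (h : IsSym (F := L) Ω fun τ τ' => f (resL L τ) (resL L τ')) : IsSym Ω f := by
  obtain ⟨n, w, z, χ, hw, hz, hχ, hf1⟩ := h
  have h2L : (2 : L) ≠ 0 := q.twoL
  have hfL := res_mem h2 L hf
  have e1 := (hh_sum_eq h2L w z hw hz hfL).2 ⟨χ, hχ, hf1⟩
  obtain ⟨m, y, c, hy, hc, hyc⟩ := sum_FL h2 hq (∑ i, S (w i) (z i))
  have hcL : ∀ i, algebraMap F L (c i) ≠ 0 := fun i => (map_ne_zero _).2 (hc i)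
  rw [hyc] at e1
  obtain ⟨χ₁, hχ₁, hf2⟩ := (hh_sum_eq h2L y (fun i => algebraMap F L (c i)) hy hcL hfL).1 e1
  obtain ⟨χ₂, hχ₂, hχ₂'⟩ := extend_cont h2 hq ha hχ₁
  have hf3 : ∀ g g' : Gal(Ω/F), kum Ω a g = 0 → kum Ω a g' = 0 →
      f g g' = ∑ i, yfun L (y i) g * kum Ω (c i) g' + (χ₂ g + χ₂ g' - χ₂ (g * g')) := by
    intro g g' hg hg'
    obtain ⟨τ, rfl⟩ := (hq.ker g).1 hg
    obtain ⟨τ', rfl⟩ := (hq.ker g').1 hg'
    have h3 := hf2 τ τ'
    rw [← map_mul, hχ₂', hχ₂', hχ₂']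
    rw [h3]
    have h4 : ∑ i, kum Ω (y i) τ * kum Ω (algebraMap F L (c i)) τ' =
        ∑ i, yfun L (y i) (resL L τ) * kum Ω (c i) (resL L τ') := by
      refine Finset.sum_congr rfl fun i _ => ?_
      rw [kum_resL h2 L (hc i), kum_yfun h2 L (y i)]
    rw [h4]
  obtain ⟨σ, hσ⟩ : ∃ g₀ : Gal(Ω/F), kum Ω a g₀ = 1 := exists_g₀ h2 ha hsq
  obtain ⟨χ', hχ', hcor⟩ := cor_cup (kum_mem h2 ha) hσ hf (fun i => yfun L (y i))
    (fun i => kum Ω (c i)) (fun i => yfun_cont h2 L (y i))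
    (by
      intro i g g' hg hg'
      obtain ⟨τ, rfl⟩ := (hq.ker g).1 hg
      obtain ⟨τ', rfl⟩ := (hq.ker g').1 hg'
      rw [← map_mul, ← kum_yfun h2 L (y i), ← kum_yfun h2 L (y i), ← kum_yfun h2 L (y i)]
      exact kum_hom h2L (hy i) τ τ')
    (fun i => kum_mem h2 (hc i)) hχ₂ hf3
  have hNy : ∀ i, q.N (y i) ≠ 0 := fun i => q.N_ne (hy i)
  have h0 : hh Ω h2 (∑ i, S (q.N (y i)) (c i)) = 0 := by
    rw [hh_sum_zero h2 (fun i => q.N (y i)) c hNy hc]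
    refine ⟨χ', hχ', fun g g' => ?_⟩
    rw [← hcor g g']
    refine Finset.sum_congr rfl fun i _ => ?_
    rw [kum_normL h2 ha hq (hy i) hσ g]
  obtain ⟨θ, hθ⟩ := DN h2 h0
  obtain ⟨r, e, f', he, hf', hθe⟩ := K2_rep θ
  -- Hilbert 90
  have h90 : ∑ i ∈ (Finset.univ : Finset (Fin m ⊕ Fin r)),
      S (q.N (Sum.elim y (fun k => algebraMap F L (e k)⁻¹) i)) (Sum.elim c f' i) = 0 := by
    rw [Fintype.sum_sum_type]
    simp only [Sum.elim_inl, Sum.elim_inr]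
    have h3 : ∀ k, S (q.N (algebraMap F L (e k)⁻¹)) (f' k) = -((2 : ℤ) • S (e k) (f' k)) := by
      intro k
      rw [q.N_alg, S_pow_left, S_inv_left]
      module
    simp only [h3]
    rw [Finset.sum_neg_distrib, ← Finset.smul_sum, ← hθe, hθ, add_neg_cancel]
  obtain ⟨v, hv⟩ := h90_sum q (Finset.univ : Finset (Fin m ⊕ Fin r))
    (Sum.elim y (fun k => algebraMap F L (e k)⁻¹)) (Sum.elim c f') h90
  rw [Fintype.sum_sum_type] at hv
  simp only [Sum.elim_inl, Sum.elim_inr] at hv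
  have hθL : ∑ k, S (algebraMap F L (e k)⁻¹) (algebraMap F L (f' k)) =
      -K2.map (algebraMap F L) θ := by
    rw [hθe, map_sum, ← Finset.sum_neg_distrib]
    refine Finset.sum_congr rfl fun k _ => ?_
    rw [K2.map_S, map_inv₀, S_inv_left]
  rw [hθL] at hv
  obtain ⟨l, a', b', ha', hb', ht⟩ := K2_rep (θ + q.nm v)
  have hU : ∑ i, S (y i) (algebraMap F L (c i)) =
      ∑ i, S (algebraMap F L (a' i)) (algebraMap F L (b' i)) - (2 : ℤ) • K2.map q.s v := by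
    have h3 : ∑ i, S (algebraMap F L (a' i)) (algebraMap F L (b' i)) =
        K2.map (algebraMap F L) (θ + q.nm v) := by
      rw [ht, map_sum]
      exact Finset.sum_congr rfl fun i _ => (K2.map_S _ _ _).symm
    rw [h3, map_add, q.map_nm]
    linear_combination (norm := module) hv
  have haL : ∀ i, algebraMap F L (a' i) ≠ 0 := fun i => (map_ne_zero _).2 (ha' i)
  have hbL : ∀ i, algebraMap F L (b' i) ≠ 0 := fun i => (map_ne_zero _).2 (hb' i)
  rw [hU, map_sub, hh_two, sub_zero] at e1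
  obtain ⟨χ₃, hχ₃, hf4⟩ := (hh_sum_eq h2L (fun i => algebraMap F L (a' i))
    (fun i => algebraMap F L (b' i)) haL hbL hfL).1 e1
  obtain ⟨χ₄, hχ₄, hχ₄'⟩ := extend_cont h2 hq ha hχ₃
  have hcup : (∑ i, cup (kum Ω (a' i)) (kum Ω (b' i))) ∈ Z2 2 Gal(Ω/F) :=
    AddSubgroup.sum_mem _ fun i _ => cup_mem_Z2
      (⟨kum Ω (a' i), kum_mem h2 (ha' i)⟩ : H1 2 Gal(Ω/F))
      (⟨kum Ω (b' i), kum_mem h2 (hb' i)⟩ : H1 2 Gal(Ω/F))
  have happ : ∀ g g', (∑ i, cup (kum Ω (a' i)) (kum Ω (b' i))) g g' =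
      ∑ i, kum Ω (a' i) g * kum Ω (b' i) g' := by
    intro g g'
    rw [Finset.sum_apply, Finset.sum_apply]
    rfl
  obtain ⟨c₀, χ₅, hc₀, hχ₅, hfin⟩ := ker_res (kum_mem h2 ha) ⟨σ, hσ⟩
    (AddSubgroup.sub_mem _ hf hcup) hχ₄ (by
      intro g g' hg hg'
      obtain ⟨τ, rfl⟩ := (hq.ker g).1 hg
      obtain ⟨τ', rfl⟩ := (hq.ker g').1 hg'
      have h3 := hf4 τ τ'
      rw [Pi.sub_apply, Pi.sub_apply, happ, ← map_mul, hχ₄', hχ₄', hχ₄', h3]
      have h5 : ∑ i, kum Ω (algebraMap F L (a' i)) τ * kum Ω (algebraMap F L (b' i)) τ' =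
          ∑ i, kum Ω (a' i) (resL L τ) * kum Ω (b' i) (resL L τ') := by
        refine Finset.sum_congr rfl fun i _ => ?_
        rw [kum_resL h2 L (ha' i), kum_resL h2 L (hb' i)]
      rw [h5]
      ring)
  obtain ⟨b₀, hb₀, rfl⟩ := kum_surj h2 c₀ hc₀
  refine ⟨l + 1, Fin.cons a a', Fin.cons b₀ b', χ₅, ?_, ?_, hχ₅, ?_⟩
  · intro i
    refine Fin.cases ?_ (fun j => ?_) i
    · simpa using ha
    · simpa using ha' j
  · intro i
    refine Fin.cases ?_ (fun j => ?_) i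
    · simpa using hb₀
    · simpa using hb' j
  · intro g g'
    have h3 := hfin g g'
    rw [Pi.sub_apply, Pi.sub_apply, happ] at h3
    rw [Fin.sum_univ_succ]
    simp only [Fin.cons_zero, Fin.cons_succ]
    linear_combination h3

end Pool.Agent.MK
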