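import Pool.Agent.MK.QG

/-! # Central extensions of the multiplicative group of a quaternion algebra

`π : E → (Qt C)ˣ` is surjective, and elements of `E` with commuting images commute (so `ker π` is central).
Then `[E, E] ∩ ker π = 1`.

PROOFS.  `⁅x, y⁆ = x y x⁻¹ y⁻¹`.
* `comm_right`: if `z` commutes with `x`: `⁅x, y z⁆ = ⁅x, y⁆` (`x y z x⁻¹ z⁻¹ y⁻¹ = x y x⁻¹ y⁻¹`);
  `comm_left`: if `z` commutes with `y`: `⁅x z, y⁆ = ⁅x, y⁆`.
* `comm_eq`: `π x = π x'`, `π y = π y'` implies `⁅x, y⁆ = ⁅x', y'⁆`: `x' = x z` with `π z = 1`, `z` central (it commutes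
  with everything by `hc`).
* `comm_dep`: if `⁅π x, π y⁆ = ⁅π x', π y'⁆` then `⁅x, y⁆ = ⁅x', y'⁆`.  Let `w` be the common value.  If `w = 1` both pairs
  commute by `hc` and both commutators are `1`.  If `w ≠ 1`: write `u, v, u', v'` for the images; `u v = w v u` etc.
  `Qt.transport` gives `e, z`; choose lifts `e', z'` (surjectivity).  `⁅x, y⁆ = ⁅x, y e'⁆ = ⁅x z', y e'⁆` (`e'` commutes with `x`, `z'`
  commutes with `y e'`).  `π (x z') = u'`.  Let `g = (v e)⁻¹ v'`; from `u' (v e) = w (v e) u'` (as `⁅x z', y e'⁆` has the same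
  image) and `u' v' = w v' u'` we get that `g` commutes with `u'`: `(v e) u'⁻¹ (v e)⁻¹ = u'⁻¹ w = v' u'⁻¹ v'⁻¹`.  Choose a lift
  `g'` of `g`: `⁅x z', y e'⁆ = ⁅x z', y e' g'⁆ = ⁅x', y'⁆` by `comm_eq`.
* `comm_mul`: for all `x₁, y₁, x₂, y₂` there are `x, y` with `⁅x₁, y₁⁆ * ⁅x₂, y₂⁆ = ⁅x, y⁆`.  Let `w_i` be the images of the
  commutators.  If `w₁ = 1` or `w₂ = 1` the corresponding commutator is `1`.  Otherwise `Qt.product` gives
  `u, v₁, v₂`; choose lifts `u', v₁', v₂'`.  By `comm_dep` `⁅x₁, y₁⁆ = ⁅u', v₁'⁆ =: g₁`.  Put `t = g₁⁻¹ u'`, with image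
  `w₁⁻¹ u`; `⁅x₂, y₂⁆ = ⁅t, v₂'⁆ =: g₂`.  Then `v₁' u'⁻¹ v₁'⁻¹ = u'⁻¹ g₁ = t⁻¹` and `v₂' t⁻¹ v₂'⁻¹ = t⁻¹ g₂ = u'⁻¹ g₁ g₂`, so
  `(v₂' v₁') u'⁻¹ (v₂' v₁')⁻¹ = u'⁻¹ g₁ g₂`, i.e. `⁅u', v₂' v₁'⁆ = g₁ g₂`.
* `main`: the commutator subgroup is the closure of the set of commutators, which is closed under products by
  `comm_mul` and under inverses (`⁅x,y⁆⁻¹ = ⁅y,x⁆`); so every element of it is a commutator `⁅x, y⁆`, and if
  `π ⁅x, y⁆ = 1` then `π x, π y` commute, so `x, y` commute and `⁅x, y⁆ = 1`.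
-/

set_option autoImplicit false
set_option linter.unusedSectionVars false

namespace Pool.Agent.MK

universe u v w

namespace Qt

variable {F L : Type u} [Field F] [Field L] [Algebra F L] {C : CQ F L}

private theorem qe_right {E : Type v} [Group E] {x y z : E} (h : x * z = z * x) :
    x * (y * z) * x⁻¹ * (y * z)⁻¹ = x * y * x⁻¹ * y⁻¹ := by
  have h1 : z * x⁻¹ * z⁻¹ = x⁻¹ := by
    have h2 : z * x⁻¹ = x⁻¹ * z := by
      rw [eq_inv_mul_iff_mul_eq, ← mul_assoc, h, mul_assoc, mul_inv_cancel, mul_one]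
    rw [h2, mul_assoc, mul_inv_cancel, mul_one]
  calc x * (y * z) * x⁻¹ * (y * z)⁻¹ = x * y * (z * x⁻¹ * z⁻¹) * y⁻¹ := by group
    _ = x * y * x⁻¹ * y⁻¹ := by rw [h1]

private theorem qe_left {E : Type v} [Group E] {x y z : E} (h : z * y = y * z) :
    (x * z) * y * (x * z)⁻¹ * y⁻¹ = x * y * x⁻¹ * y⁻¹ := by
  calc (x * z) * y * (x * z)⁻¹ * y⁻¹ = x * (z * y) * z⁻¹ * x⁻¹ * y⁻¹ := by group
    _ = x * y * x⁻¹ * y⁻¹ := by
        rw [h]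
        group

private theorem qe_eq {E : Type v} [Group E] (π : E →* (Qt C)ˣ)
    (hc : ∀ x y : E, π x * π y = π y * π x → x * y = y * x) {x y x' y' : E}
    (h1 : π x = π x') (h2 : π y = π y') :
    x * y * x⁻¹ * y⁻¹ = x' * y' * x'⁻¹ * y'⁻¹ := by
  have k1 : ∀ t s : E, π t = 1 → t * s = s * t := by
    intro t s ht
    refine hc t s ?_
    rw [ht, one_mul, mul_one]
  have e1 : x' = x * (x⁻¹ * x') := by group
  have e2 : y' = y * (y⁻¹ * y') := by group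
  have m1 : π (x⁻¹ * x') = 1 := by rw [map_mul, map_inv, h1, inv_mul_cancel]
  have m2 : π (y⁻¹ * y') = 1 := by rw [map_mul, map_inv, h2, inv_mul_cancel]
  rw [e1, e2, qe_right (k1 _ _ m2).symm, qe_left (k1 _ _ m1)]

private theorem qe_one {E : Type v} [Group E] (π : E →* (Qt C)ˣ)
    (hc : ∀ x y : E, π x * π y = π y * π x → x * y = y * x) {x y : E}
    (h : π x * π y * (π x)⁻¹ * (π y)⁻¹ = 1) : x * y * x⁻¹ * y⁻¹ = 1 := by
  have h1 : π x * π y = π y * π x := by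
    rw [mul_inv_eq_one, mul_inv_eq_iff_eq_mul] at h
    exact h
  rw [hc x y h1]
  group

private theorem qe_rel {u v : (Qt C)ˣ} :
    (u : Qt C) * v = ((u * v * u⁻¹ * v⁻¹ : (Qt C)ˣ) : Qt C) * v * u := by
  rw [← Units.val_mul, ← Units.val_mul, ← Units.val_mul]
  congr 1
  group

theorem comm_dep {E : Type v} [Group E] (π : E →* (Qt C)ˣ) (hs : Function.Surjective π)
    (hc : ∀ x y : E, π x * π y = π y * π x → x * y = y * x) {x y x' y' : E}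
    (h : π x * π y * (π x)⁻¹ * (π y)⁻¹ = π x' * π y' * (π x')⁻¹ * (π y')⁻¹) :
    x * y * x⁻¹ * y⁻¹ = x' * y' * x'⁻¹ * y'⁻¹ := by
  by_cases hw : π x * π y * (π x)⁻¹ * (π y)⁻¹ = 1
  · rw [qe_one π hc hw, qe_one π hc (h ▸ hw)]
  have hw1 : ((π x * π y * (π x)⁻¹ * (π y)⁻¹ : (Qt C)ˣ) : Qt C) ≠ 1 := fun hcon =>
    hw (Units.ext hcon)
  have r1 := qe_rel (u := π x) (v := π y)
  have r2 := qe_rel (u := π x') (v := π y')
  rw [← h] at r2
  obtain ⟨e, z, he, hz, c1, c2, c3⟩ := transport (Units.ne_zero (π x)) (Units.ne_zero (π y))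
    (Units.ne_zero (π x')) (Units.ne_zero (π y')) hw1 r1 r2
  obtain ⟨e', he'⟩ := hs (Units.mk0 e he)
  obtain ⟨z', hz'⟩ := hs (Units.mk0 z hz)
  have s1 : x * e' = e' * x := by
    refine hc _ _ ?_
    rw [he']
    exact Units.ext c1.symm
  have s2 : z' * (y * e') = (y * e') * z' := by
    refine hc _ _ ?_
    rw [map_mul, he', hz']
    exact Units.ext c2
  have s3 : π (x * z') = π x' := by
    rw [map_mul, hz']
    exact Units.ext c3.symm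
  have t1 : x * y * x⁻¹ * y⁻¹ = (x * z') * (y * e') * (x * z')⁻¹ * (y * e')⁻¹ := by
    rw [qe_left s2, qe_right s1]
  obtain ⟨g', hg'⟩ := hs ((π (y * e'))⁻¹ * π y')
  have t2 : π x * π y * (π x)⁻¹ * (π y)⁻¹ =
      π (x * z') * π (y * e') * (π (x * z'))⁻¹ * (π (y * e'))⁻¹ := by
    have := congrArg π t1
    simpa only [map_mul, map_inv] using this
  have t3 : π x' * π (y * e') * (π x')⁻¹ * (π (y * e'))⁻¹ =
      π x' * π y' * (π x')⁻¹ * (π y')⁻¹ := by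
    rw [← s3, ← t2, h, s3]
  have s4 : x * z' * g' = g' * (x * z') := by
    refine hc _ _ ?_
    rw [s3, hg']
    have t4 : π (y * e') * (π x')⁻¹ * (π (y * e'))⁻¹ = π y' * (π x')⁻¹ * (π y')⁻¹ := by
      have := congrArg (fun q => (π x')⁻¹ * q) t3
      simpa only [← mul_assoc, inv_mul_cancel, one_mul] using this
    have t5 : ((π (y * e'))⁻¹ * π y') * (π x')⁻¹ * ((π (y * e'))⁻¹ * π y')⁻¹ = (π x')⁻¹ := by
      calc ((π (y * e'))⁻¹ * π y') * (π x')⁻¹ * ((π (y * e'))⁻¹ * π y')⁻¹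
          = (π (y * e'))⁻¹ * (π y' * (π x')⁻¹ * (π y')⁻¹) * π (y * e') := by group
        _ = (π x')⁻¹ := by
            rw [← t4]
            group
    rw [mul_inv_eq_iff_eq_mul] at t5
    calc π x' * ((π (y * e'))⁻¹ * π y') = π x' * (((π (y * e'))⁻¹ * π y') * (π x')⁻¹) * π x' := by
          group
      _ = ((π (y * e'))⁻¹ * π y') * π x' := by
          rw [t5]
          group
  rw [t1, ← qe_right s4 (y := y * e')]
  refine qe_eq π hc s3 ?_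
  rw [map_mul, hg']
  group

theorem comm_mul {E : Type v} [Group E] (π : E →* (Qt C)ˣ) (hs : Function.Surjective π)
    (hc : ∀ x y : E, π x * π y = π y * π x → x * y = y * x) (x₁ y₁ x₂ y₂ : E) :
    ∃ x y : E, (x₁ * y₁ * x₁⁻¹ * y₁⁻¹) * (x₂ * y₂ * x₂⁻¹ * y₂⁻¹) = x * y * x⁻¹ * y⁻¹ := by
  obtain ⟨w₁, hw₁⟩ : ∃ w₁, w₁ = π x₁ * π y₁ * (π x₁)⁻¹ * (π y₁)⁻¹ := ⟨_, rfl⟩
  obtain ⟨w₂, hw₂⟩ : ∃ w₂, w₂ = π x₂ * π y₂ * (π x₂)⁻¹ * (π y₂)⁻¹ := ⟨_, rfl⟩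
  by_cases h1 : w₁ = 1
  · refine ⟨x₂, y₂, ?_⟩
    have k : x₁ * y₁ * x₁⁻¹ * y₁⁻¹ = 1 := qe_one π hc (by rw [← hw₁]; exact h1)
    rw [k, one_mul]
  by_cases h2 : w₂ = 1
  · refine ⟨x₁, y₁, ?_⟩
    have k : x₂ * y₂ * x₂⁻¹ * y₂⁻¹ = 1 := qe_one π hc (by rw [← hw₂]; exact h2)
    rw [k, mul_one]
  have r1 := qe_rel (u := π x₁) (v := π y₁)
  have r2 := qe_rel (u := π x₂) (v := π y₂)
  rw [← hw₁] at r1
  rw [← hw₂] at r2
  have n1 := (mem_H (Units.ne_zero (π x₁)) (Units.ne_zero (π y₁)) r1).2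
  have n2 := (mem_H (Units.ne_zero (π x₂)) (Units.ne_zero (π y₂)) r2).2
  obtain ⟨u, v₁, v₂, hu, hv₁, hv₂, e1, e2⟩ := product n1 n2 (fun hcon => h1 (Units.ext hcon))
    (fun hcon => h2 (Units.ext hcon))
  obtain ⟨u', hu'⟩ := hs (Units.mk0 u hu)
  obtain ⟨v₁', hv₁'⟩ := hs (Units.mk0 v₁ hv₁)
  obtain ⟨v₂', hv₂'⟩ := hs (Units.mk0 v₂ hv₂)
  have f1 : Units.mk0 u hu * Units.mk0 v₁ hv₁ = w₁ * Units.mk0 v₁ hv₁ * Units.mk0 u hu :=
    Units.ext e1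
  have f2 : (w₁⁻¹ * Units.mk0 u hu) * Units.mk0 v₂ hv₂ =
      w₂ * Units.mk0 v₂ hv₂ * (w₁⁻¹ * Units.mk0 u hu) := by
    refine Units.ext ?_
    push_cast
    exact e2
  have g1 : x₁ * y₁ * x₁⁻¹ * y₁⁻¹ = u' * v₁' * u'⁻¹ * v₁'⁻¹ := by
    refine comm_dep π hs hc ?_
    rw [← hw₁, hu', hv₁', f1]
    group
  have g2 : x₂ * y₂ * x₂⁻¹ * y₂⁻¹ = ((u' * v₁' * u'⁻¹ * v₁'⁻¹)⁻¹ * u') * v₂' *
      ((u' * v₁' * u'⁻¹ * v₁'⁻¹)⁻¹ * u')⁻¹ * v₂'⁻¹ := by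
    refine comm_dep π hs hc ?_
    have k1 : π ((u' * v₁' * u'⁻¹ * v₁'⁻¹)⁻¹ * u') = w₁⁻¹ * Units.mk0 u hu := by
      rw [← g1, map_mul, map_inv, hu']
      simp only [map_mul, map_inv]
      rw [← hw₁]
    rw [← hw₂, k1, hv₂', f2]
    group
  refine ⟨u', v₂' * v₁', ?_⟩
  rw [g1, g2]
  group

theorem comm_trivial {E : Type v} [Group E] (π : E →* (Qt C)ˣ) (hs : Function.Surjective π)
    (hc : ∀ x y : E, π x * π y = π y * π x → x * y = y * x) {x : E} (hx : x ∈ commutator E)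
    (h1 : π x = 1) : x = 1 := by
  have key : ∀ y ∈ Subgroup.closure (commutatorSet E), ∃ a b : E, y = a * b * a⁻¹ * b⁻¹ := by
    intro y hy
    induction hy using Subgroup.closure_induction with
    | mem y hy =>
      obtain ⟨a, b, rfl⟩ := hy
      exact ⟨a, b, rfl⟩
    | one => exact ⟨1, 1, by group⟩
    | mul y z _ _ hy hz =>
      obtain ⟨a, b, rfl⟩ := hy
      obtain ⟨c, d, rfl⟩ := hz
      exact comm_mul π hs hc a b c d
    | inv y _ hy =>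
      obtain ⟨a, b, rfl⟩ := hy
      exact ⟨b, a, by group⟩
  rw [commutator_eq_closure] at hx
  obtain ⟨a, b, rfl⟩ := key x hx
  refine qe_one π hc ?_
  simpa only [map_mul, map_inv] using h1

end Qt

end Pool.Agent.MK
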