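import Pool.Agent.MK.Coc
import Pool.Agent.MK.QE

/-! # The central extension of the multiplicative group of the quaternion algebra

`Ext C` is the set `(Qt C)ˣ × Qb` with `(u, m) (v, n) = (u v, m + n + tau u v)`.

PROOFS.  `tau 1 v = 0 = tau u 1` and `tau u u⁻¹ = 0 = tau u⁻¹ u` by `tau_comm`.  The group axioms are then direct
(associativity is `tau_cocycle`).  `ext_comm`: if `u v = v u` then `tau u v = 0 = tau v u`, so `(u, m)` and `(v, n)` commute.
* `iQ_inj`: if the class of `(1, m)` in the abelianization is trivial, `(1, m) ∈ commutator (Ext C)`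
  (`Abelianization.of` has kernel the commutator subgroup: `QuotientGroup.eq_one_iff`), so `(1, m) = 1` by
  `Qt.comm_trivial` for `π = pr`, and `m = 0`.
* `Phi_mul`: `(e, 0) (e', 0) = (e e', 0)` for commuting `e, e'`.  `Phi_inv` from it.
* `Phi_three`: `(u', 0) (v', 0) = (u' v', tau u' v') = (1, tau u' v') (u' v', 0)` and `(u' v', 0) (w', 0) = (1, 0)`.
-/

set_option autoImplicit false
set_option linter.unusedSectionVars false

namespace Pool.Agent.MK

universe u v w

variable {F L : Type u} [Field F] [Field L] [Algebra F L] (C : CQ F L)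

/-- The central extension. -/
@[ext] structure Ext (C : CQ F L) where
  /-- the quaternion -/
  u : (Qt C)ˣ
  /-- the central part -/
  m : C.Qb

namespace Ext

variable {C}

noncomputable instance : Mul (Ext C) := ⟨fun x y => ⟨x.u * y.u, x.m + y.m + C.tau x.u y.u⟩⟩
noncomputable instance : One (Ext C) := ⟨⟨1, 0⟩⟩
noncomputable instance : Inv (Ext C) := ⟨fun x => ⟨x.u⁻¹, -x.m⟩⟩

@[simp] theorem mul_u (x y : Ext C) : (x * y).u = x.u * y.u := rfl
@[simp] theorem mul_m (x y : Ext C) : (x * y).m = x.m + y.m + C.tau x.u y.u := rfl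
@[simp] theorem one_u : (1 : Ext C).u = 1 := rfl
@[simp] theorem one_m : (1 : Ext C).m = 0 := rfl
@[simp] theorem inv_u (x : Ext C) : (x⁻¹).u = x.u⁻¹ := rfl
@[simp] theorem inv_m (x : Ext C) : (x⁻¹).m = -x.m := rfl

noncomputable instance : Group (Ext C) where
  mul_assoc x y z := by
    ext1
    · simp only [mul_u, mul_assoc]
    · have h := C.tau_cocycle (u := (x.u : Qt C)) (v := (y.u : Qt C)) (w := (z.u : Qt C))
        x.u.ne_zero y.u.ne_zero z.u.ne_zero
      simp only [mul_m, mul_u, Units.val_mul]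
      have h2 : x.m + y.m + C.tau x.u y.u + z.m + C.tau (x.u * y.u) z.u =
        x.m + y.m + z.m + (C.tau x.u y.u + C.tau (x.u * y.u) z.u) := by abel
      rw [h2, h]
      abel
  one_mul x := by
    ext1
    · simp
    · have h : C.tau 1 (x.u : Qt C) = 0 := C.tau_comm one_ne_zero x.u.ne_zero (by simp)
      simp [h]
  mul_one x := by
    ext1
    · simp
    · have h : C.tau (x.u : Qt C) 1 = 0 := C.tau_comm x.u.ne_zero one_ne_zero (by simp)
      simp [h]
  inv_mul_cancel x := by
    ext1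
    · simp
    · have h : C.tau ((x.u⁻¹ : (Qt C)ˣ) : Qt C) (x.u : Qt C) = 0 :=
        C.tau_comm (Units.ne_zero _) (Units.ne_zero _) (by simp)
      simp only [mul_m, inv_u, inv_m, one_m, h]
      abel

/-- The projection to the quaternions. -/
noncomputable def pr : Ext C →* (Qt C)ˣ where
  toFun x := x.u
  map_one' := rfl
  map_mul' _ _ := rfl

theorem pr_surj : Function.Surjective (pr (C := C)) := fun u => ⟨⟨u, 0⟩, rfl⟩

theorem ext_comm (x y : Ext C) (h : pr x * pr y = pr y * pr x) : x * y = y * x := by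
  have h1 : x.u * y.u = y.u * x.u := h
  have h2 : (x.u : Qt C) * y.u = y.u * x.u := by
    rw [← Units.val_mul, h1, Units.val_mul]
  have t1 : C.tau (x.u : Qt C) y.u = 0 := C.tau_comm x.u.ne_zero y.u.ne_zero h2
  have t2 : C.tau (y.u : Qt C) x.u = 0 := C.tau_comm y.u.ne_zero x.u.ne_zero h2.symm
  ext1
  · exact h1
  · rw [mul_m, mul_m, t1, t2]
    abel

/-- The map from the central part to the abelianization. -/
noncomputable def iQ : C.Qb →+ Additive (Abelianization (Ext C)) :=
  AddMonoidHom.mk' (fun m => Additive.ofMul (Abelianization.of (⟨1, m⟩ : Ext C))) (fun m n => by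
    rw [← ofMul_mul, ← map_mul]
    congr 2
    ext1
    · simp
    · have h : C.tau (1 : Qt C) 1 = 0 := C.tau_comm one_ne_zero one_ne_zero rfl
      simp [h])

theorem iQ_inj {m : C.Qb} (h : iQ m = 0) : m = 0 := by
  have h1 : (Abelianization.of (⟨1, m⟩ : Ext C)) = 1 := Additive.ofMul.injective h
  have h2 : (⟨1, m⟩ : Ext C) ∈ commutator (Ext C) := (QuotientGroup.eq_one_iff _).1 h1
  have h3 := Qt.comm_trivial pr pr_surj ext_comm h2 rfl
  exact congrArg Ext.m h3

/-- The class of `(e, 0)`. -/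
noncomputable def Phi (e : (Qt C)ˣ) : Additive (Abelianization (Ext C)) :=
  Additive.ofMul (Abelianization.of (⟨e, 0⟩ : Ext C))

theorem Phi_one : Phi (1 : (Qt C)ˣ) = 0 := by
  have h : (⟨1, 0⟩ : Ext C) = 1 := rfl
  unfold Phi
  rw [h, map_one]
  rfl

theorem Phi_mul {e e' : (Qt C)ˣ} (h : e * e' = e' * e) : Phi (e * e') = Phi e + Phi e' := by
  have h2 : (e : Qt C) * e' = e' * e := by
    rw [← Units.val_mul, h, Units.val_mul]
  have t1 : C.tau (e : Qt C) e' = 0 := C.tau_comm e.ne_zero e'.ne_zero h2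
  unfold Phi
  rw [← ofMul_mul, ← map_mul]
  congr 2
  ext1
  · rfl
  · rw [mul_m, t1]
    simp

theorem Phi_inv (e : (Qt C)ˣ) : Phi e⁻¹ = - Phi e := by
  have h : Phi (e⁻¹ * e) = Phi e⁻¹ + Phi e := Phi_mul (by group)
  rw [inv_mul_cancel, Phi_one] at h
  exact eq_neg_of_add_eq_zero_left h.symm

theorem Phi_three {a b c : (Qt C)ˣ} (h : a * b * c = 1) :
    Phi a + Phi b + Phi c = iQ (C.tau (a : Qt C) b) := by
  have h1 : a * b * c = c * (a * b) := by
    have h2 : c = (a * b)⁻¹ := eq_inv_of_mul_eq_one_right h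
    rw [h2]
    group
  have h2 : ((a * b : (Qt C)ˣ) : Qt C) * c = c * ((a * b : (Qt C)ˣ) : Qt C) := by
    rw [← Units.val_mul, h1, Units.val_mul]
  have t1 : C.tau ((a * b : (Qt C)ˣ) : Qt C) c = 0 :=
    C.tau_comm (Units.ne_zero _) (Units.ne_zero _) h2
  show Phi a + Phi b + Phi c = Additive.ofMul (Abelianization.of (⟨1, C.tau (a : Qt C) b⟩ : Ext C))
  unfold Phi
  rw [← ofMul_mul, ← map_mul, ← ofMul_mul, ← map_mul]
  congr 2
  ext1
  · exact h
  · rw [mul_m, mul_m, mul_u]
    have t2 : C.tau (((⟨a, 0⟩ : Ext C).u * (⟨b, 0⟩ : Ext C).u : (Qt C)ˣ) : Qt C)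
        ((⟨c, 0⟩ : Ext C).u : Qt C) = 0 := t1
    rw [t2]
    simp

end Ext

end Pool.Agent.MK
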