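import Pool.Agent.MK.Val

/-! # The degree filtration of `K₂` of the fraction field of a principal ideal domain: definitions -/

set_option autoImplicit false

namespace Pool.Agent.MK

universe u v w

/-- A degree function on a domain. -/
structure Deg (R : Type u) [CommRing R] where
  /-- the degree of a nonzero element -/
  deg : R → ℕ
  mul : ∀ f g, f ≠ 0 → g ≠ 0 → deg (f * g) = deg f + deg g
  sub : ∀ f g, f ≠ 0 → g ≠ 0 → f ≠ g → deg (f - g) ≤ max (deg f) (deg g)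
  unit : ∀ f, f ≠ 0 → deg f = 0 → IsUnit f

section

variable {R : Type u} [CommRing R] {K : Type u} [Field K] (ι : R →+* K) (D : Deg R)

/-- The subgroup of `K₂(K)` generated by the symbols `{f, g}` with `f, g ∈ R` of degree `< n`. -/
noncomputable def Ml (n : ℕ) : AddSubgroup (K2 K) :=
  AddSubgroup.closure {x | ∃ f g : R, f ≠ 0 ∧ g ≠ 0 ∧ D.deg f < n ∧ D.deg g < n ∧
    x = S (ι f) (ι g)}

/-- The subgroup generated by `Ml n` and the `{p, f}` with `p ∈ T`, `f ∈ R` of degree `< n`. -/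
noncomputable def MT (n : ℕ) (T : List R) : AddSubgroup (K2 K) :=
  Ml ι D n ⊔ AddSubgroup.closure {x | ∃ p ∈ T, ∃ f : R, f ≠ 0 ∧ D.deg f < n ∧ x = S (ι p) (ι f)}

/-- For all `x, y` prime to `p` there are `f, g, h` of degree `< n` with `f ≡ x g`, `g ≡ y h`
modulo `p`. -/
def Hex (n : ℕ) (p : R) : Prop :=
  ∀ x y : R, ¬ p ∣ x → ¬ p ∣ y → ∃ f g h : R, f ≠ 0 ∧ g ≠ 0 ∧ h ≠ 0 ∧
    D.deg f < n ∧ D.deg g < n ∧ D.deg h < n ∧ p ∣ f - x * g ∧ p ∣ g - y * h

/-- `w` is a place of `K` which restricts to the place of the prime `p` of `R`. -/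
structure PlaceAt {k : Type v} [Field k] (p : R) (w : Val K k) : Prop where
  vp : w.v (ι p) = 1
  v0 : ∀ r, ¬ p ∣ r → w.v (ι r) = 0
  inj : ∀ f g, ¬ p ∣ f → ¬ p ∣ g → w.ac (ι f) = w.ac (ι g) → p ∣ f - g

end

end Pool.Agent.MK
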