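import Pool.Agent.MK.Filt

/-! # The degree filtration: the Steinberg relation modulo lower degree

Notation: `{x, y} = S (ι x) (ι y)`, `Ml n` is generated by the `{f, g}` with `deg f, deg g < n`.
`n ≥ 1`, `p` a prime of degree `n`.  (A nonzero element of degree `< n` is not divisible by `p`;
units have degree `0`: from `D.mul`, `deg 1 = 0` and so `deg u = 0` if `u` is a unit.)

PROOFS.

* `S_mem`: by definition. `S_neg_one_mem`: `-1` has degree `0 < n`.

* `psi_congr`: let `p h = f g' - f' g`.  If `h = 0`, then `f g' = f' g` and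
  `{p,f} - {p,g} = {p,f'} - {p,g'}` by bimultiplicativity.  If `h ≠ 0` then
  `n + deg h = deg (p h) ≤ max (deg (f g')) (deg (f' g)) ≤ 2 (n - 1)`, so `deg h < n`.  Steinberg:
  `f' g / (f g') + p h / (f g') = 1`, hence
  `0 = {f' g / (f g'), p h / (f g')} = {f' g / (f g'), p} + {f' g / (f g'), h / (f g')}`,
  and the last term expands into symbols of elements of degree `< n`.  So
  `{p, f' g / (f g')} = - {f' g / (f g'), p} ∈ Ml n` (expand all symbols with `S_mul_left`,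
  `S_div_left`, ... and use `S_comm`).

* `psi_mul`: by `Hex` for `x = f * g₀`, ... here is the precise recipe.  We need `x, y : R` prime to
  `p` with `x ≡ f / g`, `y ≡ f' / g'` modulo `p`.  As `R` is a principal ideal domain and `p` is
  prime, `g` is invertible modulo `p`: there are `r, t` with `r g + t p = 1` (`IsCoprime`:
  `Irreducible.coprime_iff_not_dvd` or `Prime.irreducible`, `EuclideanDomain`-free:
  `IsBezout`/`isCoprime_of_irreducible_dvd`...).  Put `x = f r`; similarly `y = f' r'`.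
  `Hex` gives `f₁, g₁, h₁` with `f₁ ≡ x g₁`, `g₁ ≡ y h₁`.  Then `p ∣ f g₁ - f₁ g` and
  `p ∣ f' h₁ - g₁ g'`, so by `psi_congr` `{p,f} - {p,g} ≡ {p,f₁} - {p,g₁}` and
  `{p,f'} - {p,g'} ≡ {p,g₁} - {p,h₁}`; the sum is `≡ {p,f₁} - {p,h₁}`.  Take `f'' = f₁`, `g'' = h₁`;
  `p ∣ f f' g'' - g g' f''` because `f₁ ≡ x y h₁`.

* `two_primes`: `p, q` primes of degree `n`.  If `q = u p` with a unit `u`:
  `{q, p} = {u, p} + {p, p} = {p, -1} - {p, u}` (`S_self`); take `(f₁, g₁) = (u, -1)` and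
  `(f₂, g₂) = (1, 1)`.  Otherwise `p ∤ q`; by `Hex` (with `x = q`, `y = 1`)
  there are `f, g` nonzero of degree `< n` with `p ∣ f - q g`; write `g q = f + p h`, `h ≠ 0` (as
  `deg (g q) ≥ n > deg f`); `deg (p h) ≤ max (deg (g q)) (deg f) ≤ 2 n - 1`, so `deg h < n`.
  Steinberg: `f / (g q) + p h / (g q) = 1`:
  `0 = {f/(g q), p h/(g q)} = {f/g, p} + {f/g, h/g} - {f/g, q} - {q, p} - {q, h/g} + {q, q}` and
  `{q,q} = {q,-1}`, so modulo `Ml n`:
  `{q, p} ≡ {f/g, p} + {q, f/g} - {q, h/g} + {q, -1} = -({p,f} - {p,g}) + ({q,-f} - {q,h})`.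
-/

set_option autoImplicit false

namespace Pool.Agent.MK

universe u v w

variable {R : Type u} [CommRing R] [IsDomain R] {K : Type u} [Field K] {ι : R →+* K} {D : Deg R}

theorem S_mem {n : ℕ} {f g : R} (hf : f ≠ 0) (hg : g ≠ 0) (hfn : D.deg f < n) (hgn : D.deg g < n) :
    S (ι f) (ι g) ∈ Ml ι D n := by
  exact AddSubgroup.subset_closure ⟨f, g, hf, hg, hfn, hgn, rfl⟩

theorem deg_one : D.deg (1 : R) = 0 := by
  have h := D.mul 1 1 one_ne_zero one_ne_zero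
  rw [one_mul] at h
  omega

theorem deg_unit {u : R} (hu : IsUnit u) : D.deg u = 0 := by
  obtain ⟨v, hv⟩ := hu.exists_right_inv
  have hv0 : v ≠ 0 := by
    rintro rfl
    rw [mul_zero] at hv
    exact one_ne_zero hv.symm
  have h := D.mul u v hu.ne_zero hv0
  rw [hv, deg_one] at h
  omega

theorem deg_neg {f : R} (hf : f ≠ 0) : D.deg (-f) = D.deg f := by
  have h1 : IsUnit (-1 : R) := isUnit_one.neg
  have h := D.mul (-1) f h1.ne_zero hf
  rw [deg_unit h1, zero_add, neg_one_mul] at h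
  exact h

theorem not_dvd_of_deg_lt {n : ℕ} {p f : R} (hpn : D.deg p = n) (hf : f ≠ 0)
    (hfn : D.deg f < n) : ¬ p ∣ f := by
  rintro ⟨g, rfl⟩
  have hp : p ≠ 0 := left_ne_zero_of_mul hf
  have hg : g ≠ 0 := right_ne_zero_of_mul hf
  have h := D.mul p g hp hg
  omega

theorem psi_congr (hι : Function.Injective ι) {n : ℕ} {p f g f' g' : R} (hp : Prime p)
    (hpn : D.deg p = n) (hn : 1 ≤ n) (hf : f ≠ 0) (hg : g ≠ 0) (hf' : f' ≠ 0) (hg' : g' ≠ 0)
    (hfn : D.deg f < n) (hgn : D.deg g < n) (hfn' : D.deg f' < n) (hgn' : D.deg g' < n)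
    (hdvd : p ∣ f * g' - f' * g) :
    (S (ι p) (ι f) - S (ι p) (ι g)) - (S (ι p) (ι f') - S (ι p) (ι g')) ∈ Ml ι D n := by
  have hP : ι p ≠ 0 := (map_ne_zero_iff ι hι).mpr hp.ne_zero
  have hF : ι f ≠ 0 := (map_ne_zero_iff ι hι).mpr hf
  have hG : ι g ≠ 0 := (map_ne_zero_iff ι hι).mpr hg
  have hF' : ι f' ≠ 0 := (map_ne_zero_iff ι hι).mpr hf'
  have hG' : ι g' ≠ 0 := (map_ne_zero_iff ι hι).mpr hg'
  obtain ⟨h, hh⟩ := hdvd
  by_cases h0 : h = 0
  · rw [h0, mul_zero, sub_eq_zero] at hh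
    have e1 : S (ι p) (ι f) + S (ι p) (ι g') = S (ι p) (ι f') + S (ι p) (ι g) := by
      rw [← S_mul_right hF hG', ← S_mul_right hF' hG, ← map_mul, ← map_mul, hh]
    have e2 : (S (ι p) (ι f) - S (ι p) (ι g)) - (S (ι p) (ι f') - S (ι p) (ι g')) =
        (S (ι p) (ι f) + S (ι p) (ι g')) - (S (ι p) (ι f') + S (ι p) (ι g)) := by abel
    rw [e2, e1, sub_self]
    exact zero_mem _
  · have hne : f * g' ≠ f' * g := by
      intro hc
      rw [hc, sub_self] at hh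
      exact mul_ne_zero hp.ne_zero h0 hh.symm
    have hH : ι h ≠ 0 := (map_ne_zero_iff ι hι).mpr h0
    have hhn : D.deg h < n := by
      have d1 := D.sub (f * g') (f' * g) (mul_ne_zero hf hg') (mul_ne_zero hf' hg) hne
      rw [hh, D.mul _ _ hp.ne_zero h0, D.mul _ _ hf hg', D.mul _ _ hf' hg, hpn] at d1
      rcases le_max_iff.mp d1 with d | d <;> omega
    have hst : S (ι f' * ι g / (ι f * ι g')) (ι p * ι h / (ι f * ι g')) = 0 := by
      apply S_of_add_eq_one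
      rw [← add_div, div_eq_one_iff_eq (mul_ne_zero hF hG')]
      rw [← map_mul, ← map_mul, ← map_mul, ← map_add, ← hh]
      congr 1
      ring
    have hA : ∀ x : K, S (ι f' * ι g / (ι f * ι g')) x =
        S (ι f') x + S (ι g) x - (S (ι f) x + S (ι g') x) := by
      intro x
      rw [S_div_left (mul_ne_zero hF' hG) (mul_ne_zero hF hG'), S_mul_left hF' hG,
        S_mul_left hF hG']
    have hAm : ∀ x : R, x ≠ 0 → D.deg x < n →
        S (ι f' * ι g / (ι f * ι g')) (ι x) ∈ Ml ι D n := by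
      intro x hx hxn
      rw [hA]
      exact sub_mem (add_mem (S_mem hf' hx hfn' hxn) (S_mem hg hx hgn hxn))
        (add_mem (S_mem hf hx hfn hxn) (S_mem hg' hx hgn' hxn))
    rw [S_div_right (mul_ne_zero hP hH) (mul_ne_zero hF hG'), S_mul_right hP hH,
      S_mul_right hF hG'] at hst
    have e1 : (S (ι p) (ι f) - S (ι p) (ι g)) - (S (ι p) (ι f') - S (ι p) (ι g')) =
        S (ι f' * ι g / (ι f * ι g')) (ι p) := by
      rw [hA, S_comm (ι f') (ι p), S_comm (ι g) (ι p), S_comm (ι f) (ι p), S_comm (ι g') (ι p)]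
      abel
    have e2 : S (ι f' * ι g / (ι f * ι g')) (ι p) =
        (S (ι f' * ι g / (ι f * ι g')) (ι f) + S (ι f' * ι g / (ι f * ι g')) (ι g')) -
          S (ι f' * ι g / (ι f * ι g')) (ι h) := by
      rw [sub_eq_zero] at hst
      rw [← hst]
      abel
    rw [e1, e2]
    exact sub_mem (add_mem (hAm f hf hfn) (hAm g' hg' hgn')) (hAm h h0 hhn)

theorem psi_mul [IsPrincipalIdealRing R] (hι : Function.Injective ι) {n : ℕ} {p f g f' g' : R}
    (hp : Prime p) (hpn : D.deg p = n) (hn : 1 ≤ n) (hex : Hex D n p) (hf : f ≠ 0) (hg : g ≠ 0)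
    (hf' : f' ≠ 0) (hg' : g' ≠ 0)
    (hfn : D.deg f < n) (hgn : D.deg g < n) (hfn' : D.deg f' < n) (hgn' : D.deg g' < n) :
    ∃ f'' g'' : R, f'' ≠ 0 ∧ g'' ≠ 0 ∧ D.deg f'' < n ∧ D.deg g'' < n ∧
      (S (ι p) (ι f) - S (ι p) (ι g)) + (S (ι p) (ι f') - S (ι p) (ι g')) -
        (S (ι p) (ι f'') - S (ι p) (ι g'')) ∈ Ml ι D n := by
  have hpg : ¬ p ∣ g := not_dvd_of_deg_lt hpn hg hgn
  have hpg' : ¬ p ∣ g' := not_dvd_of_deg_lt hpn hg' hgn'
  have hpf : ¬ p ∣ f := not_dvd_of_deg_lt hpn hf hfn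
  have hpf' : ¬ p ∣ f' := not_dvd_of_deg_lt hpn hf' hfn'
  have hinv : ∀ g : R, ¬ p ∣ g → ∃ r : R, p ∣ r * g - 1 ∧ ¬ p ∣ r := by
    intro g hg
    have hc : IsCoprime p g := (hp.irreducible.coprime_iff_not_dvd).mpr hg
    obtain ⟨a, b, hab⟩ := hc
    have h1 : p ∣ b * g - 1 := ⟨-a, by rw [← hab]; ring⟩
    refine ⟨b, h1, ?_⟩
    intro hb
    apply hp.not_unit
    apply isUnit_of_dvd_one
    have h2 : p ∣ b * g := Dvd.dvd.mul_right hb g
    have h3 := dvd_sub h2 h1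
    rwa [sub_sub_cancel] at h3
  obtain ⟨r, hr, hpr⟩ := hinv g hpg
  obtain ⟨r', hr', hpr'⟩ := hinv g' hpg'
  obtain ⟨f₁, g₁, h₁, hf₁, hg₁, hh₁, df₁, dg₁, dh₁, c1, c2⟩ :=
    hex (f * r) (f' * r') (hp.not_dvd_mul hpf hpr) (hp.not_dvd_mul hpf' hpr')
  have k1 : p ∣ f * g₁ - f₁ * g := by
    have : f * g₁ - f₁ * g = -((f₁ - f * r * g₁) * g) - (r * g - 1) * (f * g₁) := by ring
    rw [this]
    exact dvd_sub ((Dvd.dvd.mul_right c1 _).neg_right) (Dvd.dvd.mul_right hr _)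
  have k2 : p ∣ f' * h₁ - g₁ * g' := by
    have : f' * h₁ - g₁ * g' = -((g₁ - f' * r' * h₁) * g') - (r' * g' - 1) * (f' * h₁) := by ring
    rw [this]
    exact dvd_sub ((Dvd.dvd.mul_right c2 _).neg_right) (Dvd.dvd.mul_right hr' _)
  have m1 := psi_congr (ι := ι) (D := D) hι hp hpn hn hf hg hf₁ hg₁ hfn hgn df₁ dg₁ k1
  have m2 := psi_congr (ι := ι) (D := D) hι hp hpn hn hf' hg' hg₁ hh₁ hfn' hgn' dg₁ dh₁ k2
  refine ⟨f₁, h₁, hf₁, hh₁, df₁, dh₁, ?_⟩
  have m3 := add_mem m1 m2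
  convert m3 using 1
  abel

theorem two_primes (hι : Function.Injective ι) {n : ℕ} {p q : R} (hp : Prime p) (hq : Prime q)
    (hpn : D.deg p = n) (hqn : D.deg q = n) (hn : 1 ≤ n) (hex : Hex D n p) :
    ∃ f₁ g₁ f₂ g₂ : R, f₁ ≠ 0 ∧ g₁ ≠ 0 ∧ f₂ ≠ 0 ∧ g₂ ≠ 0 ∧ D.deg f₁ < n ∧ D.deg g₁ < n ∧
      D.deg f₂ < n ∧ D.deg g₂ < n ∧
      S (ι q) (ι p) + (S (ι p) (ι f₁) - S (ι p) (ι g₁)) - (S (ι q) (ι f₂) - S (ι q) (ι g₂)) ∈
        Ml ι D n := by
  have hP : ι p ≠ 0 := (map_ne_zero_iff ι hι).mpr hp.ne_zero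
  have hQ : ι q ≠ 0 := (map_ne_zero_iff ι hι).mpr hq.ne_zero
  have hm1 : IsUnit (-1 : R) := isUnit_one.neg
  by_cases hpq : p ∣ q
  · obtain ⟨u, hu⟩ := hpq
    have huu : IsUnit u := by
      rcases hq.irreducible.isUnit_or_isUnit hu with h | h
      · exact absurd h hp.not_unit
      · exact h
    have hU : ι u ≠ 0 := (map_ne_zero_iff ι hι).mpr huu.ne_zero
    refine ⟨u, -1, 1, 1, huu.ne_zero, hm1.ne_zero, one_ne_zero, one_ne_zero, ?_, ?_, ?_, ?_, ?_⟩
    · rw [deg_unit huu]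
      omega
    · rw [deg_unit hm1]
      omega
    · rw [deg_one]
      omega
    · rw [deg_one]
      omega
    · have e1 : S (ι q) (ι p) = S (ι p) (-1) - S (ι p) (ι u) := by
        rw [hu, map_mul, S_mul_left hP hU, S_self, S_comm (ι u) (ι p)]
        abel
      rw [e1, map_neg, map_one]
      have e2 : S (ι p) (-1) - S (ι p) (ι u) + (S (ι p) (ι u) - S (ι p) (-1)) -
          (S (ι q) 1 - S (ι q) 1) = 0 := by abel
      rw [e2]
      exact zero_mem _
  · obtain ⟨f, g, h', hf, hg, hh', df, dg, dh', c1, c2⟩ := hex q 1 hpq hp.not_dvd_one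
    obtain ⟨c, hc⟩ := c1
    have hfq : g * q ≠ f := by
      intro hcon
      have := D.mul g q hg hq.ne_zero
      rw [hcon, hqn] at this
      omega
    have hh : p * (-c) = g * q - f := by
      rw [mul_neg, ← hc]
      ring
    have h0 : -c ≠ 0 := by
      intro hcon
      rw [hcon, mul_zero] at hh
      exact hfq (sub_eq_zero.mp hh.symm)
    have hhn : D.deg (-c) < n := by
      have d1 := D.sub (g * q) f (mul_ne_zero hg hq.ne_zero) hf hfq
      rw [← hh, D.mul _ _ hp.ne_zero h0, D.mul _ _ hg hq.ne_zero, hpn, hqn] at d1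
      rcases le_max_iff.mp d1 with d | d <;> omega
    set h : R := -c with hhdef
    have hF : ι f ≠ 0 := (map_ne_zero_iff ι hι).mpr hf
    have hG : ι g ≠ 0 := (map_ne_zero_iff ι hι).mpr hg
    have hH : ι h ≠ 0 := (map_ne_zero_iff ι hι).mpr h0
    have hGQ : ι g * ι q ≠ 0 := mul_ne_zero hG hQ
    have hst : S (ι f / (ι g * ι q)) (ι p * ι h / (ι g * ι q)) = 0 := by
      apply S_of_add_eq_one
      rw [← add_div, div_eq_one_iff_eq hGQ]
      rw [← map_mul, ← map_mul, ← map_add, hh]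
      congr 1
      ring
    have hA : ∀ x : K, S (ι f / (ι g * ι q)) x = S (ι f) x - (S (ι g) x + S (ι q) x) := by
      intro x
      rw [S_div_left hF hGQ, S_mul_left hG hQ]
    rw [S_div_right (mul_ne_zero hP hH) hGQ, S_mul_right hP hH, S_mul_right hG hQ, hA, hA, hA,
      hA, S_self (ι q), S_comm (ι f) (ι p), S_comm (ι g) (ι p), S_comm (ι f) (ι q),
      S_comm (ι g) (ι q)] at hst
    refine ⟨f, g, -f, h, hf, hg, neg_ne_zero.mpr hf, h0, df, dg, ?_, hhn, ?_⟩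
    · rw [deg_neg hf]
      exact df
    · have e1 : S (ι q) (ι (-f)) = S (ι q) (-1) + S (ι q) (ι f) := by
        rw [map_neg, S_neg_right (ι q) (ι f) hF]
      rw [e1]
      have hm : S (ι f) (ι h) - S (ι g) (ι h) - S (ι f) (ι g) + S (ι g) (ι g) ∈ Ml ι D n :=
        add_mem (sub_mem (sub_mem (S_mem hf h0 df hhn) (S_mem hg h0 dg hhn))
          (S_mem hf hg df dg)) (S_mem hg hg dg dg)
      convert hm using 1
      rw [← sub_eq_zero, ← neg_eq_zero, ← hst]
      abel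

end Pool.Agent.MK
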