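import Pool.Agent.MK.Val

/-! # Basic properties of places

PROOFS. All are elementary consequences of the axioms `pos`, `zero`, `neg` of `Val`, applied to
`x / (x + y) + y / (x + y) = 1`.

* `v_inv`, `v_neg`, `v_pow`, ... : from `v_mul`, `v_one`, `v_neg_one`; `ac` similarly.
* `add_lt`: `x ≠ 0`, `y = 0 ∨ v x < v y`.  Then `x + y ≠ 0` (otherwise `y = -x`, `v y = v x`);
  put `z = x + y`, `x / z + y / z = 1` (`y ≠ 0`).  `v (y/z) < 0` would give `v (x/z) = v (y/z)`
  (axiom `neg`), i.e. `v x = v y`; `v (y/z) = 0` would give `v z = v y > v x`, so `v (x/z) < 0` and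
  `neg` gives `v (y/z) = v (x/z) < 0`; so `v (y/z) > 0` and `pos` gives `v (x/z) = 0`,
  `ac (x/z) = 1`.
* `v_add`: if `v (x+y) < min (v x) (v y)` then `0 < v (x/z)` and `0 < v (y/z)`, contradicting `pos`.
* `ac_add`: axiom `zero` for `x/z`, `y/z`.
* `ac_cancel`: `v x = v y < v (x+y)`: axiom `neg`.
* `res_*`: case distinctions.
* `tame_congr`: by `K2_hom_ext` (or `K2_induction`) it is enough to treat `S x y`.  With `m = v x`,
  `n = v y` the element `t = (-1)^(m n) * y^m / x^n` has `v t = 0` and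
  `w.tame (S x y) = w.A t` (expand `A` multiplicatively: `A_mul`, `A_zpow`, `A_neg_one`).  Hence the
  statement follows from the hypothesis for the unit `t`.
-/

set_option autoImplicit false

namespace Pool.Agent.MK

universe u v w

namespace Val

variable {K : Type u} {k : Type v} [Field K] [Field k] (w : Val K k)

theorem v_inv (x : K) : w.v x⁻¹ = - w.v x := by
  by_cases hx : x = 0
  · rw [hx, inv_zero, w.v_zero, neg_zero]
  · have h := w.v_mul x x⁻¹ hx (inv_ne_zero hx)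
    rw [mul_inv_cancel₀ hx, w.v_one] at h
    omega

theorem ac_inv (x : K) : w.ac x⁻¹ = (w.ac x)⁻¹ := by
  by_cases hx : x = 0
  · rw [hx, inv_zero, w.ac_zero, inv_zero]
  · have h := w.ac_mul x x⁻¹ hx (inv_ne_zero hx)
    rw [mul_inv_cancel₀ hx, w.ac_one] at h
    exact eq_inv_of_mul_eq_one_right h.symm

theorem v_div {x y : K} (hx : x ≠ 0) (hy : y ≠ 0) : w.v (x / y) = w.v x - w.v y := by
  rw [div_eq_mul_inv, w.v_mul x _ hx (inv_ne_zero hy), w.v_inv]
  ring

theorem ac_div (x y : K) : w.ac (x / y) = w.ac x / w.ac y := by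
  by_cases hx : x = 0
  · rw [hx, zero_div, w.ac_zero, zero_div]
  by_cases hy : y = 0
  · rw [hy, div_zero, w.ac_zero, div_zero]
  rw [div_eq_mul_inv, w.ac_mul x _ hx (inv_ne_zero hy), w.ac_inv, div_eq_mul_inv]

theorem v_neg (x : K) : w.v (-x) = w.v x := by
  by_cases hx : x = 0
  · rw [hx, neg_zero]
  · rw [← neg_one_mul, w.v_mul _ _ (neg_ne_zero.mpr one_ne_zero) hx, w.v_neg_one, zero_add]

theorem ac_neg (x : K) : w.ac (-x) = - w.ac x := by
  by_cases hx : x = 0
  · rw [hx, neg_zero, w.ac_zero, neg_zero]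
  · rw [← neg_one_mul, w.ac_mul _ _ (neg_ne_zero.mpr one_ne_zero) hx, w.ac_neg_one, neg_one_mul]

theorem ac_mul' (x y : K) : w.ac (x * y) = w.ac x * w.ac y := by
  by_cases hx : x = 0
  · rw [hx, zero_mul, w.ac_zero, zero_mul]
  by_cases hy : y = 0
  · rw [hy, mul_zero, w.ac_zero, mul_zero]
  exact w.ac_mul x y hx hy

theorem v_pow (x : K) (n : ℕ) : w.v (x ^ n) = n * w.v x := by
  by_cases hx : x = 0
  · rcases Nat.eq_zero_or_pos n with rfl | hn
    · rw [pow_zero, w.v_one]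
      simp
    · rw [hx, zero_pow hn.ne', w.v_zero, mul_zero]
  · induction n with
    | zero => rw [pow_zero, w.v_one]; simp
    | succ n ih =>
      rw [pow_succ, w.v_mul _ _ (pow_ne_zero n hx) hx, ih]
      push_cast
      ring

theorem v_zpow (x : K) (n : ℤ) (hx : x ≠ 0) : w.v (x ^ n) = n * w.v x := by
  cases n with
  | ofNat n => simpa using w.v_pow x n
  | negSucc n =>
    rw [zpow_negSucc, w.v_inv, w.v_pow, Int.negSucc_eq]
    push_cast
    ring

theorem ac_zpow (x : K) (n : ℤ) (hx : x ≠ 0) : w.ac (x ^ n) = w.ac x ^ n := by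
  have hp : ∀ m : ℕ, w.ac (x ^ m) = w.ac x ^ m := by
    intro m
    induction m with
    | zero => rw [pow_zero, pow_zero, w.ac_one]
    | succ m ih => rw [pow_succ, pow_succ, w.ac_mul _ _ (pow_ne_zero m hx) hx, ih]
  cases n with
  | ofNat n => simpa using hp n
  | negSucc n => rw [zpow_negSucc, zpow_negSucc, w.ac_inv, hp]

theorem ac_eq_zero {x : K} : w.ac x = 0 ↔ x = 0 := by
  refine ⟨fun h => ?_, fun h => by rw [h, w.ac_zero]⟩
  by_contra hx
  exact w.ac_ne x hx h

/-- If `v x < v y` then `x + y` has the same valuation and angular component as `x`. -/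
theorem add_lt {x y : K} (hx : x ≠ 0) (h : y = 0 ∨ w.v x < w.v y) :
    x + y ≠ 0 ∧ w.v (x + y) = w.v x ∧ w.ac (x + y) = w.ac x := by
  rcases h with rfl | h
  · rw [add_zero]
    exact ⟨hx, rfl, rfl⟩
  by_cases hy : y = 0
  · rw [hy, add_zero]
    exact ⟨hx, rfl, rfl⟩
  have hz : x + y ≠ 0 := by
    intro h0
    have h1 : y = -x := by linear_combination h0
    rw [h1, w.v_neg] at h
    exact lt_irrefl _ h
  have h1 : x / (x + y) + y / (x + y) = 1 := by
    rw [← add_div, div_self hz]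
  have hxz : x / (x + y) ≠ 0 := div_ne_zero hx hz
  have hyz : y / (x + y) ≠ 0 := div_ne_zero hy hz
  have e1 := w.v_div hx hz
  have e2 := w.v_div hy hz
  have h2 : 0 < w.v (y / (x + y)) := by
    rcases lt_trichotomy (w.v (y / (x + y))) 0 with h3 | h3 | h3
    · have h4 := (w.neg _ _ hyz hxz (by rw [add_comm, h1]) h3).1
      omega
    · have h5 : w.v (x / (x + y)) < 0 := by omega
      have h4 := (w.neg _ _ hxz hyz h1 h5).1
      omega
    · exact h3
  obtain ⟨h3, h4⟩ := w.pos _ _ hyz hxz (by rw [add_comm, h1]) h2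
  refine ⟨hz, by omega, ?_⟩
  rw [w.ac_div, div_eq_one_iff_eq (w.ac_ne _ hz)] at h4
  exact h4.symm

theorem v_add {x y : K} (hx : x ≠ 0) (hy : y ≠ 0) (hxy : x + y ≠ 0) :
    min (w.v x) (w.v y) ≤ w.v (x + y) := by
  by_contra hcon
  push Not at hcon
  have hx1 : w.v (x + y) < w.v x := hcon.trans_le (min_le_left _ _)
  have hy1 : w.v (x + y) < w.v y := hcon.trans_le (min_le_right _ _)
  have h1 : x / (x + y) + y / (x + y) = 1 := by
    rw [← add_div, div_self hxy]
  have e1 := w.v_div hx hxy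
  have e2 := w.v_div hy hxy
  have h2 := (w.pos _ _ (div_ne_zero hx hxy) (div_ne_zero hy hxy) h1 (by omega)).1
  omega

theorem ac_add {x y : K} (hx : x ≠ 0) (hy : y ≠ 0) (hxy : x + y ≠ 0) (h : w.v x = w.v y)
    (h2 : w.v (x + y) = w.v x) : w.ac (x + y) = w.ac x + w.ac y := by
  have h1 : x / (x + y) + y / (x + y) = 1 := by
    rw [← add_div, div_self hxy]
  have e1 := w.v_div hx hxy
  have e2 := w.v_div hy hxy
  have h3 := w.zero _ _ (div_ne_zero hx hxy) (div_ne_zero hy hxy) h1 (by omega) (by omega)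
  rw [w.ac_div, w.ac_div, ← add_div, div_eq_one_iff_eq (w.ac_ne _ hxy)] at h3
  exact h3.symm

theorem ac_cancel {x y : K} (hx : x ≠ 0) (hy : y ≠ 0) (hxy : x + y ≠ 0) (h : w.v x = w.v y)
    (h2 : w.v x < w.v (x + y)) : w.ac x + w.ac y = 0 := by
  have h1 : x / (x + y) + y / (x + y) = 1 := by
    rw [← add_div, div_self hxy]
  have e1 := w.v_div hx hxy
  have h3 := (w.neg _ _ (div_ne_zero hx hxy) (div_ne_zero hy hxy) h1 (by omega)).2
  have hz := w.ac_ne _ hxy
  rw [w.ac_div, w.ac_div, ← neg_div, div_left_inj' hz] at h3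
  rw [h3, add_neg_cancel]

/-! `res` on the valuation ring `{x | 0 ≤ v x}` (note `v 0 = 0`, `ac 0 = 0`). -/

theorem res_zero : w.res 0 = 0 := by
  rw [res, if_pos w.v_zero, w.ac_zero]

theorem res_one : w.res 1 = 1 := by
  rw [res, if_pos w.v_one, w.ac_one]

theorem res_of_v_eq {x : K} (h : w.v x = 0) : w.res x = w.ac x := by
  rw [res, if_pos h]

theorem res_of_pos {x : K} (h : 0 < w.v x) : w.res x = 0 := by
  rw [res, if_neg (by omega)]

theorem v_add_nonneg {x y : K} (hx : 0 ≤ w.v x) (hy : 0 ≤ w.v y) : 0 ≤ w.v (x + y) := by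
  by_cases h1 : x = 0
  · rwa [h1, zero_add]
  by_cases h2 : y = 0
  · rwa [h2, add_zero]
  by_cases h3 : x + y = 0
  · rw [h3, w.v_zero]
  exact (le_min hx hy).trans (w.v_add h1 h2 h3)

theorem v_mul_nonneg {x y : K} (hx : 0 ≤ w.v x) (hy : 0 ≤ w.v y) : 0 ≤ w.v (x * y) := by
  by_cases h1 : x = 0
  · rw [h1, zero_mul, w.v_zero]
  by_cases h2 : y = 0
  · rw [h2, mul_zero, w.v_zero]
  rw [w.v_mul x y h1 h2]
  omega

theorem res_add {x y : K} (hx : 0 ≤ w.v x) (hy : 0 ≤ w.v y) : w.res (x + y) = w.res x + w.res y := by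
  by_cases h1 : x = 0
  · rw [h1, zero_add, w.res_zero, zero_add]
  by_cases h2 : y = 0
  · rw [h2, add_zero, w.res_zero, add_zero]
  by_cases h3 : x + y = 0
  · have h4 : y = -x := by linear_combination h3
    rw [h3, w.res_zero, h4]
    unfold res
    rw [w.v_neg, w.ac_neg]
    split_ifs <;> simp
  rcases hx.eq_or_lt with hx0 | hx0
  · rcases hy.eq_or_lt with hy0 | hy0
    · rw [w.res_of_v_eq hx0.symm, w.res_of_v_eq hy0.symm]
      have h4 := w.v_add_nonneg hx hy
      rcases h4.eq_or_lt with h5 | h5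
      · rw [w.res_of_v_eq h5.symm]
        exact w.ac_add h1 h2 h3 (by omega) (by omega)
      · rw [w.res_of_pos h5]
        exact (w.ac_cancel h1 h2 h3 (by omega) (by omega)).symm
    · obtain ⟨-, h5, h6⟩ := w.add_lt (x := x) (y := y) h1 (Or.inr (by omega))
      rw [w.res_of_v_eq hx0.symm, w.res_of_pos hy0, w.res_of_v_eq (by omega), h6, add_zero]
  · rcases hy.eq_or_lt with hy0 | hy0
    · obtain ⟨-, h5, h6⟩ := w.add_lt (x := y) (y := x) h2 (Or.inr (by omega))
      rw [w.res_of_v_eq hy0.symm, w.res_of_pos hx0, add_comm x y, w.res_of_v_eq (by omega), h6,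
        zero_add]
    · rw [w.res_of_pos hx0, w.res_of_pos hy0, add_zero]
      exact w.res_of_pos ((lt_min hx0 hy0).trans_le (w.v_add h1 h2 h3))

theorem res_mul {x y : K} (hx : 0 ≤ w.v x) (hy : 0 ≤ w.v y) : w.res (x * y) = w.res x * w.res y := by
  by_cases h1 : x = 0
  · rw [h1, zero_mul, w.res_zero, zero_mul]
  by_cases h2 : y = 0
  · rw [h2, mul_zero, w.res_zero, mul_zero]
  have h3 := w.v_mul x y h1 h2
  rcases hx.eq_or_lt with hx0 | hx0
  · rcases hy.eq_or_lt with hy0 | hy0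
    · rw [w.res_of_v_eq hx0.symm, w.res_of_v_eq hy0.symm, w.res_of_v_eq (by omega),
        w.ac_mul x y h1 h2]
    · rw [w.res_of_pos hy0, mul_zero, w.res_of_pos (by omega)]
  · rw [w.res_of_pos hx0, zero_mul, w.res_of_pos (by omega)]

theorem res_neg {x : K} (hx : 0 ≤ w.v x) : w.res (-x) = - w.res x := by
  rcases hx.eq_or_lt with hx0 | hx0
  · rw [w.res_of_v_eq hx0.symm, w.res_of_v_eq (by rw [w.v_neg]; exact hx0.symm), w.ac_neg]
  · rw [w.res_of_pos hx0, w.res_of_pos (by rw [w.v_neg]; exact hx0), neg_zero]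

/-- A nonzero element of the valuation ring has residue `0` iff its valuation is positive. -/
theorem res_eq_zero {x : K} (hx : x ≠ 0) (h : 0 ≤ w.v x) : w.res x = 0 ↔ 0 < w.v x := by
  refine ⟨fun h1 => ?_, fun h1 => w.res_of_pos h1⟩
  rcases h.eq_or_lt with h0 | h0
  · rw [w.res_of_v_eq h0.symm] at h1
    exact absurd h1 (w.ac_ne x hx)
  · exact h0

theorem A_zpow (x : K) (n : ℤ) (hx : x ≠ 0) : w.A (x ^ n) = n • w.A x := by
  apply Additive.toMul.injective
  rw [Units.ext_iff, w.A_val (zpow_ne_zero n hx), w.ac_zpow x n hx, toMul_zsmul,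
    Units.val_zpow_eq_zpow_val, w.A_val hx]

theorem A_inv (x : K) : w.A x⁻¹ = - w.A x := by
  by_cases hx : x = 0
  · rw [hx, inv_zero, w.A_zero, neg_zero]
  · have h := w.A_mul hx (inv_ne_zero hx)
    rw [mul_inv_cancel₀ hx, w.A_one] at h
    exact (neg_eq_of_add_eq_zero_right h.symm).symm

theorem A_div {x y : K} (hx : x ≠ 0) (hy : y ≠ 0) : w.A (x / y) = w.A x - w.A y := by
  rw [div_eq_mul_inv, w.A_mul hx (inv_ne_zero hy), w.A_inv, sub_eq_add_neg]

/-- The tame symbol `{x, y}` is the angular component of the unit `(-1)^(m n) y^m / x^n`. -/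
theorem tame_S_unit {x y : K} (hx : x ≠ 0) (hy : y ≠ 0) :
    w.tame (S x y) = w.A ((-1) ^ (w.v x * w.v y) * y ^ (w.v x) / x ^ (w.v y)) ∧
    w.v ((-1) ^ (w.v x * w.v y) * y ^ (w.v x) / x ^ (w.v y)) = 0 := by
  have h1 : ((-1 : K)) ^ (w.v x * w.v y) ≠ 0 := zpow_ne_zero _ (neg_ne_zero.mpr one_ne_zero)
  have h2 : y ^ (w.v x) ≠ 0 := zpow_ne_zero _ hy
  have h3 : x ^ (w.v y) ≠ 0 := zpow_ne_zero _ hx
  constructor
  · rw [w.tame_S hx hy, w.A_div (mul_ne_zero h1 h2) h3, w.A_mul h1 h2,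
      w.A_zpow _ _ (neg_ne_zero.mpr one_ne_zero), w.A_zpow _ _ hy, w.A_zpow _ _ hx, w.A_neg_one]
  · rw [w.v_div (mul_ne_zero h1 h2) h3, w.v_mul _ _ h1 h2,
      w.v_zpow _ _ (neg_ne_zero.mpr one_ne_zero), w.v_zpow _ _ hy, w.v_zpow _ _ hx, w.v_neg_one]
    ring

/-- Comparison of the tame symbols of two places with the same valuation and compatible residues of
units. -/
theorem tame_congr {K' : Type u} {k' : Type w} [Field K'] [Field k'] (w' : Val K' k')
    (φ : K →+* K') (j : k →+* k') (hv : ∀ x, x ≠ 0 → w'.v (φ x) = w.v x)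
    (hac : ∀ x, x ≠ 0 → w.v x = 0 → w'.ac (φ x) = j (w.ac x)) (x : K2 K) :
    (w'.tame (K2.map φ x)).toMul = Units.map (j : k →* k') (w.tame x).toMul := by
  induction x using K2_induction with
  | hS a b ha hb =>
    obtain ⟨h1, h2⟩ := w.tame_S_unit ha hb
    have hφa : φ a ≠ 0 := (map_ne_zero φ).mpr ha
    have hφb : φ b ≠ 0 := (map_ne_zero φ).mpr hb
    obtain ⟨h3, -⟩ := w'.tame_S_unit hφa hφb
    have ht : (-1 : K) ^ (w.v a * w.v b) * b ^ (w.v a) / a ^ (w.v b) ≠ 0 :=
      div_ne_zero (mul_ne_zero (zpow_ne_zero _ (neg_ne_zero.mpr one_ne_zero))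
        (zpow_ne_zero _ hb)) (zpow_ne_zero _ ha)
    have h4 : (-1 : K') ^ (w'.v (φ a) * w'.v (φ b)) * φ b ^ (w'.v (φ a)) / φ a ^ (w'.v (φ b)) =
        φ ((-1 : K) ^ (w.v a * w.v b) * b ^ (w.v a) / a ^ (w.v b)) := by
      rw [hv a ha, hv b hb, map_div₀, map_mul, map_zpow₀, map_zpow₀, map_zpow₀, map_neg, map_one]
    rw [K2.map_S, h3, h1, h4, Units.ext_iff, w'.A_val ((map_ne_zero φ).mpr ht), hac _ ht h2]
    show _ = j ((w.A _).toMul : k)
    rw [w.A_val ht]
  | hz => simp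
  | hadd x y hx hy =>
    rw [map_add (K2.map φ), map_add w'.tame, map_add w.tame, toMul_add, toMul_add, map_mul, hx, hy]

/-- In the situation of `tame_congr` the two tame symbols vanish simultaneously. -/
theorem tame_congr_zero {K' : Type u} {k' : Type w} [Field K'] [Field k'] (w' : Val K' k')
    (φ : K →+* K') (j : k →+* k') (hv : ∀ x, x ≠ 0 → w'.v (φ x) = w.v x)
    (hac : ∀ x, x ≠ 0 → w.v x = 0 → w'.ac (φ x) = j (w.ac x)) (x : K2 K) :
    w'.tame (K2.map φ x) = 0 ↔ w.tame x = 0 := by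
  have h := w.tame_congr w' φ j hv hac x
  have hinj : Function.Injective (Units.map (j : k →* k')) :=
    Units.map_injective j.injective
  constructor
  · intro h0
    rw [h0, toMul_zero] at h
    have h2 : (w.tame x).toMul = 1 := hinj (by rw [← h, map_one])
    exact Additive.toMul.injective h2
  · intro h0
    rw [h0, toMul_zero, map_one] at h
    exact Additive.toMul.injective h

/-- If `v x = 0 = v y` then the tame symbol of `{x, y}` vanishes. -/
theorem tame_S_units {x y : K} (hx : w.v x = 0) (hy : w.v y = 0) : w.tame (S x y) = 0 := by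
  by_cases h1 : x = 0
  · rw [h1, S_zero_left, map_zero]
  by_cases h2 : y = 0
  · rw [h2, S_zero_right, map_zero]
  rw [w.tame_S h1 h2, hx, hy]
  simp

/-- Tame symbol of `{π, u}` for `v u = 0`. -/
theorem tame_S_left {x y : K} (hx : x ≠ 0) (hy : y ≠ 0) (h : w.v y = 0) :
    w.tame (S x y) = w.v x • w.A y := by
  rw [w.tame_S hx hy, h]
  simp

theorem tame_S_right {x y : K} (hx : x ≠ 0) (hy : y ≠ 0) (h : w.v x = 0) :
    w.tame (S x y) = - (w.v y • w.A x) := by
  rw [w.tame_S hx hy, h]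
  simp

end Val

end Pool.Agent.MK
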