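import Pool.Agent.MK.FiltA
import Pool.Agent.MK.ValLem

/-! # The degree filtration: elements of `Ml (n+1)` without residues in degree `n` lie in `Ml n`

PROOFS (`n ≥ 1`).

* `exists_MT`: closure induction on `m ∈ Ml (n+1)`.  `MT n T ≤ MT n (T ++ T')` etc. give closure
  under sums.  For a generator `{f, g}` with `deg f, deg g ≤ n`: first show that every `f ≠ 0` with
  `deg f ≤ n` has `deg f < n` or is a prime of degree `n` or a product `f₁ f₂` of elements of degree `< n`
  (if `deg f = n ≥ 1` then `f` is not a unit (`deg_unit`); if it is not irreducible, `f = f₁ f₂` with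
  nonunits, which have positive degree by `D.unit`, so both have degree `< n`; irreducible elements are
  prime in a PID).  By bimultiplicativity
  it is enough to treat `{f, g}` with `f, g` each of degree `< n` or prime of degree `n`:
  `{f, g} ∈ Ml n`, `{p, g} ∈ MT n [p]`, `{f, p} = -{p, f}`, and `{q, p} ∈ MT n [p, q]` by `two_primes`.

* `MT_remove`: let `m ∈ MT n (p :: T)`.
  Case 1: `p` is associated to some `t ∈ T`, `p = u t`: `{p, f} = {u, f} + {t, f}`, so
  `MT n (p :: T) ≤ MT n T`.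
  Case 2: otherwise.  Claim: there are `f, g` nonzero of degree `< n` with
  `m - ({p,f} - {p,g}) ∈ MT n T`: the set of `m` with this property contains `MT n T` (take
  `f = g = 1`) and the `{p, f}` (take `g = 1`), and is closed under sums by `psi_mul` and under
  negation (exchange `f` and `g`); `MT n (p :: T)` is generated by `MT n T` and the `{p, f}`.
  Now `w.tame` vanishes on `MT n T`: on `{f, g}`, `deg f, deg g < n`, by `PlaceAt.v0` and
  `not_dvd_of_deg_lt`; on `{t, f}` also, as `p ∤ t` (`t` is prime and not associated to `p`: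
  `Prime.associated_of_dvd` / `Irreducible.associated_of_dvd`), with `Val.tame_S_units`.  So
  `0 = w.tame ({p,f} - {p,g}) = w.A (ι f) - w.A (ι g)` (`Val.tame_S_left`, `PlaceAt.vp`), so
  `w.ac (ι f) = w.ac (ι g)` (`Val.A_eq_iff`) and `p ∣ f - g` by `PlaceAt.inj`.  By `psi_congr` with
  `f' = g' = 1` we get `{p,f} - {p,g} ∈ Ml n`, so `m ∈ MT n T`.

* `filt_step`: from `exists_MT` and `MT_remove` by induction on the list; `MT n [] = Ml n`.

* `filt_main`: `m ∈ Ml N` for some `N ≥ n₀` (`K2_induction` and `hfrac`: every symbol is a combination of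
  symbols of elements of `R`); then descending induction from `N` to `n₀` using `filt_step`.
-/

set_option autoImplicit false

namespace Pool.Agent.MK

universe u v w

variable {R : Type u} [CommRing R] [IsDomain R] [IsPrincipalIdealRing R] {K : Type u} [Field K]
  {ι : R →+* K} {D : Deg R}

omit [IsDomain R] [IsPrincipalIdealRing R] in
private lemma Ml_le_MT (n : ℕ) (T : List R) : Ml ι D n ≤ MT ι D n T := le_sup_left

omit [IsDomain R] [IsPrincipalIdealRing R] in
private lemma mem_MT_of {n : ℕ} {T : List R} {p f : R} (hp : p ∈ T) (hf : f ≠ 0)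
    (hfn : D.deg f < n) : S (ι p) (ι f) ∈ MT ι D n T :=
  (le_sup_right : _ ≤ MT ι D n T) (AddSubgroup.subset_closure ⟨p, hp, f, hf, hfn, rfl⟩)

omit [IsDomain R] [IsPrincipalIdealRing R] in
private lemma MT_le {n : ℕ} {T : List R} {H : AddSubgroup (K2 K)} (h1 : Ml ι D n ≤ H)
    (h2 : ∀ p ∈ T, ∀ f : R, f ≠ 0 → D.deg f < n → S (ι p) (ι f) ∈ H) : MT ι D n T ≤ H := by
  refine sup_le h1 ?_
  rw [AddSubgroup.closure_le]
  rintro _ ⟨p, hp, f, hf, hfn, rfl⟩
  exact h2 p hp f hf hfn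

omit [IsDomain R] [IsPrincipalIdealRing R] in
private lemma MT_mono {n : ℕ} {T T' : List R} (h : ∀ t ∈ T, t ∈ T') : MT ι D n T ≤ MT ι D n T' :=
  MT_le (Ml_le_MT n T') fun _ hp _ hf hfn => mem_MT_of (h _ hp) hf hfn

omit [IsDomain R] [IsPrincipalIdealRing R] in
private lemma MT_nil {n : ℕ} : MT ι D n [] = Ml ι D n := by
  refine le_antisymm (MT_le le_rfl ?_) (Ml_le_MT n [])
  intro p hp
  exact absurd hp List.not_mem_nil

omit [IsDomain R] [IsPrincipalIdealRing R] in
private lemma Ml_mono {n n' : ℕ} (h : n ≤ n') : Ml ι D n ≤ Ml ι D n' := by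
  unfold Ml
  rw [AddSubgroup.closure_le]
  rintro _ ⟨f, g, hf, hg, hfn, hgn, rfl⟩
  exact AddSubgroup.subset_closure ⟨f, g, hf, hg, by omega, by omega, rfl⟩

/-- Elements which lie in `MT n T` for some list `T` of primes of degree `n`. -/
private def Good (ι : R →+* K) (D : Deg R) (n : ℕ) (m : K2 K) : Prop :=
  ∃ T : List R, (∀ p ∈ T, Prime p ∧ D.deg p = n) ∧ m ∈ MT ι D n T

omit [IsDomain R] [IsPrincipalIdealRing R] in
private lemma Good.add {n : ℕ} {m m' : K2 K} (h : Good ι D n m) (h' : Good ι D n m') :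
    Good ι D n (m + m') := by
  obtain ⟨T, hT, hm⟩ := h
  obtain ⟨T', hT', hm'⟩ := h'
  refine ⟨T ++ T', ?_, ?_⟩
  · intro p hp
    rcases List.mem_append.1 hp with h1 | h1
    · exact hT p h1
    · exact hT' p h1
  · exact add_mem (MT_mono (fun t ht => List.mem_append.2 (Or.inl ht)) hm)
      (MT_mono (fun t ht => List.mem_append.2 (Or.inr ht)) hm')

omit [IsDomain R] [IsPrincipalIdealRing R] in
private lemma Good.neg {n : ℕ} {m : K2 K} (h : Good ι D n m) : Good ι D n (-m) := by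
  obtain ⟨T, hT, hm⟩ := h
  exact ⟨T, hT, neg_mem hm⟩

omit [IsDomain R] [IsPrincipalIdealRing R] in
private lemma Good.of_Ml {n : ℕ} {m : K2 K} (h : m ∈ Ml ι D n) : Good ι D n m :=
  ⟨[], fun _ hp => absurd hp List.not_mem_nil, Ml_le_MT n [] h⟩

private def Simple (D : Deg R) (n : ℕ) (f : R) : Prop :=
  f ≠ 0 ∧ (D.deg f < n ∨ (Prime f ∧ D.deg f = n))

private lemma decomp {n : ℕ} (hn : 1 ≤ n) {f : R} (hf : f ≠ 0) (hfn : D.deg f < n + 1) :
    Simple D n f ∨ ∃ f₁ f₂ : R, f = f₁ * f₂ ∧ Simple D n f₁ ∧ Simple D n f₂ := by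
  by_cases h1 : D.deg f < n
  · exact Or.inl ⟨hf, Or.inl h1⟩
  have h2 : D.deg f = n := by omega
  have hnu : ¬ IsUnit f := by
    intro hu
    have := deg_unit (D := D) hu
    omega
  by_cases hirr : Irreducible f
  · exact Or.inl ⟨hf, Or.inr ⟨hirr.prime, h2⟩⟩
  right
  rw [irreducible_iff] at hirr
  push Not at hirr
  obtain ⟨a, b, hab, ha, hb⟩ := hirr hnu
  have ha0 : a ≠ 0 := by
    rintro rfl
    rw [zero_mul] at hab
    exact hf hab
  have hb0 : b ≠ 0 := by
    rintro rfl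
    rw [mul_zero] at hab
    exact hf hab
  have h3 := D.mul a b ha0 hb0
  rw [← hab, h2] at h3
  have h4 : D.deg a ≠ 0 := fun h => ha (D.unit a ha0 h)
  have h5 : D.deg b ≠ 0 := fun h => hb (D.unit b hb0 h)
  exact ⟨a, b, hab, ⟨ha0, Or.inl (by omega)⟩, ⟨hb0, Or.inl (by omega)⟩⟩

omit [IsDomain R] [IsPrincipalIdealRing R] in
private lemma ι_ne (hι : Function.Injective ι) {f : R} (hf : f ≠ 0) : ι f ≠ 0 := by
  intro h
  exact hf (hι (by rw [h, map_zero]))

omit [IsPrincipalIdealRing R] in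
private lemma good_simple (hι : Function.Injective ι) {n : ℕ} (hn : 1 ≤ n)
    (hex : ∀ p : R, Prime p → D.deg p = n → Hex D n p) {f g : R} (hf : Simple D n f)
    (hg : Simple D n g) : Good ι D n (S (ι f) (ι g)) := by
  obtain ⟨hf0, hf1⟩ := hf
  obtain ⟨hg0, hg1⟩ := hg
  rcases hf1 with hf1 | ⟨hfp, hf1⟩
  · rcases hg1 with hg1 | ⟨hgp, hg1⟩
    · exact Good.of_Ml (S_mem hf0 hg0 hf1 hg1)
    · rw [S_comm]
      refine Good.neg ⟨[g], ?_, mem_MT_of (List.mem_singleton.2 rfl) hf0 hf1⟩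
      intro p hp
      rw [List.mem_singleton.1 hp]
      exact ⟨hgp, hg1⟩
  · rcases hg1 with hg1 | ⟨hgp, hg1⟩
    · refine ⟨[f], ?_, mem_MT_of (List.mem_singleton.2 rfl) hg0 hg1⟩
      intro p hp
      rw [List.mem_singleton.1 hp]
      exact ⟨hfp, hf1⟩
    · obtain ⟨f₁, g₁, f₂, g₂, hf₁, hg₁, hf₂, hg₂, df₁, dg₁, df₂, dg₂, hmem⟩ :=
        two_primes (ι := ι) hι hgp hfp hg1 hf1 hn (hex g hgp hg1)
      refine ⟨[g, f], ?_, ?_⟩
      · intro p hp
        rcases List.mem_cons.1 hp with rfl | hp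
        · exact ⟨hgp, hg1⟩
        · rw [List.mem_singleton.1 hp]
          exact ⟨hfp, hf1⟩
      · have hg' : g ∈ [g, f] := List.mem_cons.2 (Or.inl rfl)
        have hf' : f ∈ [g, f] := List.mem_cons.2 (Or.inr (List.mem_singleton.2 rfl))
        have h1 := Ml_le_MT n [g, f] hmem
        have h2 := mem_MT_of (ι := ι) (D := D) hg' hf₁ df₁
        have h3 := mem_MT_of (ι := ι) (D := D) hg' hg₁ dg₁
        have h4 := mem_MT_of (ι := ι) (D := D) hf' hf₂ df₂
        have h5 := mem_MT_of (ι := ι) (D := D) hf' hg₂ dg₂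
        have h6 := add_mem (sub_mem h1 (sub_mem h2 h3)) (sub_mem h4 h5)
        have h7 : S (ι f) (ι g) = (S (ι f) (ι g) + (S (ι g) (ι f₁) - S (ι g) (ι g₁)) -
            (S (ι f) (ι f₂) - S (ι f) (ι g₂))) - (S (ι g) (ι f₁) - S (ι g) (ι g₁)) +
            (S (ι f) (ι f₂) - S (ι f) (ι g₂)) := by abel
        rw [h7]
        exact h6

private lemma good_symb (hι : Function.Injective ι) {n : ℕ} (hn : 1 ≤ n)
    (hex : ∀ p : R, Prime p → D.deg p = n → Hex D n p) {f g : R} (hf : f ≠ 0) (hg : g ≠ 0)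
    (hfn : D.deg f < n + 1) (hgn : D.deg g < n + 1) : Good ι D n (S (ι f) (ι g)) := by
  have key : ∀ g' : R, Simple D n g' → Good ι D n (S (ι f) (ι g')) := by
    intro g' hg'
    rcases decomp hn hf hfn with h | ⟨f₁, f₂, rfl, h₁, h₂⟩
    · exact good_simple hι hn hex h hg'
    · rw [map_mul, S_mul_left (ι_ne hι h₁.1) (ι_ne hι h₂.1)]
      exact (good_simple hι hn hex h₁ hg').add (good_simple hι hn hex h₂ hg')
  rcases decomp hn hg hgn with h | ⟨g₁, g₂, rfl, h₁, h₂⟩
  · exact key g h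
  · rw [map_mul, S_mul_right (ι_ne hι h₁.1) (ι_ne hι h₂.1)]
    exact (key _ h₁).add (key _ h₂)

theorem exists_MT (hι : Function.Injective ι) {n : ℕ} (hn : 1 ≤ n)
    (hex : ∀ p : R, Prime p → D.deg p = n → Hex D n p) {m : K2 K} (hm : m ∈ Ml ι D (n + 1)) :
    ∃ T : List R, (∀ p ∈ T, Prime p ∧ D.deg p = n) ∧ m ∈ MT ι D n T := by
  unfold Ml at hm
  induction hm using AddSubgroup.closure_induction with
  | mem x hx =>
    obtain ⟨f, g, hf, hg, hfn, hgn, rfl⟩ := hx
    exact good_symb hι hn hex hf hg hfn hgn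
  | zero => exact Good.of_Ml (zero_mem _)
  | add x y _ _ hx hy => exact Good.add hx hy
  | neg x _ hx => exact Good.neg hx

theorem MT_remove (hι : Function.Injective ι) {n : ℕ} (hn : 1 ≤ n)
    (hex : ∀ p : R, Prime p → D.deg p = n → Hex D n p) {p : R} (hp : Prime p) (hpn : D.deg p = n)
    {T : List R} (hT : ∀ t ∈ T, Prime t ∧ D.deg t = n) {m : K2 K} (hm : m ∈ MT ι D n (p :: T))
    {k : Type w} [Field k] (w : Val K k) (hw : PlaceAt ι p w) (hm0 : w.tame m = 0) :
    m ∈ MT ι D n T := by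
  have hone : (1 : R) ≠ 0 := one_ne_zero
  have done : D.deg (1 : R) < n := by
    rw [deg_one]
    omega
  by_cases hass : ∃ t ∈ T, Associated p t
  · obtain ⟨t, ht, hpt⟩ := hass
    refine (MT_le (Ml_le_MT n T) ?_ : MT ι D n (p :: T) ≤ MT ι D n T) hm
    intro p' hp' f hf hfn
    rcases List.mem_cons.1 hp' with rfl | hp'
    · obtain ⟨u, hu⟩ := hpt.symm
      have ht0 : t ≠ 0 := (hT t ht).1.ne_zero
      have hu0 : (u : R) ≠ 0 := u.ne_zero
      rw [← hu, map_mul, S_mul_left (ι_ne hι ht0) (ι_ne hι hu0)]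
      refine add_mem (mem_MT_of ht hf hfn) (Ml_le_MT n T (S_mem hu0 hf ?_ hfn))
      rw [deg_unit u.isUnit]
      omega
    · exact mem_MT_of hp' hf hfn
  push Not at hass
  -- the claim
  have claim : ∃ f g : R, f ≠ 0 ∧ g ≠ 0 ∧ D.deg f < n ∧ D.deg g < n ∧
      m - (S (ι p) (ι f) - S (ι p) (ι g)) ∈ MT ι D n T := by
    have hbase : ∀ x ∈ MT ι D n T, ∃ f g : R, f ≠ 0 ∧ g ≠ 0 ∧ D.deg f < n ∧ D.deg g < n ∧
        x - (S (ι p) (ι f) - S (ι p) (ι g)) ∈ MT ι D n T := by
      intro x hx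
      refine ⟨1, 1, hone, hone, done, done, ?_⟩
      rw [sub_self, sub_zero]
      exact hx
    have hadd : ∀ x y : K2 K, (∃ f g : R, f ≠ 0 ∧ g ≠ 0 ∧ D.deg f < n ∧ D.deg g < n ∧
        x - (S (ι p) (ι f) - S (ι p) (ι g)) ∈ MT ι D n T) →
        (∃ f g : R, f ≠ 0 ∧ g ≠ 0 ∧ D.deg f < n ∧ D.deg g < n ∧
        y - (S (ι p) (ι f) - S (ι p) (ι g)) ∈ MT ι D n T) →
        ∃ f g : R, f ≠ 0 ∧ g ≠ 0 ∧ D.deg f < n ∧ D.deg g < n ∧
        (x + y) - (S (ι p) (ι f) - S (ι p) (ι g)) ∈ MT ι D n T := by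
      rintro x y ⟨f, g, hf, hg, df, dg, h1⟩ ⟨f', g', hf', hg', df', dg', h2⟩
      obtain ⟨f'', g'', hf'', hg'', df'', dg'', h3⟩ :=
        psi_mul (ι := ι) hι hp hpn hn (hex p hp hpn) hf hg hf' hg' df dg df' dg'
      refine ⟨f'', g'', hf'', hg'', df'', dg'', ?_⟩
      have h4 := add_mem (add_mem h1 h2) (Ml_le_MT n T h3)
      have h5 : x + y - (S (ι p) (ι f'') - S (ι p) (ι g'')) =
          x - (S (ι p) (ι f) - S (ι p) (ι g)) + (y - (S (ι p) (ι f') - S (ι p) (ι g'))) +
          ((S (ι p) (ι f) - S (ι p) (ι g)) + (S (ι p) (ι f') - S (ι p) (ι g')) -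
            (S (ι p) (ι f'') - S (ι p) (ι g''))) := by abel
      rw [h5]
      exact h4
    unfold MT at hm
    obtain ⟨y, hy, z, hz, rfl⟩ := AddSubgroup.mem_sup.1 hm
    refine hadd y z (hbase y (Ml_le_MT n T hy)) ?_
    clear hm0 hm
    induction hz using AddSubgroup.closure_induction with
    | mem x hx =>
      obtain ⟨p', hp', f, hf, hfn, rfl⟩ := hx
      rcases List.mem_cons.1 hp' with rfl | hp'
      · refine ⟨f, 1, hf, hone, hfn, done, ?_⟩
        rw [map_one, S_one_right, sub_zero, sub_self]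
        exact zero_mem _
      · exact hbase _ (mem_MT_of hp' hf hfn)
    | zero => exact hbase 0 (zero_mem _)
    | add x y _ _ hx hy => exact hadd x y hx hy
    | neg x _ hx =>
      obtain ⟨f, g, hf, hg, df, dg, h1⟩ := hx
      refine ⟨g, f, hg, hf, dg, df, ?_⟩
      have h2 := neg_mem h1
      have h3 : -x - (S (ι p) (ι g) - S (ι p) (ι f)) = -(x - (S (ι p) (ι f) - S (ι p) (ι g))) := by
        abel
      rw [h3]
      exact h2
  obtain ⟨f, g, hf, hg, df, dg, h1⟩ := claim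
  have hv0 : ∀ r : R, r ≠ 0 → D.deg r < n → w.v (ι r) = 0 := fun r hr hrn =>
    hw.v0 r (not_dvd_of_deg_lt hpn hr hrn)
  have hker : MT ι D n T ≤ w.tame.ker := by
    refine MT_le ?_ ?_
    · unfold Ml
      rw [AddSubgroup.closure_le]
      rintro _ ⟨a, b, ha, hb, han, hbn, rfl⟩
      exact w.tame_S_units (hv0 a ha han) (hv0 b hb hbn)
    · intro t ht a ha han
      refine w.tame_S_units (hw.v0 t ?_) (hv0 a ha han)
      intro hdvd
      exact hass t ht (hp.associated_of_dvd (hT t ht).1 hdvd)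
  have h2 : w.tame (m - (S (ι p) (ι f) - S (ι p) (ι g))) = 0 := hker h1
  rw [map_sub, hm0, zero_sub, neg_eq_zero, map_sub,
    w.tame_S_left (ι_ne hι hp.ne_zero) (ι_ne hι hf) (hv0 f hf df),
    w.tame_S_left (ι_ne hι hp.ne_zero) (ι_ne hι hg) (hv0 g hg dg), hw.vp, one_zsmul, one_zsmul,
    sub_eq_zero, w.A_eq_iff (ι_ne hι hf) (ι_ne hι hg)] at h2
  have h3 := hw.inj f g (not_dvd_of_deg_lt hpn hf df) (not_dvd_of_deg_lt hpn hg dg) h2
  have h4 := psi_congr (ι := ι) hι hp hpn hn hf hg hone hone df dg done done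
    (by rw [mul_one, one_mul]; exact h3)
  rw [sub_self, sub_zero] at h4
  have h5 := add_mem h1 (Ml_le_MT n T h4)
  rwa [sub_add_cancel] at h5

theorem filt_step (hι : Function.Injective ι) {n : ℕ} (hn : 1 ≤ n)
    (hex : ∀ p : R, Prime p → D.deg p = n → Hex D n p) {m : K2 K} (hm : m ∈ Ml ι D (n + 1))
    (k : Type w) [Field k]
    (hres : ∀ p : R, Prime p → D.deg p = n → ∃ w : Val K k, PlaceAt ι p w ∧ w.tame m = 0) :
    m ∈ Ml ι D n := by
  obtain ⟨T, hT, hmT⟩ := exists_MT hι hn hex hm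
  have key : ∀ T : List R, (∀ p ∈ T, Prime p ∧ D.deg p = n) → m ∈ MT ι D n T →
      m ∈ MT ι D n [] := by
    intro T
    induction T with
    | nil => exact fun _ h => h
    | cons p T ih =>
      intro hT hmT
      have hp := hT p (List.mem_cons.2 (Or.inl rfl))
      have hT' : ∀ q ∈ T, Prime q ∧ D.deg q = n := fun q hq => hT q (List.mem_cons.2 (Or.inr hq))
      obtain ⟨w, hw, hm0⟩ := hres p hp.1 hp.2
      exact ih hT' (MT_remove hι hn hex hp.1 hp.2 hT' hmT w hw hm0)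
  have h1 := key T hT hmT
  rwa [MT_nil] at h1

/-- If `m` has no residues at the primes of degree `≥ n₀ ≥ 1`, then it lies in `Ml n₀`. -/
theorem filt_main (hι : Function.Injective ι) (hfrac : ∀ x : K, ∃ f g : R, g ≠ 0 ∧ x = ι f / ι g)
    {n₀ : ℕ} (hn : 1 ≤ n₀)
    (hex : ∀ n, n₀ ≤ n → ∀ p : R, Prime p → D.deg p = n → Hex D n p) (m : K2 K)
    (k : Type w) [Field k]
    (hres : ∀ p : R, Prime p → n₀ ≤ D.deg p → ∃ w : Val K k, PlaceAt ι p w ∧ w.tame m = 0) :
    m ∈ Ml ι D n₀ := by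
  have h1 : ∃ N, m ∈ Ml ι D N := by
    clear hres
    induction m using K2_induction with
    | hS a b ha hb =>
      obtain ⟨f, g, hg, rfl⟩ := hfrac a
      obtain ⟨f', g', hg', rfl⟩ := hfrac b
      have hf : f ≠ 0 := by
        rintro rfl
        rw [map_zero, zero_div] at ha
        exact ha rfl
      have hf' : f' ≠ 0 := by
        rintro rfl
        rw [map_zero, zero_div] at hb
        exact hb rfl
      refine ⟨D.deg f + D.deg g + D.deg f' + D.deg g' + 1, ?_⟩
      rw [S_div_left (ι_ne hι hf) (ι_ne hι hg), S_div_right (ι_ne hι hf') (ι_ne hι hg'),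
        S_div_right (ι_ne hι hf') (ι_ne hι hg')]
      exact sub_mem (sub_mem (S_mem hf hf' (by omega) (by omega))
        (S_mem hf hg' (by omega) (by omega)))
        (sub_mem (S_mem hg hf' (by omega) (by omega)) (S_mem hg hg' (by omega) (by omega)))
    | hz => exact ⟨0, zero_mem _⟩
    | hadd x y hx hy =>
      obtain ⟨N, hN⟩ := hx
      obtain ⟨N', hN'⟩ := hy
      exact ⟨max N N', add_mem (Ml_mono (le_max_left _ _) hN) (Ml_mono (le_max_right _ _) hN')⟩
  obtain ⟨N, hN⟩ := h1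
  have key : ∀ j : ℕ, m ∈ Ml ι D (n₀ + j) → m ∈ Ml ι D n₀ := by
    intro j
    induction j with
    | zero => exact fun h => h
    | succ j ih =>
      intro h
      refine ih (filt_step hι (by omega) (hex (n₀ + j) (by omega)) h k ?_)
      intro p hp hpn
      exact hres p hp (by omega)
  exact key N (Ml_mono (by omega) hN)

end Pool.Agent.MK
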