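import Pool.Agent.MK.TLem

/-! # The conic: elements of K2 with a single residue of norm 1

PROOFS.  `tame_∞ = (vInf L).tame`, `tame_c = (vPt c).tame`.
* `comm_sum`: `W = T(y,z) + T(y z, y⁻¹) + T(y z y⁻¹, z⁻¹)`; by `T_pt`, `T_inf`, `lam_inv`, `lamInf_inv` its residues
  are `-lam c d`, `-lamInf d`, `d = y z y⁻¹ z⁻¹`.  (`y z` and `y⁻¹` do not commute iff `y, z` do not.)
* `kill_pt`: `d` with `nrd d = 1`, `d ≠ 1, -1`.  Put `t = 1 + d`.  As `conj d = d⁻¹`: `conj t = 1 + d⁻¹`, and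
  `t (conj t)⁻¹ = (1+d) (1+d⁻¹)⁻¹ = d` (`t ≠ 0`).  `d` is not a scalar (a scalar of norm 1 is `±1`), so there is `w` with
  `w d ≠ d w` (if `d.q ≠ 0`: `w = i`; if `d.q = 0`: `w = j`), and `y = w d - d w ≠ 0` satisfies
  `y d = conj d * y` (expand; for `d² = trd(d) d - 1`: `y d = w d² - d w d`, `conj d = trd d - d`,
  `conj d * y = (T - d)(w d - d w) = T w d - T d w - d w d + d² w`, and `d² = T d - 1` on both sides), so
  `y t y⁻¹ = conj t` and `t y t⁻¹ y⁻¹ = t (y t⁻¹ y⁻¹) = t (conj t)⁻¹ = d`.  `t, y` do not commute (`d ≠ 1`).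
  `t y t⁻¹` and `y⁻¹` do not commute: `t y t⁻¹ = d y`; `d y · y⁻¹ = d` and `y⁻¹ · d y = conj d`
  (`y⁻¹ d y = conj d` as well, since `y d = conj d y` implies `y conj d = d y`), and `d ≠ conj d` as `d ∉ F`.
  Apply `comm_sum` with `(y, z) := (t, y)` and `m = -W`.
-/

set_option autoImplicit false
set_option linter.unusedSectionVars false

namespace Pool.Agent.MK

universe u v w

open scoped Polynomial

namespace CQ

variable {F L : Type u} [Field F] [Field L] [Algebra F L] (C : CQ F L)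

theorem comm_sum {y z : Qt C} (hy : y ≠ 0) (hz : z ≠ 0) (h1 : y * z ≠ z * y)
    (h2 : y * z * y⁻¹ * z⁻¹ ≠ z⁻¹ * (y * z * y⁻¹)) :
    ∃ m : K2 C.K, (∀ c : AlgebraicClosure L, c ≠ 0 →
        (vPt c).tame (K2.map C.iK m) = C.lam c (y * z * y⁻¹ * z⁻¹)) ∧
      (vInf L).tame (K2.map C.iK m) = C.lamInf (y * z * y⁻¹ * z⁻¹) := by
  have h3 : y * z * y⁻¹ ≠ y⁻¹ * (y * z) := by
    intro h
    apply h1
    rw [inv_mul_cancel_left₀ hy, mul_inv_eq_iff_eq_mul₀ hy] at h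
    exact h
  refine ⟨-(C.T y z + C.T (y * z) y⁻¹ + C.T (y * z * y⁻¹) z⁻¹), ?_, ?_⟩
  · intro c hc
    rw [map_neg, map_add, map_add, map_neg, map_add, map_add, C.T_pt h1 hc, C.T_pt h3 hc,
      C.T_pt h2 hc, C.lam_inv hc, C.lam_inv hc]
    abel
  · rw [map_neg, map_add, map_add, map_neg, map_add, map_add, C.T_inf h1, C.T_inf h3,
      C.T_inf h2, C.lamInf_inv, C.lamInf_inv]
    abel

theorem exists_conj (d : Qt C) : ∃ y : Qt C, y ≠ 0 ∧ y * d = Qt.conj d * y := by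
  by_cases hq : d.q = 0
  · refine ⟨⟨0, 1⟩, fun h => one_ne_zero (α := L) (congrArg Qt.q h), ?_⟩
    ext
    · simp [hq]
    · simp [hq]
  · refine ⟨⟨0, C.α * d.q⟩, fun h => mul_ne_zero C.α_ne hq (congrArg Qt.q h), ?_⟩
    ext
    · simp only [Qt.mul_p, Qt.conj_p, Qt.conj_q, map_mul, C.s_α]
      ring
    · simp only [Qt.mul_q, Qt.conj_p, Qt.conj_q, map_zero]
      ring

theorem sc_one : (Qt.sc 1 : Qt C) = 1 := by
  ext <;> simp

theorem eq_of_conj {d : Qt C} (hd : d.nrd = 1) (h : d = Qt.conj d) : d = 1 ∨ d = -1 := by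
  have hq : d.q = 0 := by
    have h1 := congrArg Qt.q h
    rw [Qt.conj_q] at h1
    have h2 : (2 : L) * d.q = 0 := by linear_combination h1
    exact (mul_eq_zero.mp h2).resolve_left C.twoL
  have hp : C.s d.p = d.p := (congrArg Qt.p h).symm
  have h1 := d.nrd_alg
  rw [hd, map_one, hq, hp, zero_mul, mul_zero, sub_zero] at h1
  rcases mul_self_eq_one_iff.mp h1.symm with h2 | h2
  · left
    ext
    · rw [h2, Qt.one_p]
    · rw [hq, Qt.one_q]
  · right
    ext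
    · rw [h2, Qt.neg_p, Qt.one_p]
    · rw [hq, Qt.neg_q, Qt.one_q, neg_zero]

theorem kill_pt {d : Qt C} (hd : d.nrd = 1) (h1 : d ≠ 1) (h2 : d ≠ -1) :
    ∃ m : K2 C.K, (∀ c : AlgebraicClosure L, c ≠ 0 →
        (vPt c).tame (K2.map C.iK m) = C.lam c d) ∧
      (vInf L).tame (K2.map C.iK m) = C.lamInf d := by
  obtain ⟨y, hy, hyd⟩ := C.exists_conj d
  have ht : 1 + d ≠ 0 := by
    intro h
    apply h2
    exact (neg_eq_of_add_eq_zero_right h).symm
  have hdd : d * Qt.conj d = 1 := by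
    rw [Qt.mul_conj, hd, C.sc_one]
  have hyt : y * (1 + d) = (1 + Qt.conj d) * y := by
    rw [mul_add, add_mul, hyd, mul_one, one_mul]
  have hct : 1 + Qt.conj d ≠ 0 := by
    intro h
    rw [h, zero_mul] at hyt
    exact mul_ne_zero hy ht hyt
  have hdt : d * (1 + Qt.conj d) = 1 + d := by
    rw [mul_add, hdd, mul_one, add_comm]
  have key : (1 + d) * y * (1 + d)⁻¹ * y⁻¹ = d := by
    rw [mul_inv_eq_iff_eq_mul₀ hy, mul_inv_eq_iff_eq_mul₀ ht]
    rw [mul_assoc d y, hyt, ← mul_assoc d, hdt]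
  have h3 : (1 + d) * y ≠ y * (1 + d) := by
    intro h
    apply h1
    rw [← key, h, mul_inv_cancel_right₀ ht, mul_inv_cancel₀ hy]
  have h4 : (1 + d) * y * (1 + d)⁻¹ * y⁻¹ ≠ y⁻¹ * ((1 + d) * y * (1 + d)⁻¹) := by
    have h5 : (1 + d) * y * (1 + d)⁻¹ = d * y := by
      rw [← mul_inv_eq_iff_eq_mul₀ hy]
      exact key
    rw [h5, mul_inv_cancel_right₀ hy]
    intro h
    have h6 : y * d = d * y := by
      rw [eq_inv_mul_iff_mul_eq₀ hy] at h
      exact h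
    rw [hyd] at h6
    have h7 : d = Qt.conj d := (mul_right_cancel₀ hy h6).symm
    rcases C.eq_of_conj hd h7 with h8 | h8
    · exact h1 h8
    · exact h2 h8
  have := C.comm_sum ht hy h3 h4
  rw [key] at this
  exact this

end CQ

end Pool.Agent.MK
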