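import Pool.Agent.MK.X3L
import Pool.Agent.MK.Kill
import Pool.Agent.MK.EPr

/-! # The conic: reciprocity and the last residues

PROOFS.  `tame_∞ = (vInf L).tame`, `tame_c = (vPt c).tame`.
* `tame_inf_val`: the tame symbol at `∞` is `A (C d)` for some `d ∈ Lˣ` (`d` = its value; `vInf_C`, `A_eq`).
* `fin_inf`: `v` invariant, no residues at `c ≠ 0`; `tame_∞ v = A (C d)`.  By `Inv_inf` and `tame_zero_val`
  `tame_0 v = A (C (s d))`.  `m = v - {z, C (s d)}` has no residues at all finite points (`vPt_X`, `vPt_X_zero`), so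
  it is constant (`unram_const`) and `0 = tame_∞ m = A (C d) + A (C (s d))`, i.e. `d s(d) = 1`.
  If `d = 1`: nothing to do.  If `d = -1`: `kill_neg_one`.  Otherwise `kill_pt` for `ofL d` (`nrd = 1`):
  `lam c (ofL d) = 0` (`l (ofL d)` is a constant), `lamInf (ofL d) = A (C d)`.
* `recip`: `d.q ≠ 0`, `v` invariant with `tame_c v = lam c d` for all `c ≠ 0` and `tame_∞ v = 0` (so `tame_0 v = 0` by
  `tame_zero_iff`, `Inv_inf`).  Put `D = lP d`, `R = rho d` (a polynomial `C (s p) - C (s q) X`), `κ = nrd d / s(q)` and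
  `m = v - {D, R} - {R, C κ}` in `K₂(L(z))`.  At `c ≠ 0` over `l d`: `v_c(D) = 1` (`lP_eq`, `v_l_pos`), `R` is a unit
  (`res_rho`): the residue of `m` is `A R - A R - 0 = 0`.  The root of `R` is `c₁ = s(p)/s(q) ∈ L`, `v_{c₁}(R) = 1`,
  `D(c₁) = nrd d / s q = κ ≠ 0` (so `c₁` is not over `l d`, and `tame v = 0` there, also if `c₁ = 0`):
  residue `0 + A D(c₁) - A κ = 0`.  At all other `c` (also `c = 0`: `D(0) = -b q ≠ 0`) everything is a unit.  So `m` is
  constant, `0 = tame_∞ m`: `v_∞(D) = -2`, `ac D = s q`, `v_∞ R = -1`, `ac R = -s q`: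
  `tame_∞ {D,R} = 2 m1 - 2 A(-s q) + A (s q) = -A (s q)`, `tame_∞ {R, κ} = -A κ`; so `A (s q) + A κ = 0`,
  `s q * κ = nrd d = 1`.
* `fin_pt`: `v` invariant, `Sup v [t]`, `t.q ≠ 0`.  Let `e = x₀ + x₁ t` be the residue at `t` (`hrQ`), `e_∞` the one at `∞`
  (`tame_∞ v = A (C e_∞)`).
  `x₁ = 0`: subtract `{lK t, x₀}`; then `Sup _ []`, and `fin_inf`.
  `x₁ ≠ 0` and `e_∞ = k ∈ F`: `m = -{lK t, k}`: `tame_∞ {l t, k} = -A k`, so `tame_∞ (v - m) = A k - A k = 0`, and over
  `t` the residue of `v - m` is `rho e * k = rho (k e)`; so `d = k e`.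
  `x₁ ≠ 0`, `e_∞ ∉ F`: `m = T (e, ofL e_∞)` (they do not commute as `e.q ≠ 0`, `s e_∞ ≠ e_∞`), `d = e * ofL e_∞`,
  `d.q = e.q s(e_∞) ≠ 0`; `tame_c (v - m) = lam c e - (lam c e + 0 - lam c d) = lam c d`,
  `tame_∞ (v - m) = A e_∞ - (0 + A e_∞ - 0) = 0`.
  In both cases `nrd d = 1` by `recip`, `d ≠ ±1` (as `d.q ≠ 0`), and `kill_pt` removes it.
-/

set_option autoImplicit false
set_option linter.unusedSectionVars false

namespace Pool.Agent.MK

universe u v w

open scoped Polynomial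

private theorem fin_tame_C {L : Type u} [Field L] {k : Type w} [Field k] (w : Val (RatFunc L) k)
    (hw : ∀ d : L, w.v (RatFunc.C d) = 0) (u : K2 L) :
    w.tame (K2.map (RatFunc.C : L →+* RatFunc L) u) = 0 := by
  induction u using K2_induction with
  | hS a b ha hb =>
    rw [K2.map_S]
    exact w.tame_S_units (hw a) (hw b)
  | hz => rw [map_zero, map_zero]
  | hadd x y hx hy => rw [map_add, map_add, hx, hy, add_zero]

private theorem fin_C_ne {L : Type u} [Field L] {d : L} (hd : d ≠ 0) :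
    (RatFunc.C d : RatFunc L) ≠ 0 := (map_ne_zero _).mpr hd

/-- The tame symbol at infinity is given by a constant. -/
private theorem fin_inf_val {L : Type u} [Field L] (v : K2 (RatFunc L)) :
    ∃ d : L, d ≠ 0 ∧ (vInf L).tame v = (vInf L).A (RatFunc.C d) := by
  refine ⟨(((vInf L).tame v).toMul : Lˣ), Units.ne_zero _, ?_⟩
  apply Additive.toMul.injective
  rw [Units.ext_iff, Val.A_val _ (fin_C_ne (Units.ne_zero _)), (vInf_C _).2]

private theorem fin_A_mul {L : Type u} [Field L] {d e : L} (hd : d ≠ 0) (he : e ≠ 0) :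
    (vInf L).A (RatFunc.C (d * e)) = (vInf L).A (RatFunc.C d) + (vInf L).A (RatFunc.C e) := by
  rw [map_mul, Val.A_mul _ (fin_C_ne hd) (fin_C_ne he)]

private theorem fin_A_eq_zero {L : Type u} [Field L] {d : L} (hd : d ≠ 0)
    (h : (vInf L).A (RatFunc.C d) = 0) : d = 1 := by
  have h1 := (vInf L).A_val (fin_C_ne hd)
  rw [h, (vInf_C d).2, toMul_zero, Units.val_one] at h1
  exact h1.symm

namespace CQ

variable {F L : Type u} [Field F] [Field L] [Algebra F L] (C : CQ F L)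

private theorem fin_lam_ofL (c : AlgebraicClosure L) (x : L) :
    C.lam c (Qt.ofL x) = 0 := by
  rw [lam, if_neg]
  rw [C.l_ofL]
  show ¬ 0 < (vPt c).v (RatFunc.C (algebraMap F L (C.im x)))
  rw [(vPt_C _ _).1]
  exact lt_irrefl _

private theorem fin_l_ne {d : Qt C} (hd : d.q ≠ 0) : C.l d ≠ 0 := by
  intro h
  obtain ⟨c, rfl⟩ := C.l_eq_zero.1 h
  exact hd rfl

private theorem fin_rho (d : Qt C) : C.rho d = algebraMap L[X] (RatFunc L)
    (Polynomial.C (-(C.s d.q)) * Polynomial.X + Polynomial.C (C.s d.p)) := by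
  rw [rho, map_add, map_mul, RatFunc.algebraMap_C, RatFunc.algebraMap_C, RatFunc.algebraMap_X,
    map_neg]
  ring

private theorem fin_rho_poly_ne {d : Qt C} (hd : d.q ≠ 0) :
    (Polynomial.C (-(C.s d.q)) * Polynomial.X + Polynomial.C (C.s d.p) : L[X]) ≠ 0 := by
  intro h
  have h1 := Polynomial.natDegree_linear (b := C.s d.p)
    (neg_ne_zero.mpr ((map_ne_zero C.s).mpr hd))
  rw [h, Polynomial.natDegree_zero] at h1
  exact zero_ne_one h1

private theorem fin_rho_ne {d : Qt C} (hd : d.q ≠ 0) : C.rho d ≠ 0 := by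
  rw [C.fin_rho]
  exact alg_ne (C.fin_rho_poly_ne hd)

theorem fin_inf {v : K2 (RatFunc L)} (hv : C.Inv v) (hS : C.Sup v []) :
    ∃ m : K2 C.K, C.Sup (v - K2.map C.iK m) [] ∧ (vInf L).tame (v - K2.map C.iK m) = 0 := by
  have hS0 : ∀ c : AlgebraicClosure L, c ≠ 0 → (vPt c).tame v = 0 := fun c hc =>
    hS c hc fun t ht => absurd ht List.not_mem_nil
  obtain ⟨d, hd, hvd⟩ := fin_inf_val v
  have hsd : C.s d ≠ 0 := (map_ne_zero C.s).mpr hd
  have h0 := C.tame_zero_val v d hd ((C.Inv_inf hv).trans hvd)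
  have hX : (RatFunc.X : RatFunc L) ≠ 0 := RatFunc.X_ne_zero
  -- no finite residues
  have hm : ∀ c : AlgebraicClosure L,
      (vPt c).tame (v - S RatFunc.X (RatFunc.C (C.s d))) = 0 := by
    intro c
    rw [map_sub]
    by_cases hc : c = 0
    · subst hc
      rw [h0, Val.tame_S_left _ hX (fin_C_ne hsd) (vPt_C _ _).1, vPt_X_zero.1, one_zsmul, sub_self]
    · rw [hS0 c hc, Val.tame_S_units _ (vPt_X hc).1 (vPt_C _ _).1, sub_self]
  obtain ⟨κ, hκ⟩ := unram_const _ hm
  have h1 : (vInf L).tame (v - S RatFunc.X (RatFunc.C (C.s d))) = 0 := by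
    rw [← hκ]
    exact fin_tame_C _ (fun e => (vInf_C e).1) κ
  rw [map_sub, hvd, Val.tame_S_left _ hX (fin_C_ne hsd) (vInf_C _).1, vInf_X.1, neg_one_zsmul,
    sub_neg_eq_add, ← fin_A_mul hd hsd] at h1
  have hdd : d * C.s d = 1 := fin_A_eq_zero (mul_ne_zero hd hsd) h1
  by_cases hd1 : d = 1
  · refine ⟨0, ?_, ?_⟩
    · rw [map_zero, sub_zero]
      exact hS
    · rw [map_zero, sub_zero, hvd, hd1, map_one, Val.A_one]
  by_cases hd2 : d = -1
  · obtain ⟨m, hm1, hm2, -⟩ := C.kill_neg_one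
    refine ⟨m, ?_, ?_⟩
    · intro c hc _
      rw [map_sub, hS0 c hc, hm1 c hc, sub_zero]
    · rw [map_sub, hvd, hm2, hd2, map_neg, map_one, sub_self]
  · have hn : (Qt.ofL d : Qt C).nrd = 1 := by
      apply C.algInj
      rw [Qt.nrd_alg, Qt.ofL_p, Qt.ofL_q, zero_mul, mul_zero, sub_zero, hdd, map_one]
    obtain ⟨m, hm1, hm2⟩ := C.kill_pt hn
      (fun h => hd1 (congrArg Qt.p h)) (fun h => hd2 (congrArg Qt.p h))
    refine ⟨m, ?_, ?_⟩
    · intro c hc _
      rw [map_sub, hS0 c hc, hm1 c hc, C.fin_lam_ofL, sub_zero]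
    · rw [map_sub, hvd, hm2, lamInf, if_pos (Qt.ofL_q d), Qt.ofL_p, sub_self]

theorem recip {v : K2 (RatFunc L)} (hv : C.Inv v) {d : Qt C} (hd : d.q ≠ 0)
    (h : ∀ c : AlgebraicClosure L, c ≠ 0 → (vPt c).tame v = C.lam c d)
    (h' : (vInf L).tame v = 0) : d.nrd = 1 := by
  have hsq : C.s d.q ≠ 0 := (map_ne_zero C.s).mpr hd
  have hd0 : d ≠ 0 := fun h0 => hd (by rw [h0]; rfl)
  have hn0 : algebraMap F L d.nrd ≠ 0 := (map_ne_zero _).mpr (Qt.nrd_ne hd0)
  have hX : (RatFunc.X : RatFunc L) ≠ 0 := RatFunc.X_ne_zero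
  have hl0 := C.fin_l_ne hd
  -- the polynomials
  obtain ⟨D, hD⟩ : ∃ D : L[X], D = C.lP d := ⟨_, rfl⟩
  obtain ⟨R, hR⟩ : ∃ R : L[X], R = Polynomial.C (-(C.s d.q)) * Polynomial.X +
    Polynomial.C (C.s d.p) := ⟨_, rfl⟩
  obtain ⟨κ, hκ⟩ : ∃ κ : L, κ = algebraMap F L d.nrd / C.s d.q := ⟨_, rfl⟩
  have hκ0 : κ ≠ 0 := by
    rw [hκ]
    exact div_ne_zero hn0 hsq
  have hRrho : algebraMap L[X] (RatFunc L) R = C.rho d := by rw [C.fin_rho, hR]
  have hD2 : D = Polynomial.C (C.s d.q) * Polynomial.X ^ 2 +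
      Polynomial.C (d.p - C.s d.p) * Polynomial.X + Polynomial.C (-(C.bL * d.q)) := by
    rw [hD, lP, Polynomial.C_neg]
    ring
  have hDdeg : D.natDegree = 2 := by
    rw [hD2]
    exact Polynomial.natDegree_quadratic hsq
  have hDlc : D.leadingCoeff = C.s d.q := by
    rw [hD2]
    exact Polynomial.leadingCoeff_quadratic hsq
  have hRdeg : R.natDegree = 1 := by
    rw [hR]
    exact Polynomial.natDegree_linear (neg_ne_zero.mpr hsq)
  have hRlc : R.leadingCoeff = -(C.s d.q) := by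
    rw [hR]
    exact Polynomial.leadingCoeff_linear (neg_ne_zero.mpr hsq)
  have hD0 : D ≠ 0 := by
    intro h0
    rw [h0, Polynomial.natDegree_zero] at hDdeg
    omega
  have hR0 : R ≠ 0 := by
    intro h0
    rw [h0, Polynomial.natDegree_zero] at hRdeg
    omega
  have hDn : algebraMap L[X] (RatFunc L) D ≠ 0 := alg_ne hD0
  have hRn : algebraMap L[X] (RatFunc L) R ≠ 0 := alg_ne hR0
  have hCκ : (RatFunc.C κ : RatFunc L) ≠ 0 := fin_C_ne hκ0
  -- the value of `D` at the root of `R`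
  have hval : ∀ c : AlgebraicClosure L, Polynomial.aeval c R = 0 →
      Polynomial.aeval c D = algebraMap L (AlgebraicClosure L) κ := by
    intro c hc
    have hQ : algebraMap L (AlgebraicClosure L) (C.s d.q) ≠ 0 := (map_ne_zero _).mpr hsq
    have e2 : algebraMap L (AlgebraicClosure L) (C.s d.q) *
        algebraMap L (AlgebraicClosure L) κ =
        algebraMap L (AlgebraicClosure L) d.p * algebraMap L (AlgebraicClosure L) (C.s d.p) -
        algebraMap L (AlgebraicClosure L) C.bL * (algebraMap L (AlgebraicClosure L) d.q *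
          algebraMap L (AlgebraicClosure L) (C.s d.q)) := by
      rw [← map_mul, ← map_mul, ← map_mul, ← map_mul, ← map_sub, ← Qt.nrd_alg, hκ,
        mul_div_cancel₀ _ hsq]
    rw [hR, map_add, map_mul, Polynomial.aeval_C, Polynomial.aeval_C, Polynomial.aeval_X,
      map_neg] at hc
    rw [hD2, map_add, map_add, map_mul, map_mul, map_pow, Polynomial.aeval_C,
      Polynomial.aeval_C, Polynomial.aeval_C, Polynomial.aeval_X, map_neg, map_sub, map_mul]
    apply mul_left_cancel₀ hQ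
    linear_combination (-(algebraMap L (AlgebraicClosure L) (C.s d.q) * c +
      algebraMap L (AlgebraicClosure L) d.p)) * hc - e2
  -- the residues of `m`
  have hunit : ∀ c : AlgebraicClosure L,
      (vPt c).v (algebraMap L[X] (RatFunc L) D) = 0 → (vPt c).tame v = 0 →
      (vPt c).tame (v - S (algebraMap L[X] (RatFunc L) D) (algebraMap L[X] (RatFunc L) R) -
        S (algebraMap L[X] (RatFunc L) R) (RatFunc.C κ)) = 0 := by
    intro c hvD hvc
    rw [map_sub, map_sub, hvc, Val.tame_S_right _ hDn hRn hvD,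
      Val.tame_S_left _ hRn hCκ (vPt_C _ _).1]
    by_cases hr : Polynomial.aeval c R = 0
    · have h1 := hval c hr
      have h2 : Polynomial.aeval c D ≠ 0 := by
        rw [h1]
        exact (map_ne_zero _).mpr hκ0
      have h3 : (vPt c).A (algebraMap L[X] (RatFunc L) D) = (vPt c).A (RatFunc.C κ) := by
        rw [Val.A_eq_iff _ hDn hCκ, (vPt_v_eq_zero c h2).2, h1, (vPt_C _ _).2]
      rw [h3]
      abel
    · rw [(vPt_v_eq_zero c hr).1]
      simp
  have hm : ∀ c : AlgebraicClosure L,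
      (vPt c).tame (v - S (algebraMap L[X] (RatFunc L) D) (algebraMap L[X] (RatFunc L) R) -
        S (algebraMap L[X] (RatFunc L) R) (RatFunc.C κ)) = 0 := by
    intro c
    by_cases hc : c = 0
    · subst hc
      apply hunit
      · have h1 : Polynomial.aeval (0 : AlgebraicClosure L) D ≠ 0 := by
          rw [hD2, map_add, map_add, map_mul, map_mul, map_pow, Polynomial.aeval_C,
            Polynomial.aeval_C, Polynomial.aeval_C, Polynomial.aeval_X, mul_zero, zero_pow two_ne_zero,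
            mul_zero, zero_add, zero_add]
          exact (map_ne_zero _).mpr (neg_ne_zero.mpr (mul_ne_zero C.bL_ne hd))
        exact (vPt_v_eq_zero _ h1).1
      · rw [C.tame_zero_iff, C.Inv_inf hv]
        exact h'
    · have hDl : (vPt c).v (algebraMap L[X] (RatFunc L) D) = (vPt c).v (C.l d) := by
        rw [hD, C.lP_eq, (vPt c).v_mul _ _ (mul_ne_zero C.C2α_ne hX) hl0,
          (vPt c).v_mul _ _ C.C2α_ne hX, (vPt_C _ _).1, (vPt_X hc).1, zero_add, zero_add]
      by_cases hp : 0 < (vPt c).v (C.l d)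
      · have h1 := (C.v_l_pos hc hp).2
        have h2 : (vPt c).v (algebraMap L[X] (RatFunc L) R) = 0 := by
          rw [hRrho]
          exact (C.res_rho hc hp).2
        rw [map_sub, map_sub, h c hc, lam, if_pos hp, ← hRrho, Val.tame_S_left _ hDn hRn h2, hDl,
          h1, Val.tame_S_units _ h2 (vPt_C _ _).1, one_zsmul, sub_self, sub_zero]
      · apply hunit
        · rw [hDl]
          have := laur_nonneg (C.l_mem d).2 hc
          omega
        · rw [h c hc, lam, if_neg hp]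
  -- the residue at infinity
  obtain ⟨u, hu⟩ := unram_const _ hm
  have h1 : (vInf L).tame (v - S (algebraMap L[X] (RatFunc L) D)
      (algebraMap L[X] (RatFunc L) R) - S (algebraMap L[X] (RatFunc L) R) (RatFunc.C κ)) = 0 := by
    rw [← hu]
    exact fin_tame_C _ (fun e => (vInf_C e).1) u
  obtain ⟨e1, e2⟩ := vInf_poly L hD0
  obtain ⟨e3, e4⟩ := vInf_poly L hR0
  rw [hDdeg] at e1
  rw [hDlc] at e2
  rw [hRdeg] at e3
  rw [hRlc] at e4
  have e1' : (vInf L).v (algebraMap L[X] (RatFunc L) D) = -2 := e1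
  have e3' : (vInf L).v (algebraMap L[X] (RatFunc L) R) = -1 := e3
  have hCq : (RatFunc.C (C.s d.q) : RatFunc L) ≠ 0 := fin_C_ne hsq
  have a1 : (vInf L).A (algebraMap L[X] (RatFunc L) D) = (vInf L).A (RatFunc.C (C.s d.q)) := by
    rw [Val.A_eq_iff _ hDn hCq, e2, (vInf_C _).2]
  have a2 : (vInf L).A (algebraMap L[X] (RatFunc L) R) =
      Val.m1 L + (vInf L).A (RatFunc.C (C.s d.q)) := by
    rw [← (vInf L).A_neg_one, ← (vInf L).A_mul (neg_ne_zero.mpr one_ne_zero) hCq,
      Val.A_eq_iff _ hRn (mul_ne_zero (neg_ne_zero.mpr one_ne_zero) hCq), e4, Val.ac_mul',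
      (vInf L).ac_neg_one, (vInf_C _).2, neg_one_mul]
  rw [map_sub, map_sub, h', Val.tame_S _ hDn hRn, Val.tame_S_left _ hRn hCκ (vInf_C _).1, e1',
    e3', a1, a2] at h1
  have h2 : (vInf L).A (RatFunc.C (C.s d.q * κ)) = 0 := by
    rw [fin_A_mul hsq hκ0, ← h1]
    module
  have h3 : C.s d.q * κ = 1 := fin_A_eq_zero (mul_ne_zero hsq hκ0) h2
  rw [hκ, mul_div_cancel₀ _ hsq] at h3
  apply C.algInj
  rw [h3, map_one]

/-- The last step: an element with a single residue. -/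
private theorem fin_last {v : K2 (RatFunc L)} (hv : C.Inv v) (m : K2 C.K) {d : Qt C}
    (hd : d.q ≠ 0)
    (h : ∀ c : AlgebraicClosure L, c ≠ 0 → (vPt c).tame (v - K2.map C.iK m) = C.lam c d)
    (h' : (vInf L).tame (v - K2.map C.iK m) = 0) :
    ∃ m : K2 C.K, C.Sup (v - K2.map C.iK m) [] ∧ (vInf L).tame (v - K2.map C.iK m) = 0 := by
  have hn := C.recip (Inv.sub_map C hv m) hd h h'
  obtain ⟨m', h1, h2⟩ := C.kill_pt hn
    (fun h0 => hd (by rw [h0, Qt.one_q])) (fun h0 => hd (by rw [h0, Qt.neg_q, Qt.one_q, neg_zero]))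
  refine ⟨m + m', ?_, ?_⟩
  · intro c hc _
    rw [map_add, ← sub_sub, map_sub, h c hc, h1 c hc, sub_self]
  · rw [map_add, ← sub_sub, map_sub, h', h2, lamInf, if_neg hd, sub_zero]

theorem fin_pt {v : K2 (RatFunc L)} (hv : C.Inv v) {t : Qt C} (ht : t.q ≠ 0)
    (hS : C.Sup v [t]) :
    ∃ m : K2 C.K, C.Sup (v - K2.map C.iK m) [] ∧ (vInf L).tame (v - K2.map C.iK m) = 0 := by
  have hlt : C.l t ≠ 0 := C.fin_l_ne ht
  have hS0 : ∀ c : AlgebraicClosure L, c ≠ 0 → ¬ 0 < (vPt c).v (C.l t) →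
      (vPt c).tame v = 0 := by
    intro c hc h
    refine hS c hc fun t' ht' => ?_
    rw [List.mem_singleton] at ht'
    rw [ht']
    exact h
  have hv0 : ∀ c : AlgebraicClosure L, c ≠ 0 → ¬ 0 < (vPt c).v (C.l t) →
      (vPt c).v (C.l t) = 0 := by
    intro c hc h
    have := laur_nonneg (C.l_mem t).2 hc
    omega
  obtain ⟨x₀, x₁, he, hr⟩ := C.hrQ hv ht
  obtain ⟨f, hf, hvf⟩ := fin_inf_val v
  -- the symbols `{l t, k}`
  have hsym : ∀ k : F, K2.map C.iK (S (C.lK t) (C.iF k)) =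
      S (C.l t) (RatFunc.C (algebraMap F L k)) := by
    intro k
    rw [K2.map_S]
    rfl
  have hcF : ∀ k : F, k ≠ 0 → (RatFunc.C (algebraMap F L k) : RatFunc L) ≠ 0 := fun k hk =>
    fin_C_ne ((map_ne_zero _).mpr hk)
  have hpos : ∀ (k : F) (c : AlgebraicClosure L), k ≠ 0 → c ≠ 0 → 0 < (vPt c).v (C.l t) →
      (vPt c).tame (S (C.l t) (RatFunc.C (algebraMap F L k))) =
        (vPt c).A (RatFunc.C (algebraMap F L k)) := by
    intro k c hk hc hp
    rw [Val.tame_S_left _ hlt (hcF k hk) (vPt_C _ _).1, (C.v_l_pos hc hp).2, one_zsmul]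
  have hneg : ∀ (k : F) (c : AlgebraicClosure L), c ≠ 0 → ¬ 0 < (vPt c).v (C.l t) →
      (vPt c).tame (S (C.l t) (RatFunc.C (algebraMap F L k))) = 0 := by
    intro k c hc hp
    exact Val.tame_S_units _ (hv0 c hc hp) (vPt_C _ _).1
  by_cases hx : x₁ = 0
  · -- constant residue
    have he' : Qt.sc x₀ + Qt.sc x₁ * t = (Qt.sc x₀ : Qt C) := by
      rw [hx]
      ext <;> simp
    have hx0 : x₀ ≠ 0 := by
      intro h0
      apply he
      rw [he', h0]
      ext <;> simp
    have hS1 : C.Sup (v - K2.map C.iK (S (C.lK t) (C.iF x₀))) [] := by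
      intro c hc _
      rw [map_sub, hsym]
      by_cases hp : 0 < (vPt c).v (C.l t)
      · rw [hr c hc hp, he', C.rho_sc, hpos x₀ c hx0 hc hp, sub_self]
      · rw [hS0 c hc hp, hneg x₀ c hc hp, sub_self]
    obtain ⟨m, h1, h2⟩ := C.fin_inf (Inv.sub_map C hv _) hS1
    refine ⟨S (C.lK t) (C.iF x₀) + m, ?_, ?_⟩
    · rw [map_add, ← sub_sub]
      exact h1
    · rw [map_add, ← sub_sub]
      exact h2
  · obtain ⟨e, hedef⟩ : ∃ e : Qt C, e = Qt.sc x₀ + Qt.sc x₁ * t := ⟨_, rfl⟩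
    rw [← hedef] at hr
    have heq : e.q ≠ 0 := by
      rw [hedef, Qt.add_q, Qt.mul_q, Qt.sc_q, Qt.sc_q, Qt.sc_p, zero_mul, add_zero, zero_add]
      exact mul_ne_zero ((map_ne_zero _).mpr hx) ht
    have hle : C.l e = RatFunc.C (algebraMap F L x₁) * C.l t := by
      rw [hedef, C.l_add, C.l_sc, C.l_sc_mul, zero_add]
    have hvl : ∀ (k : F) (c : AlgebraicClosure L), k ≠ 0 →
        (vPt c).v (RatFunc.C (algebraMap F L k) * C.l t) = (vPt c).v (C.l t) := by
      intro k c hk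
      rw [(vPt c).v_mul _ _ (hcF k hk) hlt, (vPt_C _ _).1, zero_add]
    have hlam : ∀ c : AlgebraicClosure L, c ≠ 0 → (vPt c).tame v = C.lam c e := by
      intro c hc
      rw [lam, hle, hvl x₁ c hx]
      by_cases hp : 0 < (vPt c).v (C.l t)
      · rw [if_pos hp]
        exact hr c hc hp
      · rw [if_neg hp]
        exact hS0 c hc hp
    by_cases hfF : C.s f = f
    · obtain ⟨k, hk⟩ := C.fix f hfF
      have hk0 : k ≠ 0 := by
        intro h0
        rw [h0, map_zero] at hk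
        exact hf hk.symm
      refine C.fin_last hv (-(S (C.lK t) (C.iF k))) (d := Qt.sc k * e) ?_ ?_ ?_
      · rw [Qt.mul_q, Qt.sc_q, Qt.sc_p, zero_mul, add_zero]
        exact mul_ne_zero ((map_ne_zero _).mpr hk0) heq
      · intro c hc
        have hlk : C.l (Qt.sc k * e) = RatFunc.C (algebraMap F L (k * x₁)) * C.l t := by
          rw [C.l_sc_mul, hle, map_mul, map_mul, mul_assoc]
        rw [map_neg, sub_neg_eq_add, map_add, hsym, hlam c hc]
        unfold lam
        rw [hlk, hle, hvl x₁ c hx, hvl (k * x₁) c (mul_ne_zero hk0 hx)]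
        by_cases hp : 0 < (vPt c).v (C.l t)
        · rw [if_pos hp, if_pos hp, hpos k c hk0 hc hp, C.rho_sc_mul,
            Val.A_mul _ (hcF k hk0) (C.fin_rho_ne heq), add_comm]
        · rw [if_neg hp, if_neg hp, hneg k c hc hp, add_zero]
      · rw [map_neg, sub_neg_eq_add, map_add, hsym, hvf,
          Val.tame_S_left _ hlt (hcF k hk0) (vInf_C _).1, (C.v_l ht).1, neg_one_zsmul, hk,
          add_neg_cancel]
    · have hcomm : e * Qt.ofL f ≠ Qt.ofL f * e := by
        intro h0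
        have h1 := congrArg Qt.q h0
        rw [Qt.mul_q, Qt.mul_q, Qt.ofL_p, Qt.ofL_q, mul_zero, zero_add, zero_mul, add_zero,
          mul_comm] at h1
        exact hfF (mul_right_cancel₀ heq h1)
      have hdq : (e * Qt.ofL f).q ≠ 0 := by
        rw [Qt.mul_q, Qt.ofL_p, Qt.ofL_q, mul_zero, zero_add]
        exact mul_ne_zero heq ((map_ne_zero C.s).mpr hf)
      refine C.fin_last hv (C.T e (Qt.ofL f)) (d := e * Qt.ofL f) hdq ?_ ?_
      · intro c hc
        rw [map_sub, C.T_pt hcomm hc, hlam c hc, C.fin_lam_ofL]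
        abel
      · rw [map_sub, C.T_inf hcomm, hvf]
        have i1 : C.lamInf e = 0 := by rw [lamInf, if_neg heq]
        have i2 : C.lamInf (Qt.ofL f) = (vInf L).A (RatFunc.C f) := by
          rw [lamInf, if_pos (Qt.ofL_q f), Qt.ofL_p]
        have i3 : C.lamInf (e * Qt.ofL f) = 0 := by rw [lamInf, if_neg hdq]
        rw [i1, i2, i3]
        abel

end CQ

end Pool.Agent.MK
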