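import Pool.Agent.MK.P1
import Pool.Agent.MK.Quad

/-! # The conic: definitions

`C : CQ F L`.  `C.sM` is the involution of `L(z)` with `s|L = s` and `s(z) = b/z`; its fixed field `C.K` is
the function field of the conic over `F`; `C.A` is the ring of `s`-invariant Laurent polynomials. -/

set_option autoImplicit false
set_option linter.unusedSectionVars false

namespace Pool.Agent.MK

universe u v w

open scoped Polynomial

namespace CQ

variable {F L : Type u} [Field F] [Field L] [Algebra F L] (C : CQ F L)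

/-- The homomorphism `L[X] → L(z)`, `X ↦ b / z`, `s` on `L`. -/
noncomputable def sPoly : L[X] →+* RatFunc L :=
  Polynomial.eval₂RingHom ((RatFunc.C : L →+* RatFunc L).comp C.s) (RatFunc.C C.bL / RatFunc.X)

theorem sPoly_eq (p : L[X]) : C.sPoly p = Polynomial.aeval (RatFunc.C C.bL / RatFunc.X : RatFunc L) (p.map C.s) := by
  rw [Polynomial.aeval_def, Polynomial.eval₂_map]
  rfl

theorem sPoly_inj : Function.Injective C.sPoly := by
  intro p p' h
  rw [sPoly_eq, sPoly_eq] at h
  have ht : Transcendental L (RatFunc.C C.bL / RatFunc.X : RatFunc L) := by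
    apply RatFunc.transcendental_of_ne_C
    rintro ⟨c, hc⟩
    have hc0 : c ≠ 0 := by
      rintro rfl
      rw [map_zero, div_eq_zero_iff] at hc
      rcases hc with h1 | h1
      · exact C.bL_ne ((map_eq_zero _).mp h1)
      · exact RatFunc.X_ne_zero h1
    apply RatFunc.transcendental_X (K := L)
    have : (RatFunc.X : RatFunc L) = algebraMap L (RatFunc L) (C.bL / c) := by
      rw [div_eq_iff RatFunc.X_ne_zero] at hc
      rw [RatFunc.algebraMap_eq_C, map_div₀, eq_div_iff ((map_ne_zero _).mpr hc0), hc, mul_comm]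
    rw [this]
    exact isAlgebraic_algebraMap _
  have h1 := transcendental_iff_injective.mp ht h
  exact Polynomial.map_injective _ C.s.injective h1

/-- The involution of `L(z)`. -/
noncomputable def sM : RatFunc L →+* RatFunc L := IsFractionRing.lift C.sPoly_inj

theorem sM_poly (p : L[X]) : C.sM (algebraMap L[X] (RatFunc L) p) = C.sPoly p :=
  IsFractionRing.lift_algebraMap _ _

theorem sM_C (c : L) : C.sM (RatFunc.C c) = RatFunc.C (C.s c) := by
  rw [← RatFunc.algebraMap_C, sM_poly, sPoly]
  simp

theorem sM_X : C.sM RatFunc.X = RatFunc.C C.bL / RatFunc.X := by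
  rw [← RatFunc.algebraMap_X, sM_poly, sPoly]
  simp

theorem CbL_ne : (RatFunc.C C.bL : RatFunc L) ≠ 0 := (map_ne_zero _).mpr C.bL_ne

theorem sM_sM (f : RatFunc L) : C.sM (C.sM f) = f := by
  have h : (C.sM.comp C.sM) = RingHom.id _ := by
    apply IsFractionRing.injective_comp_algebraMap (A := L[X])
    apply Polynomial.ringHom_ext
    · intro c
      simp only [RingHom.comp_apply, RingHom.id_apply, RatFunc.algebraMap_C, sM_C, C.s_s]
    · simp only [RingHom.comp_apply, RingHom.id_apply, RatFunc.algebraMap_X, sM_X, map_div₀, sM_C,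
        C.s_bL]
      rw [div_div_eq_mul_div, mul_comm, mul_div_assoc, div_self C.CbL_ne, mul_one]
  exact congrArg (fun g : RatFunc L →+* RatFunc L => g f) h

include C in
theorem twoM : (2 : RatFunc L) ≠ 0 := by
  have := (map_ne_zero (RatFunc.C : L →+* RatFunc L)).mpr C.twoL
  rwa [map_ofNat] at this

/-- The function field of the conic: the fixed field of the involution. -/
noncomputable abbrev K : Subfield (RatFunc L) := fixedField C.sM

/-- `L(z)` as a quadratic extension of the function field of the conic. -/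
noncomputable def QK : Quad C.K (RatFunc L) :=
  Quad.ofInvol C.sM (RatFunc.C C.α) C.twoM ((map_ne_zero _).mpr C.α_ne)
    (by rw [C.sM_C, C.s_α, map_neg]) C.sM_sM

theorem QK_s : C.QK.s = C.sM := rfl

theorem QK_α : C.QK.α = RatFunc.C C.α := rfl

/-- The embedding of `F` into the function field of the conic. -/
noncomputable def iF : F →+* C.K :=
  ((RatFunc.C : L →+* RatFunc L).comp (algebraMap F L)).codRestrict C.K.toSubring (fun c => by
    show C.sM (RatFunc.C (algebraMap F L c)) = RatFunc.C (algebraMap F L c)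
    rw [C.sM_C, C.s_alg])

theorem iF_coe (c : F) : ((C.iF c : C.K) : RatFunc L) = RatFunc.C (algebraMap F L c) := rfl

/-- The embedding of the function field of the conic into `L(z)`. -/
noncomputable abbrev iK : C.K →+* RatFunc L := C.K.subtype

theorem iK_iF : C.iK.comp C.iF = (RatFunc.C : L →+* RatFunc L).comp (algebraMap F L) := rfl

/-- Laurent polynomials. -/
def IsLaur (f : RatFunc L) : Prop :=
  ∃ (n : ℕ) (P : L[X]), f * RatFunc.X ^ n = algebraMap L[X] (RatFunc L) P

theorem IsLaur.add {f g : RatFunc L} (hf : IsLaur f) (hg : IsLaur g) : IsLaur (f + g) := by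
  obtain ⟨n, P, h1⟩ := hf
  obtain ⟨m, Q, h2⟩ := hg
  refine ⟨n + m, P * Polynomial.X ^ m + Q * Polynomial.X ^ n, ?_⟩
  rw [map_add, map_mul, map_mul, map_pow, map_pow, ← h1, ← h2, RatFunc.algebraMap_X]
  ring

theorem IsLaur.mul {f g : RatFunc L} (hf : IsLaur f) (hg : IsLaur g) : IsLaur (f * g) := by
  obtain ⟨n, P, h1⟩ := hf
  obtain ⟨m, Q, h2⟩ := hg
  refine ⟨n + m, P * Q, ?_⟩
  rw [map_mul, ← h1, ← h2]
  ring

theorem isLaur_poly (P : L[X]) : IsLaur (algebraMap L[X] (RatFunc L) P) :=
  ⟨0, P, by rw [pow_zero, mul_one]⟩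

theorem isLaur_C (c : L) : IsLaur (RatFunc.C c) := by
  rw [← RatFunc.algebraMap_C]
  exact isLaur_poly _

theorem isLaur_X : IsLaur (RatFunc.X : RatFunc L) := by
  rw [← RatFunc.algebraMap_X]
  exact isLaur_poly _

theorem isLaur_X_inv : IsLaur ((RatFunc.X : RatFunc L)⁻¹) :=
  ⟨1, 1, by rw [pow_one, inv_mul_cancel₀ RatFunc.X_ne_zero, map_one]⟩

/-- The coordinate ring of the conic without the point `∞`: `s`-invariant Laurent polynomials. -/
noncomputable def A : Subalgebra F (RatFunc L) where
  carrier := {f | C.sM f = f ∧ IsLaur f}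
  mul_mem' := by
    rintro f g ⟨h1, h2⟩ ⟨h3, h4⟩
    exact ⟨by rw [map_mul, h1, h3], h2.mul h4⟩
  add_mem' := by
    rintro f g ⟨h1, h2⟩ ⟨h3, h4⟩
    exact ⟨by rw [map_add, h1, h3], h2.add h4⟩
  algebraMap_mem' c := ⟨(C.sM_C (algebraMap F L c)).trans (by rw [C.s_alg]; rfl), isLaur_C _⟩

theorem mem_A {f : RatFunc L} : f ∈ C.A ↔ C.sM f = f ∧ IsLaur f := Iff.rfl

/-- The embedding of the coordinate ring into the function field. -/
noncomputable def iA : C.A →+* C.K :=
  (C.A.subtype : C.A →+* RatFunc L).codRestrict C.K.toSubring (fun f => f.2.1)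

theorem iA_coe (f : C.A) : ((C.iA f : C.K) : RatFunc L) = (f : RatFunc L) := rfl

theorem iA_inj : Function.Injective C.iA := by
  intro f g h
  apply Subtype.ext
  rw [← C.iA_coe, ← C.iA_coe, h]

/-- The degree of an element of the coordinate ring (the top degree in `z`). -/
noncomputable def dg (f : C.A) : ℕ := (-(vInf L).v (f : RatFunc L)).toNat

end CQ

end Pool.Agent.MK
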