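import Pool.Agent.MK.Quad

/-! # The Steinberg relation in Hilbert's theorem 90 for `K₂`

PROOF of `psi_steinberg`.  Let `y = s x`, so `N x = x y`, `1 - x y ≠ 0`; `1 + x ≠ 0` (else `x = -1 = y`
and `x y = 1`), `1 + y = s (1 + x) ≠ 0`.

Case `x ≠ y`.  Take `v = {x (x - y), 1 + x} + {1 + x, 1 - x y}`; then
`v - s v = {x (x-y), 1+x} - {y (y-x), 1+y} + {1+x, 1-xy} - {1+y, 1-xy}`.  Claim: it equals `{x, 1 - x y}`.
 (i) `(x-y)/(1+x) + (1+y)/(1+x) = 1` gives
     `{x-y, 1+y} - {x-y, 1+x} - {1+x, 1+y} + {1+x, -1} = 0`.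
 (ii) `(1-xy)/(1+x) + x(1+y)/(1+x) = 1` gives
     `{1-xy, x} + {1-xy, 1+y} - {1-xy, 1+x} - {1+x, x} - {1+x, 1+y} + {1+x, -1} = 0`, i.e.
     `{x, 1-xy} = {1+x, 1-xy} - {1+y, 1-xy} + {x, 1+x} - {1+x, 1+y} + {1+x, -1}`.
 (iii) `{y, 1+y} = {-1, 1+y}` (as `{-y, 1+y} = 0`) and `{y-x, 1+y} = {-1,1+y} + {x-y, 1+y}`, so
     `{x(x-y), 1+x} - {y(y-x), 1+y} = {x,1+x} + {x-y,1+x} - {x-y,1+y}`
     `= {x,1+x} - {1+x,1+y} + {1+x,-1}` by (i).  Combine with (ii).
Case `x = y`: `x = c ∈ F`, `{x, 1 - x²} = {x, 1-x} + {x, 1+x} = {x, 1+x} = {-1, 1+x}`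
(`{-x, 1+x} = 0`), and for `v = {α, 1+x}`: `v - s v = {α,1+x} - {-α,1+x} = {-1,1+x}` (up to sign,
`2 {-1, z} = 0`).

PROOF of `s_one_sub_mul`: `{y / s y, c} = {y, c} - {s y, c}` and `s c = c`.

PROOF of `same_norm`: `x / y` has norm 1, `x/y = z / s z` by Hilbert 90, so
`{x, c} - {y, c} = {z/s z, c} = v - s v` with `v = {z, c}`.
-/

set_option autoImplicit false

namespace Pool.Agent.MK

universe u v

namespace Quad

variable {F : Type u} {L : Type u} [Field F] [Field L] [Algebra F L] (q : Quad F L)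

/-- The subgroup `(1 - s) K₂(L)`. -/
noncomputable def oneSub : AddSubgroup (K2 L) :=
  (AddMonoidHom.id (K2 L) - K2.map q.s).range

theorem mem_oneSub {x : K2 L} : x ∈ q.oneSub ↔ ∃ v : K2 L, v - K2.map q.s v = x := by
  rw [oneSub, AddMonoidHom.mem_range]
  rfl

theorem same_norm {x y : L} (hx : x ≠ 0) (hy : y ≠ 0) (h : q.N x = q.N y) (c : F) :
    S x (algebraMap F L c) - S y (algebraMap F L c) ∈ q.oneSub := by
  have h1 : (x / y) * q.s (x / y) = 1 := by
    rw [← q.N_spec, q.N_div, h, div_self (q.N_ne hy), map_one]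
  obtain ⟨z, hz, hxy⟩ := q.hilbert90 h1
  have hsz : q.s z ≠ 0 := (map_ne_zero q.s).mpr hz
  rw [mem_oneSub]
  refine ⟨S z (algebraMap F L c), ?_⟩
  rw [K2.map_S, q.s_alg, ← S_div_left hz hsz, ← hxy, S_div_left hx hy]

/-- The identity behind `psi_steinberg` if `x ≠ y`. -/
theorem psi_aux {E : Type v} [Field E] {x y : E} (hx : x ≠ 0) (hy : y ≠ 0) (hxy : x ≠ y)
    (h1 : 1 + x ≠ 0) (h2 : 1 + y ≠ 0) (h3 : 1 - x * y ≠ 0) :
    S (x * (x - y)) (1 + x) + S (1 + x) (1 - x * y) -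
      (S (y * (y - x)) (1 + y) + S (1 + y) (1 - y * x)) = S x (1 - x * y) := by
  have hd : x - y ≠ 0 := sub_ne_zero.mpr hxy
  have hd' : y - x ≠ 0 := sub_ne_zero.mpr (Ne.symm hxy)
  have e1 : S ((x - y) / (1 + x)) ((1 + y) / (1 + x)) = 0 := by
    apply S_of_add_eq_one
    field_simp
    ring
  rw [S_div_left hd h1, S_div_right h2 h1, S_div_right h2 h1, S_self (1 + x)] at e1
  have e2 : S ((1 - x * y) / (1 + x)) ((x * (1 + y)) / (1 + x)) = 0 := by
    apply S_of_add_eq_one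
    field_simp
    ring
  rw [S_div_left h3 h1, S_div_right (mul_ne_zero hx h2) h1, S_div_right (mul_ne_zero hx h2) h1,
    S_mul_right hx h2, S_mul_right hx h2, S_self (1 + x), S_comm (1 - x * y) x,
    S_comm (1 - x * y) (1 + y), S_comm (1 - x * y) (1 + x), S_comm (1 + x) x] at e2
  have e3 : S (-y) (1 + y) = 0 := S_of_add_eq_one (by ring)
  rw [S_neg_left y _ hy] at e3
  have e4 : S (y - x) (1 + y) = S (-1) (1 + y) + S (x - y) (1 + y) := by
    rw [← S_neg_left _ _ hd, neg_sub]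
  rw [S_mul_left hx hd, S_mul_left hy hd', e4, mul_comm y x]
  linear_combination (norm := module) e2 - e1 - e3

theorem psi_steinberg {x : L} (hx : x ≠ 0) (h : q.N x ≠ 1) :
    S x (algebraMap F L (1 - q.N x)) ∈ q.oneSub := by
  have hN : algebraMap F L (1 - q.N x) = 1 - x * q.s x := by
    rw [map_sub, map_one, q.N_spec]
  have h3 : 1 - x * q.s x ≠ 0 := by
    rw [← hN]
    exact (map_ne_zero _).mpr (sub_ne_zero.mpr (Ne.symm h))
  have h1 : 1 + x ≠ 0 := by
    intro h0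
    apply h3
    have hx1 : x = -1 := by linear_combination h0
    rw [hx1, map_neg, map_one]
    ring
  have hsx : q.s x ≠ 0 := (map_ne_zero q.s).mpr hx
  have h2 : 1 + q.s x ≠ 0 := by
    have := (map_ne_zero q.s).mpr h1
    rwa [map_add, map_one] at this
  rw [mem_oneSub]
  by_cases hxy : x = q.s x
  · refine ⟨S q.α (1 + x), ?_⟩
    have h4 : 1 - x ≠ 0 := by
      intro h0
      apply h3
      have hx1 : x = 1 := by linear_combination -h0
      rw [hx1, map_one]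
      ring
    rw [hN, K2.map_S, q.s_α, map_add, map_one, ← hxy, S_neg_left _ _ q.α_ne,
      show 1 - x * x = (1 - x) * (1 + x) by ring, S_mul_right h4 h1,
      S_of_add_eq_one (show x + (1 - x) = 1 by ring)]
    have e3 : S (-x) (1 + x) = 0 := S_of_add_eq_one (by ring)
    rw [S_neg_left x _ hx] at e3
    linear_combination (norm := module) -e3
  · refine ⟨S (x * (x - q.s x)) (1 + x) + S (1 + x) (1 - x * q.s x), ?_⟩
    rw [hN, map_add, K2.map_S, K2.map_S]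
    simp only [map_mul, map_sub, map_add, map_one, q.s_s]
    exact psi_aux hx hsx hxy h1 h2 h3

end Quad

end Pool.Agent.MK
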