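import Pool.Agent.MK.Quad

/-! # Relations in `K₂(F)` involve only finitely many first entries

`symF : FreeAbelianGroup (Fˣ × Fˣ) → K₂(F)`, `[a, b] ↦ {a, b}`; `RelD D` is the subgroup generated by
the relations all of whose first entries lie in `D`.

PROOFS.
* `exists_finite`: let `R = RelD univ`, `A = FreeAbelianGroup (Fˣ × Fˣ) ⧸ R`.  The map
  `(a, b) ↦ [a, b] mod R` (`0` if `a = 0` or `b = 0`) satisfies the hypotheses of `K2.lift`, so there is
  `φ : K2 F →+ A` with `φ (symF t) = t mod R` (check on generators).  If `symF t = 0` then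
  `t ∈ R`.  By closure induction every element of `R` lies in `RelD D` for some finite `D` (for a
  generator take `D = {a, b, a b}`, `{a}`; for sums the union; `RelD` is monotone).
* `map_mem`: the image of a relation is a relation (closure induction).
-/

set_option autoImplicit false

namespace Pool.Agent.MK

universe u v

section

variable {F : Type u} [Field F]

/-- The map from the free group on pairs of units to `K₂`. -/
noncomputable def symF (F : Type u) [Field F] : FreeAbelianGroup (Fˣ × Fˣ) →+ K2 F :=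
  FreeAbelianGroup.lift fun p => S (p.1 : F) (p.2 : F)

/-- The generating relations with first entries in `D`. -/
def relSet (D : Set Fˣ) : Set (FreeAbelianGroup (Fˣ × Fˣ)) :=
  {t | ∃ a b c : Fˣ, a ∈ D ∧ b ∈ D ∧ a * b ∈ D ∧ t = FreeAbelianGroup.of (a * b, c) -
      FreeAbelianGroup.of (a, c) - FreeAbelianGroup.of (b, c)} ∪
  {t | ∃ a b c : Fˣ, a ∈ D ∧ t = FreeAbelianGroup.of (a, b * c) -
      FreeAbelianGroup.of (a, b) - FreeAbelianGroup.of (a, c)} ∪
  {t | ∃ a b : Fˣ, a ∈ D ∧ (a : F) + b = 1 ∧ t = FreeAbelianGroup.of (a, b)}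

/-- The subgroup generated by the relations with first entries in `D`. -/
noncomputable def RelD (D : Set Fˣ) : AddSubgroup (FreeAbelianGroup (Fˣ × Fˣ)) :=
  AddSubgroup.closure (relSet D)

theorem relSet_mono {D D' : Set Fˣ} (h : D ⊆ D') : relSet D ⊆ relSet D' := by
  rintro t ((⟨a, b, c, ha, hb, hab, rfl⟩ | ⟨a, b, c, ha, rfl⟩) | ⟨a, b, ha, hab, rfl⟩)
  · exact Or.inl (Or.inl ⟨a, b, c, h ha, h hb, h hab, rfl⟩)
  · exact Or.inl (Or.inr ⟨a, b, c, h ha, rfl⟩)
  · exact Or.inr ⟨a, b, h ha, hab, rfl⟩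

theorem RelD_mono {D D' : Set Fˣ} (h : D ⊆ D') : RelD D ≤ RelD D' :=
  AddSubgroup.closure_mono (relSet_mono h)

open Classical in
/-- The class of `[a, b]` modulo all relations (`0` if `a = 0` or `b = 0`). -/
noncomputable def relF (a b : F) :
    FreeAbelianGroup (Fˣ × Fˣ) ⧸ RelD (Set.univ : Set Fˣ) :=
  if h : a ≠ 0 ∧ b ≠ 0 then
    (QuotientAddGroup.mk (FreeAbelianGroup.of (Units.mk0 a h.1, Units.mk0 b h.2)) :
      FreeAbelianGroup (Fˣ × Fˣ) ⧸ RelD (Set.univ : Set Fˣ))
  else 0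

theorem relF_units (a b : Fˣ) : relF (a : F) (b : F) =
    (QuotientAddGroup.mk (FreeAbelianGroup.of (a, b)) :
      FreeAbelianGroup (Fˣ × Fˣ) ⧸ RelD (Set.univ : Set Fˣ)) := by
  rw [relF, dif_pos ⟨a.ne_zero, b.ne_zero⟩]
  simp

theorem relF_mul_left (a b c : Fˣ) : relF ((a : F) * b) (c : F) =
    relF (a : F) (c : F) + relF (b : F) (c : F) := by
  rw [← Units.val_mul, relF_units, relF_units, relF_units, ← QuotientAddGroup.mk_add,
    QuotientAddGroup.eq_iff_sub_mem]
  refine AddSubgroup.subset_closure (Or.inl (Or.inl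
    ⟨a, b, c, Set.mem_univ _, Set.mem_univ _, Set.mem_univ _, ?_⟩))
  abel

theorem relF_mul_right (a b c : Fˣ) : relF (a : F) ((b : F) * c) =
    relF (a : F) (b : F) + relF (a : F) (c : F) := by
  rw [← Units.val_mul, relF_units, relF_units, relF_units, ← QuotientAddGroup.mk_add,
    QuotientAddGroup.eq_iff_sub_mem]
  refine AddSubgroup.subset_closure (Or.inl (Or.inr
    ⟨a, b, c, Set.mem_univ _, ?_⟩))
  abel

theorem relF_one (a b : Fˣ) (h : (a : F) + b = 1) : relF (a : F) (b : F) = 0 := by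
  rw [relF_units, QuotientAddGroup.eq_zero_iff]
  exact AddSubgroup.subset_closure (Or.inr ⟨a, b, Set.mem_univ _, h, rfl⟩)

/-- The map `K₂(F) → FreeAbelianGroup / R`. -/
noncomputable def relMap (F : Type u) [Field F] :
    K2 F →+ FreeAbelianGroup (Fˣ × Fˣ) ⧸ RelD (Set.univ : Set Fˣ) :=
  K2.lift relF
    (fun a b c ha hb hc => relF_mul_left (Units.mk0 a ha) (Units.mk0 b hb) (Units.mk0 c hc))
    (fun a b c ha hb hc => relF_mul_right (Units.mk0 a ha) (Units.mk0 b hb) (Units.mk0 c hc))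
    (fun a b ha hb h => relF_one (Units.mk0 a ha) (Units.mk0 b hb) h)

theorem relMap_symF (t : FreeAbelianGroup (Fˣ × Fˣ)) :
    relMap F (symF F t) = (QuotientAddGroup.mk t :
      FreeAbelianGroup (Fˣ × Fˣ) ⧸ RelD (Set.univ : Set Fˣ)) := by
  have key : (relMap F).comp (symF F) = QuotientAddGroup.mk' (RelD (Set.univ : Set Fˣ)) := by
    refine FreeAbelianGroup.lift_ext _ _ fun p => ?_
    obtain ⟨a, b⟩ := p
    show relMap F (symF F (FreeAbelianGroup.of (a, b))) = _
    rw [symF, FreeAbelianGroup.lift_apply_of, relMap, K2.lift_S _ _ _ _ a.ne_zero b.ne_zero,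
      relF_units]
    rfl
  exact DFunLike.congr_fun key t

theorem mem_finite {t : FreeAbelianGroup (Fˣ × Fˣ)} (ht : t ∈ RelD (Set.univ : Set Fˣ)) :
    ∃ D : Set Fˣ, D.Finite ∧ t ∈ RelD D := by
  induction ht using AddSubgroup.closure_induction with
  | mem t h =>
    rcases h with (⟨a, b, c, -, -, -, rfl⟩ | ⟨a, b, c, -, rfl⟩) | ⟨a, b, -, hab, rfl⟩
    · exact ⟨{a, b, a * b}, by simp, AddSubgroup.subset_closure
        (Or.inl (Or.inl ⟨a, b, c, by simp, by simp, by simp, rfl⟩))⟩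
    · exact ⟨{a}, by simp, AddSubgroup.subset_closure
        (Or.inl (Or.inr ⟨a, b, c, by simp, rfl⟩))⟩
    · exact ⟨{a}, by simp, AddSubgroup.subset_closure
        (Or.inr ⟨a, b, by simp, hab, rfl⟩)⟩
  | zero => exact ⟨∅, Set.finite_empty, zero_mem _⟩
  | add x y _ _ hx hy =>
    obtain ⟨D, hD, hx⟩ := hx
    obtain ⟨D', hD', hy⟩ := hy
    exact ⟨D ∪ D', hD.union hD', add_mem (RelD_mono Set.subset_union_left hx)
      (RelD_mono Set.subset_union_right hy)⟩
  | neg x _ hx =>
    obtain ⟨D, hD, hx⟩ := hx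
    exact ⟨D, hD, neg_mem hx⟩

theorem exists_finite {t : FreeAbelianGroup (Fˣ × Fˣ)} (ht : symF F t = 0) :
    ∃ D : Set Fˣ, D.Finite ∧ t ∈ RelD D := by
  refine mem_finite ?_
  rw [← QuotientAddGroup.eq_zero_iff, ← relMap_symF, ht, map_zero]

/-- Functoriality of the free group on pairs of units. -/
noncomputable def mapFr {E : Type v} [Field E] (φ : F →+* E) :
    FreeAbelianGroup (Fˣ × Fˣ) →+ FreeAbelianGroup (Eˣ × Eˣ) :=
  FreeAbelianGroup.map fun p => (Units.map (φ : F →* E) p.1, Units.map (φ : F →* E) p.2)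

theorem mapFr_of {E : Type v} [Field E] (φ : F →+* E) (a b : Fˣ) :
    mapFr φ (FreeAbelianGroup.of (a, b)) =
      FreeAbelianGroup.of (Units.map (φ : F →* E) a, Units.map (φ : F →* E) b) := by
  rw [mapFr, FreeAbelianGroup.map_of_apply]

theorem map_mem {E : Type v} [Field E] (φ : F →+* E) {D : Set Fˣ}
    {t : FreeAbelianGroup (Fˣ × Fˣ)} (ht : t ∈ RelD D) :
    mapFr φ t ∈ RelD ((Units.map (φ : F →* E)) '' D) := by
  induction ht using AddSubgroup.closure_induction with
  | mem t h =>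
    refine AddSubgroup.subset_closure ?_
    rcases h with (⟨a, b, c, ha, hb, hab, rfl⟩ | ⟨a, b, c, ha, rfl⟩) | ⟨a, b, ha, hab, rfl⟩
    · refine Or.inl (Or.inl ⟨Units.map (φ : F →* E) a, Units.map (φ : F →* E) b,
        Units.map (φ : F →* E) c, ⟨a, ha, rfl⟩, ⟨b, hb, rfl⟩, ⟨a * b, hab, map_mul _ _ _⟩, ?_⟩)
      rw [map_sub, map_sub, mapFr_of, mapFr_of, mapFr_of, map_mul]
    · refine Or.inl (Or.inr ⟨Units.map (φ : F →* E) a, Units.map (φ : F →* E) b,
        Units.map (φ : F →* E) c, ⟨a, ha, rfl⟩, ?_⟩)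
      rw [map_sub, map_sub, mapFr_of, mapFr_of, mapFr_of, map_mul]
    · refine Or.inr ⟨Units.map (φ : F →* E) a, Units.map (φ : F →* E) b, ⟨a, ha, rfl⟩, ?_, ?_⟩
      · show φ a + φ b = 1
        rw [← map_add, hab, map_one]
      · rw [mapFr_of]
  | zero => rw [map_zero]; exact zero_mem _
  | add x y _ _ hx hy => rw [map_add]; exact add_mem hx hy
  | neg x _ hx => rw [map_neg]; exact neg_mem hx

end

end Pool.Agent.MK
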