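import Pool.Agent.MK.Step1
import Pool.Agent.MK.PsiA
import Pool.Agent.MK.Rel

/-! # Hilbert's theorem 90 for `K₂` and quadratic extensions (weak form)

For `ξ = Σ ± [y, c]` in the free group on `Lˣ × Fˣ`: `jj ξ = Σ ± {y, c} ∈ K₂(L)`,
`nn ξ = Σ ± [N y, c]` in the free group on `Fˣ × Fˣ`.

PROOFS.
* `base`: all elements of `D` are norms.  Choose for every norm `a ∈ Fˣ` an `a' ∈ Lˣ` with `N a' = a`; define
  `Ψ : FreeAbelianGroup (Fˣ × Fˣ) → K₂(L) ⧸ (1 - s) K₂(L)`, `[a, c] ↦ {a', c}` (`0` if `a` is not a norm).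
  `Ψ` kills `RelD D`: `{(ab)', c} - {a', c} - {b', c} ∈ (1-s)` by `same_norm` (`N (a' b') = a b`;
  `{a' b', c} = {a', c} + {b', c}`), `{a', b c} = ...` clear, `{a', 1 - a}` by `psi_steinberg` (`a = N a' ≠ 1`).
  `Ψ (nn ξ) = jj ξ` modulo `(1-s) K₂(L)` (on generators: `same_norm`).  So `nn ξ ∈ RelD D` implies
  `jj ξ ∈ (1 - s) K₂(L)`.
* `main`: induction on the number `k` of elements of the finite set `D` which are not norms from `L`, for all
  fields `F, L` at once.  `k = 0`: `base`.  Otherwise let `b ∈ D` be a non-norm and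
  `C : CQ F L` the conic given by `q` and `b`.  Consider `C.K ⊂ L(z)` with `C.QK : Quad C.K (RatFunc L)`, the image
  `ξ'` of `ξ` in the free group on `(L(z))ˣ × C.Kˣ` and the image `D'` of `D` in `C.Kˣ`.
  `nn ξ'` is the image of `nn ξ` (the norm of `C y` is `C.iF (N y)`: both have image
  `C (y s y)` in `L(z)`) so it is in `RelD D'` (`map_mem`).  Images of norms are norms, and `b` becomes
  the norm of `z = RatFunc.X` (`X * sM X = C b`).  So `D'` has at most `k - 1` non-norms (they are images of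
  non-norms of `D` different from `b`), and by induction
  `jj ξ' = v - s v` with `v ∈ K₂(L(z))`.  `jj ξ'` is the image of `jj ξ`; `C.step1` gives `jj ξ ∈ (1-s) K₂(L)`.
* `h90`: `exists_finite` for `t = nn ξ` and `main`.
* `h90_sum`: take `ξ = Σ [y_i, c_i]` (drop the indices with `y_i = 0` or `c_i = 0`).
-/

set_option autoImplicit false
set_option linter.unusedSectionVars false

namespace Pool.Agent.MK

universe u v w

namespace Quad

variable {F L : Type u} [Field F] [Field L] [Algebra F L] (q : Quad F L)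

/-- The norm of a unit. -/
noncomputable def Nu (y : Lˣ) : Fˣ := Units.mk0 (q.N y) (q.N_ne y.ne_zero)

/-- `Σ ± [y, c] ↦ Σ ± {y, c}`. -/
noncomputable def jj : FreeAbelianGroup (Lˣ × Fˣ) →+ K2 L :=
  FreeAbelianGroup.lift fun p => S (p.1 : L) (algebraMap F L p.2)

/-- `Σ ± [y, c] ↦ Σ ± [N y, c]`. -/
noncomputable def nn : FreeAbelianGroup (Lˣ × Fˣ) →+ FreeAbelianGroup (Fˣ × Fˣ) :=
  FreeAbelianGroup.map fun p => (q.Nu p.1, p.2)

theorem jj_of (y : Lˣ) (c : Fˣ) :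
    jj (FreeAbelianGroup.of (y, c)) = S (y : L) (algebraMap F L c) := by
  rw [jj, FreeAbelianGroup.lift_apply_of]

theorem nn_of (y : Lˣ) (c : Fˣ) :
    q.nn (FreeAbelianGroup.of (y, c)) = FreeAbelianGroup.of (q.Nu y, c) := by
  rw [nn, FreeAbelianGroup.map_of_apply]

theorem Nu_coe (y : Lˣ) : ((q.Nu y : Fˣ) : F) = q.N y := rfl

open Classical in
/-- a preimage under the norm (`1` if there is none) -/
noncomputable def pre (a : Fˣ) : Lˣ := if h : ∃ y : Lˣ, q.Nu y = a then h.choose else 1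

theorem pre_spec {a : Fˣ} (h : ∃ y : Lˣ, q.Nu y = a) : q.N (q.pre a) = a := by
  have h1 : q.Nu (q.pre a) = a := by
    rw [pre, dif_pos h]
    exact h.choose_spec
  rw [← q.Nu_coe, h1]

/-- the map `[a, c] ↦ {a', c}` -/
noncomputable def PsiQ : FreeAbelianGroup (Fˣ × Fˣ) →+ K2 L ⧸ q.oneSub :=
  FreeAbelianGroup.lift fun p =>
    (QuotientAddGroup.mk (S ((q.pre p.1 : Lˣ) : L) (algebraMap F L p.2)) : K2 L ⧸ q.oneSub)

theorem PsiQ_of (a c : Fˣ) : q.PsiQ (FreeAbelianGroup.of (a, c)) =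
    (QuotientAddGroup.mk (S ((q.pre a : Lˣ) : L) (algebraMap F L c)) : K2 L ⧸ q.oneSub) := by
  rw [PsiQ, FreeAbelianGroup.lift_apply_of]

theorem PsiQ_rel {D : Set Fˣ} (hD : ∀ a ∈ D, ∃ y : Lˣ, q.Nu y = a)
    {t : FreeAbelianGroup (Fˣ × Fˣ)} (ht : t ∈ RelD D) : q.PsiQ t = 0 := by
  induction ht using AddSubgroup.closure_induction with
  | mem t h =>
    rcases h with (⟨a, b, c, ha, hb, hab, rfl⟩ | ⟨a, b, c, ha, rfl⟩) | ⟨a, b, ha, hab, rfl⟩
    · rw [map_sub, map_sub, PsiQ_of, PsiQ_of, PsiQ_of, ← QuotientAddGroup.mk_sub,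
        ← QuotientAddGroup.mk_sub, QuotientAddGroup.eq_zero_iff, sub_sub,
        ← S_mul_left (q.pre a).ne_zero (q.pre b).ne_zero]
      refine q.same_norm (q.pre (a * b)).ne_zero
        (mul_ne_zero (q.pre a).ne_zero (q.pre b).ne_zero) ?_ _
      rw [q.N_mul, q.pre_spec (hD _ hab), q.pre_spec (hD _ ha), q.pre_spec (hD _ hb),
        Units.val_mul]
    · rw [map_sub, map_sub, PsiQ_of, PsiQ_of, PsiQ_of, ← QuotientAddGroup.mk_sub,
        ← QuotientAddGroup.mk_sub, QuotientAddGroup.eq_zero_iff, Units.val_mul, map_mul,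
        S_mul_right ((map_ne_zero _).mpr b.ne_zero) ((map_ne_zero _).mpr c.ne_zero)]
      have h0 : ∀ u v : K2 L, u + v - u - v = 0 := fun u v => by abel
      rw [h0]
      exact zero_mem _
    · rw [PsiQ_of, QuotientAddGroup.eq_zero_iff]
      have h1 := q.pre_spec (hD _ ha)
      have h2 : (b : F) = 1 - q.N (q.pre a) := by rw [h1, ← hab]; ring
      rw [h2]
      refine q.psi_steinberg (q.pre a).ne_zero ?_
      rw [h1]
      intro h3
      rw [h3] at hab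
      exact b.ne_zero (by linear_combination hab)
  | zero => exact map_zero _
  | add x y _ _ hx hy => rw [map_add, hx, hy, add_zero]
  | neg x _ hx => rw [map_neg, hx, neg_zero]

theorem PsiQ_nn (ξ : FreeAbelianGroup (Lˣ × Fˣ)) :
    q.PsiQ (q.nn ξ) = (QuotientAddGroup.mk (jj ξ) : K2 L ⧸ q.oneSub) := by
  have key : q.PsiQ.comp q.nn = (QuotientAddGroup.mk' q.oneSub).comp jj := by
    refine FreeAbelianGroup.lift_ext _ _ fun p => ?_
    obtain ⟨y, c⟩ := p
    show q.PsiQ (q.nn (FreeAbelianGroup.of (y, c))) =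
      (QuotientAddGroup.mk (jj (FreeAbelianGroup.of (y, c))) : K2 L ⧸ q.oneSub)
    rw [nn_of, PsiQ_of, jj_of, QuotientAddGroup.eq_iff_sub_mem]
    refine q.same_norm (q.pre (q.Nu y)).ne_zero y.ne_zero ?_ _
    rw [q.pre_spec ⟨y, rfl⟩]
    rfl
  exact DFunLike.congr_fun key ξ

theorem base {D : Set Fˣ} (hD : ∀ a ∈ D, ∃ y : Lˣ, q.Nu y = a)
    {ξ : FreeAbelianGroup (Lˣ × Fˣ)} (h : q.nn ξ ∈ RelD D) : jj ξ ∈ q.oneSub := by
  rw [← QuotientAddGroup.eq_zero_iff, ← PsiQ_nn]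
  exact q.PsiQ_rel hD h

end Quad

namespace CQ

variable {F L : Type u} [Field F] [Field L] [Algebra F L] (C : CQ F L)

/-- the image of a pair in the function fields -/
noncomputable def up : FreeAbelianGroup (Lˣ × Fˣ) →+ FreeAbelianGroup ((RatFunc L)ˣ × C.Kˣ) :=
  FreeAbelianGroup.map fun p => (Units.map ((RatFunc.C : L →+* RatFunc L) : L →* RatFunc L) p.1,
    Units.map (C.iF : F →* C.K) p.2)

theorem up_of (y : Lˣ) (c : Fˣ) : C.up (FreeAbelianGroup.of (y, c)) =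
    FreeAbelianGroup.of (Units.map ((RatFunc.C : L →+* RatFunc L) : L →* RatFunc L) y,
    Units.map (C.iF : F →* C.K) c) := by
  rw [up, FreeAbelianGroup.map_of_apply]

theorem Nu_up (y : Lˣ) : C.QK.Nu (Units.map ((RatFunc.C : L →+* RatFunc L) : L →* RatFunc L) y) =
    Units.map (C.iF : F →* C.K) (C.Nu y) := by
  apply Units.ext
  apply Subtype.ext
  have h1 := C.QK.N_spec (RatFunc.C (y : L))
  show ((C.QK.N (RatFunc.C (y : L)) : C.K) : RatFunc L) = ((C.iF (C.N y) : C.K) : RatFunc L)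
  rw [C.iF_coe, C.N_spec, map_mul, ← C.sM_C]
  exact h1

theorem Nu_X (b : Fˣ) (hb : (b : F) = C.b) :
    C.QK.Nu (Units.mk0 RatFunc.X RatFunc.X_ne_zero) = Units.map (C.iF : F →* C.K) b := by
  apply Units.ext
  apply Subtype.ext
  have h1 := C.QK.N_spec (RatFunc.X : RatFunc L)
  show ((C.QK.N (RatFunc.X : RatFunc L) : C.K) : RatFunc L) = ((C.iF b : C.K) : RatFunc L)
  rw [C.iF_coe, hb]
  refine Eq.trans h1 ?_
  rw [C.QK_s, C.sM_X]
  have h2 : (RatFunc.X : RatFunc L) ≠ 0 := RatFunc.X_ne_zero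
  field_simp

theorem nn_up (ξ : FreeAbelianGroup (Lˣ × Fˣ)) : C.QK.nn (C.up ξ) = mapFr C.iF (C.nn ξ) := by
  have key : C.QK.nn.comp C.up = (mapFr C.iF).comp C.nn := by
    refine FreeAbelianGroup.lift_ext _ _ fun p => ?_
    obtain ⟨y, c⟩ := p
    show C.QK.nn (C.up (FreeAbelianGroup.of (y, c))) = mapFr C.iF (C.nn (FreeAbelianGroup.of (y, c)))
    rw [C.up_of, Quad.nn_of, Quad.nn_of, mapFr_of, C.Nu_up]
  exact DFunLike.congr_fun key ξ

theorem jj_up (ξ : FreeAbelianGroup (Lˣ × Fˣ)) :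
    Quad.jj (C.up ξ) = K2.map (RatFunc.C : L →+* RatFunc L) (Quad.jj ξ) := by
  have key : (Quad.jj (F := C.K) (L := RatFunc L)).comp C.up =
      (K2.map (RatFunc.C : L →+* RatFunc L)).comp Quad.jj := by
    refine FreeAbelianGroup.lift_ext _ _ fun p => ?_
    obtain ⟨y, c⟩ := p
    show Quad.jj (C.up (FreeAbelianGroup.of (y, c))) =
      K2.map (RatFunc.C : L →+* RatFunc L) (Quad.jj (FreeAbelianGroup.of (y, c)))
    rw [C.up_of, Quad.jj_of, Quad.jj_of, K2.map_S]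
    rfl
  exact DFunLike.congr_fun key ξ

end CQ

theorem h90_main (k : ℕ) : ∀ (F L : Type u) [Field F] [Field L] [Algebra F L] (q : Quad F L)
    (D : Set Fˣ), D.Finite → {a ∈ D | ¬ ∃ y : Lˣ, q.Nu y = a}.ncard ≤ k →
    ∀ ξ : FreeAbelianGroup (Lˣ × Fˣ), q.nn ξ ∈ RelD D → Quad.jj ξ ∈ q.oneSub := by
  induction k with
  | zero =>
    intro F L _ _ _ q D hD hk ξ hξ
    refine q.base (D := D) (fun a ha => ?_) hξ
    by_contra hno
    have hfin : {a ∈ D | ¬ ∃ y : Lˣ, q.Nu y = a}.Finite := hD.subset (Set.sep_subset _ _)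
    have h0 := (Set.ncard_eq_zero hfin).1 (Nat.le_zero.1 hk)
    have h1 : a ∈ {a ∈ D | ¬ ∃ y : Lˣ, q.Nu y = a} := ⟨ha, hno⟩
    rw [h0] at h1
    exact h1
  | succ k ih =>
    intro F L _ _ _ q D hD hk ξ hξ
    by_cases hall : ∀ a ∈ D, ∃ y : Lˣ, q.Nu y = a
    · exact q.base hall hξ
    push Not at hall
    obtain ⟨b, hbD, hb⟩ := hall
    have hN : ∀ y : L, y * q.s y ≠ algebraMap F L (b : F) := by
      intro y hy
      have h1 : q.N y = b := by
        apply q.algInj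
        rw [q.N_spec, hy]
      have hy0 : y ≠ 0 := by
        rintro rfl
        rw [q.N_zero] at h1
        exact b.ne_zero h1.symm
      exact hb (Units.mk0 y hy0) (Units.ext h1)
    obtain ⟨C, hCq, hCb⟩ : ∃ C : CQ F L, C.toQuad = q ∧ C.b = b :=
      ⟨{ toQuad := q, b := b, hN := hN }, rfl, rfl⟩
    subst hCq
    have hfin : {a ∈ D | ¬ ∃ y : Lˣ, C.Nu y = a}.Finite := hD.subset (Set.sep_subset _ _)
    have hbm : b ∈ {a ∈ D | ¬ ∃ y : Lˣ, C.Nu y = a} := ⟨hbD, fun ⟨y, hy⟩ => hb y hy⟩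
    have hcard : {a ∈ (Units.map (C.iF : F →* C.K)) '' D |
        ¬ ∃ y : (RatFunc L)ˣ, C.QK.Nu y = a}.ncard ≤ k := by
      have hsub : {a ∈ (Units.map (C.iF : F →* C.K)) '' D |
          ¬ ∃ y : (RatFunc L)ˣ, C.QK.Nu y = a} ⊆
          (Units.map (C.iF : F →* C.K)) '' ({a ∈ D | ¬ ∃ y : Lˣ, C.Nu y = a} \ {b}) := by
        rintro _ ⟨⟨a, ha, rfl⟩, hno⟩
        refine ⟨a, ⟨⟨ha, ?_⟩, ?_⟩, rfl⟩
        · rintro ⟨y, rfl⟩
          exact hno ⟨_, C.Nu_up y⟩
        · rintro rfl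
          exact hno ⟨_, C.Nu_X _ hCb.symm⟩
      have hfin' : ({a ∈ D | ¬ ∃ y : Lˣ, C.Nu y = a} \ {b}).Finite := hfin.subset Set.sdiff_subset
      refine (Set.ncard_le_ncard hsub (hfin'.image _)).trans ((Set.ncard_image_le hfin').trans ?_)
      have h2 := Set.ncard_sdiff_singleton_lt_of_mem hbm hfin
      omega
    have h1 := ih C.K (RatFunc L) C.QK ((Units.map (C.iF : F →* C.K)) '' D) (hD.image _) hcard
      (C.up ξ) (by
        rw [C.nn_up]
        exact map_mem C.iF hξ)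
    rw [C.jj_up, Quad.mem_oneSub] at h1
    obtain ⟨v, hv⟩ := h1
    obtain ⟨κ, hκ⟩ := C.step1 hv.symm
    rw [Quad.mem_oneSub]
    exact ⟨κ, hκ.symm⟩

/-- Hilbert's theorem 90 for `K₂` (weak form). -/
theorem h90 {F L : Type u} [Field F] [Field L] [Algebra F L] (q : Quad F L)
    (ξ : FreeAbelianGroup (Lˣ × Fˣ)) (h : symF F (q.nn ξ) = 0) :
    ∃ v : K2 L, Quad.jj ξ = v - K2.map q.s v := by
  obtain ⟨D, hD, hξ⟩ := exists_finite h
  have h1 := h90_main _ F L q D hD le_rfl ξ hξ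
  rw [Quad.mem_oneSub] at h1
  obtain ⟨v, hv⟩ := h1
  exact ⟨v, hv.symm⟩

theorem h90_sum {F L : Type u} [Field F] [Field L] [Algebra F L] (q : Quad F L)
    {ι : Type} (I : Finset ι) (y : ι → L) (c : ι → F)
    (h : ∑ i ∈ I, S (q.N (y i)) (c i) = 0) :
    ∃ v : K2 L, ∑ i ∈ I, S (y i) (algebraMap F L (c i)) = v - K2.map q.s v := by
  classical
  obtain ⟨g, hg⟩ : ∃ g : ι → FreeAbelianGroup (Lˣ × Fˣ), ∀ i,
      Quad.jj (g i) = S (y i) (algebraMap F L (c i)) ∧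
      symF F (q.nn (g i)) = S (q.N (y i)) (c i) := by
    refine ⟨fun i => if h : y i ≠ 0 ∧ c i ≠ 0 then
      FreeAbelianGroup.of (Units.mk0 (y i) h.1, Units.mk0 (c i) h.2) else 0, fun i => ?_⟩
    by_cases h1 : y i ≠ 0 ∧ c i ≠ 0
    · simp only [dif_pos h1]
      rw [Quad.jj_of, Quad.nn_of, symF, FreeAbelianGroup.lift_apply_of]
      exact ⟨rfl, rfl⟩
    · simp only [dif_neg h1, map_zero]
      rw [not_and_or, not_not, not_not] at h1
      rcases h1 with h1 | h1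
      · rw [h1, S_zero_left, q.N_zero, S_zero_left]
        exact ⟨rfl, rfl⟩
      · rw [h1, S_zero_right, map_zero, S_zero_right]
        exact ⟨rfl, rfl⟩
  have h2 : symF F (q.nn (∑ i ∈ I, g i)) = 0 := by
    rw [map_sum, map_sum, ← h]
    exact Finset.sum_congr rfl (fun i _ => (hg i).2)
  obtain ⟨v, hv⟩ := h90 q _ h2
  refine ⟨v, ?_⟩
  rw [← hv, map_sum]
  exact Finset.sum_congr rfl (fun i _ => (hg i).1.symm)

end Pool.Agent.MK
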