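import Pool.Agent.MK.Conj

/-! # Residues of `s`-invariant elements of `K₂(L(z))` come from the conic

`Inv v`: `v - s v` is constant (comes from `K₂(L)`).

PROOFS.  `w_c = vPt c`.
* `Inv_tame`: constants have no residues (`vPt_C`, `Val.tame_S_units`), so `w_c.tame v = w_c.tame (s v)`;
  with `stame` this is `τ` of the tame symbol at `cpt τ c`.
* `Inv.sub_map`: `s` acts trivially on the image of `K₂(C.K)` (`K2.map_map`: `C.sM.comp C.iK = C.iK`).
* `hasRes`: let `c₀ ≠ 0` be over `p` (`exists_pt`), `τ` an extension of `s` to `Ω` (`exists_ext`), and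
  `w_{c₀}.tame v = A(f)` with a polynomial `f`, `f(c₀) ≠ 0` (`tame_poly`).  Let `c₀' = cpt τ c₀`.
  Case 1: `minpoly c₀' = minpoly c₀`.  There is `ρ : Ω ≃ₐ[L] Ω` with `ρ c₀ = c₀'`
  (`minpoly`/`IsConjRoot`, `Normal`); replace `τ` by `ρ.trans τ` (first `ρ` then `τ`; it still extends `s`): then
  `cpt τ c₀ = c₀`.  By `Inv_tame`: `f(c₀) = τ (f(c₀))`, and `τ (f(c₀))` is the residue of `sM f` at `c₀` (`sval`).  Take
  `g = (f + sM f)/2`: in `C.A`, with residue `f(c₀)` at `c₀` (`Val.res_add`).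
  Case 2: otherwise `minpoly c₀`, `minpoly c₀'` are coprime and there is a polynomial `h` with `h(c₀) = 1`,
  `h(c₀') = 0`.  Take `f' = f h`, `g = f' + sM f'`: the residue at `c₀` is `f(c₀) + τ (f'(c₀')) = f(c₀)` (`sval` if
  `f'` is replaced by its residues: `(vPt c₀).res (sM f') = τ ((vPt c₀').res f')`, which follows from `sval`).
  In both cases `g ∈ C.A`, `w_{c₀}.res g ≠ 0`, so `p ∤ g`, and `w_{c₀}.tame v = w_{c₀}.A g`.
  Now let `c ≠ 0` be any point over `p`.  Let `P₀ = minpoly c₀`.  `P₀ * sM P₀` is in `C.A` and positive at `c₀`, so it is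
  divisible by `p` (`dvd_iff_pt`), hence positive at `c`: `P₀(c) = 0` or `w_c.v (sM P₀) > 0`, i.e. (`sval`)
  `P₀(c') = 0`, `c' = cpt τ c`.  In the first case `c = ρ c₀` and `conj_tame`, `conj_ac` give the claim at `c`.  In the
  second case the claim holds at `c'` by the first case (`c' ≠ 0`, `w_{c'}.v p = w_c.v (sM p) = w_c.v p > 0`), and
  `Inv_tame`, `sval` for `g` (`sM g = g`) give it at `c`.
-/

set_option autoImplicit false
set_option linter.unusedSectionVars false

namespace Pool.Agent.MK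

universe u v w

open scoped Polynomial

private theorem hr_tame_C {L : Type u} [Field L] {k : Type w} [Field k] (w : Val (RatFunc L) k)
    (hw : ∀ d : L, w.v (RatFunc.C d) = 0) (u : K2 L) :
    w.tame (K2.map (RatFunc.C : L →+* RatFunc L) u) = 0 := by
  induction u using K2_induction with
  | hS a b ha hb =>
    rw [K2.map_S]
    exact w.tame_S_units (hw a) (hw b)
  | hz => rw [map_zero, map_zero]
  | hadd x y hx hy => rw [map_add, map_add, hx, hy, add_zero]

namespace CQ

variable {F L : Type u} [Field F] [Field L] [Algebra F L] (C : CQ F L)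

/-- `v - s v` is constant. -/
def Inv (v : K2 (RatFunc L)) : Prop :=
  ∃ u : K2 L, K2.map (RatFunc.C : L →+* RatFunc L) u = v - K2.map C.sM v

/-- The residues of `v` at the points over the prime `p` are given by `g`. -/
def HasRes (v : K2 (RatFunc L)) (p g : C.A) : Prop :=
  ∀ c : AlgebraicClosure L, c ≠ 0 → 0 < (vPt c).v (p : RatFunc L) →
    (vPt c).tame v = (vPt c).A (g : RatFunc L)

theorem sM_map (m : K2 C.K) : K2.map C.sM (K2.map C.iK m) = K2.map C.iK m := by
  rw [K2.map_map]
  congr 2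
  ext x
  exact x.2

theorem Inv.sub_map {v : K2 (RatFunc L)} (hv : C.Inv v) (m : K2 C.K) :
    C.Inv (v - K2.map C.iK m) := by
  obtain ⟨u, hu⟩ := hv
  refine ⟨u, ?_⟩
  rw [hu, map_sub, C.sM_map]
  abel

theorem Inv_tame {v : K2 (RatFunc L)} (hv : C.Inv v)
    {τ : AlgebraicClosure L ≃+* AlgebraicClosure L}
    (hτ : ∀ x : L, τ (algebraMap L _ x) = algebraMap L _ (C.s x)) {c : AlgebraicClosure L}
    (hc : c ≠ 0) : (((vPt c).tame v).toMul : AlgebraicClosure L) =
      τ (((vPt (C.cpt τ c)).tame v).toMul : AlgebraicClosure L) := by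
  obtain ⟨u, hu⟩ := hv
  have h1 : (vPt c).tame v = (vPt c).tame (K2.map C.sM v) := by
    have h2 := hr_tame_C (vPt c) (fun d => (vPt_C c d).1) u
    rw [hu, map_sub, sub_eq_zero] at h2
    exact h2
  rw [h1]
  exact C.stame hτ hc v

/-- The residue at `c` of the conjugate function. -/
private theorem hr_res {τ : AlgebraicClosure L ≃+* AlgebraicClosure L}
    (hτ : ∀ x : L, τ (algebraMap L _ x) = algebraMap L _ (C.s x)) {c : AlgebraicClosure L}
    (hc : c ≠ 0) (f : RatFunc L) :
    (vPt c).res (C.sM f) = τ ((vPt (C.cpt τ c)).res f) := by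
  by_cases hf : f = 0
  · rw [hf, map_zero, Val.res_zero, Val.res_zero, map_zero]
  · obtain ⟨h1, h2⟩ := C.sval hτ hc hf
    unfold Val.res
    rw [h1]
    by_cases h : (vPt (C.cpt τ c)).v f = 0
    · rw [if_pos h, if_pos h]
      exact h2 h
    · rw [if_neg h, if_neg h, map_zero]

theorem hasRes {v : K2 (RatFunc L)} (hv : C.Inv v) {p : C.A} (hp : Prime p) :
    ∃ g : C.A, ¬ p ∣ g ∧ C.HasRes v p g := by
  classical
  obtain ⟨c₀, hc₀, hpos₀⟩ := C.exists_pt hp
  obtain ⟨P, hP0, hP⟩ := tame_poly c₀ v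
  have hPne : algebraMap L[X] (RatFunc L) P ≠ 0 := by
    rw [map_ne_zero_iff _ (ratFunc_inj L)]
    rintro rfl
    exact hP0 (map_zero _)
  have hr : (((vPt c₀).tame v).toMul : AlgebraicClosure L) = Polynomial.aeval c₀ P := by
    rw [hP, Val.A_val _ hPne, (vPt_v_eq_zero c₀ hP0).2]
  -- the polynomial giving the element of `A`
  obtain ⟨P', hP'⟩ : ∃ P' : L[X], (vPt c₀).res (algebraMap L[X] (RatFunc L) P' +
      C.sM (algebraMap L[X] (RatFunc L) P')) = Polynomial.aeval c₀ P := by
    obtain ⟨τ, hτ⟩ := C.exists_ext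
    have hnn : ∀ (Q : L[X]), 0 ≤ (vPt c₀).v (C.sM (algebraMap L[X] (RatFunc L) Q)) := fun Q =>
      laur_nonneg (C.isLaur_sM (isLaur_poly Q)) hc₀
    by_cases hm : minpoly L (C.cpt τ c₀) = minpoly L c₀
    · have h1 : IsConjRoot L c₀ (C.cpt τ c₀) := hm.symm
      obtain ⟨ρ, hρ⟩ := isConjRoot_iff_exists_algEquiv.1 h1
      -- `c₀ = ρ (cpt τ c₀)`
      set τ' : AlgebraicClosure L ≃+* AlgebraicClosure L := (ρ.symm.toRingEquiv).trans τ with hτ'
      have hτ'x : ∀ x : L, τ' (algebraMap L _ x) = algebraMap L _ (C.s x) := by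
        intro x
        have e1 : τ' (algebraMap L _ x) = τ (ρ.symm (algebraMap L _ x)) := rfl
        rw [e1, AlgEquiv.commutes, hτ]
      have hcp : C.cpt τ' c₀ = c₀ := by
        have e1 : C.cpt τ' c₀ = ρ (C.cpt τ c₀) := rfl
        rw [e1]
        exact hρ
      have h2 := C.Inv_tame hv hτ'x hc₀
      rw [hcp, hr] at h2
      refine ⟨Polynomial.C (2⁻¹ : L) * P, ?_⟩
      rw [Val.res_add _ (vPt_nonneg _ _) (hnn _), C.hr_res hτ'x hc₀, hcp, vPt_res, map_mul,
        Polynomial.aeval_C, map_mul, ← h2, hτ'x]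
      have h3 : C.s (2⁻¹ : L) = 2⁻¹ := by
        rw [map_inv₀, map_ofNat]
      rw [h3, ← add_mul, ← map_add]
      have h4 : (2⁻¹ : L) + 2⁻¹ = 1 := by
        have := C.twoL
        field_simp
        norm_num
      rw [h4, map_one, one_mul]
    · have hi : Irreducible (minpoly L c₀) := (minpoly_prime c₀).irreducible
      have hi' : Irreducible (minpoly L (C.cpt τ c₀)) := (minpoly_prime _).irreducible
      have hcop : IsCoprime (minpoly L c₀) (minpoly L (C.cpt τ c₀)) := by
        rw [hi.coprime_iff_not_dvd]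
        intro hd
        apply hm
        exact Polynomial.eq_of_monic_of_associated
          (minpoly.monic (Algebra.IsIntegral.isIntegral _))
          (minpoly.monic (Algebra.IsIntegral.isIntegral _)) (hi.associated_of_dvd hi' hd).symm
      obtain ⟨a, b, hab⟩ := hcop
      have e0 : Polynomial.aeval c₀ (b * minpoly L (C.cpt τ c₀)) = 1 := by
        have e1 : b * minpoly L (C.cpt τ c₀) = 1 - a * minpoly L c₀ := by
          rw [← hab]
          ring
        rw [e1, map_sub, map_one, map_mul, minpoly.aeval, mul_zero, sub_zero]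
      have e0' : Polynomial.aeval (C.cpt τ c₀) (b * minpoly L (C.cpt τ c₀)) = 0 := by
        rw [map_mul, minpoly.aeval, mul_zero]
      refine ⟨P * (b * minpoly L (C.cpt τ c₀)), ?_⟩
      have e2 : ∀ d : AlgebraicClosure L, Polynomial.aeval d (P * (b * minpoly L (C.cpt τ c₀))) =
          Polynomial.aeval d P * Polynomial.aeval d (b * minpoly L (C.cpt τ c₀)) :=
        fun d => map_mul _ _ _
      rw [Val.res_add _ (vPt_nonneg _ _) (hnn _), C.hr_res hτ hc₀, vPt_res, vPt_res, e2, e2, e0,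
        e0', mul_zero, map_zero, add_zero, mul_one]
  set g0 : RatFunc L := algebraMap L[X] (RatFunc L) P' +
      C.sM (algebraMap L[X] (RatFunc L) P') with hg0
  have hgs : C.sM g0 = g0 := by
    rw [hg0, map_add, C.sM_sM, add_comm]
  have hgL : IsLaur g0 := (isLaur_poly P').add (C.isLaur_sM (isLaur_poly P'))
  have hres : (vPt c₀).res g0 ≠ 0 := by
    rw [hP']
    exact hP0
  have hg0ne : g0 ≠ 0 := by
    intro h0
    rw [h0, Val.res_zero] at hres
    exact hres rfl
  have hv0 : (vPt c₀).v g0 = 0 := by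
    by_contra h0
    apply hres
    unfold Val.res
    rw [if_neg h0]
  have hac0 : (vPt c₀).ac g0 = (((vPt c₀).tame v).toMul : AlgebraicClosure L) := by
    rw [hr, ← hP', Val.res_of_v_eq _ hv0]
  let g : C.A := ⟨g0, hgs, hgL⟩
  have hgne : g ≠ 0 := by
    intro h0
    exact hg0ne (congrArg (fun t : C.A => (t : RatFunc L)) h0)
  have hAeq : ∀ (c : AlgebraicClosure L),
      (((vPt c).tame v).toMul : AlgebraicClosure L) = (vPt c).ac g0 →
      (vPt c).tame v = (vPt c).A (g : RatFunc L) := by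
    intro c h
    apply Additive.toMul.injective
    rw [Units.ext_iff, h]
    exact ((vPt c).A_val hg0ne).symm
  -- the claim at the conjugates of `c₀`
  have hconj : ∀ c : AlgebraicClosure L, Polynomial.aeval c (minpoly L c₀) = 0 →
      (vPt c).v g0 = 0 ∧ (((vPt c).tame v).toMul : AlgebraicClosure L) = (vPt c).ac g0 := by
    intro c hc
    have h1 : IsConjRoot L c c₀ := by
      have h2 := minpoly.eq_of_irreducible_of_monic (minpoly_prime c₀).irreducible hc
        (minpoly.monic (Algebra.IsIntegral.isIntegral _))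
      exact h2.symm
    obtain ⟨ρ, hρ⟩ := isConjRoot_iff_exists_algEquiv.1 h1
    have hv1 := conj_v ρ c₀ hg0ne
    have ha1 := conj_ac ρ c₀ hg0ne hv0
    have ht1 := conj_tame ρ c₀ v
    rw [hρ] at hv1 ha1 ht1
    refine ⟨hv1.trans hv0, ?_⟩
    rw [ht1, ha1, hac0]
  refine ⟨g, ?_, ?_⟩
  · rw [C.dvd_iff_pt hp hc₀ hpos₀ hgne]
    show ¬ 0 < (vPt c₀).v g0
    omega
  · intro c hc hpos
    apply hAeq
    have hPm : algebraMap L[X] (RatFunc L) (minpoly L c₀) ≠ 0 := by
      rw [map_ne_zero_iff _ (ratFunc_inj L)]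
      exact (minpoly_prime c₀).ne_zero
    have hPs : C.sM (algebraMap L[X] (RatFunc L) (minpoly L c₀)) ≠ 0 := (map_ne_zero C.sM).2 hPm
    let Q : C.A := ⟨algebraMap L[X] (RatFunc L) (minpoly L c₀) *
      C.sM (algebraMap L[X] (RatFunc L) (minpoly L c₀)), by
        rw [map_mul, C.sM_sM, mul_comm],
        (isLaur_poly _).mul (C.isLaur_sM (isLaur_poly _))⟩
    have hQne : Q ≠ 0 := by
      intro h0
      exact mul_ne_zero hPm hPs (congrArg (fun t : C.A => (t : RatFunc L)) h0)
    have hQv : ∀ d : AlgebraicClosure L, (vPt d).v (Q : RatFunc L) =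
        (vPt d).v (algebraMap L[X] (RatFunc L) (minpoly L c₀)) +
        (vPt d).v (C.sM (algebraMap L[X] (RatFunc L) (minpoly L c₀))) := fun d =>
      (vPt d).v_mul _ _ hPm hPs
    have hQ0 : 0 < (vPt c₀).v (Q : RatFunc L) := by
      rw [hQv, (vPt_spec c₀).1]
      have := laur_nonneg (C.isLaur_sM (isLaur_poly (minpoly L c₀))) hc₀
      omega
    have hdvd : p ∣ Q := (C.dvd_iff_pt hp hc₀ hpos₀ hQne).2 hQ0
    have hQc : 0 < (vPt c).v (Q : RatFunc L) := (C.dvd_iff_pt hp hc hpos hQne).1 hdvd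
    rw [hQv] at hQc
    have hroot : ∀ d : AlgebraicClosure L,
        0 < (vPt d).v (algebraMap L[X] (RatFunc L) (minpoly L c₀)) →
        Polynomial.aeval d (minpoly L c₀) = 0 := by
      intro d hd
      by_contra h0
      have := (vPt_v_eq_zero d h0).1
      omega
    by_cases h1 : 0 < (vPt c).v (algebraMap L[X] (RatFunc L) (minpoly L c₀))
    · exact (hconj c (hroot c h1)).2
    · have h2 : 0 < (vPt c).v (C.sM (algebraMap L[X] (RatFunc L) (minpoly L c₀))) := by omega
      obtain ⟨τ, hτ⟩ := C.exists_ext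
      rw [(C.sval hτ hc hPm).1] at h2
      obtain ⟨h3, h4⟩ := hconj _ (hroot _ h2)
      rw [C.Inv_tame hv hτ hc, h4]
      have h5 := (C.sval hτ hc hg0ne).2 h3
      rw [hgs] at h5
      exact h5.symm

/-- The tame symbol at infinity of an invariant element determines the one at `0`. -/
theorem Inv_inf {v : K2 (RatFunc L)} (hv : C.Inv v) :
    (vInf L).tame (K2.map C.sM v) = (vInf L).tame v := by
  obtain ⟨u, hu⟩ := hv
  have h2 := hr_tame_C (vInf L) (fun d => (vInf_C d).1) u
  rw [hu, map_sub, sub_eq_zero] at h2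
  exact h2.symm

end CQ

end Pool.Agent.MK
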