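import Mathlib

/-! # The Milnor group `K₂` of a field (project MK: Merkurjev's theorem)

`K2 F` is the quotient of `Fˣ ⊗ Fˣ` by the Steinberg relations, `S a b` is the symbol `{a, b}`
(`0` if `a = 0` or `b = 0`). -/

set_option autoImplicit false

namespace Pool.Agent.MK

open TensorProduct

universe u v w

/-- The subgroup of `Fˣ ⊗ Fˣ` generated by the `a ⊗ b` with `a + b = 1`. -/
def stRel (F : Type u) [Field F] : AddSubgroup (Additive Fˣ ⊗[ℤ] Additive Fˣ) :=
  AddSubgroup.closure {t | ∃ a b : Fˣ, (a : F) + b = 1 ∧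
    t = Additive.ofMul a ⊗ₜ[ℤ] Additive.ofMul b}

/-- The Milnor group `K₂(F)`, written additively. -/
def K2 (F : Type u) [Field F] : Type u := (Additive Fˣ ⊗[ℤ] Additive Fˣ) ⧸ stRel F

noncomputable instance (F : Type u) [Field F] : AddCommGroup (K2 F) :=
  inferInstanceAs (AddCommGroup ((Additive Fˣ ⊗[ℤ] Additive Fˣ) ⧸ stRel F))

open Classical in
/-- The symbol `{a, b}` in `K₂(F)`; it is `0` if `a = 0` or `b = 0`. -/
noncomputable def S {F : Type u} [Field F] (a b : F) : K2 F :=
  if h : a ≠ 0 ∧ b ≠ 0 then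
    (QuotientAddGroup.mk (Additive.ofMul (Units.mk0 a h.1) ⊗ₜ[ℤ]
      Additive.ofMul (Units.mk0 b h.2)) : (Additive Fˣ ⊗[ℤ] Additive Fˣ) ⧸ stRel F)
  else (0 : K2 F)

section

variable {F : Type u} [Field F]

theorem S_units (a b : Fˣ) : S (a : F) (b : F) =
    (QuotientAddGroup.mk (Additive.ofMul a ⊗ₜ[ℤ] Additive.ofMul b) :
      (Additive Fˣ ⊗[ℤ] Additive Fˣ) ⧸ stRel F) := by
  rw [S, dif_pos ⟨a.ne_zero, b.ne_zero⟩]
  simp

theorem S_zero_left (b : F) : S 0 b = 0 := by
  rw [S, dif_neg (by simp)]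

theorem S_zero_right (a : F) : S a 0 = 0 := by
  rw [S, dif_neg (by simp)]

theorem S_mul_left {a b : F} (ha : a ≠ 0) (hb : b ≠ 0) (c : F) :
    S (a * b) c = S a c + S b c := by
  by_cases hc : c = 0
  · simp [hc, S_zero_right]
  have h := S_units (Units.mk0 a ha * Units.mk0 b hb) (Units.mk0 c hc)
  have h1 := S_units (Units.mk0 a ha) (Units.mk0 c hc)
  have h2 := S_units (Units.mk0 b hb) (Units.mk0 c hc)
  simp only [Units.val_mul, Units.val_mk0] at h h1 h2
  rw [h, h1, h2]
  show _ = (QuotientAddGroup.mk _ + QuotientAddGroup.mk _ : (Additive Fˣ ⊗[ℤ] Additive Fˣ) ⧸ stRel F)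
  rw [ofMul_mul, TensorProduct.add_tmul]
  rfl

theorem S_mul_right {b c : F} (hb : b ≠ 0) (hc : c ≠ 0) (a : F) :
    S a (b * c) = S a b + S a c := by
  by_cases ha : a = 0
  · simp [ha, S_zero_left]
  have h := S_units (Units.mk0 a ha) (Units.mk0 b hb * Units.mk0 c hc)
  have h1 := S_units (Units.mk0 a ha) (Units.mk0 b hb)
  have h2 := S_units (Units.mk0 a ha) (Units.mk0 c hc)
  simp only [Units.val_mul, Units.val_mk0] at h h1 h2
  rw [h, h1, h2]
  show _ = (QuotientAddGroup.mk _ + QuotientAddGroup.mk _ : (Additive Fˣ ⊗[ℤ] Additive Fˣ) ⧸ stRel F)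
  rw [ofMul_mul, TensorProduct.tmul_add]
  rfl

/-- The Steinberg relation. -/
theorem S_of_add_eq_one {a b : F} (h : a + b = 1) : S a b = 0 := by
  by_cases ha : a = 0
  · rw [ha, S_zero_left]
  by_cases hb : b = 0
  · rw [hb, S_zero_right]
  have h1 := S_units (Units.mk0 a ha) (Units.mk0 b hb)
  simp only [Units.val_mk0] at h1
  rw [h1]
  exact (QuotientAddGroup.eq_zero_iff _).mpr
    (AddSubgroup.subset_closure ⟨Units.mk0 a ha, Units.mk0 b hb, by simpa using h, rfl⟩)

/-- Every element of `K₂(F)` is a sum of symbols: induction principle. -/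
theorem K2_induction {p : K2 F → Prop} (x : K2 F) (hS : ∀ a b : F, a ≠ 0 → b ≠ 0 → p (S a b))
    (hz : p 0) (hadd : ∀ x y, p x → p y → p (x + y)) : p x := by
  obtain ⟨t, rfl⟩ := QuotientAddGroup.mk_surjective (s := stRel F) x
  induction t using TensorProduct.induction_on with
  | zero => exact hz
  | tmul a b =>
    have := hS (a.toMul : F) (b.toMul : F) a.toMul.ne_zero b.toMul.ne_zero
    rw [S_units] at this
    exact this
  | add x y hx hy => exact hadd _ _ hx hy

theorem K2_hom_ext {A : Type v} [AddCommGroup A] {f g : K2 F →+ A}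
    (h : ∀ a b : F, a ≠ 0 → b ≠ 0 → f (S a b) = g (S a b)) : f = g := by
  ext x
  induction x using K2_induction with
  | hS a b ha hb => exact h a b ha hb
  | hz => simp
  | hadd x y hx hy => simp [hx, hy]

end

section lift

variable {F : Type u} [Field F] {A : Type v} [AddCommGroup A] (f : F → F → A)
  (hl : ∀ a b c, a ≠ 0 → b ≠ 0 → c ≠ 0 → f (a * b) c = f a c + f b c)
  (hr : ∀ a b c, a ≠ 0 → b ≠ 0 → c ≠ 0 → f a (b * c) = f a b + f a c)
  (hs : ∀ a b, a ≠ 0 → b ≠ 0 → a + b = 1 → f a b = 0)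

/-- The bimultiplicative map attached to `f`, as a homomorphism on the tensor product. -/
noncomputable def liftT : Additive Fˣ ⊗[ℤ] Additive Fˣ →+ A :=
  TensorProduct.liftAddHom
    (AddMonoidHom.mk' (fun a : Additive Fˣ => AddMonoidHom.mk'
        (fun b : Additive Fˣ => f (a.toMul : F) (b.toMul : F))
        (fun b c => by
          rw [toMul_add, Units.val_mul]
          exact hr _ _ _ a.toMul.ne_zero b.toMul.ne_zero c.toMul.ne_zero))
      (fun a b => by
        refine AddMonoidHom.ext fun c => ?_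
        show f ((a + b).toMul : F) (c.toMul : F) = f (a.toMul : F) (c.toMul : F) +
          f (b.toMul : F) (c.toMul : F)
        rw [toMul_add, Units.val_mul]
        exact hl _ _ _ a.toMul.ne_zero b.toMul.ne_zero c.toMul.ne_zero))
    (fun r a b => by
      rw [map_zsmul, map_zsmul]
      rfl)

/-- The universal property of `K₂(F)`. -/
noncomputable def K2.lift : K2 F →+ A :=
  QuotientAddGroup.lift (stRel F) (liftT f hl hr) (by
    rw [stRel, AddSubgroup.closure_le]
    rintro _ ⟨a, b, hab, rfl⟩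
    show liftT f hl hr _ = 0
    exact hs _ _ a.ne_zero b.ne_zero hab)

@[simp] theorem K2.lift_S {a b : F} (ha : a ≠ 0) (hb : b ≠ 0) :
    K2.lift f hl hr hs (S a b) = f a b := by
  rw [S, dif_pos ⟨ha, hb⟩]
  rfl

end lift

section map

variable {F : Type u} [Field F] {E : Type v} [Field E] {D : Type w} [Field D]

/-- Functoriality of `K₂`. -/
noncomputable def K2.map (φ : F →+* E) : K2 F →+ K2 E :=
  K2.lift (fun a b => S (φ a) (φ b))
    (fun a b c ha hb _ => by
      rw [map_mul, S_mul_left ((map_ne_zero φ).mpr ha) ((map_ne_zero φ).mpr hb)])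
    (fun a b c _ hb hc => by
      rw [map_mul, S_mul_right ((map_ne_zero φ).mpr hb) ((map_ne_zero φ).mpr hc)])
    (fun a b _ _ h => S_of_add_eq_one (by rw [← map_add, h, map_one]))

@[simp] theorem K2.map_S (φ : F →+* E) (a b : F) : K2.map φ (S a b) = S (φ a) (φ b) := by
  by_cases ha : a = 0
  · simp [ha, S_zero_left]
  by_cases hb : b = 0
  · simp [hb, S_zero_right]
  exact K2.lift_S _ _ _ _ ha hb

@[simp] theorem K2.map_id : K2.map (RingHom.id F) = AddMonoidHom.id (K2 F) :=
  K2_hom_ext fun a b _ _ => by simp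

theorem K2.map_comp (φ : F →+* E) (ψ : E →+* D) :
    K2.map (ψ.comp φ) = (K2.map ψ).comp (K2.map φ) :=
  K2_hom_ext fun a b _ _ => by simp

theorem K2.map_map (φ : F →+* E) (ψ : E →+* D) (x : K2 F) :
    K2.map ψ (K2.map φ x) = K2.map (ψ.comp φ) x := by
  rw [K2.map_comp]; rfl

end map

end Pool.Agent.MK
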