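import Pool.Agent.MK.K2

/-! # Rules for symbols in `K₂(F)` -/

set_option autoImplicit false

namespace Pool.Agent.MK

universe u

variable {F : Type u} [Field F]

theorem S_one_left (a : F) : S 1 a = 0 := by
  have h := S_mul_left (F := F) one_ne_zero one_ne_zero a
  rw [one_mul] at h
  simpa using h

theorem S_one_right (a : F) : S a 1 = 0 := by
  have h := S_mul_right (F := F) one_ne_zero one_ne_zero a
  rw [one_mul] at h
  simpa using h

theorem S_inv_left (a b : F) : S a⁻¹ b = - S a b := by
  by_cases ha : a = 0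
  · simp [ha, S_zero_left]
  have h := S_mul_left ha (inv_ne_zero ha) b
  rw [mul_inv_cancel₀ ha, S_one_left] at h
  rw [eq_neg_iff_add_eq_zero, add_comm, ← h]

theorem S_inv_right (a b : F) : S a b⁻¹ = - S a b := by
  by_cases hb : b = 0
  · simp [hb, S_zero_right]
  have h := S_mul_right hb (inv_ne_zero hb) a
  rw [mul_inv_cancel₀ hb, S_one_right] at h
  rw [eq_neg_iff_add_eq_zero, add_comm, ← h]

theorem S_div_left {a b : F} (ha : a ≠ 0) (hb : b ≠ 0) (c : F) :
    S (a / b) c = S a c - S b c := by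
  rw [div_eq_mul_inv, S_mul_left ha (inv_ne_zero hb), S_inv_left, sub_eq_add_neg]

theorem S_div_right {b c : F} (hb : b ≠ 0) (hc : c ≠ 0) (a : F) :
    S a (b / c) = S a b - S a c := by
  rw [div_eq_mul_inv, S_mul_right hb (inv_ne_zero hc), S_inv_right, sub_eq_add_neg]

theorem S_pow_left (a b : F) (n : ℕ) : S (a ^ n) b = n • S a b := by
  by_cases ha : a = 0
  · rcases Nat.eq_zero_or_pos n with rfl | hn
    · simp [S_one_left]
    · rw [ha, zero_pow hn.ne', S_zero_left, smul_zero]
  induction n with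
  | zero => simp [S_one_left]
  | succ n ih => rw [pow_succ, S_mul_left (pow_ne_zero n ha) ha, ih, succ_nsmul]

theorem S_pow_right (a b : F) (n : ℕ) : S a (b ^ n) = n • S a b := by
  by_cases hb : b = 0
  · rcases Nat.eq_zero_or_pos n with rfl | hn
    · simp [S_one_right]
    · rw [hb, zero_pow hn.ne', S_zero_right, smul_zero]
  induction n with
  | zero => simp [S_one_right]
  | succ n ih => rw [pow_succ, S_mul_right (pow_ne_zero n hb) hb, ih, succ_nsmul]

theorem S_zpow_left (a b : F) (n : ℤ) : S (a ^ n) b = n • S a b := by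
  cases n with
  | ofNat n => simpa using S_pow_left a b n
  | negSucc n =>
    rw [zpow_negSucc, S_inv_left, S_pow_left, negSucc_zsmul]

theorem S_zpow_right (a b : F) (n : ℤ) : S a (b ^ n) = n • S a b := by
  cases n with
  | ofNat n => simpa using S_pow_right a b n
  | negSucc n =>
    rw [zpow_negSucc, S_inv_right, S_pow_right, negSucc_zsmul]

/-- `{a, -a} = 0`. -/
theorem S_neg_self (a : F) : S a (-a) = 0 := by
  by_cases ha : a = 0
  · simp [ha, S_zero_left]
  by_cases h1 : a = 1
  · rw [h1, S_one_left]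
  have h1' : (1 : F) - a ≠ 0 := sub_ne_zero.mpr (Ne.symm h1)
  have h2' : (1 : F) - a⁻¹ ≠ 0 := by
    rw [sub_ne_zero]
    intro h
    exact h1 (by rw [← inv_inv a, ← h, inv_one])
  have e : -a = (1 - a) / (1 - a⁻¹) := by
    rw [eq_div_iff h2']
    field_simp
    ring
  rw [e, S_div_right h1' h2', S_of_add_eq_one (by ring), zero_sub, neg_eq_zero]
  have := S_inv_left a (1 - a⁻¹)
  rw [S_of_add_eq_one (show a⁻¹ + (1 - a⁻¹) = 1 by ring)] at this
  rw [← neg_eq_zero, ← this]

theorem S_neg_self' (a : F) : S (-a) a = 0 := by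
  have := S_neg_self (-a)
  rwa [neg_neg] at this

/-- `{a, a} = {a, -1}`. -/
theorem S_self (a : F) : S a a = S a (-1) := by
  by_cases ha : a = 0
  · simp [ha, S_zero_left]
  have h := S_neg_self a
  rw [show -a = (-1) * a by ring, S_mul_right (neg_ne_zero.mpr one_ne_zero) ha] at h
  have h2 : S a (-1) + S a (-1) = 0 := by
    rw [← S_mul_right (neg_ne_zero.mpr one_ne_zero) (neg_ne_zero.mpr one_ne_zero)]
    simp [S_one_right]
  rw [eq_neg_of_add_eq_zero_right h, neg_eq_of_add_eq_zero_left h2]

/-- Anticommutativity. -/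
theorem S_comm (a b : F) : S a b = - S b a := by
  by_cases ha : a = 0
  · simp [ha, S_zero_left, S_zero_right]
  by_cases hb : b = 0
  · simp [hb, S_zero_left, S_zero_right]
  have h := S_neg_self (a * b)
  rw [S_mul_left ha hb, show -(a * b) = (-a) * b by ring,
    S_mul_right (neg_ne_zero.mpr ha) hb, S_neg_self, zero_add,
    show (-a) * b = a * (-b) by ring, S_mul_right ha (neg_ne_zero.mpr hb), S_neg_self,
    add_zero] at h
  exact eq_neg_of_add_eq_zero_left h

theorem two_S_neg_one_right (a : F) : (2 : ℤ) • S a (-1) = 0 := by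
  rw [two_zsmul, ← S_mul_right (neg_ne_zero.mpr one_ne_zero) (neg_ne_zero.mpr one_ne_zero)]
  simp [S_one_right]

theorem two_S_neg_one_left (a : F) : (2 : ℤ) • S (-1) a = 0 := by
  rw [S_comm, smul_neg, two_S_neg_one_right, neg_zero]

theorem S_neg_one_left_eq (a : F) : S (-1) a = S a (-1) := by
  have h := two_S_neg_one_right a
  rw [two_zsmul] at h
  rw [S_comm (-1) a]
  exact (eq_neg_of_add_eq_zero_left h).symm

theorem S_self' (a : F) : S a a = S (-1) a := by
  rw [S_self, S_neg_one_left_eq]

/-- `{-a, b} = {-1, b} + {a, b}`. -/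
theorem S_neg_left (a b : F) (ha : a ≠ 0) : S (-a) b = S (-1) b + S a b := by
  rw [show -a = (-1) * a by ring, S_mul_left (neg_ne_zero.mpr one_ne_zero) ha]

theorem S_neg_right (a b : F) (hb : b ≠ 0) : S a (-b) = S a (-1) + S a b := by
  rw [show -b = (-1) * b by ring, S_mul_right (neg_ne_zero.mpr one_ne_zero) hb]

end Pool.Agent.MK
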