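import Pool.Agent.MK.Quad

/-! # The quaternion division algebra `(a, b)` over `F` as `L ⊕ L j` -/

set_option autoImplicit false
set_option linter.unusedSectionVars false

namespace Pool.Agent.MK

universe u v w

/-- Quaternions `p + q j`, `p, q ∈ L`, `j² = b`, `j x = s(x) j`. -/
@[ext] structure Qt {F L : Type u} [Field F] [Field L] [Algebra F L] (C : CQ F L) where
  /-- first component -/
  p : L
  /-- second component -/
  q : L

namespace Qt

variable {F L : Type u} [Field F] [Field L] [Algebra F L] {C : CQ F L}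

instance : Zero (Qt C) := ⟨⟨0, 0⟩⟩
instance : One (Qt C) := ⟨⟨1, 0⟩⟩
instance : Add (Qt C) := ⟨fun x y => ⟨x.p + y.p, x.q + y.q⟩⟩
instance : Neg (Qt C) := ⟨fun x => ⟨-x.p, -x.q⟩⟩
instance : Sub (Qt C) := ⟨fun x y => ⟨x.p - y.p, x.q - y.q⟩⟩
noncomputable instance : Mul (Qt C) :=
  ⟨fun x y => ⟨x.p * y.p + C.bL * x.q * C.s y.q, x.p * y.q + x.q * C.s y.p⟩⟩

@[simp] theorem zero_p : (0 : Qt C).p = 0 := rfl
@[simp] theorem zero_q : (0 : Qt C).q = 0 := rfl
@[simp] theorem one_p : (1 : Qt C).p = 1 := rfl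
@[simp] theorem one_q : (1 : Qt C).q = 0 := rfl
@[simp] theorem add_p (x y : Qt C) : (x + y).p = x.p + y.p := rfl
@[simp] theorem add_q (x y : Qt C) : (x + y).q = x.q + y.q := rfl
@[simp] theorem neg_p (x : Qt C) : (-x).p = -x.p := rfl
@[simp] theorem neg_q (x : Qt C) : (-x).q = -x.q := rfl
@[simp] theorem sub_p (x y : Qt C) : (x - y).p = x.p - y.p := rfl
@[simp] theorem sub_q (x y : Qt C) : (x - y).q = x.q - y.q := rfl
@[simp] theorem mul_p (x y : Qt C) : (x * y).p = x.p * y.p + C.bL * x.q * C.s y.q := rfl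
@[simp] theorem mul_q (x y : Qt C) : (x * y).q = x.p * y.q + x.q * C.s y.p := rfl

noncomputable instance : Ring (Qt C) where
  add_assoc x y z := by ext <;> simp [add_assoc]
  zero_add x := by ext <;> simp
  add_zero x := by ext <;> simp
  add_comm x y := by ext <;> simp [add_comm]
  neg_add_cancel x := by ext <;> simp
  sub_eq_add_neg x y := by ext <;> simp [sub_eq_add_neg]
  left_distrib x y z := by ext <;> simp <;> ring
  right_distrib x y z := by ext <;> simp <;> ring
  zero_mul x := by ext <;> simp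
  mul_zero x := by ext <;> simp
  mul_assoc x y z := by ext <;> simp [C.s_s, C.s_bL] <;> ring
  one_mul x := by ext <;> simp
  mul_one x := by ext <;> simp
  nsmul := nsmulRec
  zsmul := zsmulRec

/-- scalars of `F` -/
noncomputable def sc (c : F) : Qt C := ⟨algebraMap F L c, 0⟩

@[simp] theorem sc_p (c : F) : (sc c : Qt C).p = algebraMap F L c := rfl
@[simp] theorem sc_q (c : F) : (sc c : Qt C).q = 0 := rfl

/-- the embedding of `L` -/
def ofL : L →+* Qt C where
  toFun x := ⟨x, 0⟩
  map_one' := rfl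
  map_zero' := rfl
  map_mul' x y := by ext <;> simp
  map_add' x y := by ext <;> simp

@[simp] theorem ofL_p (x : L) : (ofL x : Qt C).p = x := rfl
@[simp] theorem ofL_q (x : L) : (ofL x : Qt C).q = 0 := rfl

/-- conjugation -/
def conj (x : Qt C) : Qt C := ⟨C.s x.p, -x.q⟩

@[simp] theorem conj_p (x : Qt C) : (conj x).p = C.s x.p := rfl
@[simp] theorem conj_q (x : Qt C) : (conj x).q = -x.q := rfl

/-- the reduced norm -/
noncomputable def nrd (x : Qt C) : F := C.N x.p - C.b * C.N x.q

/-- the reduced trace -/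
noncomputable def trd (x : Qt C) : F := 2 * C.re x.p

theorem nrd_alg (x : Qt C) : algebraMap F L x.nrd = x.p * C.s x.p - C.bL * (x.q * C.s x.q) := by
  rw [nrd, map_sub, map_mul, C.N_spec, C.N_spec]

theorem trd_alg (x : Qt C) : algebraMap F L x.trd = x.p + C.s x.p := by
  have := C.twoL
  rw [trd, map_mul, C.re_spec, map_ofNat]
  field_simp

theorem mul_conj (x : Qt C) : x * conj x = sc x.nrd := by
  ext
  · simp [nrd_alg]
    ring
  · simp [C.s_s]
    ring

theorem conj_mul (x : Qt C) : conj x * x = sc x.nrd := by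
  ext
  · simp [nrd_alg]
    ring
  · simp
    ring

theorem nrd_ne {x : Qt C} (hx : x ≠ 0) : x.nrd ≠ 0 := by
  intro h
  have h1 := x.nrd_alg
  rw [h, map_zero] at h1
  by_cases hq : x.q = 0
  · rw [hq, zero_mul, mul_zero, sub_zero] at h1
    have h2 : x.p = 0 := by
      rcases mul_eq_zero.mp h1.symm with h3 | h3
      · exact h3
      · exact (map_eq_zero C.s).mp h3
    exact hx (by ext <;> simp [h2, hq])
  · have hq' : C.s x.q ≠ 0 := (map_ne_zero C.s).mpr hq
    apply C.hN (x.p / x.q)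
    rw [map_div₀, div_mul_div_comm, div_eq_iff (mul_ne_zero hq hq')]
    linear_combination -h1

noncomputable instance : Inv (Qt C) := ⟨fun x => ⟨C.s x.p / algebraMap F L x.nrd,
  -x.q / algebraMap F L x.nrd⟩⟩

theorem inv_p (x : Qt C) : x⁻¹.p = C.s x.p / algebraMap F L x.nrd := rfl
theorem inv_q (x : Qt C) : x⁻¹.q = -x.q / algebraMap F L x.nrd := rfl

theorem s_nrd (x : Qt C) : C.s (algebraMap F L x.nrd) = algebraMap F L x.nrd := C.s_alg _

noncomputable instance : Nontrivial (Qt C) :=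
  ⟨⟨0, 1, fun h => zero_ne_one (α := L) (congrArg Qt.p h)⟩⟩

noncomputable instance : DivisionRing (Qt C) where
  inv := fun x => x⁻¹
  mul_inv_cancel x hx := by
    have h0 : algebraMap F L x.nrd ≠ 0 := (map_ne_zero _).mpr (nrd_ne hx)
    have h1 := x.nrd_alg
    ext
    · rw [mul_p, inv_p, inv_q, one_p, map_div₀, s_nrd, map_neg]
      field_simp
      rw [h1]
      ring
    · rw [mul_q, inv_p, inv_q, one_q, map_div₀, s_nrd, C.s_s]
      field_simp
      ring
  inv_zero := by ext <;> simp [inv_p, inv_q]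
  nnqsmul := _
  nnqsmul_def := fun _ _ => rfl
  qsmul := _
  qsmul_def := fun _ _ => rfl

/-- `i = α`. -/
def qi (C : CQ F L) : Qt C := ⟨C.α, 0⟩

/-- `j`. -/
def qj (C : CQ F L) : Qt C := ⟨0, 1⟩

end Qt

end Pool.Agent.MK
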