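import Pool.Agent.MK.Geo
import Pool.Agent.MK.Qt

/-! # The functions `l w` on the conic attached to quaternions, and their identities

For `w = p + q j`: `l w = (s(q) z + (p - s(p)) - b q / z) / (2 α)`, `rho w = s(p) - s(q) z`,
`bb w = s(q) z + p`.

PROOFS.  All identities are checked by expanding the components `p, q` of products
(`Qt.mul_p`, `Qt.mul_q`), mapping them to `RatFunc L` by the ring homomorphism `RatFunc.C`
(`map_add`, `map_mul`, ...), and `field_simp; ring` (with `RatFunc.X ≠ 0`,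
`RatFunc.C (2 α) ≠ 0`); use `C.s_s`, `C.s_bL`.  `nrd`, `trd` enter through `Qt.nrd_alg`, `Qt.trd_alg`.
* `l_eq_zero`: if `l w = 0` then `s(q) z² + (p - s p) z - b q = 0` as a polynomial, so `q = 0` and
  `p = s p`, `p ∈ F`.
* `l_expand`: with `y = w.q / u.q`, `x = w.p - y * u.p` (so `w = x + y u`) one has
  `l w = im x + (re y) l u + (im y) l (i u)`: by `l_add`, `l_sc_mul` from
  `w = re x + (im x) i + (re y) u + (im y) i u`.
* `rho_l`: `l (i u) = rho u * l i + bb i * l u` and `l i = 1`.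
-/

set_option autoImplicit false
set_option linter.unusedSectionVars false

namespace Pool.Agent.MK

universe u v w

open scoped Polynomial

namespace CQ

variable {F L : Type u} [Field F] [Field L] [Algebra F L] (C : CQ F L)

/-- The function on the conic attached to a quaternion. -/
noncomputable def l (w : Qt C) : RatFunc L :=
  (RatFunc.C (C.s w.q) * RatFunc.X + RatFunc.C (w.p - C.s w.p) -
    RatFunc.C (C.bL * w.q) / RatFunc.X) / RatFunc.C (2 * C.α)

/-- The polynomial `s(q) X² + (p - s p) X - b q = 2 α X l(w)`. -/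
noncomputable def lP (w : Qt C) : L[X] :=
  Polynomial.C (C.s w.q) * Polynomial.X ^ 2 + Polynomial.C (w.p - C.s w.p) * Polynomial.X -
    Polynomial.C (C.bL * w.q)

/-- The value of the quaternion `w` on its eigenline. -/
noncomputable def rho (w : Qt C) : RatFunc L := RatFunc.C (C.s w.p) - RatFunc.C (C.s w.q) * RatFunc.X

/-- Auxiliary linear form. -/
noncomputable def bb (w : Qt C) : RatFunc L := RatFunc.C (C.s w.q) * RatFunc.X + RatFunc.C w.p

/-- scalars in `L(z)` -/
noncomputable abbrev cF (_C : CQ F L) (c : F) : RatFunc L := RatFunc.C (algebraMap F L c)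

theorem C2α_ne : (RatFunc.C (2 * C.α) : RatFunc L) ≠ 0 :=
  (map_ne_zero _).mpr (mul_ne_zero C.twoL C.α_ne)

theorem lP_eq (w : Qt C) : algebraMap L[X] (RatFunc L) (C.lP w) =
    RatFunc.C (2 * C.α) * RatFunc.X * C.l w := by
  have h1 : (RatFunc.C C.α : RatFunc L) ≠ 0 := (map_ne_zero _).mpr C.α_ne
  have h2 : (RatFunc.X : RatFunc L) ≠ 0 := RatFunc.X_ne_zero
  have h4 := C.twoM
  unfold lP l
  simp only [map_add, map_sub, map_mul, map_pow, RatFunc.algebraMap_C, RatFunc.algebraMap_X,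
    map_ofNat]
  field_simp

theorem Cα_ne : (RatFunc.C C.α : RatFunc L) ≠ 0 := (map_ne_zero _).mpr C.α_ne

theorem sM_l (w : Qt C) : C.sM (C.l w) = C.l w := by
  have h1 := C.Cα_ne
  have h2 : (RatFunc.X : RatFunc L) ≠ 0 := RatFunc.X_ne_zero
  have h3 := C.CbL_ne
  have h4 := C.twoM
  unfold l
  simp only [map_add, map_sub, map_mul, map_div₀, C.sM_C, C.sM_X, C.s_s, C.s_bL, C.s_α, map_neg,
    map_ofNat]
  field_simp
  ring

theorem l_mem (w : Qt C) : C.l w ∈ C.A := by
  refine ⟨C.sM_l w, 1, Polynomial.C (2 * C.α)⁻¹ * C.lP w, ?_⟩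
  have h1 := C.C2α_ne
  rw [map_mul, RatFunc.algebraMap_C, C.lP_eq, map_inv₀, pow_one]
  field_simp

/-- `l w` as an element of the coordinate ring -/
noncomputable def lA (w : Qt C) : C.A := ⟨C.l w, C.l_mem w⟩

/-- `l w` as an element of the function field of the conic -/
noncomputable def lK (w : Qt C) : C.K := ⟨C.l w, C.sM_l w⟩

theorem l_add (u w : Qt C) : C.l (u + w) = C.l u + C.l w := by
  simp only [l, Qt.add_p, Qt.add_q, map_add, map_sub, map_mul]
  ring

theorem l_sc_mul (c : F) (w : Qt C) : C.l (Qt.sc c * w) = C.cF c * C.l w := by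
  simp only [l, cF, Qt.mul_p, Qt.mul_q, Qt.sc_p, Qt.sc_q, map_add, map_sub, map_mul, map_zero,
    C.s_alg]
  ring

theorem l_mul_sc (c : F) (w : Qt C) : C.l (w * Qt.sc c) = C.cF c * C.l w := by
  simp only [l, cF, Qt.mul_p, Qt.mul_q, Qt.sc_p, Qt.sc_q, map_add, map_sub, map_mul, map_zero,
    C.s_alg]
  ring

theorem l_sc (c : F) : C.l (Qt.sc c) = 0 := by
  simp only [l, Qt.sc_p, Qt.sc_q, map_sub, map_mul, map_zero, C.s_alg]
  ring

theorem qi_p : (Qt.qi C).p = C.α := rfl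

theorem qi_q : (Qt.qi C).q = 0 := rfl

theorem l_qi : C.l (Qt.qi C) = 1 := by
  have h1 := C.Cα_ne
  have h4 := C.twoM
  simp only [l, qi_p, qi_q, map_sub, map_mul, map_zero, C.s_α, map_neg, map_ofNat]
  field_simp
  ring

theorem l_ofL (x : L) : C.l (Qt.ofL x) = C.cF (C.im x) := by
  have h1 := C.Cα_ne
  have h4 := C.twoM
  simp only [l, cF, Qt.ofL_p, Qt.ofL_q, C.im_spec, map_sub, map_mul, map_zero, map_div₀, map_ofNat]
  field_simp
  ring

theorem l_conj (w : Qt C) : C.l (Qt.conj w) = - C.l w := by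
  simp only [l, Qt.conj_p, Qt.conj_q, C.s_s, map_sub, map_mul, map_neg]
  ring

theorem l_inv (w : Qt C) : C.l w⁻¹ = - (C.cF w.nrd)⁻¹ * C.l w := by
  simp only [l, cF, Qt.inv_p, Qt.inv_q, C.s_s, map_sub, map_mul, map_neg, map_div₀, C.s_alg]
  ring

theorem l_eq_zero {w : Qt C} : C.l w = 0 ↔ ∃ c : F, w = Qt.sc c := by
  constructor
  · intro h
    have h1 := C.lP_eq w
    rw [h, mul_zero] at h1
    have h2 : C.lP w = 0 := by
      apply IsFractionRing.injective L[X] (RatFunc L)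
      rw [h1, map_zero]
    have h3 := congrArg (fun P => Polynomial.coeff P 2) h2
    have h4 := congrArg (fun P => Polynomial.coeff P 1) h2
    simp only [lP, Polynomial.coeff_sub, Polynomial.coeff_add, Polynomial.coeff_C_mul,
      Polynomial.coeff_X_pow, Polynomial.coeff_X, Polynomial.coeff_C, Polynomial.coeff_zero] at h3 h4
    norm_num at h3 h4
    obtain ⟨c, hc⟩ := C.fix w.p (sub_eq_zero.1 h4).symm
    exact ⟨c, Qt.ext hc.symm h3⟩
  · rintro ⟨c, rfl⟩
    exact C.l_sc c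

/-- The cocycle identity. -/
theorem l_cocycle (u v w : Qt C) : C.l (u * v) * C.l (v * w) =
    C.l v * C.l (u * v * w) + C.cF v.nrd * C.l u * C.l w := by
  have h1 := C.Cα_ne
  have h2 : (RatFunc.X : RatFunc L) ≠ 0 := RatFunc.X_ne_zero
  have h4 := C.twoM
  simp only [l, cF, Qt.nrd_alg, Qt.mul_p, Qt.mul_q, map_add, map_sub, map_mul, C.s_s, C.s_bL,
    map_ofNat]
  field_simp
  ring

theorem l_mul_add (u w : Qt C) : C.l (w * u) + C.l (u * w) =
    C.cF u.trd * C.l w + C.cF w.trd * C.l u := by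
  have h1 := C.Cα_ne
  have h2 : (RatFunc.X : RatFunc L) ≠ 0 := RatFunc.X_ne_zero
  have h4 := C.twoM
  simp only [l, cF, Qt.trd_alg, Qt.mul_p, Qt.mul_q, map_add, map_sub, map_mul, C.s_s, C.s_bL,
    map_ofNat]
  field_simp
  ring

theorem l_mul (w u : Qt C) : C.l (w * u) = C.rho u * C.l w + C.bb w * C.l u := by
  have h1 := C.Cα_ne
  have h2 : (RatFunc.X : RatFunc L) ≠ 0 := RatFunc.X_ne_zero
  have h4 := C.twoM
  simp only [l, rho, bb, Qt.mul_p, Qt.mul_q, map_add, map_sub, map_mul, C.s_s, C.s_bL,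
    map_ofNat]
  field_simp
  ring

theorem rho_conj (u : Qt C) : C.rho u * C.rho (Qt.conj u) =
    C.cF u.nrd - RatFunc.C (C.s u.q) * (RatFunc.C (2 * C.α) * RatFunc.X * C.l u) := by
  have h1 := C.Cα_ne
  have h2 : (RatFunc.X : RatFunc L) ≠ 0 := RatFunc.X_ne_zero
  have h4 := C.twoM
  simp only [l, cF, rho, Qt.nrd_alg, Qt.conj_p, Qt.conj_q, map_add, map_sub, map_mul, map_neg,
    C.s_s, C.s_bL, map_ofNat]
  field_simp
  ring

theorem rho_add (u w : Qt C) : C.rho (u + w) = C.rho u + C.rho w := by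
  simp only [rho, Qt.add_p, Qt.add_q, map_add]
  ring

theorem rho_sc_mul (c : F) (w : Qt C) : C.rho (Qt.sc c * w) = C.cF c * C.rho w := by
  simp only [rho, cF, Qt.mul_p, Qt.mul_q, Qt.sc_p, Qt.sc_q, map_add, map_mul, map_zero, C.s_alg]
  ring

theorem rho_sc (c : F) : C.rho (Qt.sc c) = C.cF c := by
  simp only [rho, cF, Qt.sc_p, Qt.sc_q, map_zero, C.s_alg]
  ring

theorem rho_conj_add (u : Qt C) : C.rho u + C.rho (Qt.conj u) = C.cF u.trd := by
  simp only [rho, cF, Qt.trd_alg, Qt.conj_p, Qt.conj_q, C.s_s, map_add, map_neg]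
  ring

theorem rho_l (u : Qt C) : C.l (Qt.qi C * u) = C.rho u + C.bb (Qt.qi C) * C.l u := by
  rw [C.l_mul, C.l_qi, mul_one]

/-- The expansion of `w` in the left `L`-basis `1, u` of the quaternion algebra (`u.q ≠ 0`). -/
theorem l_expand {u : Qt C} (hu : u.q ≠ 0) (w : Qt C) :
    C.l w = C.cF (C.im (w.p - w.q / u.q * u.p)) + C.cF (C.re (w.q / u.q)) * C.l u +
      C.cF (C.im (w.q / u.q)) * C.l (Qt.qi C * u) := by
  have hw : w = Qt.ofL (w.p - w.q / u.q * u.p) +
      (Qt.sc (C.re (w.q / u.q)) * u + Qt.sc (C.im (w.q / u.q)) * (Qt.qi C * u)) := by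
    have hd := C.decomp (w.q / u.q)
    ext
    · simp only [Qt.add_p, Qt.mul_p, Qt.mul_q, Qt.ofL_p, Qt.sc_p, Qt.sc_q, qi_p, qi_q]
      linear_combination u.p * hd
    · simp only [Qt.add_q, Qt.mul_p, Qt.mul_q, Qt.ofL_q, Qt.sc_p, Qt.sc_q, qi_p, qi_q]
      have h1 : w.q = w.q / u.q * u.q := by field_simp
      linear_combination h1 + u.q * hd
  conv_lhs => rw [hw]
  rw [C.l_add, C.l_add, C.l_ofL, C.l_sc_mul, C.l_sc_mul]
  ring

end CQ

end Pool.Agent.MK
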