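import Pool.Agent.MK.K2Lem

/-! # The norm for quadratic extensions: identities in `K₂(F)`

`f(r) = r² - t r + n` is a quadratic polynomial without roots in `F` (so `n = f(0) ≠ 0`);
`GN t n r = {r, f(r)} + {n, -r}` for `r ≠ 0` and `GN t n 0 = {n, -1}` will be the norm of
`{x, x - r}` for a root `x` of `f`.

PROOFS.  Notation `{a, b} = S a b`.  Rules: `2 {a, -1} = 0`, `{a, -a} = 0`, `{a, a} = {a, -1}`,
`{a, b} = -{b, a}`, Steinberg.

* `GN_add`: `q = t - r - r' ≠ 0`, `r'' = (n - r r') / q`.  One has (ring identities)
  `f(r) = q (r'' - r)`, `f(r') = q (r'' - r')` and `f(r'') = (r'' - r) (r'' - r')`.  In particular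
  `r'' ≠ r, r'`.
  Case `r, r', r'' ≠ 0`.  Claim: `{r, f r} + {n, -r} + {r', f r'} + {n, -r'} = {n, q} + {r'', f r''} + {n, -r''}`.
  Left minus right is
  `{r r', q} + ({r, r''-r} - {r'', r''-r}) + ({r', r''-r'} - {r'', r''-r'}) + {n, r r'} - {n, -q r''}`.
  From `{r/r'', 1 - r/r''} = 0` and `r'' - r = r'' (1 - r/r'')`:
  `{r, r''-r} - {r'', r''-r} = {r/r'', r''-r} = {r/r'', r''} = {r, r''} - {r'', -1}`, similarly for
  `r'`; the sum of the two brackets is `{r r', r''}` (as `2 {r'', -1} = 0`).  So the difference is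
  `{r r', q r''} + {n, r r'} - {n, -q r''}`, and `r r' + q r'' = n`, so
  `0 = {r r'/n, q r''/n} = {r r', q r''} - {r r', n} - {n, q r''} + {n, -1}`; the difference equals
  this (`{n, -q r''} = {n, -1} + {n, q r''}`, `{n,-1} = -{n,-1}`, `-{r r', n} = {n, r r'}`).
  Case `r'' = 0`, i.e. `n = r r'` (so `r, r' ≠ 0`): `f r = -q r`, `f r' = -q r'`;
  `{r, -q r} = {r, q}` (`{r, -r} = 0`), so the left side is `{r r', q} + {n, r r'} = {n, q} + {n, n}
  = {n, q} + {n, -1}` = right side.
  Case `r = 0`, `r' ≠ 0`: `q r'' = n`, `q = t - r'`, `r'' ≠ 0`; `f r'' = r'' (r'' - r')`,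
  `f r' = q (r'' - r')`.  Left: `{n, -1} + {r', f r'} + {n, -r'} = {r', q} + {r', r''-r'} + {n, r'}`
  (up to `2 {n,-1} = 0`).  Right: `{n, q} + {r'', r'' (r''-r')} + {n, -r''} =
  {n, -n} + {r'', r''} + {r'', r''-r'} = {r'', -1} + {r'', r''-r'}`, and
  `{r', r''-r'} - {r'', r''-r'} = {r', r''} - {r'', -1}` (as above).  The difference is
  `{r', q} + {r', r''} + {n, r'} - 2 {r'', -1} = {r', n} + {n, r'} = 0`.  Case `r' = 0`, `r ≠ 0`:
  symmetric.
  Case `r = r' = 0`: `q = t`, `r'' = n/t`, `f r'' = r''²`: right side `{n, t} + 2 {r'', r''} +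
  {n, -n/t} = {n, -n} = 0`; left side `2 {n, -1} = 0`.

* `GN_add'`: `t = r + r'`; then `f r = n - r r' = f r'`.  For `r, r' ≠ 0`: the left side is
  `{r r', n - r r'} + {n, r r'}`, and from `{r r'/n, (n - r r')/n} = 0`:
  `{r r', n - r r'} = {r r', n} + {n, n - r r'} - {n, n}`, so the left side is
  `{n, n - r r'} - {n, -1} = {n, r r' - n}`.  For `r = 0`, `r' ≠ 0` (`t = r'`, `f r' = n`): left side
  `{n,-1} + {r', n} + {n, -r'} = 2 {n, -1} = 0 = {n, -n}`.  For `r = r' = 0`: left side `2 {n,-1} = 0`.
-/

set_option autoImplicit false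

namespace Pool.Agent.MK

universe u

variable {F : Type u} [Field F]

open Classical in
/-- The norm of `{x, x - r}` for `x² - t x + n = 0`. -/
noncomputable def GN (t n r : F) : K2 F :=
  if r = 0 then S n (-1) else S r (r ^ 2 - t * r + n) + S n (-r)

private theorem GN_zero (t n : F) : GN t n 0 = S n (-1) := by
  rw [GN, if_pos rfl]

private theorem GN_ne (t n : F) {r : F} (hr : r ≠ 0) :
    GN t n r = S r (r ^ 2 - t * r + n) + S n (-r) := by
  rw [GN, if_neg hr]

private theorem two_S (a : F) : S a (-1) + S a (-1) = 0 := by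
  rw [← two_zsmul, two_S_neg_one_right]

/-- `{r, s - r} - {s, s - r} = {r, s} - {s, -1}` -/
private theorem S_bracket {r s : F} (hr : r ≠ 0) (hs : s ≠ 0) (hrs : s - r ≠ 0) :
    S r (s - r) - S s (s - r) = S r s - S s (-1) := by
  have h1 : S (r / s) ((s - r) / s) = 0 := S_of_add_eq_one (by field_simp; ring)
  rw [S_div_right hrs hs, S_div_left hr hs, S_div_left hr hs, S_self] at h1
  exact sub_eq_zero.1 h1

/-- the two terms of a decomposition `a + b = n` -/
private theorem S_split {a b n : F} (ha : a ≠ 0) (hb : b ≠ 0) (hn : n ≠ 0) (h : a + b = n) :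
    S a b - S n b - (S a n - S n (-1)) = 0 := by
  have h1 : S (a / n) (b / n) = 0 := S_of_add_eq_one (by rw [← add_div, h, div_self hn])
  rwa [S_div_right hb hn, S_div_left ha hn, S_div_left ha hn, S_self] at h1

private theorem GN_add_aux (q r r' s : F) (hq : q ≠ 0) (hn : q * s + r * r' ≠ 0)
    (hr : s - r ≠ 0) (hr' : s - r' ≠ 0) :
    GN (q + r + r') (q * s + r * r') r + GN (q + r + r') (q * s + r * r') r' =
      S (q * s + r * r') q + GN (q + r + r') (q * s + r * r') s := by
  have f1 : r ^ 2 - (q + r + r') * r + (q * s + r * r') = q * (s - r) := by ring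
  have f2 : r' ^ 2 - (q + r + r') * r' + (q * s + r * r') = q * (s - r') := by ring
  have f3 : s ^ 2 - (q + r + r') * s + (q * s + r * r') = (s - r) * (s - r') := by ring
  set n := q * s + r * r' with hnn
  set t := q + r + r' with ht
  have hN := two_S n
  by_cases h0 : r = 0
  · by_cases h0' : r' = 0
    · -- both zero
      have hs : s ≠ 0 := by
        intro h
        apply hn
        rw [hnn, h, h0]
        ring
      have e1 : n = q * s := by rw [hnn, h0]; ring
      rw [GN_ne t n hs, f3, h0, h0', GN_zero, sub_zero, S_mul_right hs hs, S_neg_right n s hs]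
      have h1 : S n n = S n q + S n s := by
        conv_lhs => rw [e1]
        rw [← e1, ← S_mul_right hq hs, ← e1]
      have h2 := S_self n
      have h3 := two_S s
      have h4 := S_self s
      rw [h4]
      linear_combination (norm := abel) hN + h1 - h2 - h3 - hN
    · have hs : s ≠ 0 := by
        intro h
        apply hn
        rw [hnn, h, h0]
        ring
      have e1 : n = q * s := by rw [hnn, h0]; ring
      rw [GN_ne t n hs, GN_ne t n h0', f3, f2, h0, GN_zero, sub_zero, S_mul_right hs hr',
        S_mul_right hq hr', S_neg_right n s hs, S_neg_right n r' h0']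
      have h1 : S n n = S n q + S n s := by
        conv_lhs => rw [e1]
        rw [← e1, ← S_mul_right hq hs, ← e1]
      have h2 := S_self n
      have h3 := two_S s
      have h4 := S_self s
      have h5 := S_bracket h0' hs hr'
      have h6 : S r' n = S r' q + S r' s := by rw [e1, S_mul_right hq hs]
      have h7 := S_comm r' n
      rw [h4]
      linear_combination (norm := abel) h5 - h6 + h7 + h1 - h2 - h3
  · by_cases h0' : r' = 0
    · have hs : s ≠ 0 := by
        intro h
        apply hn
        rw [hnn, h, h0']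
        ring
      have e1 : n = q * s := by rw [hnn, h0']; ring
      rw [GN_ne t n hs, GN_ne t n h0, f3, f1, h0', GN_zero, sub_zero, S_mul_right hr hs,
        S_mul_right hq hr, S_neg_right n s hs, S_neg_right n r h0]
      have h1 : S n n = S n q + S n s := by
        conv_lhs => rw [e1]
        rw [← e1, ← S_mul_right hq hs, ← e1]
      have h2 := S_self n
      have h3 := two_S s
      have h4 := S_self s
      have h5 := S_bracket h0 hs hr
      have h6 : S r n = S r q + S r s := by rw [e1, S_mul_right hq hs]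
      have h7 := S_comm r n
      rw [h4]
      linear_combination (norm := abel) h5 - h6 + h7 + h1 - h2 - h3
    · by_cases hs : s = 0
      · have e1 : n = r * r' := by rw [hnn, hs]; ring
        rw [GN_ne t n h0, GN_ne t n h0', f1, f2, hs, GN_zero, zero_sub, zero_sub,
          S_mul_right hq (neg_ne_zero.2 h0), S_mul_right hq (neg_ne_zero.2 h0'), S_neg_self,
          S_neg_self, S_neg_right n r h0, S_neg_right n r' h0']
        have h1 : S n n = S n r + S n r' := by
          conv_lhs => rw [e1]
          rw [← e1, ← S_mul_right h0 h0', ← e1]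
        have h2 := S_self n
        have h3 : S n q = S r q + S r' q := by rw [e1, S_mul_left h0 h0']
        linear_combination (norm := abel) hN - h1 + h2 - h3
      · rw [GN_ne t n h0, GN_ne t n h0', GN_ne t n hs, f1, f2, f3, S_mul_right hq hr,
          S_mul_right hq hr', S_mul_right hr hr', S_neg_right n r h0, S_neg_right n r' h0',
          S_neg_right n s hs]
        have h1 := S_split (mul_ne_zero h0 h0') (mul_ne_zero hq hs) hn
          (show r * r' + q * s = n by rw [hnn]; ring)
        rw [S_mul_left h0 h0', S_mul_left h0 h0', S_mul_right hq hs, S_mul_right hq hs,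
          S_mul_right hq hs] at h1
        have h2 := S_bracket h0 hs hr
        have h3 := S_bracket h0' hs hr'
        have h4 := two_S s
        have h5 := S_comm r n
        have h6 := S_comm r' n
        linear_combination (norm := abel) h1 + h2 + h3 - h4 + h5 + h6

theorem GN_add (t n : F) (hf : ∀ r : F, r ^ 2 - t * r + n ≠ 0) (r r' : F) (hq : t - r - r' ≠ 0) :
    GN t n r + GN t n r' = S n (t - r - r') + GN t n ((n - r * r') / (t - r - r')) := by
  set q := t - r - r' with hqq
  set s := (n - r * r') / q with hss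
  have e1 : q * s = n - r * r' := by
    rw [hss]
    field_simp
  have e2 : n = q * s + r * r' := by rw [e1]; ring
  have e3 : t = q + r + r' := by rw [hqq]; ring
  have hn : n ≠ 0 := by
    have := hf 0
    simpa using this
  have h1 := hf r
  have h2 := hf r'
  have f1 : r ^ 2 - t * r + n = q * (s - r) := by rw [e2, e3]; ring
  have f2 : r' ^ 2 - t * r' + n = q * (s - r') := by rw [e2, e3]; ring
  rw [f1] at h1
  rw [f2] at h2
  have h3 := GN_add_aux q r r' s hq (e2 ▸ hn) (right_ne_zero_of_mul h1) (right_ne_zero_of_mul h2)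
  rwa [← e2, ← e3] at h3

theorem GN_add' (t n : F) (hf : ∀ r : F, r ^ 2 - t * r + n ≠ 0) (r r' : F) (hq : t = r + r') :
    GN t n r + GN t n r' = S n (r * r' - n) := by
  have hn : n ≠ 0 := by
    have := hf 0
    simpa using this
  have f1 : r ^ 2 - t * r + n = n - r * r' := by rw [hq]; ring
  have f2 : r' ^ 2 - t * r' + n = n - r * r' := by rw [hq]; ring
  have hm : n - r * r' ≠ 0 := f1 ▸ hf r
  have hN := two_S n
  by_cases h0 : r = 0
  · by_cases h0' : r' = 0
    · rw [h0, h0', GN_zero, mul_zero, zero_sub, S_neg_self, hN]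
    · rw [GN_ne t n h0', f2, h0, GN_zero, zero_mul, sub_zero, zero_sub, S_neg_self,
        S_neg_right n r' h0']
      have h1 := S_comm r' n
      linear_combination (norm := abel) hN + h1
  · by_cases h0' : r' = 0
    · rw [GN_ne t n h0, f1, h0', GN_zero, mul_zero, sub_zero, zero_sub, S_neg_self,
        S_neg_right n r h0]
      have h1 := S_comm r n
      linear_combination (norm := abel) hN + h1
    · rw [GN_ne t n h0, GN_ne t n h0', f1, f2, show r * r' - n = -(n - r * r') by ring,
        S_neg_right n _ hm, S_neg_right n r h0, S_neg_right n r' h0']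
      have h1 := S_split (mul_ne_zero h0 h0') hm hn (show r * r' + (n - r * r') = n by ring)
      rw [S_mul_left h0 h0', S_mul_left h0 h0'] at h1
      have h2 := S_comm r n
      have h3 := S_comm r' n
      linear_combination (norm := abel) h1 + h2 + h3

end Pool.Agent.MK
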