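import Pool.Agent.MK.ValLem

/-! # Existence of places

`R` is a domain, `ι : R → K` an injective homomorphism to a field such that every element of `K` is
a quotient.

PROOFS.

* `exists_ofRing`: put `v (ι f / ι g) = v f - v g`, `ac (ι f / ι g) = ac f / ac g` for `f, g ≠ 0`
  (choose `f, g` by `hfrac`; the value does not depend on the choice because
  `ι f / ι g = ι f' / ι g'` iff `f g' = f' g`), and `v 0 = 0`, `ac 0 = 0`.  If `x + y = 1`,
  `x = ι f / ι g`, `y = ι f' / ι g'`, then `f g' + f' g = g g'`, and the axioms for `x, y` are the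
  hypotheses for `X = f g'`, `Y = f' g`, `Z = g g'`.

* `exists_prime`: for `r ≠ 0` let `n r` be the exact power of the prime `p` dividing `r` (`r = p ^ n * r'`,
  `p ∤ r'`; it exists by `WfDvdMonoid.max_power_factor` or `multiplicity`), `v r = n r`,
  `ac r = π r'`.  Additivity/multiplicativity are clear because `p` is prime and `R` is a domain
  (`n` and `r'` are unique).  For `x + y = z` (all nonzero): let `x = p^a x'`, `y = p^b y'`,
  `z = p^c z'`.  If `c < a` then `b = c` (otherwise `p` divides `z'` or `y'`) and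
  `y' = z' - p^(a-c) x'`, so `π y' = π z'`.  If `a = b = c`: `x' + y' = z'`.  If `a < c`: similarly
  `b = a` and `x' + y' = p^(c-a) z'`, `π x' + π y' = 0`.  Apply `exists_ofRing`.

* `exists_inf`: `R = L[X]`, `v P = -natDegree P`, `ac P = leadingCoeff P`; apply `exists_ofRing`.
  E.g. if `P + Q = T` and `v T < v P`, i.e. `natDegree P < natDegree T`: then `natDegree Q =
  natDegree T` and the leading coefficients agree, etc.
-/

set_option autoImplicit false

namespace Pool.Agent.MK

universe u v w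

open Polynomial

theorem exists_ofRing {R : Type u} {K : Type v} {k : Type w} [CommRing R] [IsDomain R] [Field K]
    [Field k] (ι : R →+* K) (hι : Function.Injective ι)
    (hfrac : ∀ x : K, ∃ f g : R, g ≠ 0 ∧ x = ι f / ι g) (v : R → ℤ) (ac : R → k)
    (hv : ∀ x y, x ≠ 0 → y ≠ 0 → v (x * y) = v x + v y)
    (hac : ∀ x y, x ≠ 0 → y ≠ 0 → ac (x * y) = ac x * ac y)
    (hac0 : ∀ x, x ≠ 0 → ac x ≠ 0) (hac1 : ac (-1) = -1)
    (hpos : ∀ x y z, x ≠ 0 → y ≠ 0 → z ≠ 0 → x + y = z → v z < v x → v y = v z ∧ ac y = ac z)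
    (hzero : ∀ x y z, x ≠ 0 → y ≠ 0 → z ≠ 0 → x + y = z → v x = v z → v y = v z →
      ac x + ac y = ac z)
    (hneg : ∀ x y z, x ≠ 0 → y ≠ 0 → z ≠ 0 → x + y = z → v x < v z → v y = v x ∧ ac y = - ac x) :
    ∃ w : Val K k, ∀ r, r ≠ 0 → w.v (ι r) = v r ∧ w.ac (ι r) = ac r := by
  classical
  choose f g hg hfg using hfrac
  have hι0 : ∀ r, r ≠ 0 → ι r ≠ 0 := fun r hr => (map_ne_zero_iff ι hι).2 hr
  set V : K → ℤ := fun x => if x = 0 then 0 else v (f x) - v (g x) with hV
  set C : K → k := fun x => if x = 0 then 0 else ac (f x) / ac (g x) with hC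
  have hf : ∀ x, x ≠ 0 → f x ≠ 0 := by
    intro x hx h0
    apply hx
    rw [hfg x, h0, map_zero, zero_div]
  have hVx : ∀ x, x ≠ 0 → V x = v (f x) - v (g x) := fun x hx => by simp only [hV, if_neg hx]
  have hCx : ∀ x, x ≠ 0 → C x = ac (f x) / ac (g x) := fun x hx => by simp only [hC, if_neg hx]
  have hv1 : v 1 = 0 := by
    have h := hv 1 1 one_ne_zero one_ne_zero
    rw [one_mul] at h
    omega
  have hac1' : ac 1 = 1 := by
    have h := hac 1 1 one_ne_zero one_ne_zero
    rw [one_mul] at h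
    exact (mul_eq_left₀ (hac0 1 one_ne_zero)).1 h.symm
  -- independence of the representation
  have rep : ∀ x, x ≠ 0 → ∀ F G : R, G ≠ 0 → x = ι F / ι G →
      V x = v F - v G ∧ C x = ac F / ac G := by
    intro x hx F G hG hxe
    have hF : F ≠ 0 := by
      intro h0
      apply hx
      rw [hxe, h0, map_zero, zero_div]
    have h1 : f x * G = F * g x := by
      apply hι
      rw [map_mul, map_mul]
      have h2 : ι (f x) / ι (g x) = ι F / ι G := by rw [← hfg x, ← hxe]
      rwa [div_eq_div_iff (hι0 _ (hg x)) (hι0 _ hG)] at h2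
    have h3 := congrArg v h1
    rw [hv _ _ (hf x hx) hG, hv _ _ hF (hg x)] at h3
    have h4 := congrArg ac h1
    rw [hac _ _ (hf x hx) hG, hac _ _ hF (hg x)] at h4
    refine ⟨?_, ?_⟩
    · rw [hVx x hx]
      omega
    · rw [hCx x hx, div_eq_div_iff (hac0 _ (hg x)) (hac0 _ hG)]
      exact h4
  -- sums
  have hsum : ∀ x y, x + y = 1 → f x * g y + f y * g x = g x * g y := by
    intro x y hxy
    apply hι
    rw [map_add, map_mul, map_mul, map_mul]
    have h1 := hι0 _ (hg x)
    have h2 := hι0 _ (hg y)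
    have h3 : ι (f x) / ι (g x) + ι (f y) / ι (g y) = 1 := by rw [← hfg x, ← hfg y, hxy]
    rw [div_add_div _ _ h1 h2, div_eq_one_iff_eq (mul_ne_zero h1 h2)] at h3
    rw [← h3]
    ring
  refine ⟨⟨V, C, ?_, ?_, ?_, ?_, ?_, ?_, ?_, ?_, ?_⟩, ?_⟩
  · simp only [hV, if_true]
  · simp only [hC, if_true]
  · intro x y hx hy
    have h := (rep (x * y) (mul_ne_zero hx hy) (f x * f y) (g x * g y)
      (mul_ne_zero (hg x) (hg y)) (by
        rw [map_mul, map_mul, mul_div_mul_comm, ← hfg x, ← hfg y])).1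
    rw [h, hv _ _ (hf x hx) (hf y hy), hv _ _ (hg x) (hg y), hVx x hx, hVx y hy]
    ring
  · intro x y hx hy
    have h := (rep (x * y) (mul_ne_zero hx hy) (f x * f y) (g x * g y)
      (mul_ne_zero (hg x) (hg y)) (by
        rw [map_mul, map_mul, mul_div_mul_comm, ← hfg x, ← hfg y])).2
    rw [h, hac _ _ (hf x hx) (hf y hy), hac _ _ (hg x) (hg y), hCx x hx, hCx y hy,
      mul_div_mul_comm]
  · intro x hx
    rw [hCx x hx]
    exact div_ne_zero (hac0 _ (hf x hx)) (hac0 _ (hg x))
  · have h := (rep (-1) (neg_ne_zero.2 one_ne_zero) (-1) 1 one_ne_zero (by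
      rw [map_neg, map_one, div_one])).2
    rw [h, hac1, hac1', div_one]
  · intro x y hx hy hxy hlt
    rw [hVx x hx] at hlt
    have hX := mul_ne_zero (hf x hx) (hg y)
    have hY := mul_ne_zero (hf y hy) (hg x)
    have hZ := mul_ne_zero (hg x) (hg y)
    obtain ⟨h1, h2⟩ := hpos _ _ _ hX hY hZ (hsum x y hxy) (by
      rw [hv _ _ (hg x) (hg y), hv _ _ (hf x hx) (hg y)]
      omega)
    rw [hv _ _ (hf y hy) (hg x), hv _ _ (hg x) (hg y)] at h1
    rw [hac _ _ (hf y hy) (hg x), hac _ _ (hg x) (hg y), mul_comm] at h2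
    have h3 := mul_left_cancel₀ (hac0 _ (hg x)) h2
    refine ⟨?_, ?_⟩
    · rw [hVx y hy]
      omega
    · rw [hCx y hy, h3, div_self (hac0 _ (hg y))]
  · intro x y hx hy hxy h0x h0y
    rw [hVx x hx] at h0x
    rw [hVx y hy] at h0y
    have hX := mul_ne_zero (hf x hx) (hg y)
    have hY := mul_ne_zero (hf y hy) (hg x)
    have hZ := mul_ne_zero (hg x) (hg y)
    have h1 := hzero _ _ _ hX hY hZ (hsum x y hxy) (by
      rw [hv _ _ (hg x) (hg y), hv _ _ (hf x hx) (hg y)]
      omega) (by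
      rw [hv _ _ (hg x) (hg y), hv _ _ (hf y hy) (hg x)]
      omega)
    rw [hac _ _ (hf x hx) (hg y), hac _ _ (hf y hy) (hg x), hac _ _ (hg x) (hg y)] at h1
    rw [hCx x hx, hCx y hy, div_add_div _ _ (hac0 _ (hg x)) (hac0 _ (hg y)),
      div_eq_one_iff_eq (mul_ne_zero (hac0 _ (hg x)) (hac0 _ (hg y))), ← h1]
    ring
  · intro x y hx hy hxy hlt
    rw [hVx x hx] at hlt
    have hX := mul_ne_zero (hf x hx) (hg y)
    have hY := mul_ne_zero (hf y hy) (hg x)
    have hZ := mul_ne_zero (hg x) (hg y)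
    obtain ⟨h1, h2⟩ := hneg _ _ _ hX hY hZ (hsum x y hxy) (by
      rw [hv _ _ (hg x) (hg y), hv _ _ (hf x hx) (hg y)]
      omega)
    rw [hv _ _ (hf y hy) (hg x), hv _ _ (hf x hx) (hg y)] at h1
    rw [hac _ _ (hf y hy) (hg x), hac _ _ (hf x hx) (hg y)] at h2
    refine ⟨?_, ?_⟩
    · rw [hVx y hy, hVx x hx]
      omega
    · rw [hCx y hy, hCx x hx, ← neg_div, div_eq_div_iff (hac0 _ (hg y)) (hac0 _ (hg x)), h2]
      ring
  · intro r hr
    have h := rep (ι r) (hι0 r hr) r 1 one_ne_zero (by rw [map_one, div_one])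
    refine ⟨?_, ?_⟩
    · change V (ι r) = _
      rw [h.1, hv1, sub_zero]
    · change C (ι r) = _
      rw [h.2, hac1', div_one]

/-- uniqueness of the exact power of a prime -/
private theorem ve_uniq {R : Type u} [CommRing R] [IsDomain R] {p : R} (hp : Prime p) {a b : ℕ}
    {c d : R} (hc : ¬ p ∣ c) (hd : ¬ p ∣ d) (h : p ^ a * c = p ^ b * d) : a = b ∧ c = d := by
  have key : ∀ {a b : ℕ} {c d : R}, ¬ p ∣ c → p ^ a * c = p ^ b * d → ¬ a < b := by
    intro a b c d hc h hlt
    obtain ⟨t, rfl⟩ := Nat.exists_eq_add_of_lt hlt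
    rw [pow_add, pow_add, mul_assoc, mul_assoc] at h
    have h1 := mul_left_cancel₀ (pow_ne_zero a hp.ne_zero) h
    apply hc
    rw [h1, pow_one, mul_left_comm]
    exact dvd_mul_right _ _
  have hab : a = b := by
    rcases lt_trichotomy a b with h1 | h1 | h1
    · exact absurd h1 (key hc h)
    · exact h1
    · exact absurd h1 (key hd h.symm)
  subst hab
  exact ⟨rfl, mul_left_cancel₀ (pow_ne_zero a hp.ne_zero) h⟩

theorem exists_prime {R : Type u} {K : Type v} {k : Type w} [CommRing R] [IsDomain R]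
    [WfDvdMonoid R] [Field K] [Field k] (ι : R →+* K) (hι : Function.Injective ι)
    (hfrac : ∀ x : K, ∃ f g : R, g ≠ 0 ∧ x = ι f / ι g) (p : R) (hp : Prime p) (π : R →+* k)
    (hπ : ∀ r, π r = 0 ↔ p ∣ r) :
    ∃ w : Val K k, w.v (ι p) = 1 ∧ w.ac (ι p) = 1 ∧ (∀ r, r ≠ 0 → 0 ≤ w.v (ι r)) ∧
      ∀ r, ¬ p ∣ r → w.v (ι r) = 0 ∧ w.ac (ι r) = π r := by
  have hex : ∀ r : R, ∃ (n : ℕ) (c : R), r ≠ 0 → ¬ p ∣ c ∧ r = p ^ n * c := by
    intro r
    by_cases hr : r = 0
    · exact ⟨0, 0, fun h => absurd hr h⟩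
    · obtain ⟨n, c, h1, h2⟩ := WfDvdMonoid.max_power_factor hr hp.irreducible
      exact ⟨n, c, fun _ => ⟨h1, h2⟩⟩
  choose n c hnc using hex
  have huniq : ∀ (r : R) (m : ℕ) (d : R), ¬ p ∣ d → r = p ^ m * d → n r = m ∧ c r = d := by
    intro r m d hd hr
    have hr0 : r ≠ 0 := by
      rw [hr]
      refine mul_ne_zero (pow_ne_zero m hp.ne_zero) ?_
      rintro rfl
      exact hd (dvd_zero p)
    obtain ⟨h1, h2⟩ := hnc r hr0
    exact ve_uniq hp h1 hd (h2.symm.trans hr)
  have hπp : ∀ (t : ℕ) (d : R), 0 < t → π (p ^ t * d) = 0 := by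
    intro t d ht
    rw [hπ]
    exact (dvd_pow_self p ht.ne').mul_right d
  have hp1 : ¬ p ∣ (1 : R) := fun h => hp.not_isUnit (isUnit_of_dvd_one h)
  obtain ⟨w, hw⟩ := exists_ofRing ι hι hfrac (fun r => (n r : ℤ)) (fun r => π (c r))
    (by
      intro x y hx hy
      obtain ⟨h1, h2⟩ := hnc x hx
      obtain ⟨h3, h4⟩ := hnc y hy
      have h5 := huniq (x * y) (n x + n y) (c x * c y)
        (fun h => (hp.dvd_or_dvd h).elim h1 h3) (by
          conv_lhs => rw [h2, h4]
          ring)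
      simp only [h5.1]
      push_cast
      ring)
    (by
      intro x y hx hy
      obtain ⟨h1, h2⟩ := hnc x hx
      obtain ⟨h3, h4⟩ := hnc y hy
      have h5 := huniq (x * y) (n x + n y) (c x * c y)
        (fun h => (hp.dvd_or_dvd h).elim h1 h3) (by
          conv_lhs => rw [h2, h4]
          ring)
      simp only [h5.2, map_mul])
    (by
      intro x hx h0
      exact (hnc x hx).1 ((hπ _).1 h0))
    (by
      have h5 := huniq (-1) 0 (-1) (fun h => hp1 ((dvd_neg).1 h)) (by ring)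
      simp only [h5.2, map_neg, map_one])
    (by
      intro x y z hx hy hz hxyz hlt
      simp only [Nat.cast_lt] at hlt
      obtain ⟨h1, h2⟩ := hnc x hx
      obtain ⟨h3, h4⟩ := hnc z hz
      obtain ⟨t, ht⟩ := Nat.exists_eq_add_of_lt hlt
      have h6 : π (p ^ (t + 1) * c x) = 0 := hπp _ _ (by omega)
      have h5 := huniq y (n z) (c z - p ^ (t + 1) * c x) (by
        intro h
        rw [← hπ, map_sub, h6, sub_zero, hπ] at h
        exact h3 h) (by
        have : y = z - x := by rw [← hxyz]; ring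
        rw [this]
        conv_lhs => rw [h4, h2, ht]
        ring)
      simp only [h5.1, h5.2, map_sub, h6, sub_zero, and_self])
    (by
      intro x y z hx hy hz hxyz h0x h0y
      simp only [Nat.cast_inj] at h0x h0y
      obtain ⟨h1, h2⟩ := hnc x hx
      obtain ⟨h3, h4⟩ := hnc z hz
      obtain ⟨h5, h6⟩ := hnc y hy
      have h7 : c x + c y = c z := by
        apply mul_left_cancel₀ (pow_ne_zero (n z) hp.ne_zero)
        rw [h0x] at h2
        rw [h0y] at h6
        rw [mul_add, ← h2, ← h6, ← h4, hxyz]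
      simp only [← h7, map_add])
    (by
      intro x y z hx hy hz hxyz hlt
      simp only [Nat.cast_lt] at hlt
      obtain ⟨h1, h2⟩ := hnc x hx
      obtain ⟨h3, h4⟩ := hnc z hz
      obtain ⟨t, ht⟩ := Nat.exists_eq_add_of_lt hlt
      have h6 : π (p ^ (t + 1) * c z) = 0 := hπp _ _ (by omega)
      have h5 := huniq y (n x) (p ^ (t + 1) * c z - c x) (by
        intro h
        rw [← hπ, map_sub, h6, zero_sub, neg_eq_zero, hπ] at h
        exact h1 h) (by
        have : y = z - x := by rw [← hxyz]; ring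
        rw [this]
        conv_lhs => rw [h4, h2, ht]
        ring)
      simp only [h5.1, h5.2, map_sub, h6, zero_sub, and_self])
  have hpp := huniq p 1 1 hp1 (by ring)
  refine ⟨w, ?_, ?_, ?_, ?_⟩
  · rw [(hw p hp.ne_zero).1, hpp.1]
    rfl
  · rw [(hw p hp.ne_zero).2, hpp.2, map_one]
  · intro r hr
    rw [(hw r hr).1]
    positivity
  · intro r hr
    have hr0 : r ≠ 0 := by
      rintro rfl
      exact hr (dvd_zero p)
    have h5 := huniq r 0 r hr (by ring)
    refine ⟨?_, ?_⟩
    · rw [(hw r hr0).1, h5.1]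
      rfl
    · rw [(hw r hr0).2, h5.2]

theorem exists_inf (L : Type u) [Field L] :
    ∃ w : Val (RatFunc L) L, ∀ P : L[X], P ≠ 0 →
      w.v (algebraMap L[X] (RatFunc L) P) = -(P.natDegree : ℤ) ∧
      w.ac (algebraMap L[X] (RatFunc L) P) = P.leadingCoeff := by
  refine exists_ofRing (algebraMap L[X] (RatFunc L)) (RatFunc.algebraMap_injective L) ?_
    (fun P => -(P.natDegree : ℤ)) (fun P => P.leadingCoeff) ?_ ?_ ?_ ?_ ?_ ?_ ?_
  · intro x
    exact ⟨x.num, x.denom, x.denom_ne_zero, (RatFunc.num_div_denom x).symm⟩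
  · intro x y hx hy
    simp only [Polynomial.natDegree_mul hx hy]
    push_cast
    ring
  · intro x y _ _
    exact Polynomial.leadingCoeff_mul x y
  · intro x hx
    exact Polynomial.leadingCoeff_ne_zero.2 hx
  · simp
  · intro x y z hx hy hz hxyz hlt
    have hlt' : x.natDegree < z.natDegree := by
      omega
    have hy' : y = z - x := by rw [← hxyz]; ring
    rw [hy']
    refine ⟨?_, ?_⟩
    · simp only [Polynomial.natDegree_sub_eq_left_of_natDegree_lt hlt']
    · exact Polynomial.leadingCoeff_sub_of_degree_lt (Polynomial.degree_lt_degree hlt')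
  · intro x y z hx hy hz hxyz h0x h0y
    have h1 : x.natDegree = z.natDegree := by
      omega
    have h2 : y.natDegree = z.natDegree := by
      omega
    simp only [Polynomial.leadingCoeff, h1, h2, ← Polynomial.coeff_add, hxyz]
  · intro x y z hx hy hz hxyz hlt
    have hlt' : z.natDegree < x.natDegree := by
      omega
    have hy' : y = z - x := by rw [← hxyz]; ring
    rw [hy']
    refine ⟨?_, ?_⟩
    · simp only [Polynomial.natDegree_sub_eq_right_of_natDegree_lt hlt']
    · exact Polynomial.leadingCoeff_sub_of_degree_lt' (Polynomial.degree_lt_degree hlt')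

end Pool.Agent.MK
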