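import Pool.Agent.MK.FiltB
import Pool.Agent.MK.ValEx

/-! # The projective line: unramified elements of `K₂(L(z))` are constant

Definitions: `vInf L` is the place `z = ∞` of `L(z)`, `vPt c` is the place `z = c` for `c` in the
algebraic closure of `L` (residues in the algebraic closure).

PROOFS.

* `ratFunc_frac`: `RatFunc.num_div_denom`. `ratFunc_inj`: `IsFractionRing.injective`.

* `vInf_C`, `vPt_C`, ... : from the characterizations for polynomials.  `vPt_poly_nonneg`: from the
  construction.  `vPt_poly`: `P(c) ≠ 0` iff `minpoly L c ∤ P` (`minpoly.dvd_iff`).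

* `hex_poly`: let `p` be a prime polynomial of degree `n ≥ 1`, `x, y` prime to `p`.  Take `h = 1`,
  `g = y % p`, `f = (x * g) % p` (`EuclideanDomain.mod`); all nonzero of degree `< n`
  (`Polynomial.natDegree_mod_lt`); `p ∣ g - y`, `p ∣ f - x g`.

* `placeAt_poly`: a prime polynomial `P` has a root `c` in the algebraic closure
  (`IsAlgClosed.exists_aeval_eq_zero`), and is associated to `minpoly L c`.  So `v P = v (minpoly) = 1`
  (`v` vanishes on units: constants), and for `P ∤ r`: `minpoly ∤ r`, `v r = 0`, `ac r = r(c)`;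
  if `f(c) = g(c)` then `minpoly ∣ f - g`.

* `unram_const`: by `filt_main` with `n₀ = 1`: `m ∈ Ml 1`, and `Ml 1` is generated by the `{C a, C b}`
  (elements of degree `< 1` are constants), so it is contained in the range of `K2.map C`.

* `mapC_inj`: `(vInf L).spec (K2.map C x) = x` for all `x` (check on symbols: `vInf_C`).

* `finite_support`: by `K2_induction`: for a symbol `{x, y}` write `x = f/g`, `y = f'/g'` and take
  `Π = f g f' g'`; if `Π(c) ≠ 0` then `x, y` have valuation `0` at `c` (`Val.tame_S_units`).  For a sum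
  take the product of the two polynomials.
-/

set_option autoImplicit false

namespace Pool.Agent.MK

universe u v w

open Polynomial

variable (L : Type u) [Field L]

/-- The place `z = ∞` of `L(z)`. -/
noncomputable def vInf : Val (RatFunc L) L := (exists_inf L).choose

theorem vInf_poly {P : L[X]} (hP : P ≠ 0) :
    (vInf L).v (algebraMap L[X] (RatFunc L) P) = -(P.natDegree : ℤ) ∧
      (vInf L).ac (algebraMap L[X] (RatFunc L) P) = P.leadingCoeff :=
  (exists_inf L).choose_spec P hP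

theorem ratFunc_inj : Function.Injective (algebraMap L[X] (RatFunc L)) :=
  RatFunc.algebraMap_injective L

theorem ratFunc_frac (x : RatFunc L) : ∃ f g : L[X], g ≠ 0 ∧
    x = algebraMap L[X] (RatFunc L) f / algebraMap L[X] (RatFunc L) g :=
  ⟨x.num, x.denom, x.denom_ne_zero, (RatFunc.num_div_denom x).symm⟩

variable {L}

theorem minpoly_prime (c : AlgebraicClosure L) : Prime (minpoly L c) :=
  minpoly.prime (Algebra.IsIntegral.isIntegral c)

theorem aeval_eq_zero_iff (c : AlgebraicClosure L) (r : L[X]) :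
    (aeval c : L[X] →ₐ[L] AlgebraicClosure L).toRingHom r = 0 ↔ minpoly L c ∣ r := by
  rw [minpoly.dvd_iff]
  rfl

/-- The place `z = c` of `L(z)`, for `c` in the algebraic closure of `L`. -/
noncomputable def vPt (c : AlgebraicClosure L) : Val (RatFunc L) (AlgebraicClosure L) :=
  (exists_prime (algebraMap L[X] (RatFunc L)) (ratFunc_inj L) (ratFunc_frac L) (minpoly L c)
    (minpoly_prime c) (aeval c : L[X] →ₐ[L] AlgebraicClosure L).toRingHom
    (aeval_eq_zero_iff c)).choose

theorem vPt_spec (c : AlgebraicClosure L) :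
    (vPt c).v (algebraMap L[X] (RatFunc L) (minpoly L c)) = 1 ∧
    (vPt c).ac (algebraMap L[X] (RatFunc L) (minpoly L c)) = 1 ∧
    (∀ r : L[X], r ≠ 0 → 0 ≤ (vPt c).v (algebraMap L[X] (RatFunc L) r)) ∧
    ∀ r : L[X], ¬ minpoly L c ∣ r → (vPt c).v (algebraMap L[X] (RatFunc L) r) = 0 ∧
      (vPt c).ac (algebraMap L[X] (RatFunc L) r) = aeval c r :=
  (exists_prime (algebraMap L[X] (RatFunc L)) (ratFunc_inj L) (ratFunc_frac L) (minpoly L c)
    (minpoly_prime c) (aeval c : L[X] →ₐ[L] AlgebraicClosure L).toRingHom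
    (aeval_eq_zero_iff c)).choose_spec

theorem vPt_nonneg (c : AlgebraicClosure L) (r : L[X]) :
    0 ≤ (vPt c).v (algebraMap L[X] (RatFunc L) r) := by
  by_cases hr : r = 0
  · rw [hr, map_zero, (vPt c).v_zero]
  · exact (vPt_spec c).2.2.1 r hr

/-- The residue of a polynomial at `c` is its value at `c`. -/
theorem vPt_res (c : AlgebraicClosure L) (r : L[X]) :
    (vPt c).res (algebraMap L[X] (RatFunc L) r) = aeval c r := by
  by_cases hr : r = 0
  · rw [hr, map_zero, map_zero, Val.res_zero]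
  by_cases hd : minpoly L c ∣ r
  · have h1 : aeval c r = 0 := (minpoly.dvd_iff).1 hd
    obtain ⟨t, ht⟩ := hd
    have hm : minpoly L c ≠ 0 := (minpoly_prime c).ne_zero
    have ht0 : t ≠ 0 := by
      rintro rfl
      exact hr (by rw [ht, mul_zero])
    have h2 : 0 < (vPt c).v (algebraMap L[X] (RatFunc L) r) := by
      rw [ht, map_mul, (vPt c).v_mul _ _ ((map_ne_zero_iff _ (ratFunc_inj L)).2 hm)
        ((map_ne_zero_iff _ (ratFunc_inj L)).2 ht0), (vPt_spec c).1]
      have := vPt_nonneg c t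
      omega
    rw [Val.res_of_pos _ h2, h1]
  · obtain ⟨h1, h2⟩ := (vPt_spec c).2.2.2 r hd
    rw [Val.res_of_v_eq _ h1, h2]

theorem vPt_v_eq_zero (c : AlgebraicClosure L) {r : L[X]} (h : aeval c r ≠ 0) :
    (vPt c).v (algebraMap L[X] (RatFunc L) r) = 0 ∧
      (vPt c).ac (algebraMap L[X] (RatFunc L) r) = aeval c r :=
  (vPt_spec c).2.2.2 r fun hd => h ((minpoly.dvd_iff).1 hd)

theorem vPt_C (c : AlgebraicClosure L) (d : L) :
    (vPt c).v (RatFunc.C d) = 0 ∧ (vPt c).ac (RatFunc.C d) = algebraMap L _ d := by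
  by_cases hd : d = 0
  · rw [hd, map_zero, map_zero]
    exact ⟨(vPt c).v_zero, (vPt c).ac_zero⟩
  · have h1 : aeval c (C d : L[X]) = algebraMap L _ d := aeval_C c d
    have h2 : aeval c (C d : L[X]) ≠ 0 := by
      rw [h1]
      exact (_root_.map_ne_zero _).2 hd
    obtain ⟨h3, h4⟩ := vPt_v_eq_zero c h2
    rw [h1] at h4
    rw [← RatFunc.algebraMap_C]
    exact ⟨h3, h4⟩

theorem vInf_C (d : L) : (vInf L).v (RatFunc.C d) = 0 ∧ (vInf L).ac (RatFunc.C d) = d := by
  by_cases hd : d = 0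
  · rw [hd, map_zero]
    exact ⟨(vInf L).v_zero, (vInf L).ac_zero⟩
  · obtain ⟨h1, h2⟩ := vInf_poly L (C_ne_zero.2 hd)
    rw [natDegree_C] at h1
    rw [leadingCoeff_C] at h2
    rw [← RatFunc.algebraMap_C]
    refine ⟨?_, h2⟩
    rw [h1]
    simp

theorem vInf_X : (vInf L).v RatFunc.X = -1 ∧ (vInf L).ac RatFunc.X = 1 := by
  obtain ⟨h1, h2⟩ := vInf_poly L (X_ne_zero (R := L))
  rw [natDegree_X] at h1
  rw [leadingCoeff_X] at h2
  rw [← RatFunc.algebraMap_X]
  refine ⟨?_, h2⟩
  rw [h1]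
  simp

theorem vPt_X {c : AlgebraicClosure L} (hc : c ≠ 0) :
    (vPt c).v RatFunc.X = 0 ∧ (vPt c).ac RatFunc.X = c := by
  have h1 : aeval c (X : L[X]) = c := aeval_X c
  obtain ⟨h3, h4⟩ := vPt_v_eq_zero c (r := X) (by rw [h1]; exact hc)
  rw [h1] at h4
  rw [← RatFunc.algebraMap_X]
  exact ⟨h3, h4⟩

theorem vPt_X_zero : (vPt (0 : AlgebraicClosure L)).v RatFunc.X = 1 ∧
    (vPt (0 : AlgebraicClosure L)).ac RatFunc.X = 1 := by
  have h := vPt_spec (0 : AlgebraicClosure L)
  rw [minpoly.zero] at h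
  rw [← RatFunc.algebraMap_X]
  exact ⟨h.1, h.2.1⟩

/-- The degree of polynomials. -/
noncomputable def degPoly (L : Type u) [Field L] : Deg L[X] where
  deg := natDegree
  mul _ _ hf hg := natDegree_mul hf hg
  sub _ _ _ _ _ := natDegree_sub_le _ _
  unit f hf h := by
    rw [eq_C_of_natDegree_eq_zero h] at hf ⊢
    exact isUnit_C.mpr (isUnit_iff_ne_zero.mpr fun h0 => hf (by rw [h0, map_zero]))

theorem hex_poly {n : ℕ} (hn : 1 ≤ n) (p : L[X]) (hp : Prime p) (hpn : (degPoly L).deg p = n) :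
    Hex (degPoly L) n p := by
  have hpn' : p.natDegree = n := hpn
  have hp0 : p.natDegree ≠ 0 := by omega
  intro x y hx hy
  have hdvd : ∀ u : L[X], p ∣ u % p - u := by
    intro u
    refine ⟨-(u / p), ?_⟩
    have h := EuclideanDomain.mod_add_div u p
    linear_combination h
  have hg : ¬ p ∣ y % p := by
    intro h
    have h2 := dvd_sub h (hdvd y)
    rw [sub_sub_cancel] at h2
    exact hy h2
  have hf : ¬ p ∣ (x * (y % p)) % p := by
    intro h
    have h2 := dvd_sub h (hdvd (x * (y % p)))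
    rw [sub_sub_cancel] at h2
    rcases hp.dvd_or_dvd h2 with h3 | h3
    · exact hx h3
    · exact hg h3
  refine ⟨(x * (y % p)) % p, y % p, 1, ?_, ?_, one_ne_zero, ?_, ?_, ?_, ?_, ?_⟩
  · intro h
    exact hf (by rw [h]; exact dvd_zero p)
  · intro h
    exact hg (by rw [h]; exact dvd_zero p)
  · rw [← hpn']
    exact natDegree_mod_lt _ hp0
  · rw [← hpn']
    exact natDegree_mod_lt _ hp0
  · show natDegree (1 : L[X]) < n
    rw [natDegree_one]
    omega
  · exact hdvd _
  · rw [mul_one]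
    exact hdvd _

theorem placeAt_poly (p : L[X]) (hp : Prime p) : ∃ c : AlgebraicClosure L,
    PlaceAt (algebraMap L[X] (RatFunc L)) p (vPt c) := by
  have hdeg : p.degree ≠ 0 := (degree_pos_of_irreducible hp.irreducible).ne'
  obtain ⟨c, hc⟩ := IsAlgClosed.exists_aeval_eq_zero (AlgebraicClosure L) p hdeg
  have hd : minpoly L c ∣ p := (minpoly.dvd_iff).2 hc
  have hass : Associated (minpoly L c) p := (minpoly_prime c).associated_of_dvd hp hd
  obtain ⟨u, hu⟩ := hass
  have hm0 : minpoly L c ≠ 0 := (minpoly_prime c).ne_zero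
  have hiff : ∀ r : L[X], p ∣ r ↔ minpoly L c ∣ r := fun r => by
    rw [← hu]
    exact Units.mul_right_dvd
  refine ⟨c, ?_, ?_, ?_⟩
  · have hnu : ¬ minpoly L c ∣ (u : L[X]) := fun h =>
      (minpoly_prime c).not_isUnit (isUnit_of_dvd_unit h u.isUnit)
    rw [← hu, map_mul, (vPt c).v_mul _ _ ((map_ne_zero_iff _ (ratFunc_inj L)).2 hm0)
      ((map_ne_zero_iff _ (ratFunc_inj L)).2 u.ne_zero), (vPt_spec c).1,
      ((vPt_spec c).2.2.2 _ hnu).1]
    norm_num
  · intro r hr
    exact ((vPt_spec c).2.2.2 r fun h => hr ((hiff r).2 h)).1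
  · intro f g hf hg h
    rw [((vPt_spec c).2.2.2 f fun h => hf ((hiff f).2 h)).2,
      ((vPt_spec c).2.2.2 g fun h => hg ((hiff g).2 h)).2] at h
    rw [hiff, minpoly.dvd_iff, map_sub, h, sub_self]

/-- Elements of `K₂(L(z))` without residues at finite places are constant. -/
theorem unram_const (m : K2 (RatFunc L)) (h : ∀ c : AlgebraicClosure L, (vPt c).tame m = 0) :
    ∃ κ : K2 L, K2.map (RatFunc.C : L →+* RatFunc L) κ = m := by
  have h1 : m ∈ Ml (algebraMap L[X] (RatFunc L)) (degPoly L) 1 :=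
    filt_main (ratFunc_inj L) (ratFunc_frac L) le_rfl
      (fun n hn p hp hpn => hex_poly hn p hp hpn) m (AlgebraicClosure L)
      (fun p hp _ => by
        obtain ⟨c, hc⟩ := placeAt_poly p hp
        exact ⟨vPt c, hc, h c⟩)
  have h2 : Ml (algebraMap L[X] (RatFunc L)) (degPoly L) 1 ≤
      (K2.map (RatFunc.C : L →+* RatFunc L)).range := by
    unfold Ml
    rw [AddSubgroup.closure_le]
    rintro _ ⟨f, g, -, -, hf, hg, rfl⟩
    have hf' : f.natDegree = 0 := Nat.lt_one_iff.1 hf
    have hg' : g.natDegree = 0 := Nat.lt_one_iff.1 hg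
    refine ⟨S (f.coeff 0) (g.coeff 0), ?_⟩
    rw [K2.map_S, ← RatFunc.algebraMap_C, ← RatFunc.algebraMap_C,
      ← eq_C_of_natDegree_eq_zero hf', ← eq_C_of_natDegree_eq_zero hg']
  obtain ⟨κ, hκ⟩ := h2 h1
  exact ⟨κ, hκ⟩

theorem mapC_inj : Function.Injective (K2.map (RatFunc.C : L →+* RatFunc L)) := by
  have h : ∀ x : K2 L, (vInf L).spec (K2.map (RatFunc.C : L →+* RatFunc L) x) = x := by
    intro x
    induction x using K2_induction with
    | hS a b ha hb => rw [K2.map_S, Val.spec_S, (vInf_C a).2, (vInf_C b).2]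
    | hz => rw [map_zero, map_zero]
    | hadd x y hx hy => rw [map_add, map_add, hx, hy]
  intro x y hxy
  rw [← h x, ← h y, hxy]

theorem finite_support (m : K2 (RatFunc L)) : ∃ P : L[X], P ≠ 0 ∧
    ∀ c : AlgebraicClosure L, aeval c P ≠ 0 → (vPt c).tame m = 0 := by
  induction m using K2_induction with
  | hS a b ha hb =>
    obtain ⟨f, g, hg, rfl⟩ := ratFunc_frac L a
    obtain ⟨f', g', hg', rfl⟩ := ratFunc_frac L b
    have hf : f ≠ 0 := by
      rintro rfl
      exact ha (by rw [map_zero, zero_div])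
    have hf' : f' ≠ 0 := by
      rintro rfl
      exact hb (by rw [map_zero, zero_div])
    refine ⟨f * g * (f' * g'), mul_ne_zero (mul_ne_zero hf hg) (mul_ne_zero hf' hg'), ?_⟩
    intro c hc
    rw [map_mul, map_mul, map_mul] at hc
    have h1 := left_ne_zero_of_mul hc
    have h2 := right_ne_zero_of_mul hc
    have e1 := (vPt_v_eq_zero c (left_ne_zero_of_mul h1)).1
    have e2 := (vPt_v_eq_zero c (right_ne_zero_of_mul h1)).1
    have e3 := (vPt_v_eq_zero c (left_ne_zero_of_mul h2)).1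
    have e4 := (vPt_v_eq_zero c (right_ne_zero_of_mul h2)).1
    have n1 := (map_ne_zero_iff _ (ratFunc_inj L)).2 hf
    have n2 := (map_ne_zero_iff _ (ratFunc_inj L)).2 hg
    have n3 := (map_ne_zero_iff _ (ratFunc_inj L)).2 hf'
    have n4 := (map_ne_zero_iff _ (ratFunc_inj L)).2 hg'
    refine Val.tame_S_units _ ?_ ?_
    · rw [(vPt c).v_div n1 n2, e1, e2, sub_self]
    · rw [(vPt c).v_div n3 n4, e3, e4, sub_self]
  | hz => exact ⟨1, one_ne_zero, fun c _ => map_zero _⟩
  | hadd x y hx hy =>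
    obtain ⟨P, hP, h1⟩ := hx
    obtain ⟨Q, hQ, h2⟩ := hy
    refine ⟨P * Q, mul_ne_zero hP hQ, fun c hc => ?_⟩
    rw [map_mul] at hc
    rw [map_add, h1 c (left_ne_zero_of_mul hc), h2 c (right_ne_zero_of_mul hc), add_zero]

end Pool.Agent.MK
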