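import Pool.Agent.MK.APl

/-! # The symbols `T(u, v)` and their residues

PROOFS.  `w = vPt c`, `c ≠ 0`.  All `l e` have `w.v (l e) ≥ 0` (`laur_nonneg`, `l_mem`).
* `prime_lA`: `lA u` has degree 1 (`dg_lA`), so it is irreducible (`degA.mul`, `degA.unit`), hence prime.
* `v_l_pos`: if `0 < w.v (l u)` then `u.q ≠ 0` (otherwise `l u` is a constant, `l_ofL`), and `w.v (l u) = 1` by
  `placeA`.
* `commute_of_pos`: `lA u`, `lA e` are primes, both positive at `c`, so `lA u ∣ lA e` (`dvd_iff_pt`) and the quotient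
  has degree 0: `l e = k * l u`, `k ∈ F`, so `l (e - k u) = 0` and `e = k u + k'` (`l_eq_zero`).
* `res_mul_left`: at a point with `w.v (l u) > 0`: `w.res (l (u e)) = w.res (rho (conj u)) * w.res (l e)`: by `l_conj`:
  `l (u e) = -l (conj e * conj u) = -(rho (conj u) * l (conj e) + bb (conj e) * l (conj u))`
  `= rho (conj u) * l e + bb (conj e) * l u`.
* `res_mul_right`: `w.res (l (e u)) = w.res (rho u) * w.res (l e)` (`l_mul`).
* `res_rho`: `w.res (rho u) * w.res (rho (conj u)) = nrd u` (`rho_conj`).  So `w.v (rho u) = 0` if `u ≠ 0`.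
* `T_pt`: write `x = l u / l (u v)`, `y = nrd u * l v / l (u v)` (in `L(z)`), `T = {x, y}`.
  By `commute_of_pos` at most one of `l u`, `l v`, `l (u v)` is positive at `c`.
  If none: `x, y` are units, all terms vanish.
  If `l u`: `w.v x = 1`, `w.v y = 0`, tame `= A y`, and `w.ac y = nrd u * l v / l(u v) = nrd u / rho(conj u) = rho u`
  at `c`.
  If `l v`: `w.v x = 0`, `w.v y = 1`, tame `= -A x = A (l (u v) / l u)`, residue `rho v` (`res_mul_right`).
  If `l (u v)`: `w.v x = w.v y = -1`, tame `= m1 - A y + A x = A (-l u / (nrd u * l v))`; and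
  `nrd u * l v = l (conj u * (u v)) = rho (u v) * l (conj u) = -rho (u v) * l u` at `c` (`l_mul`, `l_sc_mul`,
  `Qt.conj_mul`), so tame `= -A (rho (u v))`.
* `T_inf`: `v = (vInf L).v`: `v (l e) = -1`, `ac = s(e.q)/(2α)` if `e.q ≠ 0` (`v_l`), and `l e = C (im e.p)` if `e.q = 0`
  (nonzero if `e ∉ F`).  As `u, v` do not commute at most one of `u, v, u v` is in `L` (`q = 0`).
  None: `x, y` units.  `u.q = 0`: `(u v).q = u.p v.q`; `v x = 1`, `v y = 0`,
  `ac y = nrd u * s(v.q) / s(u.p v.q) = u.p` (`nrd u = u.p s(u.p)`).  `v.q = 0`: `(u v).q = u.q s(v.p)`;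
  `v x = 0`, `ac x = s(u.q)/s(u.q s(v.p)) = 1/v.p`, `v y = 1`: tame `= -A x = A (v.p)`.  `(u v).q = 0`, `e = (u v).p`:
  `v x = v y = -1`, tame `= m1 - A y + A x`, value `-s(u.q) / (nrd u * s(v.q))`; from `v = u⁻¹ e = conj u * e / nrd u`:
  `v.q = -u.q s(e)/nrd u`, so the value is `1/e`.
* `lam_inv`: `l e⁻¹ = -l e / nrd e`, and if `w.v (l e) > 0`: `rho e⁻¹ = rho (conj e) / nrd e`, and
  `rho e * rho (conj e) = nrd e` at `c`.  `lamInf_inv`: clear.
-/

set_option autoImplicit false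
set_option linter.unusedSectionVars false

namespace Pool.Agent.MK

universe u v w

open scoped Polynomial

namespace CQ

variable {F L : Type u} [Field F] [Field L] [Algebra F L] (C : CQ F L)

open Classical in
/-- The contribution of a quaternion at the point `c`. -/
noncomputable def lam (c : AlgebraicClosure L) (e : Qt C) : Additive (AlgebraicClosure L)ˣ :=
  if 0 < (vPt c).v (C.l e) then (vPt c).A (C.rho e) else 0

open Classical in
/-- The contribution of a quaternion at infinity. -/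
noncomputable def lamInf (e : Qt C) : Additive Lˣ :=
  if e.q = 0 then (vInf L).A (RatFunc.C e.p) else 0

/-- The symbol `T(u, v)`. -/
noncomputable def T (u v : Qt C) : K2 C.K :=
  S (C.lK u / C.lK (u * v)) (C.iF u.nrd * C.lK v / C.lK (u * v))

theorem prime_lA {u : Qt C} (hu : u.q ≠ 0) : Prime (C.lA u) := by
  have h1 := C.dg_lA hu
  have hone : C.dg (1 : C.A) = 0 :=
    (C.dg_eq_zero one_ne_zero).2 ⟨1, one_ne_zero, (map_one _).symm⟩
  have h0 : C.lA u ≠ 0 := by
    intro h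
    have h2 := (C.l_eq_zero (w := u)).1 (congrArg Subtype.val h)
    obtain ⟨c, hc⟩ := h2
    exact hu (by rw [hc, Qt.sc_q])
  have hirr : Irreducible (C.lA u) := by
    refine ⟨fun hun => ?_, fun a b hab => ?_⟩
    · obtain ⟨g, hg⟩ := hun.exists_right_inv
      have hg0 : g ≠ 0 := by
        rintro rfl
        rw [mul_zero] at hg
        exact zero_ne_one hg
      have h2 := C.dg_mul _ _ h0 hg0
      rw [hg, hone] at h2
      omega
    · have ha0 : a ≠ 0 := by
        rintro rfl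
        exact h0 (by rw [hab, zero_mul])
      have hb0 : b ≠ 0 := by
        rintro rfl
        exact h0 (by rw [hab, mul_zero])
      have h2 := C.dg_mul _ _ ha0 hb0
      rw [← hab, h1] at h2
      rcases Nat.eq_zero_or_pos (C.dg a) with h3 | h3
      · exact Or.inl (C.dg_unit a ha0 h3)
      · exact Or.inr (C.dg_unit b hb0 (by omega))
  exact hirr.prime

theorem tl_nn (C : CQ F L) {c : AlgebraicClosure L} (hc : c ≠ 0) (e : Qt C) :
    0 ≤ (vPt c).v (C.l e) := laur_nonneg (C.l_mem e).2 hc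

theorem tl_rho_nn (C : CQ F L) (c : AlgebraicClosure L) (e : Qt C) :
    0 ≤ (vPt c).v (C.rho e) := by
  have h := vPt_nonneg c (Polynomial.C (C.s e.p) - Polynomial.C (C.s e.q) * Polynomial.X)
  rw [map_sub, map_mul, RatFunc.algebraMap_C, RatFunc.algebraMap_C, RatFunc.algebraMap_X] at h
  exact h

theorem tl_bb_nn (C : CQ F L) (c : AlgebraicClosure L) (e : Qt C) :
    0 ≤ (vPt c).v (C.bb e) := by
  have h := vPt_nonneg c (Polynomial.C (C.s e.q) * Polynomial.X + Polynomial.C e.p)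
  rw [map_add, map_mul, RatFunc.algebraMap_C, RatFunc.algebraMap_C, RatFunc.algebraMap_X] at h
  exact h

theorem tl_cF (C : CQ F L) (c : AlgebraicClosure L) (d : F) :
    (vPt c).v (C.cF d) = 0 ∧ (vPt c).ac (C.cF d) = algebraMap L _ (algebraMap F L d) :=
  vPt_C c _

theorem v_l_pos {c : AlgebraicClosure L} (hc : c ≠ 0) {u : Qt C} (h : 0 < (vPt c).v (C.l u)) :
    u.q ≠ 0 ∧ (vPt c).v (C.l u) = 1 := by
  have hq : u.q ≠ 0 := by
    intro hq
    have hu : u = Qt.ofL u.p := Qt.ext rfl hq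
    rw [hu, C.l_ofL, (vPt_C c _).1] at h
    exact lt_irrefl _ h
  exact ⟨hq, (C.placeA (C.prime_lA hq) hc h).vp⟩

theorem commute_of_pos {c : AlgebraicClosure L} (hc : c ≠ 0) {u e : Qt C}
    (h : 0 < (vPt c).v (C.l u)) (h' : 0 < (vPt c).v (C.l e)) :
    ∃ k k' : F, k ≠ 0 ∧ e = Qt.sc k * u + Qt.sc k' := by
  have hq := (C.v_l_pos hc h).1
  have hq' := (C.v_l_pos hc h').1
  have hp := C.prime_lA hq
  have he0 : C.lA e ≠ 0 := (C.prime_lA hq').ne_zero
  obtain ⟨g, hg⟩ := (C.dvd_iff_pt hp hc h he0).2 h'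
  have hg0 : g ≠ 0 := by
    rintro rfl
    exact he0 (by rw [hg, mul_zero])
  have h2 := C.dg_mul _ _ hp.ne_zero hg0
  rw [← hg, C.dg_lA hq, C.dg_lA hq'] at h2
  obtain ⟨k, hk, rfl⟩ := (C.dg_eq_zero hg0).1 (by omega)
  have h3 : C.l e = C.l u * C.cF k := congrArg Subtype.val hg
  have h4 : C.l (e + Qt.sc (-k) * u) = 0 := by
    rw [C.l_add, C.l_sc_mul, h3, cF, cF, map_neg, map_neg]
    ring
  obtain ⟨k', hk'⟩ := C.l_eq_zero.1 h4
  refine ⟨k, k', hk, ?_⟩
  have h5 : (Qt.sc (-k) : Qt C) = -Qt.sc k := by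
    ext
    · simp
    · simp
  rw [← hk', h5, neg_mul]
  abel

theorem res_mul_left {c : AlgebraicClosure L} (hc : c ≠ 0) {u : Qt C}
    (h : 0 < (vPt c).v (C.l u)) (e : Qt C) : (vPt c).res (C.l (u * e)) =
      (vPt c).res (C.rho (Qt.conj u)) * (vPt c).res (C.l e) := by
  have h1 : C.l (u * e) = C.rho (Qt.conj u) * C.l e + C.bb (Qt.conj e) * C.l u := by
    have h2 : Qt.conj (u * e) = Qt.conj e * Qt.conj u := by
      ext
      · simp [C.s_s, C.s_bL]
        ring
      · simp [C.s_s, C.s_bL]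
        ring
    have h3 : C.l (u * e) = - C.l (Qt.conj (u * e)) := by rw [C.l_conj, neg_neg]
    rw [h3, h2, C.l_mul, C.l_conj, C.l_conj]
    ring
  rw [h1, Val.res_add _ (Val.v_mul_nonneg _ (C.tl_rho_nn c _) (C.tl_nn hc _))
    (Val.v_mul_nonneg _ (C.tl_bb_nn c _) (C.tl_nn hc _)),
    Val.res_mul _ (C.tl_rho_nn c _) (C.tl_nn hc _), Val.res_mul _ (C.tl_bb_nn c _) (C.tl_nn hc _),
    Val.res_of_pos _ h, mul_zero, add_zero]

theorem res_mul_right {c : AlgebraicClosure L} (hc : c ≠ 0) {u : Qt C}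
    (h : 0 < (vPt c).v (C.l u)) (e : Qt C) : (vPt c).res (C.l (e * u)) =
      (vPt c).res (C.rho u) * (vPt c).res (C.l e) := by
  rw [C.l_mul, Val.res_add _ (Val.v_mul_nonneg _ (C.tl_rho_nn c _) (C.tl_nn hc _))
    (Val.v_mul_nonneg _ (C.tl_bb_nn c _) (C.tl_nn hc _)),
    Val.res_mul _ (C.tl_rho_nn c _) (C.tl_nn hc _), Val.res_mul _ (C.tl_bb_nn c _) (C.tl_nn hc _),
    Val.res_of_pos _ h, mul_zero, add_zero]

theorem res_rho {c : AlgebraicClosure L} (hc : c ≠ 0) {u : Qt C}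
    (h : 0 < (vPt c).v (C.l u)) : (vPt c).res (C.rho u) * (vPt c).res (C.rho (Qt.conj u)) =
      algebraMap L _ (algebraMap F L u.nrd) ∧ (vPt c).v (C.rho u) = 0 := by
  have h1 := C.rho_conj u
  have hX : 0 ≤ (vPt c).v (RatFunc.X : RatFunc L) := by rw [(vPt_X hc).1]
  have hC : ∀ d : L, 0 ≤ (vPt c).v (RatFunc.C d) := fun d => by rw [(vPt_C c d).1]
  have hprod : 0 ≤ (vPt c).v (-RatFunc.C (C.s u.q) * (RatFunc.C (2 * C.α) * RatFunc.X)) := by
    refine Val.v_mul_nonneg _ ?_ (Val.v_mul_nonneg _ (hC _) hX)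
    rw [Val.v_neg]
    exact hC _
  have h2 : C.rho u * C.rho (Qt.conj u) = C.cF u.nrd +
      (-RatFunc.C (C.s u.q) * (RatFunc.C (2 * C.α) * RatFunc.X)) * C.l u := by
    rw [h1]
    ring
  have h3 : (vPt c).res (C.rho u) * (vPt c).res (C.rho (Qt.conj u)) =
      algebraMap L _ (algebraMap F L u.nrd) := by
    rw [← Val.res_mul _ (C.tl_rho_nn c _) (C.tl_rho_nn c _), h2,
      Val.res_add _ (by rw [(C.tl_cF c _).1]) (Val.v_mul_nonneg _ hprod (C.tl_nn hc _)),
      Val.res_mul _ hprod (C.tl_nn hc _), Val.res_of_pos _ h, mul_zero, add_zero,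
      Val.res_of_v_eq _ (C.tl_cF c _).1, (C.tl_cF c _).2]
  refine ⟨h3, ?_⟩
  by_contra h4
  rw [Val.res, if_neg h4, zero_mul] at h3
  have hu : u ≠ 0 := by
    rintro rfl
    exact (C.v_l_pos hc h).1 rfl
  exact (map_ne_zero (algebraMap L (AlgebraicClosure L))).2
    ((map_ne_zero (algebraMap F L)).2 (Qt.nrd_ne hu)) h3.symm

theorem tl_sc_comm (C : CQ F L) (k : F) (u : Qt C) : u * Qt.sc k = Qt.sc k * u := by
  ext
  · simp
    ring
  · simp [C.s_alg]
    ring

theorem tl_ne {u v : Qt C} (h : u * v ≠ v * u) :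
    C.l u ≠ 0 ∧ C.l v ≠ 0 ∧ C.l (u * v) ≠ 0 ∧ C.cF u.nrd ≠ 0 := by
  have hu : u ≠ 0 := by
    rintro rfl
    exact h (by rw [zero_mul, mul_zero])
  refine ⟨fun h1 => ?_, fun h1 => ?_, fun h1 => ?_, ?_⟩
  · obtain ⟨k, rfl⟩ := C.l_eq_zero.1 h1
    exact h (C.tl_sc_comm k v).symm
  · obtain ⟨k, rfl⟩ := C.l_eq_zero.1 h1
    exact h (C.tl_sc_comm k u)
  · obtain ⟨k, hk⟩ := C.l_eq_zero.1 h1
    have h2 := C.tl_sc_comm k u
    rw [← hk, mul_assoc] at h2
    exact h (mul_left_cancel₀ hu h2)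
  · exact (map_ne_zero _).2 ((map_ne_zero _).2 (Qt.nrd_ne hu))

theorem tl_rho_ne {c : AlgebraicClosure L} (hc : c ≠ 0) {u : Qt C}
    (h : 0 < (vPt c).v (C.l u)) : C.rho u ≠ 0 := by
  intro h1
  have h2 := (C.res_rho hc h).1
  rw [h1, Val.res_zero, zero_mul] at h2
  have hu : u ≠ 0 := by
    rintro rfl
    exact (C.v_l_pos hc h).1 rfl
  exact (map_ne_zero (algebraMap L (AlgebraicClosure L))).2
    ((map_ne_zero (algebraMap F L)).2 (Qt.nrd_ne hu)) h2.symm

theorem T_pt {u v : Qt C} (h : u * v ≠ v * u) {c : AlgebraicClosure L} (hc : c ≠ 0) :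
    (vPt c).tame (K2.map C.iK (C.T u v)) = C.lam c u + C.lam c v - C.lam c (u * v) := by
  obtain ⟨hu0, hv0, hd0, hn0⟩ := C.tl_ne h
  have e1 : K2.map C.iK (C.T u v) = S (C.l u / C.l (u * v)) (C.cF u.nrd * C.l v / C.l (u * v)) := by
    unfold T
    rw [K2.map_S]
    rfl
  have hx : C.l u / C.l (u * v) ≠ 0 := div_ne_zero hu0 hd0
  have hy : C.cF u.nrd * C.l v / C.l (u * v) ≠ 0 := div_ne_zero (mul_ne_zero hn0 hv0) hd0
  have hna := C.tl_cF c u.nrd
  have hvx := (vPt c).v_div hu0 hd0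
  have hvy := (vPt c).v_div (mul_ne_zero hn0 hv0) hd0
  rw [(vPt c).v_mul _ _ hn0 hv0, hna.1, zero_add] at hvy
  have hAx := (vPt c).A_div hu0 hd0
  have hAy := (vPt c).A_div (mul_ne_zero hn0 hv0) hd0
  rw [(vPt c).A_mul hn0 hv0] at hAy
  rw [e1]
  have hnu := C.tl_nn hc u
  have hnv := C.tl_nn hc v
  have hnd := C.tl_nn hc (u * v)
  -- at most one is positive
  have huv : 0 < (vPt c).v (C.l u) → 0 < (vPt c).v (C.l v) → False := by
    intro h1 h2
    obtain ⟨k, k', -, hk⟩ := C.commute_of_pos hc h1 h2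
    apply h
    rw [hk, mul_add, add_mul, ← mul_assoc, C.tl_sc_comm k u, mul_assoc, C.tl_sc_comm k' u]
  have hud : 0 < (vPt c).v (C.l u) → 0 < (vPt c).v (C.l (u * v)) → False := by
    intro h1 h2
    obtain ⟨k, k', -, hk⟩ := C.commute_of_pos hc h1 h2
    have hu : u ≠ 0 := by
      rintro rfl
      exact h (by rw [zero_mul, mul_zero])
    have h3 : u * (u * v) = (u * v) * u := by
      rw [hk, mul_add, add_mul, ← mul_assoc, C.tl_sc_comm k u, mul_assoc, C.tl_sc_comm k' u]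
    rw [mul_assoc] at h3
    exact h (mul_left_cancel₀ hu h3)
  have hvd : 0 < (vPt c).v (C.l v) → 0 < (vPt c).v (C.l (u * v)) → False := by
    intro h1 h2
    obtain ⟨k, k', -, hk⟩ := C.commute_of_pos hc h1 h2
    have hv : v ≠ 0 := by
      rintro rfl
      exact h (by rw [zero_mul, mul_zero])
    have h3 : v * (u * v) = (u * v) * v := by
      rw [hk, mul_add, add_mul, ← mul_assoc, C.tl_sc_comm k v, mul_assoc, C.tl_sc_comm k' v]
    rw [← mul_assoc] at h3
    exact h (mul_right_cancel₀ hv h3).symm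
  rcases hnu.eq_or_lt with hu | hu
  · rcases hnv.eq_or_lt with hv | hv
    · rcases hnd.eq_or_lt with hd | hd
      · -- none
        rw [Val.tame_S_units _ (by rw [hvx]; omega) (by rw [hvy]; omega), lam, lam, lam,
          if_neg (by omega), if_neg (by omega), if_neg (by omega)]
        simp
      · -- `l (u v)`
        have hd1 := (C.v_l_pos hc hd).2
        obtain ⟨-, hr⟩ := C.res_rho hc hd
        have hr0 : C.rho (u * v) ≠ 0 := C.tl_rho_ne hc hd
        rw [(vPt c).tame_S hx hy, hvx, hvy, ← hu, ← hv, hd1, lam, lam, lam, if_neg (by omega),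
          if_neg (by omega), if_pos hd, hAx, hAy]
        have h2 : C.l (Qt.conj u * (u * v)) = C.cF u.nrd * C.l v := by
          rw [← mul_assoc, Qt.conj_mul, C.l_sc_mul]
        have h3 := C.res_mul_right hc hd (Qt.conj u)
        rw [h2, C.l_conj, Val.res_neg _ hnu, Val.res_mul _ (by rw [hna.1]) hnv,
          Val.res_of_v_eq _ hna.1, Val.res_of_v_eq _ hv.symm, Val.res_of_v_eq _ hr,
          Val.res_of_v_eq _ hu.symm] at h3
        have h4 : (vPt c).A (C.cF u.nrd * C.l v) = (vPt c).A (-1 * (C.rho (u * v) * C.l u)) := by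
          rw [(vPt c).A_eq_iff (mul_ne_zero hn0 hv0)
            (mul_ne_zero (neg_ne_zero.mpr one_ne_zero) (mul_ne_zero hr0 hu0)),
            (vPt c).ac_mul' , h3, (vPt c).ac_mul', (vPt c).ac_mul', (vPt c).ac_neg_one]
          ring
        rw [(vPt c).A_mul hn0 hv0, (vPt c).A_mul (neg_ne_zero.mpr one_ne_zero)
          (mul_ne_zero hr0 hu0), (vPt c).A_mul hr0 hu0, (vPt c).A_neg_one] at h4
        rw [h4]
        have h5 := Val.two_m1 (k := AlgebraicClosure L)
        simp only [zero_sub, neg_mul_neg, one_mul, one_zsmul, neg_zsmul, zero_add]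
        abel
    · -- `l v`
      have hv1 := (C.v_l_pos hc hv).2
      have hd : (vPt c).v (C.l (u * v)) = 0 := by
        rcases hnd.eq_or_lt with h1 | h1
        · exact h1.symm
        · exact (hvd hv h1).elim
      obtain ⟨-, hr⟩ := C.res_rho hc hv
      have hr0 : C.rho v ≠ 0 := C.tl_rho_ne hc hv
      rw [Val.tame_S_right _ hx hy (by rw [hvx]; omega), hvy, hv1, hd, lam, lam, lam,
        if_neg (by omega), if_pos hv, if_neg (by omega), hAx]
      have h3 := C.res_mul_right hc hv u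
      rw [Val.res_of_v_eq _ hd, Val.res_of_v_eq _ hr, Val.res_of_v_eq _ hu.symm] at h3
      have h4 : (vPt c).A (C.l (u * v)) = (vPt c).A (C.rho v * C.l u) := by
        rw [(vPt c).A_eq_iff hd0 (mul_ne_zero hr0 hu0), h3, (vPt c).ac_mul']
      rw [(vPt c).A_mul hr0 hu0] at h4
      rw [h4]
      simp only [sub_zero, one_zsmul, zero_add]
      abel
  · -- `l u`
    have hu1 := (C.v_l_pos hc hu).2
    have hv : (vPt c).v (C.l v) = 0 := by
      rcases hnv.eq_or_lt with h1 | h1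
      · exact h1.symm
      · exact (huv hu h1).elim
    have hd : (vPt c).v (C.l (u * v)) = 0 := by
      rcases hnd.eq_or_lt with h1 | h1
      · exact h1.symm
      · exact (hud hu h1).elim
    obtain ⟨hrr, hr⟩ := C.res_rho hc hu
    have hr0 : C.rho u ≠ 0 := C.tl_rho_ne hc hu
    rw [Val.tame_S_left _ hx hy (by rw [hvy]; omega), hvx, hu1, hd, lam, lam, lam,
      if_pos hu, if_neg (by omega), if_neg (by omega), hAy]
    have h3 := C.res_mul_left hc hu v
    rw [Val.res_of_v_eq _ hd, Val.res_of_v_eq _ hv] at h3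
    rw [Val.res_of_v_eq _ hr] at hrr
    have h4 : (vPt c).A (C.cF u.nrd * C.l v) = (vPt c).A (C.rho u * C.l (u * v)) := by
      rw [(vPt c).A_eq_iff (mul_ne_zero hn0 hv0) (mul_ne_zero hr0 hd0), (vPt c).ac_mul',
        (vPt c).ac_mul', h3, hna.2, ← hrr]
      ring
    rw [(vPt c).A_mul hn0 hv0, (vPt c).A_mul hr0 hd0] at h4
    rw [h4]
    simp only [sub_zero, one_zsmul]
    abel

theorem T_inf {u v : Qt C} (h : u * v ≠ v * u) :
    (vInf L).tame (K2.map C.iK (C.T u v)) = C.lamInf u + C.lamInf v - C.lamInf (u * v) := by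
  obtain ⟨hu0, hv0, hd0, hn0⟩ := C.tl_ne h
  have e1 : K2.map C.iK (C.T u v) = S (C.l u / C.l (u * v)) (C.cF u.nrd * C.l v / C.l (u * v)) := by
    unfold T
    rw [K2.map_S]
    rfl
  have hx : C.l u / C.l (u * v) ≠ 0 := div_ne_zero hu0 hd0
  have hy : C.cF u.nrd * C.l v / C.l (u * v) ≠ 0 := div_ne_zero (mul_ne_zero hn0 hv0) hd0
  have hna : (vInf L).v (C.cF u.nrd) = 0 ∧ (vInf L).ac (C.cF u.nrd) = algebraMap F L u.nrd :=
    vInf_C _
  have hvx := (vInf L).v_div hu0 hd0
  have hvy := (vInf L).v_div (mul_ne_zero hn0 hv0) hd0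
  rw [(vInf L).v_mul _ _ hn0 hv0, hna.1, zero_add] at hvy
  have hAx := (vInf L).A_div hu0 hd0
  have hAy := (vInf L).A_div (mul_ne_zero hn0 hv0) hd0
  rw [(vInf L).A_mul hn0 hv0] at hAy
  rw [e1]
  have h2α : (2 * C.α : L) ≠ 0 := mul_ne_zero C.twoL C.α_ne
  have hnrd := u.nrd_alg
  -- elements of `L`
  have hL : ∀ e : Qt C, e.q = 0 → (vInf L).v (C.l e) = 0 := by
    intro e he
    have h1 : e = Qt.ofL e.p := Qt.ext rfl he
    rw [h1, C.l_ofL]
    exact (vInf_C _).1
  have hcomm : ∀ e f : Qt C, e.q = 0 → f.q = 0 → e * f = f * e := by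
    intro e f he hf
    ext
    · simp [he, hf, mul_comm]
    · simp [he, hf]
  by_cases hu : u.q = 0
  · have hv : v.q ≠ 0 := fun hv => h (hcomm _ _ hu hv)
    have hup : u.p ≠ 0 := by
      intro h1
      apply h
      have : u = 0 := Qt.ext h1 hu
      rw [this, zero_mul, mul_zero]
    have hd : (u * v).q = u.p * v.q := by rw [Qt.mul_q, hu, zero_mul, add_zero]
    have hd' : (u * v).q ≠ 0 := by rw [hd]; exact mul_ne_zero hup hv
    have hvv := C.v_l hv
    have hvd := C.v_l hd'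
    rw [Val.tame_S_left _ hx hy (by rw [hvy, hvv.1, hvd.1]; rfl), hvx, hL u hu, hvd.1, lamInf, lamInf,
      lamInf, if_pos hu, if_neg hv, if_neg hd', hAy]
    have hC0 : (RatFunc.C u.p : RatFunc L) ≠ 0 := (map_ne_zero _).2 hup
    have h4 : (vInf L).A (C.cF u.nrd * C.l v) = (vInf L).A (RatFunc.C u.p * C.l (u * v)) := by
      rw [(vInf L).A_eq_iff (mul_ne_zero hn0 hv0) (mul_ne_zero hC0 hd0), (vInf L).ac_mul',
        (vInf L).ac_mul', hna.2, (vInf_C _).2, hvv.2, hvd.2, hd, map_mul, hnrd, hu]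
      simp only [map_zero, mul_zero, sub_zero]
      ring
    rw [(vInf L).A_mul hn0 hv0, (vInf L).A_mul hC0 hd0] at h4
    rw [h4]
    simp only [zero_sub, neg_neg, one_zsmul]
    abel
  · have hvu := C.v_l hu
    by_cases hv : v.q = 0
    · have hvp : v.p ≠ 0 := by
        intro h1
        apply h
        have : v = 0 := Qt.ext h1 hv
        rw [this, zero_mul, mul_zero]
      have hd : (u * v).q = u.q * C.s v.p := by rw [Qt.mul_q, hv, mul_zero, zero_add]
      have hd' : (u * v).q ≠ 0 := by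
        rw [hd]
        exact mul_ne_zero hu ((map_ne_zero C.s).2 hvp)
      have hvd := C.v_l hd'
      rw [Val.tame_S_right _ hx hy (by rw [hvx, hvu.1, hvd.1]; rfl), hvy, hL v hv, hvd.1, lamInf,
        lamInf, lamInf, if_neg hu, if_pos hv, if_neg hd', hAx]
      have hC0 : (RatFunc.C v.p : RatFunc L) ≠ 0 := (map_ne_zero _).2 hvp
      have h4 : (vInf L).A (C.l (u * v)) = (vInf L).A (RatFunc.C v.p * C.l u) := by
        rw [(vInf L).A_eq_iff hd0 (mul_ne_zero hC0 hu0), (vInf L).ac_mul', (vInf_C _).2, hvu.2,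
          hvd.2, hd, map_mul, C.s_s]
        ring
      rw [(vInf L).A_mul hC0 hu0] at h4
      rw [h4]
      simp only [zero_sub, neg_neg, one_zsmul]
      abel
    · have hvv := C.v_l hv
      by_cases hd : (u * v).q = 0
      · have hdp : (u * v).p ≠ 0 := by
          intro h1
          apply hd0
          have : u * v = 0 := Qt.ext h1 hd
          rw [this]
          have h2 := C.l_sc 0
          have h3 : (Qt.sc 0 : Qt C) = 0 := by
            ext
            · simp
            · simp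
          rwa [h3] at h2
        have hC0 : (RatFunc.C (u * v).p : RatFunc L) ≠ 0 := (map_ne_zero _).2 hdp
        rw [(vInf L).tame_S hx hy, hvx, hvy, hvu.1, hvv.1, hL _ hd, lamInf, lamInf, lamInf,
          if_neg hu, if_neg hv, if_pos hd, hAx, hAy]
        have h4 : (vInf L).A (C.cF u.nrd * C.l v) =
            (vInf L).A (-1 * (RatFunc.C (u * v).p * C.l u)) := by
          rw [(vInf L).A_eq_iff (mul_ne_zero hn0 hv0)
            (mul_ne_zero (neg_ne_zero.mpr one_ne_zero) (mul_ne_zero hC0 hu0)),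
            (vInf L).ac_mul', (vInf L).ac_mul', (vInf L).ac_mul', (vInf L).ac_neg_one, hna.2,
            (vInf_C _).2, hvu.2, hvv.2, hnrd]
          rw [Qt.mul_q] at hd
          have h5 := congrArg C.s hd
          rw [map_add, map_mul, map_mul, C.s_s, map_zero] at h5
          rw [Qt.mul_p]
          linear_combination u.p / (2 * C.α) * h5
        rw [(vInf L).A_mul hn0 hv0, (vInf L).A_mul (neg_ne_zero.mpr one_ne_zero)
          (mul_ne_zero hC0 hu0), (vInf L).A_mul hC0 hu0, (vInf L).A_neg_one] at h4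
        rw [h4]
        simp only [sub_zero, neg_mul_neg, one_mul, one_zsmul, neg_zsmul, zero_add]
        abel
      · have hvd := C.v_l hd
        rw [Val.tame_S_units _ (by rw [hvx, hvu.1, hvd.1]; rfl) (by rw [hvy, hvv.1, hvd.1]; rfl),
          lamInf, lamInf, lamInf, if_neg hu, if_neg hv, if_neg hd]
        simp

theorem lam_inv {c : AlgebraicClosure L} (hc : c ≠ 0) (e : Qt C) : C.lam c e⁻¹ = - C.lam c e := by
  by_cases he : e = 0
  · subst he
    have h3 : (Qt.sc 0 : Qt C) = 0 := by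
      ext
      · simp
      · simp
    have h2 : C.l (0 : Qt C) = 0 := by rw [← h3]; exact C.l_sc 0
    rw [inv_zero, lam, h2, (vPt c).v_zero, if_neg (lt_irrefl _), neg_zero]
  have hn0 : C.cF e.nrd ≠ 0 := (map_ne_zero _).2 ((map_ne_zero _).2 (Qt.nrd_ne he))
  have hna := C.tl_cF c e.nrd
  have hv : (vPt c).v (C.l e⁻¹) = (vPt c).v (C.l e) := by
    by_cases hl : C.l e = 0
    · rw [C.l_inv, hl, mul_zero]
    · rw [C.l_inv, (vPt c).v_mul _ _ (neg_ne_zero.2 (inv_ne_zero hn0)) hl, (vPt c).v_neg,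
        (vPt c).v_inv, hna.1, neg_zero, zero_add]
  by_cases hp : 0 < (vPt c).v (C.l e)
  · rw [lam, lam, hv, if_pos hp, if_pos hp]
    have hr : C.rho e⁻¹ = (C.cF e.nrd)⁻¹ * C.rho (Qt.conj e) := by
      simp only [rho, cF, Qt.inv_p, Qt.inv_q, Qt.conj_p, Qt.conj_q, C.s_s, map_neg, map_div₀,
        C.s_alg]
      ring
    have hr0 : C.rho e ≠ 0 := C.tl_rho_ne hc hp
    obtain ⟨h1, h2⟩ := C.res_rho hc hp
    have hne : algebraMap L (AlgebraicClosure L) (algebraMap F L e.nrd) ≠ 0 :=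
      (map_ne_zero _).2 ((map_ne_zero _).2 (Qt.nrd_ne he))
    have h3 : (vPt c).v (C.rho (Qt.conj e)) = 0 := by
      by_contra h4
      have h5 : (vPt c).res (C.rho (Qt.conj e)) = 0 := by rw [Val.res, if_neg h4]
      rw [h5, mul_zero] at h1
      exact hne h1.symm
    have hrc0 : C.rho (Qt.conj e) ≠ 0 := by
      intro h4
      rw [h4, Val.res_zero, mul_zero] at h1
      exact hne h1.symm
    rw [Val.res_of_v_eq _ h2, Val.res_of_v_eq _ h3] at h1
    have h4 : (vPt c).A (C.rho e * C.rho (Qt.conj e)) = (vPt c).A (C.cF e.nrd) := by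
      rw [(vPt c).A_eq_iff (mul_ne_zero hr0 hrc0) hn0, (vPt c).ac_mul', h1, hna.2]
    rw [(vPt c).A_mul hr0 hrc0] at h4
    rw [hr, (vPt c).A_mul (inv_ne_zero hn0) hrc0, (vPt c).A_inv, ← h4]
    abel
  · rw [lam, lam, hv, if_neg hp, if_neg hp, neg_zero]

theorem lamInf_inv (e : Qt C) : C.lamInf e⁻¹ = - C.lamInf e := by
  by_cases he : e = 0
  · subst he
    rw [inv_zero, lamInf]
    simp only [Qt.zero_p, Qt.zero_q, if_true, map_zero, Val.A_zero, neg_zero]
  have hn : algebraMap F L e.nrd ≠ 0 := (map_ne_zero _).2 (Qt.nrd_ne he)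
  by_cases hq : e.q = 0
  · have hq' : e⁻¹.q = 0 := by rw [Qt.inv_q, hq, neg_zero, zero_div]
    have hp : e.p ≠ 0 := fun h1 => he (Qt.ext h1 hq)
    have hp' : e⁻¹.p = e.p⁻¹ := by
      have h1 := e.nrd_alg
      rw [hq, zero_mul, mul_zero, sub_zero] at h1
      have hs : C.s e.p ≠ 0 := (map_ne_zero C.s).2 hp
      rw [Qt.inv_p, h1]
      field_simp
    rw [lamInf, lamInf, if_pos hq, if_pos hq', hp', map_inv₀, Val.A_inv]
  · have hq' : e⁻¹.q ≠ 0 := by
      rw [Qt.inv_q]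
      exact div_ne_zero (neg_ne_zero.2 hq) hn
    rw [lamInf, lamInf, if_neg hq, if_neg hq', neg_zero]

end CQ

end Pool.Agent.MK
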