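import Pool.Agent.MK.X3H
import Pool.Agent.MK.TLem

/-! # Residues in degree 1: reduction to at most one point

PROOFS.
* `rho_span`: `rho (x₀ + x₁ u) = x₀ + x₁ rho u` (`rho_add`, `rho_sc_mul`, `rho_sc`).
* `resQ`: `u.q ≠ 0`, `g ∈ C.A`, `lA u ∤ g`.  By `surj_mod` (degree 1) and `deg_le_one`, `g ≡ lA w` modulo `lA u`
  for some `w`.  By `l_expand`: `l w = x₀ + r * l u + x₁ * l (i u)` with `x₀, r, x₁ ∈ F`, and
  `l (i u) = rho u + bb i * l u` (`rho_l`).  So at every point over `lA u` the residue of `g` is that of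
  `x₀ + x₁ rho u = rho e`, `e = x₀ + x₁ u`.  `e ≠ 0` because the residue of `g` is not `0`.  (Multiples of
  `l u` in `C.A`, and `bb i * l u`, have residue `0`: both factors have valuation `≥ 0`; `bb i` is Laurent.)
* `hrQ`: `hasRes` for `p = lA u` and `resQ` (`Val.A_eq_iff`; both are units at `c`).
* `exists_list`: let `G` be as in `exists_G`.  Take the list of the `w` (chosen by `deg_le_one`) for the prime
  factors of degree 1 of `G` (`UniqueFactorizationMonoid.factors`).  If `c ≠ 0` and `tame v ≠ 0` at `c` then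
  `(vPt c).v G > 0`, so some prime factor `q` is positive at `c`; `Un 2 v` implies `dg q = 1` (primes have degree
  `≥ 1`), `q = lA w`, `w.q ≠ 0` (`l_ofL`: otherwise the degree is 0).
* `red2`: Let `Sup v (t₁ :: t₂ :: T)`.
  (a) `t₁, t₂` commute: `t₁ = k t₂ + k'` (both not in `L`), `l t₁ = k l t₂`, so `Sup v (t₂ :: T)` (`m = 0`).
  (b) otherwise let `e₁ = x + y t₁`, `e₂ = x' + y' t₂` be the residues (`hrQ`).
      If `y = 0`: `m = {lK t₁, x}`; its tame symbol at `c` is `A x` over `t₁` and `0` elsewhere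
      (`Val.tame_S_left`, `v_l_pos`); so `Sup (v - m) (t₂ :: T)`.  Similarly if `y' = 0`: `Sup (v - m) (t₁ :: T)`.
      If `y, y' ≠ 0`: `e₁, e₂` do not commute.  `m = T e₁ e₂`, `lam c e₁ = [c over t₁] A (rho e₁)` (`l e₁ = y l t₁`),
      similarly `e₂`.  If `(e₁ e₂).q = 0` then `lam c (e₁ e₂) = 0` (`v_l_pos`) and `Sup (v - m) T`: at `c` over `t₁`
      (then not over `t₂`, `commute_of_pos`) `tame (v - m) = A (rho e₁) - A (rho e₁)`.  Otherwise
      `Sup (v - m) (e₁ e₂ :: T)`.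
* `red`: induction on the length, using `red2` (`Inv.sub_map`; `K2.map` is additive).
-/

set_option autoImplicit false
set_option linter.unusedSectionVars false

namespace Pool.Agent.MK

universe u v w

open scoped Polynomial

namespace CQ

variable {F L : Type u} [Field F] [Field L] [Algebra F L] (C : CQ F L)

/-- `v` has no residues at the points `c ≠ 0` which are not zeros of one of the `l t`, `t ∈ T`. -/
def Sup (v : K2 (RatFunc L)) (T : List (Qt C)) : Prop :=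
  ∀ c : AlgebraicClosure L, c ≠ 0 → (∀ t ∈ T, ¬ 0 < (vPt c).v (C.l t)) → (vPt c).tame v = 0

theorem isLaur_bb (w : Qt C) : IsLaur (C.bb w) :=
  ((isLaur_C _).mul isLaur_X).add (isLaur_C _)

theorem isLaur_rho (w : Qt C) : IsLaur (C.rho w) := by
  have h : C.rho w = RatFunc.C (C.s w.p) + RatFunc.C (-C.s w.q) * RatFunc.X := by
    rw [rho, map_neg]
    ring
  rw [h]
  exact (isLaur_C _).add ((isLaur_C _).mul isLaur_X)

theorem v_l_nonneg {c : AlgebraicClosure L} (hc : c ≠ 0) (w : Qt C) : 0 ≤ (vPt c).v (C.l w) :=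
  laur_nonneg (C.l_mem w).2 hc

theorem cF_ne {x : F} (hx : x ≠ 0) : C.cF x ≠ 0 :=
  (_root_.map_ne_zero _).mpr ((_root_.map_ne_zero _).mpr hx)

theorem rho_span (x₀ x₁ : F) (u : Qt C) :
    C.rho (Qt.sc x₀ + Qt.sc x₁ * u) = C.cF x₀ + C.cF x₁ * C.rho u := by
  rw [C.rho_add, C.rho_sc, C.rho_sc_mul]

theorem resQ {u : Qt C} (hu : u.q ≠ 0) {g : C.A} (hg : ¬ C.lA u ∣ g) :
    ∃ x₀ x₁ : F, Qt.sc x₀ + Qt.sc x₁ * u ≠ 0 ∧ ∀ c : AlgebraicClosure L, c ≠ 0 →
      0 < (vPt c).v (C.l u) →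
      (vPt c).res (g : RatFunc L) = (vPt c).res (C.rho (Qt.sc x₀ + Qt.sc x₁ * u)) := by
  have hp := C.prime_lA hu
  have hd := C.dg_lA hu
  obtain ⟨g', hg', hdvd⟩ := C.surj_mod hp.ne_zero (by omega) g
  have hg'1 : C.dg g' ≤ 1 := by
    rcases C.mem_Vd.1 hg' with h | h
    · exfalso
      apply hg
      rw [h, sub_zero] at hdvd
      exact hdvd
    · rwa [hd] at h
  obtain ⟨w, rfl⟩ := C.deg_le_one hg'1
  obtain ⟨h, hh⟩ := hdvd
  have h1 : (g : RatFunc L) = C.l w + C.l u * (h : RatFunc L) := by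
    have h2 := congrArg (fun t : C.A => (t : RatFunc L)) hh
    have h3 : (g : RatFunc L) - C.l w = C.l u * (h : RatFunc L) := h2
    rw [← h3]
    ring
  have h2 := C.l_expand hu w
  rw [C.rho_l] at h2
  set x₀ : F := C.im (w.p - w.q / u.q * u.p) with hx₀
  set r : F := C.re (w.q / u.q) with hr
  set x₁ : F := C.im (w.q / u.q) with hx₁
  have hkL : IsLaur ((h : RatFunc L) + C.cF r + C.cF x₁ * C.bb (Qt.qi C)) :=
    (IsLaur.add h.2.2 (isLaur_C _)).add ((isLaur_C _).mul (C.isLaur_bb _))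
  have h3 : (g : RatFunc L) = C.rho (Qt.sc x₀ + Qt.sc x₁ * u) +
      C.l u * ((h : RatFunc L) + C.cF r + C.cF x₁ * C.bb (Qt.qi C)) := by
    rw [C.rho_span, h1, h2]
    ring
  have hres : ∀ c : AlgebraicClosure L, c ≠ 0 → 0 < (vPt c).v (C.l u) →
      (vPt c).res (g : RatFunc L) = (vPt c).res (C.rho (Qt.sc x₀ + Qt.sc x₁ * u)) := by
    intro c hc hpos
    rw [h3, Val.res_add _ (laur_nonneg (C.isLaur_rho _) hc)
      (laur_nonneg ((C.l_mem u).2.mul hkL) hc), Val.res_mul _ hpos.le (laur_nonneg hkL hc),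
      Val.res_of_pos _ hpos, zero_mul, add_zero]
  refine ⟨x₀, x₁, ?_, hres⟩
  intro he
  obtain ⟨c, hc, hpos⟩ := C.exists_pt hp
  have hpos' : 0 < (vPt c).v (C.l u) := hpos
  have h4 := hres c hc hpos'
  have h5 : C.rho (0 : Qt C) = 0 := by
    simp [rho]
  rw [he, h5, Val.res_zero] at h4
  have hg0 : g ≠ 0 := by
    rintro rfl
    exact hg (dvd_zero _)
  have hg0' : (g : RatFunc L) ≠ 0 := fun h6 => hg0 (Subtype.ext h6)
  apply hg
  rw [C.dvd_iff_pt hp hc hpos hg0]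
  exact (Val.res_eq_zero _ hg0' (laur_nonneg g.2.2 hc)).1 h4

private theorem x3l_A_eq {K : Type u} {k : Type v} [Field K] [Field k] (w : Val K k) {x y : K}
    (hx : x ≠ 0) (hv : w.v x = 0) (h : w.res x = w.res y) : w.A x = w.A y := by
  have h1 : w.res x = w.ac x := w.res_of_v_eq hv
  have h2 : w.ac x ≠ 0 := w.ac_ne x hx
  have h3 : w.v y = 0 := by
    by_contra h0
    apply h2
    rw [← h1, h]
    unfold Val.res
    rw [if_neg h0]
  have h4 : y ≠ 0 := by
    rintro rfl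
    rw [w.res_zero, h1] at h
    exact h2 h
  rw [w.A_eq_iff hx h4, ← h1, h, w.res_of_v_eq h3]

theorem hrQ {v : K2 (RatFunc L)} (hv : C.Inv v) {u : Qt C} (hu : u.q ≠ 0) :
    ∃ x₀ x₁ : F, Qt.sc x₀ + Qt.sc x₁ * u ≠ 0 ∧ ∀ c : AlgebraicClosure L, c ≠ 0 →
      0 < (vPt c).v (C.l u) →
      (vPt c).tame v = (vPt c).A (C.rho (Qt.sc x₀ + Qt.sc x₁ * u)) := by
  have hp := C.prime_lA hu
  obtain ⟨g, hg, hres⟩ := C.hasRes hv hp
  obtain ⟨x₀, x₁, he, h1⟩ := C.resQ hu hg
  refine ⟨x₀, x₁, he, ?_⟩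
  intro c hc hpos
  have hg0 : (g : RatFunc L) ≠ 0 := by
    intro h0
    apply hg
    have h2 : g = 0 := Subtype.ext h0
    rw [h2]
    exact dvd_zero _
  have hgv : (vPt c).v (g : RatFunc L) = 0 := (C.placeA hp hc hpos).v0 g hg
  rw [hres c hc hpos]
  exact x3l_A_eq _ hg0 hgv (h1 c hc hpos)

private theorem x3l_prod {c : AlgebraicClosure L} (s : Multiset C.A) (hs0 : ∀ q ∈ s, q ≠ 0)
    (hs : ∀ q ∈ s, (vPt c).v (q : RatFunc L) = 0) :
    s.prod ≠ 0 ∧ (vPt c).v ((s.prod : C.A) : RatFunc L) = 0 := by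
  induction s using Multiset.induction_on with
  | empty =>
    rw [Multiset.prod_zero]
    exact ⟨one_ne_zero, (vPt c).v_one⟩
  | cons q s ih =>
    obtain ⟨h1, h2⟩ := ih (fun r hr => hs0 r (Multiset.mem_cons_of_mem hr))
      (fun r hr => hs r (Multiset.mem_cons_of_mem hr))
    have h3 := hs0 q (Multiset.mem_cons_self q s)
    have h4 := hs q (Multiset.mem_cons_self q s)
    rw [Multiset.prod_cons]
    refine ⟨mul_ne_zero h3 h1, ?_⟩
    have h5 : ((q * s.prod : C.A) : RatFunc L) = (q : RatFunc L) * (s.prod : C.A) := rfl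
    rw [h5, (vPt c).v_mul _ _ (fun h6 => h3 (Subtype.ext h6)) (fun h6 => h1 (Subtype.ext h6)),
      h4, h2, add_zero]

private theorem x3l_factor {G : C.A} (hG : G ≠ 0) {c : AlgebraicClosure L} (hc : c ≠ 0)
    (h : (vPt c).v (G : RatFunc L) ≠ 0) :
    ∃ q ∈ UniqueFactorizationMonoid.factors G, 0 < (vPt c).v (q : RatFunc L) := by
  by_contra hcon
  push Not at hcon
  have hpr : ∀ q ∈ UniqueFactorizationMonoid.factors G, Prime q := fun q hq =>
    UniqueFactorizationMonoid.prime_of_factor q hq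
  obtain ⟨h1, h2⟩ := C.x3l_prod (c := c) (UniqueFactorizationMonoid.factors G)
    (fun q hq => (hpr q hq).ne_zero)
    (fun q hq => le_antisymm (hcon q hq) (laur_nonneg q.2.2 hc))
  obtain ⟨a, ha⟩ := UniqueFactorizationMonoid.factors_prod hG
  apply h
  have ha0 : ((a : C.A) : RatFunc L) ≠ 0 := fun h6 => a.ne_zero (Subtype.ext h6)
  have hb0 : ((a⁻¹ : C.Aˣ) : C.A) ≠ 0 := (a⁻¹).ne_zero
  have hb0' : (((a⁻¹ : C.Aˣ) : C.A) : RatFunc L) ≠ 0 := fun h6 => hb0 (Subtype.ext h6)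
  have hab : ((a : C.A) : RatFunc L) * (((a⁻¹ : C.Aˣ) : C.A) : RatFunc L) = 1 := by
    have h3 := congrArg (fun t : C.A => (t : RatFunc L)) (a.mul_inv)
    exact h3
  have hv1 := (vPt c).v_mul _ _ ha0 hb0'
  rw [hab, (vPt c).v_one] at hv1
  have h4 : 0 ≤ (vPt c).v ((a : C.A) : RatFunc L) := laur_nonneg (a : C.A).2.2 hc
  have h5 : 0 ≤ (vPt c).v (((a⁻¹ : C.Aˣ) : C.A) : RatFunc L) :=
    laur_nonneg ((a⁻¹ : C.Aˣ) : C.A).2.2 hc
  have h6 : (G : RatFunc L) =
      ((UniqueFactorizationMonoid.factors G).prod : C.A) * ((a : C.A) : RatFunc L) := by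
    have h7 := congrArg (fun t : C.A => (t : RatFunc L)) ha
    exact h7.symm
  rw [h6, (vPt c).v_mul _ _ (fun h7 => h1 (Subtype.ext h7)) ha0, h2]
  omega

theorem exists_list {v : K2 (RatFunc L)} (hv : C.Un 2 v) :
    ∃ T : List (Qt C), (∀ t ∈ T, t.q ≠ 0) ∧ C.Sup v T := by
  classical
  obtain ⟨G, hG, hGv⟩ := C.exists_G v
  have hW : ∀ q : C.A, ∃ w : Qt C, C.dg q ≤ 1 → q = C.lA w := by
    intro q
    by_cases h : C.dg q ≤ 1
    · obtain ⟨w, hw⟩ := C.deg_le_one h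
      exact ⟨w, fun _ => hw⟩
    · exact ⟨0, fun h' => absurd h' h⟩
  choose W hW using hW
  refine ⟨((UniqueFactorizationMonoid.factors G).toList.filter (fun q => C.dg q = 1)).map W,
    ?_, ?_⟩
  · intro t ht
    obtain ⟨q, hq, rfl⟩ := List.mem_map.1 ht
    obtain ⟨-, hq1⟩ := List.mem_filter.1 hq
    have hq1' : C.dg q = 1 := by simpa using hq1
    intro h0
    have h1 := hW q hq1'.le
    have h2 : W q = Qt.ofL (W q).p := by
      ext
      · rfl
      · exact h0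
    have h3 : C.l (W q) = C.cF (C.im (W q).p) := by
      conv_lhs => rw [h2]
      exact C.l_ofL _
    have h4 := C.dg_eq q
    have h5 : (q : RatFunc L) = C.cF (C.im (W q).p) := by
      conv_lhs => rw [h1]
      exact h3
    rw [h5, (vInf_C _).1, hq1'] at h4
    norm_num at h4
  · intro c hc hT
    by_contra hne
    have h1 : (vPt c).v (G : RatFunc L) ≠ 0 := fun h0 => hne (hGv c hc h0)
    obtain ⟨q, hq, hpos⟩ := C.x3l_factor hG hc h1
    have hpr := UniqueFactorizationMonoid.prime_of_factor q hq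
    have hd0 : C.dg q ≠ 0 := fun h0 => hpr.not_isUnit (C.dg_unit q hpr.ne_zero h0)
    have hd2 : ¬ 2 ≤ C.dg q := fun h2 => hne (hv q hpr h2 c hc hpos)
    have hd1 : C.dg q = 1 := by omega
    refine hT (W q) (List.mem_map.2 ⟨q, List.mem_filter.2 ⟨Multiset.mem_toList.2 hq, ?_⟩, rfl⟩) ?_
    · simpa using hd1
    · have h2 := hW q hd1.le
      have h3 : (q : RatFunc L) = C.l (W q) := congrArg (fun t : C.A => (t : RatFunc L)) h2
      rwa [h3] at hpos

/-- Commuting quaternions. -/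
theorem x3l_commute {t₁ t₂ : Qt C} (h₁ : t₁.q ≠ 0) (h₂ : t₂.q ≠ 0) (h : t₁ * t₂ = t₂ * t₁) :
    ∃ k k' : F, k ≠ 0 ∧ t₁ = Qt.sc k * t₂ + Qt.sc k' := by
  have hp := congrArg Qt.p h
  have hq := congrArg Qt.q h
  rw [Qt.mul_p, Qt.mul_p] at hp
  rw [Qt.mul_q, Qt.mul_q] at hq
  have hsq : C.s t₂.q ≠ 0 := (_root_.map_ne_zero _).mpr h₂
  have e1 : t₁.q * C.s t₂.q = t₂.q * C.s t₁.q := by
    have hb := C.bL_ne
    have e2 : C.bL * (t₁.q * C.s t₂.q) = C.bL * (t₂.q * C.s t₁.q) := by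
      linear_combination hp
    exact mul_left_cancel₀ hb e2
  obtain ⟨k, hk⟩ := C.fix (t₁.q / t₂.q) (by
    rw [map_div₀, div_eq_div_iff hsq h₂]
    linear_combination -e1)
  have e3 : t₁.q = algebraMap F L k * t₂.q := by
    rw [hk]
    field_simp
  have hsk : C.s (algebraMap F L k) = algebraMap F L k := C.s_alg k
  have e4 : C.s (t₁.p - algebraMap F L k * t₂.p) = t₁.p - algebraMap F L k * t₂.p := by
    have e5 : t₂.q * C.s (t₁.p - algebraMap F L k * t₂.p) =
        t₂.q * (t₁.p - algebraMap F L k * t₂.p) := by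
      rw [map_sub, map_mul, hsk]
      rw [e3] at hq
      linear_combination -hq
    exact mul_left_cancel₀ h₂ e5
  obtain ⟨k', hk'⟩ := C.fix _ e4
  refine ⟨k, k', ?_, ?_⟩
  · rintro rfl
    rw [map_zero, zero_mul] at e3
    exact h₁ e3
  · ext
    · rw [Qt.add_p, Qt.mul_p, Qt.sc_p, Qt.sc_q, Qt.sc_p, hk']
      ring
    · rw [Qt.add_q, Qt.mul_q, Qt.sc_p, Qt.sc_q, Qt.sc_q, e3]
      ring

theorem x3l_v_cF {c : AlgebraicClosure L} {k : F} (hk : k ≠ 0) {f : RatFunc L} (hf : f ≠ 0) :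
    (vPt c).v (C.cF k * f) = (vPt c).v f := by
  rw [(vPt c).v_mul _ _ (C.cF_ne hk) hf, (vPt_C c _).1, zero_add]

theorem l_ne {t : Qt C} (ht : t.q ≠ 0) : C.l t ≠ 0 := by
  intro h0
  exact (C.prime_lA ht).ne_zero (Subtype.ext h0)

/-- Removal of a constant residue. -/
theorem x3l_const {v : K2 (RatFunc L)} {t : Qt C} {T : List (Qt C)} (ht : t.q ≠ 0) {x : F}
    (hx : x ≠ 0) (hres : ∀ c : AlgebraicClosure L, c ≠ 0 → 0 < (vPt c).v (C.l t) →
      (vPt c).tame v = (vPt c).A (C.cF x)) (hS : C.Sup v (t :: T)) :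
    C.Sup (v - K2.map C.iK (S (C.lK t) (C.iF x))) T := by
  intro c hc hT
  have h1 : K2.map C.iK (S (C.lK t) (C.iF x)) = S (C.l t) (C.cF x) := K2.map_S _ _ _
  have h2 : (vPt c).tame (S (C.l t) (C.cF x)) = (vPt c).v (C.l t) • (vPt c).A (C.cF x) :=
    Val.tame_S_left _ (C.l_ne ht) (C.cF_ne hx) (vPt_C c _).1
  rw [map_sub, h1, h2]
  by_cases hpos : 0 < (vPt c).v (C.l t)
  · rw [(C.v_l_pos hc hpos).2, one_zsmul, hres c hc hpos, sub_self]
  · have h3 : (vPt c).v (C.l t) = 0 := by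
      have := C.v_l_nonneg hc t
      omega
    rw [h3, zero_zsmul, sub_zero]
    apply hS c hc
    intro t' ht'
    rcases List.mem_cons.1 ht' with rfl | h4
    · exact hpos
    · exact hT t' h4

theorem red2 {v : K2 (RatFunc L)} (hv : C.Inv v) {t₁ t₂ : Qt C} {T : List (Qt C)}
    (h₁ : t₁.q ≠ 0) (h₂ : t₂.q ≠ 0) (hT : ∀ t ∈ T, t.q ≠ 0) (hS : C.Sup v (t₁ :: t₂ :: T)) :
    ∃ (m : K2 C.K) (T' : List (Qt C)), T'.length ≤ T.length + 1 ∧ (∀ t ∈ T', t.q ≠ 0) ∧
      C.Sup (v - K2.map C.iK m) T' := by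
  by_cases hcomm : t₁ * t₂ = t₂ * t₁
  · -- commuting
    obtain ⟨k, k', hk, ht⟩ := C.x3l_commute h₁ h₂ hcomm
    refine ⟨0, t₂ :: T, le_rfl, ?_, ?_⟩
    · intro t ht'
      rcases List.mem_cons.1 ht' with rfl | h4
      · exact h₂
      · exact hT t h4
    · rw [map_zero, sub_zero]
      intro c hc hcT
      apply hS c hc
      intro t ht'
      rcases List.mem_cons.1 ht' with rfl | h4
      · have h5 : C.l t = C.cF k * C.l t₂ := by
          rw [ht, C.l_add, C.l_sc_mul, C.l_sc, add_zero]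
        rw [h5, C.x3l_v_cF hk (C.l_ne h₂)]
        exact hcT t₂ List.mem_cons_self
      · exact hcT t h4
  obtain ⟨x, y, he₁, hr₁⟩ := C.hrQ hv h₁
  obtain ⟨x', y', he₂, hr₂⟩ := C.hrQ hv h₂
  by_cases hy : y = 0
  · -- the residue over `t₁` is constant
    have h0 : (Qt.sc x + Qt.sc y * t₁ : Qt C) = Qt.sc x := by
      rw [hy]
      ext <;> simp
    rw [h0] at he₁ hr₁
    have hx : x ≠ 0 := by
      rintro rfl
      apply he₁
      ext <;> simp
    refine ⟨S (C.lK t₁) (C.iF x), t₂ :: T, le_rfl, ?_, ?_⟩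
    · intro t ht'
      rcases List.mem_cons.1 ht' with rfl | h4
      · exact h₂
      · exact hT t h4
    · refine C.x3l_const h₁ hx ?_ hS
      intro c hc hpos
      rw [hr₁ c hc hpos, C.rho_sc]
  by_cases hy' : y' = 0
  · have h0 : (Qt.sc x' + Qt.sc y' * t₂ : Qt C) = Qt.sc x' := by
      rw [hy']
      ext <;> simp
    rw [h0] at he₂ hr₂
    have hx : x' ≠ 0 := by
      rintro rfl
      apply he₂
      ext <;> simp
    refine ⟨S (C.lK t₂) (C.iF x'), t₁ :: T, le_rfl, ?_, ?_⟩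
    · intro t ht'
      rcases List.mem_cons.1 ht' with rfl | h4
      · exact h₁
      · exact hT t h4
    · refine C.x3l_const h₂ hx ?_ ?_
      · intro c hc hpos
        rw [hr₂ c hc hpos, C.rho_sc]
      · intro c hc hcT
        apply hS c hc
        intro t ht'
        rcases List.mem_cons.1 ht' with rfl | h4
        · exact hcT _ (List.mem_cons_of_mem _ List.mem_cons_self)
        · rcases List.mem_cons.1 h4 with rfl | h5
          · exact hcT _ List.mem_cons_self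
          · exact hcT _ (List.mem_cons_of_mem _ (List.mem_cons_of_mem _ h5))
  -- the main case
  set e₁ : Qt C := Qt.sc x + Qt.sc y * t₁ with hE₁
  set e₂ : Qt C := Qt.sc x' + Qt.sc y' * t₂ with hE₂
  have hl₁ : C.l e₁ = C.cF y * C.l t₁ := by
    rw [hE₁, C.l_add, C.l_sc_mul, C.l_sc, zero_add]
  have hl₂ : C.l e₂ = C.cF y' * C.l t₂ := by
    rw [hE₂, C.l_add, C.l_sc_mul, C.l_sc, zero_add]
  have hv₁ : ∀ c : AlgebraicClosure L, (vPt c).v (C.l e₁) = (vPt c).v (C.l t₁) := fun c => by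
    rw [hl₁, C.x3l_v_cF hy (C.l_ne h₁)]
  have hv₂ : ∀ c : AlgebraicClosure L, (vPt c).v (C.l e₂) = (vPt c).v (C.l t₂) := fun c => by
    rw [hl₂, C.x3l_v_cF hy' (C.l_ne h₂)]
  have hnc : e₁ * e₂ ≠ e₂ * e₁ := by
    intro h0
    apply hcomm
    have h1 : e₁ * e₂ - e₂ * e₁ = Qt.sc (y * y') * (t₁ * t₂ - t₂ * t₁) := by
      rw [hE₁, hE₂]
      ext
      · simp [C.s_alg]
        ring
      · simp [C.s_alg]
        ring
    rw [h0, sub_self] at h1
    have h2 : (Qt.sc (y * y') : Qt C) ≠ 0 := by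
      intro h3
      have h4 := congrArg Qt.p h3
      rw [Qt.sc_p, Qt.zero_p, map_eq_zero] at h4
      exact mul_ne_zero hy hy' h4
    rcases mul_eq_zero.1 h1.symm with h3 | h3
    · exact absurd h3 h2
    · exact sub_eq_zero.1 h3
  -- the tame symbol of the difference
  have main : ∀ c : AlgebraicClosure L, c ≠ 0 → (∀ t ∈ T, ¬ 0 < (vPt c).v (C.l t)) →
      ¬ 0 < (vPt c).v (C.l (e₁ * e₂)) →
      (vPt c).tame (v - K2.map C.iK (C.T e₁ e₂)) = 0 := by
    intro c hc hcT h12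
    have hlam12 : C.lam c (e₁ * e₂) = 0 := by
      unfold lam
      rw [if_neg h12]
    rw [map_sub, C.T_pt hnc hc, hlam12, sub_zero]
    by_cases hp1 : 0 < (vPt c).v (C.l t₁)
    · have hp2 : ¬ 0 < (vPt c).v (C.l t₂) := by
        intro hp2
        obtain ⟨k, k', hk, ht⟩ := C.commute_of_pos hc hp1 hp2
        apply hcomm
        rw [ht]
        ext
        · simp [C.s_alg]
          ring
        · simp [C.s_alg]
          ring
      have a1 : C.lam c e₁ = (vPt c).A (C.rho e₁) := by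
        unfold lam
        rw [if_pos (by rw [hv₁]; exact hp1)]
      have a2 : C.lam c e₂ = 0 := by
        unfold lam
        rw [if_neg (by rw [hv₂]; exact hp2)]
      rw [a1, a2, hr₁ c hc hp1, add_zero, sub_self]
    · have a1 : C.lam c e₁ = 0 := by
        unfold lam
        rw [if_neg (by rw [hv₁]; exact hp1)]
      by_cases hp2 : 0 < (vPt c).v (C.l t₂)
      · have a2 : C.lam c e₂ = (vPt c).A (C.rho e₂) := by
          unfold lam
          rw [if_pos (by rw [hv₂]; exact hp2)]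
        rw [a1, a2, hr₂ c hc hp2, zero_add, sub_self]
      · have a2 : C.lam c e₂ = 0 := by
          unfold lam
          rw [if_neg (by rw [hv₂]; exact hp2)]
        rw [a1, a2, add_zero, sub_zero]
        apply hS c hc
        intro t ht'
        rcases List.mem_cons.1 ht' with rfl | h4
        · exact hp1
        · rcases List.mem_cons.1 h4 with rfl | h5
          · exact hp2
          · exact hcT t h5
  by_cases hq : (e₁ * e₂).q = 0
  · refine ⟨C.T e₁ e₂, T, Nat.le_succ _, hT, ?_⟩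
    intro c hc hcT
    exact main c hc hcT (fun h => (C.v_l_pos hc h).1 hq)
  · refine ⟨C.T e₁ e₂, e₁ * e₂ :: T, le_rfl, ?_, ?_⟩
    · intro t ht'
      rcases List.mem_cons.1 ht' with rfl | h4
      · exact hq
      · exact hT t h4
    · intro c hc hcT
      exact main c hc (fun t ht => hcT t (List.mem_cons_of_mem _ ht)) (hcT _ List.mem_cons_self)

private theorem x3l_red (n : ℕ) : ∀ {v : K2 (RatFunc L)}, C.Inv v → ∀ {T : List (Qt C)},
    T.length ≤ n → (∀ t ∈ T, t.q ≠ 0) → C.Sup v T → ∃ m : K2 C.K,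
      C.Sup (v - K2.map C.iK m) [] ∨ ∃ t : Qt C, t.q ≠ 0 ∧ C.Sup (v - K2.map C.iK m) [t] := by
  induction n with
  | zero =>
    intro v hv T hn hT hS
    have h1 : T = [] := List.length_eq_zero_iff.1 (Nat.le_zero.1 hn)
    refine ⟨0, Or.inl ?_⟩
    rw [map_zero, sub_zero, ← h1]
    exact hS
  | succ n ih =>
    intro v hv T hn hT hS
    match T, hn, hT, hS with
    | [], _, _, hS =>
      refine ⟨0, Or.inl ?_⟩
      rw [map_zero, sub_zero]
      exact hS
    | [t], _, hT, hS =>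
      refine ⟨0, Or.inr ⟨t, hT t List.mem_cons_self, ?_⟩⟩
      rw [map_zero, sub_zero]
      exact hS
    | t₁ :: t₂ :: T, hn, hT, hS =>
      obtain ⟨m₁, T', hl, hT', hS'⟩ := C.red2 hv (hT t₁ List.mem_cons_self)
        (hT t₂ (List.mem_cons_of_mem _ List.mem_cons_self))
        (fun t ht => hT t (List.mem_cons_of_mem _ (List.mem_cons_of_mem _ ht))) hS
      have hn' : T'.length ≤ n := by
        simp only [List.length_cons] at hn
        omega
      obtain ⟨m₂, hm⟩ := ih (Inv.sub_map C hv m₁) hn' hT' hS'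
      refine ⟨m₁ + m₂, ?_⟩
      have h1 : v - K2.map C.iK (m₁ + m₂) = v - K2.map C.iK m₁ - K2.map C.iK m₂ := by
        rw [map_add]
        abel
      rw [h1]
      exact hm

theorem red {v : K2 (RatFunc L)} (hv : C.Inv v) {T : List (Qt C)} (hT : ∀ t ∈ T, t.q ≠ 0)
    (hS : C.Sup v T) : ∃ m : K2 C.K, C.Sup (v - K2.map C.iK m) [] ∨
      ∃ t : Qt C, t.q ≠ 0 ∧ C.Sup (v - K2.map C.iK m) [t] :=
  C.x3l_red T.length hv le_rfl hT hS

end CQ

end Pool.Agent.MK
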