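import Pool.Agent.MK.Ext
import Pool.Agent.MK.X3L

/-! # Residue homomorphisms with values in the abelianization of the central extension

PROOFS.  Fix `u` with `u.q ≠ 0` and `c = C.pu u`, a point over `l u`.  `ρ = (vPt c).res (rho u)`.
* `exists_pu`: `exists_pt` for the prime `lA u` (`prime_lA`).
* `rho_ring`: for `e = x₀ + x₁ u`: `res (rho e) = x₀ + x₁ ρ` (`rho_add`, `rho_sc_mul`, `rho_sc`, `Val.res_add`, `Val.res_mul`,
  `vPt_C`; all elements have valuation `≥ 0`).  `ρ² = trd u * ρ - nrd u` (`rho_conj`, `rho_conj_add` at `c`; `l u` has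
  residue `0`), and `u² = trd u * u - nrd u` (`Qt.sq_eq`), so `res (rho (e e')) = res (rho e) res (rho e')` for
  `e, e' ∈ F + F u` (note `e e' ∈ F + F u`).  `res (rho e) ≠ 0` for `e ≠ 0`: multiply with `rho (conj e)`,
  `conj e = x₀ + x₁ (trd u - u) ∈ F + F u`, `e * conj e = nrd e ≠ 0`.  In particular `(vPt c).v (rho e) = 0`.
  Injectivity: apply this to `e - e'`.
* `exists_Psi`: for `m ∈ K₂(C.K)`, `v = m_M` satisfies `Inv v` (`sM_map`; `u = 0`), so by `hrQ` there is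
  `e ∈ F + F u`, `e ≠ 0`, with `tame_c (m_M) = A (rho e)`; it is unique by injectivity.  Define `Ψ m = Phi e`.  Additivity:
  `tame` is additive, `A (rho (e e')) = A (rho e) + A (rho e')`, and `Phi (e e') = Phi e + Phi e'` because `e, e'`
  commute.
* `exists_PsiInf`: `m ↦` the unit `d` with `tame_∞ (m_M) = A (C d)` (`d = (tame_∞ m_M).toMul`, `vInf_C`), then
  `Phi (ofL d)`; elements of `L` commute.
* `cf_eq`: for `u.q ≠ 0`, `y = w.q/u.q`, `x = w.p - y u.p`, `cf u w = im x + (im y) u`: at `c` the residue of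
  `l w` is that of `rho (cf u w)` (`l_expand`, `rho_l`), and `w u - u w = (i u - u i) (cf u w)` (write `w = x + y u` with
  `x, y ∈ L`, `x u - u x = (im x) (i u - u i)`, `(y u) u - u (y u) = (y u - u y) u = (im y) (i u - u i) u`).
* `gen_uv`: `u, v` with `q ≠ 0`, not commuting; `m = {l u, l v}`.  At `c = pu u`: `tame = A (l v)` (`v(l u) = 1`, `v(l v) = 0` as
  `v` does not vanish at `c`: `commute_of_pos`), `= A (rho a)`, `a = cf u v`.  At `pu v`: `tame = -A (l u) = A (rho b)`, `b = (cf v u)⁻¹`.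
  At `∞`: `v(l u) = v(l v) = -1`: `tame = m1 - A (l v) + A (l u)`, the value is `d = -s(u.q)/s(v.q)` (`v_l`).
  In the quaternion algebra `a = [i,u]⁻¹ [v,u]`, `b = [u,v]⁻¹ [i,v]`, where `[x,y] = x y - y x`, and
  `ofL d = -[v,i]⁻¹ [u,i]` (`[w, i] = -2 α w.q j` as `w.q j i = -i w.q j`); so `a b (ofL d) = 1`.  By `Ext.Phi_three`,
  `Ψ_u m + Ψ_v m + Ψ_∞ m = Phi a + Phi b + Phi (ofL d) = iQ (tau a b)`, and
  `tau a b = br a b + br b (a b) + br (a b) a = br a b` as `a b = (ofL d)⁻¹ ∈ L` (`br_L`, `br_comm`).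
  `a = x₁ + y₁ u`, `b⁻¹ = x₂ + y₂ v`.  If `y₁, y₂ ≠ 0`: `br a b = br u v` (`br_smul`, `br_inv`, `br_comm`).
  If `y₁ = 0` (`a = x₁ ∈ F`): then `b = (ofL d)⁻¹ a⁻¹ ∈ L` commutes with ... in any case `br a b = 0` (`br_scalar`); and
  `l v = x₁ + r l u` with `r ∈ F` (`l_expand` with `im y = 0`), `x₁ ≠ 0` (as `a ≠ 0`), `r ≠ 0` (`v.q ≠ 0`; compare `vInf`), so
  `l v / x₁ - r l u / x₁ = 1` and by Steinberg `{l v, l u} ∈ Sg`: `br u v = 0`.  If `y₂ = 0`: then `b ∈ F`, and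
  symmetrically `br u v = 0` and `br a b = 0`.
* `gen_cu`: at `pu u`: `tame {c, l u} = -A c = A (rho c⁻¹)`, at `∞`: `tame = A (C c)`; `Phi (c⁻¹) + Phi (c) = 0`.
* `gen_zero`: everything is a unit at the point, so `tame = 0 = A (rho 1)` and `Ψ m = Phi 1 = 0`.
-/

set_option autoImplicit false
set_option linter.unusedSectionVars false

namespace Pool.Agent.MK

universe u v w

open scoped Polynomial

namespace CQ

variable {F L : Type u} [Field F] [Field L] [Algebra F L] (C : CQ F L)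

/-! ### The commutative subring `F + F u` -/

/-- `e ∈ F + F u` -/
private def InFu (u e : Qt C) : Prop := ∃ x₀ x₁ : F, e = Qt.sc x₀ + Qt.sc x₁ * u

private theorem ps_scmul (x y : F) : (Qt.sc x : Qt C) * Qt.sc y = Qt.sc (x * y) := by
  ext <;> simp

private theorem ps_scadd (x y : F) : (Qt.sc x : Qt C) + Qt.sc y = Qt.sc (x + y) := by
  ext <;> simp

private theorem ps_sc1 : (Qt.sc (1 : F) : Qt C) = 1 := by
  ext <;> simp

private theorem ps_sc0 : (Qt.sc (0 : F) : Qt C) = 0 := by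
  ext <;> simp

private theorem inFu_sc (u : Qt C) (x : F) : C.InFu u (Qt.sc x) := by
  refine ⟨x, 0, ?_⟩
  rw [ps_sc0, zero_mul, add_zero]

private theorem inFu_one (u : Qt C) : C.InFu u 1 := by
  rw [← C.ps_sc1]
  exact C.inFu_sc u 1

private theorem inFu_sub {u e e' : Qt C} (h : C.InFu u e) (h' : C.InFu u e') :
    C.InFu u (e - e') := by
  obtain ⟨x₀, x₁, rfl⟩ := h
  obtain ⟨y₀, y₁, rfl⟩ := h'
  refine ⟨x₀ - y₀, x₁ - y₁, ?_⟩
  ext
  · simp only [Qt.sub_p, Qt.add_p, Qt.mul_p, Qt.sc_p, Qt.sc_q, map_sub]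
    ring
  · simp only [Qt.sub_q, Qt.add_q, Qt.mul_q, Qt.sc_p, Qt.sc_q, map_sub]
    ring

private theorem ps_mul (u : Qt C) (x₀ x₁ y₀ y₁ : F) :
    (Qt.sc x₀ + Qt.sc x₁ * u) * (Qt.sc y₀ + Qt.sc y₁ * u) =
      Qt.sc (x₀ * y₀ - x₁ * y₁ * u.nrd) + Qt.sc (x₀ * y₁ + x₁ * y₀ + x₁ * y₁ * u.trd) * u := by
  ext
  · simp only [Qt.add_p, Qt.add_q, Qt.mul_p, Qt.mul_q, Qt.sc_p, Qt.sc_q, map_sub, map_add, map_mul,
      Qt.nrd_alg, Qt.trd_alg, C.s_alg, map_zero]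
    ring
  · simp only [Qt.add_p, Qt.add_q, Qt.mul_p, Qt.mul_q, Qt.sc_p, Qt.sc_q, map_sub, map_add, map_mul,
      Qt.nrd_alg, Qt.trd_alg, C.s_alg, map_zero]
    ring

private theorem inFu_mul {u e e' : Qt C} (h : C.InFu u e) (h' : C.InFu u e') :
    C.InFu u (e * e') := by
  obtain ⟨x₀, x₁, rfl⟩ := h
  obtain ⟨y₀, y₁, rfl⟩ := h'
  exact ⟨_, _, C.ps_mul u x₀ x₁ y₀ y₁⟩

private theorem inFu_comm {u e e' : Qt C} (h : C.InFu u e) (h' : C.InFu u e') :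
    e * e' = e' * e := by
  obtain ⟨x₀, x₁, rfl⟩ := h
  obtain ⟨y₀, y₁, rfl⟩ := h'
  rw [C.ps_mul, C.ps_mul]
  congr 2
  · ring
  · congr 1
    ring

private theorem inFu_conj {u e : Qt C} (h : C.InFu u e) : C.InFu u (Qt.conj e) := by
  obtain ⟨x₀, x₁, rfl⟩ := h
  refine ⟨x₀ + x₁ * u.trd, -x₁, ?_⟩
  ext
  · simp only [Qt.conj_p, Qt.add_p, Qt.mul_p, Qt.sc_p, Qt.sc_q, map_add, map_mul, map_neg,
      Qt.trd_alg, C.s_alg, map_zero]
    ring
  · simp only [Qt.conj_q, Qt.add_q, Qt.mul_q, Qt.sc_p, Qt.sc_q, map_neg]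
    ring

private theorem inFu_inv {u e : Qt C} (he : e ≠ 0) (h : C.InFu u e) : C.InFu u e⁻¹ := by
  have h1 : e⁻¹ = Qt.conj e * Qt.sc (e.nrd)⁻¹ := by
    rw [inv_eq_iff_eq_inv]
    refine (inv_eq_of_mul_eq_one_left ?_).symm
    rw [← mul_assoc, Qt.mul_conj, C.ps_scmul, mul_inv_cancel₀ (Qt.nrd_ne he), C.ps_sc1]
  rw [h1]
  exact C.inFu_mul (C.inFu_conj h) (C.inFu_sc u _)

/-! ### Residues of the `rho e`, `e ∈ F + F u` -/

private theorem ps_rho (u : Qt C) (x₀ x₁ : F) :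
    C.rho (Qt.sc x₀ + Qt.sc x₁ * u) = C.cF x₀ + C.cF x₁ * C.rho u := by
  rw [C.rho_add, C.rho_sc, C.rho_sc_mul]

private theorem ps_res_cF (c : AlgebraicClosure L) (x : F) :
    (vPt c).res (C.cF x) = algebraMap L _ (algebraMap F L x) := by
  rw [(vPt c).res_of_v_eq (tl_cF C c x).1, (tl_cF C c x).2]

private theorem ps_res_rho (c : AlgebraicClosure L) (u : Qt C) (x₀ x₁ : F) :
    (vPt c).res (C.rho (Qt.sc x₀ + Qt.sc x₁ * u)) = algebraMap L _ (algebraMap F L x₀) +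
      algebraMap L _ (algebraMap F L x₁) * (vPt c).res (C.rho u) := by
  have h0 : ∀ x : F, 0 ≤ (vPt c).v (C.cF x) := fun x => (tl_cF C c x).1.ge
  rw [C.ps_rho, (vPt c).res_add (h0 _) ((vPt c).v_mul_nonneg (h0 _) (tl_rho_nn C c u)),
    (vPt c).res_mul (h0 _) (tl_rho_nn C c u), C.ps_res_cF, C.ps_res_cF]

private theorem ps_rho_sq {c : AlgebraicClosure L} (hc : c ≠ 0) {u : Qt C}
    (h : 0 < (vPt c).v (C.l u)) : (vPt c).res (C.rho u) * (vPt c).res (C.rho u) =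
      algebraMap L _ (algebraMap F L u.trd) * (vPt c).res (C.rho u) -
        algebraMap L _ (algebraMap F L u.nrd) := by
  have h1 := (C.res_rho hc h).1
  have h2 : (vPt c).res (C.rho u) + (vPt c).res (C.rho (Qt.conj u)) =
      algebraMap L _ (algebraMap F L u.trd) := by
    rw [← (vPt c).res_add (tl_rho_nn C c u) (tl_rho_nn C c _), C.rho_conj_add, C.ps_res_cF]
  linear_combination (vPt c).res (C.rho u) * h2 - h1

private theorem ps_res_mul {c : AlgebraicClosure L} (hc : c ≠ 0) {u : Qt C}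
    (h : 0 < (vPt c).v (C.l u)) {e e' : Qt C} (he : C.InFu u e) (he' : C.InFu u e') :
    (vPt c).res (C.rho (e * e')) = (vPt c).res (C.rho e) * (vPt c).res (C.rho e') := by
  obtain ⟨x₀, x₁, rfl⟩ := he
  obtain ⟨y₀, y₁, rfl⟩ := he'
  have h1 := C.ps_rho_sq hc h
  rw [C.ps_mul, C.ps_res_rho, C.ps_res_rho, C.ps_res_rho]
  simp only [map_add, map_sub, map_mul]
  linear_combination -(algebraMap L (AlgebraicClosure L) (algebraMap F L x₁) *
    algebraMap L (AlgebraicClosure L) (algebraMap F L y₁)) * h1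

private theorem ps_res_one (c : AlgebraicClosure L) : (vPt c).res (C.rho 1) = 1 := by
  rw [← C.ps_sc1, C.rho_sc, C.ps_res_cF, map_one, map_one]

private theorem ps_res_ne {c : AlgebraicClosure L} (hc : c ≠ 0) {u : Qt C}
    (h : 0 < (vPt c).v (C.l u)) {e : Qt C} (he : C.InFu u e) (h0 : e ≠ 0) :
    (vPt c).res (C.rho e) ≠ 0 := by
  have h1 := C.ps_res_mul hc h he (C.inFu_inv h0 he)
  rw [mul_inv_cancel₀ h0, C.ps_res_one] at h1
  exact left_ne_zero_of_mul (h1 ▸ one_ne_zero)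

private theorem ps_v {K : Type v} {k : Type w} [Field K] [Field k] (w : Val K k) {x : K}
    (h : w.res x ≠ 0) : w.v x = 0 ∧ x ≠ 0 ∧ w.res x = w.ac x := by
  have h1 : w.v x = 0 := by
    by_contra h2
    rw [Val.res, if_neg h2] at h
    exact h rfl
  refine ⟨h1, ?_, w.res_of_v_eq h1⟩
  rintro rfl
  exact h w.res_zero

private theorem ps_A_mul {c : AlgebraicClosure L} (hc : c ≠ 0) {u : Qt C}
    (h : 0 < (vPt c).v (C.l u)) {e e' : Qt C} (he : C.InFu u e) (he' : C.InFu u e')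
    (h0 : e ≠ 0) (h0' : e' ≠ 0) :
    (vPt c).A (C.rho (e * e')) = (vPt c).A (C.rho e) + (vPt c).A (C.rho e') := by
  obtain ⟨-, h2, h3⟩ := ps_v (vPt c) (C.ps_res_ne hc h he h0)
  obtain ⟨-, h5, h6⟩ := ps_v (vPt c) (C.ps_res_ne hc h he' h0')
  obtain ⟨-, h8, h9⟩ := ps_v (vPt c) (C.ps_res_ne hc h (C.inFu_mul he he') (mul_ne_zero h0 h0'))
  rw [← (vPt c).A_mul h2 h5, (vPt c).A_eq_iff h8 (mul_ne_zero h2 h5), (vPt c).ac_mul _ _ h2 h5,
    ← h3, ← h6, ← h9, C.ps_res_mul hc h he he']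

private theorem ps_A_one (c : AlgebraicClosure L) : (vPt c).A (C.rho 1) = 0 := by
  have h1 : C.rho 1 = 1 := by
    rw [← C.ps_sc1, C.rho_sc, cF, map_one, map_one]
  rw [h1, (vPt c).A_one]

private theorem ps_A_inv {c : AlgebraicClosure L} (hc : c ≠ 0) {u : Qt C}
    (h : 0 < (vPt c).v (C.l u)) {e : Qt C} (he : C.InFu u e) (h0 : e ≠ 0) :
    (vPt c).A (C.rho e⁻¹) = - (vPt c).A (C.rho e) := by
  have h1 := C.ps_A_mul hc h he (C.inFu_inv h0 he) h0 (inv_ne_zero h0)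
  rw [mul_inv_cancel₀ h0, C.ps_A_one] at h1
  exact (neg_eq_of_add_eq_zero_right h1.symm).symm

private theorem ps_inj {c : AlgebraicClosure L} (hc : c ≠ 0) {u : Qt C}
    (h : 0 < (vPt c).v (C.l u)) {e e' : Qt C} (he : C.InFu u e) (he' : C.InFu u e')
    (h1 : (vPt c).res (C.rho e) = (vPt c).res (C.rho e')) : e = e' := by
  by_contra h2
  have h3 := C.ps_res_ne hc h (C.inFu_sub he he') (sub_ne_zero.2 h2)
  apply h3
  have h4 : C.rho e = C.rho (e - e') + C.rho e' := by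
    rw [← C.rho_add, sub_add_cancel]
  rw [h4, (vPt c).res_add (tl_rho_nn C c _) (tl_rho_nn C c _)] at h1
  exact add_eq_right.1 h1

private theorem ps_A_inj {c : AlgebraicClosure L} (hc : c ≠ 0) {u : Qt C}
    (h : 0 < (vPt c).v (C.l u)) {e e' : Qt C} (he : C.InFu u e) (he' : C.InFu u e')
    (h0 : e ≠ 0) (h0' : e' ≠ 0) (h1 : (vPt c).A (C.rho e) = (vPt c).A (C.rho e')) : e = e' := by
  obtain ⟨-, h2, h3⟩ := ps_v (vPt c) (C.ps_res_ne hc h he h0)
  obtain ⟨-, h5, h6⟩ := ps_v (vPt c) (C.ps_res_ne hc h he' h0')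
  apply C.ps_inj hc h he he'
  rw [h3, h6, ← (vPt c).A_eq_iff h2 h5, h1]

theorem exists_pu {u : Qt C} (hu : u.q ≠ 0) : ∃ c : AlgebraicClosure L, c ≠ 0 ∧
    0 < (vPt c).v (C.l u) := C.exists_pt (C.prime_lA hu)

open Classical in
/-- A chosen point over `l u`. -/
noncomputable def pu (u : Qt C) : AlgebraicClosure L :=
  if hu : u.q ≠ 0 then (C.exists_pu hu).choose else 0

theorem pu_ne {u : Qt C} (hu : u.q ≠ 0) : C.pu u ≠ 0 := by
  rw [pu, dif_pos hu]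
  exact (C.exists_pu hu).choose_spec.1

theorem pu_pos {u : Qt C} (hu : u.q ≠ 0) : 0 < (vPt (C.pu u)).v (C.l u) := by
  rw [pu, dif_pos hu]
  exact (C.exists_pu hu).choose_spec.2

theorem exists_Psi {u : Qt C} (hu : u.q ≠ 0) :
    ∃ Ψ : K2 C.K →+ Additive (Abelianization (Ext C)), ∀ (m : K2 C.K) (e : (Qt C)ˣ),
      (∃ x₀ x₁ : F, (e : Qt C) = Qt.sc x₀ + Qt.sc x₁ * u) →
      (vPt (C.pu u)).tame (K2.map C.iK m) = (vPt (C.pu u)).A (C.rho e) → Ψ m = Ext.Phi e := by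
  have hc := C.pu_ne hu
  have hp := C.pu_pos hu
  have hex : ∀ m : K2 C.K, ∃ e : (Qt C)ˣ, C.InFu u e ∧
      (vPt (C.pu u)).tame (K2.map C.iK m) = (vPt (C.pu u)).A (C.rho e) := by
    intro m
    have hI : C.Inv (K2.map C.iK m) := ⟨0, by rw [C.sM_map, sub_self, map_zero]⟩
    obtain ⟨x₀, x₁, h0, h1⟩ := C.hrQ hI hu
    exact ⟨Units.mk0 _ h0, ⟨x₀, x₁, rfl⟩, h1 _ hc hp⟩
  choose E hE1 hE2 using hex
  have huniq : ∀ (m : K2 C.K) (e : (Qt C)ˣ), C.InFu u e →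
      (vPt (C.pu u)).tame (K2.map C.iK m) = (vPt (C.pu u)).A (C.rho e) → E m = e := by
    intro m e he h1
    apply Units.ext
    exact C.ps_A_inj hc hp (hE1 m) he (E m).ne_zero e.ne_zero ((hE2 m).symm.trans h1)
  refine ⟨AddMonoidHom.mk' (fun m => Ext.Phi (E m)) ?_, ?_⟩
  · intro m m'
    have hcomm : E m * E m' = E m' * E m := by
      apply Units.ext
      rw [Units.val_mul, Units.val_mul]
      exact C.inFu_comm (hE1 m) (hE1 m')
    have h1 : E (m + m') = E m * E m' := by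
      apply huniq
      · rw [Units.val_mul]
        exact C.inFu_mul (hE1 m) (hE1 m')
      · rw [map_add, map_add, hE2, hE2, Units.val_mul,
          C.ps_A_mul hc hp (hE1 m) (hE1 m') (E m).ne_zero (E m').ne_zero]
    rw [h1, Ext.Phi_mul hcomm]
  · intro m e he h1
    rw [AddMonoidHom.mk'_apply, huniq m e he h1]

theorem exists_PsiInf :
    ∃ Ψ : K2 C.K →+ Additive (Abelianization (Ext C)), ∀ (m : K2 C.K) (d : L) (e : (Qt C)ˣ),
      d ≠ 0 → (e : Qt C) = Qt.ofL d →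
      (vInf L).tame (K2.map C.iK m) = (vInf L).A (RatFunc.C d) → Ψ m = Ext.Phi e := by
  have hA : ∀ {d : L}, d ≠ 0 → (((vInf L).A (RatFunc.C d)).toMul : L) = d := by
    intro d hd
    rw [(vInf L).A_val ((map_ne_zero _).mpr hd), (vInf_C d).2]
  have hof : ∀ {d : L}, d ≠ 0 → (Qt.ofL d : Qt C) ≠ 0 := by
    intro d hd h
    exact hd (congrArg Qt.p h)
  let E : K2 C.K → (Qt C)ˣ := fun m =>
    Units.mk0 (Qt.ofL (((vInf L).tame (K2.map C.iK m)).toMul : L)) (hof (Units.ne_zero _))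
  have hE : ∀ m, ((E m : (Qt C)ˣ) : Qt C) =
      Qt.ofL (((vInf L).tame (K2.map C.iK m)).toMul : L) := fun m => rfl
  refine ⟨AddMonoidHom.mk' (fun m => Ext.Phi (E m)) ?_, ?_⟩
  · intro m m'
    have hcomm : E m * E m' = E m' * E m := by
      apply Units.ext
      rw [Units.val_mul, Units.val_mul, hE, hE, ← map_mul, ← map_mul, mul_comm]
    have h1 : E (m + m') = E m * E m' := by
      apply Units.ext
      rw [Units.val_mul, hE, hE, hE, ← map_mul, map_add, map_add, toMul_add, Units.val_mul]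
    rw [h1, Ext.Phi_mul hcomm]
  · intro m d e hd he h1
    have h2 : E m = e := by
      apply Units.ext
      rw [hE, h1, hA hd, he]
    rw [AddMonoidHom.mk'_apply, h2]

open Classical in
/-- The residue homomorphism at `l u`. -/
noncomputable def Psi (u : Qt C) : K2 C.K →+ Additive (Abelianization (Ext C)) :=
  if hu : u.q ≠ 0 then (C.exists_Psi hu).choose else 0

theorem Psi_spec {u : Qt C} (hu : u.q ≠ 0) (m : K2 C.K) (e : (Qt C)ˣ)
    (he : ∃ x₀ x₁ : F, (e : Qt C) = Qt.sc x₀ + Qt.sc x₁ * u)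
    (h : (vPt (C.pu u)).tame (K2.map C.iK m) = (vPt (C.pu u)).A (C.rho e)) :
    C.Psi u m = Ext.Phi e := by
  rw [Psi, dif_pos hu]
  exact (C.exists_Psi hu).choose_spec m e he h

/-- The residue homomorphism at infinity. -/
noncomputable def PsiInf : K2 C.K →+ Additive (Abelianization (Ext C)) := C.exists_PsiInf.choose

theorem PsiInf_spec (m : K2 C.K) (d : L) (e : (Qt C)ˣ) (hd : d ≠ 0) (he : (e : Qt C) = Qt.ofL d)
    (h : (vInf L).tame (K2.map C.iK m) = (vInf L).A (RatFunc.C d)) : C.PsiInf m = Ext.Phi e :=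
  C.exists_PsiInf.choose_spec m d e hd he h

theorem Psi_eq_zero {u : Qt C} (hu : u.q ≠ 0) {m : K2 C.K}
    (h : (vPt (C.pu u)).tame (K2.map C.iK m) = 0) : C.Psi u m = 0 := by
  rw [C.Psi_spec hu m 1 (C.inFu_one u) (by rw [Units.val_one, C.ps_A_one, h]), Ext.Phi_one]

theorem PsiInf_eq_zero {m : K2 C.K} (h : (vInf L).tame (K2.map C.iK m) = 0) : C.PsiInf m = 0 := by
  rw [C.PsiInf_spec m 1 1 one_ne_zero (by rw [Units.val_one, map_one])
    (by rw [h, map_one, (vInf L).A_one]), Ext.Phi_one]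

/-- the coefficient of the residue of `l w` at `l u` -/
private noncomputable def cf (u w : Qt C) : Qt C :=
  Qt.sc (C.im (w.p - w.q / u.q * u.p)) + Qt.sc (C.im (w.q / u.q)) * u

private theorem cf_in (u w : Qt C) : C.InFu u (C.cf u w) := ⟨_, _, rfl⟩

private theorem cf_res {u w : Qt C} (hu : u.q ≠ 0) {c : AlgebraicClosure L} (hc : c ≠ 0)
    (h : 0 < (vPt c).v (C.l u)) : (vPt c).res (C.l w) = (vPt c).res (C.rho (C.cf u w)) := by
  have h0 : ∀ x : F, 0 ≤ (vPt c).v (C.cF x) := fun x => (tl_cF C c x).1.ge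
  have hlu : 0 ≤ (vPt c).v (C.l u) := tl_nn C hc u
  have hru : 0 ≤ (vPt c).v (C.rho u) := tl_rho_nn C c u
  have hbb : 0 ≤ (vPt c).v (C.bb (Qt.qi C)) := tl_bb_nn C c _
  have hbl : 0 ≤ (vPt c).v (C.bb (Qt.qi C) * C.l u) := (vPt c).v_mul_nonneg hbb hlu
  have hrl : 0 ≤ (vPt c).v (C.rho u + C.bb (Qt.qi C) * C.l u) := (vPt c).v_add_nonneg hru hbl
  have hz : (vPt c).res (C.l u) = 0 := (vPt c).res_of_pos h
  rw [C.l_expand hu w, C.rho_l u, cf, C.ps_res_rho]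
  rw [(vPt c).res_add ((vPt c).v_add_nonneg (h0 _) ((vPt c).v_mul_nonneg (h0 _) hlu))
      ((vPt c).v_mul_nonneg (h0 _) hrl),
    (vPt c).res_add (h0 _) ((vPt c).v_mul_nonneg (h0 _) hlu), (vPt c).res_mul (h0 _) hlu,
    (vPt c).res_mul (h0 _) hrl, (vPt c).res_add hru hbl, (vPt c).res_mul hbb hlu, hz,
    C.ps_res_cF, C.ps_res_cF, mul_zero, add_zero, mul_zero, add_zero, C.ps_res_cF]

private theorem cf_spec {u v : Qt C} (hu : u.q ≠ 0) (hv : v.q ≠ 0) (h : u * v ≠ v * u) :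
    C.cf u v ≠ 0 ∧ (vPt (C.pu u)).v (C.l v) = 0 ∧
      (vPt (C.pu u)).A (C.l v) = (vPt (C.pu u)).A (C.rho (C.cf u v)) := by
  have hc := C.pu_ne hu
  have hp := C.pu_pos hu
  have hlv : C.l v ≠ 0 := (tl_ne C h).2.1
  have h0 : (vPt (C.pu u)).v (C.l v) = 0 := by
    rcases (tl_nn C hc v).eq_or_lt with h1 | h1
    · exact h1.symm
    · exfalso
      obtain ⟨k, k', -, hk⟩ := C.commute_of_pos hc hp h1
      apply h
      exact C.inFu_comm ⟨0, 1, by rw [ps_sc0, ps_sc1, zero_add, one_mul]⟩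
        ⟨k', k, by rw [hk, add_comm]⟩
  have h1 := C.cf_res (w := v) hu hc hp
  rw [(vPt _).res_of_v_eq h0] at h1
  have h2 : (vPt (C.pu u)).res (C.rho (C.cf u v)) ≠ 0 := by
    rw [← h1]
    exact (vPt _).ac_ne _ hlv
  obtain ⟨h3, h4, h5⟩ := ps_v (vPt (C.pu u)) h2
  refine ⟨?_, h0, ?_⟩
  · intro h6
    apply h4
    rw [h6, ← C.ps_sc0, C.rho_sc, cF, map_zero, map_zero]
  · rw [(vPt _).A_eq_iff hlv h4, h1, h5]

private theorem cf_rel {u v : Qt C} (hu : u.q ≠ 0) (hv : v.q ≠ 0) :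
    Qt.ofL (-(C.s u.q / C.s v.q)) * C.cf u v = C.cf v u := by
  have h1 : C.s u.q ≠ 0 := (map_ne_zero C.s).mpr hu
  have h2 : C.s v.q ≠ 0 := (map_ne_zero C.s).mpr hv
  have h3 := C.α_ne
  have h4 := C.twoL
  ext
  · simp only [cf, Qt.add_p, Qt.add_q, Qt.mul_p, Qt.mul_q, Qt.sc_p, Qt.sc_q, Qt.ofL_p, Qt.ofL_q,
      C.im_spec, map_sub, map_div₀, map_mul, map_zero]
    field_simp
    ring
  · simp only [cf, Qt.add_p, Qt.add_q, Qt.mul_p, Qt.mul_q, Qt.sc_p, Qt.sc_q, Qt.ofL_p, Qt.ofL_q,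
      C.im_spec, map_sub, map_div₀, map_mul, map_zero]
    field_simp
    ring

private theorem ps_sc_ne {k : F} (hk : k ≠ 0) : (Qt.sc k : Qt C) ≠ 0 := by
  intro h
  have h1 : algebraMap F L k = 0 := congrArg Qt.p h
  exact hk ((map_eq_zero _).1 h1)

/-- degenerate case: `v = x + r u` with `x ∈ L`, `r ∈ F` -/
private theorem br_degen {u v : Qt C} (hu : u.q ≠ 0) (hv : v.q ≠ 0) (h0 : C.cf u v ≠ 0)
    (h : C.im (v.q / u.q) = 0) : C.br u v = 0 := by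
  have hx : C.im (v.p - v.q / u.q * u.p) ≠ 0 := by
    intro h1
    apply h0
    rw [cf, h, h1, ps_sc0, zero_mul, add_zero]
  have hr : C.re (v.q / u.q) ≠ 0 := by
    intro h1
    have h2 := C.decomp (v.q / u.q)
    rw [h1, h, map_zero, zero_mul, add_zero] at h2
    exact (div_ne_zero hv hu) h2
  have hl := C.l_expand hu v
  rw [h] at hl
  set x := C.im (v.p - v.q / u.q * u.p) with hxdef
  set r := C.re (v.q / u.q) with hrdef
  have hxF : C.cF x ≠ 0 := (map_ne_zero _).2 ((map_ne_zero _).2 hx)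
  have h1 : C.l (Qt.sc x⁻¹ * v) + C.l (Qt.sc (-(r * x⁻¹)) * u) = 1 := by
    rw [C.l_sc_mul, C.l_sc_mul, hl]
    simp only [cF, map_inv₀, map_neg, map_mul, map_zero, zero_mul, add_zero] at hxF ⊢
    field_simp
    ring
  have h2 : S (C.lK (Qt.sc x⁻¹ * v)) (C.lK (Qt.sc (-(r * x⁻¹)) * u)) = 0 := by
    apply S_of_add_eq_one
    apply Subtype.ext
    exact h1
  have h3 : C.br (Qt.sc x⁻¹ * v) (Qt.sc (-(r * x⁻¹)) * u) = 0 := by
    rw [br, h2]
    rfl
  have e1 : (Qt.sc x⁻¹ * v : Qt C) = Qt.sc x⁻¹ * v + Qt.sc 0 := by rw [ps_sc0, add_zero]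
  have e2 : (Qt.sc (-(r * x⁻¹)) * u : Qt C) = Qt.sc (-(r * x⁻¹)) * u + Qt.sc 0 := by
    rw [ps_sc0, add_zero]
  rw [e1, C.br_smul (inv_ne_zero hx), C.br_comm, e2,
    C.br_smul (neg_ne_zero.2 (mul_ne_zero hr (inv_ne_zero hx))), neg_eq_zero] at h3
  exact h3

private theorem cf_im {u v : Qt C} (hu : u.q ≠ 0) (hv : v.q ≠ 0) (h : C.im (v.q / u.q) ≠ 0) :
    C.im (u.q / v.q) ≠ 0 := by
  intro h1
  apply h
  apply C.algInj
  have h2 := congrArg (algebraMap F L) h1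
  rw [C.im_spec, map_zero, div_eq_zero_iff] at h2
  rw [C.im_spec, map_zero, div_eq_zero_iff]
  left
  rcases h2 with h2 | h2
  · have h3 : C.s u.q ≠ 0 := (map_ne_zero C.s).mpr hu
    have h4 : C.s v.q ≠ 0 := (map_ne_zero C.s).mpr hv
    rw [map_div₀] at h2 ⊢
    field_simp at h2 ⊢
    linear_combination -h2
  · exact absurd h2 (mul_ne_zero C.twoL C.α_ne)

theorem gen_uv {u v : Qt C} (hu : u.q ≠ 0) (hv : v.q ≠ 0) (h : u * v ≠ v * u) :
    C.Psi u (S (C.lK u) (C.lK v)) + C.Psi v (S (C.lK u) (C.lK v)) +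
      C.PsiInf (S (C.lK u) (C.lK v)) = Ext.iQ (C.br u v) := by
  obtain ⟨ha0, hva, hA⟩ := C.cf_spec hu hv h
  obtain ⟨hb0, hvb, hB⟩ := C.cf_spec hv hu (Ne.symm h)
  have hlu : C.l u ≠ 0 := (tl_ne C h).1
  have hlv : C.l v ≠ 0 := (tl_ne C h).2.1
  have hsu : C.s u.q ≠ 0 := (map_ne_zero C.s).mpr hu
  have hsv : C.s v.q ≠ 0 := (map_ne_zero C.s).mpr hv
  have hd0 : -(C.s u.q / C.s v.q) ≠ 0 := neg_ne_zero.2 (div_ne_zero hsu hsv)
  have hD0 : (Qt.ofL (-(C.s u.q / C.s v.q)) : Qt C) ≠ 0 := fun h => hd0 (congrArg Qt.p h)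
  have hrel := C.cf_rel hu hv
  have hmap : K2.map C.iK (S (C.lK u) (C.lK v)) = S (C.l u) (C.l v) := K2.map_S _ _ _
  set a : (Qt C)ˣ := Units.mk0 _ ha0 with ha
  set a' : (Qt C)ˣ := Units.mk0 _ hb0 with ha'
  set D : (Qt C)ˣ := Units.mk0 _ hD0 with hD
  have hrel' : D * a = a' := Units.ext hrel
  have p1 : C.Psi u (S (C.lK u) (C.lK v)) = Ext.Phi a := by
    apply C.Psi_spec hu _ a (C.cf_in u v)
    rw [hmap, (vPt _).tame_S_left hlu hlv hva, (C.v_l_pos (C.pu_ne hu) (C.pu_pos hu)).2, one_zsmul,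
      hA]
    rfl
  have p2 : C.Psi v (S (C.lK u) (C.lK v)) = Ext.Phi a'⁻¹ := by
    apply C.Psi_spec hv
    · rw [Units.val_inv_eq_inv_val]
      exact C.inFu_inv hb0 (C.cf_in v u)
    · rw [hmap, (vPt _).tame_S_right hlu hlv hvb, (C.v_l_pos (C.pu_ne hv) (C.pu_pos hv)).2,
        one_zsmul, hB, Units.val_inv_eq_inv_val, ha', Units.val_mk0,
        C.ps_A_inv (C.pu_ne hv) (C.pu_pos hv) (C.cf_in v u) hb0]
  have p3 : C.PsiInf (S (C.lK u) (C.lK v)) = Ext.Phi D := by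
    apply C.PsiInf_spec _ _ _ hd0 rfl
    obtain ⟨h1, h2⟩ := C.v_l hu
    obtain ⟨h3, h4⟩ := C.v_l hv
    rw [hmap, (vInf L).tame_S hlu hlv, h1, h3]
    apply Additive.toMul.injective
    rw [Units.ext_iff, (vInf L).A_val ((map_ne_zero _).2 hd0), (vInf_C _).2]
    have e1 : (-1 : ℤ) * -1 = 1 := by norm_num
    rw [e1, one_zsmul, neg_one_zsmul, neg_one_zsmul, sub_neg_eq_add, toMul_add, toMul_add,
      toMul_neg, Units.val_mul, Units.val_mul, Units.val_inv_eq_inv_val, (vInf L).A_val hlv,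
      (vInf L).A_val hlu, h2, h4]
    have e2 : ((Val.m1 L).toMul : L) = -1 := rfl
    rw [e2]
    have h5 := C.α_ne
    have h6 := C.twoL
    field_simp
  rw [p1, p2, p3]
  have hab : a * a'⁻¹ * D = 1 := by
    rw [← hrel']
    group
  have hcomm1 : a * a'⁻¹ = D⁻¹ := eq_inv_of_mul_eq_one_left hab
  have hL : ((a : Qt C) * ((a'⁻¹ : (Qt C)ˣ) : Qt C)).q = 0 := by
    rw [← Units.val_mul, hcomm1, Units.val_inv_eq_inv_val, hD, Units.val_mk0, Qt.inv_q, Qt.ofL_q,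
      neg_zero, zero_div]
  rw [Ext.Phi_three hab]
  congr 1
  rw [tau, C.br_comm _ ((a : Qt C) * _), C.br_L hL, C.br_L hL, neg_zero, add_zero, add_zero,
    C.br_comm, Units.val_inv_eq_inv_val, C.br_inv, C.br_comm, neg_neg]
  show C.br (C.cf u v) (C.cf v u) = C.br u v
  by_cases hi : C.im (v.q / u.q) = 0
  · rw [C.br_degen hu hv ha0 hi, cf, hi, ps_sc0, zero_mul, add_zero, C.br_scalar]
  · rw [cf, add_comm, C.br_smul hi, C.br_comm, cf, add_comm, C.br_smul (C.cf_im hu hv hi),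
      C.br_comm, neg_neg]

theorem gen_cu {u : Qt C} (hu : u.q ≠ 0) {c : F} (hc : c ≠ 0) :
    C.Psi u (S (C.iF c) (C.lK u)) + C.PsiInf (S (C.iF c) (C.lK u)) = 0 := by
  have hlu : C.l u ≠ 0 := by
    intro h
    obtain ⟨k, hk⟩ := C.l_eq_zero.1 h
    exact hu (by rw [hk, Qt.sc_q])
  have hcL : algebraMap F L c ≠ 0 := (map_ne_zero _).2 hc
  have hcF : C.cF c ≠ 0 := (map_ne_zero _).2 hcL
  have hsc := C.ps_sc_ne hc
  have hmap : K2.map C.iK (S (C.iF c) (C.lK u)) = S (C.cF c) (C.l u) := K2.map_S _ _ _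
  have p1 : C.Psi u (S (C.iF c) (C.lK u)) = Ext.Phi (Units.mk0 _ hsc)⁻¹ := by
    apply C.Psi_spec hu
    · rw [Units.val_inv_eq_inv_val]
      exact C.inFu_inv hsc (C.inFu_sc u c)
    · rw [hmap, (vPt _).tame_S_right hcF hlu (tl_cF C _ c).1,
        (C.v_l_pos (C.pu_ne hu) (C.pu_pos hu)).2, one_zsmul, Units.val_inv_eq_inv_val,
        Units.val_mk0, C.ps_A_inv (C.pu_ne hu) (C.pu_pos hu) (C.inFu_sc u c) hsc, C.rho_sc]
  have p2 : C.PsiInf (S (C.iF c) (C.lK u)) = Ext.Phi (Units.mk0 _ hsc) := by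
    apply C.PsiInf_spec _ _ _ hcL rfl
    rw [hmap, (vInf L).tame_S_right hcF hlu (vInf_C _).1, (C.v_l hu).1, neg_one_zsmul, neg_neg]
  rw [p1, p2, Ext.Phi_inv, neg_add_cancel]

theorem gen_zero {u : Qt C} (hu : u.q ≠ 0) {x y : C.K}
    (hx : (vPt (C.pu u)).v (x : RatFunc L) = 0) (hy : (vPt (C.pu u)).v (y : RatFunc L) = 0) :
    C.Psi u (S x y) = 0 := by
  apply C.Psi_eq_zero hu
  rw [K2.map_S]
  exact (vPt _).tame_S_units hx hy

end CQ

end Pool.Agent.MK
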