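import Pool.Agent.MK.Qt

/-! # Commutators in the quaternion division algebra: linear algebra

Write `F(u) = F + F u`.  `conj`, `trd`, `nrd` as in `Qt`.

PROOFS.
* `finrankQt`: `Qt C ≃ L × L` and `finrank F L = 2`.
* `sq_eq`: `u * u = trd u * u - nrd u` (from `u + conj u = trd u`, `u * conj u = nrd u`).
* `skolem`: `x, y` not scalars with the same `trd` and `nrd`.  If `y ≠ conj x` take `v = y - conj x`:
  `y v = y² - y conj x`, `v x = y x - conj x * x = y x - n`, and `y² - y conj x = t y - n - y (t - x) = y x - n`.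
  If `y = conj x` choose `c` not commuting with `y` (`y` is not central: if it commutes with `i` then
  `y.q = 0`, and if it commutes with `j` then `s y.p = y.p`), `v = y c - c conj x`; in the same way
  `y v = y c x - n c = v x`.
* `mem_H`: `H w = {h | trd ((conj w - 1) h) = 0}`.  If `u v = w v u` (`u, v ≠ 0`), then `u ∈ H w`:
  `nrd w = 1`, `v u⁻¹ v⁻¹ = u⁻¹ w`, so `trd (u⁻¹ w) = trd u⁻¹`, i.e. (multiply by `nrd u`)
  `trd (conj u * w) = trd (conj u)`; conjugating, `trd (conj w * u) = trd u`.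
* `exists_v`: `0 ≠ u ∈ H w`, `nrd w = 1`, `w ≠ 1`: then `u⁻¹` and `u⁻¹ w` have the same trace and norm; `u⁻¹` is not a
  scalar: `trd ((conj w - 1) k) = k (trd w - 2)`, and `nrd (w - 1) = 2 - trd w ≠ 0`; `u⁻¹ w` is not a scalar (it has the same
  minimal polynomial `X² - t X + n` as the non-scalar `u⁻¹`; if `u⁻¹ w = k` then `t = 2k`, `n = k²` and
  `(u⁻¹ - k)² = 0`, `u⁻¹ = k`).  `skolem` gives `v ≠ 0` with `v u⁻¹ = u⁻¹ w v`, i.e. `u v = w v u` (multiply by `u` on both sides).
* `finrankH`: `H w` is the kernel of the linear form `h ↦ trd ((conj w - 1) h)`, which is nonzero for `w ≠ 1` (take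
  `h = (conj w - 1)⁻¹`, trace `2`), so it has dimension 3.
* `H_span`: `u v = w v u`, `w ≠ 1` (so `u, v` do not commute), `u' ∈ H w`.  For `e ∈ F(u)`, `e ≠ 0`: `v e` again satisfies
  `u (v e) = w (v e) u`, and `u (v e) ∈ H w` (for `z` commuting with `v' = v e`, `z ≠ 0`: `(u z) v' = w v' (u z)`; take
  `z = v'`).  The linear map `F × F(u) → H w`, `(k, e) ↦ k u + u v e` is injective (if `k u + u v e = 0` then
  `v e = -k`, and `e ≠ 0` would give `v ∈ F(u)`, commuting with `u`), so it is bijective by dimension (`3 = 3`).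
* `transport`: `u, v, u', v'` nonzero, `u v = w v u`, `u' v' = w v' u'`, `w ≠ 1`.  By `H_span` `u' = u (k + v e)`, `e ∈ F(u)`.
  If `e ≠ 0` take this `e` and `z = k + v e ≠ 0`; if `e = 0` take `e := 1`, `z = k`.
* `product`: `w₁, w₂ ≠ 1` of norm 1: `H w₁` and `w₁ H w₂ = {w₁ h}` are 3-dimensional subspaces of the
  4-dimensional `Qt C`, so there is `0 ≠ u` in the intersection; `exists_v` for `u`, `w₁` and for `w₁⁻¹ u`, `w₂`.
-/

set_option autoImplicit false
set_option linter.unusedSectionVars false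

namespace Pool.Agent.MK

universe u v w

namespace Qt

variable {F L : Type u} [Field F] [Field L] [Algebra F L] {C : CQ F L}

theorem sq_eq (u : Qt C) : u * u = sc u.trd * u - sc u.nrd := by
  ext
  · simp only [mul_p, sub_p, sc_p, sc_q, trd_alg, nrd_alg]
    ring
  · simp only [mul_q, sub_q, sc_p, sc_q, trd_alg]
    ring

theorem nrd_mul (u v : Qt C) : (u * v).nrd = u.nrd * v.nrd := by
  apply C.algInj
  rw [map_mul, nrd_alg, nrd_alg, nrd_alg]
  simp only [mul_p, mul_q, map_add, map_mul, C.s_s, C.s_bL]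
  ring

private theorem sc_add (k l : F) : (sc (k + l) : Qt C) = sc k + sc l := by
  ext <;> simp

private theorem sc_neg (k : F) : (sc (-k) : Qt C) = -sc k := by
  ext <;> simp

private theorem sc_mul (k l : F) : (sc (k * l) : Qt C) = sc k * sc l := by
  ext <;> simp

private theorem sc_zero : (sc 0 : Qt C) = 0 := by
  ext <;> simp

private theorem sc_one : (sc 1 : Qt C) = 1 := by
  ext <;> simp

private theorem sc_comm (k : F) (x : Qt C) : x * sc k = sc k * x := by
  ext
  · simp
    ring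
  · simp [C.s_alg]
    ring

private theorem sc_ne {k : F} (hk : k ≠ 0) : (sc k : Qt C) ≠ 0 := by
  intro h
  have h1 := congrArg Qt.p h
  rw [sc_p, zero_p, map_eq_zero] at h1
  exact hk h1

private theorem conj_eq (x : Qt C) : conj x = sc x.trd - x := by
  ext
  · simp [trd_alg]
  · simp

private theorem nrd_zero : (0 : Qt C).nrd = 0 := by
  apply C.algInj
  rw [nrd_alg]
  simp

private theorem nrd_conj (x : Qt C) : (conj x).nrd = x.nrd := by
  apply C.algInj
  rw [nrd_alg, nrd_alg]
  simp only [conj_p, conj_q, map_neg, C.s_s]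
  ring

private theorem trd_conj (x : Qt C) : (conj x).trd = x.trd := by
  apply C.algInj
  rw [trd_alg, trd_alg]
  simp only [conj_p, C.s_s]
  ring

private theorem trd_mul_comm (x y : Qt C) : (x * y).trd = (y * x).trd := by
  apply C.algInj
  rw [trd_alg, trd_alg]
  simp only [mul_p, map_add, map_mul, C.s_s, C.s_bL]
  ring

private theorem trd_add (x y : Qt C) : (x + y).trd = x.trd + y.trd := by
  apply C.algInj
  rw [map_add, trd_alg, trd_alg, trd_alg]
  simp only [add_p, map_add]
  ring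

private theorem trd_sub (x y : Qt C) : (x - y).trd = x.trd - y.trd := by
  apply C.algInj
  rw [map_sub, trd_alg, trd_alg, trd_alg]
  simp only [sub_p, map_sub]
  ring

private theorem trd_sc_mul (k : F) (x : Qt C) : (sc k * x).trd = k * x.trd := by
  apply C.algInj
  rw [map_mul, trd_alg, trd_alg]
  simp only [mul_p, sc_p, sc_q, map_add, map_mul, C.s_alg, mul_zero, zero_mul, map_zero]
  ring

private theorem trd_one : (1 : Qt C).trd = 2 := by
  apply C.algInj
  rw [trd_alg, map_ofNat, one_p, map_one]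
  norm_num

private theorem trd_zero : (0 : Qt C).trd = 0 := by
  apply C.algInj
  rw [trd_alg, zero_p, map_zero, map_zero]
  norm_num

private theorem exists_noncomm {y : Qt C} (hy : ∀ k : F, y ≠ sc k) : ∃ c : Qt C, y * c ≠ c * y := by
  by_contra hcon
  push Not at hcon
  have h1 := congrArg Qt.q (hcon (qi C))
  simp only [mul_q, qi, mul_zero, zero_add, C.s_α, zero_mul, add_zero] at h1
  have hq : y.q = 0 := by
    have h2 : (2 : L) * C.α * y.q = 0 := by linear_combination -h1
    rcases mul_eq_zero.mp h2 with h3 | h3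
    · exact absurd h3 (mul_ne_zero C.twoL C.α_ne)
    · exact h3
  have h4 := congrArg Qt.q (hcon (qj C))
  simp only [mul_q, qj, mul_one, map_zero, mul_zero, add_zero, zero_mul, zero_add, one_mul] at h4
  obtain ⟨c, hc⟩ := C.fix y.p h4.symm
  apply hy c
  ext
  · rw [sc_p, hc]
  · rw [sc_q, hq]

theorem skolem {x y : Qt C} (hx : ∀ k : F, x ≠ sc k) (hy : ∀ k : F, y ≠ sc k)
    (ht : x.trd = y.trd) (hn : x.nrd = y.nrd) : ∃ v : Qt C, v ≠ 0 ∧ v * x = y * v := by
  have hcx : conj x = sc y.trd - x := by rw [conj_eq, ht]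
  have hyy := sq_eq y
  have hxx : conj x * x = sc y.nrd := by rw [conj_mul, hn]
  have key : ∀ c : Qt C, (y * c - c * conj x) * x = y * (y * c - c * conj x) := by
    intro c
    have e1 : (y * c - c * conj x) * x = y * c * x - sc y.nrd * c := by
      rw [sub_mul, mul_assoc c, hxx, sc_comm]
    have e2 : y * (y * c - c * conj x) = y * c * x - sc y.nrd * c := by
      rw [hcx, mul_sub, ← mul_assoc, hyy, mul_sub c, sc_comm, mul_sub y]
      have e3 : y * (sc y.trd * c) = sc y.trd * y * c := by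
        rw [← mul_assoc, sc_comm]
      rw [e3, sub_mul]
      rw [mul_assoc y c x]
      abel
    rw [e1, e2]
  by_cases hc : y = conj x
  · obtain ⟨c, hcc⟩ := exists_noncomm hy
    refine ⟨y * c - c * conj x, ?_, key c⟩
    rw [← hc]
    exact sub_ne_zero.mpr hcc
  · refine ⟨y * 1 - 1 * conj x, ?_, key 1⟩
    rw [mul_one, one_mul]
    exact sub_ne_zero.mpr hc

/-- The space `H w`. -/
def H (w : Qt C) : Set (Qt C) := {h | ((conj w - 1) * h).trd = 0}

private theorem mem_H_iff {w h : Qt C} : h ∈ H w ↔ (conj w * h).trd = h.trd := by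
  show ((conj w - 1) * h).trd = 0 ↔ _
  rw [sub_mul, one_mul, trd_sub, sub_eq_zero]

theorem mem_H {u v w : Qt C} (hu : u ≠ 0) (hv : v ≠ 0) (h : u * v = w * v * u) :
    u ∈ H w ∧ w.nrd = 1 := by
  have hn : w.nrd = 1 := by
    have h1 := congrArg nrd h
    rw [nrd_mul, nrd_mul, nrd_mul] at h1
    have hu' := nrd_ne hu
    have hv' := nrd_ne hv
    have h2 : (w.nrd - 1) * (v.nrd * u.nrd) = 0 := by linear_combination -h1
    rcases mul_eq_zero.mp h2 with h3 | h3
    · linear_combination h3
    · exact absurd h3 (mul_ne_zero hv' hu')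
  refine ⟨?_, hn⟩
  rw [mem_H_iff]
  have h1 : conj w * u * v = v * u := by
    rw [mul_assoc, h, ← mul_assoc, ← mul_assoc, conj_mul, hn, sc_one, one_mul]
  have h2 : conj w * u = v * u * v⁻¹ := by
    rw [← h1, mul_assoc, mul_inv_cancel₀ hv, mul_one]
  rw [h2, trd_mul_comm, ← mul_assoc, inv_mul_cancel₀ hv, one_mul]

private theorem eq_one_of {w : Qt C} (hn : w.nrd = 1) (ht : w.trd = 2) : w = 1 := by
  have h1 := sq_eq w
  rw [hn, ht, sc_one] at h1
  have h2 : (sc 2 : Qt C) = 1 + 1 := by
    rw [← sc_one, ← sc_add]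
    norm_num
  rw [h2] at h1
  have h3 : (w - 1) * (w - 1) = 0 := by
    rw [mul_sub, sub_mul, h1]
    simp only [add_mul, one_mul, mul_one]
    abel
  have h4 := mul_self_eq_zero.mp h3
  exact sub_eq_zero.mp h4

theorem exists_v {u w : Qt C} (hu : u ≠ 0) (hw : w.nrd = 1) (hw1 : w ≠ 1) (h : u ∈ H w) :
    ∃ v : Qt C, v ≠ 0 ∧ u * v = w * v * u := by
  rw [mem_H_iff] at h
  have hus : ∀ k : F, u ≠ sc k := by
    intro k hk
    rw [hk, sc_comm, trd_sc_mul, trd_conj] at h
    have h1 : (sc k : Qt C).trd = k * 2 := by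
      have := trd_sc_mul k (1 : Qt C)
      rw [mul_one, trd_one] at this
      exact this
    rw [h1] at h
    have hk0 : k ≠ 0 := by
      intro h0
      apply hu
      rw [hk, h0, sc_zero]
    exact hw1 (eq_one_of hw (mul_left_cancel₀ hk0 h))
  have hn : (conj w * u).nrd = u.nrd := by
    rw [nrd_mul, nrd_conj, hw, one_mul]
  have hys : ∀ k : F, conj w * u ≠ sc k := by
    intro k hk
    rw [hk] at h hn
    have h1 : (sc k : Qt C).trd = k * 2 := by
      have := trd_sc_mul k (1 : Qt C)
      rw [mul_one, trd_one] at this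
      exact this
    have h2 : (sc k : Qt C).nrd = k * k := by
      apply C.algInj
      rw [nrd_alg, sc_p, sc_q, C.s_alg, map_mul]
      ring
    have h3 := sq_eq u
    rw [← h, ← hn, h1, h2] at h3
    have h4 : (u - sc k) * (u - sc k) = 0 := by
      rw [mul_sub, sub_mul, sub_mul, h3, sc_comm]
      have h5 : k * 2 = k + k := by ring
      rw [h5, sc_add, sc_mul, add_mul]
      abel
    exact hus k (sub_eq_zero.mp (mul_self_eq_zero.mp h4))
  obtain ⟨v, hv, hvv⟩ := skolem hus hys h.symm hn.symm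
  refine ⟨v, hv, ?_⟩
  have h5 : w * (conj w * u * v) = u * v := by
    rw [← mul_assoc, ← mul_assoc, mul_conj, hw, sc_one, one_mul]
  rw [← h5, ← hvv, mul_assoc]

/-- the scalars as a ring homomorphism -/
private noncomputable def scHom : F →+* Qt C := (ofL : L →+* Qt C).comp (algebraMap F L)

private theorem scHom_apply (k : F) : (scHom k : Qt C) = sc k := rfl

/-- the module structure over the base field -/
@[reducible] private noncomputable def modF : Module F (Qt C) := Module.compHom (Qt C) (scHom : F →+* Qt C)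

attribute [local instance] modF

private theorem smul_def' (k : F) (x : Qt C) : k • x = sc k * x := rfl

private noncomputable def coord : Qt C ≃ₗ[F] ((F × F) × (F × F)) where
  toFun x := ((C.re x.p, C.im x.p), (C.re x.q, C.im x.q))
  map_add' x y := by
    have h1 := C.decomp (x + y).p
    have h2 := C.decomp x.p
    have h3 := C.decomp y.p
    have h4 := C.decomp (x + y).q
    have h5 := C.decomp x.q
    have h6 := C.decomp y.q
    have h7 : C.re (x + y).p = C.re x.p + C.re y.p ∧ C.im (x + y).p = C.im x.p + C.im y.p := by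
      apply C.coord_inj
      rw [← h1, map_add, map_add, add_p]
      linear_combination h2 + h3
    have h8 : C.re (x + y).q = C.re x.q + C.re y.q ∧ C.im (x + y).q = C.im x.q + C.im y.q := by
      apply C.coord_inj
      rw [← h4, map_add, map_add, add_q]
      linear_combination h5 + h6
    simp only [h7.1, h7.2, h8.1, h8.2, Prod.mk_add_mk]
  map_smul' k x := by
    have h1 := C.decomp (sc k * x).p
    have h2 := C.decomp x.p
    have h4 := C.decomp (sc k * x).q
    have h5 := C.decomp x.q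
    have e1 : (sc k * x).p = algebraMap F L k * x.p := by simp
    have e2 : (sc k * x).q = algebraMap F L k * x.q := by simp
    have h7 : C.re (sc k * x).p = k * C.re x.p ∧ C.im (sc k * x).p = k * C.im x.p := by
      apply C.coord_inj
      rw [← h1, map_mul, map_mul, e1]
      linear_combination (algebraMap F L k) * h2
    have h8 : C.re (sc k * x).q = k * C.re x.q ∧ C.im (sc k * x).q = k * C.im x.q := by
      apply C.coord_inj
      rw [← h4, map_mul, map_mul, e2]
      linear_combination (algebraMap F L k) * h5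
    rw [smul_def']
    simp only [h7.1, h7.2, h8.1, h8.2, RingHom.id_apply, Prod.smul_mk, smul_eq_mul]
  invFun y := ⟨algebraMap F L y.1.1 + algebraMap F L y.1.2 * C.α,
    algebraMap F L y.2.1 + algebraMap F L y.2.2 * C.α⟩
  left_inv x := by
    ext
    · exact (C.decomp x.p).symm
    · exact (C.decomp x.q).symm
  right_inv y := by
    obtain ⟨⟨a, b⟩, ⟨c, d⟩⟩ := y
    have h1 := C.coord_inj (C.decomp (algebraMap F L a + algebraMap F L b * C.α))
    have h2 := C.coord_inj (C.decomp (algebraMap F L c + algebraMap F L d * C.α))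
    simp only [← h1.1, ← h1.2, ← h2.1, ← h2.2]

private theorem finite_Qt : Module.Finite F (Qt C) := Module.Finite.equiv coord.symm

private theorem finrank_Qt : Module.finrank F (Qt C) = 4 := by
  rw [LinearEquiv.finrank_eq (coord (C := C))]
  simp [Module.finrank_prod]

/-- five vectors are dependent -/
private theorem dep (e : Fin 5 → Qt C) : ∃ c : Fin 5 → F, c ≠ 0 ∧ ∑ i, sc (c i) * e i = 0 := by
  have := finite_Qt (C := C)
  have h1 : Module.finrank F (Qt C) < Module.finrank F (Fin 5 → F) := by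
    rw [finrank_Qt]
    simp
  have h2 := LinearMap.ker_ne_bot_of_finrank_lt (f := Fintype.linearCombination F e) h1
  obtain ⟨c, hc, hc0⟩ := (Submodule.ne_bot_iff _).mp h2
  refine ⟨c, hc0, ?_⟩
  rw [LinearMap.mem_ker, Fintype.linearCombination_apply] at hc
  exact hc

/-- a linear form -/
private noncomputable def lin (a : Qt C) : Qt C →ₗ[F] F where
  toFun x := (a * x).trd
  map_add' x y := by rw [mul_add, trd_add]
  map_smul' k x := by
    rw [smul_def', ← mul_assoc, sc_comm, mul_assoc, trd_sc_mul]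
    rfl

private theorem two_forms (a b : Qt C) : ∃ u : Qt C, u ≠ 0 ∧ (a * u).trd = 0 ∧ (b * u).trd = 0 := by
  have := finite_Qt (C := C)
  have h1 : Module.finrank F (F × F) < Module.finrank F (Qt C) := by
    rw [finrank_Qt]
    simp [Module.finrank_prod]
  have h2 := LinearMap.ker_ne_bot_of_finrank_lt (f := (lin a).prod (lin b)) h1
  obtain ⟨u, hu, hu0⟩ := (Submodule.ne_bot_iff _).mp h2
  rw [LinearMap.mem_ker, LinearMap.prod_apply] at hu
  exact ⟨u, hu0, congrArg Prod.fst hu, congrArg Prod.snd hu⟩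

theorem H_span {u v w u' : Qt C} (hu : u ≠ 0) (hv : v ≠ 0) (hw1 : w ≠ 1) (h : u * v = w * v * u)
    (h' : u' ∈ H w) : ∃ k x y : F, u' = u * (sc k + v * (sc x + sc y * u)) := by
  have hw1' : conj w - 1 ≠ 0 := by
    intro h0
    have h1 : conj w = 1 := sub_eq_zero.mp h0
    apply hw1
    have h2 := mul_conj w
    have h3 := (mem_H hu hv h).2
    rw [h1, h3, mul_one, sc_one] at h2
    exact h2
  have hncomm : u * v ≠ v * u := by
    intro h0
    rw [h0] at h
    have h1 : (w - 1) * (v * u) = 0 := by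
      rw [sub_mul, one_mul, ← mul_assoc, ← h, sub_self]
    rcases mul_eq_zero.mp h1 with h2 | h2
    · exact hw1 (sub_eq_zero.mp h2)
    · exact mul_ne_zero hv hu h2
  have m1 : ((conj w - 1) * u).trd = 0 := (mem_H hu hv h).1
  have m2 : ((conj w - 1) * (u * v)).trd = 0 := by
    refine (mem_H (mul_ne_zero hu hv) hv ?_).1
    rw [← mul_assoc (w * v), ← h]
  have m3 : ((conj w - 1) * (u * v * u)).trd = 0 := by
    refine (mem_H (mul_ne_zero (mul_ne_zero hu hv) hu) (mul_ne_zero hv hu) ?_).1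
    have e1 : w * (v * u) = u * v := by rw [← mul_assoc, ← h]
    rw [e1]
    simp only [mul_assoc]
  have m4 : ((conj w - 1) * (conj w - 1)⁻¹).trd = 2 := by
    rw [mul_inv_cancel₀ hw1', trd_one]
  have m5 : ((conj w - 1) * u').trd = 0 := h'
  obtain ⟨c, hc0, hc⟩ := dep ![u, u * v, u * v * u, (conj w - 1)⁻¹, u']
  simp only [Fin.sum_univ_five] at hc
  simp only [Matrix.cons_val] at hc
  have hlin := congrArg (fun z => ((conj w - 1) * z).trd) hc
  simp only [mul_add, trd_add, mul_zero, trd_zero] at hlin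
  have hs : ∀ (k : F) (z : Qt C), ((conj w - 1) * (sc k * z)).trd = k * ((conj w - 1) * z).trd := by
    intro k z
    rw [← mul_assoc, sc_comm, mul_assoc, trd_sc_mul]
  rw [hs, hs, hs, hs, hs, m1, m2, m3, m4, m5] at hlin
  have hc3 : c 3 = 0 := by
    have h1 : c 3 * 2 = 0 := by linear_combination hlin
    rcases mul_eq_zero.mp h1 with h2 | h2
    · exact h2
    · exact absurd h2 C.two
  rw [hc3, sc_zero, zero_mul, add_zero] at hc
  have hu_sc : ∀ (k : F) (z : Qt C), sc k * (u * z) = u * (sc k * z) := by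
    intro k z
    rw [← mul_assoc, ← sc_comm, mul_assoc]
  have hfac : sc (c 0) * u + sc (c 1) * (u * v) + sc (c 2) * (u * v * u) =
      u * (sc (c 0) + v * (sc (c 1) + sc (c 2) * u)) := by
    rw [mul_add, mul_add, mul_add, sc_comm, hu_sc, sc_comm (c 1) v, mul_assoc u v u, hu_sc]
    rw [← mul_assoc v (sc (c 2)) u, sc_comm (c 2) v, mul_assoc (sc (c 2)) v u]
    abel
  rw [hfac] at hc
  by_cases hc4 : c 4 = 0
  · exfalso
    rw [hc4, sc_zero, zero_mul, add_zero] at hc
    have h1 : sc (c 0) + v * (sc (c 1) + sc (c 2) * u) = 0 := by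
      rcases mul_eq_zero.mp hc with h2 | h2
      · exact absurd h2 hu
      · exact h2
    have he : sc (c 1) + sc (c 2) * u = 0 := by
      by_contra he
      set e := sc (c 1) + sc (c 2) * u with he_def
      have hec : e * u = u * e := by
        rw [he_def, add_mul, mul_add, sc_comm, mul_assoc, ← mul_assoc u, sc_comm, mul_assoc]
      have hv1 : v = -sc (c 0) * e⁻¹ := by
        have h2 : v * e = -sc (c 0) := by
          rw [eq_neg_iff_add_eq_zero, add_comm]
          exact h1
        rw [← h2, mul_assoc, mul_inv_cancel₀ he, mul_one]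
      have hec' : e⁻¹ * u = u * e⁻¹ := by
        have h2 : Commute e u := hec
        exact (h2.inv_left₀).eq
      apply hncomm
      rw [hv1, mul_assoc, hec', ← mul_assoc, ← mul_assoc]
      rw [mul_neg, sc_comm]
      simp only [neg_mul]
    rw [he, mul_zero, add_zero] at h1
    have hc00 : c 0 = 0 := by
      by_contra h2
      exact sc_ne h2 h1
    have hc2 : c 2 = 0 := by
      by_contra h2
      apply hncomm
      have h3 : u = sc (-(c 2)⁻¹ * c 1) := by
        have h4 : sc (c 2) * u = -sc (c 1) := by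
          rw [eq_neg_iff_add_eq_zero, add_comm]
          exact he
        have h5 : sc (c 2)⁻¹ * (sc (c 2) * u) = u := by
          rw [← mul_assoc, ← sc_mul, inv_mul_cancel₀ h2, sc_one, one_mul]
        rw [← h5, h4, neg_mul, sc_neg, sc_mul, mul_neg]
      rw [h3, sc_comm]
    have hc1 : c 1 = 0 := by
      by_contra h2
      rw [hc2, sc_zero, zero_mul, add_zero] at he
      exact sc_ne h2 he
    apply hc0
    funext i
    fin_cases i
    · exact hc00
    · exact hc1
    · exact hc2
    · exact hc3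
    · exact hc4
  · refine ⟨-(c 4)⁻¹ * c 0, -(c 4)⁻¹ * c 1, -(c 4)⁻¹ * c 2, ?_⟩
    have h5 : sc (c 4)⁻¹ * (sc (c 4) * u') = u' := by
      rw [← mul_assoc, ← sc_mul, inv_mul_cancel₀ hc4, sc_one, one_mul]
    have h6 : sc (c 4) * u' = -(u * (sc (c 0) + v * (sc (c 1) + sc (c 2) * u))) := by
      rw [eq_neg_iff_add_eq_zero, add_comm]
      exact hc
    have h7 : ∀ k : F, (sc (-(c 4)⁻¹ * k) : Qt C) = -(sc (c 4)⁻¹ * sc k) := by
      intro k
      rw [neg_mul, sc_neg, sc_mul]
    have h8 : ∀ z : Qt C, v * (sc (c 4)⁻¹ * z) = sc (c 4)⁻¹ * (v * z) := by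
      intro z
      rw [← mul_assoc, sc_comm, mul_assoc]
    rw [h7, h7, h7, ← h5, h6]
    rw [mul_neg, hu_sc]
    rw [← mul_neg]
    congr 1
    have e1 : -(sc (c 4)⁻¹ * sc (c 1)) + -(sc (c 4)⁻¹ * sc (c 2)) * u =
        -(sc (c 4)⁻¹ * (sc (c 1) + sc (c 2) * u)) := by
      rw [mul_add, neg_mul, neg_add, mul_assoc]
    rw [e1, mul_neg, h8, ← neg_add, ← mul_add]

theorem transport {u v u' v' w : Qt C} (hu : u ≠ 0) (hv : v ≠ 0) (hu' : u' ≠ 0) (hv' : v' ≠ 0)
    (hw1 : w ≠ 1) (h : u * v = w * v * u) (h' : u' * v' = w * v' * u') :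
    ∃ e z : Qt C, e ≠ 0 ∧ z ≠ 0 ∧ e * u = u * e ∧ z * (v * e) = (v * e) * z ∧ u' = u * z := by
  obtain ⟨k, x, y, hk⟩ := H_span hu hv hw1 h (mem_H hu' hv' h').1
  by_cases he : (sc x + sc y * u : Qt C) = 0
  · rw [he, mul_zero, add_zero] at hk
    refine ⟨1, sc k, one_ne_zero, ?_, ?_, ?_, hk⟩
    · intro h0
      apply hu'
      rw [hk, h0, mul_zero]
    · rw [one_mul, mul_one]
    · rw [sc_comm]
  · refine ⟨sc x + sc y * u, sc k + v * (sc x + sc y * u), he, ?_, ?_, ?_, hk⟩
    · intro h0
      apply hu'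
      rw [hk, h0, mul_zero]
    · rw [add_mul, mul_add, sc_comm, mul_assoc, ← mul_assoc u, sc_comm, mul_assoc]
    · generalize (sc x + sc y * u : Qt C) = e
      rw [add_mul, mul_add, sc_comm]

theorem product {w₁ w₂ : Qt C} (h₁ : w₁.nrd = 1) (h₂ : w₂.nrd = 1) (h₁' : w₁ ≠ 1) (h₂' : w₂ ≠ 1) :
    ∃ u v₁ v₂ : Qt C, u ≠ 0 ∧ v₁ ≠ 0 ∧ v₂ ≠ 0 ∧ u * v₁ = w₁ * v₁ * u ∧
      (w₁⁻¹ * u) * v₂ = w₂ * v₂ * (w₁⁻¹ * u) := by
  have hw0 : w₁ ≠ 0 := by
    intro h0
    rw [h0, nrd_zero] at h₁
    exact zero_ne_one h₁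
  obtain ⟨u, hu, hu1, hu2⟩ := two_forms (conj w₁ - 1) ((conj w₂ - 1) * w₁⁻¹)
  rw [mul_assoc] at hu2
  obtain ⟨v₁, hv₁, e₁⟩ := exists_v hu h₁ h₁' hu1
  obtain ⟨v₂, hv₂, e₂⟩ := exists_v (mul_ne_zero (inv_ne_zero hw0) hu) h₂ h₂' hu2
  exact ⟨u, v₁, v₂, hu, hv₁, hv₂, e₁, e₂⟩

end Qt

end Pool.Agent.MK
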