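import Pool.Agent.MK.Fin

/-! # Third-term exactness for the conic; Step 1 of Hilbert 90 for K2

PROOFS.  `tame_∞ = (vInf L).tame`, `tame_c = (vPt c).tame`.
* `x3`: `x3_high`, `exists_list`, `red`, `fin_inf`, `fin_pt`: there is `m` with no residues of `v - m` at `c ≠ 0` and `∞`;
  `tame_0 = 0` by `tame_zero_iff`, `Inv_inf`; `unram_const`.
* `step1`: `u_M = v - s v`, `v = m_M + κ_M` by `x3`, so `u_M = κ_M - s(κ_M) = (κ - s κ)_M` (`sM_C`), `mapC_inj`.
-/

set_option autoImplicit false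
set_option linter.unusedSectionVars false

namespace Pool.Agent.MK

universe u v w

open scoped Polynomial

namespace CQ

variable {F L : Type u} [Field F] [Field L] [Algebra F L] (C : CQ F L)

/-- The last step: all residues of `v` at the points `c ≠ 0` and at `∞` vanish. -/
theorem x3_last {v : K2 (RatFunc L)} (hv : C.Inv v)
    (h : ∃ m : K2 C.K, C.Sup (v - K2.map C.iK m) [] ∧ (vInf L).tame (v - K2.map C.iK m) = 0) :
    ∃ (m : K2 C.K) (κ : K2 L),
    v = K2.map C.iK m + K2.map (RatFunc.C : L →+* RatFunc L) κ := by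
  obtain ⟨m, hS, h1⟩ := h
  have h2 := hv.sub_map C m
  have h3 : (vPt (0 : AlgebraicClosure L)).tame (v - K2.map C.iK m) = 0 := by
    rw [C.tame_zero_iff, C.Inv_inf h2, h1]
  obtain ⟨κ, hκ⟩ := unram_const (v - K2.map C.iK m) (fun c => by
    by_cases hc : c = 0
    · rw [hc, h3]
    · exact hS c hc (fun t ht => absurd ht (List.not_mem_nil)))
  refine ⟨m, κ, ?_⟩
  rw [hκ]
  abel

/-- An element `v` of `K₂(L(z))` with `v - s v` constant is the sum of a constant and an element of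
`K₂` of the function field of the conic. -/
theorem x3 {v : K2 (RatFunc L)} (hv : C.Inv v) : ∃ (m : K2 C.K) (κ : K2 L),
    v = K2.map C.iK m + K2.map (RatFunc.C : L →+* RatFunc L) κ := by
  obtain ⟨m₁, hv₁, hU⟩ := C.x3_high hv
  obtain ⟨T, hT, hS⟩ := C.exists_list hU
  obtain ⟨m₂, h2⟩ := C.red hv₁ hT hS
  have hv₂ := hv₁.sub_map C m₂
  have key : ∃ (m : K2 C.K) (κ : K2 L), v - K2.map C.iK m₁ - K2.map C.iK m₂ =
      K2.map C.iK m + K2.map (RatFunc.C : L →+* RatFunc L) κ := by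
    apply C.x3_last hv₂
    rcases h2 with h3 | ⟨t, ht, h3⟩
    · exact C.fin_inf hv₂ h3
    · exact C.fin_pt hv₂ ht h3
  obtain ⟨m, κ, h4⟩ := key
  refine ⟨m₁ + m₂ + m, κ, ?_⟩
  rw [map_add, map_add, add_assoc, ← h4]
  abel

theorem step1 {u : K2 L} {v : K2 (RatFunc L)}
    (h : K2.map (RatFunc.C : L →+* RatFunc L) u = v - K2.map C.sM v) :
    ∃ κ : K2 L, u = κ - K2.map C.s κ := by
  obtain ⟨m, κ, hv⟩ := C.x3 ⟨u, h⟩
  refine ⟨κ, mapC_inj ?_⟩
  have h1 : K2.map C.sM (K2.map (RatFunc.C : L →+* RatFunc L) κ) =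
      K2.map (RatFunc.C : L →+* RatFunc L) (K2.map C.s κ) := by
    rw [K2.map_map, K2.map_map]
    congr 2
    ext x
    exact C.sM_C x
  rw [h, hv, map_add, C.sM_map, h1, map_sub]
  abel

end CQ

end Pool.Agent.MK
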