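import Pool.Agent.MK.K2Lem

/-! # Discrete places: tame symbol and specialization

A `Val K k` is a discrete valuation `v` on the field `K` together with a multiplicative angular
component `ac` with values in a field `k` containing the residue field (so `ac x` is the residue of
`x / π ^ v x` for a chosen uniformizer `π`). -/

set_option autoImplicit false

namespace Pool.Agent.MK

universe u v w

/-- A discrete place of `K` with residues in `k` (see the file header). -/
structure Val (K : Type u) (k : Type v) [Field K] [Field k] where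
  /-- the valuation (of a nonzero element) -/
  v : K → ℤ
  /-- the angular component -/
  ac : K → k
  v_zero : v 0 = 0
  ac_zero : ac 0 = 0
  v_mul : ∀ x y, x ≠ 0 → y ≠ 0 → v (x * y) = v x + v y
  ac_mul : ∀ x y, x ≠ 0 → y ≠ 0 → ac (x * y) = ac x * ac y
  ac_ne : ∀ x, x ≠ 0 → ac x ≠ 0
  ac_neg_one : ac (-1) = -1
  pos : ∀ x y, x ≠ 0 → y ≠ 0 → x + y = 1 → 0 < v x → v y = 0 ∧ ac y = 1
  zero : ∀ x y, x ≠ 0 → y ≠ 0 → x + y = 1 → v x = 0 → v y = 0 → ac x + ac y = 1
  neg : ∀ x y, x ≠ 0 → y ≠ 0 → x + y = 1 → v x < 0 → v y = v x ∧ ac y = - ac x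

namespace Val

variable {K : Type u} {k : Type v} {E : Type w} [Field K] [Field k] [Field E]

/-- Restriction of a place along a field extension (the valuation need not be surjective). -/
def comap (w : Val E k) (φ : K →+* E) : Val K k where
  v x := w.v (φ x)
  ac x := w.ac (φ x)
  v_zero := by simp [w.v_zero]
  ac_zero := by simp [w.ac_zero]
  v_mul x y hx hy := by
    rw [map_mul, w.v_mul _ _ ((map_ne_zero φ).mpr hx) ((map_ne_zero φ).mpr hy)]
  ac_mul x y hx hy := by
    rw [map_mul, w.ac_mul _ _ ((map_ne_zero φ).mpr hx) ((map_ne_zero φ).mpr hy)]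
  ac_ne x hx := w.ac_ne _ ((map_ne_zero φ).mpr hx)
  ac_neg_one := by rw [map_neg, map_one, w.ac_neg_one]
  pos x y hx hy h := w.pos _ _ ((map_ne_zero φ).mpr hx) ((map_ne_zero φ).mpr hy)
    (by rw [← map_add, h, map_one])
  zero x y hx hy h := w.zero _ _ ((map_ne_zero φ).mpr hx) ((map_ne_zero φ).mpr hy)
    (by rw [← map_add, h, map_one])
  neg x y hx hy h := w.neg _ _ ((map_ne_zero φ).mpr hx) ((map_ne_zero φ).mpr hy)
    (by rw [← map_add, h, map_one])

/-- Extension of the field of residues. -/
def push (w : Val K k) (j : k →+* E) : Val K E where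
  v := w.v
  ac x := j (w.ac x)
  v_zero := w.v_zero
  ac_zero := by rw [w.ac_zero, map_zero]
  v_mul := w.v_mul
  ac_mul x y hx hy := by rw [w.ac_mul x y hx hy, map_mul]
  ac_ne x hx := (map_ne_zero j).mpr (w.ac_ne x hx)
  ac_neg_one := by rw [w.ac_neg_one, map_neg, map_one]
  pos x y hx hy h h1 := ⟨(w.pos x y hx hy h h1).1, by rw [(w.pos x y hx hy h h1).2, map_one]⟩
  zero x y hx hy h h1 h2 := by rw [← map_add, w.zero x y hx hy h h1 h2, map_one]
  neg x y hx hy h h1 := ⟨(w.neg x y hx hy h h1).1, by rw [(w.neg x y hx hy h h1).2, map_neg]⟩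

variable (w : Val K k)

open Classical in
/-- The angular component of a nonzero element as an element of the additive group `kˣ`
(`0` for `x = 0`). -/
noncomputable def A (x : K) : Additive kˣ :=
  if h : x ≠ 0 then Additive.ofMul (Units.mk0 (w.ac x) (w.ac_ne x h)) else 0

/-- `-1` as an element of the additive group `kˣ`. -/
def m1 (k : Type v) [Field k] : Additive kˣ := Additive.ofMul (-1)

theorem A_val {x : K} (hx : x ≠ 0) : ((w.A x).toMul : k) = w.ac x := by
  rw [A, dif_pos hx]
  rfl

theorem A_zero : w.A 0 = 0 := by rw [A, dif_neg (by simp)]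

theorem A_mul {x y : K} (hx : x ≠ 0) (hy : y ≠ 0) : w.A (x * y) = w.A x + w.A y := by
  apply Additive.toMul.injective
  rw [Units.ext_iff, toMul_add, Units.val_mul, w.A_val hx, w.A_val hy,
    w.A_val (mul_ne_zero hx hy), w.ac_mul x y hx hy]

theorem A_neg_one : w.A (-1) = m1 k := by
  apply Additive.toMul.injective
  rw [Units.ext_iff, w.A_val (neg_ne_zero.mpr one_ne_zero), w.ac_neg_one]
  rfl

theorem two_m1 : (2 : ℤ) • m1 k = 0 := by
  rw [m1, ← ofMul_zpow]
  simp

theorem A_eq_iff {x y : K} (hx : x ≠ 0) (hy : y ≠ 0) : w.A x = w.A y ↔ w.ac x = w.ac y := by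
  rw [← Additive.toMul.injective.eq_iff, Units.ext_iff, w.A_val hx, w.A_val hy]

/-- The tame symbol on symbols. -/
noncomputable def tameFun (x y : K) : Additive kˣ :=
  (w.v x * w.v y) • m1 k + w.v x • w.A y - w.v y • w.A x

theorem tameFun_mul_left (x y z : K) (hx : x ≠ 0) (hy : y ≠ 0) :
    w.tameFun (x * y) z = w.tameFun x z + w.tameFun y z := by
  simp only [tameFun, w.v_mul x y hx hy, w.A_mul hx hy, add_mul, add_zsmul, zsmul_add]
  abel

theorem tameFun_mul_right (x y z : K) (hy : y ≠ 0) (hz : z ≠ 0) :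
    w.tameFun x (y * z) = w.tameFun x y + w.tameFun x z := by
  simp only [tameFun, w.v_mul y z hy hz, w.A_mul hy hz, mul_add, add_zsmul, zsmul_add]
  abel

theorem tameFun_swap (x y : K) : w.tameFun x y = - w.tameFun y x := by
  have h : (w.v x * w.v y) • m1 k = - ((w.v y * w.v x) • m1 k) := by
    have h2 := congrArg (fun t => (w.v x * w.v y) • t) (two_m1 (k := k))
    simp only [smul_zero] at h2
    rw [smul_comm, two_zsmul] at h2
    rw [mul_comm (w.v y)]
    exact eq_neg_of_add_eq_zero_left h2
  simp only [tameFun, h]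
  abel

theorem A_one : w.A 1 = 0 := by
  have h := w.A_mul (x := 1) (y := 1) one_ne_zero one_ne_zero
  rw [one_mul] at h
  simpa using h

theorem v_one : w.v 1 = 0 := by
  have h := w.v_mul 1 1 one_ne_zero one_ne_zero
  rw [one_mul] at h
  omega

theorem ac_one : w.ac 1 = 1 := by
  rw [← w.A_val one_ne_zero, w.A_one]
  rfl

theorem v_neg_one : w.v (-1) = 0 := by
  have h := w.v_mul (-1) (-1) (neg_ne_zero.mpr one_ne_zero) (neg_ne_zero.mpr one_ne_zero)
  rw [neg_mul_neg, one_mul, w.v_one] at h
  omega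

theorem tameFun_steinberg (x y : K) (hx : x ≠ 0) (hy : y ≠ 0) (h : x + y = 1) :
    w.tameFun x y = 0 := by
  rcases lt_trichotomy (w.v x) 0 with h1 | h1 | h1
  · obtain ⟨h2, h3⟩ := w.neg x y hx hy h h1
    have h4 : w.A y = m1 k + w.A x := by
      rw [← w.A_neg_one, ← w.A_mul (neg_ne_zero.mpr one_ne_zero) hx, w.A_eq_iff hy
        (mul_ne_zero (neg_ne_zero.mpr one_ne_zero) hx), h3,
        w.ac_mul _ _ (neg_ne_zero.mpr one_ne_zero) hx, w.ac_neg_one, neg_one_mul]
    have h5 : (w.v x * w.v x + w.v x) • m1 k = 0 := by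
      obtain ⟨t, ht⟩ := Int.even_mul_succ_self (w.v x)
      have : w.v x * w.v x + w.v x = t * 2 := by linarith [mul_add (w.v x) (w.v x) 1]
      rw [this, mul_smul, two_m1, smul_zero]
    rw [tameFun, h2, h4, zsmul_add, ← add_assoc, ← add_zsmul, h5]
    abel
  · rcases lt_trichotomy (w.v y) 0 with h2 | h2 | h2
    · have := (w.neg y x hy hx (by rw [add_comm, h]) h2).1
      omega
    · simp [tameFun, h1, h2]
    · have h3 := (w.pos y x hy hx (by rw [add_comm, h]) h2).2
      have h4 : w.A x = 0 := by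
        rw [← w.A_one, w.A_eq_iff hx one_ne_zero, h3, w.ac_one]
      simp [tameFun, h1, h4]
  · obtain ⟨h2, h3⟩ := w.pos x y hx hy h h1
    have h4 : w.A y = 0 := by
      rw [← w.A_one, w.A_eq_iff hy one_ne_zero, h3, w.ac_one]
    simp [tameFun, h2, h4]

/-- The tame symbol `K₂(K) → kˣ` of a place. -/
noncomputable def tame : K2 K →+ Additive kˣ :=
  K2.lift w.tameFun (fun a b c ha hb _ => w.tameFun_mul_left a b c ha hb)
    (fun a b c _ hb hc => w.tameFun_mul_right a b c hb hc)
    (fun a b ha hb h => w.tameFun_steinberg a b ha hb h)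

theorem tame_S {x y : K} (hx : x ≠ 0) (hy : y ≠ 0) : w.tame (S x y) =
    (w.v x * w.v y) • m1 k + w.v x • w.A y - w.v y • w.A x :=
  K2.lift_S _ _ _ _ hx hy

/-- The specialization map `K₂(K) → K₂(k)` of a place (it depends on the angular component). -/
noncomputable def spec : K2 K →+ K2 k :=
  K2.lift (fun a b => S (w.ac a) (w.ac b))
    (fun a b c ha hb _ => by rw [w.ac_mul a b ha hb, S_mul_left (w.ac_ne a ha) (w.ac_ne b hb)])
    (fun a b c _ hb hc => by rw [w.ac_mul b c hb hc, S_mul_right (w.ac_ne b hb) (w.ac_ne c hc)])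
    (fun a b ha hb h => by
      rcases lt_trichotomy (w.v a) 0 with h1 | h1 | h1
      · rw [(w.neg a b ha hb h h1).2, S_neg_self]
      · rcases lt_trichotomy (w.v b) 0 with h2 | h2 | h2
        · have := (w.neg b a hb ha (by rw [add_comm, h]) h2).1
          omega
        · exact S_of_add_eq_one (w.zero a b ha hb h h1 h2)
        · rw [(w.pos b a hb ha (by rw [add_comm, h]) h2).2, S_one_left]
      · rw [(w.pos a b ha hb h h1).2, S_one_right])

@[simp] theorem spec_S (x y : K) : w.spec (S x y) = S (w.ac x) (w.ac y) := by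
  by_cases hx : x = 0
  · simp [hx, S_zero_left, w.ac_zero]
  by_cases hy : y = 0
  · simp [hy, S_zero_right, w.ac_zero]
  exact K2.lift_S _ _ _ _ hx hy

open Classical in
/-- The residue of an element of the valuation ring (junk for elements of negative valuation). -/
noncomputable def res (x : K) : k := if w.v x = 0 then w.ac x else 0

end Val

end Pool.Agent.MK
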