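import Pool.Agent.MK.HasRes

/-! # Removing the residues in degrees `≥ 2`

`Un n v`: `v` has no residues at points over primes of degree `≥ n`.

PROOFS.
* `exists_G`: let `P` be as in `finite_support` and `G = P * sM P ∈ C.A` (`P` seen in `L(z)`), `G ≠ 0`.  If `c ≠ 0`
  and `(vPt c).v G = 0` then `P(c) ≠ 0` (both factors have valuation `≥ 0` by `laur_nonneg`).
* `remove`: `v` invariant, `p` prime of degree `n ≥ 2`.  `hasRes`: `g`.  `hexA` with `x = g`, `y = 1`: `f₁, g₁`
  nonzero of degree `< n` with `p ∣ f₁ - g g₁`.  Take `m = {p, f₁} - {p, g₁} ∈ K₂(C.K)` (symbols of `C.iA _`).  At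
  `c` over `p`: `(vPt c).v p = 1` (`placeA`), so `tame m_M = A f₁ - A g₁ = A g` (residues: `f₁(c) = g(c) g₁(c)`).
  At `c ≠ 0` over a prime `q` of degree `≥ n` not associated to `p`: `p, f₁, g₁` are units at `c` (`dvd_iff_pt`,
  degrees), so there is no residue.
* `x3_high`: first step: there is `N` with `Un N v`: if `c ≠ 0` is over the prime `q` and `tame v ≠ 0` at `c`, then
  `(vPt c).v G > 0`, `q ∣ G`, `dg q ≤ dg G`.  So `Un (dg G + 1) v`.  Second step: if `Un (n+1) v`, `n ≥ 2`, then there is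
  `m` with `Un n (v - m_M)`: let `T` be a list of primes of degree `n` such that every prime of degree `n` dividing
  `G` is associated to an element of `T` (e.g. from `UniqueFactorizationMonoid.factors G`).  Induction on `T`
  with the property that there are no residues at points over primes of degree `≥ n` which are not associated
  to an element of `T`, using `remove` (the difference stays invariant: `Inv.sub_map`).
-/

set_option autoImplicit false
set_option linter.unusedSectionVars false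

namespace Pool.Agent.MK

universe u v w

open scoped Polynomial

namespace CQ

variable {F L : Type u} [Field F] [Field L] [Algebra F L] (C : CQ F L)

/-- `v` has no residues at the points over the primes of degree `≥ n`. -/
def Un (n : ℕ) (v : K2 (RatFunc L)) : Prop :=
  ∀ p : C.A, Prime p → n ≤ C.dg p → ∀ c : AlgebraicClosure L, c ≠ 0 →
    0 < (vPt c).v (p : RatFunc L) → (vPt c).tame v = 0

theorem coeA_ne {r : C.A} (hr : r ≠ 0) : (r : RatFunc L) ≠ 0 :=
  fun h => hr (Subtype.ext h)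

theorem A_nonneg (r : C.A) {c : AlgebraicClosure L} (hc : c ≠ 0) :
    0 ≤ (vPt c).v (r : RatFunc L) :=
  laur_nonneg r.2.2 hc

theorem dg_le_of_dvd {p r : C.A} (hr : r ≠ 0) (h : p ∣ r) : C.dg p ≤ C.dg r := by
  obtain ⟨t, rfl⟩ := h
  have hp : p ≠ 0 := left_ne_zero_of_mul hr
  have ht : t ≠ 0 := right_ne_zero_of_mul hr
  rw [C.dg_mul p t hp ht]
  exact Nat.le_add_right _ _

theorem dg_eq_of_assoc {p q : C.A} (hp : p ≠ 0) (h : Associated p q) : C.dg p = C.dg q := by
  have hq : q ≠ 0 := h.ne_zero_iff.mp hp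
  exact le_antisymm (C.dg_le_of_dvd hq h.dvd) (C.dg_le_of_dvd hp h.symm.dvd)

theorem exists_G (v : K2 (RatFunc L)) : ∃ G : C.A, G ≠ 0 ∧ ∀ c : AlgebraicClosure L, c ≠ 0 →
    (vPt c).v (G : RatFunc L) = 0 → (vPt c).tame v = 0 := by
  obtain ⟨P, hP, h⟩ := finite_support v
  have hP' : (algebraMap L[X] (RatFunc L) P) ≠ 0 := (map_ne_zero_iff _ (ratFunc_inj L)).2 hP
  have hsP : C.sM (algebraMap L[X] (RatFunc L) P) ≠ 0 := (map_ne_zero C.sM).2 hP'
  have hL : IsLaur (C.sM (algebraMap L[X] (RatFunc L) P)) := C.isLaur_sM (isLaur_poly P)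
  refine ⟨⟨algebraMap L[X] (RatFunc L) P * C.sM (algebraMap L[X] (RatFunc L) P), ?_⟩, ?_, ?_⟩
  · rw [C.mem_A]
    refine ⟨?_, (isLaur_poly P).mul hL⟩
    rw [map_mul, C.sM_sM, mul_comm]
  · intro h0
    exact mul_ne_zero hP' hsP (congrArg Subtype.val h0)
  · intro c hc hv
    apply h
    have h1 : (vPt c).v (algebraMap L[X] (RatFunc L) P * C.sM (algebraMap L[X] (RatFunc L) P)) = 0 :=
      hv
    rw [(vPt c).v_mul _ _ hP' hsP] at h1
    have h2 := vPt_nonneg c P
    have h3 := laur_nonneg hL hc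
    have h4 : (vPt c).v (algebraMap L[X] (RatFunc L) P) = 0 := by omega
    rw [← vPt_res c P, Val.res_of_v_eq _ h4]
    exact (vPt c).ac_ne _ hP'

theorem remove {v : K2 (RatFunc L)} (hv : C.Inv v) {p : C.A} (hp : Prime p) (hn : 2 ≤ C.dg p) :
    ∃ m : K2 C.K, (∀ c : AlgebraicClosure L, c ≠ 0 → 0 < (vPt c).v (p : RatFunc L) →
        (vPt c).tame (K2.map C.iK m) = (vPt c).tame v) ∧
      ∀ q : C.A, Prime q → C.dg p ≤ C.dg q → ¬ Associated p q →
        ∀ c : AlgebraicClosure L, c ≠ 0 → 0 < (vPt c).v (q : RatFunc L) →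
          (vPt c).tame (K2.map C.iK m) = 0 := by
  obtain ⟨g, hpg, hg⟩ := C.hasRes hv hp
  obtain ⟨f₁, g₁, h₁, hf0, hg0, -, hfn, hgn, -, hd, -⟩ :=
    C.hexA hn p hp rfl g 1 hpg (fun h => hp.not_isUnit (isUnit_of_dvd_one h))
  have hfn' : C.dg f₁ < C.dg p := hfn
  have hgn' : C.dg g₁ < C.dg p := hgn
  have hgz : g ≠ 0 := by
    rintro rfl
    exact hpg (dvd_zero p)
  have hmap : K2.map C.iK (S (C.iA p) (C.iA f₁) - S (C.iA p) (C.iA g₁)) =
      S (p : RatFunc L) (f₁ : RatFunc L) - S (p : RatFunc L) (g₁ : RatFunc L) := by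
    rw [map_sub, K2.map_S, K2.map_S]
    rfl
  have pne : (p : RatFunc L) ≠ 0 := C.coeA_ne hp.ne_zero
  have fne : (f₁ : RatFunc L) ≠ 0 := C.coeA_ne hf0
  have gne : (g₁ : RatFunc L) ≠ 0 := C.coeA_ne hg0
  have gne' : (g : RatFunc L) ≠ 0 := C.coeA_ne hgz
  refine ⟨S (C.iA p) (C.iA f₁) - S (C.iA p) (C.iA g₁), ?_, ?_⟩
  · intro c hc hcp
    have hP := placeA (C := C) hp hc hcp
    have vp : (vPt c).v (p : RatFunc L) = 1 := hP.vp
    have vf : (vPt c).v (f₁ : RatFunc L) = 0 := hP.v0 f₁ fun h =>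
      absurd (C.dg_le_of_dvd hf0 h) (by omega)
    have vg : (vPt c).v (g₁ : RatFunc L) = 0 := hP.v0 g₁ fun h =>
      absurd (C.dg_le_of_dvd hg0 h) (by omega)
    have vg' : (vPt c).v (g : RatFunc L) = 0 := hP.v0 g hpg
    have vgg : (vPt c).v ((g : RatFunc L) * (g₁ : RatFunc L)) = 0 := by
      rw [(vPt c).v_mul _ _ gne' gne, vg, vg', add_zero]
    rw [hg c hc hcp, hmap, map_sub, (vPt c).tame_S_left pne fne vf,
      (vPt c).tame_S_left pne gne vg, vp, one_zsmul, one_zsmul, sub_eq_iff_eq_add,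
      ← (vPt c).A_mul gne' gne, (vPt c).A_eq_iff fne (mul_ne_zero gne' gne)]
    by_cases hr : f₁ - g * g₁ = 0
    · have h2 : f₁ = g * g₁ := sub_eq_zero.mp hr
      rw [h2]
      rfl
    · have h2 : 0 < (vPt c).v ((f₁ - g * g₁ : C.A) : RatFunc L) :=
        (dvd_iff_pt (C := C) hp hc hcp hr).mp hd
      have h3 : (f₁ : RatFunc L) = ((f₁ - g * g₁ : C.A) : RatFunc L) +
          (g : RatFunc L) * (g₁ : RatFunc L) := by
        push_cast
        ring
      have h4 := (vPt c).res_add h2.le (le_of_eq vgg.symm)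
      rw [← h3, (vPt c).res_of_pos h2, zero_add, (vPt c).res_of_v_eq vf,
        (vPt c).res_of_v_eq vgg] at h4
      exact h4
  · intro q hq hpq hna c hc hcq
    have key : ∀ r : C.A, r ≠ 0 → ¬ q ∣ r → (vPt c).v (r : RatFunc L) = 0 := by
      intro r hr hqr
      have h1 := C.A_nonneg r hc
      by_contra h2
      exact hqr ((dvd_iff_pt (C := C) hq hc hcq hr).mpr (by omega))
    have vp : (vPt c).v (p : RatFunc L) = 0 := key p hp.ne_zero fun h =>
      hna ((hq.associated_of_dvd hp h).symm)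
    have vf : (vPt c).v (f₁ : RatFunc L) = 0 := key f₁ hf0 fun h =>
      absurd (C.dg_le_of_dvd hf0 h) (by omega)
    have vg : (vPt c).v (g₁ : RatFunc L) = 0 := key g₁ hg0 fun h =>
      absurd (C.dg_le_of_dvd hg0 h) (by omega)
    rw [hmap, map_sub, (vPt c).tame_S_units vp vf, (vPt c).tame_S_units vp vg, sub_zero]

/-- Removing the residues over a list of primes of degree `n`. -/
theorem remove_list {n : ℕ} (hn : 2 ≤ n) (T : List C.A) : (∀ t ∈ T, Prime t ∧ C.dg t = n) →
    ∀ v : K2 (RatFunc L), C.Inv v →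
      (∀ q : C.A, Prime q → n ≤ C.dg q → (∀ t ∈ T, ¬ Associated t q) →
        ∀ c : AlgebraicClosure L, c ≠ 0 → 0 < (vPt c).v (q : RatFunc L) → (vPt c).tame v = 0) →
      ∃ m : K2 C.K, C.Inv (v - K2.map C.iK m) ∧ C.Un n (v - K2.map C.iK m) := by
  induction T with
  | nil =>
    intro _ v hv h
    refine ⟨0, by rwa [map_zero, sub_zero], ?_⟩
    rw [map_zero, sub_zero]
    intro q hq hnq c hc hcq
    exact h q hq hnq (fun t ht => absurd ht List.not_mem_nil) c hc hcq
  | cons t T ih =>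
    intro hT v hv h
    obtain ⟨ht, htn⟩ := hT t List.mem_cons_self
    obtain ⟨m₁, h1, h2⟩ := C.remove hv ht (by omega)
    obtain ⟨m₂, h3, h4⟩ := ih (fun s hs => hT s (List.mem_cons_of_mem _ hs))
      (v - K2.map C.iK m₁) (hv.sub_map C m₁) (by
        intro q hq hnq hqT c hc hcq
        rw [map_sub]
        by_cases hass : Associated t q
        · have h5 : 0 < (vPt c).v (t : RatFunc L) :=
            (dvd_iff_pt (C := C) hq hc hcq ht.ne_zero).mp hass.symm.dvd
          rw [h1 c hc h5, sub_self]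
        · rw [h2 q hq (by omega) hass c hc hcq, sub_zero]
          refine h q hq hnq ?_ c hc hcq
          intro s hs
          rcases List.mem_cons.mp hs with rfl | hs
          · exact hass
          · exact hqT s hs)
    refine ⟨m₁ + m₂, ?_, ?_⟩
    · rw [map_add, ← sub_sub]
      exact h3
    · rw [map_add, ← sub_sub]
      exact h4

theorem x3_step {n : ℕ} (hn : 2 ≤ n) {v : K2 (RatFunc L)} (hv : C.Inv v) (hU : C.Un (n + 1) v) :
    ∃ m : K2 C.K, C.Inv (v - K2.map C.iK m) ∧ C.Un n (v - K2.map C.iK m) := by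
  classical
  obtain ⟨G, hG, hGc⟩ := C.exists_G v
  refine C.remove_list hn ((UniqueFactorizationMonoid.factors G).toList.filter
    (fun t => decide (C.dg t = n))) ?_ v hv ?_
  · intro t ht
    rw [List.mem_filter, Multiset.mem_toList] at ht
    exact ⟨UniqueFactorizationMonoid.prime_of_factor t ht.1, of_decide_eq_true ht.2⟩
  · intro q hq hnq hqT c hc hcq
    rcases Nat.lt_or_ge n (C.dg q) with h1 | h1
    · exact hU q hq h1 c hc hcq
    · have h2 : C.dg q = n := le_antisymm h1 hnq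
      apply hGc c hc
      by_contra h3
      have h4 := C.A_nonneg G hc
      have h5 : q ∣ G := (dvd_iff_pt (C := C) hq hc hcq hG).mpr (by omega)
      obtain ⟨t, ht, hqt⟩ := UniqueFactorizationMonoid.exists_mem_factors_of_dvd hG
        hq.irreducible h5
      refine hqT t ?_ hqt.symm
      rw [List.mem_filter, Multiset.mem_toList]
      exact ⟨ht, decide_eq_true ((C.dg_eq_of_assoc hq.ne_zero hqt).symm.trans h2)⟩

theorem x3_high {v : K2 (RatFunc L)} (hv : C.Inv v) :
    ∃ m : K2 C.K, C.Inv (v - K2.map C.iK m) ∧ C.Un 2 (v - K2.map C.iK m) := by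
  have main : ∀ k : ℕ, ∀ v : K2 (RatFunc L), C.Inv v → C.Un (2 + k) v →
      ∃ m : K2 C.K, C.Inv (v - K2.map C.iK m) ∧ C.Un 2 (v - K2.map C.iK m) := by
    intro k
    induction k with
    | zero =>
      intro v hv hU
      refine ⟨0, by rwa [map_zero, sub_zero], ?_⟩
      rw [map_zero, sub_zero]
      exact hU
    | succ k ih =>
      intro v hv hU
      obtain ⟨m₁, h1, h2⟩ := C.x3_step (n := 2 + k) (by omega) hv hU
      obtain ⟨m₂, h3, h4⟩ := ih _ h1 h2
      refine ⟨m₁ + m₂, ?_, ?_⟩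
      · rw [map_add, ← sub_sub]
        exact h3
      · rw [map_add, ← sub_sub]
        exact h4
  obtain ⟨G, hG, hGc⟩ := C.exists_G v
  refine main (C.dg G + 1) v hv ?_
  intro q hq hnq c hc hcq
  apply hGc c hc
  by_contra h3
  have h4 := C.A_nonneg G hc
  have h5 : q ∣ G := (dvd_iff_pt (C := C) hq hc hcq hG).mpr (by omega)
  have h6 := C.dg_le_of_dvd hG h5
  omega

end CQ

end Pool.Agent.MK
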